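import Pool.Agent.Lib.MP_c9b009_ag.LF.SpecC

/-!
# MP_c9b009_ag, row LF, part C: module CAM (helper50), the chart and the function field
-/

set_option autoImplicit false

namespace Pool.Agent.Lib.MPc9b009.LF

open MvPolynomial Pool.Agent.Lib.MPc9b009.B5 Pool.Agent.Lib.MPc9b009.OD
  Pool.Agent.Lib.MPc9b009.PS Pool.Agent.Lib.MPc9b009.LS

namespace CAMM

/-- Euler: a homogeneous polynomial at `t y`. -/
theorem hom_eval {N : ℕ} {L : Type} [Field L] [Algebra ℂ L] (t : L) (y : Fin N → L) {q : PR N}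
    {e : ℕ} (hq : q.IsHomogeneous e) : aeval (fun l => t * y l) q = t ^ e * aeval y q := by
  rw [aeval_def, aeval_def, eval₂_eq', eval₂_eq', Finset.mul_sum]
  refine Finset.sum_congr rfl fun s hs => ?_
  have h1 : ∑ i, s i = e := by
    by_contra h0
    refine mem_support_iff.1 hs (hq.coeff_eq_zero ?_)
    rw [Finsupp.degree_eq_sum]
    exact h0
  rw [← h1, ← Finset.prod_pow_eq_pow_sum, ← mul_assoc, mul_comm _ (algebraMap ℂ L _), mul_assoc,
    ← Finset.prod_mul_distrib]
  simp only [mul_pow]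

theorem sum_hc {N : ℕ} (q : PR N) (K : ℕ) (hK : q.totalDegree ≤ K) :
    ∑ e ∈ Finset.range (K + 1), homogeneousComponent e q = q := by
  conv_rhs => rw [← sum_homogeneousComponent q]
  symm
  refine Finset.sum_subset (Finset.range_mono (by omega)) fun e _ he => ?_
  rw [Finset.mem_range, not_lt] at he
  exact homogeneousComponent_eq_zero _ _ (by omega)

/-- the homogenization with `X b` -/
noncomputable def hz {N : ℕ} (b : Fin N) (K : ℕ) (q : PR N) : PR N :=
  ∑ e ∈ Finset.range (K + 1), X b ^ (K - e) * homogeneousComponent e q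

theorem hz_hom {N : ℕ} (b : Fin N) (K : ℕ) (q : PR N) : (hz b K q).IsHomogeneous K := by
  refine IsHomogeneous.sum _ _ _ fun e he => ?_
  rw [Finset.mem_range] at he
  have h := (isHomogeneous_X_pow (R := ℂ) b (K - e)).mul (homogeneousComponent_isHomogeneous e q)
  rwa [show K - e + e = K by omega] at h

theorem hz_eval {N : ℕ} {L : Type} [Field L] [Algebra ℂ L] (b : Fin N) (K : ℕ) (q : PR N)
    (hK : q.totalDegree ≤ K) (t : L) (y : Fin N → L) (hb : y b = 1) :
    aeval (fun l => t * y l) (hz b K q) = t ^ K * aeval y q := by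
  rw [hom_eval t y (hz_hom b K q)]
  congr 1
  unfold hz
  conv_rhs => rw [← sum_hc q K hK]
  rw [map_sum, map_sum]
  refine Finset.sum_congr rfl fun e _ => ?_
  rw [map_mul, map_pow, aeval_X, hb, one_pow, one_mul]

theorem hz_sub {N : ℕ} (b : Fin N) (K : ℕ) (q : PR N) (hK : q.totalDegree ≤ K) :
    hz b K q - q ∈ Ideal.span {(X b - 1 : PR N)} := by
  have h : hz b K q - q =
      ∑ e ∈ Finset.range (K + 1), (X b ^ (K - e) - 1) * homogeneousComponent e q := by
    have h0 : hz b K q - q = hz b K q -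
        ∑ e ∈ Finset.range (K + 1), homogeneousComponent e q := by rw [sum_hc q K hK]
    rw [h0]
    unfold hz
    rw [← Finset.sum_sub_distrib]
    refine Finset.sum_congr rfl fun e _ => ?_
    rw [sub_mul, one_mul]
  rw [h]
  refine Ideal.sum_mem _ fun e _ => Ideal.mul_mem_right _ _ ?_
  rw [Ideal.mem_span_singleton]
  simpa using sub_dvd_pow_sub_pow (X b : PR N) 1 (K - e)

section Gen

variable {N : ℕ} {b : Fin N} {I : Ideal (PR N)} {L : Type} [Field L] [Algebra ℂ L]
  {φ : PR N →ₐ[ℂ] L}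

theorem phi_eq (φ : PR N →ₐ[ℂ] L) (hb : φ (X b) ≠ 0) (q : PR N) :
    φ q = aeval (fun l => φ (X b) * (φ (X l) / φ (X b))) q := by
  have h : φ = aeval (fun l => φ (X b) * (φ (X l) / φ (X b))) := by
    refine MvPolynomial.algHom_ext fun l => ?_
    rw [aeval_X, mul_div_cancel₀ _ hb]
  exact congrArg (fun f : PR N →ₐ[ℂ] L => f q) h

theorem mem_iff (hH : Hom I) (hb : X b ∉ I) (hφ : Gen I L φ) (q : PR N) :
    q ∈ chI b I ↔ aeval (fun l => φ (X l) / φ (X b)) q = 0 := by
  have hb0 : φ (X b) ≠ 0 := fun h => hb ((hφ.ker _).1 h)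
  have hyb : (fun l => φ (X l) / φ (X b)) b = 1 := div_self hb0
  constructor
  · intro hq
    have hle : chI b I ≤ RingHom.ker (aeval (fun l => φ (X l) / φ (X b)) : PR N →ₐ[ℂ] L) := by
      refine sup_le (fun p hp => ?_) ?_
      · rw [RingHom.mem_ker, ← sum_homogeneousComponent p, map_sum]
        refine Finset.sum_eq_zero fun e _ => ?_
        have h1 : φ (homogeneousComponent e p) = 0 := (hφ.ker _).2 (hH p hp e)
        rw [phi_eq φ hb0, hom_eval _ _ (homogeneousComponent_isHomogeneous e p)] at h1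
        exact (mul_eq_zero.1 h1).resolve_left (pow_ne_zero _ hb0)
      · rw [Ideal.span_singleton_le_iff_mem, RingHom.mem_ker, map_sub, map_one, aeval_X]
        exact sub_eq_zero.2 hyb
    exact RingHom.mem_ker.1 (hle hq)
  · intro hq
    have h1 : hz b q.totalDegree q ∈ I := by
      rw [← hφ.ker, phi_eq φ hb0, hz_eval b _ q le_rfl _ _ hyb, hq, mul_zero]
    have h2 : hz b q.totalDegree q ∈ chI b I := Ideal.mem_sup_left h1
    have h3 : hz b q.totalDegree q - q ∈ chI b I := Ideal.mem_sup_right (hz_sub b _ q le_rfl)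
    have h4 := Ideal.sub_mem _ h2 h3
    rwa [sub_sub_cancel] at h4

/-- `φ (X b)` is transcendental over `ℂ[y]`. -/
theorem transc (hI : I.IsPrime) (hH : Hom I) (hb : X b ∉ I) (hφ : Gen I L φ) (P : Polynomial (PR N))
    (hP : ∑ k ∈ P.support, aeval (fun l => φ (X l) / φ (X b)) (P.coeff k) * φ (X b) ^ k = 0)
    (k : ℕ) : aeval (fun l => φ (X l) / φ (X b)) (P.coeff k) = 0 := by
  classical
  have hb0 : φ (X b) ≠ 0 := fun h => hb ((hφ.ker _).1 h)
  have hyb : (fun l => φ (X l) / φ (X b)) b = 1 := div_self hb0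
  by_cases hk : k ∈ P.support
  swap
  · rw [Polynomial.notMem_support_iff.1 hk, map_zero]
  set K : ℕ := P.support.sup fun k => (P.coeff k).totalDegree with hKd
  have hK : ∀ k ∈ P.support, (P.coeff k).totalDegree ≤ K := fun k hk =>
    Finset.le_sup (f := fun k => (P.coeff k).totalDegree) hk
  have h1 : ∑ k ∈ P.support, X b ^ k * hz b K (P.coeff k) ∈ I := by
    rw [← hφ.ker, map_sum]
    have h2 : ∀ k ∈ P.support, φ (X b ^ k * hz b K (P.coeff k)) =
        φ (X b) ^ K * (aeval (fun l => φ (X l) / φ (X b)) (P.coeff k) * φ (X b) ^ k) := by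
      intro k hk
      rw [map_mul, map_pow, phi_eq φ hb0 (hz b K (P.coeff k)), hz_eval b K _ (hK k hk) _ _ hyb]
      ring
    rw [Finset.sum_congr rfl h2, ← Finset.mul_sum, hP, mul_zero]
  have h3 := hH _ h1 (k + K)
  rw [map_sum, Finset.sum_eq_single k] at h3
  · have h4 : (X b ^ k * hz b K (P.coeff k)).IsHomogeneous (k + K) :=
      (isHomogeneous_X_pow b k).mul (hz_hom b K _)
    rw [homogeneousComponent_eq_self ((mem_homogeneousSubmodule _ _).2 h4)] at h3
    have h5 : hz b K (P.coeff k) ∈ I := (hI.mem_or_mem h3).resolve_left fun h =>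
      hb (hI.mem_of_pow_mem _ h)
    have h6 := (hφ.ker _).2 h5
    rw [phi_eq φ hb0, hz_eval b K _ (hK k hk) _ _ hyb] at h6
    exact (mul_eq_zero.1 h6).resolve_left (pow_ne_zero _ hb0)
  · intro j _ hj
    have h4 : (X b ^ j * hz b K (P.coeff j)).IsHomogeneous (j + K) :=
      (isHomogeneous_X_pow b j).mul (hz_hom b K _)
    rw [homogeneousComponent_of_mem ((mem_homogeneousSubmodule _ _).2 h4), if_neg (by omega)]
  · exact fun h => absurd hk h

end Gen

/-- the function field -/
theorem gen_frac {N : ℕ} (P : Ideal (PR N)) [hP : P.IsPrime] :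
    Gen P (FractionRing (PR N ⧸ P))
      ((IsScalarTower.toAlgHom ℂ (PR N ⧸ P) (FractionRing (PR N ⧸ P))).comp
        (Ideal.Quotient.mkₐ ℂ P)) := by
  constructor
  · intro q
    rw [← Ideal.Quotient.eq_zero_iff_mem]
    exact (IsFractionRing.injective (PR N ⧸ P) (FractionRing (PR N ⧸ P))).eq_iff' (map_zero _)
  · intro y
    obtain ⟨a, b, hb, hab⟩ := IsFractionRing.div_surjective (A := PR N ⧸ P) y
    obtain ⟨a', rfl⟩ := Ideal.Quotient.mk_surjective a
    obtain ⟨b', rfl⟩ := Ideal.Quotient.mk_surjective b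
    have hb0 : algebraMap (PR N ⧸ P) (FractionRing (PR N ⧸ P)) (Ideal.Quotient.mk P b') ≠ 0 :=
      IsFractionRing.to_map_ne_zero_of_mem_nonZeroDivisors hb
    refine ⟨a', b', hb0, ?_⟩
    rw [← hab]
    exact div_mul_cancel₀ _ hb0

theorem alg_of_frac {R' L : Type} [CommRing R'] [Field L] [Algebra R' L] (A : Subalgebra R' L)
    (h : ∀ z : L, ∃ c d : L, c ∈ A ∧ d ∈ A ∧ d ≠ 0 ∧ z * d = c) : Algebra.IsAlgebraic A L := by
  refine ⟨fun z => ?_⟩
  obtain ⟨c, d, hc, hd, hd0, hcd⟩ := h z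
  refine ⟨Polynomial.C (⟨d, hd⟩ : A) * Polynomial.X - Polynomial.C (⟨c, hc⟩ : A), ?_, ?_⟩
  · intro h0
    have h1 := congrArg (fun p => Polynomial.coeff p 1) h0
    simp [Polynomial.coeff_C] at h1
    exact hd0 (congrArg Subtype.val h1)
  · have e1 : algebraMap A L ⟨d, hd⟩ = d := rfl
    have e2 : algebraMap A L ⟨c, hc⟩ = c := rfl
    rw [map_sub, map_mul, Polynomial.aeval_C, Polynomial.aeval_X, Polynomial.aeval_C, e1, e2,
      mul_comm, hcd, sub_self]

/-- The transcendence degree of the function field. -/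
theorem trdeg_gen {N : ℕ} {I : Ideal (PR N)} {L : Type} [Field L] [Algebra ℂ L]
    {φ : PR N →ₐ[ℂ] L} (hI : I.IsPrime) (hφ : Gen I L φ) :
    Algebra.trdeg ℂ (PR N ⧸ I) = Algebra.trdeg ℂ L := by
  have hker : ∀ q ∈ I, φ q = 0 := fun q hq => (hφ.ker q).2 hq
  let ψ : (PR N ⧸ I) →ₐ[ℂ] L := Ideal.Quotient.liftₐ I φ hker
  have hψ : ∀ q : PR N, ψ (Ideal.Quotient.mk I q) = φ q := fun q => rfl
  have hinj : Function.Injective ψ := by
    rw [injective_iff_map_eq_zero]
    intro a ha
    obtain ⟨q, rfl⟩ := Ideal.Quotient.mk_surjective a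
    rw [hψ, hφ.ker] at ha
    exact Ideal.Quotient.eq_zero_iff_mem.2 ha
  have hdom : IsDomain (PR N ⧸ I) := Ideal.Quotient.isDomain I
  let iBL : Algebra (PR N ⧸ I) L := ψ.toRingHom.toAlgebra
  have iT : IsScalarTower ℂ (PR N ⧸ I) L := IsScalarTower.of_algebraMap_eq fun a =>
    (ψ.commutes a).symm
  have iF : FaithfulSMul (PR N ⧸ I) L := (faithfulSMul_iff_algebraMap_injective _ _).2 hinj
  have iA : Algebra.IsAlgebraic (PR N ⧸ I) L := by
    refine ⟨fun z => ?_⟩
    obtain ⟨a, b, hb, hab⟩ := hφ.frac z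
    have hb1 : (Ideal.Quotient.mk I b) ≠ 0 := by
      intro h0
      apply hb
      rw [← hψ, h0, map_zero]
    refine ⟨Polynomial.C (Ideal.Quotient.mk I b) * Polynomial.X -
      Polynomial.C (Ideal.Quotient.mk I a), ?_, ?_⟩
    · intro h0
      have h1 := congrArg (fun p => Polynomial.coeff p 1) h0
      simp [Polynomial.coeff_C] at h1
      exact hb1 h1
    · have e1 : algebraMap (PR N ⧸ I) L (Ideal.Quotient.mk I b) = φ b := rfl
      have e2 : algebraMap (PR N ⧸ I) L (Ideal.Quotient.mk I a) = φ a := rfl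
      rw [map_sub, map_mul, Polynomial.aeval_C, Polynomial.aeval_X, Polynomial.aeval_C, e1, e2,
        mul_comm, hab, sub_self]
  have h := trdeg_add_eq ℂ (PR N ⧸ I) (A := L)
  rw [trdeg_eq_zero (R := PR N ⧸ I) (A := L), add_zero] at h
  exact h

theorem trdeg_ch {N : ℕ} {b : Fin N} {I : Ideal (PR N)} {L : Type} [Field L] [Algebra ℂ L]
    {φ : PR N →ₐ[ℂ] L} (hI : I.IsPrime) (hH : Hom I) (hb : X b ∉ I) (hφ : Gen I L φ)
    (hC : (chI b I).IsPrime) :
    Algebra.trdeg ℂ L = Algebra.trdeg ℂ (PR N ⧸ chI b I) + 1 := by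
  classical
  have hb0 : φ (X b) ≠ 0 := fun h => hb ((hφ.ker _).1 h)
  set y : Fin N → L := fun l => φ (X l) / φ (X b) with hy
  have hker : ∀ q ∈ chI b I, (aeval y : PR N →ₐ[ℂ] L) q = 0 := fun q hq =>
    (mem_iff hH hb hφ q).1 hq
  let ψ : (PR N ⧸ chI b I) →ₐ[ℂ] L := Ideal.Quotient.liftₐ (chI b I) (aeval y) hker
  have hψ : ∀ q : PR N, ψ (Ideal.Quotient.mk (chI b I) q) = aeval y q := fun q => rfl
  have hinj : Function.Injective ψ := by
    rw [injective_iff_map_eq_zero]
    intro a ha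
    obtain ⟨q, rfl⟩ := Ideal.Quotient.mk_surjective a
    rw [hψ] at ha
    exact Ideal.Quotient.eq_zero_iff_mem.2 ((mem_iff hH hb hφ q).2 ha)
  have hdom : IsDomain (PR N ⧸ chI b I) := Ideal.Quotient.isDomain _
  let iBL : Algebra (PR N ⧸ chI b I) L := ψ.toRingHom.toAlgebra
  have iT : IsScalarTower ℂ (PR N ⧸ chI b I) L := IsScalarTower.of_algebraMap_eq fun a =>
    (ψ.commutes a).symm
  have iF : FaithfulSMul (PR N ⧸ chI b I) L := (faithfulSMul_iff_algebraMap_injective _ _).2 hinj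
  have e0 : ∀ q : PR N, algebraMap (PR N ⧸ chI b I) L (Ideal.Quotient.mk (chI b I) q) =
    aeval y q := fun q => rfl
  have h := trdeg_add_eq ℂ (PR N ⧸ chI b I) (A := L)
  rw [← h]
  congr 1
  refine le_antisymm ?_ ?_
  · have iA : Algebra.IsAlgebraic (Algebra.adjoin (PR N ⧸ chI b I) ({φ (X b)} : Set L)) L := by
      refine alg_of_frac _ fun z => ?_
      have ht : φ (X b) ∈ Algebra.adjoin (PR N ⧸ chI b I) ({φ (X b)} : Set L) :=
        Algebra.subset_adjoin rfl
      have hmem : ∀ q : PR N, φ q ∈ Algebra.adjoin (PR N ⧸ chI b I) ({φ (X b)} : Set L) := by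
        intro q
        induction q using MvPolynomial.induction_on with
        | C c =>
          have : φ (C c) = algebraMap (PR N ⧸ chI b I) L (Ideal.Quotient.mk (chI b I) (C c)) := by
            rw [e0, aeval_C]
            exact φ.commutes c
          rw [this]
          exact Subalgebra.algebraMap_mem _ _
        | add p q hp hq =>
          rw [map_add]
          exact Subalgebra.add_mem _ hp hq
        | mul_X p l hp =>
          rw [map_mul]
          refine Subalgebra.mul_mem _ hp ?_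
          have : φ (X l) = algebraMap (PR N ⧸ chI b I) L (Ideal.Quotient.mk (chI b I) (X l)) *
              φ (X b) := by
            rw [e0, aeval_X]
            exact (div_mul_cancel₀ _ hb0).symm
          rw [this]
          exact Subalgebra.mul_mem _ (Subalgebra.algebraMap_mem _ _) ht
      obtain ⟨c, d, hd, hcd⟩ := hφ.frac z
      exact ⟨φ c, φ d, hmem c, hmem d, hd, hcd⟩
    have h1 := Algebra.IsAlgebraic.trdeg_le_cardinalMk (PR N ⧸ chI b I) ({φ (X b)} : Set L)
    rwa [Cardinal.mk_singleton] at h1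
  · have hT : Transcendental (PR N ⧸ chI b I) (φ (X b)) := by
      rw [transcendental_iff]
      intro p hp
      obtain ⟨P, rfl⟩ := Polynomial.map_surjective _ (Ideal.Quotient.mk_surjective (I := chI b I)) p
      have h1 : ∑ k ∈ P.support, aeval (fun l => φ (X l) / φ (X b)) (P.coeff k) * φ (X b) ^ k = 0 := by
        rw [Polynomial.aeval_def, Polynomial.eval₂_map, Polynomial.eval₂_eq_sum,
          Polynomial.sum_def] at hp
        exact hp
      ext k
      rw [Polynomial.coeff_map, Polynomial.coeff_zero, Ideal.Quotient.eq_zero_iff_mem]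
      exact (mem_iff hH hb hφ _).2 (transc hI hH hb hφ P h1 k)
    have : Algebra.Transcendental (PR N ⧸ chI b I) L := ⟨_, hT⟩
    exact Cardinal.one_le_iff_pos.2 (trdeg_pos _ _)

end CAMM

open CAMM in
theorem specCAM : SpecCAM := by
  intro N b I hI hH hb
  have hC : (chI b I).IsPrime := by
    have hφ := gen_frac I
    have h : chI b I = RingHom.ker (aeval (fun l => _ / _) : PR N →ₐ[ℂ] FractionRing (PR N ⧸ I)) :=
      Ideal.ext fun q => (mem_iff hH hb hφ q).trans RingHom.mem_ker.symm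
    rw [h]
    exact RingHom.ker_isPrime _
  refine ⟨fun L _ _ φ hφ q => mem_iff hH hb hφ q, hC, ?_⟩
  rw [trdeg_gen hI (gen_frac I)]
  exact trdeg_ch hI hH hb (gen_frac I) hC

end Pool.Agent.Lib.MPc9b009.LF
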