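import Pool.Agent.Lib.MP_c9b009_ag.LF.SpecC
import Pool.Agent.Lib.MP_c9b009_ag.LS.GTA

/-!
# MP_c9b009_ag, row LF, module CAS: the volume form, `X` generically symplectic
-/

set_option autoImplicit false

namespace Pool.Agent.Lib.MPc9b009.LF

open MvPolynomial Pool.Agent.Lib.MPc9b009.B5 Pool.Agent.Lib.MPc9b009.OD
  Pool.Agent.Lib.MPc9b009.PS Pool.Agent.Lib.MPc9b009.LS

namespace CASM

lemma zer_ch {N : ℕ} {b : Fin N} {I : Ideal (PR N)} {x : Cn N} (hx : x ∈ Zer I) (hb : x b = 1) :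
    x ∈ Zer (chI b I) := by
  have h : chI b I ≤ RingHom.ker (eval x) := by
    refine sup_le (fun a ha => hx a ha) ?_
    rw [Ideal.span_le]
    rintro z hz
    rw [Set.mem_singleton_iff] at hz
    subst hz
    show eval x (X b - 1) = 0
    rw [map_sub, map_one, eval_X, hb, sub_self]
  exact fun a ha => h ha

lemma rank_even {N : ℕ} {π : Fin N → Fin N → PR N} (hsk : ∀ i j, π j i = - π i j) (x : Cn N)
    (k : ℕ) (h : (mat π x).rank ≤ 2 * k + 1) : (mat π x).rank ≤ 2 * k := by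
  refine specSKE ℂ inferInstance inferInstance N k (mat π x) ?_ h
  ext i j
  rw [Matrix.transpose_apply, Matrix.neg_apply]
  show eval x (π j i) = - eval x (π i j)
  rw [hsk i j, map_neg]

lemma rank_le {N d : ℕ} {π : Fin N → Fin N → PR N} {p : Ideal (PR N)} (hp : p.IsPrime)
    (hst : Stab π p) (htr : Algebra.trdeg ℂ (PR N ⧸ p) = ((d : ℕ) : Cardinal))
    {x : Cn N} (hx : x ∈ Zer p) : (mat π x).rank ≤ d := by
  refine (specRKM ℂ inferInstance N N d (mat π x)).1 fun I J => ?_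
  have hmem : mnr π I J ∈ p := by
    by_contra hno
    have h1 := specDIM N N (d + 1) π p hp hst ⟨I, J, hno⟩
    rw [htr] at h1
    have h2 : d + 1 ≤ d := by exact_mod_cast h1
    omega
  have h3 := hx _ hmem
  rw [mnr, RingHom.map_det] at h3
  exact h3

/-- normalization of a point -/
lemma norm_pt (hCPR : SpecCPR) {N : ℕ} (g : Biv N) {I : Ideal (PR N)} (hI : Hom I) {b : Fin N}
    {x : Cn N} (hx : x ∈ Zer I) (hb : x b ≠ 0) :
    ∃ y ∈ Zer I, y b = 1 ∧ rk g.f y = rk g.f x := by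
  refine ⟨(x b)⁻¹ • x, LGRM.zer_smul hI _ hx, ?_, ?_⟩
  · rw [Pi.smul_apply, smul_eq_mul, inv_mul_cancel₀ hb]
  · exact (hCPR N b g x).2 _ (inv_ne_zero hb)

lemma ne_zero_of {N : ℕ} {x : Cn N} {b : Fin N} (h : x b = 1) : x ≠ 0 := by
  rintro rfl
  exact zero_ne_one h

/-- the rank is even -/
lemma rk_even (hCPR : SpecCPR) (hCPI : SpecCPI) {N : ℕ} (g : Biv N) {I : Ideal (PR N)} (hI : Hom I)
    (hst : Stab g.f I) (hjac : ∀ i j l, jac g.f i j l ∈ I) {x : Cn N} (hx : x ∈ Zer I)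
    (hx0 : x ≠ 0) (k : ℕ) (h : rk g.f x ≤ 2 * k + 1) : rk g.f x ≤ 2 * k := by
  obtain ⟨b, hb⟩ := Function.ne_iff.1 hx0
  obtain ⟨y, hy, hyb, hyr⟩ := norm_pt hCPR g hI hx hb
  rw [← hyr, ← (hCPR N b g y).1 hyb] at h ⊢
  exact rank_even (hCPI N b g I hI hst hjac).1 y k h

end CASM

open CASM in
theorem specCAS (hPHA : SpecPHA) (hCAM : SpecCAM) (hCPI : SpecCPI) (hCPR : SpecCPR)
    (hCRR : SpecCRR) (hCSM : SpecCSM) (hCMI : SpecCMI) (hCIV : SpecCIV) : SpecCAS := by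
  intro N n s d I P g hs hsn hI hHI hSI hjac htrI hsm hRd hgen hIP hP hHP hSP htrP hmin hbig
    L iF iA φ hG
  -- `n` is even
  have hn2 : ∃ m, n = 2 * m + 2 := by
    obtain ⟨x₁, hx₁, hx₁0, hr₁⟩ := hgen
    rcases Nat.even_or_odd' n with ⟨m, hm | hm⟩
    · refine ⟨m - 1, ?_⟩
      omega
    · exfalso
      have h1 := rk_even hCPR hCPI g hHI hSI hjac hx₁ hx₁0 m (by omega)
      omega
  obtain ⟨m, hnm⟩ := hn2
  obtain ⟨x₀, hx₀, hx₀0, hr₀⟩ := hbig
  obtain ⟨b, hb⟩ := Function.ne_iff.1 hx₀0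
  obtain ⟨x, hx, hxb, hxr⟩ := norm_pt hCPR g hHP hx₀ hb
  have hx0 : x ≠ 0 := ne_zero_of hxb
  have hrx : s + 2 ≤ rk g.f x := by rw [hxr]; exact hr₀
  have hxI : x ∈ Zer I := fun q hq => hx q (hIP hq)
  have hbP : (X b : PR N) ∉ P := by
    intro h
    have h1 := hx _ h
    rw [eval_X, hxb] at h1
    exact one_ne_zero h1
  have hbI : (X b : PR N) ∉ I := fun h => hbP (hIP h)
  have hcamI := hCAM N b I hI hHI hbI
  have hcamP := hCAM N b P hP hHP hbP
  have hcpi := hCPI N b g I hHI hSI hjac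
  -- dimensions
  have htrI' : Algebra.trdeg ℂ (PR N ⧸ chI b I) = ((n : ℕ) : Cardinal) := by
    have h1 := hcamI.2.2
    rw [htrI, Nat.cast_succ] at h1
    exact (Cardinal.add_one_inj.1 h1).symm
  obtain ⟨d', hd'⟩ := BSTM.nat_trdeg (chI b P)
  have hdd : d = d' + 1 := by
    have h1 := hcamP.2.2
    rw [htrP, hd'] at h1
    exact_mod_cast h1
  subst hdd
  have hnN : n + 1 ≤ N := by
    have h1 : Algebra.trdeg ℂ (PR N ⧸ I) ≤ Algebra.trdeg ℂ (PR N) :=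
      trdeg_le_of_surjective (Ideal.Quotient.mkₐ ℂ I) (Ideal.Quotient.mkₐ_surjective ℂ I)
    rw [MvPolynomial.trdeg_of_isDomain, htrI] at h1
    simp only [Cardinal.mk_fin, Cardinal.lift_natCast] at h1
    exact_mod_cast h1
  -- a point of the chart of rank `n`
  have hpt : ∃ y ∈ Zer (chI b I), (mat (chP b g) y).rank = n := by
    obtain ⟨x₁, hx₁, hx₁0, hr₁⟩ := hgen
    have hex : ∃ M : PR N, M ∉ I ∧ ∀ y : Cn N, y ≠ 0 → eval y M ≠ 0 → 2 * m < rk g.f y := by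
      by_contra hcon
      push Not at hcon
      have hle : rk g.f x₁ ≤ 2 * m := by
        refine specRKU N (2 * m) g x₁ (even_two_mul m) hx₁0 (fun A J => ?_) (fun A J => ?_)
        · by_contra hne
          obtain ⟨y, hy0, hye, hyr⟩ := hcon (mnr g.f A J) (fun h => hne (hx₁ _ h))
          exact hye ((specRKC N (2 * m) g y (even_two_mul m) hy0 hyr).1 A J)
        · by_contra hne
          obtain ⟨y, hy0, hye, hyr⟩ := hcon (xmnr g.f A J) (fun h => hne (hx₁ _ h))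
          exact hye ((specRKC N (2 * m) g y (even_two_mul m) hy0 hyr).2 A J)
      omega
    obtain ⟨M, hM, hMr⟩ := hex
    have hMb : M * X b ∉ I := fun h => (hI.mem_or_mem h).elim hM hbI
    obtain ⟨x₂, hx₂, hx₂e⟩ := HLSM.exists_point hI hMb
    rw [map_mul, eval_X] at hx₂e
    have hx₂b : x₂ b ≠ 0 := right_ne_zero_of_mul hx₂e
    have hx₂0 : x₂ ≠ 0 := by
      rintro rfl
      exact hx₂b rfl
    have hr₂ := hMr x₂ hx₂0 (left_ne_zero_of_mul hx₂e)
    obtain ⟨y, hy, hyb, hyr⟩ := norm_pt hCPR g hHI hx₂ hx₂b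
    refine ⟨y, zer_ch hy hyb, ?_⟩
    have h1 : (mat (chP b g) y).rank = rk g.f y := (hCPR N b g y).1 hyb
    have h2 : (mat (chP b g) y).rank ≤ n :=
      rank_le hcamI.2.1 (hcpi.2.2.2 I hHI hSI).2 htrI' (zer_ch hy hyb)
    have h3 : 2 * m < (mat (chP b g) y).rank := by rw [h1, hyr]; exact hr₂
    by_contra hne
    have h4 := rank_even hcpi.1 y m (by omega)
    omega
  -- the chart of `P`
  have hP' : (chI b P).IsPrime := hcamP.2.1
  have hgen' := GTAM.gen_frac (chI b P)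
  obtain ⟨L', iF', iA', φ', hgen'⟩ : ∃ (L' : Type) (_ : Field L') (_ : Algebra ℂ L')
      (φ' : PR N →ₐ[ℂ] L'), Gen (chI b P) L' φ' := ⟨_, _, _, _, hgen'⟩
  have hstP := hcpi.2.2.2 P hHP hSP
  have hV : ∀ j, (fun i => chV b g i j) ∈ PV (chI b I) (chP b g) ∧
      ∀ q ∈ chI b P, vf (fun i => chV b g i j) q ∈ chI b P :=
    fun j => ⟨hcpi.2.2.1 j, fun q hq => hstP.1 q hq j⟩
  have hpha := hPHA N n (N + 1) d' (chI b I) (chI b P) (chP b g) (chV b g) x (by omega)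
    hcamI.2.1 htrI' hcpi.1 (hcpi.2.2.2 I hHI hSI).2 hcpi.2.1 (hCRR N n b g I hHI hRd) hpt
    ((hCSM N n b I hnN hHI x hxI (hsm x hxI hx0 (by omega))).2 hxb)
    (sup_le_sup_right hIP _) hP' hstP.2 hd' hV (zer_ch hx hxb)
    (fun Q hQ hPQ hVQ hxQ => (hCMI N s g P hP hHP hmin x hx hx0 hrx).1 b Q hxb hQ hPQ hVQ hxQ)
    L' iF' iA' φ' hgen'
  obtain ⟨v⟩ := hpha
  exact hCIV N d' b g P hP hHP hSP hbP htrP L iF iA φ hG L' iF' iA' φ' hgen' _ hV v

end Pool.Agent.Lib.MPc9b009.LF
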