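import Pool.Agent.Lib.MP_c9b009_ag.LF.SpecD

/-!
# MP_c9b009_ag, row LF, module CHX (helper21): Stokes in a chart
-/

set_option autoImplicit false

namespace Pool.Agent.Lib.MPc9b009.LF

open MvPolynomial Pool.Agent.Lib.MPc9b009.B5 Pool.Agent.Lib.MPc9b009.OD
  Pool.Agent.Lib.MPc9b009.PS Pool.Agent.Lib.MPc9b009.LS MeasureTheory
open Pool.Agent.Lib.MPc9b009.PS.CHSM (dbar_add dbar_smul dbar_zero dbar_sum chain expand)

namespace CHXM

section

variable {N k : ℕ} {M : Set (Cn N)} {T : Cn N → Submodule ℂ (Cn N)}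

/-- The vector field `A`. -/
noncomputable def AA (c : Cht N k M T) (w : Cn k → Cn k) (y : Cn k) : Cn N :=
  fderiv ℂ c.G y (w y)

theorem contDiffOn_A (c : Cht N k M T) {w : Cn k → Cn k} (hsm : ContDiffOn ℂ 1 w c.B) : ContDiffOn ℂ 1 (AA c w) c.B := by
  have h1 : ContDiffOn ℂ 1 (fderiv ℂ c.G) c.B :=
    c.sm.fderiv_of_isOpen c.oB (by norm_num)
  exact h1.clm_apply hsm

/-- `A` is homogeneous of degree `-(k-1)`. -/
theorem fderiv_A (hBAS : SpecBAS) (hC : Cone N k M T) (c : Cht N k M T) {w : Cn k → Cn k}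
    (hsm : ContDiffOn ℂ 1 w c.B) (hhom : ∀ y ∈ c.B, fderiv ℂ w y y = -((k : ℂ) - 1) • w y)
    {y : Cn k} (hy : y ∈ c.B) : fderiv ℂ (AA c w) y y = -((k : ℂ) - 1) • AA c w y := by
  obtain ⟨-, -, h3, -⟩ := hBAS N k M T hC c y hy
  have hn : c.B ∈ nhds y := c.oB.mem_nhds hy
  have h1 : DifferentiableAt ℂ (fderiv ℂ c.G) y :=
    ((c.sm.fderiv_of_isOpen (m := 1) c.oB (by norm_num)).contDiffAt hn).differentiableAt
      (by norm_num)
  have h2 : DifferentiableAt ℂ (w) y :=
    (hsm.contDiffAt hn).differentiableAt (by norm_num)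
  have h4 := (h1.hasFDerivAt.clm_apply h2.hasFDerivAt).fderiv
  have h5 : fderiv ℂ (AA c w) y y = fderiv ℂ c.G y (fderiv ℂ (w) y y) +
      (fderiv ℂ (fderiv ℂ c.G) y y) (w y) := by
    have e : AA c w = fun z => (fderiv ℂ c.G z) (w z) := rfl
    rw [e, h4]
    rfl
  have h6 : (fderiv ℂ (fderiv ℂ c.G) y y) (w y) = 0 := by
    have h7 := (h1.hasFDerivAt.clm_apply (hasFDerivAt_const (w y) y)).fderiv
    have h8 := h3 (w y)
    rw [h7] at h8
    simpa using h8
  rw [h5, h6, add_zero, hhom y hy, map_smul]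
  rfl

/-- The vector fields `b^(j)`. -/
noncomputable def bj (c : Cht N k M T) (w : Cn k → Cn k) (j : Fin N) (y : Cn k) : Cn k :=
  AA c w y j • y - c.G y j • w y

theorem contDiffOn_G (c : Cht N k M T) (j : Fin N) : ContDiffOn ℂ 1 (fun y => c.G y j) c.B :=
  (contDiffOn_pi.1 (c.sm.of_le (by norm_num))) j

theorem contDiffOn_Aj (c : Cht N k M T) {w : Cn k → Cn k} (hsm : ContDiffOn ℂ 1 w c.B)
    (j : Fin N) :
    ContDiffOn ℂ 1 (fun y => AA c w y j) c.B :=
  (contDiffOn_pi.1 (contDiffOn_A c hsm)) j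

theorem contDiffOn_bj (c : Cht N k M T) {w : Cn k → Cn k} (hsm : ContDiffOn ℂ 1 w c.B)
    (j : Fin N) :
    ContDiffOn ℂ 1 (bj c w j) c.B :=
  ((contDiffOn_Aj c hsm j).smul contDiffOn_id).sub ((contDiffOn_G c j).smul hsm)

theorem div_bj (hBAS : SpecBAS) (hC : Cone N k M T) (c : Cht N k M T) {w : Cn k → Cn k}
    (hsm : ContDiffOn ℂ 1 w c.B) (hdiv : ∀ y ∈ c.B, ∑ m, fderiv ℂ w y (Pi.single m 1) m = 0)
    (hhom : ∀ y ∈ c.B, fderiv ℂ w y y = -((k : ℂ) - 1) • w y) (j : Fin N) {y : Cn k} (hy : y ∈ c.B) :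
    ∑ m, fderiv ℂ (bj c w j) y (Pi.single m 1) m = 0 := by
  have hn : c.B ∈ nhds y := c.oB.mem_nhds hy
  have hA : DifferentiableAt ℂ (AA c w) y :=
    ((contDiffOn_A c hsm).contDiffAt hn).differentiableAt (by norm_num)
  have hG : DifferentiableAt ℂ c.G y := (c.sm.contDiffAt hn).differentiableAt (by norm_num)
  have hw : DifferentiableAt ℂ (w) y :=
    (hsm.contDiffAt hn).differentiableAt (by norm_num)
  have hAj : HasFDerivAt (fun z => AA c w z j)
      ((ContinuousLinearMap.proj j).comp (fderiv ℂ (AA c w) y)) y :=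
    (ContinuousLinearMap.proj (R := ℂ) (φ := fun _ : Fin N => ℂ) j).hasFDerivAt.comp y
      hA.hasFDerivAt
  have hGj : HasFDerivAt (fun z => c.G z j)
      ((ContinuousLinearMap.proj j).comp (fderiv ℂ c.G y)) y :=
    (ContinuousLinearMap.proj (R := ℂ) (φ := fun _ : Fin N => ℂ) j).hasFDerivAt.comp y
      hG.hasFDerivAt
  have hb := ((hAj.smul (hasFDerivAt_id y)).sub (hGj.smul hw.hasFDerivAt)).fderiv
  have hb' : fderiv ℂ (bj c w j) y = _ := hb
  rw [hb']
  have e : ∀ m : Fin k, ((AA c w y j • ContinuousLinearMap.id ℂ (Cn k) +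
      ((ContinuousLinearMap.proj j).comp (fderiv ℂ (AA c w) y)).smulRight (id y)) -
      (c.G y j • fderiv ℂ (w) y +
      ((ContinuousLinearMap.proj j).comp (fderiv ℂ c.G y)).smulRight (w y)))
      (Pi.single m 1) m = AA c w y j +
      ((ContinuousLinearMap.proj j).comp (fderiv ℂ (AA c w) y)) (Pi.single m 1) * y m -
      c.G y j * fderiv ℂ (w) y (Pi.single m 1) m -
      ((ContinuousLinearMap.proj j).comp (fderiv ℂ c.G y)) (Pi.single m 1) * w y m := by
    intro m
    simp only [_root_.sub_apply, _root_.add_apply,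
      _root_.smul_apply, ContinuousLinearMap.id_apply,
      ContinuousLinearMap.smulRight_apply, Pi.sub_apply, Pi.add_apply, Pi.smul_apply, smul_eq_mul,
      Pi.single_eq_same, mul_one, id]
    ring
  rw [Finset.sum_congr rfl fun m _ => e m]
  rw [Finset.sum_sub_distrib, Finset.sum_sub_distrib, Finset.sum_add_distrib, expand, expand,
    ← Finset.mul_sum, hdiv y hy, Finset.sum_const, Finset.card_univ, Fintype.card_fin]
  have h1 : ((ContinuousLinearMap.proj j).comp (fderiv ℂ (AA c w) y) : Cn k →L[ℂ] ℂ) y =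
      -((k : ℂ) - 1) * AA c w y j := by
    rw [ContinuousLinearMap.comp_apply, fderiv_A hBAS hC c hsm hhom hy]
    rfl
  have h2 : ((ContinuousLinearMap.proj j).comp (fderiv ℂ c.G y) : Cn k →L[ℂ] ℂ) (w y) =
      AA c w y j := rfl
  rw [h1, h2, nsmul_eq_mul]
  ring

end

end CHXM

open CHXM in
theorem specCHX : SpecCHX := by
  classical
  have hBAS : SpecBAS := PS.specBAS
  have hDBR : SpecDBR := PS.specDBR
  intro N k M T hC c w hsm hdiv hhom Φ K i hΦ hK hKM hKW hKs
  -- the compact set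
  obtain ⟨S, hS⟩ : ∃ S : Set (Cn k), S = (fun z : Cn N => fun m => z (c.I m)) '' K := ⟨_, rfl⟩
  have hSc : IsCompact S := by
    rw [hS]
    exact hK.image (continuous_pi fun m => continuous_apply _)
  have hSB : S ⊆ c.B := by
    rw [hS]
    rintro _ ⟨z, hz, rfl⟩
    exact (c.inv z (hKM hz) (hKW hz)).1
  have hScl : IsClosed S := hSc.isClosed
  obtain ⟨φ, hφ⟩ : ∃ φ : Cn k → ℂ, φ = fun y => if y ∈ c.B then Φ (c.G y) else 0 := ⟨_, rfl⟩
  have hφS : ∀ y, y ∉ S → φ y = 0 := by
    intro y hy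
    rw [hφ]
    by_cases hB : y ∈ c.B
    · simp only [hB, if_true]
      by_contra h0
      apply hy
      have h1 : c.G y ∈ K := hKs _ (c.mem y hB).1 (c.mem y hB).2 (subset_tsupport _ h0)
      rw [hS]
      exact ⟨c.G y, h1, funext fun m => c.co y hB m⟩
    · simp only [hB, if_false]
  have hev : ∀ y, y ∉ S → φ =ᶠ[nhds y] fun _ => 0 := by
    intro y hy
    filter_upwards [hScl.isOpen_compl.mem_nhds hy] with z hz
    exact hφS z hz
  have hev2 : ∀ y ∈ c.B, φ =ᶠ[nhds y] fun z => Φ (c.G z) := by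
    intro y hy
    filter_upwards [c.oB.mem_nhds hy] with z hz
    rw [hφ]
    simp only [hz, if_true]
  have hφc : ContDiff ℝ 1 φ := by
    rw [contDiff_iff_contDiffAt]
    intro y
    by_cases hB : y ∈ c.B
    · have h1 : ContDiffAt ℝ 1 c.G y :=
        ((c.sm.contDiffAt (c.oB.mem_nhds hB)).restrict_scalars ℝ).of_le (by norm_num)
      have h2 : ContDiffAt ℝ 1 (fun z => Φ (c.G z)) y := hΦ.contDiffAt.comp y h1
      exact h2.congr_of_eventuallyEq (hev2 y hB)
    · have h1 : y ∉ S := fun h => hB (hSB h)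
      exact contDiffAt_const.congr_of_eventuallyEq (hev y h1)
  have hts : tsupport φ ⊆ S := by
    refine closure_minimal ?_ hScl
    intro y hy
    by_contra h
    exact hy (hφS y h)
  have hcs : HasCompactSupport φ := hSc.of_isClosed_subset (isClosed_tsupport φ) hts
  have hd0 : ∀ y, y ∉ S → ∀ v, Dbar φ y v = 0 := by
    intro y hy v
    unfold Dbar
    rw [(hev y hy).fderiv_eq]
    simp
  -- the integrals
  obtain ⟨F, hF⟩ : ∃ F : Fin N → Cn k → ℂ, F = fun j y =>
    (AA c w y i * c.G y j) * Dbar φ y (bj c w j y) := ⟨_, rfl⟩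
  have hint0 : ∀ j, ∫ y, F j y = 0 := by
    intro j
    rw [hF]
    exact hDBR k c.B (fun y => AA c w y i * c.G y j) (bj c w j) φ c.oB
      ((contDiffOn_Aj c hsm i).mul (contDiffOn_G c j)) (contDiffOn_bj c hsm j)
      (fun y hy => div_bj hBAS hC c hsm hdiv hhom j hy) hφc hcs (hts.trans hSB)
  have hF0 : ∀ j y, y ∉ S → F j y = 0 := by
    intro j y hy
    rw [hF]
    simp only [hd0 y hy, mul_zero]
  have hFc : ∀ j, Continuous (F j) := by
    intro j
    rw [continuous_iff_continuousAt]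
    intro y
    by_cases hB : y ∈ c.B
    · have hn : c.B ∈ nhds y := c.oB.mem_nhds hB
      have h1 : ContinuousAt (fun y => AA c w y i * c.G y j) y :=
        (((contDiffOn_Aj c hsm i).mul (contDiffOn_G c j)).contDiffAt hn).continuousAt
      have h2 : ContinuousAt (bj c w j) y := ((contDiffOn_bj c hsm j).contDiffAt hn).continuousAt
      have h3 : Continuous (fderiv ℝ φ) := hφc.continuous_fderiv (by norm_num)
      have h4 : ContinuousAt (fun z => Dbar φ z (bj c w j z)) y := by
        unfold Dbar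
        exact ((h3.continuousAt.clm_apply h2).add (continuousAt_const.mul
          (h3.continuousAt.clm_apply (h2.const_smul Complex.I)))).div_const 2
      rw [hF]
      exact h1.mul h4
    · have h1 : y ∉ S := fun h => hB (hSB h)
      have h2 : F j =ᶠ[nhds y] fun _ => 0 := by
        filter_upwards [hScl.isOpen_compl.mem_nhds h1] with z hz
        exact hF0 j z hz
      exact continuousAt_const.congr h2.symm
  have hFi : ∀ j, Integrable (F j) := by
    intro j
    refine (hFc j).integrable_of_hasCompactSupport ?_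
    refine hSc.of_isClosed_subset (isClosed_tsupport _) (closure_minimal ?_ hScl)
    intro y hy
    by_contra h
    exact hy (hF0 j y h)
  have hsum : ∀ y ∈ c.B, ∑ j, F j y =
      AA c w y i * Dbar Φ (c.G y) (bet (c.G y) (AA c w y)) := by
    intro y hy
    have hG : DifferentiableAt ℂ c.G y :=
      (c.sm.contDiffAt (c.oB.mem_nhds hy)).differentiableAt (by norm_num)
    have hP : DifferentiableAt ℝ Φ (c.G y) := (hΦ.differentiable (by norm_num)) _
    obtain ⟨-, h2, -, -⟩ := hBAS N k M T hC c y hy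
    have e1 : ∀ j, F j y = AA c w y i * Dbar Φ (c.G y)
        ((starRingEnd ℂ) (c.G y j) • (AA c w y j • c.G y - c.G y j • AA c w y)) := by
      intro j
      have e3 : fderiv ℂ c.G y (bj c w j y) = AA c w y j • c.G y - c.G y j • AA c w y := by
        unfold bj
        rw [map_sub, map_smul, map_smul, h2]
        rfl
      rw [hF]
      simp only
      rw [chain hG hP (hev2 y hy), e3, dbar_smul, Complex.conj_conj]
      ring
    rw [Finset.sum_congr rfl fun j _ => e1 j, ← Finset.mul_sum, ← dbar_sum]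
    congr 2
    unfold bet her
    rw [Finset.sum_smul, Finset.sum_smul, ← Finset.sum_sub_distrib]
    refine Finset.sum_congr rfl fun j _ => ?_
    rw [smul_sub, smul_smul, smul_smul, mul_comm ((starRingEnd ℂ) (c.G y j)),
      mul_comm ((starRingEnd ℂ) (c.G y j))]
  have hIS : Integrable (fun y => ∑ j, F j y) := integrable_finsetSum _ fun j _ => hFi j
  constructor
  · exact hIS.integrableOn.congr_fun (fun y hy => hsum y hy) c.oB.measurableSet
  · show ∫ y in c.B, AA c w y i * Dbar Φ (c.G y) (bet (c.G y) (AA c w y)) = 0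
    rw [← setIntegral_congr_fun c.oB.measurableSet (fun y hy => hsum y hy)]
    rw [setIntegral_eq_integral_of_forall_compl_eq_zero]
    · rw [integral_finsetSum _ fun j _ => hFi j]
      exact Finset.sum_eq_zero fun j _ => hint0 j
    · intro y hy
      exact Finset.sum_eq_zero fun j _ => hF0 j y fun h => hy (hSB h)

end Pool.Agent.Lib.MPc9b009.LF
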