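import Pool.Agent.Lib.MP_c9b009_ag.LF.SpecD

/-!
# MP_c9b009_ag, row LF, part D, module CHY: change of charts (multivalued densities)
-/

set_option autoImplicit false

namespace Pool.Agent.Lib.MPc9b009.LF

open MvPolynomial Pool.Agent.Lib.MPc9b009.B5 Pool.Agent.Lib.MPc9b009.OD
  Pool.Agent.Lib.MPc9b009.PS Pool.Agent.Lib.MPc9b009.LS MeasureTheory

namespace CHYM

variable {N k : ℕ} {M : Set (Cn N)} {T : Cn N → Submodule ℂ (Cn N)}

/-- the transition map -/
noncomputable def tau (c c' : Cht N k M T) (y : Cn k) : Cn k := fun a => c.G y (c'.I a)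

/-- its complex derivative -/
noncomputable def dtau (c c' : Cht N k M T) (y : Cn k) : Cn k →L[ℂ] Cn k :=
  ContinuousLinearMap.pi fun a =>
    (ContinuousLinearMap.proj (R := ℂ) (φ := fun _ : Fin N => ℂ) (c'.I a)).comp (fderiv ℂ c.G y)

/-- the common domain -/
def dom (c c' : Cht N k M T) : Set (Cn k) := {y | y ∈ c.B ∧ c.G y ∈ c'.W}

lemma dom_eq (c c' : Cht N k M T) : dom c c' = c.B ∩ c.G ⁻¹' c'.W := rfl

lemma isOpen_dom (c c' : Cht N k M T) : IsOpen (dom c c') := by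
  rw [dom_eq]
  exact c.sm.continuousOn.isOpen_inter_preimage c.oB c'.oW

lemma hasFDerivAt_G (c : Cht N k M T) {y : Cn k} (hy : y ∈ c.B) :
    HasFDerivAt c.G (fderiv ℂ c.G y) y :=
  ((c.sm.contDiffAt (c.oB.mem_nhds hy)).differentiableAt (by norm_num)).hasFDerivAt

lemma hasFDerivAt_tau (c c' : Cht N k M T) {y : Cn k} (hy : y ∈ c.B) :
    HasFDerivAt (tau c c') (dtau c c' y) y := by
  rw [hasFDerivAt_pi']
  intro a
  have h := hasFDerivAt_G c hy
  rw [hasFDerivAt_pi'] at h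
  exact h (c'.I a)

lemma G_tau (c c' : Cht N k M T) {y : Cn k} (hy : y ∈ dom c c') :
    tau c c' y ∈ c'.B ∧ c'.G (tau c c' y) = c.G y :=
  c'.inv (c.G y) (c.mem y hy.1).1 hy.2

lemma injOn_tau (c c' : Cht N k M T) : Set.InjOn (tau c c') (dom c c') := by
  intro y hy z hz h
  have h1 := (G_tau c c' hy).2
  have h2 := (G_tau c c' hz).2
  rw [h, h2] at h1
  funext m
  rw [← c.co y hy.1 m, ← c.co z hz.1 m, h1]

lemma image_tau (c c' : Cht N k M T) : tau c c' '' dom c c' = dom c' c := by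
  apply Set.Subset.antisymm
  · rintro _ ⟨y, hy, rfl⟩
    refine ⟨(G_tau c c' hy).1, ?_⟩
    rw [(G_tau c c' hy).2]
    exact (c.mem y hy.1).2
  · intro y' hy'
    have h := G_tau c' c hy'
    refine ⟨tau c' c y', ⟨h.1, ?_⟩, ?_⟩
    · rw [h.2]
      exact (c'.mem y' hy'.1).2
    · funext a
      show c.G (tau c' c y') (c'.I a) = y' a
      rw [h.2, c'.co y' hy'.1]

lemma det_eq (c c' : Cht N k M T) (y : Cn k) :
    LinearMap.det ((dtau c c' y : Cn k →L[ℂ] Cn k) : Cn k →ₗ[ℂ] Cn k) =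
      (Matrix.of fun a b => fderiv ℂ c.G y (Pi.single b 1) (c'.I a)).det := by
  rw [← LinearMap.det_toMatrix']
  rfl

lemma det_real (c c' : Cht N k M T) (y : Cn k) :
    |((dtau c c' y).restrictScalars ℝ).det| =
      ‖(Matrix.of fun a b => fderiv ℂ c.G y (Pi.single b 1) (c'.I a)).det‖ ^ 2 := by
  have h : ((dtau c c' y).restrictScalars ℝ).det =
      Algebra.norm ℝ (LinearMap.det ((dtau c c' y : Cn k →L[ℂ] Cn k) : Cn k →ₗ[ℂ] Cn k)) :=
    LinearMap.det_restrictScalars (R := ℝ) (S := ℂ)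
      (f := ((dtau c c' y : Cn k →L[ℂ] Cn k) : Cn k →ₗ[ℂ] Cn k))
  rw [h, det_eq, Algebra.norm_complex_apply, Complex.normSq_eq_norm_sq, abs_of_nonneg (sq_nonneg _)]

end CHYM

theorem specCHY : SpecCHY := by
  intro N k M T _ c c' w w' hcmp ρ H hρ hH
  -- reduce to the common domains
  have h1 : ∫ y in c.B, ρ (c.G y) * H (c.G y) (fderiv ℂ c.G y (w y)) =
      ∫ y in CHYM.dom c c', ρ (c.G y) * H (c.G y) (fderiv ℂ c.G y (w y)) := by
    apply setIntegral_eq_of_subset_of_forall_sdiff_eq_zero c.oB.measurableSet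
    · exact fun y hy => hy.1
    · intro y hy
      by_cases h : ρ (c.G y) = 0
      · rw [h, zero_mul]
      · exact absurd ⟨hy.1, (hρ _ (c.mem y hy.1).1 h).2⟩ hy.2
  have h2 : ∫ y in c'.B, ρ (c'.G y) * H (c'.G y) (fderiv ℂ c'.G y (w' y)) =
      ∫ y in CHYM.dom c' c, ρ (c'.G y) * H (c'.G y) (fderiv ℂ c'.G y (w' y)) := by
    apply setIntegral_eq_of_subset_of_forall_sdiff_eq_zero c'.oB.measurableSet
    · exact fun y hy => hy.1
    · intro y hy
      by_cases h : ρ (c'.G y) = 0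
      · rw [h, zero_mul]
      · exact absurd ⟨hy.1, (hρ _ (c'.mem y hy.1).1 h).1⟩ hy.2
  have h3 := integral_image_eq_integral_abs_det_fderiv_smul (μ := volume)
    (s := CHYM.dom c c') (f := CHYM.tau c c')
    (f' := fun y => (CHYM.dtau c c' y).restrictScalars ℝ)
    (CHYM.isOpen_dom c c').measurableSet
    (fun y hy => ((CHYM.hasFDerivAt_tau c c' hy.1).restrictScalars ℝ).hasFDerivWithinAt)
    (CHYM.injOn_tau c c') (fun y => ρ (c'.G y) * H (c'.G y) (fderiv ℂ c'.G y (w' y)))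
  rw [h1, h2, ← CHYM.image_tau c c', h3]
  apply setIntegral_congr_fun (CHYM.isOpen_dom c c').measurableSet
  intro y hy
  obtain ⟨hy1, hy2⟩ := CHYM.G_tau c c' hy
  obtain ⟨u, hu, h4⟩ := hcmp y hy.1 _ hy1 hy2.symm
  show ρ (c.G y) * H (c.G y) (fderiv ℂ c.G y (w y)) = |((CHYM.dtau c c' y).restrictScalars ℝ).det| •
    (ρ (c'.G (CHYM.tau c c' y)) * H (c'.G (CHYM.tau c c' y))
      (fderiv ℂ c'.G (CHYM.tau c c' y) (w' (CHYM.tau c c' y))))
  have h5 : ‖u * jdet c c' y‖ ^ 2 =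
      ‖(Matrix.of fun a b => fderiv ℂ c.G y (Pi.single b 1) (c'.I a)).det‖ ^ 2 := by
    rw [norm_mul, hu, one_mul]
    rfl
  rw [CHYM.det_real, hy2, h4, hH, h5, Complex.real_smul]
  push_cast
  ring

end Pool.Agent.Lib.MPc9b009.LF
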