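import Pool.Agent.Lib.MP_c9b009_ag.LF.SpecC

/-!
# MP_c9b009_ag, row LF, module CIV: from a volume form on the chart to a volume form on the cone
-/

set_option autoImplicit false

namespace Pool.Agent.Lib.MPc9b009.LF

open MvPolynomial Pool.Agent.Lib.MPc9b009.B5 Pool.Agent.Lib.MPc9b009.OD
  Pool.Agent.Lib.MPc9b009.PS Pool.Agent.Lib.MPc9b009.LS

namespace CIVM

open Matrix in
/-- every derivation is a combination of a dual frame -/
lemma expand {N d : ℕ} {L : Type} [Field L] [Algebra ℂ L] (φ : PR N →ₐ[ℂ] L)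
    (A B : Fin d → Fin N) (dd ee : Fin d → Derivation ℂ L L)
    (hd : ∀ i j, dd i (φ (X (A j))) = if i = j then 1 else 0)
    (he : ∀ (D : Derivation ℂ L L) (y : L), D y = ∑ i, D (φ (X (B i))) * ee i y)
    (δ : Derivation ℂ L L) (y : L) : δ y = ∑ i, δ (φ (X (A i))) * dd i y := by
  let M : Matrix (Fin d) (Fin d) L := Matrix.of fun i j => dd i (φ (X (B j)))
  let R : Matrix (Fin d) (Fin d) L := Matrix.of fun j k => ee j (φ (X (A k)))
  have h1 : M * R = 1 := by
    ext i k
    rw [Matrix.mul_apply, Matrix.one_apply]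
    show ∑ j, dd i (φ (X (B j))) * ee j (φ (X (A k))) = _
    rw [← he, hd]
  have h2 : R * M = 1 := mul_eq_one_comm.1 h1
  have h3 : ∀ i, δ (φ (X (A i))) = Matrix.vecMul (fun j => δ (φ (X (B j)))) R i := by
    intro i
    rw [he δ]
    rfl
  have h4 : ∀ i, dd i y = Matrix.mulVec M (fun j => ee j y) i := by
    intro i
    rw [he (dd i)]
    rfl
  rw [he δ y]
  have h5 : ∑ i, δ (φ (X (A i))) * dd i y =
      Matrix.vecMul (fun j => δ (φ (X (B j)))) R ⬝ᵥ Matrix.mulVec M (fun j => ee j y) := by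
    refine Finset.sum_congr rfl fun i _ => ?_
    rw [h3, h4]
  rw [h5, ← Matrix.dotProduct_mulVec, Matrix.mulVec_mulVec, h2, Matrix.one_mulVec]
  rfl

/-- homogeneous polynomials -/
lemma aeval_scale {N n : ℕ} {L : Type} [Field L] [Algebra ℂ L] (φ ψ : PR N →ₐ[ℂ] L) (t : L)
    (h : ∀ l, φ (X l) = t * ψ (X l)) {q : PR N} (hq : q.IsHomogeneous n) :
    φ q = t ^ n * ψ q := by
  have h1 : ∀ χ : PR N →ₐ[ℂ] L, χ q =
      ∑ d ∈ q.support, algebraMap ℂ L (coeff d q) * ∏ i, χ (X i) ^ d i := by
    intro χ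
    conv_lhs => rw [MvPolynomial.aeval_unique χ]
    rw [aeval_def, eval₂_eq']
    rfl
  rw [h1 φ, h1 ψ, Finset.mul_sum]
  refine Finset.sum_congr rfl fun d hd => ?_
  have h2 : ∑ i, d i = n := by
    have h3 := hq (mem_support_iff.1 hd)
    rw [← h3, Finsupp.weight_apply, Finsupp.sum_fintype]
    · exact Finset.sum_congr rfl fun i _ => by simp
    · intro i
      simp
  have h3 : ∏ i, φ (X i) ^ d i = t ^ n * ∏ i, ψ (X i) ^ d i := by
    rw [← h2, ← Finset.prod_pow_eq_pow_sum, ← Finset.prod_mul_distrib]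
    refine Finset.prod_congr rfl fun i _ => ?_
    rw [h, mul_pow]
  rw [h3]
  ring

/-- the derivative of a power -/
lemma der_pow {L : Type} [Field L] [Algebra ℂ L] (D : Derivation ℂ L L) (t : L) (n : ℕ) :
    t * D (t ^ n) = (n : L) * t ^ n * D t := by
  induction n with
  | zero => simp
  | succ n ih =>
    rw [pow_succ, Derivation.leibniz, smul_eq_mul, smul_eq_mul]
    push_cast
    linear_combination t * ih

/-- the diagonal is zero -/
lemma diag {N : ℕ} (g : Biv N) (b : Fin N) : g.f b b = 0 :=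
  self_eq_neg.1 (g.skew b b)

/-- stability in the chart -/
lemma stab_ch {N : ℕ} (b : Fin N) (P : Ideal (PR N)) (v : Fin N → PR N)
    (h1 : ∀ q ∈ P, vf v q ∈ P) (h2 : v b ∈ chI b P) : ∀ q ∈ chI b P, vf v q ∈ chI b P := by
  intro q hq
  obtain ⟨q₀, hq₀, z, hz, rfl⟩ := Submodule.mem_sup.1 hq
  obtain ⟨a, rfl⟩ := Ideal.mem_span_singleton'.1 hz
  have h3 : vf v (q₀ + a * (X b - 1)) = vf v q₀ + (vf v a * (X b - 1) + a * v b) := by
    have h4 : ∀ l, v l * pderiv l (q₀ + a * (X b - 1)) = v l * pderiv l q₀ +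
        (v l * pderiv l a * (X b - 1) + a * (v l * pderiv l (X b))) := by
      intro l
      rw [map_add, Derivation.leibniz, smul_eq_mul, smul_eq_mul, map_sub]
      have h5 : pderiv l (1 : PR N) = 0 := Derivation.map_one_eq_zero _
      rw [h5]
      ring
    unfold vf
    rw [Finset.sum_congr rfl fun l _ => h4 l, Finset.sum_add_distrib, Finset.sum_add_distrib,
      ← Finset.sum_mul, ← Finset.mul_sum]
    have h6 : ∑ l, v l * pderiv l (X b : PR N) = v b := by
      rw [Finset.sum_eq_single b]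
      · rw [pderiv_X_self, mul_one]
      · intro m _ hm
        rw [pderiv_X_of_ne (Ne.symm hm), mul_zero]
      · intro h
        exact absurd (Finset.mem_univ _) h
    rw [h6]
  rw [h3]
  have h7 : (X b - 1 : PR N) ∈ chI b P :=
    Ideal.mem_sup_right (Ideal.mem_span_singleton_self _)
  exact Ideal.add_mem _ (Ideal.mem_sup_left (h1 _ hq₀))
    (Ideal.add_mem _ (Ideal.mul_mem_left _ _ h7) (Ideal.mul_mem_left _ _ h2))

/-- the Euler field -/
lemma euler {N : ℕ} {P : Ideal (PR N)} (hH : Hom P) : ∀ q ∈ P, ∑ i, X i * pderiv i q ∈ P := by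
  intro q hq
  have h1 : ∑ i, X i * pderiv i q = ∑ n ∈ Finset.range (q.totalDegree + 1),
      C (n : ℂ) * homogeneousComponent n q := by
    conv_lhs => rw [← sum_homogeneousComponent q]
    simp only [map_sum, Finset.mul_sum]
    rw [Finset.sum_comm]
    refine Finset.sum_congr rfl fun n _ => ?_
    rw [(homogeneousComponent_isHomogeneous n q).sum_X_mul_pderiv]
    simp
  rw [h1]
  exact Submodule.sum_mem _ fun n _ => Ideal.mul_mem_left _ _ (hH q hq n)

/-- the connection field -/
lemma stab_h {N : ℕ} (b : Fin N) (g : Biv N) {P : Ideal (PR N)} (hS : Stab g.f P) :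
    ∀ q ∈ chI b P, vf (fun i => g.f b i) q ∈ chI b P := by
  refine stab_ch b P _ (fun q hq => ?_) ?_
  · have h1 : vf (fun i => g.f b i) q = - ∑ i, g.f i b * pderiv i q := by
      unfold vf
      rw [← Finset.sum_neg_distrib]
      refine Finset.sum_congr rfl fun i _ => ?_
      show g.f b i * _ = _
      rw [g.skew i b]
      ring
    rw [h1]
    exact Ideal.neg_mem_iff _ |>.2 (hS q hq b)
  · show g.f b b ∈ _
    rw [diag]
    exact Ideal.zero_mem _

/-- the Hamiltonian fields of the chart -/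
lemma stab_p {N : ℕ} (b : Fin N) (g : Biv N) {P : Ideal (PR N)} (hH : Hom P) (hS : Stab g.f P)
    (a : Fin N) : ∀ q ∈ chI b P, vf (fun i => chP b g i a) q ∈ chI b P := by
  refine stab_ch b P _ (fun q hq => ?_) ?_
  · have h1 : vf (fun i => chP b g i a) q = ∑ i, g.f i a * pderiv i q -
        g.f b a * ∑ i, X i * pderiv i q - X a * ∑ i, g.f i b * pderiv i q := by
      unfold vf chP
      rw [Finset.mul_sum, Finset.mul_sum, ← Finset.sum_sub_distrib, ← Finset.sum_sub_distrib]
      refine Finset.sum_congr rfl fun i _ => ?_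
      ring
    rw [h1]
    exact Ideal.sub_mem _ (Ideal.sub_mem _ (hS q hq a) (Ideal.mul_mem_left _ _ (euler hH q hq)))
      (Ideal.mul_mem_left _ _ (hS q hq b))
  · have h1 : chP b g b a = - g.f b a * (X b - 1) := by
      unfold chP
      rw [diag]
      ring
    show chP b g b a ∈ _
    rw [h1]
    exact Ideal.mul_mem_left _ _ (Ideal.mem_sup_right (Ideal.mem_span_singleton_self _))

/-- tangent vectors -/
lemma mem_tsp {N : ℕ} {P : Ideal (PR N)} {L : Type} [Field L] [Algebra ℂ L]
    {φ : PR N →ₐ[ℂ] L} (hφ : Gen P L φ) {v : Fin N → PR N} (h : ∀ q ∈ P, vf v q ∈ P) :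
    (fun l => φ (v l)) ∈ tsp P φ := by
  intro q hq
  have h1 := (hφ.ker _).2 (h q hq)
  unfold vf at h1
  rw [map_sum] at h1
  rw [← h1]
  refine Finset.sum_congr rfl fun l _ => ?_
  rw [map_mul]

/-- the bracket of the cone -/
lemma g_eq {N : ℕ} (b : Fin N) (g : Biv N) (a l : Fin N) :
    g.f a l = - chP b g l a + X a * g.f b l + X l * g.f a b := by
  unfold chP
  rw [g.skew a l, g.skew b l, g.skew a b]
  ring

end CIVM

open CIVM in
theorem specCIV (hCVA : SpecCVA) (hTGD : SpecTGD) (hCAM : SpecCAM) : SpecCIV := by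
  intro N d b g P hP hH hS hb htr L _ _ φ hφ L' _ _ φ' hφ' W hW I'
  obtain ⟨-, hP', htr1⟩ := hCAM N b P hP hH hb
  have htr' : Algebra.trdeg ℂ (PR N ⧸ chI b P) = ((d : ℕ) : Cardinal) := by
    rw [htr, Nat.cast_succ] at htr1
    exact (Cardinal.add_one_inj.1 htr1).symm
  obtain ⟨j, hj, h1, ⟨E, hE1, hE2⟩, h3⟩ := hCVA N d b P hP hH hb htr L _ _ φ hφ L' _ _ φ' hφ'
  obtain ⟨-, h2, -, B, ee, -, hee⟩ := hTGD N d (chI b P) hP' htr' L' _ _ φ' hφ'
  have hexp := expand φ' I'.A B I'.dd ee I'.dual hee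
  have ht0 : φ (X b) ≠ 0 := fun h => hb ((hφ.ker _).1 h)
  have hb1 : φ' (X b) = 1 := by
    have h4 : φ' (X b - 1) = 0 :=
      (hφ'.ker _).2 (Ideal.mem_sup_right (Ideal.mem_span_singleton_self _))
    rw [map_sub, map_one] at h4
    exact sub_eq_zero.1 h4
  have hy : ∀ l, φ (X l) = φ (X b) * (j.comp φ') (X l) := fun l => (hj l).symm
  have hφ2 : ∀ i l, φ (g.f i l) = φ (X b) ^ 2 * j (φ' (g.f i l)) := fun i l =>
    aeval_scale φ (j.comp φ') _ hy (g.quad i l)
  choose D hD0 hD1 using h1
  have hDX : ∀ δ l, D δ (φ (X l)) = φ (X b) * j (δ (φ' (X l))) := by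
    intro δ l
    rw [← hj l, Derivation.leibniz, hD0, hD1, smul_zero, add_zero, smul_eq_mul]
  have hDG : ∀ δ i l, D δ (φ (g.f i l)) = φ (X b) ^ 2 * j (δ (φ' (g.f i l))) := by
    intro δ i l
    have h4 : D δ (φ (X b) ^ 2) = 0 := by
      rw [pow_two, Derivation.leibniz, hD0, smul_zero, add_zero]
    rw [hφ2, Derivation.leibniz, h4, hD1, smul_zero, add_zero, smul_eq_mul]
  let yA : Fin d → L := fun i => j (φ' (X (I'.A i)))
  let An : Fin (d + 1) → Fin N := Fin.snoc (α := fun _ => Fin N) I'.A b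
  let ddn : Fin (d + 1) → Derivation ℂ L L :=
    Fin.snoc (α := fun _ => Derivation ℂ L L) (fun i => (φ (X b))⁻¹ • D (I'.dd i))
      ((φ (X b))⁻¹ • (E - ∑ i, yA i • D (I'.dd i)))
  have hAc : ∀ i : Fin d, An i.castSucc = I'.A i := fun i => Fin.snoc_castSucc ..
  have hAl : An (Fin.last d) = b := Fin.snoc_last ..
  have hdc : ∀ (i : Fin d) z, ddn i.castSucc z = (φ (X b))⁻¹ * D (I'.dd i) z := by
    intro i z
    have h4 : ddn i.castSucc = (φ (X b))⁻¹ • D (I'.dd i) := Fin.snoc_castSucc ..
    rw [h4, Derivation.smul_apply, smul_eq_mul]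
  have hdl : ∀ z, ddn (Fin.last d) z =
      (φ (X b))⁻¹ * (E z - ∑ i, yA i * D (I'.dd i) z) := by
    intro z
    have h4 : ddn (Fin.last d) = (φ (X b))⁻¹ • (E - ∑ i, yA i • D (I'.dd i)) :=
      Fin.snoc_last ..
    rw [h4, Derivation.smul_apply, smul_eq_mul, Derivation.sub_apply, DEXM.sum_apply']
    rfl
  have hdual : ∀ i k, ddn i (φ (X (An k))) = if i = k then 1 else 0 := by
    intro i k
    refine Fin.lastCases ?_ (fun i => ?_) i
    · rw [hdl]
      refine Fin.lastCases ?_ (fun k => ?_) k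
      · rw [hAl, hE1, Finset.sum_eq_zero, sub_zero, inv_mul_cancel₀ ht0, if_pos rfl]
        intro i _
        rw [hD0, mul_zero]
      · rw [hAc, hE1, if_neg (Fin.castSucc_lt_last k).ne', Finset.sum_eq_single k]
        · rw [hDX, I'.dual, if_pos rfl, map_one, mul_one, hy (I'.A k)]
          show _ * (_ - j (φ' (X (I'.A k))) * _) = 0
          rw [AlgHom.comp_apply]
          ring
        · intro i _ hi
          rw [hDX, I'.dual, if_neg hi, map_zero, mul_zero, mul_zero]
        · intro h
          exact absurd (Finset.mem_univ _) h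
    · rw [hdc]
      refine Fin.lastCases ?_ (fun k => ?_) k
      · rw [hAl, hD0, mul_zero, if_neg (Fin.castSucc_lt_last i).ne]
      · rw [hAc, hDX, I'.dual, ← mul_assoc, inv_mul_cancel₀ ht0, one_mul]
        by_cases h : i = k
        · rw [if_pos h, if_pos (by rw [h]), map_one]
        · rw [if_neg h, if_neg (fun h' => h (Fin.castSucc_injective _ h')), map_zero]
  have hlam : ∀ Dv : Derivation ℂ L L,
      φ (X b) * Dv (φ (X b) ^ ((d + 1) * I'.M) * j I'.lam) =
        (((d : L) + 1) * (I'.M : L)) * φ (X b) ^ ((d + 1) * I'.M) * Dv (φ (X b)) * j I'.lam +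
          φ (X b) * φ (X b) ^ ((d + 1) * I'.M) * Dv (j I'.lam) := by
    intro Dv
    have h4 := der_pow Dv (φ (X b)) ((d + 1) * I'.M)
    push_cast at h4
    rw [Derivation.leibniz, smul_eq_mul, smul_eq_mul]
    linear_combination j I'.lam * h4
  refine ⟨{ A := An, dd := ddn, M := I'.M, lam := φ (X b) ^ ((d + 1) * I'.M) * j I'.lam
            pos := I'.pos, ne := ?_, dual := hdual, inv := ?_ }⟩
  · refine mul_ne_zero (pow_ne_zero _ ht0) fun h => I'.ne ?_
    exact (map_eq_zero j).1 h
  · rintro v (rfl | ⟨a, rfl⟩) Dv hDv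
    · -- the Euler field
      have h4 : ∀ l, Dv (j (φ' (X l))) = 0 := by
        intro l
        have h5 := hDv l
        simp only at h5
        rw [← hj l, Derivation.leibniz, smul_eq_mul, smul_eq_mul, hDv b] at h5
        have h6 : φ (X b) * Dv (j (φ' (X l))) = 0 := by linear_combination h5
        exact (mul_eq_zero.1 h6).resolve_left ht0
      have h5 : Dv (j I'.lam) = 0 := by
        rw [h3 Dv 0 0 0 0 (fun l => by rw [h4]; simp)]
        simp
      have h6 : ∑ i, ddn i (φ (X (An i))) = (d : L) + 1 := by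
        rw [Finset.sum_congr rfl fun i _ => hdual i i]
        simp
      have h7 := hlam Dv
      rw [h5, hDv b, mul_zero, add_zero] at h7
      apply mul_left_cancel₀ ht0
      rw [h7]
      show _ = φ (X b) * ((I'.M : L) * (∑ i, ddn i (φ (X (An i)))) * _)
      rw [h6]
      ring
    · -- the Hamiltonian fields
      obtain ⟨δa, hδa⟩ := h2 _ (mem_tsp hφ' (stab_p b g hH hS a))
      obtain ⟨δh, hδh⟩ := h2 _ (mem_tsp hφ' (stab_h b g hS))
      have hWa : (fun i => chP b g i a) ∈ W := by
        have h4 := hW (Fin.castAdd 1 a)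
        have h5 : (fun i => chV b g i (Fin.castAdd 1 a)) = fun i => chP b g i a := by
          funext i
          exact Fin.append_left ..
        rwa [h5] at h4
      have hWh : (fun i => g.f b i) ∈ W := by
        have h4 := hW (Fin.natAdd N 0)
        have h5 : (fun i => chV b g i (Fin.natAdd N 0)) = fun i => g.f b i := by
          funext i
          exact Fin.append_right ..
        rwa [h5] at h4
      have hia := I'.inv _ hWa δa hδa
      have hih := I'.inv _ hWh δh hδh
      have hDt : Dv (φ (X b)) = φ (X b) ^ 2 * j (φ' (g.f a b)) := by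
        rw [hDv b, hφ2]
      have hDy : ∀ l, Dv (j (φ' (X l))) = - φ (X b) * j (δa (φ' (X l))) +
          φ (X b) * j (φ' (X a)) * j (δh (φ' (X l))) := by
        intro l
        have h5 := hDv l
        simp only at h5
        rw [← hj l, Derivation.leibniz, smul_eq_mul, smul_eq_mul, hDt, hφ2, g_eq b g a l] at h5
        simp only [map_add, map_mul, map_neg] at h5
        apply mul_left_cancel₀ ht0
        rw [hδa, hδh]
        linear_combination h5
      have hDj := h3 Dv δa δh _ _ hDy I'.lam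
      have hsum : ∑ i, I'.dd i (φ' (g.f a (I'.A i))) =
          - ∑ i, I'.dd i (φ' (chP b g (I'.A i) a)) +
          φ' (X a) * ∑ i, I'.dd i (φ' (g.f b (I'.A i))) +
          ((d : L') - 1) * φ' (g.f a b) +
          ∑ i, φ' (X (I'.A i)) * I'.dd i (φ' (g.f a b)) := by
        have h5 : ∀ i, I'.dd i (φ' (g.f a (I'.A i))) =
            - I'.dd i (φ' (chP b g (I'.A i) a)) +
            φ' (X a) * I'.dd i (φ' (g.f b (I'.A i))) +
            δh (φ' (X (I'.A i))) * I'.dd i (φ' (X a)) + φ' (g.f a b) +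
            φ' (X (I'.A i)) * I'.dd i (φ' (g.f a b)) := by
          intro i
          rw [g_eq b g a (I'.A i)]
          simp only [map_add, map_neg, map_mul, Derivation.leibniz, smul_eq_mul]
          rw [I'.dual, if_pos rfl, hδh]
          ring
        rw [Finset.sum_congr rfl fun i _ => h5 i]
        simp only [Finset.sum_add_distrib, Finset.sum_neg_distrib, ← Finset.mul_sum]
        rw [← hexp δh (φ' (X a)), hδh, g.skew a b, map_neg, Finset.sum_const, Finset.card_univ,
          Fintype.card_fin, nsmul_eq_mul]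
        ring
      have hjs := congrArg j hsum
      simp only [map_add, map_neg, map_mul, map_sub, map_natCast, map_one, map_sum] at hjs
      have hja := congrArg j hia
      have hjh := congrArg j hih
      simp only [map_mul, map_natCast, map_sum] at hja hjh
      have hs1 : ∑ i : Fin d, ddn i.castSucc (φ (g.f a (An i.castSucc))) =
          φ (X b) * ∑ i, j (I'.dd i (φ' (g.f a (I'.A i)))) := by
        rw [Finset.mul_sum]
        refine Finset.sum_congr rfl fun i _ => ?_
        rw [hdc, hAc, hDG]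
        field_simp
      have hs2 : ddn (Fin.last d) (φ (g.f a (An (Fin.last d)))) =
          2 * φ (X b) * j (φ' (g.f a b)) -
            φ (X b) * ∑ i, j (φ' (X (I'.A i))) * j (I'.dd i (φ' (g.f a b))) := by
        have h5 : E (φ (g.f a b)) = 2 * φ (X b) ^ 2 * j (φ' (g.f a b)) := by
          rw [hφ2, Derivation.leibniz, hE2, smul_zero, zero_add, pow_two, Derivation.leibniz,
            hE1, smul_eq_mul, smul_eq_mul]
          ring
        have h6 : ∑ i, yA i * D (I'.dd i) (φ (g.f a b)) =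
            φ (X b) ^ 2 * ∑ i, j (φ' (X (I'.A i))) * j (I'.dd i (φ' (g.f a b))) := by
          rw [Finset.mul_sum]
          refine Finset.sum_congr rfl fun i _ => ?_
          rw [hDG]
          show j (φ' (X (I'.A i))) * _ = _
          ring
        rw [hdl, hAl, h5, h6]
        field_simp
      have h7 := hlam Dv
      apply mul_left_cancel₀ ht0
      rw [h7]
      show _ = φ (X b) * ((I'.M : L) * (∑ i, ddn i (φ (g.f a (An i)))) * _)
      rw [Fin.sum_univ_castSucc, hs1, hs2, hjs, hDj, hja, hjh, hDt]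
      ring

end Pool.Agent.Lib.MPc9b009.LF
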