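import Pool.Agent.Lib.MP_c9b009_ag.LF.SpecC
import Pool.Agent.Lib.MP_c9b009_ag.B5.TRH
import Pool.Agent.Lib.MP_c9b009_ag.LS.EUH

/-!
# MP_c9b009_ag, row LF, part C, module CMI: minimality at a point of rank `≥ s + 2`
-/

set_option autoImplicit false

namespace Pool.Agent.Lib.MPc9b009.LF

open MvPolynomial Pool.Agent.Lib.MPc9b009.B5 Pool.Agent.Lib.MPc9b009.OD
  Pool.Agent.Lib.MPc9b009.PS Pool.Agent.Lib.MPc9b009.LS

namespace CMIM

theorem geV_cast {N : ℕ} (g : Biv N) (i a : Fin N) : geV g i (Fin.castAdd 1 a) = g.f i a := by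
  unfold geV
  rw [Fin.append_left]

theorem geV_nat {N : ℕ} (g : Biv N) (i : Fin N) : geV g i (Fin.natAdd N 0) = X i := by
  unfold geV
  rw [Fin.append_right]

/-- stable under the columns of `g` and the Euler field -/
theorem stab_geV {N : ℕ} (g : Biv N) (Q : Ideal (PR N)) :
    Stab (geV g) Q ↔ Stab g.f Q ∧ Hom Q := by
  constructor
  · intro h
    constructor
    · intro q hq a
      have h1 := h q hq (Fin.castAdd 1 a)
      simpa only [geV_cast] using h1
    · refine (specEUH N Q).1 fun q hq => ?_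
      have h1 := h q hq (Fin.natAdd N 0)
      simp only [geV_nat] at h1
      exact h1
  · rintro ⟨h, hH⟩ q hq j
    refine Fin.addCases (m := N) (n := 1)
      (motive := fun j => ∑ i, geV g i j * pderiv i q ∈ Q) (fun a => ?_) (fun a => ?_) j
    · simp only [geV_cast]
      exact h q hq a
    · have ha : a = 0 := Subsingleton.elim _ _
      subst ha
      simp only [geV_nat]
      exact (specEUH N Q).2 hH q hq

/-- the rank of the matrix `geV g` at `x` -/
theorem rank_geV {N : ℕ} (g : Biv N) (x : Cn N) (hx : x ≠ 0) :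
    rk g.f x + 1 ≤ (Matrix.of fun i j => eval x (geV g i j)).rank := by
  classical
  set A : Matrix (Fin N) (Fin (N + 1)) ℂ := Matrix.of fun i j => eval x (geV g i j) with hA
  set R : Submodule ℂ (Cn N) := LinearMap.range A.mulVecLin with hR
  have hcol : ∀ j, (fun i => A i j) ∈ R := fun j => by
    refine ⟨Pi.single j 1, ?_⟩
    rw [Matrix.mulVecLin_apply, Matrix.mulVec_single_one]
    rfl
  have hxR : x ∈ R := by
    have h := hcol (Fin.natAdd N 0)
    have e : (fun i => A i (Fin.natAdd N 0)) = x := by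
      funext i
      rw [hA, Matrix.of_apply, geV_nat, eval_X]
    rwa [e] at h
  have hgR : ∀ v, (mat g.f x).mulVecLin v ∈ R := by
    intro v
    have e : (mat g.f x).mulVecLin v = ∑ a, v a • (fun i => A i (Fin.castAdd 1 a)) := by
      funext i
      rw [Matrix.mulVecLin_apply, Finset.sum_apply]
      show ∑ a, mat g.f x i a * v a = _
      refine Finset.sum_congr rfl fun a _ => ?_
      rw [Pi.smul_apply, smul_eq_mul, hA, Matrix.of_apply, geV_cast, mul_comm]
      rfl
    rw [e]
    exact R.sum_mem fun a _ => R.smul_mem _ (hcol _)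
  set f := (Submodule.span ℂ {x}).mkQ with hf
  have hle : Submodule.map (f ∘ₗ (mat g.f x).mulVecLin) (LinearMap.ker (dot x)) ≤
      LinearMap.range (f.domRestrict R) := by
    rintro _ ⟨v, _, rfl⟩
    exact ⟨⟨(mat g.f x).mulVecLin v, hgR v⟩, rfl⟩
  have h1 : rk g.f x ≤ Module.finrank ℂ (LinearMap.range (f.domRestrict R)) :=
    Submodule.finrank_mono hle
  have h2 := LinearMap.finrank_range_add_finrank_ker (f.domRestrict R)
  have h3 : 0 < Module.finrank ℂ (LinearMap.ker (f.domRestrict R)) := by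
    have hk : (⟨x, hxR⟩ : R) ∈ LinearMap.ker (f.domRestrict R) := by
      rw [LinearMap.mem_ker]
      show f x = 0
      rw [hf, Submodule.mkQ_apply, Submodule.Quotient.mk_eq_zero]
      exact Submodule.mem_span_singleton_self x
    have hne : (⟨⟨x, hxR⟩, hk⟩ : LinearMap.ker (f.domRestrict R)) ≠ 0 := by
      intro h0
      apply hx
      have h0' := congrArg (fun z : LinearMap.ker (f.domRestrict R) => ((z : R) : Cn N)) h0
      exact h0'
    exact (Module.finrank_pos_iff_exists_ne_zero (R := ℂ)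
      (M := LinearMap.ker (f.domRestrict R))).2 ⟨⟨⟨x, hxR⟩, hk⟩, hne⟩
  have h4 : A.rank = Module.finrank ℂ R := rfl
  rw [h4]
  omega

end CMIM

open CMIM in
theorem specCMI (hCOI : SpecCOI) : SpecCMI := by
  intro N s g P hP hH hmin x hx hx0 hrk
  have two : ∀ Q : Ideal (PR N), Q.IsPrime → P ≤ Q → Stab (geV g) Q → x ∈ Zer Q → Q = P := by
    intro Q hQ hPQ hS hxQ
    by_contra hne
    have hSE : StE g Q := (stab_geV g Q).1 hS
    have h1 := hmin Q hQ hPQ hSE hne
    have hmn : ∃ (I : Fin (s + 3) → Fin N) (J : Fin (s + 3) → Fin (N + 1)),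
        mnr (geV g) I J ∉ Q := by
      by_contra hcon
      push Not at hcon
      have hr : (Matrix.of fun i j => eval x (geV g i j)).rank ≤ s + 2 := by
        refine (B5.specRKM ℂ _ N (N + 1) (s + 2) _).1 fun I J => ?_
        have h2 := hxQ _ (hcon I J)
        unfold mnr at h2
        rw [RingHom.map_det] at h2
        rw [← h2]
        congr 1
      have h3 := rank_geV g x hx0
      omega
    have h4 := B5.specDIM N (N + 1) (s + 3) (geV g) Q hQ hS hmn
    have h5 : ((s + 3 : ℕ) : Cardinal) ≤ ((s + 1 : ℕ) : Cardinal) := h4.trans h1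
    have h6 : s + 3 ≤ s + 1 := by exact_mod_cast h5
    omega
  refine ⟨?_, two⟩
  intro b Q' hb hQ' hle hS hxQ'
  have hX : (X b - 1 : PR N) ∈ Q' := hle (Ideal.mem_sup_right (Ideal.subset_span rfl))
  obtain ⟨c1, c2, c3, c4, c5, c6, c7, c8⟩ := (hCOI N b).1 Q' hQ' hX
  have hPQ : P ≤ coI Q' := c6 P hH (le_trans le_sup_left hle)
  have h1 := two (coI Q') c1 hPQ ((stab_geV g _).2 ⟨c8 g hS, c2⟩) (fun h hh => hxQ' h (c4 hh))
  rw [← c5, h1]

end Pool.Agent.Lib.MPc9b009.LF
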