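import Pool.Agent.Lib.MP_c9b009_ag.LF.SpecT

/-!
# MP_c9b009_ag, row LF, module CND: a common denominator of the integral closure
-/

set_option autoImplicit false

namespace Pool.Agent.Lib.MPc9b009.LF

open MvPolynomial Pool.Agent.Lib.MPc9b009.B5 Pool.Agent.Lib.MPc9b009.OD
  Pool.Agent.Lib.MPc9b009.PS Pool.Agent.Lib.MPc9b009.LS

namespace CNDM

open scoped nonZeroDivisors

/-- finite extensions of polynomial rings -/
theorem gen0 {s : ℕ} (B K : Type) [CommRing B] [IsDomain B] [Field K]
    [Algebra B K] [IsFractionRing B K] [CharZero K] [Algebra (MvPolynomial (Fin s) ℂ) B]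
    [Algebra (MvPolynomial (Fin s) ℂ) K] [IsScalarTower (MvPolynomial (Fin s) ℂ) B K]
    [FaithfulSMul (MvPolynomial (Fin s) ℂ) B] [Module.Finite (MvPolynomial (Fin s) ℂ) B] :
    ∃ r : B, r ≠ 0 ∧ ∀ a : K, IsIntegral B a → ∃ b : B, algebraMap B K r * a = algebraMap B K b := by
  classical
  let A := MvPolynomial (Fin s) ℂ
  have hBK : Function.Injective (algebraMap B K) := IsFractionRing.injective B K
  have hAB : Function.Injective (algebraMap A B) := FaithfulSMul.algebraMap_injective A B
  have hAK : Function.Injective (algebraMap A K) := by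
    rw [IsScalarTower.algebraMap_eq A B K]
    exact hBK.comp hAB
  have : FaithfulSMul A K := (faithfulSMul_iff_algebraMap_injective A K).2 hAK
  letI : Algebra (FractionRing A) K := FractionRing.liftAlgebra A K
  have : IsScalarTower A (FractionRing A) K := FractionRing.isScalarTower_liftAlgebra A K
  have : Algebra.IsIntegral A B := Algebra.IsIntegral.of_finite A B
  have : Algebra.IsAlgebraic A B := inferInstance
  have : IsLocalization (Algebra.algebraMapSubmonoid B A⁰) K := inferInstance
  have : Module.Finite (FractionRing A) K := Module.Finite.of_isLocalization A B A⁰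
  have : CharZero A := inferInstance
  have : CharZero (FractionRing A) := by
    refine charZero_of_injective_algebraMap (R := A) (IsFractionRing.injective A (FractionRing A))
  have : Module.Finite A (integralClosure A K) :=
    IsIntegralClosure.finite A (FractionRing A) K (integralClosure A K)
  obtain ⟨T, hT⟩ := (inferInstance : Module.Finite A (integralClosure A K))
  obtain ⟨r, hr⟩ := IsLocalization.exist_integer_multiples_of_finset (nonZeroDivisors B)
    (T.image fun c : integralClosure A K => (c : K))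
  refine ⟨r, nonZeroDivisors.coe_ne_zero r, ?_⟩
  intro a ha
  have ha2 : IsIntegral A a := isIntegral_trans (R := A) (A := B) a ha
  have hmem : (⟨a, ha2⟩ : integralClosure A K) ∈ Submodule.span A (T : Set (integralClosure A K)) := by
    rw [hT]; trivial
  have key : ∀ x : integralClosure A K, x ∈ Submodule.span A (T : Set (integralClosure A K)) →
      ∃ b : B, algebraMap B K r * (x : K) = algebraMap B K b := by
    intro x hx
    induction hx using Submodule.span_induction with
    | mem x hx =>
      obtain ⟨b, hb⟩ := hr (x : K) (Finset.mem_image.2 ⟨x, hx, rfl⟩)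
      refine ⟨b, ?_⟩
      rw [hb, Algebra.smul_def]
    | zero => exact ⟨0, by simp⟩
    | add x y _ _ hx hy =>
      obtain ⟨b, hb⟩ := hx
      obtain ⟨b', hb'⟩ := hy
      refine ⟨b + b', ?_⟩
      rw [Subalgebra.coe_add, mul_add, hb, hb', map_add]
    | smul c x _ hx =>
      obtain ⟨b, hb⟩ := hx
      refine ⟨algebraMap A B c * b, ?_⟩
      rw [Subalgebra.coe_smul, Algebra.smul_def, map_mul, ← hb,
        IsScalarTower.algebraMap_apply A B K]
      ring
  exact key _ hmem

/-- finitely generated domains -/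
theorem gen1 (B K : Type) [CommRing B] [IsDomain B] [Algebra ℂ B] [Algebra.FiniteType ℂ B]
    [Field K] [Algebra B K] [IsFractionRing B K] :
    ∃ r : B, r ≠ 0 ∧ ∀ a : K, IsIntegral B a → ∃ b : B, algebraMap B K r * a = algebraMap B K b := by
  obtain ⟨s, g, hg, hgf⟩ := exists_finite_inj_algHom_of_fg ℂ B
  letI : Algebra (MvPolynomial (Fin s) ℂ) B := g.toRingHom.toAlgebra
  letI : Algebra (MvPolynomial (Fin s) ℂ) K := ((algebraMap B K).comp g.toRingHom).toAlgebra
  have : IsScalarTower (MvPolynomial (Fin s) ℂ) B K := IsScalarTower.of_algebraMap_eq' rfl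
  have : Module.Finite (MvPolynomial (Fin s) ℂ) B := hgf
  have : FaithfulSMul (MvPolynomial (Fin s) ℂ) B :=
    (faithfulSMul_iff_algebraMap_injective _ _).2 hg
  have : CharZero K := by
    have h : Function.Injective ((algebraMap B K).comp (algebraMap ℂ B)) := RingHom.injective _
    exact charZero_of_injective_ringHom h
  exact gen0 (s := s) B K

end CNDM

open CNDM in
theorem specCND : SpecCND := by
  intro N n I hI p c R _ _ _ _ ρ dd hR
  let B : Subalgebra ℂ R := ρ.range
  have : Algebra.FiniteType ℂ B :=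
    Algebra.FiniteType.of_surjective ρ.rangeRestrict ρ.rangeRestrict_surjective
  let K := FractionRing R
  have hRK : Function.Injective (algebraMap R K) := IsFractionRing.injective R K
  have : IsFractionRing B K := by
    have : FaithfulSMul B K := by
      rw [faithfulSMul_iff_algebraMap_injective]
      have h : algebraMap B K = (algebraMap R K).comp B.val.toRingHom := rfl
      rw [h]
      exact hRK.comp Subtype.val_injective
    refine IsFractionRing.of_field B K ?_
    intro z
    obtain ⟨x, y, hy, rfl⟩ := IsFractionRing.div_surjective (A := R) z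
    obtain ⟨a1, b1, hb1, h1⟩ := hR.frac x
    obtain ⟨a2, b2, hb2, h2⟩ := hR.frac y
    refine ⟨⟨ρ (a1 * b2), ⟨_, rfl⟩⟩, ⟨ρ (a2 * b1), ⟨_, rfl⟩⟩, ?_⟩
    have e1 : algebraMap B K ⟨ρ (a1 * b2), ⟨_, rfl⟩⟩ = algebraMap R K (ρ (a1 * b2)) := rfl
    have e2 : algebraMap B K ⟨ρ (a2 * b1), ⟨_, rfl⟩⟩ = algebraMap R K (ρ (a2 * b1)) := rfl
    rw [e1, e2, map_mul ρ a1 b2, map_mul ρ a2 b1, ← h1, ← h2]
    have u1 : algebraMap R K (ρ b1) ≠ 0 := by
      rw [Ne, map_eq_zero_iff _ hRK]
      exact ((hR.unit b1).2 hb1).ne_zero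
    have u2 : algebraMap R K (ρ b2) ≠ 0 := by
      rw [Ne, map_eq_zero_iff _ hRK]
      exact ((hR.unit b2).2 hb2).ne_zero
    have u3 : algebraMap R K y ≠ 0 := by
      rw [Ne, map_eq_zero_iff _ hRK]
      exact nonZeroDivisors.ne_zero hy
    simp only [map_mul]
    rw [div_eq_div_iff u3 (mul_ne_zero (mul_ne_zero u3 u2) u1)]
    ring
  obtain ⟨r, hr0, hr⟩ := gen1 B K
  refine ⟨r, fun h => hr0 (Subtype.ext h), ?_⟩
  intro a ha
  -- the multiplicative set
  let M : Submonoid B :=
    { carrier := {y | ∃ b, eval p b ≠ 0 ∧ y = ⟨ρ b, ⟨b, rfl⟩⟩}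
      one_mem' := ⟨1, by simp, Subtype.ext (map_one ρ).symm⟩
      mul_mem' := by
        rintro x y ⟨b, hb, rfl⟩ ⟨b', hb', rfl⟩
        exact ⟨b * b', by rw [map_mul]; exact mul_ne_zero hb hb', Subtype.ext (map_mul ρ b b').symm⟩ }
  have : IsLocalization M R := by
    refine ⟨?_, ?_, ?_⟩
    · rintro ⟨y, b, hb, rfl⟩
      exact (hR.unit b).2 hb
    · intro z
      obtain ⟨a', b, hb, h⟩ := hR.frac z
      exact ⟨(⟨ρ a', ⟨a', rfl⟩⟩, ⟨⟨ρ b, ⟨b, rfl⟩⟩, b, hb, rfl⟩), h⟩
    · intro x y h
      exact ⟨1, by rw [Subtype.ext h]⟩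
  obtain ⟨m, hm⟩ := IsIntegral.exists_multiple_integral_of_isLocalization (Rₘ := R) M a ha
  obtain ⟨b, hb⟩ := hr _ hm
  have hu : IsUnit (algebraMap B R m) := IsLocalization.map_units R m
  obtain ⟨u, hu⟩ := hu
  refine ⟨(b : R) * ((u⁻¹ : Rˣ) : R), ?_⟩
  have e3 : algebraMap R K (b : R) = algebraMap B K b := rfl
  have e4 : algebraMap R K (r : R) = algebraMap B K r := rfl
  have e5 : (m • a : K) = algebraMap R K (u : R) * a := by
    rw [hu, Submonoid.smul_def, Algebra.smul_def]
    rfl
  have e6 : algebraMap R K (u : R) * algebraMap R K ((u⁻¹ : Rˣ) : R) = 1 := by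
    rw [← map_mul, Units.mul_inv, map_one]
  rw [map_mul, e3, ← hb, e5, e4]
  linear_combination (-(algebraMap B K r * a)) * e6

end Pool.Agent.Lib.MPc9b009.LF
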