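import Pool.Agent.Lib.MP_c9b009_ag.LF.SpecC

/-!
# MP_c9b009_ag, row LF, module COI (helper89): the cone over a subvariety of the chart `x_b = 1`
-/

set_option autoImplicit false

namespace Pool.Agent.Lib.MPc9b009.LF

open MvPolynomial Pool.Agent.Lib.MPc9b009.B5 Pool.Agent.Lib.MPc9b009.OD
  Pool.Agent.Lib.MPc9b009.PS Pool.Agent.Lib.MPc9b009.LS

namespace COIM

attribute [local instance] MvPolynomial.gradedAlgebra

theorem coI_le {N : ℕ} (q : Ideal (PR N)) : coI q ≤ q :=
  Ideal.toIdeal_homogeneousCore_le (homogeneousSubmodule (Fin N) ℂ) q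

theorem mem_coI {N : ℕ} (q : Ideal (PR N)) (f : PR N) :
    f ∈ coI q ↔ ∀ e, homogeneousComponent e f ∈ q := by
  constructor
  · intro h e
    have h1 := (q.homogeneousCore (homogeneousSubmodule (Fin N) ℂ)).isHomogeneous e h
    have h2 := Ideal.toIdeal_homogeneousCore_le (homogeneousSubmodule (Fin N) ℂ) q h1
    rw [← decomposition.decompose'_apply f e]
    exact h2
  · intro h
    rw [← sum_homogeneousComponent f]
    refine Ideal.sum_mem _ fun e _ => ?_
    exact Ideal.mem_homogeneousCore_of_homogeneous_of_mem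
      ⟨e, homogeneousComponent_isHomogeneous e f⟩ (h e)

/-- homogeneous elements of `q` are in `coI q` -/
theorem hom_mem {N e : ℕ} (q : Ideal (PR N)) (f : PR N) (hf : f.IsHomogeneous e) (hq : f ∈ q) :
    f ∈ coI q :=
  Ideal.mem_homogeneousCore_of_homogeneous_of_mem ⟨e, hf⟩ hq

theorem coI_prime {N : ℕ} (q : Ideal (PR N)) (hq : q.IsPrime) : (coI q).IsPrime :=
  Ideal.IsPrime.homogeneousCore hq

theorem coI_hom {N : ℕ} (q : Ideal (PR N)) : Hom (coI q) := by
  intro f hf d
  exact hom_mem q _ (homogeneousComponent_isHomogeneous d f) ((mem_coI q f).1 hf d)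

theorem le_coI {N : ℕ} (q J : Ideal (PR N)) (hJ : Hom J) (h : J ≤ q) : J ≤ coI q := by
  intro f hf
  exact (mem_coI q f).2 fun e => h (hJ f hf e)

/-- homogenization -/
theorem hmg {N : ℕ} (b : Fin N) (f : PR N) : ∃ Q : PR N, Q.IsHomogeneous f.totalDegree ∧
    Q - f ∈ (Ideal.span {X b - 1} : Ideal (PR N)) := by
  refine ⟨∑ e ∈ Finset.range (f.totalDegree + 1), X b ^ (f.totalDegree - e) *
    homogeneousComponent e f, ?_, ?_⟩
  · refine IsHomogeneous.sum _ _ _ fun e he => ?_
    have h1 := (isHomogeneous_X_pow b (f.totalDegree - e) : (X b ^ (f.totalDegree - e) :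
      PR N).IsHomogeneous (f.totalDegree - e)).mul (homogeneousComponent_isHomogeneous e f)
    have h2 : f.totalDegree - e + e = f.totalDegree := by
      have := Finset.mem_range.1 he
      omega
    rwa [h2] at h1
  · have h1 : ∑ e ∈ Finset.range (f.totalDegree + 1), X b ^ (f.totalDegree - e) *
        homogeneousComponent e f - f = ∑ e ∈ Finset.range (f.totalDegree + 1),
          (X b ^ (f.totalDegree - e) - 1) * homogeneousComponent e f := by
      have h2 := sum_homogeneousComponent f
      calc _ = ∑ e ∈ Finset.range (f.totalDegree + 1), X b ^ (f.totalDegree - e) *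
            homogeneousComponent e f - ∑ e ∈ Finset.range (f.totalDegree + 1),
            homogeneousComponent e f := by rw [h2]
        _ = _ := by
          rw [← Finset.sum_sub_distrib]
          exact Finset.sum_congr rfl fun e _ => by rw [sub_mul, one_mul]
    rw [h1]
    refine Ideal.sum_mem _ fun e _ => Ideal.mul_mem_right _ _ ?_
    rw [Ideal.mem_span_singleton]
    have h3 := sub_dvd_pow_sub_pow (X b : PR N) 1 (f.totalDegree - e)
    rwa [one_pow] at h3

/-- the function field -/
theorem gen_frac {N : ℕ} (P : Ideal (PR N)) [hP : P.IsPrime] :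
    Gen P (FractionRing (PR N ⧸ P))
      ((IsScalarTower.toAlgHom ℂ (PR N ⧸ P) (FractionRing (PR N ⧸ P))).comp
        (Ideal.Quotient.mkₐ ℂ P)) := by
  constructor
  · intro q
    rw [← Ideal.Quotient.eq_zero_iff_mem]
    exact (IsFractionRing.injective (PR N ⧸ P) (FractionRing (PR N ⧸ P))).eq_iff' (map_zero _)
  · intro y
    obtain ⟨a, b, hb, hab⟩ := IsFractionRing.div_surjective (A := PR N ⧸ P) y
    obtain ⟨a', rfl⟩ := Ideal.Quotient.mk_surjective a
    obtain ⟨b', rfl⟩ := Ideal.Quotient.mk_surjective b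
    have hb0 : algebraMap (PR N ⧸ P) (FractionRing (PR N ⧸ P)) (Ideal.Quotient.mk P b') ≠ 0 :=
      IsFractionRing.to_map_ne_zero_of_mem_nonZeroDivisors hb
    refine ⟨a', b', hb0, ?_⟩
    rw [← hab]
    exact div_mul_cancel₀ _ hb0

/-- dehomogenization of a homogeneous polynomial -/
theorem deh {N e : ℕ} {L : Type} [Field L] [Algebra ℂ L] (φ : PR N →ₐ[ℂ] L) (t : L) (ht : t ≠ 0)
    (f : PR N) (hf : f.IsHomogeneous e) :
    aeval (fun l => φ (X l) / t) f * t ^ e = φ f := by
  have h0 : φ f = aeval (fun l => φ (X l)) f := by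
    conv_lhs => rw [aeval_unique φ]
    rfl
  rw [h0, aeval_def, aeval_def, eval₂_eq, eval₂_eq, Finset.sum_mul]
  refine Finset.sum_congr rfl fun d hd => ?_
  rw [mul_assoc]
  congr 1
  rw [hf.degree_eq_sum_deg_support hd, ← Finset.prod_pow_eq_pow_sum, ← Finset.prod_mul_distrib]
  refine Finset.prod_congr rfl fun i _ => ?_
  rw [← mul_pow, div_mul_cancel₀ _ ht]

/-- homogeneous elements of a stable ideal -/
theorem stab_hom {N e : ℕ} (b : Fin N) (g : Biv N) (q : Ideal (PR N)) (hq : Stab (chV b g) q)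
    (f : PR N) (hf : f.IsHomogeneous e) (hfq : f ∈ q) (j : Fin N) :
    ∑ i, g.f i j * pderiv i f ∈ coI q := by
  have h1 : ∑ i, chP b g i j * pderiv i f ∈ q := by
    have h := hq f hfq (Fin.castAdd 1 j)
    simpa only [chV, Fin.append_left] using h
  have h2 : ∑ i, g.f b i * pderiv i f ∈ q := by
    have h := hq f hfq (Fin.natAdd N (0 : Fin 1))
    simpa only [chV, Fin.append_right] using h
  have h3 : ∑ i, X i * pderiv i f ∈ q := by
    rw [hf.sum_X_mul_pderiv]
    exact Submodule.smul_of_tower_mem q e hfq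
  have h4 : ∑ i, g.f i j * pderiv i f = ∑ i, chP b g i j * pderiv i f +
      g.f b j * ∑ i, X i * pderiv i f - X j * ∑ i, g.f b i * pderiv i f := by
    rw [Finset.mul_sum, Finset.mul_sum, ← Finset.sum_add_distrib, ← Finset.sum_sub_distrib]
    refine Finset.sum_congr rfl fun i _ => ?_
    have h5 : g.f i b = - g.f b i := g.skew b i
    rw [chP, h5]
    ring
  refine hom_mem (e := 2 + (e - 1)) q _ ?_ ?_
  · refine IsHomogeneous.sum _ _ _ fun i _ => ?_
    exact (g.quad i j).mul hf.pderiv
  · rw [h4]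
    exact q.sub_mem (q.add_mem h1 (q.mul_mem_left _ h3)) (q.mul_mem_left _ h2)

end COIM

open COIM in
theorem specCOI (hCAM : SpecCAM) : SpecCOI := by
  intro N b
  refine ⟨?_, ?_⟩
  · intro q' hq' hb
    have hX : X b ∉ coI q' := by
      intro h
      have h1 := coI_le q' h
      have h2 : (1 : PR N) ∈ q' := by
        have h3 := q'.sub_mem h1 hb
        rwa [sub_sub_cancel] at h3
      exact hq'.ne_top ((Ideal.eq_top_iff_one q').2 h2)
    have hspan : (Ideal.span {X b - 1} : Ideal (PR N)) ≤ q' := by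
      rw [Ideal.span_le, Set.singleton_subset_iff]
      exact hb
    have hch : chI b (coI q') = q' := by
      refine le_antisymm (sup_le (coI_le q') hspan) ?_
      intro f hf
      obtain ⟨Q, hQ, hQf⟩ := hmg b f
      have h1 : Q ∈ q' := by
        have h2 := q'.add_mem (hspan hQf) hf
        rwa [sub_add_cancel] at h2
      have h3 := hom_mem q' Q hQ h1
      have h4 : f = Q - (Q - f) := by ring
      rw [h4]
      exact Ideal.sub_mem _ (Ideal.mem_sup_left h3) (Ideal.mem_sup_right hQf)
    refine ⟨coI_prime q' hq', coI_hom q', hX, coI_le q', hch, fun J hJ h => le_coI q' J hJ h,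
      ?_, ?_⟩
    · have h1 := (hCAM N b (coI q') (coI_prime q' hq') (coI_hom q') hX).2.2
      rw [hch] at h1
      exact h1
    · intro g hg f hf j
      have h1 : ∑ i, g.f i j * pderiv i f = ∑ e ∈ Finset.range (f.totalDegree + 1),
          ∑ i, g.f i j * pderiv i (homogeneousComponent e f) := by
        rw [Finset.sum_comm]
        refine Finset.sum_congr rfl fun i _ => ?_
        rw [← Finset.mul_sum, ← map_sum, sum_homogeneousComponent]
      rw [h1]
      exact Ideal.sum_mem _ fun e _ => stab_hom b g q' hg _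
        (homogeneousComponent_isHomogeneous e f) ((mem_coI q' f).1 hf e) j
  · intro P hP hH hX
    refine le_antisymm ?_ (le_coI _ P hH le_sup_left)
    intro f hf
    have hgen := gen_frac P
    obtain ⟨L, iF, iA, φ, hgen⟩ : ∃ (L : Type) (_ : Field L) (_ : Algebra ℂ L)
        (φ : PR N →ₐ[ℂ] L), Gen P L φ := ⟨_, _, _, _, hgen⟩
    have ht : φ (X b) ≠ 0 := fun h => hX ((hgen.ker _).1 h)
    have h1 : ∀ e, homogeneousComponent e f ∈ P := by
      intro e
      have h2 := (mem_coI _ f).1 hf e
      rw [(hCAM N b P hP hH hX).1 L iF iA φ hgen] at h2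
      have h3 := deh φ (φ (X b)) ht _ (homogeneousComponent_isHomogeneous e f)
      rw [h2, zero_mul] at h3
      exact (hgen.ker _).1 h3.symm
    rw [← sum_homogeneousComponent f]
    exact P.sum_mem fun e _ => h1 e

end Pool.Agent.Lib.MPc9b009.LF
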