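import Pool.Agent.Lib.MP_c9b009_ag.LF.SpecC
import Pool.Agent.Lib.MP_c9b009_ag.LS.EUH

/-!
# MP_c9b009_ag, row LF, module CPI: the Poisson structure of the chart `x_b = 1`
-/

set_option autoImplicit false

namespace Pool.Agent.Lib.MPc9b009.LF

open MvPolynomial Pool.Agent.Lib.MPc9b009.B5 Pool.Agent.Lib.MPc9b009.OD
  Pool.Agent.Lib.MPc9b009.PS Pool.Agent.Lib.MPc9b009.LS

namespace CPIM

variable {N : ℕ}

lemma vf_add (v : Fin N → PR N) (p q : PR N) : vf v (p + q) = vf v p + vf v q := by
  simp only [vf, map_add, mul_add, Finset.sum_add_distrib]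

lemma vf_neg (v : Fin N → PR N) (p : PR N) : vf v (-p) = - vf v p := by
  simp only [vf, map_neg, mul_neg, Finset.sum_neg_distrib]

lemma vf_sub (v : Fin N → PR N) (p q : PR N) : vf v (p - q) = vf v p - vf v q := by
  rw [sub_eq_add_neg, vf_add, vf_neg, ← sub_eq_add_neg]

lemma vf_mul (v : Fin N → PR N) (p q : PR N) : vf v (p * q) = vf v p * q + p * vf v q := by
  simp only [vf, Derivation.leibniz, smul_eq_mul, Finset.sum_mul, Finset.mul_sum]
  rw [← Finset.sum_add_distrib]
  exact Finset.sum_congr rfl fun l _ => by ring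

lemma vf_X (v : Fin N → PR N) (i : Fin N) : vf v (X i) = v i := by
  unfold vf
  rw [Finset.sum_eq_single i]
  · rw [pderiv_X_self, mul_one]
  · intro l _ hl
    rw [pderiv_X_of_ne hl.symm, mul_zero]
  · intro h
    exact absurd (Finset.mem_univ i) h

lemma vf_one (v : Fin N → PR N) : vf v 1 = 0 := by
  simp only [vf, pderiv_one, mul_zero, Finset.sum_const_zero]

lemma vf_negv (v : Fin N → PR N) (q : PR N) : vf (fun l => - v l) q = - vf v q := by
  simp only [vf, neg_mul, Finset.sum_neg_distrib]

lemma eu (g : Biv N) (i j : Fin N) : vf (fun l => X l) (g.f i j) = 2 * g.f i j := by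
  rw [EUHM.vfX_hom (g.quad i j), map_natCast]
  norm_num

lemma gbb (g : Biv N) (b : Fin N) : g.f b b = 0 := by
  have h := g.skew b b
  have h2 : (2 : PR N) * g.f b b = 0 := by linear_combination h
  rcases mul_eq_zero.1 h2 with h3 | h3
  · exfalso
    exact two_ne_zero h3
  · exact h3

/-- the row of `π'` as a vector field -/
lemma vf_chP (b : Fin N) (g : Biv N) (i : Fin N) (q : PR N) :
    vf (chP b g i) q = vf (g.f i) q - X i * vf (g.f b) q - g.f i b * vf (fun l => X l) q := by
  simp only [vf, chP, Finset.mul_sum]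
  rw [← Finset.sum_sub_distrib, ← Finset.sum_sub_distrib]
  exact Finset.sum_congr rfl fun l _ => by ring

lemma skewP (b : Fin N) (g : Biv N) (i j : Fin N) : chP b g j i = - chP b g i j := by
  unfold chP
  rw [g.skew i j, g.skew j b, g.skew b i]
  ring

lemma jac_vf (f : Fin N → Fin N → PR N) (i j k : Fin N) :
    jac f i j k = vf (f i) (f j k) + vf (f j) (f k i) + vf (f k) (f i j) := by
  unfold jac vf
  rw [← Finset.sum_add_distrib, ← Finset.sum_add_distrib]

/-- the Jacobi identity of the chart, an exact identity -/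
lemma jacP (b : Fin N) (g : Biv N) (i j k : Fin N) : jac (chP b g) i j k =
    jac g.f i j k - X i * jac g.f b j k - X j * jac g.f b k i - X k * jac g.f b i j := by
  rw [jac_vf, jac_vf, jac_vf, jac_vf, jac_vf, vf_chP, vf_chP, vf_chP]
  unfold chP
  simp only [vf_sub, vf_mul, vf_X, eu]
  rw [g.skew i j, g.skew j k, g.skew i k, g.skew b i, g.skew b j, g.skew b k]
  simp only [vf_neg]
  ring

/-- the columns of `π'` preserve `π'` -/
lemma dfcP (b : Fin N) (g : Biv N) (a i j : Fin N) :
    dfc (chP b g) (fun i => chP b g i a) i j = - jac (chP b g) i j a := by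
  have h1 : (fun l => chP b g l a) = fun l => - chP b g a l := by
    funext l
    exact skewP b g a l
  have h2 : ∑ l, (pderiv l (chP b g i a) * chP b g l j + pderiv l (chP b g j a) * chP b g i l) =
      - vf (chP b g j) (chP b g i a) + vf (chP b g i) (chP b g j a) := by
    unfold vf
    rw [← Finset.sum_neg_distrib, ← Finset.sum_add_distrib]
    refine Finset.sum_congr rfl fun l _ => ?_
    rw [skewP b g j l]
    ring
  unfold dfc
  rw [h2, h1, vf_negv, jac_vf, skewP b g i a, vf_neg]
  ring

/-- the connection field preserves `π'` -/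
lemma dfcH (b : Fin N) (g : Biv N) (i j : Fin N) :
    dfc (chP b g) (fun i => g.f b i) i j = jac g.f i j b := by
  have h2 : ∑ l, (pderiv l (g.f b i) * chP b g l j + pderiv l (g.f b j) * chP b g i l) =
      - vf (chP b g j) (g.f b i) + vf (chP b g i) (g.f b j) := by
    unfold vf
    rw [← Finset.sum_neg_distrib, ← Finset.sum_add_distrib]
    refine Finset.sum_congr rfl fun l _ => ?_
    rw [skewP b g j l]
    ring
  unfold dfc
  rw [h2, vf_chP, vf_chP, jac_vf]
  unfold chP
  simp only [vf_sub, vf_mul, vf_X, eu]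
  rw [g.skew b i, g.skew b j]
  simp only [vf_neg]
  ring

lemma le_ch (b : Fin N) (I : Ideal (PR N)) : I ≤ chI b I := le_sup_left

lemma xb_mem (b : Fin N) (I : Ideal (PR N)) : X b - 1 ∈ chI b I :=
  (le_sup_right : Ideal.span {X b - 1} ≤ chI b I) (Ideal.mem_span_singleton_self _)

/-- a vector field which maps `P` into the ideal of the chart and `x_b` too preserves it -/
lemma stab_of (b : Fin N) (P : Ideal (PR N)) (v : Fin N → PR N) (h1 : ∀ q ∈ P, vf v q ∈ chI b P)
    (h2 : v b ∈ chI b P) : ∀ q ∈ chI b P, vf v q ∈ chI b P := by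
  intro q hq
  obtain ⟨p, hp, r, hr, rfl⟩ := Submodule.mem_sup.1 hq
  obtain ⟨t, rfl⟩ := Ideal.mem_span_singleton.1 hr
  rw [vf_add, vf_mul, vf_sub, vf_X, vf_one, sub_zero]
  refine Ideal.add_mem _ (h1 p hp) (Ideal.add_mem _ (Ideal.mul_mem_right _ _ h2) ?_)
  exact Ideal.mul_mem_right _ _ (xb_mem b P)

/-- the columns of `π'` preserve the ideal of the chart -/
lemma stP (b : Fin N) (g : Biv N) (P : Ideal (PR N)) (hP : Hom P) (hs : Stab g.f P) (a : Fin N) :
    ∀ q ∈ chI b P, vf (fun i => chP b g i a) q ∈ chI b P := by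
  have hE := (specEUH N P).2 hP
  refine stab_of b P _ (fun q hq => ?_) ?_
  · have h1 : (fun l => chP b g l a) = fun l => - chP b g a l := by
      funext l
      exact skewP b g a l
    rw [h1, vf_negv, vf_chP]
    have h2 : ∀ j, vf (g.f j) q ∈ P := by
      intro j
      have h3 := hs q hq j
      have h4 : vf (g.f j) q = - ∑ i, g.f i j * pderiv i q := by
        unfold vf
        rw [← Finset.sum_neg_distrib]
        refine Finset.sum_congr rfl fun l _ => ?_
        rw [g.skew j l]
        ring
      rw [h4]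
      exact P.neg_mem h3
    refine le_ch b P (P.neg_mem (P.sub_mem (P.sub_mem (h2 a) ?_) ?_))
    · exact P.mul_mem_left _ (h2 b)
    · exact P.mul_mem_left _ (hE q hq)
  · have h3 : chP b g b a = - (g.f b a * (X b - 1)) := by
      unfold chP
      rw [gbb]
      ring
    show chP b g b a ∈ chI b P
    rw [h3]
    exact Ideal.neg_mem_iff _ |>.2 (Ideal.mul_mem_left _ _ (xb_mem b P))

/-- the connection field preserves the ideal of the chart -/
lemma stH (b : Fin N) (g : Biv N) (P : Ideal (PR N)) (hs : Stab g.f P) :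
    ∀ q ∈ chI b P, vf (fun i => g.f b i) q ∈ chI b P := by
  refine stab_of b P _ (fun q hq => ?_) ?_
  · have h4 : vf (fun i => g.f b i) q = - ∑ i, g.f i b * pderiv i q := by
      unfold vf
      rw [← Finset.sum_neg_distrib]
      refine Finset.sum_congr rfl fun l _ => ?_
      rw [g.skew b l]
      ring
    rw [h4]
    exact le_ch b P (P.neg_mem (hs q hq b))
  · show g.f b b ∈ chI b P
    rw [gbb]
    exact Ideal.zero_mem _

lemma chV_castAdd (b : Fin N) (g : Biv N) (a : Fin N) :
    (fun i => chV b g i (Fin.castAdd 1 a)) = fun i => chP b g i a := by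
  funext i
  unfold chV
  rw [Fin.append_left]

lemma chV_natAdd (b : Fin N) (g : Biv N) (a : Fin 1) :
    (fun i => chV b g i (Fin.natAdd N a)) = fun i => g.f b i := by
  funext i
  unfold chV
  rw [Fin.append_right]

/-- the columns of `chV` preserve the ideal of the chart -/
lemma stV (b : Fin N) (g : Biv N) (P : Ideal (PR N)) (hP : Hom P) (hs : Stab g.f P)
    (j : Fin (N + 1)) : ∀ q ∈ chI b P, vf (fun i => chV b g i j) q ∈ chI b P := by
  refine Fin.addCases (fun a => ?_) (fun a => ?_) j
  · rw [chV_castAdd]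
    exact stP b g P hP hs a
  · rw [chV_natAdd]
    exact stH b g P hs

end CPIM

open CPIM in
theorem specCPI : SpecCPI := by
  intro N b g I hI hs hJ
  have hjac : ∀ i j l, jac (chP b g) i j l ∈ chI b I := by
    intro i j l
    rw [jacP]
    refine Ideal.sub_mem _ (Ideal.sub_mem _ (Ideal.sub_mem _ (le_ch b I (hJ i j l)) ?_) ?_) ?_
    · exact Ideal.mul_mem_left _ _ (le_ch b I (hJ b j l))
    · exact Ideal.mul_mem_left _ _ (le_ch b I (hJ b l i))
    · exact Ideal.mul_mem_left _ _ (le_ch b I (hJ b i j))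
  refine ⟨fun i j => skewP b g i j, hjac, fun j => ⟨stV b g I hI hs j, ?_⟩, fun P hP hsP => ⟨?_, ?_⟩⟩
  · refine Fin.addCases (fun a => ?_) (fun a => ?_) j
    · intro i l
      rw [chV_castAdd, dfcP]
      exact (Ideal.neg_mem_iff _).2 (hjac i l a)
    · intro i l
      rw [chV_natAdd, dfcH]
      exact le_ch b I (hJ i l b)
  · intro q hq j
    exact stV b g P hP hsP j q hq
  · intro q hq j
    exact stP b g P hP hsP j q hq

end Pool.Agent.Lib.MPc9b009.LF
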