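import Pool.Agent.Lib.MP_c9b009_ag.LF.SpecC
import Pool.Agent.Lib.MP_c9b009_ag.LS.EUH

/-!
# MP_c9b009_ag, row LF, module CRR: reducedness on the chart
-/

set_option autoImplicit false

namespace Pool.Agent.Lib.MPc9b009.LF

open MvPolynomial Pool.Agent.Lib.MPc9b009.B5 Pool.Agent.Lib.MPc9b009.OD
  Pool.Agent.Lib.MPc9b009.PS Pool.Agent.Lib.MPc9b009.LS

namespace CRRM

/-- the zeros of the chart -/
theorem zer_chI {N : ℕ} (b : Fin N) (I : Ideal (PR N)) (x : Cn N) :
    x ∈ Zer (chI b I) ↔ x ∈ Zer I ∧ x b = 1 := by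
  constructor
  · intro h
    refine ⟨fun q hq => h q (Ideal.mem_sup_left hq), ?_⟩
    have h1 := h (X b - 1) (Ideal.mem_sup_right (Ideal.subset_span rfl))
    rw [map_sub, eval_X, map_one] at h1
    exact sub_eq_zero.1 h1
  · rintro ⟨h1, h2⟩
    have h3 : chI b I ≤ RingHom.ker (eval x) := by
      refine sup_le (fun q hq => h1 q hq) ?_
      rw [Ideal.span_le]
      rintro q (rfl : q = X b - 1)
      show eval x (X b - 1) = 0
      rw [map_sub, eval_X, map_one, h2, sub_self]
    intro q hq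
    exact h3 hq

theorem tg {N : ℕ} (b : Fin N) (I : Ideal (PR N)) (hI : Hom I) (x v : Cn N) (hx : x ∈ Zer I)
    (hb : x b = 1) (hv : v ∈ tgx I x) : (fun l => v l - v b * x l) ∈ tgx (chI b I) x := by
  have hE := (specEUH N I).2 hI
  show ∀ q ∈ chI b I, ∑ l, (v l - v b * x l) * aeval x (pderiv l q) = 0
  intro q hq
  obtain ⟨q1, hq1, q2, hq2, rfl⟩ := Submodule.mem_sup.1 hq
  obtain ⟨r, rfl⟩ := Ideal.mem_span_singleton'.1 hq2
  have e1 : ∑ l, (v l - v b * x l) * aeval x (pderiv l q1) = 0 := by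
    have h1 : ∑ l, v l * aeval x (pderiv l q1) = 0 := hv q1 hq1
    have h2 : ∑ l, x l * aeval x (pderiv l q1) = 0 := by
      have h3 := hx _ (hE q1 hq1)
      unfold vf at h3
      rw [map_sum] at h3
      rw [← h3]
      refine Finset.sum_congr rfl fun l _ => ?_
      rw [map_mul, eval_X, aeval_eq_eval]
    simp only [sub_mul, Finset.sum_sub_distrib, mul_assoc, ← Finset.mul_sum, h1, h2]
    ring
  have e2 : ∑ l, (v l - v b * x l) * aeval x (pderiv l (r * (X b - 1))) = 0 := by
    have h1 : ∀ l, aeval x (pderiv l (r * (X b - 1))) =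
        if l = b then aeval x r else (0 : ℂ) := by
      intro l
      rw [Derivation.leibniz, map_sub, pderiv_X, pderiv_one, sub_zero, map_add, smul_eq_mul,
        smul_eq_mul, map_mul, map_mul, map_sub, aeval_X, map_one, hb, sub_self, zero_mul, add_zero]
      by_cases h : l = b
      · subst h
        simp
      · rw [if_neg h, Pi.single_eq_of_ne (Ne.symm h)]
        simp
    simp only [h1, mul_ite, mul_zero, Finset.sum_ite_eq', Finset.mem_univ, if_true, hb, mul_one,
      sub_self, zero_mul]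
  have e3 : ∀ l, aeval x (pderiv l (q1 + r * (X b - 1))) =
      aeval x (pderiv l q1) + aeval x (pderiv l (r * (X b - 1))) := by
    intro l
    rw [map_add, map_add]
  simp only [e3, mul_add, Finset.sum_add_distrib, e1, e2, add_zero]

theorem alg {N : ℕ} (b : Fin N) (G : Fin N → Fin N → ℂ) (D : Fin N → Fin N → Fin N → ℂ)
    (x ξ ζ v : Fin N → ℂ) (c c' : ℂ) (hξ : ∑ i, x i * ξ i = 0) (hζ : ∑ i, x i * ζ i = 0)
    (gξ : ∀ i, ∑ j, G i j * ξ j = c * x i) (gζ : ∀ i, ∑ j, G i j * ζ j = c' * x i)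
    (sk : ∀ i j, G j i = - G i j) (hb : x b = 1) (eu : ∀ i j, ∑ l, x l * D l i j = 2 * G i j) :
    ∑ i, ∑ j, ∑ l, ξ i * ζ j * (v l - v b * x l) * (D l i j - ((if l = i then G b j else 0) +
      x i * D l b j) - ((if l = j then G i b else 0) + x j * D l i b)) =
    ∑ i, ∑ j, ∑ l, ξ i * ζ j * v l * D l i j + c * ∑ i, v i * ζ i - c' * ∑ i, v i * ξ i := by
  have hxξ : ∑ i, ξ i * x i = 0 := by simpa only [mul_comm] using hξ
  have hxζ : ∑ i, ζ i * x i = 0 := by simpa only [mul_comm] using hζ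
  have s1 : ∑ i, ∑ j, ∑ l, ξ i * ζ j * (v l - v b * x l) * D l i j =
      ∑ i, ∑ j, ∑ l, ξ i * ζ j * v l * D l i j := by
    have h0 : ∀ i j, ∑ l, ξ i * ζ j * (v l - v b * x l) * D l i j =
        ∑ l, ξ i * ζ j * v l * D l i j - 2 * v b * (ξ i * (G i j * ζ j)) := by
      intro i j
      have h1 : 2 * v b * (ξ i * (G i j * ζ j)) = ξ i * ζ j * v b * ∑ l, x l * D l i j := by
        rw [eu]; ring
      rw [h1, Finset.mul_sum, ← Finset.sum_sub_distrib]
      refine Finset.sum_congr rfl fun l _ => ?_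
      ring
    simp only [h0, Finset.sum_sub_distrib, ← Finset.mul_sum, gζ]
    have h2 : ∑ i, ξ i * (c' * x i) = 0 := by
      have : ∀ i, ξ i * (c' * x i) = c' * (ξ i * x i) := fun i => by ring
      simp only [this, ← Finset.mul_sum, hxξ, mul_zero]
    rw [h2, mul_zero, sub_zero]
  have s2 : ∑ i, ∑ j, ∑ l, ξ i * ζ j * (v l - v b * x l) * (if l = i then G b j else 0) =
      c' * ∑ i, v i * ξ i := by
    have h1 : ∀ i, ∑ j, ∑ l, ξ i * ζ j * (v l - v b * x l) * (if l = i then G b j else 0) =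
        c' * (v i * ξ i) - c' * v b * (ξ i * x i) := by
      intro i
      have h2 : ∀ j, ∑ l, ξ i * ζ j * (v l - v b * x l) * (if l = i then G b j else 0) =
          ξ i * (v i - v b * x i) * (G b j * ζ j) := by
        intro j
        simp only [mul_ite, mul_zero, Finset.sum_ite_eq', Finset.mem_univ, if_true]
        ring
      simp only [h2, ← Finset.mul_sum, gζ, hb]
      ring
    simp only [h1, Finset.sum_sub_distrib, ← Finset.mul_sum, hxξ, mul_zero, sub_zero]
  have s3 : ∑ i, ∑ j, ∑ l, ξ i * ζ j * (v l - v b * x l) * (x i * D l b j) = 0 := by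
    have h1 : ∀ i, ∑ j, ∑ l, ξ i * ζ j * (v l - v b * x l) * (x i * D l b j) =
        (ξ i * x i) * ∑ j, ∑ l, ζ j * (v l - v b * x l) * D l b j := by
      intro i
      rw [Finset.mul_sum]
      refine Finset.sum_congr rfl fun j _ => ?_
      rw [Finset.mul_sum]
      refine Finset.sum_congr rfl fun l _ => ?_
      ring
    simp only [h1, ← Finset.sum_mul, hxξ, zero_mul]
  have s4 : ∑ i, ∑ j, ∑ l, ξ i * ζ j * (v l - v b * x l) * (if l = j then G i b else 0) =
      - (c * ∑ i, v i * ζ i) := by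
    have h1 : ∀ i, ∑ j, ∑ l, ξ i * ζ j * (v l - v b * x l) * (if l = j then G i b else 0) =
        - (G b i * ξ i) * ∑ j, ζ j * (v j - v b * x j) := by
      intro i
      rw [Finset.mul_sum]
      refine Finset.sum_congr rfl fun j _ => ?_
      simp only [mul_ite, mul_zero, Finset.sum_ite_eq', Finset.mem_univ, if_true]
      rw [sk b i]
      ring
    simp only [h1, ← Finset.sum_mul, Finset.sum_neg_distrib, gξ, hb]
    have h2 : ∑ j, ζ j * (v j - v b * x j) = ∑ j, v j * ζ j := by
      have h3 : ∀ j, ζ j * (v j - v b * x j) = v j * ζ j - v b * (ζ j * x j) := fun j => by ring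
      simp only [h3, Finset.sum_sub_distrib, ← Finset.mul_sum, hxζ, mul_zero, sub_zero]
    rw [h2]
    ring
  have s5 : ∑ i, ∑ j, ∑ l, ξ i * ζ j * (v l - v b * x l) * (x j * D l i b) = 0 := by
    have h1 : ∀ i, ∑ j, ∑ l, ξ i * ζ j * (v l - v b * x l) * (x j * D l i b) = 0 := by
      intro i
      have h2 : ∀ j, ∑ l, ξ i * ζ j * (v l - v b * x l) * (x j * D l i b) =
          (ζ j * x j) * ∑ l, ξ i * (v l - v b * x l) * D l i b := by
        intro j
        rw [Finset.mul_sum]
        refine Finset.sum_congr rfl fun l _ => ?_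
        ring
      simp only [h2, ← Finset.sum_mul, hxζ, zero_mul]
    simp only [h1, Finset.sum_const_zero]
  simp only [mul_sub, mul_add, Finset.sum_sub_distrib, Finset.sum_add_distrib] at s1 s2 s3 s4 s5 ⊢
  linear_combination s1 - s2 - s3 - s4 - s5

theorem mv {N : ℕ} (b : Fin N) (g : Biv N) (x ξ : Cn N) (c : ℂ) (hξ : ∑ i, x i * ξ i = 0)
    (gξ : ∀ i, ∑ j, eval x (g.f i j) * ξ j = c * x i)
    (sk : ∀ i j, eval x (g.f j i) = - eval x (g.f i j)) (hb : x b = 1) (i : Fin N) :
    ∑ j, eval x (chP b g i j) * ξ j = 0 := by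
  have h1 : ∀ j, eval x (chP b g i j) * ξ j = eval x (g.f i j) * ξ j -
      x i * (eval x (g.f b j) * ξ j) - eval x (g.f i b) * (x j * ξ j) := by
    intro j
    unfold chP
    simp only [map_sub, map_mul, eval_X]
    ring
  simp only [h1, Finset.sum_sub_distrib, ← Finset.mul_sum, gξ, hξ, hb]
  ring

theorem pd {N : ℕ} (b : Fin N) (g : Biv N) (x : Cn N) (l i j : Fin N) :
    eval x (pderiv l (chP b g i j)) = eval x (pderiv l (g.f i j)) -
      ((if l = i then eval x (g.f b j) else 0) + x i * eval x (pderiv l (g.f b j))) -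
      ((if l = j then eval x (g.f i b) else 0) + x j * eval x (pderiv l (g.f i b))) := by
  have h1 : ∀ (a : Fin N) (q : PR N), eval x (pderiv l (X a * q)) =
      (if l = a then eval x q else 0) + x a * eval x (pderiv l q) := by
    intro a q
    rw [Derivation.leibniz, pderiv_X, map_add, smul_eq_mul, smul_eq_mul, map_mul, map_mul, eval_X]
    by_cases h : l = a
    · subst h
      simp
      ring
    · rw [if_neg h, Pi.single_eq_of_ne (Ne.symm h)]
      simp
  unfold chP
  rw [map_sub, map_sub, map_sub, map_sub, h1, h1]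

end CRRM

theorem specCRR (hCOI : SpecCOI) (hCPR : SpecCPR) : SpecCRR := by
  rintro N n b g I hI ⟨J, hJ, hJd, h⟩
  refine ⟨chI b J, ?_, ?_⟩
  · intro q' hq' hle
    have hX : X b - 1 ∈ q' := hle (Ideal.mem_sup_right (Ideal.subset_span rfl))
    obtain ⟨h1, h2, h3, h4, h5, h6, h7, h8⟩ := (hCOI N b).1 q' hq' hX
    have h9 : J ≤ coI q' := h6 J hJ (le_sup_left.trans hle)
    have h10 := hJd (coI q') h1 h9
    rw [h7] at h10
    have h11 : Algebra.trdeg ℂ (PR N ⧸ q') < Cardinal.aleph0 :=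
      lt_of_le_of_lt (le_self_add.trans h10) (Cardinal.natCast_lt_aleph0)
    obtain ⟨a, ha⟩ := Cardinal.lt_aleph0.1 h11
    rw [ha] at h10 ⊢
    have h12 : a + 1 ≤ n - 1 := by exact_mod_cast h10
    have h13 : a ≤ n - 2 := by omega
    exact_mod_cast h13
  · intro x hx hxJ
    obtain ⟨hxI, hxb⟩ := (CRRM.zer_chI b I x).1 hx
    have hxJ' : x ∉ Zer J := fun hz => hxJ ((CRRM.zer_chI b J x).2 ⟨hz, hxb⟩)
    have hx0 : x ≠ 0 := by
      rintro rfl
      exact zero_ne_one hxb
    rw [(hCPR N b g x).1 hxb]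
    rcases h x hxI hx0 hxJ' with h1 | ⟨h1, ξ, ζ, v, c, c', hξ, hζ, gξ, gζ, hv, hne⟩
    · exact Or.inl h1
    · have dd : ∀ a : Cn N, dot x a = ∑ i, x i * a i := by
        intro a
        simp [dot]
      have dd' : ∀ a : Cn N, dot v a = ∑ i, v i * a i := by
        intro a
        simp [dot]
      have eξ : ∑ i, x i * ξ i = 0 := by rw [← dd, hξ]
      have eζ : ∑ i, x i * ζ i = 0 := by rw [← dd, hζ]
      have fξ : ∀ i, ∑ j, eval x (g.f i j) * ξ j = c * x i := fun i => congrFun gξ i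
      have fζ : ∀ i, ∑ j, eval x (g.f i j) * ζ j = c' * x i := fun i => congrFun gζ i
      have sk : ∀ i j, eval x (g.f j i) = - eval x (g.f i j) := by
        intro i j
        rw [g.skew i j, map_neg]
      have eu : ∀ i j, ∑ l, x l * eval x (pderiv l (g.f i j)) = 2 * eval x (g.f i j) := by
        intro i j
        have h2 := congrArg (eval x) (g.quad i j).sum_X_mul_pderiv
        rw [map_sum, map_nsmul, nsmul_eq_mul] at h2
        simpa only [map_mul, eval_X, Nat.cast_ofNat] using h2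
      refine Or.inr ⟨h1, ξ, ζ, fun l => v l - v b * x l, ?_, ?_, CRRM.tg b I hI x v hxI hxb hv, ?_⟩
      · funext i
        exact CRRM.mv b g x ξ c eξ fξ sk hxb i
      · funext i
        exact CRRM.mv b g x ζ c' eζ fζ sk hxb i
      · have h2 := CRRM.alg b (fun i j => eval x (g.f i j))
          (fun l i j => eval x (pderiv l (g.f i j))) x ξ ζ v c c' eξ eζ fξ fζ sk hxb eu
        simp only [CRRM.pd, h2]
        rwa [dd', dd'] at hne

end Pool.Agent.Lib.MPc9b009.LF
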