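import Pool.Agent.Lib.MP_c9b009_ag.LF.SpecC
import Pool.Agent.Lib.MP_c9b009_ag.LS.EUH

/-!
# MP_c9b009_ag, row LF, part C, module CSM (helper45): smooth points
-/

set_option autoImplicit false

namespace Pool.Agent.Lib.MPc9b009.LF

open MvPolynomial Pool.Agent.Lib.MPc9b009.B5 Pool.Agent.Lib.MPc9b009.OD
  Pool.Agent.Lib.MPc9b009.PS Pool.Agent.Lib.MPc9b009.LS

namespace CSMM

/-- the other coordinates -/
theorem compl {N d : ℕ} (hd : d ≤ N) (K : Fin (N - d) → Fin N)
    (hK : Function.Injective K) : ∃ J : Fin d → Fin N, Function.Bijective (Sum.elim J K) := by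
  classical
  set s : Finset (Fin N) := (Finset.univ.image K)ᶜ with hs
  have hc : s.card = d := by
    rw [hs, Finset.card_compl, Finset.card_image_of_injective _ hK, Finset.card_univ,
      Fintype.card_fin, Fintype.card_fin]
    omega
  refine ⟨s.orderEmbOfFin hc, ?_⟩
  rw [Fintype.bijective_iff_injective_and_card]
  constructor
  · refine Function.Injective.sumElim (s.orderEmbOfFin hc).injective hK fun a b hab => ?_
    have h1 := s.orderEmbOfFin_mem hc a
    rw [hab, hs, Finset.mem_compl] at h1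
    exact h1 (Finset.mem_image_of_mem _ (Finset.mem_univ _))
  · rw [Fintype.card_sum, Fintype.card_fin, Fintype.card_fin, Fintype.card_fin]
    omega

/-- from a nonvanishing minor to coordinates -/
theorem mk {N d : ℕ} (hd : d ≤ N) {P : Ideal (PR N)} (x : Cn N) (F : Fin (N - d) → PR N)
    (K : Fin (N - d) → Fin N) (hF : ∀ a, F a ∈ P)
    (hdet : eval x (Matrix.of fun a b => pderiv (K b) (F a)).det ≠ 0) :
    ∃ c : Crd P d, eval x c.Δ ≠ 0 := by
  have hK : Function.Injective K := by
    intro a a' haa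
    by_contra hne'
    apply hdet
    rw [Matrix.det_zero_of_column_eq hne' (fun i => by simp [haa]), map_zero]
  obtain ⟨J, hJb⟩ := compl hd K hK
  exact ⟨⟨F, K, J, hF, hJb⟩, hdet⟩

/-- independent rows: a nonvanishing minor -/
theorem minor {m N : ℕ} (M : Fin m → Fin N → ℂ) (h : LinearIndependent ℂ M) :
    ∃ (I : Fin m → Fin m) (K : Fin m → Fin N), (Matrix.of fun s t => M (I s) (K t)).det ≠ 0 := by
  cases m with
  | zero =>
    refine ⟨id, Fin.elim0, ?_⟩
    rw [Matrix.det_isEmpty]
    exact one_ne_zero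
  | succ k =>
    by_contra hcon
    push Not at hcon
    have h1 : (Matrix.of M).rank ≤ k :=
      (specRKM ℂ inferInstance (k + 1) N k (Matrix.of M)).1 fun I J => hcon I J
    have h2 : (Matrix.of M).rank = Fintype.card (Fin (k + 1)) :=
      LinearIndependent.rank_matrix (M := Matrix.of M) h
    rw [Fintype.card_fin] at h2
    omega

/-- the gradient -/
noncomputable def gr {N : ℕ} (x : Cn N) (q : PR N) : Fin N → ℂ := fun k => eval x (pderiv k q)

theorem eval_det {N m : ℕ} (x : Cn N) (F : Fin m → PR N) (K : Fin m → Fin N) :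
    eval x (Matrix.of fun a b => pderiv (K b) (F a)).det =
      (Matrix.of fun a b => gr x (F a) (K b)).det := by
  rw [RingHom.map_det]
  rfl

theorem grad {N d m : ℕ} (hd : d ≤ N) (hm : N - d = m) {P : Ideal (PR N)} (x : Cn N)
    (F : Fin m → PR N) (hF : ∀ a, F a ∈ P) (h : LinearIndependent ℂ fun a => gr x (F a)) :
    ∃ c : Crd P d, eval x c.Δ ≠ 0 := by
  subst hm
  obtain ⟨I, K, hdet⟩ := minor (fun a => gr x (F a)) h
  refine mk hd x (fun a => F (I a)) K (fun a => hF _) ?_
  rw [eval_det]
  exact hdet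

/-- a nonvanishing minor: independent gradients -/
theorem li {N m : ℕ} (x : Cn N) (F : Fin m → PR N) (K : Fin m → Fin N)
    (hdet : eval x (Matrix.of fun a b => pderiv (K b) (F a)).det ≠ 0) :
    LinearIndependent ℂ fun a => gr x (F a) := by
  rw [eval_det] at hdet
  have h1 := Matrix.linearIndependent_rows_of_det_ne_zero hdet
  refine LinearIndependent.of_comp (LinearMap.funLeft ℂ ℂ K) ?_
  exact h1

theorem euler {N : ℕ} {I : Ideal (PR N)} (hI : Hom I) {x : Cn N} (hx : x ∈ Zer I) {q : PR N}
    (hq : q ∈ I) : ∑ l, x l * gr x q l = 0 := by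
  have h1 : vf (fun l => X l) q ∈ I := (specEUH N I).2 hI q hq
  have h2 := hx _ h1
  unfold vf at h2
  rw [map_sum] at h2
  rw [← h2]
  refine Finset.sum_congr rfl fun l _ => ?_
  rw [map_mul, eval_X]
  rfl

theorem gr_chart {N : ℕ} (x : Cn N) (b : Fin N) : ∑ l, x l * gr x (X b - 1) l = x b := by
  have h : ∀ l, gr x (X b - 1) l = if l = b then 1 else 0 := by
    intro l
    unfold gr
    rw [map_sub, pderiv_one, sub_zero, pderiv_X, Pi.single_apply]
    by_cases hl : l = b
    · simp [hl]
    · simp [hl, Ne.symm hl]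
  simp only [h]
  simp

end CSMM

open CSMM in
theorem specCSM : SpecCSM := by
  intro N n b I hn hH x hx hS
  obtain ⟨F, K, hF, hdet⟩ := hS
  refine ⟨mk hn x F K hF hdet, ?_⟩
  intro hxb
  have hli := li x F K hdet
  refine grad (m := N - (n + 1) + 1) (by omega) (by omega) x
    (Fin.cons (X b - 1) F : Fin (N - (n + 1) + 1) → PR N) ?_ ?_
  · intro a
    refine Fin.cases ?_ (fun a' => ?_) a
    · rw [Fin.cons_zero]
      exact Ideal.mem_sup_right (Ideal.subset_span rfl)
    · rw [Fin.cons_succ]
      exact Ideal.mem_sup_left (hF a')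
  · have he : (fun a => gr x ((Fin.cons (X b - 1) F : Fin (N - (n + 1) + 1) → PR N) a)) =
        Fin.cons (gr x (X b - 1)) (fun a => gr x (F a)) := by
      funext a
      refine Fin.cases ?_ (fun a' => ?_) a
      · rw [Fin.cons_zero, Fin.cons_zero]
      · rw [Fin.cons_succ, Fin.cons_succ]
    rw [he, linearIndependent_finCons]
    refine ⟨hli, ?_⟩
    intro hmem
    have hker : Submodule.span ℂ (Set.range fun a => gr x (F a)) ≤
        LinearMap.ker (∑ l, x l • (LinearMap.proj l : (Fin N → ℂ) →ₗ[ℂ] ℂ)) := by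
      rw [Submodule.span_le]
      rintro _ ⟨a, rfl⟩
      rw [SetLike.mem_coe, LinearMap.mem_ker]
      simpa using euler hH hx (hF a)
    have h1 := hker hmem
    rw [LinearMap.mem_ker] at h1
    have h2 : ∑ l, x l * gr x (X b - 1) l = 0 := by simpa using h1
    rw [gr_chart, hxb] at h2
    exact one_ne_zero h2

end Pool.Agent.Lib.MPc9b009.LF
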