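import Pool.Agent.Lib.MP_c9b009_ag.LF.SpecC
import Pool.Agent.Lib.MP_c9b009_ag.LS.EUH

/-!
# MP_c9b009_ag, row LF, module CSY: the volume form, the cone generically symplectic
-/

set_option autoImplicit false

namespace Pool.Agent.Lib.MPc9b009.LF

open MvPolynomial Pool.Agent.Lib.MPc9b009.B5 Pool.Agent.Lib.MPc9b009.OD
  Pool.Agent.Lib.MPc9b009.PS Pool.Agent.Lib.MPc9b009.LS

namespace CSYM

/-- the transcendence degree of `S / I` is at most `N` -/
theorem trdeg_le {N : ℕ} (I : Ideal (PR N)) :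
    Algebra.trdeg ℂ (PR N ⧸ I) ≤ ((N : ℕ) : Cardinal) := by
  have h1 : Algebra.trdeg ℂ (PR N ⧸ I) ≤ Algebra.trdeg ℂ (PR N) :=
    trdeg_le_of_surjective (Ideal.Quotient.mkₐ ℂ I) (Ideal.Quotient.mkₐ_surjective ℂ I)
  rw [MvPolynomial.trdeg_of_isDomain] at h1
  simpa using h1

theorem euler_dfc {N : ℕ} (g : Biv N) (i j : Fin N) : dfc g.f (fun l => X l) i j = 0 := by
  unfold dfc
  have h1 : vf (fun l => X l) (g.f i j) = C (2 : ℂ) * g.f i j := by
    have := LS.EUHM.vfX_hom (g.quad i j)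
    simpa using this
  rw [h1]
  have h2 : ∑ l, (pderiv l (X i : PR N) * g.f l j + pderiv l (X j : PR N) * g.f i l) =
      g.f i j + g.f i j := by
    rw [Finset.sum_add_distrib]
    congr 1
    · simp [pderiv_X, Pi.single_apply]
    · simp [pderiv_X, Pi.single_apply]
  rw [h2]
  have h3 : (C (2 : ℂ) : PR N) = 2 := map_ofNat C 2
  rw [h3]
  ring

theorem col_dfc {N : ℕ} (g : Biv N) (a i j : Fin N) :
    dfc g.f (fun l => g.f l a) i j = - jac g.f i j a := by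
  unfold dfc jac vf
  rw [← Finset.sum_sub_distrib, ← Finset.sum_neg_distrib]
  refine Finset.sum_congr rfl fun l _ => ?_
  rw [g.skew l a, g.skew i a, g.skew l j, map_neg]
  ring

theorem row_dfc {N : ℕ} (g : Biv N) (a i j : Fin N) :
    dfc g.f (fun l => g.f a l) i j = jac g.f i j a := by
  unfold dfc jac vf
  rw [← Finset.sum_sub_distrib]
  refine Finset.sum_congr rfl fun l _ => ?_
  beta_reduce
  rw [g.skew l j, g.skew j a, map_neg]
  ring

theorem col_vf {N : ℕ} (g : Biv N) {Q : Ideal (PR N)} (h : Stab g.f Q) (a : Fin N) :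
    ∀ q ∈ Q, vf (fun l => g.f l a) q ∈ Q := fun q hq => h q hq a

theorem row_vf {N : ℕ} (g : Biv N) {Q : Ideal (PR N)} (h : Stab g.f Q) (a : Fin N) :
    ∀ q ∈ Q, vf (fun l => g.f a l) q ∈ Q := by
  intro q hq
  have h1 : vf (fun l => g.f a l) q = - ∑ l, g.f l a * pderiv l q := by
    unfold vf
    rw [← Finset.sum_neg_distrib]
    refine Finset.sum_congr rfl fun l _ => ?_
    beta_reduce
    rw [g.skew l a]
    ring
  rw [h1]
  exact Q.neg_mem (h q hq a)

end CSYM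

theorem specCSY (hPHA : SpecPHA) (hCSM : SpecCSM) (hCMI : SpecCMI) : SpecCSY := by
  intro N n s d I P g hs hsn hI hHI hSI hJ hD hSm hR hrk hIP hP hHP hSP hDP hmin hx L _ _ φ hφ
  obtain ⟨x, hxP, hx0, hxr⟩ := hx
  have hxI : x ∈ Zer I := fun q hq => hxP q (hIP hq)
  have hN : n + 1 ≤ N := by
    have h1 := CSYM.trdeg_le I
    rw [hD] at h1
    exact_mod_cast h1
  have hE : ∀ Q : Ideal (PR N), Hom Q → ∀ q ∈ Q, vf (fun l => X l) q ∈ Q := fun Q hQ =>
    (specEUH N Q).2 hQ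
  have hcr := (hCSM N n ⟨0, by omega⟩ I hN hHI x hxI (hSm x hxI hx0 (by omega))).1
  have hPVE : (fun l => X l : Fin N → PR N) ∈ PV I g.f :=
    ⟨hE I hHI, fun i j => by rw [CSYM.euler_dfc]; exact I.zero_mem⟩
  have hPVc : ∀ a, (fun l => g.f l a : Fin N → PR N) ∈ PV I g.f := fun a =>
    ⟨CSYM.col_vf g hSI a, fun i j => by rw [CSYM.col_dfc]; exact I.neg_mem (hJ i j a)⟩
  have hPVr : ∀ a, (fun l => g.f a l : Fin N → PR N) ∈ PV I g.f := fun a =>
    ⟨CSYM.row_vf g hSI a, fun i j => by rw [CSYM.row_dfc]; exact hJ i j a⟩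
  have hV : ∀ j, (fun i => geV g i j) ∈ PV I g.f ∧ ∀ q ∈ P, vf (fun i => geV g i j) q ∈ P := by
    intro j
    refine Fin.lastCases ?_ (fun a => ?_) j
    · have h1 : (fun i => geV g i (Fin.last N)) = fun i => X i := by
        funext i
        exact Fin.append_right (fun a => g.f i a) (fun _ : Fin 1 => X i) 0
      rw [h1]
      exact ⟨hPVE, hE P hHP⟩
    · have h1 : (fun i => geV g i a.castSucc) = fun i => g.f i a := by
        funext i
        exact Fin.append_left (fun a => g.f i a) (fun _ : Fin 1 => X i) a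
      rw [h1]
      exact ⟨hPVc a, CSYM.col_vf g hSP a⟩
  obtain ⟨v⟩ := hPHA N (n + 1) (N + 1) d I P g.f (geV g) x (by omega) hI hD g.skew hSI hJ hR hrk
    hcr hIP hP hSP hDP hV hxP ((hCMI N s g P hP hHP hmin x hxP hx0 hxr).2) L _ _ φ hφ
  have hsub : ∀ w ∈ Flds g, w ∈ {η : Fin N → PR N | η ∈ PV I g.f ∧ ∀ q ∈ P, vf η q ∈ P} := by
    rintro w (rfl | ⟨a, rfl⟩)
    · exact ⟨hPVE, hE P hHP⟩
    · exact ⟨hPVr a, CSYM.row_vf g hSP a⟩
  exact ⟨⟨v.A, v.dd, v.M, v.lam, v.pos, v.ne, v.dual, fun w hw => v.inv w (hsub w hw)⟩⟩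

end Pool.Agent.Lib.MPc9b009.LF
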