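import Pool.Agent.Lib.MP_c9b009_ag.LF.SpecD

/-!
# MP_c9b009_ag, row LF, part D, module CTL
-/

set_option autoImplicit false

namespace Pool.Agent.Lib.MPc9b009.LF

open MvPolynomial Pool.Agent.Lib.MPc9b009.B5 Pool.Agent.Lib.MPc9b009.OD
  Pool.Agent.Lib.MPc9b009.PS Pool.Agent.Lib.MPc9b009.LS MeasureTheory

namespace CTLM

/-- The statement, with names for the section. -/
def R (N k e : ℕ) (l : List (Cn N)) (M M' : Set (Cn N)) (T T' : Cn N → Submodule ℂ (Cn N)) :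
    Prop :=
  Cone N k M' T' ∧
  ∀ V : VolU N (k + l.length) e M T,
    ∃ V' : VolU N k e M' T',
      ∀ A : Cn N → Cn N, ContDiff ℂ 2 A → (∀ x ∈ M, A x ∈ T x ∧ ∀ c ∈ l, A x ∈ hyp c) →
        DivF V A → DivF V' A

theorem main (hV : SpecVCU) (N k e : ℕ) :
    ∀ (l : List (Cn N)) (M : Set (Cn N)) (T : Cn N → Submodule ℂ (Cn N)), Chn N k l M T →
    R N k e l M {x | x ∈ M ∧ ∀ c ∈ l, x ∈ hyp c} T (fun x => T x ⊓ ⨅ c ∈ l, hyp c)
  | [], M, T, h => by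
    have hM : {x | x ∈ M ∧ ∀ c ∈ ([] : List (Cn N)), x ∈ hyp c} = M := by
      ext x; simp
    have hT : (fun x => T x ⊓ ⨅ c ∈ ([] : List (Cn N)), hyp c) = T := by
      funext x; simp
    rw [hM, hT]
    exact ⟨h, fun V => ⟨V, fun A _ _ hA => hA⟩⟩
  | c :: l, M, T, h => by
    obtain ⟨h1, h2, h3⟩ := h
    have ih := main hV N k e l {x | x ∈ M ∧ x ∈ hyp c} (fun x => T x ⊓ hyp c) h3
    have hM : {x | x ∈ {x | x ∈ M ∧ x ∈ hyp c} ∧ ∀ c ∈ l, x ∈ hyp c} =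
        {x | x ∈ M ∧ ∀ c' ∈ c :: l, x ∈ hyp c'} := by
      ext x
      simp only [Set.mem_setOf_eq, List.forall_mem_cons, and_assoc]
    have hT : (fun x => (T x ⊓ hyp c) ⊓ ⨅ c ∈ l, hyp c) =
        (fun x => T x ⊓ ⨅ c' ∈ c :: l, hyp c') := by
      funext x
      have h4 : (⨅ c' ∈ c :: l, hyp c') = hyp c ⊓ ⨅ c' ∈ l, hyp c' := by
        simp only [List.mem_cons, iInf_or, iInf_inf_eq, iInf_iInf_eq_left]
      rw [h4, inf_assoc]
    rw [hM, hT] at ih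
    refine ⟨ih.1, fun V => ?_⟩
    obtain ⟨V1, hV1⟩ := hV N (k + l.length) e M T h1 c h2 V
    obtain ⟨V2, hV2⟩ := ih.2 V1
    refine ⟨V2, fun A hA hA' hd => hV2 A hA (fun x hx => ?_) (hV1 A hA (fun x hx => ?_) hd)⟩
    · obtain ⟨h5, h6⟩ := hA' x hx.1
      exact ⟨⟨h5, h6 c (by simp)⟩, fun c' hc' => h6 c' (List.mem_cons_of_mem _ hc')⟩
    · obtain ⟨h5, h6⟩ := hA' x hx
      exact ⟨h5, h6 c (by simp)⟩

end CTLM

/-- CTL -/
theorem specCTL (hV : SpecVCU) : SpecCTL :=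
  fun N k e l M T h => CTLM.main hV N k e l M T h

end Pool.Agent.Lib.MPc9b009.LF
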