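import Pool.Agent.Lib.MP_c9b009_ag.LF.SpecC
import Pool.Agent.Lib.MP_c9b009_ag.LS.EUH

/-!
# MP_c9b009_ag, row LF, module CVA: derivations of the chart and of the cone
-/

set_option autoImplicit false

namespace Pool.Agent.Lib.MPc9b009.LF

open MvPolynomial Pool.Agent.Lib.MPc9b009.B5 Pool.Agent.Lib.MPc9b009.OD
  Pool.Agent.Lib.MPc9b009.PS Pool.Agent.Lib.MPc9b009.LS

namespace CVAM

/-- A homomorphism from a function field. -/
lemma exists_hom {N : ℕ} {Q : Ideal (PR N)} {L' : Type} [Field L'] [Algebra ℂ L']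
    {φ' : PR N →ₐ[ℂ] L'} (hG : Gen Q L' φ') {L : Type} [Field L] [Algebra ℂ L]
    (α : PR N →ₐ[ℂ] L) (hα : ∀ q, q ∈ Q ↔ α q = 0) :
    ∃ j : L' →ₐ[ℂ] L, ∀ q, j (φ' q) = α q := by
  choose a b hb hab using hG.frac
  have hne : ∀ q, φ' q ≠ 0 → α q ≠ 0 := by
    intro q hq h
    exact hq ((hG.ker q).2 ((hα q).2 h))
  have heq : ∀ q r, φ' q = φ' r → α q = α r := by
    intro q r h
    have h1 : φ' (q - r) = 0 := by rw [map_sub, h, sub_self]
    have h2 := (hα _).1 ((hG.ker _).1 h1)
    rw [map_sub, sub_eq_zero] at h2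
    exact h2
  let j : L' → L := fun y => α (a y) / α (b y)
  have hj : ∀ (y : L') (p q : PR N), φ' q ≠ 0 → y * φ' q = φ' p → j y = α p / α q := by
    intro y p q hq hpq
    show α (a y) / α (b y) = α p / α q
    rw [div_eq_div_iff (hne _ (hb y)) (hne _ hq), ← map_mul, ← map_mul]
    apply heq
    rw [map_mul, map_mul, ← hab y, ← hpq]
    ring
  have hjq : ∀ q, j (φ' q) = α q := by
    intro q
    have h1 := hj (φ' q) q 1 (by rw [map_one]; exact one_ne_zero) (by rw [map_one, mul_one])
    rw [h1, map_one, div_one]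
  have hmul : ∀ x y, j (x * y) = j x * j y := by
    intro x y
    have h1 := hj (x * y) (a x * a y) (b x * b y)
      (by rw [map_mul]; exact mul_ne_zero (hb x) (hb y))
      (by rw [map_mul, map_mul, ← hab x, ← hab y]; ring)
    rw [h1, map_mul, map_mul, mul_div_mul_comm]
  have hadd : ∀ x y, j (x + y) = j x + j y := by
    intro x y
    have h1 := hj (x + y) (a x * b y + a y * b x) (b x * b y)
      (by rw [map_mul]; exact mul_ne_zero (hb x) (hb y))
      (by rw [map_add, map_mul, map_mul, map_mul, ← hab x, ← hab y]; ring)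
    rw [h1, map_add, map_mul, map_mul, map_mul]
    show (α (a x) * α (b y) + α (a y) * α (b x)) / (α (b x) * α (b y)) =
      α (a x) / α (b x) + α (a y) / α (b y)
    have hx := hne _ (hb x)
    have hy := hne _ (hb y)
    field_simp
  have hC : ∀ c : ℂ, j (algebraMap ℂ L' c) = algebraMap ℂ L c := by
    intro c
    have h1 : algebraMap ℂ L' c = φ' (C c) := (φ'.commutes c).symm
    rw [h1, hjq]
    exact α.commutes c
  have hj1 : j 1 = 1 := by
    have h := hC 1
    rw [map_one, map_one] at h
    exact h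
  have hj0 : j 0 = 0 := by
    have h := hC 0
    rw [map_zero, map_zero] at h
    exact h
  exact ⟨{ toFun := j, map_one' := hj1, map_mul' := hmul, map_zero' := hj0, map_add' := hadd,
           commutes' := hC }, hjq⟩

/-- A derivation-like map which vanishes at the generators is zero. -/
lemma vanish {N : ℕ} {Q : Ideal (PR N)} {L' : Type} [Field L'] [Algebra ℂ L']
    {φ' : PR N →ₐ[ℂ] L'} (hG : Gen Q L' φ') {L : Type} [Field L] [Algebra ℂ L]
    (j : L' →ₐ[ℂ] L) (S : L' → L) (hadd : ∀ x y, S (x + y) = S x + S y)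
    (hmul : ∀ x y, S (x * y) = j x * S y + j y * S x)
    (hC : ∀ c : ℂ, S (algebraMap ℂ L' c) = 0) (hX : ∀ l, S (φ' (X l)) = 0) (y : L') : S y = 0 := by
  have hq : ∀ q : PR N, S (φ' q) = 0 := by
    intro q
    induction q using MvPolynomial.induction_on with
    | C c =>
      have h1 : φ' (C c) = algebraMap ℂ L' c := φ'.commutes c
      rw [h1, hC]
    | add p q hp hq => rw [map_add, hadd, hp, hq, add_zero]
    | mul_X p m hp => rw [map_mul, hmul, hp, hX, mul_zero, mul_zero, add_zero]
  obtain ⟨a, b, hb, hab⟩ := hG.frac y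
  have h1 := hq a
  rw [← hab, hmul, hq b, mul_zero, zero_add] at h1
  rcases mul_eq_zero.1 h1 with h | h
  · exfalso
    apply hb
    exact j.toRingHom.injective (by rw [map_zero]; exact h)
  · exact h

/-- The chain rule. -/
lemma chain {N : ℕ} {L : Type} [Field L] [Algebra ℂ L] (φ : PR N →ₐ[ℂ] L)
    (D : Derivation ℂ L L) (q : PR N) :
    D (φ q) = ∑ l, D (φ (X l)) * φ (pderiv l q) := by
  induction q using MvPolynomial.induction_on with
  | C c =>
    have h1 : φ (C c) = algebraMap ℂ L c := φ.commutes c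
    rw [h1, Derivation.map_algebraMap]
    symm
    refine Finset.sum_eq_zero fun l _ => ?_
    rw [pderiv_C, map_zero, mul_zero]
  | add p q hp hq =>
    rw [map_add, map_add, hp, hq, ← Finset.sum_add_distrib]
    refine Finset.sum_congr rfl fun l _ => ?_
    rw [map_add, map_add, mul_add]
  | mul_X p m hp =>
    rw [map_mul, Derivation.leibniz, hp, smul_eq_mul, smul_eq_mul]
    have h1 : ∀ l, D (φ (X l)) * φ (pderiv l (p * X m)) =
        φ (X m) * (D (φ (X l)) * φ (pderiv l p)) +
          (if l = m then φ p * D (φ (X l)) else 0) := by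
      intro l
      rw [Derivation.leibniz, smul_eq_mul, smul_eq_mul, map_add, map_mul, map_mul]
      by_cases hl : l = m
      · subst hl
        rw [if_pos rfl, pderiv_X_self, map_one]
        ring
      · rw [if_neg hl, pderiv_X_of_ne (Ne.symm hl), map_zero]
        ring
    rw [Finset.sum_congr rfl fun l _ => h1 l, Finset.sum_add_distrib, ← Finset.mul_sum,
      Finset.sum_ite_eq' Finset.univ m, if_pos (Finset.mem_univ m)]
    ring

/-- Homogeneous polynomials. -/
lemma hom_eval {N : ℕ} {L : Type} [Field L] [Algebra ℂ L] (φ α : PR N →ₐ[ℂ] L) (t : L)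
    (ht : ∀ l, φ (X l) = t * α (X l)) {k : ℕ} {r : PR N} (hr : r.IsHomogeneous k) :
    φ r = t ^ k * α r := by
  have h1 : ∀ m : Fin N →₀ ℕ, ∏ i : Fin N, φ (X i) ^ m i = t ^ (∑ i, m i) * ∏ i, α (X i) ^ m i := by
    intro m
    rw [← Finset.prod_pow_eq_pow_sum, ← Finset.prod_mul_distrib]
    refine Finset.prod_congr rfl fun i _ => ?_
    rw [ht, mul_pow]
  have h2 : ∀ β : PR N →ₐ[ℂ] L, β r = ∑ m ∈ r.support,
      algebraMap ℂ L (coeff m r) * ∏ i, β (X i) ^ m i := by
    intro β
    conv_lhs => rw [r.as_sum]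
    rw [map_sum]
    refine Finset.sum_congr rfl fun m _ => ?_
    rw [monomial_eq, map_mul]
    have h3 : β (C (coeff m r)) = algebraMap ℂ L (coeff m r) := β.commutes _
    rw [h3, Finsupp.prod_fintype _ _ (fun i => pow_zero _), map_prod]
    simp only [map_pow]
  rw [h2 φ, h2 α, Finset.mul_sum]
  refine Finset.sum_congr rfl fun m hm => ?_
  rw [h1 m]
  have h4 : ∑ i, m i = k := by
    have h5 := hr (mem_support_iff.1 hm)
    rw [← h5, Finsupp.weight_apply, Finsupp.sum_fintype _ _ (fun i => by simp)]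
    simp
  rw [h4]
  ring

end CVAM

open CVAM in
theorem specCVA (hCAM : SpecCAM) (hTGD : SpecTGD) : SpecCVA := by
  intro N d b P hP hHom hb htr L iF iA φ hG L' iF' iA' φ' hG'
  have hcam := (hCAM N b P hP hHom hb).1 L iF iA φ hG
  have htgd := hTGD N (d + 1) P hP htr L iF iA φ hG
  set t : L := φ (X b) with ht
  have ht0 : t ≠ 0 := fun h => hb ((hG.ker _).1 h)
  let α : PR N →ₐ[ℂ] L := aeval fun l => φ (X l) / φ (X b)
  have hαX : ∀ l, α (X l) = φ (X l) / t := fun l => aeval_X _ l
  obtain ⟨j, hj⟩ := exists_hom hG' α hcam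
  have hyt : ∀ l, φ (X l) = t * α (X l) := by
    intro l
    rw [hαX, mul_div_cancel₀ _ ht0]
  have h1 : φ' (X b) = 1 := by
    have h2 : φ' (X b - 1) = 0 := by
      rw [hG'.ker]
      exact Ideal.mem_sup_right (Ideal.subset_span rfl)
    rw [map_sub, map_one, sub_eq_zero] at h2
    exact h2
  -- the general principle
  have hD : ∀ (D : Derivation ℂ L L) (δ₁ δ₂ : Derivation ℂ L' L') (a₁ a₂ : L),
      (∀ l, D (j (φ' (X l))) = a₁ * j (δ₁ (φ' (X l))) + a₂ * j (δ₂ (φ' (X l)))) →
      ∀ y, D (j y) = a₁ * j (δ₁ y) + a₂ * j (δ₂ y) := by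
    intro D δ₁ δ₂ a₁ a₂ h y
    have h2 := vanish hG' j (fun y => D (j y) - (a₁ * j (δ₁ y) + a₂ * j (δ₂ y))) ?_ ?_ ?_ ?_ y
    · exact sub_eq_zero.1 h2
    · intro x z
      simp only [map_add]
      ring
    · intro x z
      simp only [map_mul, Derivation.leibniz, smul_eq_mul, map_add]
      ring
    · intro c
      show D (j (algebraMap ℂ L' c)) - (a₁ * j (δ₁ (algebraMap ℂ L' c)) +
        a₂ * j (δ₂ (algebraMap ℂ L' c))) = 0
      rw [AlgHom.commutes, Derivation.map_algebraMap, Derivation.map_algebraMap,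
        Derivation.map_algebraMap, map_zero, mul_zero, mul_zero, add_zero, sub_zero]
    · intro l
      exact sub_eq_zero.2 (h l)
  refine ⟨j, ?_, ?_, ?_, hD⟩
  · intro l
    rw [hj, ← hyt]
  · intro δ
    have htsp : (fun l => t * j (δ (φ' (X l)))) ∈ tsp P φ := by
      intro q hq
      -- homogeneous components
      have hcomp : ∀ e : ℕ, ∑ l, t * j (δ (φ' (X l))) *
          φ (pderiv l (homogeneousComponent e q)) = 0 := by
        intro e
        have hqe : homogeneousComponent e q ∈ P := hHom q hq e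
        have hqe' : φ' (homogeneousComponent e q) = 0 := by
          rw [hG'.ker]
          exact Ideal.mem_sup_left hqe
        have hδ := chain φ' δ (homogeneousComponent e q)
        rw [hqe', map_zero] at hδ
        have hjδ := congrArg j hδ
        rw [map_zero, map_sum] at hjδ
        have hterm : ∀ l, t * j (δ (φ' (X l))) * φ (pderiv l (homogeneousComponent e q)) =
            t ^ (e - 1 + 1) * j (δ (φ' (X l)) * φ' (pderiv l (homogeneousComponent e q))) := by
          intro l
          rw [hom_eval φ α t hyt ((homogeneousComponent_isHomogeneous e q).pderiv), map_mul, hj]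
          ring
        rw [Finset.sum_congr rfl fun l _ => hterm l, ← Finset.mul_sum, ← hjδ, mul_zero]
      have hsum : q = ∑ e ∈ Finset.range (q.totalDegree + 1), homogeneousComponent e q :=
        (sum_homogeneousComponent q).symm
      have hexp : ∀ l, t * j (δ (φ' (X l))) * φ (pderiv l q) =
          ∑ e ∈ Finset.range (q.totalDegree + 1),
            t * j (δ (φ' (X l))) * φ (pderiv l (homogeneousComponent e q)) := by
        intro l
        conv_lhs => rw [hsum]
        rw [map_sum, map_sum, Finset.mul_sum]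
      rw [Finset.sum_congr rfl fun l _ => hexp l, Finset.sum_comm]
      exact Finset.sum_eq_zero fun e _ => hcomp e
    obtain ⟨D, hDl⟩ := htgd.2.1 _ htsp
    have hDt : D t = 0 := by
      have h2 := hDl b
      rw [h1, Derivation.map_one_eq_zero, map_zero, mul_zero] at h2
      exact h2
    refine ⟨D, hDt, fun y => ?_⟩
    have h3 := hD D δ 0 1 0 (fun l => ?_) y
    · rw [one_mul, zero_mul, add_zero] at h3
      exact h3
    · rw [one_mul, zero_mul, add_zero, hj]
      have h4 : D (φ (X l)) = t * D (α (X l)) := by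
        rw [hyt l, Derivation.leibniz, smul_eq_mul, smul_eq_mul, hDt, mul_zero, add_zero]
      rw [hDl l] at h4
      exact (mul_left_cancel₀ ht0 h4).symm
  · have htsp : (fun l => φ (X l)) ∈ tsp P φ := by
      intro q hq
      have h2 := (specEUH N P).2 hHom q hq
      have h3 := (hG.ker _).2 h2
      rw [vf, map_sum] at h3
      rw [← h3]
      refine Finset.sum_congr rfl fun l _ => ?_
      rw [map_mul]
    obtain ⟨E, hE⟩ := htgd.2.1 _ htsp
    refine ⟨E, hE, fun y => ?_⟩
    have h3 := hD E 0 0 0 0 (fun l => ?_) y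
    · rw [zero_mul, add_zero] at h3
      exact h3
    · rw [zero_mul, add_zero, hj]
      have h4 : E (φ (X l)) = t * E (α (X l)) + α (X l) * E t := by
        rw [hyt l, Derivation.leibniz, smul_eq_mul, smul_eq_mul]
      have hEt : E t = t := hE b
      rw [hE l, hEt, hyt l, mul_comm (α (X l)) t] at h4
      have h5 : t * E (α (X l)) = 0 := by
        have := h4.symm
        linear_combination this
      exact (mul_eq_zero.1 h5).resolve_left ht0

end Pool.Agent.Lib.MPc9b009.LF
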