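import Pool.Agent.Lib.MP_c9b009_ag.LF.SpecT

/-!
# MP_c9b009_ag, row LF, module DSI: a smooth local ring has no stable ideals
-/

set_option autoImplicit false

namespace Pool.Agent.Lib.MPc9b009.LF

open MvPolynomial Pool.Agent.Lib.MPc9b009.B5 Pool.Agent.Lib.MPc9b009.OD
  Pool.Agent.Lib.MPc9b009.PS Pool.Agent.Lib.MPc9b009.LS

namespace DSIM

open IsLocalRing

variable {N n : ℕ} {I : Ideal (PR N)} {p : Cn N} {c : Crd I n} {R : Type} [CommRing R]
  [IsLocalRing R] [Algebra ℂ R] {ρ : PR N →ₐ[ℂ] R} {dd : Fin n → Derivation ℂ R R}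

/-- the local coordinates -/
noncomputable def sl (ρ : PR N →ₐ[ℂ] R) (p : Cn N) (l : Fin N) : R := ρ (X l - C (p l))

lemma sl_mem (h : LRP I p c R ρ dd) (l : Fin N) : sl ρ p l ∈ maximalIdeal R := by
  rw [mem_maximalIdeal, mem_nonunits_iff, sl, h.unit]
  simp

omit [IsLocalRing R] in
lemma rho_X (l : Fin N) : ρ (X l) = sl ρ p l + algebraMap ℂ R (p l) := by
  have h1 : ρ (C (p l)) = algebraMap ℂ R (p l) := ρ.commutes (p l)
  rw [sl, map_sub, h1, sub_add_cancel]

/-- first order Taylor expansion -/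
lemma taylor (h : LRP I p c R ρ dd) (q : PR N) :
    ρ q - (algebraMap ℂ R (eval p q) +
      ∑ l, algebraMap ℂ R (eval p (pderiv l q)) * sl ρ p l) ∈ maximalIdeal R ^ 2 := by
  induction q using MvPolynomial.induction_on with
  | C a =>
    have h1 : ρ (C a) = algebraMap ℂ R a := ρ.commutes a
    rw [h1]
    simp
  | add q r hq hr =>
    have h1 : ρ (q + r) - (algebraMap ℂ R (eval p (q + r)) +
        ∑ l, algebraMap ℂ R (eval p (pderiv l (q + r))) * sl ρ p l) =
        (ρ q - (algebraMap ℂ R (eval p q) +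
          ∑ l, algebraMap ℂ R (eval p (pderiv l q)) * sl ρ p l)) +
        (ρ r - (algebraMap ℂ R (eval p r) +
          ∑ l, algebraMap ℂ R (eval p (pderiv l r)) * sl ρ p l)) := by
      simp only [map_add, add_mul, Finset.sum_add_distrib]
      ring
    rw [h1]
    exact Ideal.add_mem _ hq hr
  | mul_X q i hq =>
    have h2 : ∑ l, algebraMap ℂ R (eval p (pderiv l (q * X i))) * sl ρ p l =
        (∑ l, algebraMap ℂ R (eval p (pderiv l q)) * sl ρ p l) * algebraMap ℂ R (p i) +
          algebraMap ℂ R (eval p q) * sl ρ p i := by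
      have h3 : ∀ l, algebraMap ℂ R (eval p (pderiv l (q * X i))) * sl ρ p l =
          algebraMap ℂ R (eval p (pderiv l q)) * sl ρ p l * algebraMap ℂ R (p i) +
            (if l = i then algebraMap ℂ R (eval p q) * sl ρ p i else 0) := by
        intro l
        rw [Derivation.leibniz, smul_eq_mul, smul_eq_mul, pderiv_X]
        by_cases hl : l = i
        · subst hl
          rw [if_pos rfl, Pi.single_eq_same]
          simp only [map_add, map_mul, eval_X, map_one]
          ring
        · rw [if_neg hl, Pi.single_eq_of_ne (Ne.symm hl)]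
          simp only [map_add, map_mul, eval_X, map_zero]
          ring
      rw [Finset.sum_congr rfl fun l _ => h3 l, Finset.sum_add_distrib, ← Finset.sum_mul,
        Finset.sum_ite_eq' Finset.univ i, if_pos (Finset.mem_univ i)]
    have h1 : ρ (q * X i) - (algebraMap ℂ R (eval p (q * X i)) +
        ∑ l, algebraMap ℂ R (eval p (pderiv l (q * X i))) * sl ρ p l) =
        (ρ q - (algebraMap ℂ R (eval p q) +
          ∑ l, algebraMap ℂ R (eval p (pderiv l q)) * sl ρ p l)) * ρ (X i) +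
        (∑ l, algebraMap ℂ R (eval p (pderiv l q)) * sl ρ p l) * sl ρ p i := by
      rw [h2, map_mul, rho_X (ρ := ρ) (p := p) i, map_mul, map_mul, eval_X]
      ring
    rw [h1]
    refine Ideal.add_mem _ (Ideal.mul_mem_right _ _ hq) ?_
    rw [pow_two]
    exact Ideal.mul_mem_mul (Ideal.sum_mem _ fun l _ => Ideal.mul_mem_left _ _ (sl_mem h l))
      (sl_mem h i)

/-- the ideal of the coordinates -/
noncomputable def tI (ρ : PR N →ₐ[ℂ] R) (p : Cn N) (c : Crd I n) : Ideal R :=
  Ideal.span (Set.range fun j => sl ρ p (c.J j))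

lemma sl_tI (h : LRP I p c R ρ dd) (hp : p ∈ Zer I) (hΔ : eval p c.Δ ≠ 0) (l : Fin N) :
    sl ρ p l ∈ tI ρ p c ⊔ maximalIdeal R ^ 2 := by
  have hJ : ∀ j, sl ρ p (c.J j) ∈ tI ρ p c ⊔ maximalIdeal R ^ 2 := fun j =>
    Ideal.mem_sup_left (Ideal.subset_span ⟨j, rfl⟩)
  obtain ⟨x, hx⟩ := c.bij.2 l
  rcases x with j | b
  · have h1 : c.J j = l := hx
    rw [← h1]
    exact hJ j
  · have h1 : c.K b = l := hx
    subst h1
    let e : Fin n ⊕ Fin (N - n) ≃ Fin N := Equiv.ofBijective _ c.bij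
    have hs : ∀ f : Fin N → R, ∑ l, f l = ∑ j, f (c.J j) + ∑ b, f (c.K b) := by
      intro f
      rw [← Equiv.sum_comp e, Fintype.sum_sum_type]
      rfl
    let A : Matrix (Fin (N - n)) (Fin (N - n)) ℂ :=
      Matrix.of fun a b => eval p (pderiv (c.K b) (c.F a))
    have hA : A.det = eval p c.Δ := by
      rw [Crd.Δ, RingHom.map_det]
      rfl
    have h2 : ∀ a, ∑ b, algebraMap ℂ R (A a b) * sl ρ p (c.K b) ∈
        tI ρ p c ⊔ maximalIdeal R ^ 2 := by
      intro a
      have h3 := taylor h (c.F a)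
      have h4 : ρ (c.F a) = 0 := (h.ker _).2 (c.mem a)
      have h5 : eval p (c.F a) = 0 := hp _ (c.mem a)
      rw [h4, h5, map_zero, zero_add, zero_sub, neg_mem_iff, hs] at h3
      have h6 := Ideal.sub_mem _ (Ideal.mem_sup_right h3 :
        _ ∈ tI ρ p c ⊔ maximalIdeal R ^ 2) (Ideal.sum_mem _ fun j (_ : j ∈ Finset.univ) =>
          Ideal.mul_mem_left _ (algebraMap ℂ R (eval p (pderiv (c.J j) (c.F a)))) (hJ j))
      rw [add_sub_cancel_left] at h6
      exact h6
    have h7 : ∀ b', algebraMap ℂ R A.det * sl ρ p (c.K b') ∈ tI ρ p c ⊔ maximalIdeal R ^ 2 := by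
      intro b'
      have h8 : algebraMap ℂ R A.det * sl ρ p (c.K b') =
          ∑ a, algebraMap ℂ R (A.adjugate b' a) *
            ∑ b, algebraMap ℂ R (A a b) * sl ρ p (c.K b) := by
        simp only [Finset.mul_sum]
        rw [Finset.sum_comm]
        have h9 : ∀ b, ∑ a, algebraMap ℂ R (A.adjugate b' a) *
            (algebraMap ℂ R (A a b) * sl ρ p (c.K b)) =
            if b' = b then algebraMap ℂ R A.det * sl ρ p (c.K b) else 0 := by
          intro b
          have h10 : ∑ a, A.adjugate b' a * A a b = if b' = b then A.det else 0 := by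
            rw [← Matrix.mul_apply, Matrix.adjugate_mul, Matrix.smul_apply, Matrix.one_apply,
              smul_eq_mul, mul_ite, mul_one, mul_zero]
          rw [← Finset.sum_congr rfl fun a _ => mul_assoc (algebraMap ℂ R (A.adjugate b' a))
            (algebraMap ℂ R (A a b)) (sl ρ p (c.K b)), ← Finset.sum_mul]
          rw [Finset.sum_congr rfl fun a _ => (map_mul (algebraMap ℂ R) _ _).symm, ← map_sum,
            h10]
          split_ifs
          · rfl
          · rw [map_zero, zero_mul]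
        rw [Finset.sum_congr rfl fun b _ => h9 b, Finset.sum_ite_eq, if_pos (Finset.mem_univ _)]
      rw [h8]
      exact Ideal.sum_mem _ fun a _ => Ideal.mul_mem_left _ _ (h2 a)
    have h11 := Ideal.mul_mem_left _ (algebraMap ℂ R (A.det)⁻¹) (h7 b)
    rwa [← mul_assoc, ← map_mul, inv_mul_cancel₀ (by rw [hA]; exact hΔ), map_one, one_mul] at h11

/-- the maximal ideal is generated by the coordinates -/
lemma max_eq [IsNoetherianRing R] (h : LRP I p c R ρ dd) (hp : p ∈ Zer I)
    (hΔ : eval p c.Δ ≠ 0) : maximalIdeal R ≤ tI ρ p c := by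
  refine Submodule.le_of_le_smul_of_le_jacobson_bot (I := maximalIdeal R)
    (IsNoetherian.noetherian _) (maximalIdeal_le_jacobson _) ?_
  rw [smul_eq_mul, ← pow_two]
  intro y hy
  obtain ⟨a, b, hb, hab⟩ := h.frac y
  have hub : IsUnit (ρ b) := (h.unit b).2 hb
  have h1 : ρ a ∈ maximalIdeal R := by
    rw [← hab]
    exact Ideal.mul_mem_right _ _ hy
  have h2 : eval p a = 0 := by
    by_contra h3
    exact ((mem_maximalIdeal _).1 h1) ((h.unit a).2 h3)
  have h3 := taylor h a
  rw [h2, map_zero, zero_add] at h3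
  have h4 := Ideal.add_mem _ (Ideal.mem_sup_right h3 : _ ∈ tI ρ p c ⊔ maximalIdeal R ^ 2)
    (Ideal.sum_mem _ fun l (_ : l ∈ Finset.univ) =>
      Ideal.mul_mem_left _ (algebraMap ℂ R (eval p (pderiv l a))) (sl_tI h hp hΔ l))
  rw [sub_add_cancel, ← hab] at h4
  exact (Ideal.mul_unit_mem_iff_mem _ hub).1 h4

lemma V_J (c : Crd I n) (i j : Fin n) : c.V i (c.J j) = if i = j then c.Δ else 0 := by
  have h1 : ∀ b, c.J j ≠ c.K b := by
    intro b h2
    have h3 := c.bij.1 (a₁ := Sum.inl j) (a₂ := Sum.inr b) h2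
    cases h3
  have h2 : c.J j = c.J i ↔ i = j := by
    constructor
    · intro h3
      have h4 := c.bij.1 (a₁ := Sum.inl j) (a₂ := Sum.inl i) h3
      exact (Sum.inl.inj h4).symm
    · rintro rfl
      rfl
  rw [Crd.V, Finset.sum_eq_zero, sub_zero]
  · simp only [h2]
  · intro b _
    rw [if_neg (h1 b)]

lemma dd_sl (h : LRP I p c R ρ dd) (hΔ : eval p c.Δ ≠ 0) (i j : Fin n) :
    dd i (sl ρ p (c.J j)) = if i = j then 1 else 0 := by
  have hu : IsUnit (ρ c.Δ) := (h.unit _).2 hΔ
  have h1 := h.der i (X (c.J j) - C (p (c.J j)))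
  have h2 : vf (c.V i) (X (c.J j) - C (p (c.J j))) = c.V i (c.J j) := by
    unfold vf
    rw [Finset.sum_eq_single (c.J j)]
    · rw [map_sub, pderiv_X_self, pderiv_C, sub_zero, mul_one]
    · intro m _ hm
      rw [map_sub, pderiv_X_of_ne (Ne.symm hm), pderiv_C, sub_zero, mul_zero]
    · intro h
      exact absurd (Finset.mem_univ _) h
  rw [h2, V_J] at h1
  apply hu.mul_left_cancel
  rw [sl, h1]
  split_ifs
  · rw [mul_one]
  · rw [map_zero, mul_zero]

/-- the Euler field of the coordinates -/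
lemma euler [IsNoetherianRing R] (h : LRP I p c R ρ dd) (hp : p ∈ Zer I) (hΔ : eval p c.Δ ≠ 0)
    (k : ℕ) : ∀ a ∈ maximalIdeal R ^ k,
      ∑ i, sl ρ p (c.J i) * dd i a - (k : R) * a ∈ maximalIdeal R ^ (k + 1) := by
  have hE : ∀ x y : R, ∑ i, sl ρ p (c.J i) * dd i (x * y) =
      x * ∑ i, sl ρ p (c.J i) * dd i y + y * ∑ i, sl ρ p (c.J i) * dd i x := by
    intro x y
    rw [Finset.mul_sum, Finset.mul_sum, ← Finset.sum_add_distrib]
    refine Finset.sum_congr rfl fun i _ => ?_
    rw [Derivation.leibniz, smul_eq_mul, smul_eq_mul]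
    ring
  have hE0 : ∀ x : R, ∑ i, sl ρ p (c.J i) * dd i x ∈ maximalIdeal R := fun x =>
    Ideal.sum_mem _ fun i _ => Ideal.mul_mem_right _ _ (sl_mem h _)
  have hEs : ∀ (x y : R), ∑ i, sl ρ p (c.J i) * dd i (x + y) =
      ∑ i, sl ρ p (c.J i) * dd i x + ∑ i, sl ρ p (c.J i) * dd i y := by
    intro x y
    rw [← Finset.sum_add_distrib]
    refine Finset.sum_congr rfl fun i _ => ?_
    rw [map_add, mul_add]
  have hEt : ∀ j, ∑ i, sl ρ p (c.J i) * dd i (sl ρ p (c.J j)) = sl ρ p (c.J j) := by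
    intro j
    rw [Finset.sum_eq_single j]
    · rw [dd_sl h hΔ, if_pos rfl, mul_one]
    · intro i _ hi
      rw [dd_sl h hΔ, if_neg hi, mul_zero]
    · intro h
      exact absurd (Finset.mem_univ _) h
  -- order one
  have h1 : ∀ y ∈ maximalIdeal R, ∑ i, sl ρ p (c.J i) * dd i y - y ∈ maximalIdeal R ^ 2 := by
    intro y hy
    have hy' := max_eq h hp hΔ hy
    rw [tI] at hy'
    induction hy' using Submodule.span_induction with
    | mem x hx =>
      obtain ⟨j, rfl⟩ := hx
      rw [hEt, sub_self]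
      exact Ideal.zero_mem _
    | zero => simp
    | add x y hx hy' h2 h3 =>
      have hx' : x ∈ maximalIdeal R := by
        refine (Ideal.span_le.2 ?_ : Ideal.span (Set.range fun j => sl ρ p (c.J j)) ≤ _) hx
        rintro _ ⟨j, rfl⟩
        exact sl_mem h _
      have hy'' : y ∈ maximalIdeal R := by
        refine (Ideal.span_le.2 ?_ : Ideal.span (Set.range fun j => sl ρ p (c.J j)) ≤ _) hy'
        rintro _ ⟨j, rfl⟩
        exact sl_mem h _
      have h4 := Ideal.add_mem _ (h2 hx') (h3 hy'')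
      rw [hEs]
      have h5 : ∑ i, sl ρ p (c.J i) * dd i x + ∑ i, sl ρ p (c.J i) * dd i y - (x + y) =
          (∑ i, sl ρ p (c.J i) * dd i x - x) + (∑ i, sl ρ p (c.J i) * dd i y - y) := by ring
      rw [h5]
      exact h4
    | smul r x hx h2 =>
      have hx' : x ∈ maximalIdeal R := by
        refine (Ideal.span_le.2 ?_ : Ideal.span (Set.range fun j => sl ρ p (c.J j)) ≤ _) hx
        rintro _ ⟨j, rfl⟩
        exact sl_mem h _
      have h4 := h2 hx'
      rw [smul_eq_mul, hE]
      have h5 : r * ∑ i, sl ρ p (c.J i) * dd i x + x * ∑ i, sl ρ p (c.J i) * dd i r - r * x =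
          r * (∑ i, sl ρ p (c.J i) * dd i x - x) + x * ∑ i, sl ρ p (c.J i) * dd i r := by ring
      rw [h5]
      refine Ideal.add_mem _ (Ideal.mul_mem_left _ _ h4) ?_
      rw [pow_two]
      exact Ideal.mul_mem_mul hx' (hE0 r)
  induction k with
  | zero =>
    intro a _
    rw [Nat.cast_zero, zero_mul, sub_zero, zero_add, pow_one]
    exact hE0 a
  | succ k ih =>
    intro a ha
    rw [pow_succ] at ha
    refine Submodule.mul_induction_on ha (fun x hx y hy => ?_) (fun x y h2 h3 => ?_)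
    · rw [hE]
      have h5 : x * ∑ i, sl ρ p (c.J i) * dd i y + y * ∑ i, sl ρ p (c.J i) * dd i x -
          ((k + 1 : ℕ) : R) * (x * y) = x * (∑ i, sl ρ p (c.J i) * dd i y - y) +
          (∑ i, sl ρ p (c.J i) * dd i x - (k : R) * x) * y := by
        push_cast
        ring
      rw [h5]
      refine Ideal.add_mem _ ?_ ?_
      · rw [show k + 1 + 1 = k + 2 from rfl, pow_add]
        exact Ideal.mul_mem_mul hx (h1 y hy)
      · rw [pow_succ]
        exact Ideal.mul_mem_mul (ih x hx) hy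
    · rw [hEs]
      have h5 : ∑ i, sl ρ p (c.J i) * dd i x + ∑ i, sl ρ p (c.J i) * dd i y -
          ((k + 1 : ℕ) : R) * (x + y) = (∑ i, sl ρ p (c.J i) * dd i x - ((k + 1 : ℕ) : R) * x) +
          (∑ i, sl ρ p (c.J i) * dd i y - ((k + 1 : ℕ) : R) * y) := by ring
      rw [h5]
      exact Ideal.add_mem _ h2 h3

end DSIM

open DSIM IsLocalRing in
theorem specDSI : SpecDSI := by
  intro N n I hI p hp c hΔ R _ _ _ _ _ ρ dd h J hJ0 hJ
  by_contra hJ1
  apply hJ0
  have h1 : J ≤ maximalIdeal R := le_maximalIdeal hJ1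
  have h2 : ∀ k : ℕ, J ≤ maximalIdeal R ^ (k + 1) := by
    intro k
    induction k with
    | zero => simpa using h1
    | succ k ih =>
      intro a ha
      have h3 := euler h hp hΔ (k + 1) a (ih ha)
      have h4 : ∑ i, sl ρ p (c.J i) * dd i a ∈ maximalIdeal R ^ (k + 1 + 1) := by
        rw [pow_succ']
        exact Ideal.sum_mem _ fun i _ => Ideal.mul_mem_mul (sl_mem h _) (ih (hJ i a ha))
      have h5 := Ideal.sub_mem _ h4 h3
      rw [sub_sub_cancel] at h5
      have h6 : ((k + 1 : ℕ) : R) = algebraMap ℂ R ((k + 1 : ℕ) : ℂ) := by simp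
      have h7 := Ideal.mul_mem_left _ (algebraMap ℂ R (((k + 1 : ℕ) : ℂ)⁻¹)) h5
      rwa [h6, ← mul_assoc, ← map_mul, inv_mul_cancel₀ (by exact_mod_cast Nat.succ_ne_zero k),
        map_one, one_mul] at h7
  rw [eq_bot_iff]
  intro a ha
  have h3 := Ideal.iInf_pow_eq_bot_of_isLocalRing (maximalIdeal R)
    (maximalIdeal.isMaximal R).ne_top
  rw [← h3, Submodule.mem_iInf]
  intro k
  rcases k with _ | k
  · simp
  · exact h2 k ha

end Pool.Agent.Lib.MPc9b009.LF
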