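import Pool.Agent.Lib.MP_c9b009_ag.LF.SpecK

/-!
# MP_c9b009_ag, row LF, module DSU: from a volume form and a vector field to a density
-/

set_option autoImplicit false

namespace Pool.Agent.Lib.MPc9b009.LF

open MvPolynomial Pool.Agent.Lib.MPc9b009.B5 Pool.Agent.Lib.MPc9b009.OD
  Pool.Agent.Lib.MPc9b009.PS Pool.Agent.Lib.MPc9b009.LS

namespace DSUM

variable {N k e a : ℕ} {M : Set (Cn N)} {T : Cn N → Submodule ℂ (Cn N)}

/-- Euler's formula for a homogeneous map -/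
theorem euler (A : Cn N → Cn N) (hA : ContDiff ℂ 2 A)
    (hh : ∀ (t : ℂ) (x : Cn N), A (t • x) = t ^ a • A x) (x : Cn N) :
    fderiv ℂ A x x = (a : ℂ) • A x := by
  have hd : DifferentiableAt ℂ A x := (hA.differentiable (by norm_num)) x
  have h1 : HasDerivAt (fun t : ℂ => t • x) ((1 : ℂ) • x) 1 := (hasDerivAt_id (1 : ℂ)).smul_const x
  rw [one_smul] at h1
  have h0 : HasFDerivAt A (fderiv ℂ A x) ((fun t : ℂ => t • x) 1) := by
    show HasFDerivAt A (fderiv ℂ A x) ((1 : ℂ) • x)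
    rw [one_smul]
    exact hd.hasFDerivAt
  have h2 : HasDerivAt (fun t : ℂ => A (t • x)) (fderiv ℂ A x x) 1 := h0.comp_hasDerivAt 1 h1
  have h3 : HasDerivAt (fun t : ℂ => t ^ a • A x) (((a : ℂ) * 1 ^ (a - 1)) • A x) 1 :=
    (hasDerivAt_pow a (1 : ℂ)).smul_const (A x)
  have h4 : (fun t : ℂ => A (t • x)) = fun t : ℂ => t ^ a • A x := by
    funext t
    exact hh t x
  rw [h4] at h2
  have h5 := h2.unique h3
  rw [one_pow, mul_one] at h5
  exact h5

/-- the vector field in the chart -/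
noncomputable def W (V : VolU N k e M T) (A : Cn N → Cn N) (i : V.ι) (y : Cn k) : Cn k :=
  fun b => V.m i y * A ((V.c i).G y) ((V.c i).I b)

theorem compDiff (V : VolU N k e M T) (A : Cn N → Cn N) (hA : ContDiff ℂ 2 A) (i : V.ι)
    (b : Fin k) : ContDiffOn ℂ 1 (fun y => W V A i y b) (V.c i).B := by
  have h1 : ContDiffOn ℂ 1 (V.m i) (V.c i).B := (V.sm i).of_le (by norm_num)
  have h2 : ContDiffOn ℂ 1 (fun y => A ((V.c i).G y)) (V.c i).B :=
    (hA.of_le (by norm_num : (1 : WithTop ℕ∞) ≤ 2)).comp_contDiffOn ((V.c i).sm.of_le (by norm_num))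
  have h3 : ContDiffOn ℂ 1 (fun y => A ((V.c i).G y) ((V.c i).I b)) (V.c i).B :=
    (contDiffOn_pi.1 h2) ((V.c i).I b)
  exact h1.mul h3

theorem smooth (V : VolU N k e M T) (A : Cn N → Cn N) (hA : ContDiff ℂ 2 A) (i : V.ι) :
    ContDiffOn ℂ 1 (W V A i) (V.c i).B :=
  contDiffOn_pi.2 fun b => compDiff V A hA i b

theorem fderiv_comp (V : VolU N k e M T) (A : Cn N → Cn N) (hA : ContDiff ℂ 2 A) (i : V.ι)
    {y : Cn k} (hy : y ∈ (V.c i).B) (v : Cn k) (b : Fin k) :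
    fderiv ℂ (W V A i) y v b = fderiv ℂ (fun z => W V A i z b) y v := by
  have hd : DifferentiableAt ℂ (W V A i) y :=
    ((smooth V A hA i).contDiffAt ((V.c i).oB.mem_nhds hy)).differentiableAt (by norm_num)
  have h1 : HasFDerivAt (fun z => W V A i z b)
      ((ContinuousLinearMap.proj (R := ℂ) (φ := fun _ : Fin k => ℂ) b).comp
        (fderiv ℂ (W V A i) y)) y :=
    (ContinuousLinearMap.proj (R := ℂ) (φ := fun _ : Fin k => ℂ) b).hasFDerivAt.comp y
      hd.hasFDerivAt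
  rw [h1.fderiv]
  rfl

theorem push (V : VolU N k e M T) (A : Cn N → Cn N) (hT : ∀ x ∈ M, A x ∈ T x) (i : V.ι)
    {y : Cn k} (hy : y ∈ (V.c i).B) :
    fderiv ℂ (V.c i).G y (W V A i y) = V.m i y • A ((V.c i).G y) := by
  have h1 : A ((V.c i).G y) ∈ T ((V.c i).G y) := hT _ ((V.c i).mem y hy).1
  rw [← (V.c i).tan y hy] at h1
  obtain ⟨v, hv⟩ := h1
  have hv' : fderiv ℂ (V.c i).G y v = A ((V.c i).G y) := hv
  have h2 : W V A i y = V.m i y • v := by
    funext b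
    have h3 := BASM.coord (V.c i) hy v b
    rw [hv'] at h3
    show V.m i y * A ((V.c i).G y) ((V.c i).I b) = V.m i y * v b
    rw [h3]
  rw [h2, map_smul, hv']

theorem homog (hM : Cone N k M T) (hae : a + k = e + 1) (V : VolU N k e M T) (A : Cn N → Cn N)
    (hA : ContDiff ℂ 2 A) (hh : ∀ (t : ℂ) (x : Cn N), A (t • x) = t ^ a • A x) (i : V.ι)
    {y : Cn k} (hy : y ∈ (V.c i).B) :
    fderiv ℂ (W V A i) y y = -((k : ℂ) - 1) • W V A i y := by
  funext b
  rw [fderiv_comp V A hA i hy y b]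
  have hm : HasFDerivAt (V.m i) (fderiv ℂ (V.m i) y) y :=
    (((V.sm i).contDiffAt ((V.c i).oB.mem_nhds hy)).differentiableAt (by norm_num)).hasFDerivAt
  have hG : HasFDerivAt (V.c i).G (fderiv ℂ (V.c i).G y) y :=
    (BASM.diffAt (V.c i) hy).hasFDerivAt
  have hAd : HasFDerivAt A (fderiv ℂ A ((V.c i).G y)) ((V.c i).G y) :=
    ((hA.differentiable (by norm_num)) _).hasFDerivAt
  have hAG : HasFDerivAt (fun z => A ((V.c i).G z) ((V.c i).I b))
      ((ContinuousLinearMap.proj (R := ℂ) (φ := fun _ : Fin N => ℂ) ((V.c i).I b)).comp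
        ((fderiv ℂ A ((V.c i).G y)).comp (fderiv ℂ (V.c i).G y))) y :=
    (ContinuousLinearMap.proj (R := ℂ) (φ := fun _ : Fin N => ℂ) ((V.c i).I b)).hasFDerivAt.comp y
      (hAd.comp y hG)
  have hW : HasFDerivAt (fun z => W V A i z b)
      (V.m i y • ((ContinuousLinearMap.proj (R := ℂ) (φ := fun _ : Fin N => ℂ) ((V.c i).I b)).comp
        ((fderiv ℂ A ((V.c i).G y)).comp (fderiv ℂ (V.c i).G y))) +
        A ((V.c i).G y) ((V.c i).I b) • fderiv ℂ (V.m i) y) y := hm.mul hAG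
  rw [hW.fderiv]
  have h1 : (V.m i y • ((ContinuousLinearMap.proj (R := ℂ) (φ := fun _ : Fin N => ℂ)
        ((V.c i).I b)).comp ((fderiv ℂ A ((V.c i).G y)).comp (fderiv ℂ (V.c i).G y))) +
        A ((V.c i).G y) ((V.c i).I b) • fderiv ℂ (V.m i) y) y =
      V.m i y * (fderiv ℂ A ((V.c i).G y) (fderiv ℂ (V.c i).G y y)) ((V.c i).I b) +
        A ((V.c i).G y) ((V.c i).I b) * fderiv ℂ (V.m i) y y := rfl
  rw [h1, BASM.euler hM (V.c i) hy, euler A hA hh, V.hom i y hy]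
  have h2 : ((a : ℂ) • A ((V.c i).G y)) ((V.c i).I b) =
      (a : ℂ) * A ((V.c i).G y) ((V.c i).I b) := rfl
  have h3 : (-((k : ℂ) - 1) • W V A i y) b =
      -((k : ℂ) - 1) * (V.m i y * A ((V.c i).G y) ((V.c i).I b)) := rfl
  rw [h2, h3]
  have h4 : (a : ℂ) + k = e + 1 := by exact_mod_cast hae
  have h5 : (a : ℂ) = e + 1 - k := by rw [← h4]; ring
  rw [h5]
  ring

end DSUM

theorem specDSU : SpecDSU := by
  intro N k e a M T hM hae V A hA hh hT hdiv
  refine ⟨{ ι := V.ι, c := V.c, w := DSUM.W V A, cov := V.cov, sm := DSUM.smooth V A hA,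
            div := ?_, hom := fun i y hy => DSUM.homog hM hae V A hA hh i hy, tr := ?_ }, ?_⟩
  · intro i y hy
    refine (Finset.sum_congr rfl fun b _ => ?_).trans (hdiv i y hy)
    rw [DSUM.fderiv_comp V A hA i hy]
    rfl
  · intro i j y hy y' hy' hyy
    obtain ⟨u, hu, hm⟩ := V.tr i j y hy y' hy' hyy
    refine ⟨u, hu, ?_⟩
    rw [DSUM.push V A hT i hy, DSUM.push V A hT j hy', hyy, hm, mul_smul]
  · intro x hx
    obtain ⟨i, hi⟩ := V.cov x hx
    obtain ⟨hyB, hGy⟩ := (V.c i).inv x hx hi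
    refine ⟨i, fun m => x ((V.c i).I m), hyB, hGy, V.m i (fun m => x ((V.c i).I m)),
      V.ne i _ hyB, ?_⟩
    show fderiv ℂ (V.c i).G (fun m => x ((V.c i).I m)) (DSUM.W V A i fun m => x ((V.c i).I m)) = _
    rw [DSUM.push V A hT i hyB, hGy]

end Pool.Agent.Lib.MPc9b009.LF
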