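import Pool.Agent.Lib.MP_c9b009_ag.LF.SpecA
import Pool.Agent.Lib.MP_c9b009_ag.LS.DUA

/-!
# MP_c9b009_ag, row LF: DUB, a vector field which preserves `P`, the block ideals and `π` moves the points
-/

set_option autoImplicit false

namespace Pool.Agent.Lib.MPc9b009.LF

open MvPolynomial Pool.Agent.Lib.MPc9b009.B5 Pool.Agent.Lib.MPc9b009.OD
  Pool.Agent.Lib.MPc9b009.PS Pool.Agent.Lib.MPc9b009.LS

namespace DUBM

open Pool.Agent.Lib.MPc9b009.LS.DUAM

theorem mainPt {N k : ℕ} {κ τ : Type} [Fintype κ] [DecidableEq τ]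
    (P : Ideal (PR N)) (f : κ → PR N) (blk : κ → τ) (p₀ : Cn N) (v : Fin N → PR N)
    (hP : ∀ q ∈ P, vf v q ∈ P) (c : κ → κ → PR N) (hc0 : ∀ i j, blk j ≠ blk i → c i j = 0)
    (hc : ∀ i, vf v (f i) = ∑ j, c i j * f j)
    {B B' : Type} [CommRing B] [CommRing B'] [Algebra ℂ B] [Algebra ℂ B']
    (ι : B →ₐ[ℂ] B') (ε : B') (hε : ε * ε = 0) (π : B' →+* B) (hπ : ∀ x, π (ι x) = x)
    (hπε : π ε = 0) (hu : ∀ x : B', IsUnit (π x) → IsUnit x) (b : Pt N k P f blk p₀ B) :
    ∃ b' : Pt N k P f blk p₀ B', (∀ i, constantCoeff (b'.γ i) = ι (constantCoeff (b.γ i)) +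
      ε * ι (aeval (fun l => constantCoeff (b.γ l)) (v i))) ∧
      ∀ l, b'.γ l = mapAlgHom ι (b.γ l) + C ε * mapAlgHom ι (aeval b.γ (v l)) := by
  set I : MvPolynomial (Fin N) B →ₐ[ℂ] MvPolynomial (Fin N) B' := mapAlgHom ι with hI
  set e : MvPolynomial (Fin N) B' := C ε with he
  have hee : e * e = 0 := by rw [he, ← C_mul, hε, C_0]
  -- the new point
  set γ' : Fin N → MvPolynomial (Fin N) B' := fun l => I (b.γ l) + e * I (aeval b.γ (v l)) with hγ'
  have hT : ∀ q : PR N, aeval γ' q = I (aeval b.γ q) + e * I (aeval b.γ (vf v q)) :=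
    fun q => taylor I e hee b.γ v q
  have hγ0 : ∀ l, constantCoeff (γ' l) = ι (constantCoeff (b.γ l)) +
      ε * ι (aeval (fun l => constantCoeff (b.γ l)) (v l)) := by
    intro l
    rw [hγ', he]
    simp only [map_add, map_mul, constantCoeff_C]
    rw [hI, cc_map, cc_map, cc]
  -- coefficients
  set M : κ → κ → MvPolynomial (Fin N) B := fun i j => if blk j = blk i then b.m i j else 0 with hM
  set M' : κ → κ → MvPolynomial (Fin N) B := fun i j => if blk j = blk i then b.m' i j else 0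
    with hM'
  set G : κ → κ → MvPolynomial (Fin N) B := fun i j => aeval b.γ (c i j) with hG
  have hM0 : ∀ i j, blk j ≠ blk i → M i j = 0 := fun i j h => if_neg h
  have hM0' : ∀ i j, blk j ≠ blk i → M' i j = 0 := fun i j h => if_neg h
  have hG0 : ∀ i j, blk j ≠ blk i → G i j = 0 := fun i j h => by rw [hG]; simp only; rw [hc0 i j h, map_zero]
  have e1 : ∀ i, aeval b.γ (f i) - ∑ j, M i j * tr B p₀ (f j) ∈ YI N k B := by
    intro i
    have h := b.e1 i
    have h2 : ∑ j, (if blk j = blk i then b.m i j * tr B p₀ (f j) else 0) =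
        ∑ j, M i j * tr B p₀ (f j) := by
      refine Finset.sum_congr rfl fun j _ => ?_
      rw [hM]
      simp only
      split_ifs
      · rfl
      · rw [zero_mul]
    rwa [h2] at h
  have e2 : ∀ i, tr B p₀ (f i) - ∑ j, M' i j * aeval b.γ (f j) ∈ YI N k B := by
    intro i
    have h := b.e2 i
    have h2 : ∑ j, (if blk j = blk i then b.m' i j * aeval b.γ (f j) else 0) =
        ∑ j, M' i j * aeval b.γ (f j) := by
      refine Finset.sum_congr rfl fun j _ => ?_
      rw [hM']
      simp only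
      split_ifs
      · rfl
      · rw [zero_mul]
    rwa [h2] at h
  have hF : ∀ i, aeval γ' (f i) = I (aeval b.γ (f i)) + e * ∑ l, I (G i l) * I (aeval b.γ (f l)) := by
    intro i
    rw [hT, hc i, map_sum, map_sum]
    congr 2
    refine Finset.sum_congr rfl fun l _ => ?_
    rw [map_mul, map_mul]
  -- the new matrices
  set R : κ → κ → MvPolynomial (Fin N) B' := fun i j => I (M i j) + e * ∑ l, I (G i l) * I (M l j)
    with hR
  set R' : κ → κ → MvPolynomial (Fin N) B' := fun i j => I (M' i j) - e * ∑ l, I (M' i l) * I (G l j)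
    with hR'
  have hR0 : ∀ i j, blk j ≠ blk i → R i j = 0 := by
    intro i j hij
    rw [hR]
    simp only
    rw [hM0 i j hij, map_zero, zero_add, Finset.sum_eq_zero, mul_zero]
    intro l _
    by_cases h : blk l = blk i
    · rw [hM0 l j (by rw [h]; exact hij), map_zero, mul_zero]
    · rw [hG0 i l h, map_zero, zero_mul]
  have hR0' : ∀ i j, blk j ≠ blk i → R' i j = 0 := by
    intro i j hij
    rw [hR']
    simp only
    rw [hM0' i j hij, map_zero, zero_sub, Finset.sum_eq_zero, mul_zero, neg_zero]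
    intro l _
    by_cases h : blk l = blk i
    · rw [hG0 l j (by rw [h]; exact hij), map_zero, mul_zero]
    · rw [hM0' i l h, map_zero, zero_mul]
  refine ⟨⟨γ', R, R', ?_, ?_, ?_, ?_⟩, hγ0, fun l => rfl⟩
  · intro i
    have h2 : ∑ j, (if blk j = blk i then R i j * tr B' p₀ (f j) else 0) =
        ∑ j, R i j * tr B' p₀ (f j) := by
      refine Finset.sum_congr rfl fun j _ => ?_
      split_ifs with h
      · rfl
      · rw [hR0 i j h, zero_mul]
    rw [h2]
    have h3 : ∑ j, R i j * tr B' p₀ (f j) = I (∑ j, M i j * tr B p₀ (f j)) +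
        e * ∑ l, I (G i l) * I (∑ j, M l j * tr B p₀ (f j)) := by
      have h4 : ∀ j, R i j * tr B' p₀ (f j) = I (M i j * tr B p₀ (f j)) +
          e * ∑ l, I (G i l) * I (M l j * tr B p₀ (f j)) := by
        intro j
        rw [← map_tr ι p₀ (f j), hR]
        simp only
        rw [add_mul, mul_assoc, Finset.sum_mul, map_mul]
        congr 2
        refine Finset.sum_congr rfl fun l _ => ?_
        rw [map_mul, mul_assoc]
      rw [Finset.sum_congr rfl fun j _ => h4 j, Finset.sum_add_distrib, map_sum, ← Finset.mul_sum,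
        Finset.sum_comm]
      congr 2
      refine Finset.sum_congr rfl fun l _ => ?_
      rw [map_sum, Finset.mul_sum]
    have h5 : aeval γ' (f i) - ∑ j, R i j * tr B' p₀ (f j) =
        I (aeval b.γ (f i) - ∑ j, M i j * tr B p₀ (f j)) +
          e * ∑ l, I (G i l) * I (aeval b.γ (f l) - ∑ j, M l j * tr B p₀ (f j)) := by
      rw [hF, h3, map_sub]
      have h6 : ∀ l, I (G i l) * I (aeval b.γ (f l) - ∑ j, M l j * tr B p₀ (f j)) =
          I (G i l) * I (aeval b.γ (f l)) - I (G i l) * I (∑ j, M l j * tr B p₀ (f j)) := by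
        intro l
        rw [map_sub, mul_sub]
      rw [Finset.sum_congr rfl fun l _ => h6 l, Finset.sum_sub_distrib]
      ring
    rw [h5]
    refine Ideal.add_mem _ (map_YI ι _ (e1 i)) (Ideal.mul_mem_left _ _ (Ideal.sum_mem _ fun l _ =>
      Ideal.mul_mem_left _ _ (map_YI ι _ (e1 l))))
  · intro i
    have h2 : ∑ j, (if blk j = blk i then R' i j * aeval γ' (f j) else 0) =
        ∑ j, R' i j * aeval γ' (f j) := by
      refine Finset.sum_congr rfl fun j _ => ?_
      split_ifs with h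
      · rfl
      · rw [hR0' i j h, zero_mul]
    rw [h2]
    have h3 : ∑ j, R' i j * aeval γ' (f j) = I (∑ j, M' i j * aeval b.γ (f j)) := by
      have h4 : ∀ j, R' i j * aeval γ' (f j) = I (M' i j * aeval b.γ (f j)) +
          e * (I (M' i j) * ∑ l, I (G j l) * I (aeval b.γ (f l))) -
          e * ((∑ l, I (M' i l) * I (G l j)) * I (aeval b.γ (f j))) := by
        intro j
        rw [hF, hR', map_mul]
        simp only
        linear_combination (-(∑ l, I (M' i l) * I (G l j)) *
          ∑ l, I (G j l) * I (aeval b.γ (f l))) * hee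
      rw [Finset.sum_congr rfl fun j _ => h4 j, Finset.sum_sub_distrib, Finset.sum_add_distrib,
        ← Finset.mul_sum, ← Finset.mul_sum, map_sum]
      have h5 : ∑ j, I (M' i j) * ∑ l, I (G j l) * I (aeval b.γ (f l)) =
          ∑ j, (∑ l, I (M' i l) * I (G l j)) * I (aeval b.γ (f j)) := by
        rw [Finset.sum_congr rfl fun j _ => Finset.mul_sum _ _ _, Finset.sum_comm]
        refine Finset.sum_congr rfl fun l _ => ?_
        rw [Finset.sum_mul]
        refine Finset.sum_congr rfl fun j _ => ?_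
        rw [mul_assoc]
      rw [h5, add_sub_cancel_right]
    rw [h3, ← map_tr ι p₀ (f i), ← map_sub]
    exact map_YI ι _ (e2 i)
  · intro q hq
    have h1 : (fun i => constantCoeff (γ' i)) = fun l => ι (constantCoeff (b.γ l)) +
        ε * ι (aeval (fun l => constantCoeff (b.γ l)) (v l)) := funext hγ0
    rw [h1, taylor ι ε hε (fun l => constantCoeff (b.γ l)) v q, b.base q hq,
      b.base _ (hP q hq), map_zero, mul_zero, add_zero]
  · apply hu
    rw [RingHom.map_det]
    have h1 : π.mapMatrix (Matrix.of fun i j => coeff (Finsupp.single j 1) (γ' i)) =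
        Matrix.of fun i j => coeff (Finsupp.single j 1) (b.γ i) := by
      ext i j
      rw [RingHom.mapMatrix_apply, Matrix.map_apply, Matrix.of_apply, Matrix.of_apply, hγ', he]
      simp only
      rw [coeff_add, coeff_C_mul, hI, co_map, co_map, map_add, map_mul, hπε, zero_mul, add_zero, hπ]
    rw [h1]
    exact b.inv


/-- the chain rule -/
theorem chain {N : ℕ} {B : Type} [CommRing B] [Algebra ℂ B] (g : Fin N → MvPolynomial (Fin N) B)
    (a : Fin N) (q : PR N) :
    pderiv a (aeval g q) = ∑ l, aeval g (pderiv l q) * pderiv a (g l) := by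
  induction q using MvPolynomial.induction_on with
  | C c =>
    rw [algHom_C, MvPolynomial.algebraMap_apply, pderiv_C]
    symm
    refine Finset.sum_eq_zero fun l _ => ?_
    rw [pderiv_C, map_zero, zero_mul]
  | add p q hp hq =>
    rw [map_add, map_add, hp, hq, ← Finset.sum_add_distrib]
    refine Finset.sum_congr rfl fun l _ => ?_
    rw [map_add, map_add, add_mul]
  | mul_X p i hp =>
    rw [map_mul, aeval_X, Derivation.leibniz, smul_eq_mul, smul_eq_mul, hp]
    have h : ∀ l, aeval g (pderiv l (p * X i)) * pderiv a (g l) =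
        g i * (aeval g (pderiv l p) * pderiv a (g l)) +
          (if l = i then aeval g p * pderiv a (g l) else 0) := by
      intro l
      rw [Derivation.leibniz, smul_eq_mul, smul_eq_mul, map_add, map_mul, map_mul, aeval_X,
        pderiv_X]
      by_cases hl : l = i
      · subst hl
        rw [if_pos rfl, Pi.single_eq_same, map_one]
        ring
      · rw [if_neg hl, Pi.single_eq_of_ne' (Ne.symm hl |>.symm), map_zero]
        ring
    rw [Finset.sum_congr rfl fun l _ => h l, Finset.sum_add_distrib, ← Finset.mul_sum,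
      Finset.sum_ite_eq' Finset.univ i, if_pos (Finset.mem_univ i)]
    ring

theorem pderiv_mapA {N : ℕ} {B B' : Type} [CommRing B] [CommRing B'] [Algebra ℂ B] [Algebra ℂ B']
    (ι : B →ₐ[ℂ] B') (a : Fin N) (x : MvPolynomial (Fin N) B) :
    pderiv a (mapAlgHom ι x) = mapAlgHom ι (pderiv a x) :=
  MvPolynomial.pderiv_map

/-- the bracket of the germ -/
noncomputable def br {N : ℕ} {B : Type} [CommRing B] [Algebra ℂ B] (π : Fin N → Fin N → PR N)
    (p₀ : Cn N) (p q : MvPolynomial (Fin N) B) : MvPolynomial (Fin N) B :=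
  ∑ a, ∑ b, tr B p₀ (π a b) * pderiv a p * pderiv b q

theorem br_chain_left {N : ℕ} {B : Type} [CommRing B] [Algebra ℂ B] (π : Fin N → Fin N → PR N)
    (p₀ : Cn N) (g : Fin N → MvPolynomial (Fin N) B) (q : PR N) (x : MvPolynomial (Fin N) B) :
    br π p₀ (aeval g q) x = ∑ l, aeval g (pderiv l q) * br π p₀ (g l) x := by
  unfold br
  have h : ∀ a b : Fin N, tr B p₀ (π a b) * pderiv a (aeval g q) * pderiv b x =
      ∑ l, aeval g (pderiv l q) * (tr B p₀ (π a b) * pderiv a (g l) * pderiv b x) := by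
    intro a b
    rw [chain, Finset.mul_sum, Finset.sum_mul]
    refine Finset.sum_congr rfl fun l _ => ?_
    ring
  calc _ = ∑ a, ∑ b, ∑ l, aeval g (pderiv l q) *
        (tr B p₀ (π a b) * pderiv a (g l) * pderiv b x) :=
        Finset.sum_congr rfl fun a _ => Finset.sum_congr rfl fun b _ => h a b
    _ = ∑ a, ∑ l, ∑ b, aeval g (pderiv l q) *
        (tr B p₀ (π a b) * pderiv a (g l) * pderiv b x) :=
        Finset.sum_congr rfl fun a _ => Finset.sum_comm
    _ = ∑ l, ∑ a, ∑ b, aeval g (pderiv l q) *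
        (tr B p₀ (π a b) * pderiv a (g l) * pderiv b x) := Finset.sum_comm
    _ = _ := by
      refine Finset.sum_congr rfl fun l _ => ?_
      simp only [Finset.mul_sum]

theorem br_chain_right {N : ℕ} {B : Type} [CommRing B] [Algebra ℂ B] (π : Fin N → Fin N → PR N)
    (p₀ : Cn N) (g : Fin N → MvPolynomial (Fin N) B) (q : PR N) (x : MvPolynomial (Fin N) B) :
    br π p₀ x (aeval g q) = ∑ l, aeval g (pderiv l q) * br π p₀ x (g l) := by
  unfold br
  have h : ∀ a b : Fin N, tr B p₀ (π a b) * pderiv a x * pderiv b (aeval g q) =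
      ∑ l, aeval g (pderiv l q) * (tr B p₀ (π a b) * pderiv a x * pderiv b (g l)) := by
    intro a b
    rw [chain, Finset.mul_sum]
    refine Finset.sum_congr rfl fun l _ => ?_
    ring
  calc _ = ∑ a, ∑ b, ∑ l, aeval g (pderiv l q) *
        (tr B p₀ (π a b) * pderiv a x * pderiv b (g l)) :=
        Finset.sum_congr rfl fun a _ => Finset.sum_congr rfl fun b _ => h a b
    _ = ∑ a, ∑ l, ∑ b, aeval g (pderiv l q) *
        (tr B p₀ (π a b) * pderiv a x * pderiv b (g l)) :=
        Finset.sum_congr rfl fun a _ => Finset.sum_comm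
    _ = ∑ l, ∑ a, ∑ b, aeval g (pderiv l q) *
        (tr B p₀ (π a b) * pderiv a x * pderiv b (g l)) := Finset.sum_comm
    _ = _ := by
      refine Finset.sum_congr rfl fun l _ => ?_
      simp only [Finset.mul_sum]

theorem dsum {α κ R : Type} [Fintype α] [Fintype κ] [CommRing R] (A : α → R) (M : α → κ → R)
    (t : κ → R) : ∑ n, (∑ l, A l * M l n) * t n = ∑ l, A l * ∑ n, M l n * t n := by
  simp only [Finset.mul_sum, Finset.sum_mul]
  rw [Finset.sum_comm]
  refine Finset.sum_congr rfl fun l _ => Finset.sum_congr rfl fun n _ => ?_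
  ring

theorem br_map {N : ℕ} {B B' : Type} [CommRing B] [CommRing B'] [Algebra ℂ B] [Algebra ℂ B']
    (ι : B →ₐ[ℂ] B') (ε : B') (hε : ε * ε = 0) (π : Fin N → Fin N → PR N)
    (p₀ : Cn N) (p p' q q' : MvPolynomial (Fin N) B) :
    br π p₀ (mapAlgHom ι p + C ε * mapAlgHom ι p') (mapAlgHom ι q + C ε * mapAlgHom ι q') =
      mapAlgHom ι (br π p₀ p q) + C ε * mapAlgHom ι (br π p₀ p' q + br π p₀ p q') := by
  have hee : (C ε : MvPolynomial (Fin N) B') * C ε = 0 := by rw [← C_mul, hε, C_0]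
  unfold br
  simp only [map_sum, map_add, map_mul, Finset.mul_sum, mul_add, ← Finset.sum_add_distrib,
    map_tr, Derivation.leibniz, pderiv_C, smul_eq_mul, mul_zero, add_zero, pderiv_mapA]
  refine Finset.sum_congr rfl fun a _ => Finset.sum_congr rfl fun b _ => ?_
  linear_combination (tr B' p₀ (π a b) * mapAlgHom ι (pderiv a p') * mapAlgHom ι (pderiv b q')) * hee

/-- the additional equation -/
theorem e3 {N k : ℕ} {κ τ : Type} [Fintype κ] [DecidableEq τ]
    (P : Ideal (PR N)) (f : κ → PR N) (blk : κ → τ) (ι : τ) (π : Fin N → Fin N → PR N)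
    (p₀ : Cn N) (v : Fin N → PR N)
    {B B' : Type} [CommRing B] [CommRing B'] [Algebra ℂ B] [Algebra ℂ B']
    (i₀ : B →ₐ[ℂ] B') (ε : B') (hε : ε * ε = 0) (b : PtB N k P f blk ι π p₀ B)
    (d : Fin N → Fin N → κ → PR N) (hd0 : ∀ i j l, blk l ≠ ι → d i j l = 0)
    (hd : ∀ i j, dfc π v i j = ∑ l, d i j l * f l)
    (γ' : Fin N → MvPolynomial (Fin N) B')
    (hγ' : ∀ l, γ' l = mapAlgHom i₀ (b.γ l) + C ε * mapAlgHom i₀ (aeval b.γ (v l))) :
    ∃ m3 : Fin N → Fin N → κ → MvPolynomial (Fin N) B', ∀ i j,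
      (∑ a, ∑ c, tr B' p₀ (π a c) * pderiv a (γ' i) * pderiv c (γ' j)) - aeval γ' (π i j) -
        ∑ l, (if blk l = ι then m3 i j l * tr B' p₀ (f l) else 0) ∈ YI N k B' := by
  set I : MvPolynomial (Fin N) B →ₐ[ℂ] MvPolynomial (Fin N) B' := mapAlgHom i₀ with hI
  set e : MvPolynomial (Fin N) B' := C ε with he
  have hee : e * e = 0 := by rw [he, ← C_mul, hε, C_0]
  have hγe : γ' = fun l => I (b.γ l) + e * I (aeval b.γ (v l)) := funext hγ'
  have hT : ∀ q : PR N, aeval γ' q = I (aeval b.γ q) + e * I (aeval b.γ (vf v q)) := by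
    intro q
    rw [hγe]
    exact taylor I e hee b.γ v q
  set M : κ → κ → MvPolynomial (Fin N) B := fun i j => if blk j = blk i then b.m i j else 0 with hM
  set M3 : Fin N → Fin N → κ → MvPolynomial (Fin N) B :=
    fun i j l => if blk l = ι then b.m3 i j l else 0 with hM3
  have hM0 : ∀ i j, blk j ≠ blk i → M i j = 0 := fun i j h => if_neg h
  have hM30 : ∀ i j l, blk l ≠ ι → M3 i j l = 0 := fun i j l h => if_neg h
  have e1 : ∀ i, aeval b.γ (f i) - ∑ j, M i j * tr B p₀ (f j) ∈ YI N k B := by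
    intro i
    have h := b.e1 i
    have h2 : ∑ j, (if blk j = blk i then b.m i j * tr B p₀ (f j) else 0) =
        ∑ j, M i j * tr B p₀ (f j) := by
      refine Finset.sum_congr rfl fun j _ => ?_
      rw [hM]
      simp only
      split_ifs
      · rfl
      · rw [zero_mul]
    rwa [h2] at h
  have e3 : ∀ i j, br π p₀ (b.γ i) (b.γ j) - aeval b.γ (π i j) -
      ∑ l, M3 i j l * tr B p₀ (f l) ∈ YI N k B := by
    intro i j
    have h := b.e3 i j
    have h2 : ∑ l, (if blk l = ι then b.m3 i j l * tr B p₀ (f l) else 0) =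
        ∑ l, M3 i j l * tr B p₀ (f l) := by
      refine Finset.sum_congr rfl fun l _ => ?_
      rw [hM3]
      simp only
      split_ifs
      · rfl
      · rw [zero_mul]
    rwa [h2] at h
  set K : Fin N → Fin N → κ → MvPolynomial (Fin N) B := fun i j n =>
    (∑ l, (aeval b.γ (pderiv l (v i)) * M3 l j n + aeval b.γ (pderiv l (v j)) * M3 i l n)) -
      ∑ l, aeval b.γ (d i j l) * M l n with hK
  have hK0 : ∀ i j n, blk n ≠ ι → K i j n = 0 := by
    intro i j n hn
    rw [hK]
    simp only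
    rw [Finset.sum_eq_zero, Finset.sum_eq_zero, sub_zero]
    · intro l _
      by_cases h : blk l = ι
      · rw [hM0 l n (by rw [h]; exact hn), mul_zero]
      · rw [hd0 i j l h, map_zero, zero_mul]
    · intro l _
      rw [hM30 l j n hn, hM30 i l n hn, mul_zero, mul_zero, add_zero]
  have hS2 : ∀ i j, br π p₀ (aeval b.γ (v i)) (b.γ j) + br π p₀ (b.γ i) (aeval b.γ (v j)) -
      aeval b.γ (vf v (π i j)) - ∑ n, K i j n * tr B p₀ (f n) ∈ YI N k B := by
    intro i j
    have hv : vf v (π i j) = (∑ l, d i j l * f l) +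
        ∑ l, (pderiv l (v i) * π l j + pderiv l (v j) * π i l) := by
      rw [← hd i j]
      unfold dfc
      ring
    have h1 : br π p₀ (aeval b.γ (v i)) (b.γ j) + br π p₀ (b.γ i) (aeval b.γ (v j)) -
        aeval b.γ (vf v (π i j)) - ∑ n, K i j n * tr B p₀ (f n) =
        (∑ l, (aeval b.γ (pderiv l (v i)) * (br π p₀ (b.γ l) (b.γ j) - aeval b.γ (π l j) -
          ∑ n, M3 l j n * tr B p₀ (f n)) +
          aeval b.γ (pderiv l (v j)) * (br π p₀ (b.γ i) (b.γ l) - aeval b.γ (π i l) -
          ∑ n, M3 i l n * tr B p₀ (f n)))) -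
        ∑ l, aeval b.γ (d i j l) * (aeval b.γ (f l) - ∑ n, M l n * tr B p₀ (f n)) := by
      rw [br_chain_left, br_chain_right, hv, map_add, map_sum, map_sum]
      have h2 : ∑ n, K i j n * tr B p₀ (f n) =
          (∑ l, (aeval b.γ (pderiv l (v i)) * ∑ n, M3 l j n * tr B p₀ (f n) +
            aeval b.γ (pderiv l (v j)) * ∑ n, M3 i l n * tr B p₀ (f n))) -
          ∑ l, aeval b.γ (d i j l) * ∑ n, M l n * tr B p₀ (f n) := by
        have hKn : ∀ n, K i j n * tr B p₀ (f n) =
            (∑ l, aeval b.γ (pderiv l (v i)) * M3 l j n) * tr B p₀ (f n) +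
            (∑ l, aeval b.γ (pderiv l (v j)) * M3 i l n) * tr B p₀ (f n) -
            (∑ l, aeval b.γ (d i j l) * M l n) * tr B p₀ (f n) := by
          intro n
          rw [hK]
          simp only
          rw [Finset.sum_add_distrib]
          ring
        rw [Finset.sum_congr rfl fun n _ => hKn n, Finset.sum_sub_distrib,
          Finset.sum_add_distrib, dsum, dsum (fun l => aeval b.γ (pderiv l (v j)))
            (fun l n => M3 i l n), dsum, Finset.sum_add_distrib]
      rw [h2]
      simp only [mul_sub, Finset.sum_sub_distrib, Finset.sum_add_distrib, map_mul, map_add]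
      ring
    rw [h1]
    refine Ideal.sub_mem _ (Ideal.sum_mem _ fun l _ => Ideal.add_mem _
      (Ideal.mul_mem_left _ _ (e3 l j)) (Ideal.mul_mem_left _ _ (e3 i l)))
      (Ideal.sum_mem _ fun l _ => Ideal.mul_mem_left _ _ (e1 l))
  refine ⟨fun i j l => I (M3 i j l) + e * I (K i j l), fun i j => ?_⟩
  have h1 : ∑ l, (if blk l = ι then (I (M3 i j l) + e * I (K i j l)) * tr B' p₀ (f l) else 0) =
      I (∑ l, M3 i j l * tr B p₀ (f l)) + e * I (∑ l, K i j l * tr B p₀ (f l)) := by
    rw [map_sum, map_sum, Finset.mul_sum, ← Finset.sum_add_distrib]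
    refine Finset.sum_congr rfl fun l _ => ?_
    rw [map_mul, map_mul, hI, map_tr]
    split_ifs with h
    · ring
    · rw [hM30 i j l h, hK0 i j l h, map_zero, zero_mul, mul_zero, add_zero]
  have h2 : (∑ a, ∑ c, tr B' p₀ (π a c) * pderiv a (γ' i) * pderiv c (γ' j)) =
      I (br π p₀ (b.γ i) (b.γ j)) +
        e * I (br π p₀ (aeval b.γ (v i)) (b.γ j) + br π p₀ (b.γ i) (aeval b.γ (v j))) := by
    have h3 := br_map i₀ ε hε π p₀ (b.γ i) (aeval b.γ (v i)) (b.γ j) (aeval b.γ (v j))
    rw [← hγ' i, ← hγ' j] at h3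
    exact h3
  have h4 : (∑ a, ∑ c, tr B' p₀ (π a c) * pderiv a (γ' i) * pderiv c (γ' j)) - aeval γ' (π i j) -
      ∑ l, (if blk l = ι then (I (M3 i j l) + e * I (K i j l)) * tr B' p₀ (f l) else 0) =
      I (br π p₀ (b.γ i) (b.γ j) - aeval b.γ (π i j) - ∑ l, M3 i j l * tr B p₀ (f l)) +
      e * I (br π p₀ (aeval b.γ (v i)) (b.γ j) + br π p₀ (b.γ i) (aeval b.γ (v j)) -
        aeval b.γ (vf v (π i j)) - ∑ n, K i j n * tr B p₀ (f n)) := by
    rw [h1, h2, hT, map_sub, map_sub, map_sub, map_sub]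
    ring
  rw [h4]
  exact Ideal.add_mem _ (map_YI i₀ _ (e3 i j)) (Ideal.mul_mem_left _ _ (map_YI i₀ _ (hS2 i j)))

end DUBM

open DUBM Pool.Agent.Lib.MPc9b009.LS.DUAM

theorem specDUB : SpecDUB := by
  intro N k κ τ _ _ P f blk ι π p₀ v hP hv hdf B _ _ b
  have hc : ∀ i, ∃ c : κ → PR N, (∀ j, j ∉ {j | blk j = blk i} → c j = 0) ∧
      vf v (f i) = ∑ j, c j * f j :=
    fun i => span_image f {j | blk j = blk i} (vf v (f i)) (hv i)
  choose c hc0 hc using hc
  have hd : ∀ i j, ∃ c : κ → PR N, (∀ l, l ∉ {l | blk l = ι} → c l = 0) ∧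
      dfc π v i j = ∑ l, c l * f l :=
    fun i j => span_image f {l | blk l = ι} (dfc π v i j) (hdf i j)
  choose d hd0 hd using hd
  obtain ⟨b', hb', hγ⟩ := mainPt P f blk p₀ v hP c (fun i j h => hc0 i j h) hc
    (TrivSqZeroExt.inlAlgHom ℂ B B) (DualNumber.eps : DualNumber B) DualNumber.eps_mul_eps
    (TrivSqZeroExt.fstHom B B B : DualNumber B →ₐ[B] B).toRingHom (fun x => rfl) rfl
    (fun x hx => TrivSqZeroExt.isUnit_iff_isUnit_fst.2 hx) b.toPt
  obtain ⟨m3, hm3⟩ := e3 P f blk ι π p₀ v (TrivSqZeroExt.inlAlgHom ℂ B B)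
    (DualNumber.eps : DualNumber B) DualNumber.eps_mul_eps b d (fun i j l h => hd0 i j l h) hd
    b'.γ hγ
  refine ⟨DualNumber B, inferInstance, inferInstance, _, _, ⟨b', m3, hm3⟩,
    DualNumber.eps_mul_eps, ?_, hb'⟩
  intro s t h
  have h1 := congrArg TrivSqZeroExt.fst h
  have h2 := congrArg TrivSqZeroExt.snd h
  constructor
  · simpa using h1
  · simpa using h2

end Pool.Agent.Lib.MPc9b009.LF
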