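import Pool.Agent.Lib.MP_c9b009_ag.LF.SpecK

/-! # MP_c9b009_ag, row LF, module DVA (helper72): the field `A` has no divergence -/

set_option autoImplicit false

namespace Pool.Agent.Lib.MPc9b009.LF

open MvPolynomial Pool.Agent.Lib.MPc9b009.B5 Pool.Agent.Lib.MPc9b009.OD
  Pool.Agent.Lib.MPc9b009.PS Pool.Agent.Lib.MPc9b009.LS

namespace DVAM

variable {N k : ℕ} {M : Set (Cn N)} {T : Cn N → Submodule ℂ (Cn N)}

/-- the derivative of a polynomial along a chart -/
theorem hasF (c : Cht N k M T) {y : Cn k} (hy : y ∈ c.B) (q : PR N) :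
    HasFDerivAt (fun z => eval (c.G z) q)
      ((LGRM.grad q (c.G y)).comp (fderiv ℂ c.G y)) y :=
  (LGRM.hasFDerivAt_eval q (c.G y)).comp y (BASM.diffAt c hy).hasFDerivAt

/-- tangent vectors are determined by their coordinates -/
theorem tang (c : Cht N k M T) {y : Cn k} (hy : y ∈ c.B) {A : Cn N} (hA : A ∈ T (c.G y)) :
    fderiv ℂ c.G y (fun a => A (c.I a)) = A := by
  rw [← c.tan y hy] at hA
  obtain ⟨η, hη⟩ := hA
  have hη' : fderiv ℂ c.G y η = A := hη
  have h2 : η = fun a => A (c.I a) := by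
    funext m
    have h3 := BASM.coord c hy η m
    rw [hη'] at h3
    exact h3.symm
  rw [h2] at hη'
  exact hη'

/-- the derivative of `m (q ∘ G)` in the direction `v` -/
noncomputable def Lf (c : Cht N k M T) (m : Cn k → ℂ) (y v : Cn k) (q : PR N) : ℂ :=
  m y * LGRM.grad q (c.G y) (fderiv ℂ c.G y v) + eval (c.G y) q * fderiv ℂ m y v

theorem fderiv_mul_eval (c : Cht N k M T) {m : Cn k → ℂ} {y : Cn k} (hy : y ∈ c.B)
    (hm : DifferentiableAt ℂ m y) (q : PR N) (v : Cn k) :
    fderiv ℂ (fun z => m z * eval (c.G z) q) y v = Lf c m y v q := by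
  have h := hm.hasFDerivAt.mul (hasF c hy q)
  have h1 : (fun z => m z * eval (c.G z) q) = m * fun z => eval (c.G z) q := rfl
  rw [h1, h.fderiv]
  rfl

theorem Lf_add (c : Cht N k M T) (m : Cn k → ℂ) (y v : Cn k) (p q : PR N) :
    Lf c m y v (p + q) = Lf c m y v p + Lf c m y v q := by
  unfold Lf
  rw [LGRM.grad_apply, LGRM.grad_apply, LGRM.grad_apply, map_add]
  have h : ∑ j, eval (c.G y) (pderiv j (p + q)) * fderiv ℂ c.G y v j =
      ∑ j, eval (c.G y) (pderiv j p) * fderiv ℂ c.G y v j +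
        ∑ j, eval (c.G y) (pderiv j q) * fderiv ℂ c.G y v j := by
    rw [← Finset.sum_add_distrib]
    refine Finset.sum_congr rfl fun j _ => ?_
    rw [map_add, map_add, add_mul]
  rw [h]
  ring

theorem Lf_mul (c : Cht N k M T) (m : Cn k → ℂ) (y v : Cn k) (p q : PR N) :
    Lf c m y v (p * q) = eval (c.G y) p * Lf c m y v q +
      m y * (eval (c.G y) q * LGRM.grad p (c.G y) (fderiv ℂ c.G y v)) := by
  unfold Lf
  rw [LGRM.grad_apply, LGRM.grad_apply, LGRM.grad_apply, map_mul]
  have h : ∑ j, eval (c.G y) (pderiv j (p * q)) * fderiv ℂ c.G y v j =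
      eval (c.G y) p * ∑ j, eval (c.G y) (pderiv j q) * fderiv ℂ c.G y v j +
        eval (c.G y) q * ∑ j, eval (c.G y) (pderiv j p) * fderiv ℂ c.G y v j := by
    rw [Finset.mul_sum, Finset.mul_sum, ← Finset.sum_add_distrib]
    refine Finset.sum_congr rfl fun j _ => ?_
    rw [Derivation.leibniz, smul_eq_mul, smul_eq_mul, map_add, map_mul, map_mul]
    ring
  rw [h]
  ring

theorem Lf_C_mul (c : Cht N k M T) (m : Cn k → ℂ) (y v : Cn k) (t : ℂ) (q : PR N) :
    Lf c m y v (C t * q) = t * Lf c m y v q := by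
  rw [Lf_mul, eval_C]
  have h : LGRM.grad (C t : PR N) (c.G y) (fderiv ℂ c.G y v) = 0 := by
    rw [LGRM.grad_apply]
    refine Finset.sum_eq_zero fun j _ => ?_
    rw [pderiv_C, map_zero, zero_mul]
  rw [h, mul_zero, mul_zero, add_zero]

theorem Lf_zero (c : Cht N k M T) (m : Cn k → ℂ) (y v : Cn k) :
    Lf c m y v (0 : PR N) = 0 := by
  have h := Lf_C_mul c m y v 0 (0 : PR N)
  rwa [mul_zero, zero_mul] at h

theorem Lf_sum (c : Cht N k M T) (m : Cn k → ℂ) (y v : Cn k) {ι : Type} (s : Finset ι)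
    (q : ι → PR N) : Lf c m y v (∑ i ∈ s, q i) = ∑ i ∈ s, Lf c m y v (q i) := by
  classical
  induction s using Finset.induction_on with
  | empty => rw [Finset.sum_empty, Finset.sum_empty, Lf_zero]
  | insert i s hi ih => rw [Finset.sum_insert hi, Finset.sum_insert hi, Lf_add, ih]

/-- the divergence of a polynomial vector field in the chart -/
noncomputable def dvg (c : Cht N k M T) (m : Cn k → ℂ) (y : Cn k) (X : Fin N → PR N) : ℂ :=
  ∑ a : Fin k, Lf c m y (Pi.single a 1) (X (c.I a))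

theorem dvg_sum (c : Cht N k M T) (m : Cn k → ℂ) (y : Cn k) {ι : Type} (s : Finset ι)
    (t : ι → ℂ) (X : ι → Fin N → PR N) :
    dvg c m y (fun l => ∑ i ∈ s, C (t i) * X i l) = ∑ i ∈ s, t i * dvg c m y (X i) := by
  unfold dvg
  simp only [Lf_sum, Lf_C_mul, Finset.mul_sum]
  rw [Finset.sum_comm]

theorem sum_single (v : Cn k) : ∑ a, v a • (Pi.single a 1 : Cn k) = v := by
  conv_rhs => rw [← Finset.univ_sum_single v]
  refine Finset.sum_congr rfl fun j _ => ?_
  rw [← Pi.single_smul, smul_eq_mul, mul_one]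

/-- Leibniz rule for the divergence -/
theorem dvg_mul (c : Cht N k M T) (m : Cn k → ℂ) {y : Cn k} (hy : y ∈ c.B) (β : PR N)
    (X : Fin N → PR N) (hX : (fun l => eval (c.G y) (X l)) ∈ T (c.G y)) :
    dvg c m y (fun l => β * X l) = eval (c.G y) β * dvg c m y X +
      m y * eval (c.G y) (∑ l, X l * pderiv l β) := by
  unfold dvg
  simp only [Lf_mul]
  rw [Finset.sum_add_distrib, ← Finset.mul_sum, ← Finset.mul_sum]
  congr 2
  have h1 : ∑ a : Fin k, eval (c.G y) (X (c.I a)) *
      LGRM.grad β (c.G y) (fderiv ℂ c.G y (Pi.single a 1)) =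
      LGRM.grad β (c.G y) (fderiv ℂ c.G y (∑ a : Fin k, (eval (c.G y) (X (c.I a))) •
        (Pi.single a 1 : Cn k))) := by
    rw [map_sum, map_sum]
    refine Finset.sum_congr rfl fun a _ => ?_
    rw [map_smul, map_smul, smul_eq_mul]
  rw [h1, sum_single (fun a => eval (c.G y) (X (c.I a))), tang c hy hX, LGRM.grad_apply, map_sum]
  refine Finset.sum_congr rfl fun l _ => ?_
  rw [map_mul, mul_comm]

/-- Hamiltonian vectors are tangent to `V(P)` -/
theorem hml_mem (g : Biv N) (P : Ideal (PR N)) (hs : Stab g.f P) {x : Cn N} (hx : x ∈ Zer P)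
    (c' : Cn N) : (fun l => eval x (hml g c' l)) ∈ tgx P x := by
  intro q hq
  have h1 : (∑ l, hml g c' l * pderiv l q) ∈ P := by
    have e : (∑ l, hml g c' l * pderiv l q) =
        ∑ i, C (c' i) * -(∑ l, g.f l i * pderiv l q) := by
      unfold hml
      simp only [Finset.sum_mul]
      rw [Finset.sum_comm]
      refine Finset.sum_congr rfl fun i _ => ?_
      rw [← Finset.sum_neg_distrib, Finset.mul_sum]
      refine Finset.sum_congr rfl fun l _ => ?_
      rw [g.skew l i]
      ring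
    rw [e]
    exact P.sum_mem fun i _ => P.mul_mem_left _ (P.neg_mem (hs q hq i))
  have h2 := hx _ h1
  rw [map_sum] at h2
  rw [← h2]
  refine Finset.sum_congr rfl fun l _ => ?_
  rw [map_mul]
  rfl

end DVAM

theorem specDVA (hPFD : SpecPFD) : SpecDVA := by
  intro N d r g P b hj hs hC V hV c i y hy
  set Q := V.c i with hQ
  have hx : Q.G y ∈ Zer P := (Q.mem y hy).1.1
  have hm : DifferentiableAt ℂ (V.m i) y :=
    ((V.sm i).contDiffAt (Q.oB.mem_nhds hy)).differentiableAt (by norm_num)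
  have key : ∀ X : Fin N → PR N, (∑ a : Fin d,
      fderiv ℂ (fun z => V.m i z * eval (Q.G z) (X (Q.I a))) y (Pi.single a 1)) =
      DVAM.dvg Q (V.m i) y X := by
    intro X
    unfold DVAM.dvg
    exact Finset.sum_congr rfl fun a _ => DVAM.fderiv_mul_eval Q hy hm _ _
  have h0 : ∀ a, DVAM.dvg Q (V.m i) y (fun l => g.f a l) = 0 := by
    intro a
    rw [← key]
    exact hV a i y hy
  have h1 : ∀ c' : Cn N, DVAM.dvg Q (V.m i) y (hml g c') = 0 := by
    intro c'
    have e := DVAM.dvg_sum Q (V.m i) y Finset.univ c' (fun i l => g.f i l)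
    have e2 : DVAM.dvg Q (V.m i) y (hml g c') = _ := e
    rw [e2]
    refine Finset.sum_eq_zero fun j _ => ?_
    rw [h0, mul_zero]
  have h2 : DVAM.dvg Q (V.m i) y (PFA g c) = 0 := by
    have e := DVAM.dvg_sum Q (V.m i) y (Finset.univ : Finset (Equiv.Perm (Option (Fin r × Fin 2))))
      (fun σ => ((Equiv.Perm.sign σ : ℤ) : ℂ))
      (fun σ l => (∏ i : Fin r, brl g (c (σ (some (i, 0)))) (c (σ (some (i, 1))))) *
        hml g (c (σ none)) l)
    have e2 : DVAM.dvg Q (V.m i) y (PFA g c) = _ := e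
    rw [e2]
    have h3 : ∀ σ : Equiv.Perm (Option (Fin r × Fin 2)), DVAM.dvg Q (V.m i) y
        (fun l => (∏ i : Fin r, brl g (c (σ (some (i, 0)))) (c (σ (some (i, 1))))) *
          hml g (c (σ none)) l) = V.m i y * eval (Q.G y) (∑ l, hml g (c (σ none)) l *
            pderiv l (∏ i : Fin r, brl g (c (σ (some (i, 0)))) (c (σ (some (i, 1)))))) := by
      intro σ
      rw [DVAM.dvg_mul Q (V.m i) hy _ (hml g (c (σ none))) (DVAM.hml_mem g P hs hx _), h1,
        mul_zero, zero_add]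
    simp only [h3]
    have h4 := hx _ (hPFD N r g P hj c)
    rw [map_sum] at h4
    simp only [map_mul, eval_C] at h4
    have h5 : ∑ σ : Equiv.Perm (Option (Fin r × Fin 2)), ((Equiv.Perm.sign σ : ℤ) : ℂ) *
        (V.m i y * eval (Q.G y) (∑ l, hml g (c (σ none)) l *
            pderiv l (∏ i : Fin r, brl g (c (σ (some (i, 0)))) (c (σ (some (i, 1))))))) =
        V.m i y * ∑ σ : Equiv.Perm (Option (Fin r × Fin 2)), ((Equiv.Perm.sign σ : ℤ) : ℂ) *
          eval (Q.G y) (∑ l, hml g (c (σ none)) l *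
            pderiv l (∏ i : Fin r, brl g (c (σ (some (i, 0)))) (c (σ (some (i, 1)))))) := by
      rw [Finset.mul_sum]
      refine Finset.sum_congr rfl fun σ _ => ?_
      ring
    rw [h5, h4, mul_zero]
  have h6 := key (PFA g c)
  rw [h2] at h6
  exact h6

end Pool.Agent.Lib.MPc9b009.LF
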