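import Pool.Agent.Lib.MP_c9b009_ag.LF.SpecT

/-! # MP_c9b009_ag, row LF, module DVQ (helper45) -/

set_option autoImplicit false

namespace Pool.Agent.Lib.MPc9b009.LF

open MvPolynomial Pool.Agent.Lib.MPc9b009.B5 Pool.Agent.Lib.MPc9b009.OD
  Pool.Agent.Lib.MPc9b009.PS Pool.Agent.Lib.MPc9b009.LS

namespace DVQM

theorem maxPrincipal {R : Type} [CommRing R] [IsDomain R] [IsNoetherianRing R]
    [IsIntegrallyClosed R] (Q : Ideal R) [hQ : Q.IsPrime]
    (hmin : ∀ Q' : Ideal R, Q'.IsPrime → Q' < Q → Q' = ⊥) :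
    (IsLocalRing.maximalIdeal (Localization.AtPrime Q)).IsPrincipal := by
  have hle : Q.primeCompl ≤ nonZeroDivisors R := Ideal.primeCompl_le_nonZeroDivisors Q
  have : IsDomain (Localization.AtPrime Q) := IsLocalization.isDomain_localization hle
  have : IsNoetherianRing (Localization.AtPrime Q) :=
    IsLocalization.isNoetherianRing Q.primeCompl (Localization.AtPrime Q) inferInstance
  have : IsIntegrallyClosed (Localization.AtPrime Q) :=
    isIntegrallyClosed_of_isLocalization (Localization.AtPrime Q) Q.primeCompl hle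
  have key : IsIntegrallyClosed (Localization.AtPrime Q) ∧
      ∀ P : Ideal (Localization.AtPrime Q), P ≠ ⊥ → P.IsPrime →
        P = IsLocalRing.maximalIdeal (Localization.AtPrime Q) := by
    refine ⟨inferInstance, ?_⟩
    intro P hP0 hPp
    have h1 : P.comap (algebraMap R (Localization.AtPrime Q)) ≤ Q := by
      have h2 : P ≤ IsLocalRing.maximalIdeal (Localization.AtPrime Q) :=
        IsLocalRing.le_maximalIdeal hPp.ne_top
      calc P.comap (algebraMap R (Localization.AtPrime Q))
          ≤ (IsLocalRing.maximalIdeal (Localization.AtPrime Q)).comap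
            (algebraMap R (Localization.AtPrime Q)) := Ideal.comap_mono h2
        _ = Q := IsLocalization.AtPrime.comap_maximalIdeal (Localization.AtPrime Q) Q
    have h3 : (P.comap (algebraMap R (Localization.AtPrime Q))).map
        (algebraMap R (Localization.AtPrime Q)) = P :=
      IsLocalization.map_comap Q.primeCompl (Localization.AtPrime Q) P
    rcases h1.lt_or_eq with h4 | h4
    · have h5 := hmin _ (Ideal.comap_isPrime _ P) h4
      rw [h5, Ideal.map_bot] at h3
      exact absurd h3.symm hP0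
    · rw [h4] at h3
      rw [← h3]
      exact IsLocalization.AtPrime.map_eq_maximalIdeal Q (Localization.AtPrime Q)
  exact ((tfae_of_isNoetherianRing_of_isLocalRing_of_isDomain
    (Localization.AtPrime Q)).out 3 4).mp key

end DVQM

theorem specDVQ : SpecDVQ := by
  intro n R _ _ _ _ hic dd Q hQ hmin f u σ hf hfQ hu hfu hσ
  obtain ⟨j, hj⟩ := hσ
  have := hic
  have hle : Q.primeCompl ≤ nonZeroDivisors R := Ideal.primeCompl_le_nonZeroDivisors Q
  have : IsDomain (Localization.AtPrime Q) := IsLocalization.isDomain_localization hle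
  have inj : Function.Injective (algebraMap R (Localization.AtPrime Q)) :=
    IsLocalization.injective (Localization.AtPrime Q) hle
  obtain ⟨ϖ, hϖ⟩ := (DVQM.maxPrincipal Q hmin).principal
  rw [Ideal.submodule_span_eq] at hϖ
  set m := IsLocalRing.maximalIdeal (Localization.AtPrime Q) with hm
  have hmem : ∀ x : R, algebraMap R (Localization.AtPrime Q) x ∈ m ↔ x ∈ Q := fun x =>
    IsLocalization.AtPrime.to_map_mem_maximal_iff (Localization.AtPrime Q) Q x
  have hσQ : σ ∈ Q := by
    have : σ ^ 2 ∈ Q := by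
      rw [← hfu, pow_two, mul_assoc]
      exact Q.mul_mem_right _ hfQ
    exact hQ.mem_of_pow_mem 2 this
  -- σ is not in the square of the maximal ideal
  have hσ2 : algebraMap R (Localization.AtPrime Q) σ ∉ m ^ 2 := by
    intro h
    rw [hm, ← IsLocalization.AtPrime.map_eq_maximalIdeal Q (Localization.AtPrime Q),
      ← Ideal.map_pow, IsLocalization.mem_map_algebraMap_iff Q.primeCompl] at h
    obtain ⟨⟨⟨y, hy⟩, ⟨s, hs⟩⟩, h2⟩ := h
    have h3 : σ * s = y := by
      apply inj
      rw [map_mul]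
      exact h2
    have h4 : ∀ z ∈ Q ^ 2, dd j z ∈ Q := by
      intro z hz
      rw [pow_two] at hz
      refine Submodule.mul_induction_on hz ?_ ?_
      · intro a ha b hb
        rw [Derivation.leibniz, smul_eq_mul, smul_eq_mul]
        exact Q.add_mem (Q.mul_mem_right _ ha) (Q.mul_mem_right _ hb)
      · intro a b ha hb
        rw [map_add]
        exact Q.add_mem ha hb
    have h5 := h4 y hy
    rw [← h3, Derivation.leibniz, smul_eq_mul, smul_eq_mul] at h5
    have h6 : s * dd j σ ∈ Q := by
      have := Q.sub_mem h5 (Q.mul_mem_right (dd j s) hσQ)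
      rwa [add_sub_cancel_left] at this
    exact (hQ.mem_or_mem h6).elim hs hj
  -- σ = ϖ c, f = ϖ g
  obtain ⟨c, hc⟩ : ∃ c, algebraMap R (Localization.AtPrime Q) σ = ϖ * c :=
    Ideal.mem_span_singleton'.mp (hϖ ▸ (hmem σ).mpr hσQ) |>.imp fun c h => by rw [← h, mul_comm]
  obtain ⟨g, hg⟩ : ∃ g, algebraMap R (Localization.AtPrime Q) f = ϖ * g :=
    Ideal.mem_span_singleton'.mp (hϖ ▸ (hmem f).mpr hfQ) |>.imp fun c h => by rw [← h, mul_comm]
  have hϖ0 : ϖ ≠ 0 := by
    intro h0
    rw [h0, zero_mul] at hg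
    exact hf (inj (by rw [hg, map_zero]))
  have hϖm : ϖ ∈ m := by
    rw [hϖ]
    exact Ideal.mem_span_singleton_self ϖ
  have hcu : IsUnit c := by
    by_contra hnc
    have h1 : c ∈ m := (IsLocalRing.mem_maximalIdeal c).mpr hnc
    exact hσ2 (by rw [hc, pow_two]; exact Ideal.mul_mem_mul hϖm h1)
  have hgu : IsUnit g := by
    have h1 : (ϖ * g) ^ 2 * algebraMap R (Localization.AtPrime Q) u = (ϖ * c) ^ 2 := by
      rw [← hg, ← hc, ← map_pow, ← map_mul, hfu, map_pow]
    have h2 : g * (g * algebraMap R (Localization.AtPrime Q) u) = c ^ 2 := by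
      have h3 : ϖ ^ 2 * (g * (g * algebraMap R (Localization.AtPrime Q) u)) = ϖ ^ 2 * c ^ 2 := by
        calc ϖ ^ 2 * (g * (g * algebraMap R (Localization.AtPrime Q) u))
            = (ϖ * g) ^ 2 * algebraMap R (Localization.AtPrime Q) u := by ring
          _ = (ϖ * c) ^ 2 := h1
          _ = _ := by ring
      exact mul_left_cancel₀ (pow_ne_zero 2 hϖ0) h3
    exact isUnit_of_mul_isUnit_left (h2 ▸ hcu.pow 2)
  -- (1)
  have key1 : ∀ a ∈ Q, ∃ b, b ∉ Q ∧ f ∣ b * a := by
    intro a ha
    obtain ⟨d, hd⟩ := Ideal.mem_span_singleton'.mp (hϖ ▸ (hmem a).mpr ha)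
    obtain ⟨g', hg'⟩ := hgu.exists_right_inv
    obtain ⟨r, s, hrs⟩ := IsLocalization.exists_mk'_eq Q.primeCompl (d * g')
    refine ⟨s, s.2, r, ?_⟩
    apply inj
    have h1 : algebraMap R (Localization.AtPrime Q) r =
        (d * g') * algebraMap R (Localization.AtPrime Q) s := by
      rw [← hrs, IsLocalization.mk'_spec]
    rw [map_mul, map_mul, h1, hg, ← hd]
    calc algebraMap R (Localization.AtPrime Q) s * (d * ϖ)
        = ϖ * (1 * (d * algebraMap R (Localization.AtPrime Q) s)) := by ring
      _ = ϖ * (g * g' * (d * algebraMap R (Localization.AtPrime Q) s)) := by rw [hg']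
      _ = _ := by ring
  refine ⟨key1, ?_⟩
  intro a ha
  -- b f = r σ
  obtain ⟨c', hc'⟩ := hcu.exists_right_inv
  obtain ⟨r, s, hrs⟩ := IsLocalization.exists_mk'_eq Q.primeCompl (g * c')
  have h1 : algebraMap R (Localization.AtPrime Q) r =
      (g * c') * algebraMap R (Localization.AtPrime Q) s := by
    rw [← hrs, IsLocalization.mk'_spec]
  have h2 : (s : R) * f = r * σ := by
    apply inj
    rw [map_mul, map_mul, h1, hg, hc]
    calc algebraMap R (Localization.AtPrime Q) s * (ϖ * g)
        = ϖ * (1 * (g * algebraMap R (Localization.AtPrime Q) s)) := by ring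
      _ = ϖ * (c * c' * (g * algebraMap R (Localization.AtPrime Q) s)) := by rw [hc']
      _ = _ := by ring
  have hr : r ∉ Q := by
    intro hr
    have h3 := (hmem r).mpr hr
    rw [h1] at h3
    have h4 : IsUnit ((g * c') * algebraMap R (Localization.AtPrime Q) s) :=
      (hgu.mul (IsUnit.of_mul_eq_one_right _ hc')).mul (IsLocalization.map_units _ s)
    exact (IsLocalRing.mem_maximalIdeal _).mp h3 h4
  have h5 : dd j f ∉ Q := by
    intro h
    have h6 := congrArg (dd j) h2
    rw [Derivation.leibniz, Derivation.leibniz, smul_eq_mul, smul_eq_mul, smul_eq_mul,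
      smul_eq_mul] at h6
    have h7 : r * dd j σ ∈ Q := by
      have h8 : (s : R) * dd j f + f * dd j s ∈ Q :=
        Q.add_mem (Q.mul_mem_left _ h) (Q.mul_mem_right _ hfQ)
      rw [h6] at h8
      have := Q.sub_mem h8 (Q.mul_mem_right (dd j r) hσQ)
      rwa [add_sub_cancel_right] at this
    exact (hQ.mem_or_mem h7).elim hr hj
  have h9 : a * dd j f ∈ Q := by
    obtain ⟨t, ht⟩ := ha j
    rw [ht]
    exact Q.mul_mem_right _ hfQ
  exact key1 a ((hQ.mem_or_mem h9).resolve_right h5)

end Pool.Agent.Lib.MPc9b009.LF
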