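import Pool.Agent.Lib.MP_c9b009_ag.LF.SpecK
import Pool.Agent.Lib.MP_c9b009_ag.B5.TRH

/-!
# MP_c9b009_ag, row LF, module EVR: the rank of the bivector at a point is even
-/

set_option autoImplicit false

namespace Pool.Agent.Lib.MPc9b009.LF

open MvPolynomial Pool.Agent.Lib.MPc9b009.B5 Pool.Agent.Lib.MPc9b009.OD
  Pool.Agent.Lib.MPc9b009.PS Pool.Agent.Lib.MPc9b009.LS

namespace EVRM

open Matrix

theorem dot_apply {N : ℕ} (x η : Fin N → ℂ) : dot x η = ∑ i, x i * η i := by
  unfold dot
  simp [LinearMap.sum_apply]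

theorem mem_span_of_annih {N : ℕ} (x v : Fin N → ℂ) (hx : x ≠ 0)
    (h : ∀ η ∈ LinearMap.ker (dot x), η ⬝ᵥ v = 0) : v ∈ Submodule.span ℂ {x} := by
  obtain ⟨i, hi⟩ := Function.ne_iff.1 hx
  rw [Pi.zero_apply] at hi
  rw [Submodule.mem_span_singleton]
  refine ⟨v i / x i, ?_⟩
  funext j
  have h1 := h (x i • Pi.single j 1 - x j • Pi.single i 1) (by
    rw [LinearMap.mem_ker, map_sub, map_smul, map_smul, dot_apply, dot_apply]
    simp [Pi.single_apply]
    ring)
  rw [sub_dotProduct, smul_dotProduct, smul_dotProduct, single_one_dotProduct,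
    single_one_dotProduct, smul_eq_mul, smul_eq_mul] at h1
  rw [Pi.smul_apply, smul_eq_mul, div_mul_eq_mul_div, div_eq_iff hi]
  linear_combination -h1

end EVRM

open Matrix in
/-- The rank of the bivector at a point is even. -/
theorem specEVR : SpecEVR := by
  intro N k g x hx hrk
  set K := LinearMap.ker (dot x) with hK
  set M := mat g.f x with hM
  let b := Module.finBasis ℂ K
  let m := Module.finrank ℂ K
  let A : Matrix (Fin m) (Fin m) ℂ := Matrix.of fun i j => (b i).1 ⬝ᵥ (M *ᵥ (b j).1)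
  let L : (Fin m → ℂ) →ₗ[ℂ] ((Fin N → ℂ) ⧸ Submodule.span ℂ {x}) :=
    ((Submodule.span ℂ {x}).mkQ ∘ₗ M.mulVecLin) ∘ₗ K.subtype ∘ₗ b.equivFun.symm.toLinearMap
  have hMs : M.transpose = - M := by
    ext i j
    rw [transpose_apply, neg_apply, hM]
    unfold mat
    rw [of_apply, of_apply, g.skew i j, map_neg]
  have hAs : A.transpose = - A := by
    ext i j
    rw [transpose_apply, neg_apply]
    change (b j).1 ⬝ᵥ (M *ᵥ (b i).1) = - ((b i).1 ⬝ᵥ (M *ᵥ (b j).1))
    rw [dotProduct_mulVec, ← mulVec_transpose, hMs, neg_mulVec, neg_dotProduct,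
      dotProduct_comm]
  have hr : rk g.f x = Module.finrank ℂ (LinearMap.range L) := by
    unfold rk
    rw [← hM, ← hK]
    have h1 : LinearMap.range L = Submodule.map ((Submodule.span ℂ {x}).mkQ ∘ₗ M.mulVecLin) K := by
      change LinearMap.range (((Submodule.span ℂ {x}).mkQ ∘ₗ M.mulVecLin) ∘ₗ
        (K.subtype ∘ₗ b.equivFun.symm.toLinearMap)) = _
      rw [LinearMap.range_comp, LinearMap.range_comp_of_range_eq_top _
        (LinearEquiv.range _), Submodule.range_subtype]
    rw [h1]
  have hker : LinearMap.ker L = LinearMap.ker A.mulVecLin := by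
    ext c
    rw [LinearMap.mem_ker, LinearMap.mem_ker]
    have h2 : b.equivFun.symm c = ∑ j, c j • b j := Module.Basis.equivFun_symm_apply b c
    have h3 : ∀ i, (A.mulVecLin c) i = (b i).1 ⬝ᵥ (M *ᵥ (b.equivFun.symm c).1) := by
      intro i
      rw [h2, Matrix.mulVecLin_apply]
      change ∑ j, (b i).1 ⬝ᵥ (M *ᵥ (b j).1) * c j = _
      rw [Submodule.coe_sum, Matrix.mulVec_sum, dotProduct_sum]
      refine Finset.sum_congr rfl fun j _ => ?_
      rw [Submodule.coe_smul, mulVec_smul, dotProduct_smul, smul_eq_mul, mul_comm]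
    have h4 : L c = (Submodule.span ℂ {x}).mkQ (M *ᵥ (b.equivFun.symm c).1) := rfl
    rw [h4, Submodule.mkQ_apply, Submodule.Quotient.mk_eq_zero]
    constructor
    · intro h
      obtain ⟨a, ha⟩ := Submodule.mem_span_singleton.1 h
      funext i
      rw [h3, ← ha, dotProduct_smul]
      have h5 : dot x (b i).1 = 0 := LinearMap.mem_ker.1 (b i).2
      rw [EVRM.dot_apply] at h5
      have h6 : (b i).1 ⬝ᵥ x = 0 := by
        rw [dotProduct_comm]
        exact h5
      rw [h6, smul_zero, Pi.zero_apply]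
    · intro h
      refine EVRM.mem_span_of_annih x _ hx fun η hη => ?_
      have h5 : (⟨η, hη⟩ : K) = ∑ i, b.equivFun ⟨η, hη⟩ i • b i := (b.sum_equivFun _).symm
      have h6 : η = ∑ i, b.equivFun ⟨η, hη⟩ i • (b i).1 := by
        have h7 := congrArg Subtype.val h5
        rw [Submodule.coe_sum] at h7
        exact h7
      rw [h6, sum_dotProduct]
      refine Finset.sum_eq_zero fun i _ => ?_
      rw [smul_dotProduct, ← h3 i, h]
      simp
  have hrA : A.rank = rk g.f x := by
    rw [hr]
    have h1 := LinearMap.finrank_range_add_finrank_ker L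
    have h2 := LinearMap.finrank_range_add_finrank_ker A.mulVecLin
    rw [hker] at h1
    have h3 : A.rank = Module.finrank ℂ (LinearMap.range A.mulVecLin) := rfl
    omega
  have h1 := specSKE ℂ _ inferInstance m k A hAs (by rw [hrA]; exact hrk)
  rw [hrA] at h1
  exact h1

end Pool.Agent.Lib.MPc9b009.LF
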