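import Pool.Agent.Lib.MP_c9b009_ag.LF.SpecF

/-!
# MP_c9b009_ag, row LF, module FIN: theorem LF for limits
-/

set_option autoImplicit false

namespace Pool.Agent.Lib.MPc9b009.LF

open MvPolynomial Pool.Agent.Lib.MPc9b009.B5 Pool.Agent.Lib.MPc9b009.OD
  Pool.Agent.Lib.MPc9b009.PS Pool.Agent.Lib.MPc9b009.LS

theorem specFIN (hFLF : SpecFLF) (hFMA : SpecFMA) (hFMB : SpecFMB) (hFMC : SpecFMC) :
    SpecFIN := by
  intro N s I I₀ G g₀ hs hL hI₀ hlim hcoef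
  have hH : ∀ t, Hom (I t) := fun t => by
    obtain ⟨n, hn, h⟩ := hL t
    exact h.hom
  refine hFMB N s I₀ g₀ hI₀ (hFMC N s I I₀ G g₀ hs hH hlim hcoef fun t => ?_)
  obtain ⟨n, hn, h⟩ := hL t
  exact hFMA N s (I t) (G t) hs h.hom h.sta h.jac0 (hFLF N n s (I t) (G t) hs hn h)

end Pool.Agent.Lib.MPc9b009.LF
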