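import Pool.Agent.Lib.MP_c9b009_ag.LF.SpecF
import Pool.Agent.Lib.MP_c9b009_ag.LS.All

/-!
# MP_c9b009_ag, row LF, part F, module FLF: theorem LF for one structure
-/

set_option autoImplicit false

namespace Pool.Agent.Lib.MPc9b009.LF

open MvPolynomial Pool.Agent.Lib.MPc9b009.B5 Pool.Agent.Lib.MPc9b009.OD
  Pool.Agent.Lib.MPc9b009.PS Pool.Agent.Lib.MPc9b009.LS

namespace FLFM

/-- stable under the empty family = stable and homogeneous -/
theorem stab_iff {N : ℕ} (g : Biv N) (h : Fin 0 → Fin N → PR N) (Q : Ideal (PR N)) :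
    Stab (th g h) Q ↔ StE g Q := by
  constructor
  · intro hs
    refine ⟨?_, ?_⟩
    · intro q hq j
      have h1 := hs q hq (Fin.castAdd 1 (Fin.castAdd 0 j))
      simpa only [GTAM.th_g] using h1
    · rw [← LS.specEUH]
      intro q hq
      have h1 := hs q hq (Fin.natAdd (N + 0) (0 : Fin 1))
      simp only [GTAM.th_x] at h1
      exact h1
  · rintro ⟨h1, h2⟩
    exact GTHM.stab_th g h Q h1 (fun a => a.elim0) ((LS.specEUH N Q).2 h2)

end FLFM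

open FLFM

/-- FLF. -/
theorem specFLF (hEVR : SpecEVR) (hKTH : SpecKTH) (hCAS : SpecCAS) (hCSY : SpecCSY) :
    SpecFLF := by
  intro N n s I g hs hsn hL
  by_contra hbig
  let h₀ : Fin 0 → Fin N → PR N := fun a => a.elim0
  have hdim : ((s + 2 : ℕ) : Cardinal) ≤ Algebra.trdeg ℂ (PR N ⧸ I) := by
    rw [hL.dim]
    exact_mod_cast (by omega : s + 2 ≤ n + 1)
  obtain ⟨P, hP, hIP, hPs, hPd, hmin⟩ := LS.specLMN N 0 s I g h₀ I hL.prime le_rfl
    ((stab_iff g h₀ I).2 ⟨hL.sta, hL.hom⟩) hdim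
  obtain ⟨hPst, hPH⟩ := (stab_iff g h₀ P).1 hPs
  have hmin' : ∀ Q : Ideal (PR N), Q.IsPrime → P ≤ Q → StE g Q → Q ≠ P →
      Algebra.trdeg ℂ (PR N ⧸ Q) ≤ ((s + 1 : ℕ) : Cardinal) :=
    fun Q h1 h2 h3 h4 => hmin Q h1 h2 ((stab_iff g h₀ Q).2 h3) h4
  obtain ⟨d, hd⟩ := BSTM.nat_trdeg P
  have hx : ∃ x ∈ Zer P, x ≠ 0 ∧ s + 2 ≤ rk g.f x := by
    by_contra hcon
    push Not at hcon
    apply hbig
    refine PS.specBGI N s g.f I P hP hPH hIP ?_ hPd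
    intro x hx0 hxP
    have h1 := hcon x hxP hx0
    obtain ⟨k, hk⟩ := hs
    have h2 := hEVR N k g x hx0 (by omega)
    omega
  haveI := hP
  obtain ⟨L, iF, iA, φ, hG⟩ : ∃ (L : Type) (_ : Field L) (_ : Algebra ℂ L)
    (φ : PR N →ₐ[ℂ] L), Gen P L φ := ⟨_, _, _, _, GTAM.gen_frac P⟩
  have hne : Nonempty (InvV d (Flds g) φ) := by
    rcases hL.red with ⟨h1, h2⟩ | ⟨h1, h2⟩
    · exact hCAS N n s d I P g hs hsn hL.prime hL.hom hL.sta hL.jac0 hL.dim hL.smo h2 h1 hIP hP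
        hPH hPst hd hmin' hx L iF iA φ hG
    · exact hCSY N n s d I P g hs hsn hL.prime hL.hom hL.sta hL.jac0 hL.dim hL.smo h2 h1 hIP hP
        hPH hPst hd hmin' hx L iF iA φ hG
  obtain ⟨inv⟩ := hne
  exact hKTH N d s g P hs hP hPH hPst (fun i j k => hIP (hL.jac0 i j k)) hd hmin' hx L iF iA φ hG
    inv

end Pool.Agent.Lib.MPc9b009.LF
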