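import Pool.Agent.Lib.MP_c9b009_ag.LF.SpecF
import Pool.Agent.Lib.MP_c9b009_ag.LS.LMA

/-!
# MP_c9b009_ag, row LF, module FMA (helper58): a large component meets linear subspaces

After `LS/LMA.lean` (helper21), for an ideal `I`.
-/

set_option autoImplicit false

namespace Pool.Agent.Lib.MPc9b009.LF

open MvPolynomial Pool.Agent.Lib.MPc9b009.B5 Pool.Agent.Lib.MPc9b009.OD
  Pool.Agent.Lib.MPc9b009.PS Pool.Agent.Lib.MPc9b009.LS

open LS.LMAM in
theorem specFMA : SpecFMA := by
  intro N s I g hs hI hst hjac hbig W hW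
  obtain ⟨P, hP, hd⟩ := hbig
  have hCMP : SpecCMP := specCMP specXST specRKU specRKC
  obtain ⟨hPp, hPh, hIP, -⟩ := hCMP N s g I hs hI hst hjac P hP
  have hvP : vanI I g.f s ≤ P := hP.1.2
  by_contra hcon
  push Not at hcon
  -- the linear forms
  have hm : Module.finrank ℂ (Cn N ⧸ W) ≤ s + 1 := by
    have h1 := W.finrank_quotient_add_finrank
    have h2 : Module.finrank ℂ (Cn N) = N := by
      rw [Module.finrank_fin_fun]
    omega
  generalize hmm : Module.finrank ℂ (Cn N ⧸ W) = m at hm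
  let e : (Cn N ⧸ W) ≃ₗ[ℂ] (Fin m → ℂ) :=
    (Module.finBasisOfFinrankEq ℂ (Cn N ⧸ W) hmm).equivFun
  let φ : Cn N →ₗ[ℂ] (Fin m → ℂ) := e.toLinearMap ∘ₗ W.mkQ
  have hφ : ∀ x, φ x = 0 → x ∈ W := by
    intro x hx
    have h1 : e (W.mkQ x) = 0 := hx
    have h2 : W.mkQ x = 0 := by
      rwa [LinearEquiv.map_eq_zero_iff] at h1
    rwa [Submodule.mkQ_apply, Submodule.Quotient.mk_eq_zero] at h2
  let c : Fin m → Cn N := fun b j => φ (Pi.single j 1) b
  have hc : ∀ (x : Cn N) (b : Fin m), eval x (lin (c b)) = φ x b := by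
    intro x b
    rw [eval_lin]
    have h1 : φ x = ∑ j, x j • φ (Pi.single j 1) := by
      conv_lhs => rw [pi_eq_sum_univ' x]
      rw [map_sum]
      exact Finset.sum_congr rfl fun j _ => map_smul _ _ _
    rw [h1, Finset.sum_apply]
    refine Finset.sum_congr rfl fun j _ => ?_
    show φ (Pi.single j 1) b * x j = x j * φ (Pi.single j 1) b
    exact mul_comm _ _
  -- the zeros
  have hz : ∀ q : Ideal (MvPolynomial (Fin N) ℂ), P ≤ q → (∀ b, lin (c b) ∈ q) →
      ∀ x : Cn N, x ∈ Zer q → x = 0 := by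
    intro q hPq hcq x hx
    by_contra hx0
    have hxW : x ∈ W := by
      apply hφ
      funext b
      rw [← hc]
      exact hx _ (hcq b)
    have hxI : x ∈ Zer I := fun h hh => hx _ (hPq (hIP hh))
    have hlt := hcon x hxW hx0 hxI
    refine absurd (specRKU N s g x hs hx0 (fun A B => ?_) (fun A B => ?_)) (not_le.2 hlt)
    · refine hx _ (hPq (hvP ?_))
      intro z hz0 _ hr
      exact (specRKC N s g z hs hz0 hr).1 A B
    · refine hx _ (hPq (hvP ?_))
      intro z hz0 _ hr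
      exact (specRKC N s g z hs hz0 hr).2 A B
  have hFIN := specFINI N P hPp hPh (Fin m) inferInstance (fun b => lin (c b)) (fun _ => 1)
    (fun _ => le_rfl) (fun b => lin_hom _) (fun q hq _ hPq hcq =>
      CUTM.trdeg_top q (X_mem q hq (hz q hPq hcq)))
  have : IsDomain (MvPolynomial (Fin N) ℂ ⧸ P) := Ideal.Quotient.isDomain P
  have halg : Algebra.IsAlgebraic (Algebra.adjoin ℂ
      (Set.range fun b => Ideal.Quotient.mk P (lin (c b)))) (MvPolynomial (Fin N) ℂ ⧸ P) :=
    ⟨fun z => (hFIN z).isAlgebraic⟩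
  have h1 := Algebra.IsAlgebraic.trdeg_le_cardinalMk ℂ (Set.range fun b => Ideal.Quotient.mk P (lin (c b)))
  have h2 : Cardinal.mk (Set.range fun b => Ideal.Quotient.mk P (lin (c b))) ≤ (m : Cardinal) := by
    refine Cardinal.mk_range_le.trans ?_
    simp
  have h3 := (hd.trans h1).trans h2
  have h4 : s + 2 ≤ m := by exact_mod_cast h3
  omega

end Pool.Agent.Lib.MPc9b009.LF
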