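import Pool.Agent.Lib.MP_c9b009_ag.LF.SpecF
import Pool.Agent.Lib.MP_c9b009_ag.LS.LMB

/-!
# MP_c9b009_ag, row LF, module FMB
-/

set_option autoImplicit false

namespace Pool.Agent.Lib.MPc9b009.LF

open MvPolynomial Pool.Agent.Lib.MPc9b009.B5 Pool.Agent.Lib.MPc9b009.OD
  Pool.Agent.Lib.MPc9b009.PS Pool.Agent.Lib.MPc9b009.LS

namespace FMBM

theorem zer_smul {N : ℕ} {I : Ideal (MvPolynomial (Fin N) ℂ)} (hI : Hom I) {x : Cn N}
    (hx : x ∈ Zer I) (t : ℂ) : t • x ∈ Zer I := by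
  intro q hq
  rw [← LMBM.eval_psi]
  have h0 : CUTM.psi x q = 0 := by
    ext d
    rw [CUTM.psi_comp, Polynomial.coeff_zero]
    exact hx _ (hI q hq d)
  rw [h0, Polynomial.eval_zero]

theorem hom_vanI {N : ℕ} {I : Ideal (MvPolynomial (Fin N) ℂ)} (hI : Hom I) (g : Biv N) (s : ℕ) :
    Hom (vanI I g.f s) := by
  intro q hq d x hx hxI hr
  rw [← CUTM.psi_comp]
  have h0 : CUTM.psi x q = 0 := by
    refine Polynomial.eq_zero_of_infinite_isRoot _ ?_
    refine Set.Infinite.mono (s := {t : ℂ | t ≠ 0}) ?_ ?_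
    · intro t ht
      show Polynomial.eval t (CUTM.psi x q) = 0
      rw [LMBM.eval_psi]
      refine hq (t • x) (smul_ne_zero ht hx) (zer_smul hI hxI t) ?_
      rw [LMBM.rk_smul g x ht]
      exact hr
    · have h1 : {t : ℂ | t ≠ 0} = ({0} : Set ℂ)ᶜ := by
        ext t
        simp
      rw [h1]
      exact (Set.finite_singleton (0 : ℂ)).infinite_compl
  rw [h0, Polynomial.coeff_zero]

end FMBM

theorem specFMB : SpecFMB := by
  intro N s I g hI hW
  by_contra hB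
  have hD : Dle (vanI I g.f s) (s + 1) := by
    intro q hq hJq
    have := hq
    obtain ⟨P, hP, hPq⟩ := Ideal.exists_minimalPrimes_le hJq
    refine (THIM.tr_mono hP.1.1 hq hPq).trans ?_
    by_contra h
    exact hB ⟨P, hP, THIM.nat_le_of_not_le h⟩
  obtain ⟨W, J', h1, h2, h3, h4⟩ := LMBM.cut (s + 1) _ (FMBM.hom_vanI hI g s) hD
  obtain ⟨x, hxW, hx0, hxI, hxr⟩ := hW W h1
  refine hx0 (ITRM.line h2 h3 (h4 x hxW ?_))
  intro q hq
  exact hq x hx0 hxI hxr

end Pool.Agent.Lib.MPc9b009.LF
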