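import Pool.Agent.Lib.MP_c9b009_ag.LF.SpecF
import Pool.Agent.Lib.MP_c9b009_ag.LS.LMC

/-!
# MP_c9b009_ag, row LF, module FMC: limits (helper67)
-/

set_option autoImplicit false

namespace Pool.Agent.Lib.MPc9b009.LF

open MvPolynomial Pool.Agent.Lib.MPc9b009.B5 Pool.Agent.Lib.MPc9b009.OD
  Pool.Agent.Lib.MPc9b009.PS Pool.Agent.Lib.MPc9b009.LS

namespace FMCM

open Filter Topology Pool.Agent.Lib.MPc9b009.LS.LMCM

theorem eval_smulH {N : ℕ} (p : MvPolynomial (Fin N) ℂ) (n : ℕ) (hp : p.IsHomogeneous n) (t : ℂ)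
    (x : Cn N) : eval (t • x) p = t ^ n * eval x p := by
  rw [MvPolynomial.eval_eq', MvPolynomial.eval_eq', Finset.mul_sum]
  refine Finset.sum_congr rfl fun d hd => ?_
  have h1 : ∑ i, d i = n := by
    have h2 := hp (mem_support_iff.1 hd)
    rw [← h2, Finsupp.weight_apply, Finsupp.sum_fintype]
    · exact Finset.sum_congr rfl fun i _ => by simp
    · intro i
      simp
  have h3 : ∏ i, (t • x) i ^ d i = t ^ n * ∏ i, x i ^ d i := by
    rw [← h1, ← Finset.prod_pow_eq_pow_sum, ← Finset.prod_mul_distrib]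
    refine Finset.prod_congr rfl fun i _ => ?_
    rw [Pi.smul_apply, smul_eq_mul, mul_pow]
  rw [h3]
  ring

theorem zer_smul {N : ℕ} (I : Ideal (PR N)) (hI : Hom I) (x : Cn N) (hx : x ∈ Zer I) (t : ℂ) :
    t • x ∈ Zer I := by
  intro q hq
  rw [← sum_homogeneousComponent q, map_sum]
  refine Finset.sum_eq_zero fun d _ => ?_
  rw [eval_smulH _ d (homogeneousComponent_isHomogeneous d q), hx _ (hI q hq d), mul_zero]

/-- the exponents of degree at most `e` -/
noncomputable def EE (N e : ℕ) : Finset (Fin N →₀ ℕ) :=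
  (Finset.range (e + 1)).biUnion fun d => Finset.finsuppAntidiag Finset.univ d

theorem mem_EE {N e : ℕ} (m : Fin N →₀ ℕ) : m ∈ EE N e ↔ ∑ i, m i ≤ e := by
  unfold EE
  simp only [Finset.mem_biUnion, Finset.mem_range, Finset.mem_finsuppAntidiag]
  constructor
  · rintro ⟨d, hd, h, -⟩
    have h2 : ∑ i, m i = d := h
    omega
  · intro h
    exact ⟨_, Nat.lt_succ_of_le h, rfl, Finset.subset_univ _⟩

theorem eval_EE {N e : ℕ} (p : MvPolynomial (Fin N) ℂ) (hp : ∀ m, m ∉ EE N e → coeff m p = 0)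
    (x : Cn N) : eval x p = ∑ d ∈ EE N e, coeff d p * ∏ i, x i ^ d i := by
  rw [MvPolynomial.eval_eq']
  refine Finset.sum_subset ?_ ?_
  · intro d hd
    by_contra h
    exact (mem_support_iff.1 hd) (hp d h)
  · intro d _ hd
    rw [notMem_support_iff.1 hd, zero_mul]

theorem coeff_EE {N e : ℕ} (p : MvPolynomial (Fin N) ℂ) (hp : p.totalDegree ≤ e)
    (m : Fin N →₀ ℕ) (hm : m ∉ EE N e) : coeff m p = 0 := by
  by_contra h
  apply hm
  rw [mem_EE]
  have h1 := le_totalDegree (mem_support_iff.2 h)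
  rw [Finsupp.sum_fintype _ _ fun _ => rfl] at h1
  exact h1.trans hp

/-- the value of the limit -/
theorem eval_lim {N e : ℕ} (Q : ℕ → PR N) (q : PR N) (hQ : ∀ t, (Q t).totalDegree ≤ e)
    (hq : ∀ m, Tendsto (fun t => coeff m (Q t)) atTop (nhds (coeff m q))) (x : ℕ → Cn N)
    (x₀ : Cn N) (hx : Tendsto x atTop (nhds x₀)) (h0 : ∀ t, eval (x t) (Q t) = 0) :
    eval x₀ q = 0 := by
  have hq0 : ∀ m, m ∉ EE N e → coeff m q = 0 := by
    intro m hm
    have h1 : (fun t => coeff m (Q t)) = fun _ => (0 : ℂ) :=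
      funext fun t => coeff_EE _ (hQ t) m hm
    have h2 := hq m
    rw [h1] at h2
    exact (tendsto_nhds_unique h2 tendsto_const_nhds)
  have h1 : Tendsto (fun t => eval (x t) (Q t)) atTop (nhds (eval x₀ q)) := by
    have e1 : (fun t => eval (x t) (Q t)) =
        fun t => ∑ d ∈ EE N e, coeff d (Q t) * ∏ i, x t i ^ d i := by
      funext t
      exact eval_EE _ (fun m hm => coeff_EE _ (hQ t) m hm) _
    rw [e1, eval_EE _ hq0]
    refine tendsto_finsetSum _ fun d _ => ?_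
    refine (hq d).mul ?_
    refine tendsto_finsetProd _ fun k _ => ?_
    exact ((tendsto_pi_nhds.1 hx) k).pow _
  have h2 : (fun t => eval (x t) (Q t)) = fun _ => (0 : ℂ) := funext h0
  rw [h2] at h1
  exact (tendsto_nhds_unique h1 tendsto_const_nhds)

end FMCM

open FMCM Filter Topology Pool.Agent.Lib.MPc9b009.LS.LMCM in
theorem specFMC : SpecFMC := by
  intro N s I I₀ G g₀ hs hI hL hG hW W hNW
  -- normalized points
  have h1 : ∀ t, ∃ x : Cn N, x ∈ (W : Set (Cn N)) ∩ Metric.sphere (0 : Cn N) 1 ∧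
      x ∈ Zer (I t) ∧ rk (G t).f x ≤ s := by
    intro t
    obtain ⟨y, hy, hy0, hyz, hyr⟩ := hW t W hNW
    have hn : ‖y‖ ≠ 0 := norm_ne_zero_iff.2 hy0
    have hc : ((‖y‖⁻¹ : ℝ) : ℂ) ≠ 0 := by
      rw [Ne, Complex.ofReal_eq_zero]
      exact inv_ne_zero hn
    refine ⟨((‖y‖⁻¹ : ℝ) : ℂ) • y, ⟨W.smul_mem _ hy, ?_⟩, zer_smul _ (hI t) _ hyz _, ?_⟩
    · rw [mem_sphere_zero_iff_norm, norm_smul, Complex.norm_real, norm_inv, norm_norm]
      exact inv_mul_cancel₀ hn
    · rw [rk_smul' _ _ hc]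
      exact hyr
  choose x hx hxz hxr using h1
  have hcomp : IsCompact ((W : Set (Cn N)) ∩ Metric.sphere (0 : Cn N) 1) :=
    (isCompact_sphere (0 : Cn N) 1).inter_left W.closed_of_finiteDimensional
  obtain ⟨x₀, hx₀, φ, hφ, hlim⟩ := hcomp.tendsto_subseq hx
  have hx₀0 : x₀ ≠ 0 := by
    intro h
    have h2 := hx₀.2
    rw [mem_sphere_zero_iff_norm, h, norm_zero] at h2
    exact zero_ne_one h2
  have hx0 : ∀ t, x t ≠ 0 := by
    intro t h
    have h2 := (hx t).2
    rw [mem_sphere_zero_iff_norm, h, norm_zero] at h2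
    exact zero_ne_one h2
  have hev : ∀ i j, Tendsto (fun t => eval (x (φ t)) ((G (φ t)).f i j)) atTop
      (nhds (eval x₀ (g₀.f i j))) := by
    intro i j
    exact eval_tendsto (fun t => G (φ t)) g₀ i j
      (fun m => (hG i j m).comp hφ.tendsto_atTop) (fun t => x (φ t)) x₀ hlim
  refine ⟨x₀, hx₀.1, hx₀0, ?_, ?_⟩
  · intro q hq
    obtain ⟨Q, e, hQ, hQq⟩ := hL q hq
    exact eval_lim (fun t => Q (φ t)) q (fun t => (hQ (φ t)).2)
      (fun m => (hQq m).comp hφ.tendsto_atTop) (fun t => x (φ t)) x₀ hlim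
      (fun t => hxz (φ t) _ (hQ (φ t)).1)
  refine PS.specRKU N s g₀ x₀ hs hx₀0 ?_ ?_
  · intro I J
    have h3 : Tendsto (fun t => eval (x (φ t)) (mnr (G (φ t)).f I J)) atTop
        (nhds (eval x₀ (mnr g₀.f I J))) := by
      simp only [eval_mnr]
      refine det_tendsto _ _ fun a b => ?_
      simp only [Matrix.of_apply]
      exact hev _ _
    have h4 : (fun t => eval (x (φ t)) (mnr (G (φ t)).f I J)) = fun _ => (0 : ℂ) := by
      funext t
      exact (PS.specRKC N s (G (φ t)) (x (φ t)) hs (hx0 _) (hxr _)).1 I J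
    rw [h4] at h3
    exact (tendsto_nhds_unique h3 tendsto_const_nhds)
  · intro I J
    have h3 : Tendsto (fun t => eval (x (φ t)) (xmnr (G (φ t)).f I J)) atTop
        (nhds (eval x₀ (xmnr g₀.f I J))) := by
      simp only [eval_xmnr]
      refine det_tendsto _ _ fun a b => ?_
      simp only [Matrix.of_apply]
      refine Fin.cases ?_ (fun b' => ?_) b
      · simp only [Fin.cons_zero]
        exact (tendsto_pi_nhds.1 hlim) (I a)
      · simp only [Fin.cons_succ]
        exact hev _ _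
    have h4 : (fun t => eval (x (φ t)) (xmnr (G (φ t)).f I J)) = fun _ => (0 : ℂ) := by
      funext t
      exact (PS.specRKC N s (G (φ t)) (x (φ t)) hs (hx0 _) (hxr _)).2 I J
    rw [h4] at h3
    exact (tendsto_nhds_unique h3 tendsto_const_nhds)

end Pool.Agent.Lib.MPc9b009.LF
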