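import Pool.Agent.Lib.MP_c9b009_ag.LF.SpecT
import Pool.Agent.Lib.MP_c9b009_ag.LS.LPE
import Mathlib.RingTheory.IntegralClosure.GoingDown
import Mathlib.RingTheory.NoetherNormalization

/-!
# MP_c9b009_ag, row LF, module HGT: primes of height one have codimension one
-/

set_option autoImplicit false

namespace Pool.Agent.Lib.MPc9b009.LF

open MvPolynomial Pool.Agent.Lib.MPc9b009.B5 Pool.Agent.Lib.MPc9b009.OD
  Pool.Agent.Lib.MPc9b009.PS Pool.Agent.Lib.MPc9b009.LS

namespace HGTM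

/-- primes of height one in an integral extension of a polynomial ring -/
theorem core {s : ℕ} {R : Type} [CommRing R] [IsDomain R] [Algebra ℂ R] [Algebra (PR s) R]
    [IsScalarTower ℂ (PR s) R] [FaithfulSMul (PR s) R] [Algebra.IsIntegral (PR s) R]
    (Q : Ideal R) [hQ : Q.IsPrime] (hQ0 : Q ≠ ⊥)
    (hmin : ∀ P : Ideal R, P.IsPrime → P < Q → P = ⊥) :
    ((s - 1 : ℕ) : Cardinal) ≤ Algebra.trdeg ℂ (R ⧸ Q) := by
  have hp : Q.under (PR s) ≠ ⊥ := Ideal.IsIntegral.comap_ne_bot (PR s) hQ0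
  have hpp : (Q.under (PR s)).IsPrime := inferInstance
  obtain ⟨ϖ, hmem, hprime⟩ := hpp.exists_mem_prime_of_ne_bot hp
  have hsp : (Ideal.span {ϖ} : Ideal (PR s)).IsPrime :=
    (Ideal.span_singleton_prime hprime.ne_zero).2 hprime
  have hle : Ideal.span {ϖ} ≤ Q.under (PR s) := by
    rw [Ideal.span_singleton_le_iff_mem]
    exact hmem
  have heq : Q.under (PR s) = Ideal.span {ϖ} := by
    by_contra hne
    have hlt : Ideal.span {ϖ} < Q.under (PR s) := lt_of_le_of_ne hle (Ne.symm hne)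
    obtain ⟨P, hPQ, hPp, hPo⟩ := Ideal.exists_ideal_lt_liesOver_of_lt (R := PR s) Q hlt
    have h0 := hmin P hPp hPQ
    have h1 := hPo.over
    rw [h0, Ideal.under_bot] at h1
    have h2 : ϖ ∈ (⊥ : Ideal (PR s)) := by
      rw [← h1]
      exact Ideal.mem_span_singleton_self ϖ
    exact hprime.ne_zero (Ideal.mem_bot.1 h2)
  let h : PR s →ₐ[ℂ] (R ⧸ Q) := (Ideal.Quotient.mkₐ ℂ Q).comp (IsScalarTower.toAlgHom ℂ (PR s) R)
  have hker : RingHom.ker h = Ideal.span {ϖ} := by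
    rw [← heq]
    ext x
    rw [RingHom.mem_ker, Ideal.mem_under]
    exact Ideal.Quotient.eq_zero_iff_mem
  have h3 := LPEM.trdeg_hyp ϖ hprime.irreducible
  rw [← hker] at h3
  exact h3.trans (trdeg_le_of_injective (Ideal.kerLiftAlg h) (Ideal.kerLiftAlg_injective h))

end HGTM

open HGTM in
theorem specHGT : SpecHGT := by
  intro N n I q hI hq hlt htr hmin
  obtain ⟨s, -, g, hginj, hgint⟩ := exists_integral_inj_algHom_of_quotient (k := ℂ) I hI.ne_top
  let _ : Algebra (PR s) (PR N ⧸ I) := g.toRingHom.toAlgebra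
  have : IsScalarTower ℂ (PR s) (PR N ⧸ I) := IsScalarTower.of_algebraMap_eq fun c => (g.commutes c).symm
  have : FaithfulSMul (PR s) (PR N ⧸ I) := (faithfulSMul_iff_algebraMap_injective _ _).2 hginj
  have : Algebra.IsIntegral (PR s) (PR N ⧸ I) := ⟨hgint⟩
  have : IsDomain (PR N ⧸ I) := Ideal.Quotient.isDomain I
  have htr2 : Algebra.trdeg ℂ (PR N ⧸ I) = ((s : ℕ) : Cardinal) := by
    rw [← trdeg_add_eq ℂ (PR s), trdeg_of_isDomain]
    have h0 : Algebra.trdeg (PR s) (PR N ⧸ I) = 0 := trdeg_eq_zero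
    rw [h0]
    simp
  have hns : n = s := by
    rw [htr] at htr2
    exact_mod_cast htr2
  subst hns
  let Q : Ideal (PR N ⧸ I) := q.map (Ideal.Quotient.mk I)
  have hcomap : Q.comap (Ideal.Quotient.mk I) = q := by
    rw [Ideal.comap_map_of_surjective _ Ideal.Quotient.mk_surjective, ← RingHom.ker_eq_comap_bot,
      Ideal.mk_ker]
    exact sup_eq_left.2 hlt.le
  have hQp : Q.IsPrime := by
    apply Ideal.map_isPrime_of_surjective Ideal.Quotient.mk_surjective
    rw [Ideal.mk_ker]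
    exact hlt.le
  have hQ0 : Q ≠ ⊥ := by
    intro h0
    rw [h0, ← RingHom.ker_eq_comap_bot, Ideal.mk_ker] at hcomap
    exact hlt.ne hcomap
  have hm : ∀ P : Ideal (PR N ⧸ I), P.IsPrime → P < Q → P = ⊥ := by
    intro P hP hPQ
    have h1 : P.comap (Ideal.Quotient.mk I) < q := by
      rw [← hcomap]
      exact lt_of_le_of_ne (Ideal.comap_mono hPQ.le) fun h =>
        hPQ.ne (Ideal.comap_injective_of_surjective _ Ideal.Quotient.mk_surjective h)
    have h2 : I ≤ P.comap (Ideal.Quotient.mk I) := by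
      intro x hx
      rw [Ideal.mem_comap, Ideal.Quotient.eq_zero_iff_mem.2 hx]
      exact P.zero_mem
    have h3 := hmin _ (Ideal.IsPrime.comap _) h2 h1
    apply Ideal.comap_injective_of_surjective (Ideal.Quotient.mk I) Ideal.Quotient.mk_surjective
    rw [h3, ← RingHom.ker_eq_comap_bot, Ideal.mk_ker]
  have h4 := core (s := n) Q hQ0 hm
  have h5 : Algebra.trdeg ℂ ((PR N ⧸ I) ⧸ Q) = Algebra.trdeg ℂ (PR N ⧸ q) := by
    have e := DoubleQuot.quotQuotEquivQuotOfLEₐ ℂ hlt.le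
    exact e.trdeg_eq
  rw [h5] at h4
  calc ((n : ℕ) : Cardinal) ≤ ((n - 1 + 1 : ℕ) : Cardinal) := by
        exact_mod_cast (by omega : n ≤ n - 1 + 1)
    _ = ((n - 1 : ℕ) : Cardinal) + 1 := by push_cast; rfl
    _ ≤ _ := by gcongr

end Pool.Agent.Lib.MPc9b009.LF
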