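import Pool.Agent.Lib.MP_c9b009_ag.LF.SpecD

/-!
# MP_c9b009_ag, row LF, module HLX: hard Lefschetz by Stokes for multivalued densities.
# Adapted from `PS/HLM.lean` (author helper39).
-/

set_option autoImplicit false

namespace Pool.Agent.Lib.MPc9b009.LF

open Pool.Agent.Lib.MPc9b009.PS MeasureTheory

namespace HLXM

variable {N k : ℕ} {M : Set (Cn N)} {T : Cn N → Submodule ℂ (Cn N)}

/-- the vector `A` at the point `c.G y` -/
noncomputable def AX (c : Cht N k M T) (w : Cn k → Cn k) (y : Cn k) : Cn N := fderiv ℂ c.G y (w y)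

lemma contAX (c : Cht N k M T) (w : Cn k → Cn k) (hw : ContDiffOn ℂ 1 w c.B) :
    ContinuousOn (AX c w) c.B := by
  have h1 : ContinuousOn (fderiv ℂ c.G) c.B :=
    c.sm.continuousOn_fderiv_of_isOpen c.oB (by norm_num)
  exact h1.clm_apply hw.continuousOn

lemma cont_vvX (f : ℝ → ℝ) (χ : Cn N → ℝ) (hf : Continuous f) (hχ : Continuous χ)
    (c : Cht N k M T) (w : Cn k → Cn k) (hw : ContDiffOn ℂ 1 w c.B) :
    ContinuousOn (fun y => HLMM.vv f χ (c.G y) (AX c w y)) c.B := by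
  have h1 : Continuous fun z : Cn N × Cn N => HLMM.vv f χ z.1 z.2 := by
    unfold HLMM.vv
    refine ((hχ.comp continuous_fst).mul (hf.comp (HLMM.cont_r.comp continuous_fst))).mul ?_
    refine Continuous.sub ?_ ?_
    · exact (HLMM.cont_her.comp (continuous_snd.prodMk continuous_fst)).norm.pow 2
    · exact (HLMM.cont_r.comp continuous_fst).mul (HLMM.cont_r.comp continuous_snd)
  exact h1.comp_continuousOn ((HLMM.contG c).prodMk (contAX c w hw))

end HLXM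

open HLXM HLMM in
theorem specHLX (hPOV : SpecPOV) (hCHX : SpecCHX) (hUCX : SpecUCX) : SpecHLX := by
  intro N k M T hC hcl D i₀ y₀ hy₀
  have hALG := PS.specALG
  set x₁ := (D.c i₀).G y₀ with hx₁
  have hx₁M : x₁ ∈ M := ((D.c i₀).mem y₀ hy₀).1
  have hx₁0 : x₁ ≠ 0 := fun h => hC.ne (h ▸ hx₁M)
  set R := ∑ p, ‖x₁ p‖ ^ 2 with hR
  have hR0 : 0 < R := by
    obtain ⟨q, hj⟩ := Function.ne_iff.mp hx₁0
    refine Finset.sum_pos' (fun i _ => by positivity) ⟨q, Finset.mem_univ _, ?_⟩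
    have : 0 < ‖x₁ q‖ := norm_pos_iff.mpr hj
    positivity
  obtain ⟨s, hs⟩ : ∃ s, R = 2 * s := ⟨R / 2, by ring⟩
  have hs0 : 0 < s := by linarith
  let bmp : ContDiffBump R := ⟨s / 4, s / 2, by linarith, by linarith⟩
  set f : ℝ → ℝ := fun t => bmp t with hf
  have hfc : ContDiff ℝ 1 f := bmp.contDiff
  have hf0 : ∀ t, 0 ≤ f t := fun t => bmp.nonneg
  have hfR : f R = 1 := bmp.one_of_mem_closedBall (Metric.mem_closedBall_self (by positivity))
  have hfs : ∀ t, f t ≠ 0 → s < t ∧ t < 4 * s := by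
    intro t ht
    have h1 : t ∈ Metric.ball R (s / 2) := by
      have h2 : t ∈ Function.support f := ht
      rw [bmp.support_eq] at h2
      exact h2
    rw [Metric.mem_ball, Real.dist_eq, abs_lt] at h1
    constructor <;> linarith
  obtain ⟨n, j, χ, hχc, hχ0, hχW, hχ1⟩ := hPOV N k M T hC hcl D.ι D.c D.cov s hs0
  have hK : ∀ l, IsCompact (KK M (χ l) s) := fun l => KK_compact (χ l) s hs0 hcl
  have hKM : ∀ l, KK M (χ l) s ⊆ M := fun l => KK_sub (χ l) s hs0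
  have hKW : ∀ l, KK M (χ l) s ⊆ (D.c (j l)).W := fun l z hz => hχW l hz.1
  -- CHS and ALG
  have hchs : ∀ l i, IntegrableOn (fun y => AX (D.c (j l)) (D.w (j l)) y i * Dbar (fun z : Cn N =>
        ((χ l z : ℝ) : ℂ) * ((f (∑ p, ‖z p‖ ^ 2) : ℝ) : ℂ) * (starRingEnd ℂ) (z i)) ((D.c (j l)).G y)
        (bet ((D.c (j l)).G y) (AX (D.c (j l)) (D.w (j l)) y))) (D.c (j l)).B ∧
      ∫ y in (D.c (j l)).B, AX (D.c (j l)) (D.w (j l)) y i * Dbar (fun z : Cn N =>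
        ((χ l z : ℝ) : ℂ) * ((f (∑ p, ‖z p‖ ^ 2) : ℝ) : ℂ) * (starRingEnd ℂ) (z i)) ((D.c (j l)).G y)
        (bet ((D.c (j l)).G y) (AX (D.c (j l)) (D.w (j l)) y)) = 0 := by
    intro l i
    refine hCHX N k M T hC (D.c (j l)) (D.w (j l)) (D.sm (j l)) (D.div (j l)) (D.hom (j l)) _ (KK M (χ l) s) i (contDiff_Phi f (χ l) hfc (hχc l) i) (hK l)
      (hKM l) (hKW l) ?_
    intro x hx _ hxs
    have hsub : tsupport (fun z : Cn N =>
        ((χ l z : ℝ) : ℂ) * ((f (∑ p, ‖z p‖ ^ 2) : ℝ) : ℂ) * (starRingEnd ℂ) (z i)) ⊆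
        tsupport (χ l) ∩ {z : Cn N | s ≤ ∑ p, ‖z p‖ ^ 2 ∧ ∑ p, ‖z p‖ ^ 2 ≤ 4 * s} := by
      refine closure_minimal ?_ ((isClosed_tsupport _).inter (isClosed_shell s))
      intro z hz
      have h1 : χ l z ≠ 0 := by
        intro h
        apply hz
        simp [h]
      have h2 : f (∑ p, ‖z p‖ ^ 2) ≠ 0 := by
        intro h
        apply hz
        simp [h]
      exact ⟨subset_tsupport _ h1, (hfs _ h2).1.le, (hfs _ h2).2.le⟩
    have h3 := hsub hxs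
    exact ⟨h3.1, Or.inr hx, h3.2⟩
  have hsum : ∀ l, IntegrableOn (fun y => ((f (∑ p, ‖(D.c (j l)).G y p‖ ^ 2) : ℝ) : ℂ) *
        (her (AX (D.c (j l)) (D.w (j l)) y) ((D.c (j l)).G y) *
          Dbar (fun x => ((χ l x : ℝ) : ℂ)) ((D.c (j l)).G y) (bet ((D.c (j l)).G y) (AX (D.c (j l)) (D.w (j l)) y))) +
        ((vv f (χ l) ((D.c (j l)).G y) (AX (D.c (j l)) (D.w (j l)) y) : ℝ) : ℂ)) (D.c (j l)).B ∧
      ∫ y in (D.c (j l)).B, (((f (∑ p, ‖(D.c (j l)).G y p‖ ^ 2) : ℝ) : ℂ) *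
        (her (AX (D.c (j l)) (D.w (j l)) y) ((D.c (j l)).G y) *
          Dbar (fun x => ((χ l x : ℝ) : ℂ)) ((D.c (j l)).G y) (bet ((D.c (j l)).G y) (AX (D.c (j l)) (D.w (j l)) y))) +
        ((vv f (χ l) ((D.c (j l)).G y) (AX (D.c (j l)) (D.w (j l)) y) : ℝ) : ℂ)) = 0 := by
    intro l
    have e1 : (fun y => ((f (∑ p, ‖(D.c (j l)).G y p‖ ^ 2) : ℝ) : ℂ) *
        (her (AX (D.c (j l)) (D.w (j l)) y) ((D.c (j l)).G y) *
          Dbar (fun x => ((χ l x : ℝ) : ℂ)) ((D.c (j l)).G y) (bet ((D.c (j l)).G y) (AX (D.c (j l)) (D.w (j l)) y))) +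
        ((vv f (χ l) ((D.c (j l)).G y) (AX (D.c (j l)) (D.w (j l)) y) : ℝ) : ℂ)) =
        fun y => ∑ i, AX (D.c (j l)) (D.w (j l)) y i * Dbar (fun z : Cn N =>
        ((χ l z : ℝ) : ℂ) * ((f (∑ p, ‖z p‖ ^ 2) : ℝ) : ℂ) * (starRingEnd ℂ) (z i)) ((D.c (j l)).G y)
        (bet ((D.c (j l)).G y) (AX (D.c (j l)) (D.w (j l)) y)) := by
      funext y
      have hχC : ContDiff ℝ 1 fun z : Cn N => ((χ l z : ℝ) : ℂ) :=
        Complex.ofRealCLM.contDiff.comp (hχc l)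
      rw [hALG.1 N (fun z => ((χ l z : ℝ) : ℂ)) f ((D.c (j l)).G y) (AX (D.c (j l)) (D.w (j l)) y) hχC hfc]
      unfold vv
      push_cast
      ring
    rw [e1]
    refine ⟨integrable_finsetSum _ fun i _ => (hchs l i).1, ?_⟩
    rw [integral_finsetSum _ fun i _ => (hchs l i).1]
    exact Finset.sum_eq_zero fun i _ => (hchs l i).2
  have hvi : ∀ l, IntegrableOn (fun y => vv f (χ l) ((D.c (j l)).G y) (AX (D.c (j l)) (D.w (j l)) y)) (D.c (j l)).B := by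
    intro l
    refine integrableOn_of_supp (D.c (j l)).oB (compact_pre (D.c (j l)) _ (hK l) (hKM l) (hKW l))
      (fun y hy => hy.1) _ (cont_vvX f (χ l) hfc.continuous (hχc l).continuous (D.c (j l)) (D.w (j l)) (D.sm (j l))) ?_
    intro y hy hny
    by_contra hne
    apply hny
    have h1 : χ l ((D.c (j l)).G y) ≠ 0 := by
      intro h
      apply hne
      unfold vv
      rw [h, zero_mul, zero_mul]
    have h2 : f (∑ p, ‖(D.c (j l)).G y p‖ ^ 2) ≠ 0 := by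
      intro h
      apply hne
      unfold vv
      rw [h, mul_zero, zero_mul]
    exact ⟨hy, subset_tsupport _ h1, Or.inr ((D.c (j l)).mem y hy).1, (hfs _ h2).1.le, (hfs _ h2).2.le⟩
  have hviC : ∀ l, IntegrableOn (fun y => ((vv f (χ l) ((D.c (j l)).G y) (AX (D.c (j l)) (D.w (j l)) y) : ℝ) : ℂ))
      (D.c (j l)).B := fun l => (hvi l).ofReal
  have hU : ∀ l, IntegrableOn (fun y => ((f (∑ p, ‖(D.c (j l)).G y p‖ ^ 2) : ℝ) : ℂ) *
        (her (AX (D.c (j l)) (D.w (j l)) y) ((D.c (j l)).G y) *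
          Dbar (fun x => ((χ l x : ℝ) : ℂ)) ((D.c (j l)).G y) (bet ((D.c (j l)).G y) (AX (D.c (j l)) (D.w (j l)) y))))
        (D.c (j l)).B := by
    intro l
    have h1 := (hsum l).1.sub (hviC l)
    refine h1.congr_fun (fun y _ => ?_) (D.c (j l)).oB.measurableSet
    simp only [Pi.sub_apply, add_sub_cancel_right]
  have hucl : ∑ l, ∫ y in (D.c (j l)).B, ((f (∑ p, ‖(D.c (j l)).G y p‖ ^ 2) : ℝ) : ℂ) *
        (her (AX (D.c (j l)) (D.w (j l)) y) ((D.c (j l)).G y) *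
          Dbar (fun x => ((χ l x : ℝ) : ℂ)) ((D.c (j l)).G y)
            (bet ((D.c (j l)).G y) (AX (D.c (j l)) (D.w (j l)) y))) = 0 :=
    hUCX N k M T hC hcl D s f n j χ hs0 hfc hfs hχc hχW hχ1
  have htot : ∑ l, ∫ y in (D.c (j l)).B, vv f (χ l) ((D.c (j l)).G y) (AX (D.c (j l)) (D.w (j l)) y) = 0 := by
    have h1 : ∑ l, ∫ y in (D.c (j l)).B, ((vv f (χ l) ((D.c (j l)).G y) (AX (D.c (j l)) (D.w (j l)) y) : ℝ) : ℂ) = 0 := by
      have h2 : ∀ l, ∫ y in (D.c (j l)).B, ((vv f (χ l) ((D.c (j l)).G y) (AX (D.c (j l)) (D.w (j l)) y) : ℝ) : ℂ) =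
          - ∫ y in (D.c (j l)).B, ((f (∑ p, ‖(D.c (j l)).G y p‖ ^ 2) : ℝ) : ℂ) *
        (her (AX (D.c (j l)) (D.w (j l)) y) ((D.c (j l)).G y) *
          Dbar (fun x => ((χ l x : ℝ) : ℂ)) ((D.c (j l)).G y) (bet ((D.c (j l)).G y) (AX (D.c (j l)) (D.w (j l)) y))) := by
        intro l
        have h3 := (hsum l).2
        rw [integral_add (hU l) (hviC l)] at h3
        exact eq_neg_of_add_eq_zero_right h3
      rw [Finset.sum_congr rfl fun l _ => h2 l, Finset.sum_neg_distrib, hucl, neg_zero]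
    have h4 : ((∑ l, ∫ y in (D.c (j l)).B, vv f (χ l) ((D.c (j l)).G y) (AX (D.c (j l)) (D.w (j l)) y) : ℝ) : ℂ) = 0 := by
      rw [← h1]
      push_cast
      exact Finset.sum_congr rfl fun l _ => integral_ofReal.symm
    exact_mod_cast h4
  have hneg : ∀ l, ∀ y, vv f (χ l) ((D.c (j l)).G y) (AX (D.c (j l)) (D.w (j l)) y) ≤ 0 := by
    intro l y
    unfold vv
    have h1 := (hALG.2 N ((D.c (j l)).G y) (AX (D.c (j l)) (D.w (j l)) y)).1
    exact mul_nonpos_of_nonneg_of_nonpos (mul_nonneg (hχ0 l _) (hf0 _)) (sub_nonpos.mpr h1)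
  have hzero : ∀ l, ∀ y ∈ (D.c (j l)).B, vv f (χ l) ((D.c (j l)).G y) (AX (D.c (j l)) (D.w (j l)) y) = 0 := by
    intro l
    have h1 : ∫ y in (D.c (j l)).B, vv f (χ l) ((D.c (j l)).G y) (AX (D.c (j l)) (D.w (j l)) y) = 0 := by
      have h2 := (Finset.sum_eq_zero_iff_of_nonpos (fun l _ =>
        integral_nonpos (μ := volume.restrict (D.c (j l)).B) (hneg l))).mp htot
      exact h2 l (Finset.mem_univ l)
    have h3 : (fun y => vv f (χ l) ((D.c (j l)).G y) (AX (D.c (j l)) (D.w (j l)) y)) =ᵐ[volume.restrict (D.c (j l)).B]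
        fun _ => 0 := by
      have h4 : ∫ y in (D.c (j l)).B, - vv f (χ l) ((D.c (j l)).G y) (AX (D.c (j l)) (D.w (j l)) y) = 0 := by
        rw [integral_neg, h1, neg_zero]
      have h5 := (integral_eq_zero_iff_of_nonneg (μ := volume.restrict (D.c (j l)).B)
        (f := fun y => - vv f (χ l) ((D.c (j l)).G y) (AX (D.c (j l)) (D.w (j l)) y))
        (fun y => neg_nonneg.mpr (hneg l y)) (hvi l).neg).mp h4
      filter_upwards [h5] with y hy
      simpa using hy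
    exact Measure.eqOn_open_of_ae_eq h3 (D.c (j l)).oB
      (cont_vvX f (χ l) hfc.continuous (hχc l).continuous (D.c (j l)) (D.w (j l)) (D.sm (j l))) continuousOn_const
  -- the chart at the point
  have hone := hχ1 x₁ hx₁M (by rw [← hR]; linarith) (by rw [← hR]; linarith)
  obtain ⟨l, hl⟩ : ∃ l, χ l x₁ ≠ 0 := by
    by_contra hcon
    push Not at hcon
    rw [Finset.sum_eq_zero fun l _ => hcon l] at hone
    exact zero_ne_one hone
  have hlW : x₁ ∈ (D.c (j l)).W := hχW l (subset_tsupport _ hl)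
  obtain ⟨hyB, hyG⟩ := (D.c (j l)).inv x₁ hx₁M hlW
  set yl : Cn k := fun m => x₁ ((D.c (j l)).I m) with hyl
  have hv := hzero l yl hyB
  unfold vv at hv
  rw [hyG] at hv
  rw [← hR, hfR, mul_one] at hv
  have hT0 := (mul_eq_zero.mp hv).resolve_left hl
  obtain ⟨t, ht⟩ := (hALG.2 N x₁ (AX (D.c (j l)) (D.w (j l)) yl)).2 hx₁0 (by rw [← hR]; exact sub_eq_zero.mp hT0)
  obtain ⟨u, -, htr⟩ := D.tr i₀ (j l) y₀ hy₀ yl hyB (by rw [hyG])
  refine ⟨u * jdet (D.c i₀) (D.c (j l)) y₀ * t, ?_⟩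
  have h6 : fderiv ℂ (D.c i₀).G y₀ (D.w i₀ y₀) = (u * jdet (D.c i₀) (D.c (j l)) y₀) •
      AX (D.c (j l)) (D.w (j l)) yl := htr
  rw [h6, ht, smul_smul]

end Pool.Agent.Lib.MPc9b009.LF
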