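import Pool.Agent.Lib.MP_c9b009_ag.LF.SpecT

/-!
# MP_c9b009_ag, row LF, module HTO: divisibility in a normal domain is decided in height one
-/

set_option autoImplicit false

namespace Pool.Agent.Lib.MPc9b009.LF

namespace HTOM

variable {R : Type} [CommRing R]

/-- the ideal of the `b` such that `f` divides `b a` -/
def qi (f a : R) : Ideal R where
  carrier := {b | f ∣ b * a}
  add_mem' := by
    intro x y hx hy
    rw [Set.mem_setOf_eq, add_mul]
    exact dvd_add hx hy
  zero_mem' := by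
    rw [Set.mem_setOf_eq, zero_mul]
    exact dvd_zero f
  smul_mem' := by
    intro c x hx
    rw [Set.mem_setOf_eq, smul_eq_mul, mul_assoc]
    exact Dvd.dvd.mul_left hx c

theorem mem_qi {f a b : R} : b ∈ qi f a ↔ f ∣ b * a := Iff.rfl

/-- A maximal proper ideal of this form is prime. -/
theorem exists_prime [IsNoetherianRing R] {a f : R} (h : ¬ f ∣ a) :
    ∃ c, ¬ f ∣ c * a ∧ (qi f (c * a)).IsPrime := by
  obtain ⟨Q, ⟨c, hc, rfl⟩, hmax⟩ := set_has_maximal_iff_noetherian.2 (inferInstance :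
    IsNoetherian R R) {J : Ideal R | ∃ c, ¬ f ∣ c * a ∧ J = qi f (c * a)}
    ⟨qi f (1 * a), 1, by rwa [one_mul], rfl⟩
  refine ⟨c, hc, ⟨?_, ?_⟩⟩
  · intro h1
    have h2 : (1 : R) ∈ qi f (c * a) := h1 ▸ Submodule.mem_top
    rw [mem_qi, one_mul] at h2
    exact hc h2
  · intro b b' hb
    by_cases hb' : b ∈ qi f (c * a)
    · exact Or.inl hb'
    · refine Or.inr ?_
      have h1 : ¬ f ∣ b * c * a := by
        rw [mul_assoc]
        exact hb'
      have h2 : qi f (c * a) ≤ qi f (b * c * a) := by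
        intro x hx
        rw [mem_qi] at hx ⊢
        have h3 := Dvd.dvd.mul_left hx b
        rwa [show b * (x * (c * a)) = x * (b * c * a) by ring] at h3
      have h3 : ¬ qi f (c * a) < qi f (b * c * a) := hmax _ ⟨b * c, h1, rfl⟩
      have h4 : qi f (b * c * a) ≤ qi f (c * a) := by
        by_contra h5
        exact h3 (lt_of_le_not_ge h2 h5)
      refine h4 ?_
      rw [mem_qi] at hb ⊢
      rwa [show b * b' * (c * a) = b' * (b * c * a) by ring] at hb

/-- An element `q` of the ideal with `q a / f` not in the ideal. -/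
theorem exists_unit [IsDomain R] [IsNoetherianRing R] [IsIntegrallyClosed R] {a f : R}
    (hf : f ≠ 0) (h : ¬ f ∣ a) : ∃ q ∈ qi f a, ∃ r, r ∉ qi f a ∧ q * a = f * r := by
  by_contra hcon
  push Not at hcon
  let K := FractionRing R
  have hfK : algebraMap R K f ≠ 0 := by
    rw [Ne, IsFractionRing.to_map_eq_zero_iff]
    exact hf
  let z : K := algebraMap R K a / algebraMap R K f
  let T : Submodule R K := Submodule.map (Algebra.linearMap R K) (qi f a)
  have hfT : algebraMap R K f ∈ T := ⟨f, Dvd.intro _ rfl, rfl⟩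
  have hT : T ≠ ⊥ := by
    intro h0
    rw [h0, Submodule.mem_bot] at hfT
    exact hfK hfT
  have hfg : T.FG := (IsNoetherian.noetherian (qi f a)).map _
  have hz : ∀ n ∈ T, z • n ∈ T := by
    rintro _ ⟨q, hq, rfl⟩
    obtain ⟨r, hr⟩ := mem_qi.1 hq
    have hr' : r ∈ qi f a := by
      by_contra h0
      exact hcon q hq r h0 hr
    refine ⟨r, hr', ?_⟩
    change algebraMap R K r = algebraMap R K a / algebraMap R K f * algebraMap R K q
    rw [div_mul_eq_mul_div, eq_div_iff hfK, ← map_mul, ← map_mul, mul_comm r f, ← hr, mul_comm q a]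
  have hi : IsIntegral R z := isIntegral_of_smul_mem_submodule T hT hfg z hz
  obtain ⟨y, hy⟩ := IsIntegrallyClosed.algebraMap_eq_of_integral hi
  refine h ⟨y, ?_⟩
  apply IsFractionRing.injective R K
  rw [map_mul, hy, mul_div_cancel₀ _ hfK]

/-- The ideal has height at most one. -/
theorem height [IsDomain R] [IsNoetherianRing R] {a f : R} (hf : f ≠ 0) {q r : R}
    (hr : r ∉ qi f a) (hqr : q * a = f * r) (hp : (qi f a).IsPrime) (hq : q ∈ qi f a)
    (Q' : Ideal R) (hQ' : Q'.IsPrime) (hlt : Q' < qi f a) : Q' = ⊥ := by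
  have h1 : ∀ x ∈ qi f a, ∃ s, r * x = q * s := by
    intro x hx
    obtain ⟨s, hs⟩ := mem_qi.1 hx
    refine ⟨s, mul_left_cancel₀ hf ?_⟩
    calc f * (r * x) = (f * r) * x := by ring
      _ = q * (x * a) := by rw [← hqr]; ring
      _ = f * (q * s) := by rw [hs]; ring
  have hr' : r ∉ Q' := fun h0 => hr (hlt.le h0)
  have hq' : q ∉ Q' := by
    intro h0
    refine hlt.not_ge fun x hx => ?_
    obtain ⟨s, hs⟩ := h1 x hx
    have h2 : r * x ∈ Q' := by
      rw [hs]
      exact Q'.mul_mem_right s h0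
    exact (hQ'.mem_or_mem h2).resolve_left hr'
  have h2 : ∀ x ∈ Q', ∃ s ∈ Q', r * x = q * s := by
    intro x hx
    obtain ⟨s, hs⟩ := h1 x (hlt.le hx)
    refine ⟨s, ?_, hs⟩
    have h3 : q * s ∈ Q' := by
      rw [← hs]
      exact Q'.mul_mem_left r hx
    exact (hQ'.mem_or_mem h3).resolve_left hq'
  let φ : Module.End R Q' := algebraMap R (Module.End R Q') r
  have hφ : LinearMap.range φ ≤ Ideal.span {q} • (⊤ : Submodule R Q') := by
    rintro _ ⟨x, rfl⟩
    obtain ⟨s, hs, hs'⟩ := h2 x.1 x.2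
    have h3 : φ x = q • (⟨s, hs⟩ : Q') := Subtype.ext hs'
    rw [h3]
    exact Submodule.smul_mem_smul (Ideal.mem_span_singleton_self q) Submodule.mem_top
  obtain ⟨P, hP, -, hc, h0⟩ :=
    LinearMap.exists_monic_and_natDegree_eq_and_coeff_mem_pow_and_aeval_eq_zero R φ _ hφ
  rw [eq_bot_iff]
  intro x hx
  rw [Submodule.mem_bot]
  by_contra hx0
  have h3 : (Polynomial.aeval φ P) (⟨x, hx⟩ : Q') = 0 := by
    rw [h0]
    rfl
  rw [Polynomial.aeval_algebraMap_apply] at h3
  have h4 : P.eval r * x = 0 := by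
    have h5 := congrArg Subtype.val h3
    simpa [Polynomial.aeval_def] using h5
  have h5 : P.eval r = 0 := (mul_eq_zero.1 h4).resolve_right hx0
  have hqQ : Ideal.span {q} ≤ qi f a := (Ideal.span_singleton_le_iff_mem _).2 hq
  have h6 : r ^ P.natDegree ∈ qi f a := by
    rw [Polynomial.eval_eq_sum_range, Finset.sum_range_succ, hP.coeff_natDegree, one_mul] at h5
    rw [eq_neg_of_add_eq_zero_right h5]
    refine neg_mem (sum_mem fun k hk => Ideal.mul_mem_right _ _ (hqQ ?_))
    exact Ideal.pow_le_self (Nat.sub_ne_zero_of_lt (Finset.mem_range.1 hk)) (hc k)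
  exact hr (hp.mem_of_pow_mem _ h6)

end HTOM

/-- HTO: divisibility in a normal domain is decided in height one. -/
theorem specHTO : SpecHTO := by
  intro R _ _ _ hR a f hf h
  by_contra hcon
  obtain ⟨c, hc, hp⟩ := HTOM.exists_prime hcon
  obtain ⟨q, hq, r, hr, hqr⟩ := HTOM.exists_unit hf hc
  obtain ⟨b, hb, hb'⟩ := h (HTOM.qi f (c * a)) hp (Dvd.intro _ rfl)
    fun Q' hQ' hlt => HTOM.height hf hr hqr hp hq Q' hQ' hlt
  refine hb ?_
  rw [HTOM.mem_qi, show b * (c * a) = c * (b * a) by ring]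
  exact Dvd.dvd.mul_left hb' c

end Pool.Agent.Lib.MPc9b009.LF
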