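import Pool.Agent.Lib.MP_c9b009_ag.LF.SpecD
import Mathlib.MeasureTheory.Measure.Lebesgue.EqHaar

/-!
# MP_c9b009_ag, row LF, module ITQ: generic linear sections, the covectors in given open sets
-/

set_option autoImplicit false

namespace Pool.Agent.Lib.MPc9b009.LF

open MvPolynomial Pool.Agent.Lib.MPc9b009.B5 Pool.Agent.Lib.MPc9b009.OD
  Pool.Agent.Lib.MPc9b009.PS Pool.Agent.Lib.MPc9b009.LS MeasureTheory

theorem specITQ : SpecITQ := by
  intro j
  induction j with
  | zero =>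
    intro N k M T hC J hJ hD O hO
    refine ⟨fun a => a.elim0, fun a => a.elim0, ?_, ?_⟩
    · rw [List.ofFn_zero]
      exact hC
    · intro x hx _
      exact PS.ITRM.line hJ hD hx
  | succ j ih =>
    intro N k M T hC J hJ hD O hO
    obtain ⟨ι, hι, U, hU, hUc⟩ := PS.specDRP N j J hJ hD
    have h1 : volume ({c : Cn N | ∃ x ∈ M, T x ≤ hyp c} ∪ ⋃ i, (U i : Set (Cn N))) = 0 := by
      rw [measure_union_null_iff]
      haveI := Finite.to_countable (α := ι)
      exact ⟨PS.specBER PS.specBAS N (k + (j + 1)) M T hC,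
        measure_iUnion_null fun i => PS.STPM.submodule_null (U i) (hU i)⟩
    obtain ⟨c, hcO, hcn⟩ : ∃ c ∈ O 0, c ∉ ({c : Cn N | ∃ x ∈ M, T x ≤ hyp c} ∪
        ⋃ i, (U i : Set (Cn N))) := by
      by_contra hcon
      push Not at hcon
      have h2 : 0 < volume (O 0) := (hO 0).1.measure_pos volume (hO 0).2
      exact absurd (measure_mono_null hcon h1) h2.ne'
    have h3 : ∀ x ∈ M, ¬ T x ≤ hyp c := fun x hx h => hcn (Or.inl ⟨x, hx, h⟩)
    have h4 : ∀ i, c ∉ U i := fun i h => hcn (Or.inr (Set.mem_iUnion.mpr ⟨i, h⟩))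
    have hcone : Cone N (k + j) {x | x ∈ M ∧ x ∈ hyp c} (fun x => T x ⊓ hyp c) :=
      PS.specCUT PS.specBAS N (k + j) M T hC c fun x hx _ => h3 x hx
    obtain ⟨l, hl, hch, hz⟩ := ih N k _ _ hcone (J ⊔ Ideal.span {lin c}) (hUc c h4).1
      (hUc c h4).2 (fun a => O a.succ) (fun a => hO a.succ)
    refine ⟨Fin.cons c l, ?_, ?_, ?_⟩
    · intro a
      refine Fin.cases ?_ (fun i => ?_) a
      · exact hcO
      · exact hl i
    · rw [List.ofFn_cons]
      refine ⟨?_, fun x hx _ => h3 x hx, hch⟩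
      rw [List.length_ofFn]
      exact hC
    · intro x hx hxl
      have h0 : x ∈ hyp c := hxl 0
      refine hz x ?_ fun a => hxl a.succ
      intro g hg
      obtain ⟨a, ha, b, hb, rfl⟩ := Submodule.mem_sup.1 hg
      obtain ⟨e, rfl⟩ := Ideal.mem_span_singleton'.1 hb
      have h5 : dot c x = 0 := h0
      rw [map_add, map_mul, hx a ha, PS.ITRM.eval_lin, h5, mul_zero, add_zero]

end Pool.Agent.Lib.MPc9b009.LF
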