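import Pool.Agent.Lib.MP_c9b009_ag.LF.SpecA
import Pool.Agent.Lib.MP_c9b009_ag.LS.KER

/-! # MP_c9b009_ag, row LF, module KEB (helper72): the isomorphism class of the Poisson germ is dense -/

set_option autoImplicit false

namespace Pool.Agent.Lib.MPc9b009.LF

open MvPolynomial Pool.Agent.Lib.MPc9b009.B5 Pool.Agent.Lib.MPc9b009.OD
  Pool.Agent.Lib.MPc9b009.PS Pool.Agent.Lib.MPc9b009.LS

namespace KEBM

/-- the trivial point -/
noncomputable def trivB {N k : ℕ} {κ τ : Type} [Fintype κ] [DecidableEq τ] (P : Ideal (PR N))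
    (f : κ → PR N) (blk : κ → τ) (ι : τ) (π : Fin N → Fin N → PR N) (p₀ : Cn N)
    (hp : p₀ ∈ Zer P) : PtB N k P f blk ι π p₀ ℂ :=
  { LS.KERM.triv (k := k) P f blk p₀ hp with
    m3 := fun _ _ _ => 0
    e3 := fun i j => by
      have hγ : ∀ i, (LS.KERM.triv (k := k) P f blk p₀ hp).γ i =
          X i + C (algebraMap ℂ ℂ (p₀ i)) := fun i => rfl
      have h1 : (∑ l, (if blk l = ι then (0 : MvPolynomial (Fin N) ℂ) * tr ℂ p₀ (f l) else 0)) =
          0 := by
        refine Finset.sum_eq_zero fun l _ => ?_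
        rw [zero_mul, ite_self]
      have h2 : ∀ a i : Fin N, pderiv a ((LS.KERM.triv (k := k) P f blk p₀ hp).γ i) =
          if a = i then 1 else 0 := by
        intro a i
        rw [hγ, map_add, pderiv_C, add_zero]
        by_cases h : a = i
        · subst h
          rw [pderiv_X_self, if_pos rfl]
        · rw [pderiv_X_of_ne (Ne.symm h), if_neg h]
      have h3 : (∑ a, ∑ b, tr ℂ p₀ (π a b) *
          pderiv a ((LS.KERM.triv (k := k) P f blk p₀ hp).γ i) *
          pderiv b ((LS.KERM.triv (k := k) P f blk p₀ hp).γ j)) = tr ℂ p₀ (π i j) := by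
        rw [Finset.sum_eq_single i]
        · rw [Finset.sum_eq_single j]
          · rw [h2, h2, if_pos rfl, if_pos rfl, mul_one, mul_one]
          · intro b _ hb
            rw [h2 b j, if_neg hb, mul_zero]
          · intro h
            exact absurd (Finset.mem_univ _) h
        · intro a _ ha
          refine Finset.sum_eq_zero fun b _ => ?_
          rw [h2 a i, if_neg ha, mul_zero, zero_mul]
        · intro h
          exact absurd (Finset.mem_univ _) h
      have h4 : aeval (LS.KERM.triv (k := k) P f blk p₀ hp).γ (π i j) = tr ℂ p₀ (π i j) := rfl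
      rw [h1, h3, h4, sub_self, sub_self]
      exact Ideal.zero_mem _ }

lemma trivB_cc {N k : ℕ} {κ τ : Type} [Fintype κ] [DecidableEq τ] (P : Ideal (PR N))
    (f : κ → PR N) (blk : κ → τ) (ι : τ) (π : Fin N → Fin N → PR N) (p₀ : Cn N)
    (hp : p₀ ∈ Zer P) (i : Fin N) :
    constantCoeff ((trivB (k := k) P f blk ι π p₀ hp).γ i) = p₀ i :=
  LS.KERM.triv_cc (k := k) P f blk p₀ hp i

end KEBM

open KEBM in
theorem specKEB (hR : SpecREB) (hD : SpecDUB) : SpecKEB := by
  intro N k r κ τ _ _ P f blk ι π p₀ V hP hS hadm hdfc hp hmin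
  obtain ⟨A, _, _, a, hft, hu⟩ := hR N k κ τ inferInstance inferInstance P f blk ι π p₀
  refine ⟨A, inferInstance, inferInstance, a, hft, fun q => ⟨fun hq => ?_, a.base q⟩⟩
  let c : Fin N → A := fun i => constantCoeff (a.γ i)
  let J : Ideal (PR N) := RingHom.ker (aeval c : PR N →ₐ[ℂ] A)
  have hPJ : P ≤ J := fun z hz => a.base z hz
  have hJS : Stab V J := by
    intro z hz j
    have hz' : aeval c z = 0 := hz
    obtain ⟨B', _, _, i₀, ε, b', hε, hinj, hb⟩ := hD N k κ τ inferInstance inferInstance P f blk ι π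
      p₀ (fun i => V i j) (fun y hy => hS y hy j) (hadm j) (hdfc j) A inferInstance inferInstance a
    obtain ⟨ψ, hψ⟩ := hu B' inferInstance inferInstance b'
    have h1 : ψ (aeval c z) = aeval (fun i => ψ (c i)) z := comp_aeval_apply _ _ _
    have h2 : (fun i => ψ (c i)) = fun i => i₀ (c i) + ε * i₀ (aeval c (V i j)) := by
      funext i
      rw [← hb i]
      exact hψ i
    rw [h2, LS.KERM.taylor hε] at h1
    have h3 : aeval (fun i => i₀ (c i)) z = i₀ (aeval c z) := (comp_aeval_apply _ _ _).symm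
    have h4 : ∑ l, i₀ (aeval c (V l j)) * aeval (fun i => i₀ (c i)) (pderiv l z) =
        i₀ (aeval c (∑ l, V l j * pderiv l z)) := by
      rw [map_sum, map_sum]
      refine Finset.sum_congr rfl fun l _ => ?_
      rw [map_mul, map_mul]
      congr 1
      exact (comp_aeval_apply _ _ _).symm
    rw [h3, h4, hz', map_zero] at h1
    exact (hinj _ _ h1.symm).2
  have hJp : J ≤ RingHom.ker (eval p₀) := by
    intro z hz
    have hz' : aeval c z = 0 := hz
    obtain ⟨ψ, hψ⟩ := hu ℂ inferInstance inferInstance (trivB P f blk ι π p₀ hp)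
    have h1 : ψ (aeval c z) = aeval (fun i => ψ (c i)) z := comp_aeval_apply _ _ _
    have h2 : (fun i => ψ (c i)) = p₀ := by
      funext i
      rw [← trivB_cc (k := k) P f blk ι π p₀ hp i]
      exact hψ i
    rw [h2, hz', map_zero, aeval_eq_eval] at h1
    exact h1.symm
  haveI : (RingHom.ker (eval p₀ : PR N →+* ℂ)).IsPrime := RingHom.ker_isPrime _
  obtain ⟨Q, hQ, hQp⟩ := Ideal.exists_minimalPrimes_le hJp
  have hQS : Stab V Q := Pool.Agent.Lib.MPc9b009.B5.specDMIN N r V J hJS Q hQ
  have hQP : Q = P := hmin Q hQ.1.1 (hPJ.trans hQ.1.2) hQS fun z hz => hQp hz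
  rw [← hQP]
  exact hQ.1.2 hq

end Pool.Agent.Lib.MPc9b009.LF
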