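import Pool.Agent.Lib.MP_c9b009_ag.LF.SpecK
import Pool.Agent.Lib.MP_c9b009_ag.LS.EUH

/-!
# MP_c9b009_ag, row LF, module KTH: an invariant volume form on a minimal stable cone is impossible
-/

set_option autoImplicit false

namespace Pool.Agent.Lib.MPc9b009.LF

open MvPolynomial Pool.Agent.Lib.MPc9b009.B5 Pool.Agent.Lib.MPc9b009.OD
  Pool.Agent.Lib.MPc9b009.PS Pool.Agent.Lib.MPc9b009.LS

namespace KTHM

/-- `[x | g]` -/
noncomputable def xg {N : ℕ} (g : Biv N) (i : Fin N) : Fin (N + 1) → PR N := Fin.cons (X i) (g.f i)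

theorem stab_xg {N : ℕ} {g : Biv N} {P : Ideal (PR N)} (hH : Hom P) (hS : Stab g.f P) :
    Stab (xg g) P := by
  intro q hq j
  refine Fin.cases ?_ (fun j => ?_) j
  · have h := (specEUH N P).2 hH q hq
    simpa only [xg, Fin.cons_zero, vf] using h
  · have h := hS q hq j
    simpa only [xg, Fin.cons_succ] using h

theorem dim_ge {N d s : ℕ} {g : Biv N} {P : Ideal (PR N)} (hP : P.IsPrime) (hH : Hom P)
    (hS : Stab g.f P) (hd : Algebra.trdeg ℂ (PR N ⧸ P) = ((d : ℕ) : Cardinal))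
    (h : (∃ I J : Fin (s + 3) → Fin N, mnr g.f I J ∉ P) ∨
      ∃ (I : Fin (s + 3) → Fin N) (J : Fin (s + 2) → Fin N), xmnr g.f I J ∉ P) : s + 3 ≤ d := by
  have h1 : ∃ (I : Fin (s + 3) → Fin N) (J : Fin (s + 3) → Fin (N + 1)), mnr (xg g) I J ∉ P := by
    rcases h with ⟨I, J, h⟩ | ⟨I, J, h⟩
    · refine ⟨I, fun b => (J b).succ, ?_⟩
      have e : mnr (xg g) I (fun b => (J b).succ) = mnr g.f I J := by
        unfold mnr
        congr 1
      rw [e]
      exact h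
    · refine ⟨I, Fin.cons 0 (fun b => (J b).succ), ?_⟩
      have e : mnr (xg g) I (Fin.cons 0 (fun b => (J b).succ)) = xmnr g.f I J := by
        unfold mnr xmnr
        congr 1
        ext1 a b
        refine Fin.cases ?_ (fun b => ?_) b
        · simp [xg]
        · simp [xg]
      rw [e]
      exact h
  have h2 := specDIM N (N + 1) (s + 3) (xg g) P hP (stab_xg hH hS) h1
  rw [hd] at h2
  exact_mod_cast h2

theorem sum_mem_ham {N : ℕ} {g : Biv N} {P : Ideal (PR N)} (hS : Stab g.f P) (c : Cn N)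
    {q : PR N} (hq : q ∈ P) : ∑ l, hml g c l * pderiv l q ∈ P := by
  have e : ∑ l, hml g c l * pderiv l q = ∑ i, -(C (c i) * ∑ l, g.f l i * pderiv l q) := by
    simp only [hml, Finset.sum_mul]
    rw [Finset.sum_comm]
    refine Finset.sum_congr rfl fun i _ => ?_
    rw [Finset.mul_sum, ← Finset.sum_neg_distrib]
    refine Finset.sum_congr rfl fun l _ => ?_
    rw [g.skew l i]
    ring
  rw [e]
  refine sum_mem fun i _ => neg_mem (P.mul_mem_left _ (hS q hq i))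

theorem sum_mem_PFA {N r : ℕ} {g : Biv N} {P : Ideal (PR N)} (hS : Stab g.f P)
    (c : Option (Fin r × Fin 2) → Cn N) {q : PR N} (hq : q ∈ P) :
    ∑ l, PFA g c l * pderiv l q ∈ P := by
  have e : ∑ l, PFA g c l * pderiv l q = ∑ σ : Equiv.Perm (Option (Fin r × Fin 2)),
      C ((Equiv.Perm.sign σ : ℤ) : ℂ) *
        (∏ i : Fin r, brl g (c (σ (some (i, 0)))) (c (σ (some (i, 1))))) *
          ∑ l, hml g (c (σ none)) l * pderiv l q := by
    simp only [PFA, Finset.sum_mul]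
    rw [Finset.sum_comm]
    refine Finset.sum_congr rfl fun σ _ => ?_
    rw [Finset.mul_sum]
    refine Finset.sum_congr rfl fun l _ => ?_
    ring
  rw [e]
  exact sum_mem fun σ _ => P.mul_mem_left _ (sum_mem_ham hS _ hq)

theorem PFA_tgx {N r : ℕ} {g : Biv N} {P : Ideal (PR N)} (hS : Stab g.f P)
    (c : Option (Fin r × Fin 2) → Cn N) {x : Cn N} (hx : x ∈ Zer P) :
    (fun l => eval x (PFA g c l)) ∈ tgx P x := by
  intro q hq
  have h := hx _ (sum_mem_PFA hS c hq)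
  simp only [map_sum, map_mul] at h
  simpa only [aeval_eq_eval, RingHom.coe_coe] using h

theorem ham_tgx {N : ℕ} {g : Biv N} {P : Ideal (PR N)} (hS : Stab g.f P) {x : Cn N}
    (hx : x ∈ Zer P) (ξ : Cn N) : (mat g.f x).mulVec ξ ∈ tgx P x := by
  intro q hq
  have h : ∀ j, ∑ i, eval x (g.f i j) * eval x (pderiv i q) = 0 := by
    intro j
    have h := hx _ (hS q hq j)
    simpa only [map_sum, map_mul] using h
  have e : ∑ l, (mat g.f x).mulVec ξ l * eval x (pderiv l q) =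
      ∑ j, ξ j * ∑ i, eval x (g.f i j) * eval x (pderiv i q) := by
    simp only [Matrix.mulVec, dotProduct, mat, Matrix.of_apply, Finset.sum_mul, Finset.mul_sum]
    rw [Finset.sum_comm]
    refine Finset.sum_congr rfl fun j _ => Finset.sum_congr rfl fun i _ => ?_
    ring
  have h2 : ∑ l, (mat g.f x).mulVec ξ l * eval x (pderiv l q) = 0 := by
    rw [e]
    exact Finset.sum_eq_zero fun j _ => by rw [h j, mul_zero]
  simpa only [aeval_eq_eval, RingHom.coe_coe] using h2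

theorem PFA_hom {N r : ℕ} (g : Biv N) (c : Option (Fin r × Fin 2) → Cn N) (l : Fin N) :
    (PFA g c l).IsHomogeneous (r + r + 2) := by
  unfold PFA
  refine IsHomogeneous.sum _ _ _ fun σ _ => ?_
  have h1 : ∀ c c' : Cn N, (brl g c c').IsHomogeneous 2 := by
    intro c c'
    refine IsHomogeneous.sum _ _ _ fun i _ => IsHomogeneous.sum _ _ _ fun j _ => ?_
    have h := ((isHomogeneous_C (Fin N) (c i)).mul (isHomogeneous_C (Fin N) (c' j))).mul
      (g.quad i j)
    simpa using h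
  have h2 : ∀ c : Cn N, (hml g c l).IsHomogeneous 2 := by
    intro c
    refine IsHomogeneous.sum _ _ _ fun i _ => ?_
    have h := (isHomogeneous_C (Fin N) (c i)).mul (g.quad i l)
    simpa using h
  have h3 := IsHomogeneous.prod (Finset.univ : Finset (Fin r))
    (fun i => brl g (c (σ (some (i, 0)))) (c (σ (some (i, 1))))) (fun _ => 2)
    (fun i _ => h1 _ _)
  have h4 := (isHomogeneous_C (Fin N) ((Equiv.Perm.sign σ : ℤ) : ℂ)).mul (h3.mul (h2 (c (σ none))))
  have e : 0 + (∑ _i : Fin r, 2 + 2) = r + r + 2 := by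
    simp
    omega
  rw [e] at h4
  exact h4

theorem cont_PFA {N r m : ℕ} (g : Biv N) (ε : Option (Fin r × Fin 2) → Fin m) (l : Fin N) :
    Continuous fun z : Cn N × (Fin m → Cn N) => eval z.1 (PFA g (fun b => z.2 (ε b)) l) := by
  have h1 : ∀ i j, Continuous fun z : Cn N × (Fin m → Cn N) => eval z.1 (g.f i j) :=
    fun i j => (MvPolynomial.continuous_eval _).comp continuous_fst
  have h2 : ∀ (a : Fin m) (i : Fin N), Continuous fun z : Cn N × (Fin m → Cn N) => z.2 a i :=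
    fun a i => (continuous_apply i).comp ((continuous_apply a).comp continuous_snd)
  simp only [PFA, map_sum, map_mul, map_prod, eval_C, brl, hml]
  refine continuous_finsetSum _ fun σ _ => continuous_const.mul (Continuous.mul ?_ ?_)
  · refine continuous_finsetProd _ fun i _ => continuous_finsetSum _ fun a _ =>
      continuous_finsetSum _ fun b _ => ((h2 _ _).mul (h2 _ _)).mul (h1 _ _)
  · exact continuous_finsetSum _ fun i _ => (h2 _ _).mul (h1 _ _)

theorem ctl' (hCTL : SpecCTL) {N k e m : ℕ} {L : List (Cn N)} (hL : m = L.length)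
    {M : Set (Cn N)} {T : Cn N → Submodule ℂ (Cn N)} (h : Chn N k L M T)
    (V : VolU N (k + m) e M T) :
    ∃ V' : VolU N k e {x | x ∈ M ∧ ∀ c ∈ L, x ∈ hyp c} (fun x => T x ⊓ ⨅ c ∈ L, hyp c),
      ∀ A : Cn N → Cn N, ContDiff ℂ 2 A → (∀ x ∈ M, A x ∈ T x ∧ ∀ c ∈ L, A x ∈ hyp c) →
        DivF V A → DivF V' A := by
  subst hL
  exact (hCTL N k e L M T h).2 V

theorem dot_apply {N : ℕ} (c x : Cn N) : dot c x = ∑ i, c i * x i := by
  simp [dot]

end KTHM

open KTHM in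
/-- **KTH**. -/
theorem specKTH (hHLX : SpecHLX) (hCTL : SpecCTL) (hITQ : SpecITQ) (hNZQ : SpecNZQ)
    (hPFT : SpecPFT) (hPFN : SpecPFN) (hBAD : SpecBAD) (hVLU : SpecVLU) (hDVA : SpecDVA)
    (hDSU : SpecDSU) (hEVR : SpecEVR) : SpecKTH := by
  classical
  intro N d s g P hs hP hH hS hJ hd hQ hx L _ _ φ hφ I
  obtain ⟨r, rfl⟩ := hs
  obtain ⟨x₁, hx₁, hx₁0, hrk₁⟩ := hx
  -- a minor
  have hge : ∀ x : Cn N, x ≠ 0 → (¬ ((∀ I J : Fin (r + r + 3) → Fin N, eval x (mnr g.f I J) = 0) ∧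
      ∀ (I : Fin (r + r + 3) → Fin N) (J : Fin (r + r + 2) → Fin N),
        eval x (xmnr g.f I J) = 0)) → r + r + 2 ≤ rk g.f x := by
    intro x hx hn
    by_contra hlt
    have h1 : rk g.f x ≤ 2 * r := hEVR N r g x hx (by omega)
    exact hn (specRKC N (r + r) g x ⟨r, rfl⟩ hx (by omega))
  have hne : ¬ ((∀ I J : Fin (r + r + 3) → Fin N, eval x₁ (mnr g.f I J) = 0) ∧
      ∀ (I : Fin (r + r + 3) → Fin N) (J : Fin (r + r + 2) → Fin N),
        eval x₁ (xmnr g.f I J) = 0) := by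
    intro h
    have := specRKU N (r + r) g x₁ ⟨r, rfl⟩ hx₁0 h.1 h.2
    omega
  obtain ⟨h, hhP, hhx, hd3⟩ : ∃ h : PR N, h ∉ P ∧
      (∀ x : Cn N, x ≠ 0 → eval x h ≠ 0 → r + r + 2 ≤ rk g.f x) ∧ r + r + 3 ≤ d := by
    rw [not_and_or] at hne
    push Not at hne
    rcases hne with ⟨A, B, hAB⟩ | ⟨A, B, hAB⟩
    · have hn : mnr g.f A B ∉ P := fun hm => hAB (hx₁ _ hm)
      exact ⟨_, hn, fun x hx hxe => hge x hx (fun hh => hxe (hh.1 A B)),
        dim_ge hP hH hS hd (Or.inl ⟨A, B, hn⟩)⟩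
    · have hn : xmnr g.f A B ∉ P := fun hm => hAB (hx₁ _ hm)
      exact ⟨_, hn, fun x hx hxe => hge x hx (fun hh => hxe (hh.2 A B)),
        dim_ge hP hH hS hd (Or.inr ⟨A, B, hn⟩)⟩
  obtain ⟨b, hPb, hHb, hDb, h0b, hbx⟩ := hBAD N d (r + r) g P hP hH hS hJ hd (by omega) hQ L _ _ φ
    hφ I
  obtain ⟨e, heb, heP⟩ : ∃ e ∈ b, e ∉ P := by
    by_contra hcon
    push Not at hcon
    have h1 := hDb P hP hcon
    rw [hd] at h1
    have h2 : d ≤ r + r + 1 := by exact_mod_cast h1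
    omega
  have hhe : h * e ∉ P := fun hm => (hP.mem_or_mem hm).elim hhP heP
  obtain ⟨x₀, hx₀, hx₀e⟩ := HLSM.exists_point hP hhe
  rw [map_mul] at hx₀e
  have hx₀b : x₀ ∉ Zer b := fun hm => right_ne_zero_of_mul hx₀e (hm e heb)
  have hx₀0 : x₀ ≠ 0 := fun h0 => hx₀b (h0 ▸ h0b)
  have hrk₀ := hhx x₀ hx₀0 (left_ne_zero_of_mul hx₀e)
  obtain ⟨hcone, V, hV⟩ := hVLU N d g P b hP hH hHb hS hd h0b L _ _ φ hφ I hbx
  obtain ⟨c₀, hc₀, hind, hA₀⟩ := hPFN N r g x₀ hx₀0 (by omega)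
  obtain ⟨k, rfl⟩ : ∃ k, d = k + (r + r + 1) := ⟨d - (r + r + 1), by omega⟩
  obtain ⟨ε⟩ : Nonempty (Option (Fin r × Fin 2) ≃ Fin (r + r + 1)) :=
    ⟨Fintype.equivFinOfCardEq (by simp; omega)⟩
  -- the open set
  let O' : Set (Cn N × (Fin (r + r + 1) → Cn N)) := {z | ∃ i j,
    eval z.1 (PFA g (fun b => z.2 (ε b)) i) * z.1 j -
      eval z.1 (PFA g (fun b => z.2 (ε b)) j) * z.1 i ≠ 0}
  have hO' : IsOpen O' := by
    have e1 : O' = ⋃ i, ⋃ j, {z : Cn N × (Fin (r + r + 1) → Cn N) |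
        eval z.1 (PFA g (fun b => z.2 (ε b)) i) * z.1 j -
          eval z.1 (PFA g (fun b => z.2 (ε b)) j) * z.1 i ≠ 0} := by
      ext z
      simp [O']
    rw [e1]
    refine isOpen_iUnion fun i => isOpen_iUnion fun j => ?_
    have h3 : ∀ l, Continuous fun z : Cn N × (Fin (r + r + 1) → Cn N) => z.1 l :=
      fun l => (continuous_apply l).comp continuous_fst
    exact isOpen_ne_fun (((cont_PFA g ε i).mul (h3 j)).sub ((cont_PFA g ε j).mul (h3 i)))
      continuous_const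
  have hmem' : (x₀, fun a => c₀ (ε.symm a)) ∈ O' := by
    obtain ⟨j, hj⟩ := Function.ne_iff.1 hx₀0
    by_contra hcon
    have e1 : (fun b => c₀ (ε.symm (ε b))) = c₀ := by
      funext b
      rw [Equiv.symm_apply_apply]
    have h4 : ∀ i j, eval x₀ (PFA g c₀ i) * x₀ j - eval x₀ (PFA g c₀ j) * x₀ i = 0 := by
      intro i j
      by_contra hne'
      apply hcon
      refine ⟨i, j, ?_⟩
      show eval x₀ (PFA g (fun b => c₀ (ε.symm (ε b))) i) * x₀ j -
          eval x₀ (PFA g (fun b => c₀ (ε.symm (ε b))) j) * x₀ i ≠ 0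
      rw [e1]
      exact hne'
    apply hA₀ (eval x₀ (PFA g c₀ j) / x₀ j)
    funext i
    have h5 := h4 i j
    have hj' : x₀ j ≠ 0 := hj
    rw [Pi.smul_apply, smul_eq_mul]
    field_simp
    linear_combination h5
  have hind' : ∀ t : Fin (r + r + 1) → ℂ, tgx P x₀ ≤ hyp (∑ a, t a • c₀ (ε.symm a)) → t = 0 := by
    intro t ht
    have h1 := hind (fun b => t (ε b)) (fun ξ => by
      have h3 := ht (ham_tgx hS hx₀ ξ)
      have h4 : ∑ a, t a • c₀ (ε.symm a) = ∑ b, t (ε b) • c₀ b := by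
        rw [← Equiv.sum_comp ε]
        simp
      rw [h4] at h3
      exact LinearMap.mem_ker.1 h3)
    funext a
    have h2 := congrFun h1 (ε.symm a)
    simpa using h2
  obtain ⟨O, hO, hsec⟩ := hNZQ N (k + (r + r + 1)) (r + r + 1) _ (tgx P) hcone x₀ ⟨hx₀, hx₀b⟩
    (fun a => c₀ (ε.symm a)) (fun a => hc₀ _) hind' O' hO' hmem'
  obtain ⟨l, hl, hchn, hzero⟩ := hITQ (r + r + 1) N k _ (tgx P) hcone b hHb hDb O hO
  obtain ⟨x, hxM, hxl, hxO⟩ := hsec l hl
  obtain ⟨V', hV'⟩ := ctl' hCTL (List.length_ofFn (f := l)).symm hchn V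
  have hconeL := (hCTL N k (k + (r + r + 1)) (List.ofFn l) _ (tgx P) hchn).1
  have hofFn : ∀ y : Cn N, (∀ c ∈ List.ofFn l, y ∈ hyp c) ↔ ∀ a, y ∈ hyp (l a) := by
    intro y
    rw [List.forall_mem_ofFn_iff]
  -- the vector field
  have hsm : ContDiff ℂ 2 (fun (x : Cn N) (i : Fin N) => eval x (PFA g (fun b => l (ε b)) i)) :=
    contDiff_pi.2 fun i => OMLM.contDiff_eval 2 _
  have hAh : ∀ (y : Cn N) (a : Fin (r + r + 1)),
      (fun i => eval y (PFA g (fun b => l (ε b)) i)) ∈ hyp (l a) := by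
    intro y a
    have h1 := congrArg (eval y) (hPFT N r g (fun b => l (ε b)) (ε.symm a))
    simp only [map_sum, map_mul, eval_C, map_zero, Equiv.apply_symm_apply] at h1
    show dot (l a) _ = 0
    rw [dot_apply]
    exact h1
  have hdiv : DivF V' (fun x i => eval x (PFA g (fun b => l (ε b)) i)) :=
    hV' _ hsm (fun y hy => ⟨PFA_tgx hS _ hy.1, (hofFn _).2 (hAh y)⟩)
      (hDVA N (k + (r + r + 1)) r g P b hJ hS hcone V hV (fun b => l (ε b)))
  obtain ⟨D, hD⟩ := hDSU N k (k + (r + r + 1)) (r + r + 2) _ _ hconeL (by omega) V'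
    (fun x i => eval x (PFA g (fun b => l (ε b)) i)) hsm
    (fun t y => by
      funext i
      exact LGRM.eval_smul_hom (PFA_hom g _ i) t y)
    (fun y hy => ⟨PFA_tgx hS _ hy.1.1, by
      rw [SetLike.mem_coe, Submodule.mem_iInf]
      intro c
      rw [Submodule.mem_iInf]
      intro hc
      exact (hofFn _).2 (hAh y) c hc⟩) hdiv
  have hclosed : IsClosed (insert (0 : Cn N) {x | x ∈ {x | x ∈ Zer P ∧ x ∉ Zer b} ∧
      ∀ c ∈ List.ofFn l, x ∈ hyp c}) := by
    have e1 : (insert (0 : Cn N) {x | x ∈ {x | x ∈ Zer P ∧ x ∉ Zer b} ∧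
        ∀ c ∈ List.ofFn l, x ∈ hyp c}) = Zer P ∩ ⋂ a, (hyp (l a) : Set (Cn N)) := by
      ext y
      rw [Set.mem_insert_iff, Set.mem_inter_iff, Set.mem_iInter]
      constructor
      · rintro (rfl | ⟨h1, h2⟩)
        · exact ⟨fun q hq => h0b q (hPb hq), fun a => (hyp (l a)).zero_mem⟩
        · exact ⟨h1.1, (hofFn y).1 h2⟩
      · rintro ⟨h1, h2⟩
        by_cases hb : y ∈ Zer b
        · exact Or.inl (hzero y hb h2)
        · exact Or.inr ⟨⟨h1, hb⟩, (hofFn y).2 h2⟩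
    rw [e1]
    exact (HLSM.isClosed_zer P).inter
      (isClosed_iInter fun a => (hyp (l a)).closed_of_finiteDimensional)
  obtain ⟨i, y, hy, hGy, t, ht, hfd⟩ := hD x ⟨hxM, (hofFn x).2 hxl⟩
  obtain ⟨t', ht'⟩ := hHLX N k _ _ hconeL hclosed D i y hy
  rw [hfd, hGy] at ht'
  obtain ⟨i', j', hij⟩ := hxO
  apply hij
  have h6 : ∀ m, t * eval x (PFA g (fun b => l (ε b)) m) = t' * x m := by
    intro m
    have := congrFun ht' m
    simpa using this
  have h7 : t * (eval x (PFA g (fun b => l (ε b)) i') * x j' -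
      eval x (PFA g (fun b => l (ε b)) j') * x i') = 0 := by
    linear_combination x j' * h6 i' - x i' * h6 j'
  exact (mul_eq_zero.1 h7).resolve_left ht

end Pool.Agent.Lib.MPc9b009.LF
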