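import Pool.Agent.Lib.MP_c9b009_ag.LF.SpecK

/-!
# MP_c9b009_ag, row LF, module LGC: the good part of `V(P)` is a smooth cone (helper9)
-/

set_option autoImplicit false

namespace Pool.Agent.Lib.MPc9b009.LF

open MvPolynomial Pool.Agent.Lib.MPc9b009.B5 Pool.Agent.Lib.MPc9b009.OD
  Pool.Agent.Lib.MPc9b009.PS Pool.Agent.Lib.MPc9b009.LS

namespace LGCM

theorem mem_tgx {N : ℕ} {P : Ideal (PR N)} {x t : Cn N} :
    t ∈ tgx P x ↔ ∀ q ∈ P, ∑ l, t l * eval x (pderiv l q) = 0 := by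
  show (∀ q ∈ P, ∑ l, t l * (aeval x : PR N →ₐ[ℂ] ℂ) (pderiv l q) = 0) ↔ _
  have h : ∀ q : PR N, (aeval x : PR N →ₐ[ℂ] ℂ) q = eval x q := fun q => by
    rw [MvPolynomial.aeval_def]
    rfl
  simp only [h]

theorem tzero {N d : ℕ} {P : Ideal (PR N)} (c : Crd P d) {x : Cn N} (hx : eval x c.Δ ≠ 0)
    {v : Cn N} (hJ : ∀ m, v (c.J m) = 0)
    (hF : ∀ a, ∑ j, eval x (pderiv j (c.F a)) * v j = 0) : v = 0 := by
  set A : Matrix (Fin (N - d)) (Fin (N - d)) ℂ :=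
    Matrix.of fun a b => eval x (pderiv (c.K b) (c.F a)) with hA
  have hdet : A.det ≠ 0 := by
    have : eval x c.Δ = A.det := by
      rw [Crd.Δ, RingHom.map_det]
      congr 1
    rwa [← this]
  have h1 : A.mulVec (fun b => v (c.K b)) = 0 := by
    funext a
    have h2 := hF a
    rw [← (Equiv.ofBijective _ c.bij).sum_comp, Fintype.sum_sum_type] at h2
    simp only [Equiv.ofBijective_apply, Sum.elim_inl, Sum.elim_inr, hJ, mul_zero,
      Finset.sum_const_zero, zero_add] at h2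
    simpa only [Matrix.mulVec, dotProduct, hA, Matrix.of_apply, Pi.zero_apply] using h2
  have h3 : (fun b => v (c.K b)) = 0 := Matrix.eq_zero_of_mulVec_eq_zero hdet h1
  funext l
  obtain ⟨s, rfl⟩ := c.bij.2 l
  rcases s with m | b
  · exact hJ m
  · exact congrFun h3 b

theorem J_inj {N d : ℕ} {P : Ideal (PR N)} (c : Crd P d) : Function.Injective c.J := by
  intro a b hab
  exact Sum.inl_injective (c.bij.1 (by simpa using hab))

theorem tgx_finrank {N d : ℕ} {P : Ideal (PR N)} (c : Crd P d) {x : Cn N}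
    (hx : eval x c.Δ ≠ 0) : Module.finrank ℂ (tgx P x) ≤ d := by
  set f : tgx P x →ₗ[ℂ] Cn d := (LinearMap.funLeft ℂ ℂ c.J).comp (tgx P x).subtype with hf
  have hi : Function.Injective f := by
    rw [injective_iff_map_eq_zero]
    rintro ⟨t, ht⟩ h0
    have h1 : t = 0 := by
      refine tzero c hx (fun m => congrFun h0 m) fun a => ?_
      rw [← mem_tgx.1 ht (c.F a) (c.mem a)]
      exact Finset.sum_congr rfl fun j _ => mul_comm _ _
    exact Subtype.ext h1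
  have := LinearMap.finrank_le_finrank_of_injective hi
  rwa [Module.finrank_fin_fun] at this

theorem isOpen_eval {N : ℕ} (h : PR N) : IsOpen {z : Cn N | eval z h ≠ 0} :=
  isOpen_ne_fun (MvPolynomial.continuous_eval _) continuous_const

theorem tgx_le {N : ℕ} {P : Ideal (PR N)} (hP : Hom P) (t : ℂ) (x : Cn N) :
    tgx P x ≤ tgx P (t • x) := by
  intro v hv
  rw [mem_tgx]
  intro q hq
  have h1 : ∀ e, ∑ l, v l * eval (t • x) (pderiv l (homogeneousComponent e q)) = 0 := by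
    intro e
    have h2 := mem_tgx.1 hv _ (hP q hq e)
    have h3 : ∀ l, v l * eval (t • x) (pderiv l (homogeneousComponent e q)) =
        t ^ (e - 1) * (v l * eval x (pderiv l (homogeneousComponent e q))) := by
      intro l
      rw [LGRM.eval_smul_hom ((homogeneousComponent_isHomogeneous e q).pderiv) t x]
      ring
    rw [Finset.sum_congr rfl fun l _ => h3 l, ← Finset.mul_sum, h2, mul_zero]
  have h4 : ∀ l, v l * eval (t • x) (pderiv l q) = ∑ e ∈ Finset.range (q.totalDegree + 1),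
      v l * eval (t • x) (pderiv l (homogeneousComponent e q)) := by
    intro l
    rw [← Finset.mul_sum, ← map_sum, ← map_sum, sum_homogeneousComponent]
  rw [Finset.sum_congr rfl fun l _ => h4 l, Finset.sum_comm]
  exact Finset.sum_eq_zero fun e _ => h1 e

theorem chart (h2 : SpecPVB) {N d : ℕ} {P b : Ideal (PR N)} (hP : P.IsPrime)
    (htr : Algebra.trdeg ℂ (PR N ⧸ P) = ((d : ℕ) : Cardinal)) {x : Cn N} (hx : x ∈ Zer P)
    (hxb : x ∉ Zer b) (c : Crd P d) (hc : eval x c.Δ ≠ 0) {O : Set (Cn N)} (oO : IsOpen O)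
    (hxO : x ∈ O) : ∃ ch : Cht N d {x | x ∈ Zer P ∧ x ∉ Zer b} (tgx P), ch.I = c.J ∧ x ∈ ch.W ∧
      ch.W ⊆ O ∧ ∀ y ∈ ch.B, eval (ch.G y) c.Δ ≠ 0 := by
  obtain ⟨h, hb, hh⟩ : ∃ h ∈ b, eval x h ≠ 0 := by
    by_contra hcon
    push Not at hcon
    exact hxb fun h hb => hcon h hb
  obtain ⟨W, B, G, oW, oB, hxW, sG, hB, hW⟩ :=
    PS.specINV N d c.F c.J x (J_inj c) (fun a => hx _ (c.mem a)) fun v hv0 hv => tzero c hc hv0 hv
  have hy₀ := hW x hxW fun a => hx _ (c.mem a)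
  obtain ⟨ε, hε, hbB, hbZ⟩ := h2 N d P hP htr c x hx hc B G oB sG hy₀.1 hy₀.2
    fun y hy => (hB y hy).2
  set O' : Set (Cn N) := O ∩ ({z | eval z c.Δ ≠ 0} ∩ {z | eval z h ≠ 0}) with hO
  have oO' : IsOpen O' := oO.inter ((isOpen_eval _).inter (isOpen_eval _))
  set y₀ : Cn d := fun m => x (c.J m) with hy
  have oB' : IsOpen (Metric.ball y₀ ε ∩ G ⁻¹' O') :=
    (sG.continuousOn.mono hbB).isOpen_inter_preimage Metric.isOpen_ball oO'
  have sG' : ContDiffOn ℂ 3 G (Metric.ball y₀ ε ∩ G ⁻¹' O') :=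
    sG.mono (Set.inter_subset_left.trans hbB)
  have hco : ∀ y ∈ Metric.ball y₀ ε ∩ G ⁻¹' O', ∀ m, G y (c.J m) = y m :=
    fun y hy => (hB y (hbB hy.1)).2.2
  have hmem : ∀ y ∈ Metric.ball y₀ ε ∩ G ⁻¹' O', G y ∈ {x | x ∈ Zer P ∧ x ∉ Zer b} := fun y hy =>
    ⟨hbZ y hy.1, fun hz => hy.2.2.2 (hz h hb)⟩
  refine ⟨⟨c.J, W ∩ ((fun z : Cn N => fun m => z (c.J m)) ⁻¹' Metric.ball y₀ ε ∩ O'),
    Metric.ball y₀ ε ∩ G ⁻¹' O', G, ?_, oB', sG', ?_, hco, ?_, ?_⟩, rfl, ?_, ?_, ?_⟩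
  · refine oW.inter (IsOpen.inter ?_ oO')
    exact Metric.isOpen_ball.preimage (continuous_pi fun m => continuous_apply (c.J m))
  · intro y hy
    refine ⟨hmem y hy, (hB y (hbB hy.1)).1, ?_, hy.2⟩
    have : (fun m => G y (c.J m)) = y := funext (hco y hy)
    show (fun m => G y (c.J m)) ∈ Metric.ball y₀ ε
    rw [this]
    exact hy.1
  · intro z hz hzW
    obtain ⟨hb', hg⟩ := hW z hzW.1 fun a => hz.1 _ (c.mem a)
    refine ⟨⟨hzW.2.1, ?_⟩, hg⟩
    show G (fun m => z (c.J m)) ∈ O'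
    rw [hg]
    exact hzW.2.2
  · intro y hy
    refine Submodule.eq_of_le_of_finrank_le ?_ ?_
    · rintro _ ⟨v, rfl⟩
      rw [mem_tgx]
      intro q hq
      have h5 := LGRM.fderiv_tan oB' sG' (fun z hz => hbZ z hz.1 q hq) hy v
      rw [← h5]
      exact Finset.sum_congr rfl fun j _ => mul_comm _ _
    · rw [LGRM.range_finrank oB' sG' hco hy]
      exact tgx_finrank c hy.2.2.1
  · exact ⟨hxW, Metric.mem_ball_self hε, hxO, hc, hh⟩
  · exact fun z hz => hz.2.2.1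
  · exact fun y hy => hy.2.2.1

end LGCM

open LGCM

theorem specLGC (_h1 : SpecVJP) (h2 : SpecPVB) : SpecLGC := by
  intro N d P b hP hhP hhb htr h0 hcov
  refine ⟨⟨?_, ?_, ?_, ?_⟩, ?_⟩
  · intro x hx
    obtain ⟨c, hc⟩ := hcov x hx.1 hx.2
    obtain ⟨ch, -, hW, -⟩ := chart h2 hP htr hx.1 hx.2 c hc isOpen_univ (Set.mem_univ x)
    exact ⟨ch, hW⟩
  · exact fun h => h.2 h0
  · intro x hx t ht
    have hi : t⁻¹ • (t • x) = x := by rw [smul_smul, inv_mul_cancel₀ ht, one_smul]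
    refine ⟨⟨LGRM.zer_smul hhP t hx.1, fun hb => hx.2 ?_⟩, ?_⟩
    · rw [← hi]
      exact LGRM.zer_smul hhb t⁻¹ hb
    · refine le_antisymm ?_ (tgx_le hhP t x)
      have h3 := tgx_le hhP t⁻¹ (t • x)
      rwa [hi] at h3
  · intro x hx
    rw [mem_tgx]
    intro q hq
    rw [← LGRM.euler hhP hx.1 hq]
    exact Finset.sum_congr rfl fun j _ => mul_comm _ _
  · intro x hx hxb c hc O oO hxO
    exact chart h2 hP htr hx hxb c hc oO hxO

end Pool.Agent.Lib.MPc9b009.LF
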