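import Pool.Agent.Lib.MP_c9b009_ag.LF.SpecA
import Pool.Agent.Lib.MP_c9b009_ag.LS.ARE

/-!
# MP_c9b009_ag, row LF, module LNC: complex coordinates of a vector field (helper80)
-/

set_option autoImplicit false

namespace Pool.Agent.Lib.MPc9b009.LF

open MvPolynomial Pool.Agent.Lib.MPc9b009.B5 Pool.Agent.Lib.MPc9b009.OD
  Pool.Agent.Lib.MPc9b009.PS Pool.Agent.Lib.MPc9b009.LS

namespace LNCM

open Pool.Agent.Lib.MPc9b009.LS.AREM

variable {N : ℕ} {κ τ : Type} {E : Type} [Field E] [Algebra ℂ E]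

/-! ### the functional on the coefficients -/

theorem tr_map (p₀ : Cn N) (q : PR N) :
    tr E p₀ q = MvPolynomial.map (algebraMap ℂ E) (tr ℂ p₀ q) := by
  induction q using MvPolynomial.induction_on with
  | C a =>
    have h1 : (C a : PR N) = algebraMap ℂ (PR N) a := rfl
    rw [h1, AlgHom.commutes, AlgHom.commutes]
    simp [MvPolynomial.algebraMap_eq]
  | add p q hp hq => rw [map_add, map_add, map_add, hp, hq]
  | mul_X p i hp =>
    rw [map_mul, map_mul, map_mul, hp]
    congr 1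
    simp [tr]

theorem hat_sub (lam : E →ₗ[ℂ] ℂ) (Q Q' : MvPolynomial (Fin N) E) :
    hat lam (Q - Q') = hat lam Q - hat lam Q' := by
  ext m
  rw [coeff_sub, coeff_hat, coeff_hat, coeff_hat, coeff_sub, map_sub]

theorem hat_pderiv (lam : E →ₗ[ℂ] ℂ) (Q : MvPolynomial (Fin N) E) (l : Fin N) :
    hat lam (pderiv l Q) = pderiv l (hat lam Q) := by
  ext m
  rw [coeff_hat, coeff_pderiv, coeff_pderiv, coeff_hat]
  have h : coeff (m + Finsupp.single l 1) Q * ((m l : E) + 1) =
      ((m l : ℂ) + 1) • coeff (m + Finsupp.single l 1) Q := by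
    rw [Algebra.smul_def, map_add, map_natCast, map_one, mul_comm]
  rw [h, map_smul, smul_eq_mul, mul_comm]

theorem hat_gbi (lam : E →ₗ[ℂ] ℂ) (f : κ → PR N) (blk : κ → τ) (t : τ) (p₀ : Cn N)
    {Q : MvPolynomial (Fin N) E} (hQ : Q ∈ gbi f blk t p₀ E) : hat lam Q ∈ gbi f blk t p₀ ℂ := by
  have key : ∀ a : MvPolynomial (Fin N) E, hat lam (a * Q) ∈ gbi f blk t p₀ ℂ := by
    refine Submodule.span_induction (p := fun Q _ => ∀ a : MvPolynomial (Fin N) E,
      hat lam (a * Q) ∈ gbi f blk t p₀ ℂ) ?_ ?_ ?_ ?_ hQ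
    · rintro _ ⟨j, hj, rfl⟩ a
      simp only
      rw [tr_map, hat_mul]
      exact Ideal.mul_mem_left _ _ (Ideal.subset_span ⟨j, hj, rfl⟩)
    · intro a
      rw [mul_zero, hat_zero]
      exact Ideal.zero_mem _
    · intro x y _ _ hx hy a
      rw [mul_add, hat_add]
      exact Ideal.add_mem _ (hx a) (hy a)
    · intro r x _ hx a
      rw [smul_eq_mul, ← mul_assoc]
      exact hx _
  have h := key 1
  rwa [one_mul] at h

theorem hat_YI (lam : E →ₗ[ℂ] ℂ) (k : ℕ) {Q : MvPolynomial (Fin N) E} (hQ : Q ∈ YI N k E) :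
    hat lam Q ∈ YI N k ℂ := by
  unfold YI at hQ ⊢
  rw [mem_pow_idealOfVars_iff'] at hQ ⊢
  intro m hm
  rw [coeff_hat, hQ m hm, map_zero]

theorem hat_sup (lam : E →ₗ[ℂ] ℂ) (k : ℕ) (f : κ → PR N) (blk : κ → τ) (t : τ) (p₀ : Cn N)
    {Q : MvPolynomial (Fin N) E} (hQ : Q ∈ gbi f blk t p₀ E ⊔ YI N k E) :
    hat lam Q ∈ gbi f blk t p₀ ℂ ⊔ YI N k ℂ := by
  obtain ⟨x, hx, y, hy, rfl⟩ := Submodule.mem_sup.1 hQ
  rw [hat_add]
  exact Submodule.add_mem_sup (hat_gbi lam f blk t p₀ hx) (hat_YI lam k hy)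

/-- the coordinates satisfy the conditions over `ℂ` -/
theorem apE_hat (lam : E →ₗ[ℂ] ℂ) (k : ℕ) (f : κ → PR N) (blk : κ → τ) (ι : τ)
    (π : Fin N → Fin N → PR N) (p₀ : Cn N) (u : Fin N → MvPolynomial (Fin N) E)
    (hu : apE k f blk ι π p₀ E u) : apE k f blk ι π p₀ ℂ (fun l => hat lam (u l)) := by
  obtain ⟨h1, h2⟩ := hu
  constructor
  · intro i
    have h := hat_sup lam k f blk _ p₀ (h1 i)
    rw [hat_sum] at h
    have e : ∀ l : Fin N, hat lam (u l * pderiv l (tr E p₀ (f i))) =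
        hat lam (u l) * pderiv l (tr ℂ p₀ (f i)) := by
      intro l
      rw [tr_map, pderiv_map, hat_mul]
    rwa [Finset.sum_congr rfl fun l _ => e l] at h
  · intro i j
    have h := hat_sup lam k f blk _ p₀ (h2 i j)
    rw [hat_sub, hat_sum, hat_sum] at h
    have e : ∀ l : Fin N, hat lam (u l * pderiv l (tr E p₀ (π i j))) =
        hat lam (u l) * pderiv l (tr ℂ p₀ (π i j)) := by
      intro l
      rw [tr_map, pderiv_map, hat_mul]
    have e2 : ∀ l : Fin N, hat lam (pderiv l (u i) * tr E p₀ (π l j) +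
        pderiv l (u j) * tr E p₀ (π i l)) = pderiv l (hat lam (u i)) * tr ℂ p₀ (π l j) +
        pderiv l (hat lam (u j)) * tr ℂ p₀ (π i l) := by
      intro l
      rw [hat_add, tr_map (E := E), tr_map (E := E), hat_mul, hat_mul, hat_pderiv, hat_pderiv]
    rwa [Finset.sum_congr rfl fun l _ => e l, Finset.sum_congr rfl fun l _ => e2 l] at h

/-! ### the translation back -/

/-- the translation `y ↦ x - p₀` -/
noncomputable def bk (p₀ : Cn N) : PR N →ₐ[ℂ] PR N := aeval fun i => X i - C (p₀ i)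

theorem tr_bk (p₀ : Cn N) (q : PR N) : tr ℂ p₀ (bk p₀ q) = q := by
  have h : (tr ℂ p₀).comp (bk p₀) = AlgHom.id ℂ (PR N) := by
    apply MvPolynomial.algHom_ext
    intro i
    simp [tr, bk]
  exact congrArg (fun F : PR N →ₐ[ℂ] PR N => F q) h

theorem bk_tr (p₀ : Cn N) (q : PR N) : bk p₀ (tr ℂ p₀ q) = q := by
  have h : (bk p₀).comp (tr ℂ p₀) = AlgHom.id ℂ (PR N) := by
    apply MvPolynomial.algHom_ext
    intro i
    simp [tr, bk]
  exact congrArg (fun F : PR N →ₐ[ℂ] PR N => F q) h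

theorem tr_pderiv (p₀ : Cn N) (q : PR N) (l : Fin N) :
    tr ℂ p₀ (pderiv l q) = pderiv l (tr ℂ p₀ q) := by
  induction q using MvPolynomial.induction_on with
  | C a =>
    have h1 : (C a : PR N) = algebraMap ℂ (PR N) a := rfl
    rw [pderiv_C, h1, AlgHom.commutes, map_zero, MvPolynomial.algebraMap_eq, pderiv_C]
  | add p q hp hq => rw [map_add, map_add, hp, hq, map_add, map_add]
  | mul_X p i hp =>
    have hX : tr ℂ p₀ (X i) = X i + C (p₀ i) := by simp [tr]
    have h2 : tr ℂ p₀ (Pi.single (M := fun _ => PR N) l 1 i) =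
        Pi.single (M := fun _ => PR N) l 1 i := by
      by_cases h : i = l
      · subst h
        rw [Pi.single_eq_same, map_one]
      · rw [Pi.single_eq_of_ne h, map_zero]
    rw [pderiv_mul, pderiv_X, map_add, map_mul, map_mul, hp, hX, h2, map_mul, hX, pderiv_mul,
      map_add, pderiv_X, pderiv_C, add_zero]

theorem bk_sup (k : ℕ) (f : κ → PR N) (blk : κ → τ) (t : τ) (p₀ : Cn N)
    {Q : PR N} (hQ : Q ∈ gbi f blk t p₀ ℂ ⊔ YI N k ℂ) :
    bk p₀ Q ∈ Ideal.span (f '' {l | blk l = t}) ⊔ mx p₀ ^ (k + 1) := by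
  have h := Ideal.mem_map_of_mem (bk p₀) hQ
  rw [Ideal.map_sup] at h
  have h1 : Ideal.map (bk p₀) (gbi f blk t p₀ ℂ) ≤ Ideal.span (f '' {l | blk l = t}) := by
    unfold gbi
    rw [Ideal.map_span]
    refine Ideal.span_le.2 ?_
    rintro _ ⟨_, ⟨j, hj, rfl⟩, rfl⟩
    show bk p₀ (tr ℂ p₀ (f j)) ∈ Ideal.span (f '' {l | blk l = t})
    rw [bk_tr]
    exact Ideal.subset_span ⟨j, hj, rfl⟩
  have h2 : Ideal.map (bk p₀) (YI N k ℂ) ≤ mx p₀ ^ (k + 1) := by
    unfold YI
    rw [Ideal.map_pow]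
    refine Ideal.pow_right_mono ?_ _
    rw [idealOfVars, Ideal.map_span]
    refine Ideal.span_le.2 ?_
    rintro _ ⟨_, ⟨i, rfl⟩, rfl⟩
    show bk p₀ (X i) ∈ mx p₀
    rw [mx, RingHom.mem_ker]
    simp [bk]
  exact (sup_le_sup h1 h2) h

/-- the conditions over `ℂ`, translated back -/
theorem back (k : ℕ) (f : κ → PR N) (blk : κ → τ) (ι : τ)
    (π : Fin N → Fin N → PR N) (p₀ : Cn N) (h : Fin N → PR N)
    (hu : apE k f blk ι π p₀ ℂ h) :
    (∀ i, vf (fun l => bk p₀ (h l)) (f i) ∈ bi f blk i ⊔ mx p₀ ^ (k + 1)) ∧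
      ∀ i j, dfc π (fun l => bk p₀ (h l)) i j ∈
        Ideal.span (f '' {l | blk l = ι}) ⊔ mx p₀ ^ (k + 1) := by
  have e : ∀ q : PR N, tr ℂ p₀ (vf (fun l => bk p₀ (h l)) q) =
      ∑ l, h l * pderiv l (tr ℂ p₀ q) := by
    intro q
    rw [vf, map_sum]
    refine Finset.sum_congr rfl fun l _ => ?_
    rw [map_mul, tr_bk, tr_pderiv]
  constructor
  · intro i
    have h1 := bk_sup k f blk _ p₀ (hu.1 i)
    rw [← e, bk_tr] at h1
    exact h1
  · intro i j
    have h1 := bk_sup k f blk _ p₀ (hu.2 i j)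
    have e2 : tr ℂ p₀ (dfc π (fun l => bk p₀ (h l)) i j) =
        ∑ l, h l * pderiv l (tr ℂ p₀ (π i j)) -
          ∑ l, (pderiv l (h i) * tr ℂ p₀ (π l j) + pderiv l (h j) * tr ℂ p₀ (π i l)) := by
      rw [dfc, map_sub, e, map_sum]
      congr 1
      refine Finset.sum_congr rfl fun l _ => ?_
      rw [map_add, map_mul, map_mul, tr_pderiv, tr_pderiv, tr_bk, tr_bk]
    rw [← e2, bk_tr] at h1
    exact h1

end LNCM

open LNCM Pool.Agent.Lib.MPc9b009.LS.AREM in
/-- **LNC**: complex coordinates of a vector field with coefficients in `E`. -/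
theorem specLNC : SpecLNC := by
  classical
  intro N k κ τ _ _ f blk ι π p₀ E _ _ u hu
  have hs : LinearIndepOn ℂ id ({1} : Set E) :=
    LinearIndepOn.singleton (v := id) one_ne_zero
  let bs := Module.Basis.extend hs
  have ho : (1 : E) ∈ hs.extend (Set.subset_univ _) :=
    Module.Basis.subset_extend hs (Set.mem_singleton _)
  let o : hs.extend (Set.subset_univ ({1} : Set E)) := ⟨1, ho⟩
  have hbo : bs o = 1 := Module.Basis.extend_apply_self hs o
  let A₀ : Finset (hs.extend (Set.subset_univ ({1} : Set E))) :=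
    Finset.univ.biUnion fun l : Fin N => (u l).support.biUnion fun m =>
      (bs.repr (coeff m (u l))).support
  let A : Finset (hs.extend (Set.subset_univ ({1} : Set E))) := A₀.erase o
  have hdec : ∀ l, u l = ∑ α ∈ insert o A,
      C (bs α) * map (algebraMap ℂ E) (hat (bs.coord α) (u l)) := by
    intro l
    ext m
    rw [coeff_sum]
    simp only [coeff_C_mul, coeff_map, coeff_hat, Module.Basis.coord_apply]
    have h1 : ∀ α, bs α * algebraMap ℂ E (bs.repr (coeff m (u l)) α)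
        = bs.repr (coeff m (u l)) α • bs α := fun α => by
      rw [Algebra.smul_def, mul_comm]
    simp only [h1]
    by_cases hm : m ∈ (u l).support
    · have hsub : (bs.repr (coeff m (u l))).support ⊆ insert o A := by
        intro α hα
        by_cases hαo : α = o
        · rw [hαo]
          exact Finset.mem_insert_self _ _
        · refine Finset.mem_insert_of_mem (Finset.mem_erase.2 ⟨hαo, ?_⟩)
          exact Finset.mem_biUnion.2 ⟨l, Finset.mem_univ _, Finset.mem_biUnion.2 ⟨m, hm, hα⟩⟩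
      rw [← Finset.sum_subset hsub]
      · have h2 := bs.linearCombination_repr (coeff m (u l))
        rw [Finsupp.linearCombination_apply, Finsupp.sum] at h2
        exact h2.symm
      · intro α _ hα
        rw [Finsupp.notMem_support_iff.1 hα, zero_smul]
    · rw [notMem_support_iff.1 hm]
      simp
  let idx : Fin (A.card + 1) → hs.extend (Set.subset_univ ({1} : Set E)) :=
    Fin.cons o fun i => ((A.equivFin.symm i : A) : hs.extend (Set.subset_univ ({1} : Set E)))
  have hidx : Function.Injective idx := by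
    rw [Fin.cons_injective_iff]
    constructor
    · rintro ⟨i, hi⟩
      have h1 : ((A.equivFin.symm i : A) : hs.extend (Set.subset_univ ({1} : Set E))) = o := hi
      have h2 := (A.equivFin.symm i).2
      rw [h1] at h2
      exact (Finset.mem_erase.1 h2).1 rfl
    · exact Subtype.val_injective.comp A.equivFin.symm.injective
  refine ⟨A.card, fun α => bs (idx α), fun α l => bk p₀ (hat (bs.coord (idx α)) (u l)),
    bs.linearIndependent.comp _ hidx, hbo, fun l => ?_, fun α => ?_⟩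
  · rw [Fin.sum_univ_succ]
    conv_lhs => rw [hdec l]
    have hoA : o ∉ A := fun h => (Finset.mem_erase.1 h).1 rfl
    rw [Finset.sum_insert hoA]
    simp only [tr_bk]
    congr 1
    rw [← Finset.sum_coe_sort, ← A.equivFin.symm.sum_comp]
    rfl
  · exact back k f blk ι π p₀ _ (apE_hat (bs.coord (idx α)) k f blk ι π p₀ u hu)

end Pool.Agent.Lib.MPc9b009.LF
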