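import Pool.Agent.Lib.MP_c9b009_ag.LF.STI

/-!
# MP_c9b009_ag, row LF, module LOC: local data of the volume form
-/

set_option autoImplicit false

namespace Pool.Agent.Lib.MPc9b009.LF

open MvPolynomial Pool.Agent.Lib.MPc9b009.B5 Pool.Agent.Lib.MPc9b009.OD
  Pool.Agent.Lib.MPc9b009.PS Pool.Agent.Lib.MPc9b009.LS

namespace LOCM

theorem vf_X {N : ℕ} (v : Fin N → PR N) (l : Fin N) : vf v (X l) = v l := by
  rw [vf, Finset.sum_eq_single l]
  · rw [pderiv_X_self, mul_one]
  · intro k _ hk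
    rw [pderiv_X_of_ne hk.symm, mul_zero]
  · intro h
    exact absurd (Finset.mem_univ _) h

/-- common denominators -/
theorem cden {N : ℕ} {P : Ideal (PR N)} {L : Type} [Field L] [Algebra ℂ L]
    {φ : PR N →ₐ[ℂ] L} (hG : Gen P L φ) {n : ℕ} (t : Fin n → L) :
    ∃ (b : PR N) (w : Fin n → PR N), φ b ≠ 0 ∧ ∀ l, φ b * t l = φ (w l) := by
  classical
  have h1 : ∀ l, ∃ b a : PR N, φ b ≠ 0 ∧ φ b * t l = φ a := by
    intro l
    obtain ⟨a, b, hb, hab⟩ := hG.frac (t l)
    exact ⟨b, a, hb, by rw [mul_comm]; exact hab⟩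
  choose b a hb hab using h1
  refine ⟨∏ l, b l, fun l => a l * ∏ x ∈ Finset.univ \ {l}, b x, ?_, ?_⟩
  · rw [map_prod]
    exact Finset.prod_ne_zero_iff.2 (fun l _ => hb l)
  · intro l
    have h2 : ∏ l, b l = b l * ∏ x ∈ Finset.univ \ {l}, b x := by
      have := Finset.prod_update_of_mem (Finset.mem_univ l) b (b l)
      rw [← this, Function.update_eq_self]
    rw [h2, map_mul, map_mul, ← hab]
    ring

/-- every derivation of the function field in the local coordinates -/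
theorem expd (hVJP : SpecVJP) {N d : ℕ} {P : Ideal (PR N)} (hP : P.IsPrime)
    (hd : Algebra.trdeg ℂ (PR N ⧸ P) = ((d : ℕ) : Cardinal)) {L : Type} [Field L] [Algebra ℂ L]
    {φ : PR N →ₐ[ℂ] L} (hG : Gen P L φ) (c : Crd P d) (D : Derivation ℂ L L) (l : Fin N) :
    φ c.Δ * D (φ (X l)) = ∑ i, D (φ (X (c.J i))) * φ (c.V i l) := by
  obtain ⟨b, w, hb, hw⟩ := cden hG (fun l => D (φ (X l)))
  have h1 : ∀ a, vf w (c.F a) ∈ P := by
    intro a
    rw [← hG.ker, vf, map_sum]
    have h2 : D (φ (c.F a)) = ∑ l, φ (pderiv l (c.F a)) * D (φ (X l)) :=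
      BSTM.der_poly φ D (c.F a)
    rw [(hG.ker _).2 (c.mem a), map_zero] at h2
    have h3 : ∑ l, φ (w l * pderiv l (c.F a)) =
        φ b * ∑ l, φ (pderiv l (c.F a)) * D (φ (X l)) := by
      rw [Finset.mul_sum]
      refine Finset.sum_congr rfl (fun l _ => ?_)
      rw [map_mul, ← hw]
      ring
    rw [h3, ← h2, mul_zero]
  have h2 := (hVJP N d P hP hd c).2.2.1 w P h1 l
  rw [← hG.ker, map_sub, map_mul, map_sum, sub_eq_zero, ← hw] at h2
  have h3 : φ b * (φ c.Δ * D (φ (X l))) = φ b * ∑ i, D (φ (X (c.J i))) * φ (c.V i l) := by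
    calc φ b * (φ c.Δ * D (φ (X l))) = φ c.Δ * (φ b * D (φ (X l))) := by ring
    _ = _ := by
      rw [h2, Finset.mul_sum]
      refine Finset.sum_congr rfl (fun i _ => ?_)
      rw [map_mul, ← hw]
      ring
  exact mul_left_cancel₀ hb h3

section

variable {N d : ℕ} {W : Set (Fin N → PR N)} {L : Type} [Field L] [Algebra ℂ L]
  {φ : PR N →ₐ[ℂ] L} (I : InvV d W φ)

/-- the Jacobian determinants in the local coordinates -/
theorem rho_eq (hVJP : SpecVJP) {P : Ideal (PR N)} (hP : P.IsPrime)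
    (hd : Algebra.trdeg ℂ (PR N ⧸ P) = ((d : ℕ) : Cardinal))
    (hG : Gen P L φ) (c : Crd P d) (B : Fin d → Fin N) :
    φ c.Δ ^ d * I.rho B =
      I.rho c.J * φ (Matrix.of fun i j => c.V i (B j)).det := by
  have h1 : φ c.Δ • (Matrix.of fun i j => I.dd i (φ (X (B j)))) =
      (Matrix.of fun i j => I.dd i (φ (X (c.J j)))) *
        (Matrix.of fun i j => c.V i (B j)).map φ := by
    ext i j
    rw [Matrix.smul_apply, Matrix.of_apply, smul_eq_mul, expd hVJP hP hd hG c, Matrix.mul_apply]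
    rfl
  have h2 := congrArg Matrix.det h1
  rw [Matrix.det_smul, Matrix.det_mul, Fintype.card_fin] at h2
  rw [InvV.rho, InvV.rho, h2]
  congr 1
  exact (AlgHom.map_det φ _).symm

theorem lamB_eq (hVJP : SpecVJP) {P : Ideal (PR N)} (hP : P.IsPrime)
    (hd : Algebra.trdeg ℂ (PR N ⧸ P) = ((d : ℕ) : Cardinal))
    (hG : Gen P L φ) (c : Crd P d) (B : Fin d → Fin N) :
    φ c.Δ ^ (d * I.M) * I.lamB B =
      I.lamB c.J * φ ((Matrix.of fun i j => c.V i (B j)).det ^ I.M) := by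
  rw [InvV.lamB, InvV.lamB, map_pow]
  calc φ c.Δ ^ (d * I.M) * (I.lam * I.rho B ^ I.M) =
      I.lam * (φ c.Δ ^ d * I.rho B) ^ I.M := by rw [mul_pow, ← pow_mul]; ring
  _ = _ := by rw [rho_eq I hVJP hP hd hG c B, mul_pow]; ring

/-- one column replaced -/
theorem rho_upd (hVJP : SpecVJP) {P : Ideal (PR N)} (hP : P.IsPrime)
    (hd : Algebra.trdeg ℂ (PR N ⧸ P) = ((d : ℕ) : Cardinal))
    (hG : Gen P L φ) (c : Crd P d) (j : Fin d) (l : Fin N) :
    φ c.Δ * I.rho (Function.update c.J j l) = I.rho c.J * φ (c.V j l) := by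
  classical
  set A : Matrix (Fin d) (Fin d) L := Matrix.of fun i j => I.dd i (φ (X (c.J j))) with hA
  have h1 : (Matrix.of fun i m => I.dd i (φ (X (Function.update c.J j l m)))) =
      A.updateCol j (fun i => I.dd i (φ (X l))) := by
    ext i m
    rw [Matrix.of_apply, Matrix.updateCol_apply]
    by_cases hm : m = j
    · subst hm
      rw [Function.update_self, if_pos rfl]
    · rw [Function.update_of_ne hm, if_neg hm, hA, Matrix.of_apply]
  have h2 : φ c.Δ • (fun i => I.dd i (φ (X l))) = A.mulVec (fun k => φ (c.V k l)) := by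
    funext i
    rw [Pi.smul_apply, smul_eq_mul, expd hVJP hP hd hG c, Matrix.mulVec, dotProduct]
    rfl
  have h3 : φ c.Δ * I.rho (Function.update c.J j l) =
      (A.updateCol j (φ c.Δ • (fun i => I.dd i (φ (X l))))).det := by
    rw [Matrix.det_updateCol_smul, InvV.rho, h1]
  rw [h3, h2, ← Matrix.cramer_apply, Matrix.cramer_eq_adjugate_mulVec, Matrix.mulVec_mulVec,
    Matrix.adjugate_mul, Matrix.smul_mulVec, Matrix.one_mulVec]
  rfl

end

end LOCM

open LOCM STIM

theorem specLOC (hVJP : SpecVJP) (hRHO : SpecRHO) : SpecLOC := by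
  classical
  intro N d P hP hd L _ _ φ hG W hW I
  have hker : ∀ {p q : PR N}, φ p = φ q → p - q ∈ P := by
    intro p q h
    rw [← hG.ker, map_sub, h, sub_self]
  have hPe : ∀ x ∈ Zer P, ∀ {p q : PR N}, φ p = φ q → eval x p = eval x q := by
    intro x hx p q h
    have h1 := hx _ (hker h)
    rw [map_sub] at h1
    exact sub_eq_zero.1 h1
  refine ⟨?_, ?_, ?_⟩
  · rintro x hx c hΔ ⟨B, a', b', h', ha', hb'⟩ ⟨a, b, h, hb⟩
    refine ⟨a, b, hΔ, ?_, hb, h⟩
    have h1 := lamB_eq I hVJP hP hd hG c B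
    have h2 : φ (b * (c.Δ ^ (d * I.M) * a')) =
        φ (b' * (a * (Matrix.of fun i j => c.V i (B j)).det ^ I.M)) := by
      rw [map_mul, map_mul, map_mul, map_mul, map_pow, ← h', ← h]
      linear_combination (φ b * φ b') * h1
    have h3 := hPe x hx h2
    rw [map_mul, map_mul, map_mul, map_mul, map_pow, map_pow] at h3
    intro ha
    rw [ha, zero_mul, mul_zero] at h3
    exact mul_ne_zero hb (mul_ne_zero (pow_ne_zero _ hΔ) ha') h3
  · rintro x hx c a b ⟨hΔ, ha, hb, h⟩ v hv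
    obtain ⟨D, hD⟩ := ext_gen P hP φ hG v (hW v hv)
    have hDX : ∀ l, D (φ (X l)) = φ (v l) := by
      intro l
      rw [hD, vf_X]
    set tr : L := ∑ i, I.dd i (φ (v (I.A i))) with htr
    have h1 : D (I.rho c.J) =
        ∑ j, ∑ l, φ (pderiv l (v (c.J j))) * I.rho (Function.update c.J j l) -
          tr * I.rho c.J :=
      hRHO N d P hP hd L inferInstance inferInstance φ hG W I v D hDX c.J
    have h2 : D I.lam = (I.M : L) * tr * I.lam := I.inv v hv D hDX
    have h3 : φ c.Δ * ∑ j, ∑ l, φ (pderiv l (v (c.J j))) * I.rho (Function.update c.J j l) =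
        I.rho c.J * φ (∑ j, vf (c.V j) (v (c.J j))) := by
      rw [Finset.mul_sum, map_sum, Finset.mul_sum]
      refine Finset.sum_congr rfl (fun j _ => ?_)
      rw [vf, map_sum, Finset.mul_sum, Finset.mul_sum]
      refine Finset.sum_congr rfl (fun l _ => ?_)
      have h4 := rho_upd I hVJP hP hd hG c j l
      rw [map_mul]
      linear_combination φ (pderiv l (v (c.J j))) * h4
    have hM : ∃ m, I.M = m + 1 := ⟨I.M - 1, (Nat.succ_pred_eq_of_pos I.pos).symm⟩
    obtain ⟨m, hm⟩ := hM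
    have h4 : φ c.Δ * D (I.lamB c.J) =
        (I.M : L) * φ (∑ j, vf (c.V j) (v (c.J j))) * I.lamB c.J := by
      rw [InvV.lamB, Derivation.leibniz, Derivation.leibniz_pow, smul_eq_mul, smul_eq_mul,
        nsmul_eq_mul, smul_eq_mul, h2, h1, hm, Nat.add_sub_cancel]
      rw [pow_succ]
      linear_combination ((m + 1 : ℕ) : L) * I.lam * I.rho c.J ^ m * h3
    have h5 : D (φ b * I.lamB c.J) = φ b * D (I.lamB c.J) + I.lamB c.J * φ (vf v b) := by
      rw [Derivation.leibniz, smul_eq_mul, smul_eq_mul, hD]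
    rw [h, hD] at h5
    rw [← hG.ker]
    have h6 : φ (c.Δ * (b * vf v a - a * vf v b) -
        (I.M : PR N) * (∑ j, vf (c.V j) (v (c.J j))) * (a * b)) =
        φ c.Δ * (φ b * φ (vf v a) - φ a * φ (vf v b)) -
        (I.M : L) * φ (∑ j, vf (c.V j) (v (c.J j))) * (φ a * φ b) := by
      rw [map_sub, map_mul, map_sub, map_mul, map_mul, map_mul, map_mul, map_mul, map_natCast]
    rw [h6, h5, ← h]
    linear_combination φ b ^ 2 * h4
  · rintro x hx c a b ⟨hΔ, ha, hb, h⟩ x' hx' c' a' b' ⟨hΔ', ha', hb', h'⟩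
    have h1 := lamB_eq I hVJP hP hd hG c c'.J
    apply hker
    rw [map_mul, map_mul, map_mul, map_mul, map_pow, ← h, ← h']
    linear_combination (φ b * φ b') * h1

end Pool.Agent.Lib.MPc9b009.LF
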