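import Pool.Agent.Lib.MP_c9b009_ag.LF.SpecT

/-!
# MP_c9b009_ag, row LF, part T, module LOD: the local ring of `V(I)` at a smooth point
-/

set_option autoImplicit false

namespace Pool.Agent.Lib.MPc9b009.LF

open MvPolynomial Pool.Agent.Lib.MPc9b009.B5 Pool.Agent.Lib.MPc9b009.OD
  Pool.Agent.Lib.MPc9b009.PS Pool.Agent.Lib.MPc9b009.LS

namespace LODM

theorem vf_add {N : ℕ} (v : Fin N → PR N) (a b : PR N) : vf v (a + b) = vf v a + vf v b := by
  simp only [vf, map_add, mul_add, Finset.sum_add_distrib]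

theorem vf_mul {N : ℕ} (v : Fin N → PR N) (a b : PR N) :
    vf v (a * b) = a * vf v b + b * vf v a := by
  simp only [vf, Derivation.leibniz, smul_eq_mul, Finset.mul_sum]
  rw [← Finset.sum_add_distrib]
  exact Finset.sum_congr rfl fun l _ => by ring

theorem vf_C {N : ℕ} (v : Fin N → PR N) (a : ℂ) : vf v (C a) = 0 := by
  simp [vf]

theorem vf_X {N : ℕ} (v : Fin N → PR N) (l : Fin N) : vf v (X l) = v l := by
  simp only [vf, pderiv_X, Pi.single_apply]
  simp

/-- a derivation of `S` which preserves `I` extends to the local ring -/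
theorem ext_der {N : ℕ} (I : Ideal (PR N)) {R : Type} [CommRing R] [Algebra ℂ R]
    [Algebra (PR N ⧸ I) R] (M : Submonoid (PR N ⧸ I)) [IsLocalization M R]
    (ρ : PR N →ₐ[ℂ] R) (hρ : ∀ q, ρ q = algebraMap (PR N ⧸ I) R (Ideal.Quotient.mk I q))
    (v : Fin N → PR N) (hv : ∀ q ∈ I, vf v q ∈ I) :
    ∃ E : Derivation ℂ R R, ∀ q, E (ρ q) = ρ (vf v q) := by
  classical
  have hI : ∀ q ∈ I, ρ q = 0 := fun q hq => by
    rw [hρ, Ideal.Quotient.eq_zero_iff_mem.2 hq, map_zero]
  let f : PR N →+* TrivSqZeroExt R R :=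
    { toFun := fun q => TrivSqZeroExt.inl (ρ q) + TrivSqZeroExt.inr (ρ (vf v q))
      map_one' := by
        have h0 : vf v (1 : PR N) = 0 := by
          have := vf_C v 1
          rwa [C_1] at this
        rw [h0, map_zero, map_one, TrivSqZeroExt.inr_zero, add_zero, TrivSqZeroExt.inl_one]
      map_mul' := by
        intro a b
        ext
        · simp
        · simp only [vf_mul, map_mul, map_add, TrivSqZeroExt.snd_add, TrivSqZeroExt.snd_inl,
            TrivSqZeroExt.snd_inr, zero_add, TrivSqZeroExt.snd_mul, TrivSqZeroExt.fst_add,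
            TrivSqZeroExt.fst_inl, TrivSqZeroExt.fst_inr, add_zero, smul_eq_mul, op_smul_eq_smul]
      map_zero' := by
        have h0 : vf v (0 : PR N) = 0 := by simp [vf]
        rw [h0, map_zero, TrivSqZeroExt.inr_zero, TrivSqZeroExt.inl_zero, add_zero]
      map_add' := by
        intro a b
        ext
        · simp
        · simp [vf_add] }
  have hf : ∀ q, f q = TrivSqZeroExt.inl (ρ q) + TrivSqZeroExt.inr (ρ (vf v q)) := fun q => rfl
  let g : PR N ⧸ I →+* TrivSqZeroExt R R := Ideal.Quotient.lift I f (by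
    intro q hq
    rw [hf, hI q hq, hI _ (hv q hq), TrivSqZeroExt.inr_zero, TrivSqZeroExt.inl_zero, add_zero])
  have hg : ∀ q, g (Ideal.Quotient.mk I q) = f q := fun q => Ideal.Quotient.lift_mk I f _
  have hu : ∀ y : M, IsUnit (g y) := by
    intro y
    obtain ⟨q, hq⟩ := Ideal.Quotient.mk_surjective (y : PR N ⧸ I)
    rw [TrivSqZeroExt.isUnit_iff_isUnit_fst, ← hq, hg, hf]
    simp only [TrivSqZeroExt.fst_add, TrivSqZeroExt.fst_inl, TrivSqZeroExt.fst_inr, add_zero]
    rw [hρ, hq]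
    exact IsLocalization.map_units R y
  let F : R →+* TrivSqZeroExt R R := IsLocalization.lift (M := M) hu
  have hF : ∀ q, F (ρ q) = f q := by
    intro q
    rw [hρ]
    exact (IsLocalization.lift_eq hu _).trans (hg q)
  have hfst : ∀ y, (F y).fst = y := by
    have h : ((TrivSqZeroExt.fstHom R R R).toRingHom.comp F) = RingHom.id R := by
      refine IsLocalization.ringHom_ext M (RingHom.ext fun y => ?_)
      obtain ⟨q, rfl⟩ := Ideal.Quotient.mk_surjective y
      have := hF q
      rw [hρ] at this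
      simp only [RingHom.comp_apply, RingHom.id_apply]
      rw [this, hf]
      simp [hρ]
    intro y
    exact congrArg (fun k : R →+* R => k y) h
  have hmul : ∀ x y, (F (x * y)).snd = x • (F y).snd + y • (F x).snd := by
    intro x y
    rw [map_mul, TrivSqZeroExt.snd_mul, hfst, hfst, op_smul_eq_smul]
  have hc : ∀ c : ℂ, (F (algebraMap ℂ R c)).snd = 0 := by
    intro c
    have h1 : algebraMap ℂ R c = ρ (C c) := by
      rw [← MvPolynomial.algebraMap_eq, AlgHom.commutes]
    rw [h1, hF, hf, vf_C]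
    simp
  refine ⟨Derivation.mk'
    { toFun := fun y => (F y).snd
      map_add' := fun x y => by rw [map_add, TrivSqZeroExt.snd_add]
      map_smul' := fun c x => by
        rw [Algebra.smul_def, hmul, hc, smul_zero, add_zero, RingHom.id_apply, smul_eq_mul,
          ← Algebra.smul_def] } hmul, fun q => ?_⟩
  change (F (ρ q)).snd = _
  rw [hF, hf]
  simp

/-- the chain rule -/
theorem chain {N : ℕ} {R : Type} [CommRing R] [Algebra ℂ R] (ρ : PR N →ₐ[ℂ] R)
    (E : Derivation ℂ R R) (q : PR N) :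
    E (ρ q) = ∑ l, ρ (pderiv l q) * E (ρ (X l)) := by
  induction q using MvPolynomial.induction_on with
  | C a =>
    have h1 : ρ (C a) = algebraMap ℂ R a := by
      rw [← MvPolynomial.algebraMap_eq, AlgHom.commutes]
    rw [h1, E.map_algebraMap]
    simp
  | add p q hp hq =>
    simp only [map_add, hp, hq, add_mul, Finset.sum_add_distrib]
  | mul_X p i hp =>
    rw [map_mul, E.leibniz, hp]
    simp only [Derivation.leibniz, smul_eq_mul, map_add, map_mul, add_mul,
      Finset.sum_add_distrib, pderiv_X, Pi.single_apply]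
    rw [Finset.mul_sum]
    congr 1
    · rw [Finset.sum_eq_single i]
      · simp
      · intro b _ hb
        rw [if_neg (Ne.symm hb)]
        simp
      · intro h
        exact absurd (Finset.mem_univ i) h
    · exact Finset.sum_congr rfl fun l _ => by ring

/-- a derivation which kills the coordinates is zero -/
theorem der_zero {N n : ℕ} {I : Ideal (PR N)} (c : Crd I n) {R : Type} [CommRing R] [IsDomain R]
    [Algebra ℂ R] (ρ : PR N →ₐ[ℂ] R) (hI : ∀ q ∈ I, ρ q = 0) (hΔ : ρ c.Δ ≠ 0)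
    (hfr : ∀ y : R, ∃ a b : PR N, ρ b ≠ 0 ∧ y * ρ b = ρ a) (E : Derivation ℂ R R)
    (hE : ∀ j, E (ρ (X (c.J j))) = 0) : E = 0 := by
  classical
  set A : Matrix (Fin (N - n)) (Fin (N - n)) (PR N) :=
    Matrix.of fun a b => pderiv (c.K b) (c.F a) with hA
  have hsum : ∀ f : Fin N → R, ∑ l, f l = ∑ j, f (c.J j) + ∑ b, f (c.K b) := by
    intro f
    rw [← (Equiv.ofBijective _ c.bij).sum_comp, Fintype.sum_sum_type]
    rfl
  have h1 : ∀ a, ∑ b, ρ (A a b) * E (ρ (X (c.K b))) = 0 := by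
    intro a
    have h2 := chain ρ E (c.F a)
    rw [hI _ (c.mem a), map_zero, hsum] at h2
    simp only [hE, mul_zero, Finset.sum_const_zero, zero_add] at h2
    exact h2.symm
  have h2 : ∀ b, E (ρ (X (c.K b))) = 0 := by
    intro b
    have h3 : ρ c.Δ * E (ρ (X (c.K b))) = 0 := by
      have h4 : ∑ b', ρ ((A.adjugate * A) b b') * E (ρ (X (c.K b'))) =
          ∑ a, ρ (A.adjugate b a) * ∑ b', ρ (A a b') * E (ρ (X (c.K b'))) := by
        simp only [Matrix.mul_apply, map_sum, map_mul, Finset.mul_sum, Finset.sum_mul]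
        rw [Finset.sum_comm]
        refine Finset.sum_congr rfl fun a _ => Finset.sum_congr rfl fun b' _ => ?_
        ring
      rw [Matrix.adjugate_mul] at h4
      simp only [h1, mul_zero, Finset.sum_const_zero, Matrix.smul_apply, Matrix.one_apply,
        smul_eq_mul, mul_ite, mul_one] at h4
      rw [Finset.sum_eq_single b] at h4
      · rw [if_pos rfl] at h4
        exact h4
      · intro b' _ hb'
        rw [if_neg (Ne.symm hb'), map_zero, zero_mul]
      · intro h
        exact absurd (Finset.mem_univ b) h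
    exact (mul_eq_zero.1 h3).resolve_left hΔ
  have h3 : ∀ l, E (ρ (X l)) = 0 := by
    intro l
    obtain ⟨s, rfl⟩ := c.bij.2 l
    rcases s with j | b
    · exact hE j
    · exact h2 b
  have h4 : ∀ q, E (ρ q) = 0 := by
    intro q
    rw [chain ρ E q]
    simp [h3]
  ext y
  obtain ⟨a, b, hb, hy⟩ := hfr y
  have h5 := congrArg E hy
  rw [E.leibniz, h4, h4, smul_zero, zero_add, smul_eq_mul] at h5
  rw [Derivation.zero_apply]
  exact (mul_eq_zero.1 h5).resolve_left hb

theorem mem_pow {N : ℕ} (p : Cn N) (I : Ideal (PR N)) (k : ℕ) (q b : PR N) (hb : eval p b ≠ 0)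
    (h : q * b ∈ I ⊔ mx p ^ k) : q ∈ I ⊔ mx p ^ k := by
  have hmax : (mx p).IsMaximal := by
    refine RingHom.ker_isMaximal_of_surjective (eval p) fun z => ⟨C z, eval_C z⟩
  have hbn : b ∉ mx p := fun h' => hb h'
  have hsup : Ideal.span {b} ⊔ mx p = ⊤ := by
    by_contra hne
    have h1 : mx p ≤ Ideal.span {b} ⊔ mx p := le_sup_right
    have h2 := hmax.eq_of_le hne h1
    apply hbn
    rw [h2]
    exact Ideal.mem_sup_left (Ideal.mem_span_singleton_self b)
  have hco : IsCoprime (Ideal.span {b}) (mx p ^ k) :=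
    IsCoprime.pow_right (Ideal.isCoprime_iff_sup_eq.2 hsup)
  obtain ⟨r, hr, m, hm, hrm⟩ := Submodule.mem_sup.1 (by
    rw [Ideal.isCoprime_iff_sup_eq.1 hco]
    exact Submodule.mem_top : (1 : PR N) ∈ Ideal.span {b} ⊔ mx p ^ k)
  obtain ⟨r', rfl⟩ := Ideal.mem_span_singleton'.1 hr
  have h3 : q = r' * (q * b) + q * m := by
    have : q = q * (r' * b + m) := by rw [hrm, mul_one]
    linear_combination this
  rw [h3]
  exact Ideal.add_mem _ (Ideal.mul_mem_left _ _ h)
    (Ideal.mem_sup_right (Ideal.mul_mem_left _ _ hm))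

/-- the main construction, for an abstract localization `R` -/
theorem main {N n : ℕ} (I : Ideal (PR N)) (hI : I.IsPrime) (p : Cn N) (c : Crd I n)
    (hc : eval p c.Δ ≠ 0) (hV1 : ∀ i, ∀ q ∈ I, vf (c.V i) q ∈ I)
    (hV2 : ∀ i j, c.V i (c.J j) = if i = j then c.Δ else 0)
    (P0 : Ideal (PR N ⧸ I)) [hP0 : P0.IsPrime]
    (hcomp : ∀ b, Ideal.Quotient.mk I b ∈ P0 ↔ eval p b = 0)
    (R : Type) [CommRing R] [IsDomain R] [IsLocalRing R] [Algebra ℂ R] [Algebra (PR N ⧸ I) R]
    [IsScalarTower ℂ (PR N ⧸ I) R] [IsLocalization.AtPrime R P0] :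
    ∃ (ρ : PR N →ₐ[ℂ] R) (dd : Fin n → Derivation ℂ R R), LRP I p c R ρ dd := by
  classical
  have hle : P0.primeCompl ≤ nonZeroDivisors (PR N ⧸ I) := P0.primeCompl_le_nonZeroDivisors
  have hinj : Function.Injective (algebraMap (PR N ⧸ I) R) :=
    IsLocalization.injective R hle
  let ρ : PR N →ₐ[ℂ] R :=
    (IsScalarTower.toAlgHom ℂ (PR N ⧸ I) R).comp (Ideal.Quotient.mkₐ ℂ I)
  have hρ : ∀ q, ρ q = algebraMap (PR N ⧸ I) R (Ideal.Quotient.mk I q) := fun q => rfl
  have hker : ∀ q, ρ q = 0 ↔ q ∈ I := by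
    intro q
    rw [hρ, map_eq_zero_iff _ hinj, Ideal.Quotient.eq_zero_iff_mem]
  have hcm : ∀ b, Ideal.Quotient.mk I b ∈ P0.primeCompl ↔ eval p b ≠ 0 := by
    intro b
    exact not_congr (hcomp b)
  have hunit : ∀ b, IsUnit (ρ b) ↔ eval p b ≠ 0 := by
    intro b
    rw [hρ, IsLocalization.AtPrime.isUnit_to_map_iff R P0, hcm]
  have hfrac : ∀ y : R, ∃ a b : PR N, eval p b ≠ 0 ∧ y * ρ b = ρ a := by
    intro y
    obtain ⟨⟨a, s⟩, h⟩ := IsLocalization.surj P0.primeCompl y
    obtain ⟨a', ha'⟩ := Ideal.Quotient.mk_surjective a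
    obtain ⟨b', hb'⟩ := Ideal.Quotient.mk_surjective (s : PR N ⧸ I)
    refine ⟨a', b', (hcm b').1 (hb' ▸ s.2), ?_⟩
    rw [hρ, hρ, ha', hb']
    exact h
  have hpow : ∀ (q : PR N) (k : ℕ), ρ q ∈ IsLocalRing.maximalIdeal R ^ k ↔ q ∈ I ⊔ mx p ^ k := by
    intro q k
    have hsurj : Function.Surjective (Ideal.Quotient.mk I) := Ideal.Quotient.mk_surjective
    have hP : P0 = (mx p).map (Ideal.Quotient.mk I) := by
      ext y
      obtain ⟨b, rfl⟩ := hsurj y
      constructor
      · intro h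
        exact Ideal.mem_map_of_mem _ ((hcomp b).1 h)
      · intro h
        obtain ⟨b', hb', h2⟩ := (Ideal.mem_map_iff_of_surjective _ hsurj).1 h
        rw [← h2]
        exact (hcomp b').2 hb'
    have h1 : IsLocalRing.maximalIdeal R ^ k = (P0 ^ k).map (algebraMap (PR N ⧸ I) R) := by
      rw [Ideal.map_pow, IsLocalization.AtPrime.map_eq_maximalIdeal P0 R]
    have h2 : P0 ^ k = (mx p ^ k).map (Ideal.Quotient.mk I) := by
      rw [Ideal.map_pow, ← hP]
    rw [h1]
    constructor
    · intro h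
      rw [hρ] at h
      obtain ⟨⟨t, s⟩, h3⟩ := (IsLocalization.mem_map_algebraMap_iff P0.primeCompl R).1 h
      obtain ⟨b, hb⟩ := hsurj (s : PR N ⧸ I)
      have ht : (t : PR N ⧸ I) ∈ (mx p ^ k).map (Ideal.Quotient.mk I) := h2 ▸ t.2
      obtain ⟨t', ht', h4⟩ := (Ideal.mem_map_iff_of_surjective _ hsurj).1 ht
      have hbe : eval p b ≠ 0 := (hcm b).1 (hb ▸ s.2)
      refine LODM.mem_pow p I k q b hbe ?_
      have h5 : Ideal.Quotient.mk I (q * b - t') = 0 := by
        rw [map_sub, map_mul, hb, h4, sub_eq_zero]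
        apply hinj
        rw [map_mul]
        exact h3
      have h6 := Ideal.Quotient.eq_zero_iff_mem.1 h5
      have h7 : q * b = (q * b - t') + t' := by ring
      rw [h7]
      exact Ideal.add_mem _ (Ideal.mem_sup_left h6) (Ideal.mem_sup_right ht')
    · intro h
      obtain ⟨a, ha, m, hm, rfl⟩ := Submodule.mem_sup.1 h
      rw [map_add, (hker a).2 ha, zero_add, hρ]
      refine Ideal.mem_map_of_mem _ ?_
      rw [h2]
      exact Ideal.mem_map_of_mem _ hm
  have hΔu : IsUnit (ρ c.Δ) := (hunit _).2 hc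
  have hext : ∀ i, ∃ E : Derivation ℂ R R, ∀ q, E (ρ q) = ρ (vf (c.V i) q) := fun i =>
    LODM.ext_der I P0.primeCompl ρ hρ (c.V i) (hV1 i)
  choose E hE using hext
  let dd : Fin n → Derivation ℂ R R := fun i => ((hΔu.unit⁻¹ : Rˣ) : R) • E i
  have hdd : ∀ i q, ρ c.Δ * dd i (ρ q) = ρ (vf (c.V i) q) := by
    intro i q
    change ρ c.Δ * (((hΔu.unit⁻¹ : Rˣ) : R) * E i (ρ q)) = _
    rw [← mul_assoc, hE]
    have : ρ c.Δ * ((hΔu.unit⁻¹ : Rˣ) : R) = 1 := hΔu.mul_val_inv
    rw [this, one_mul]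
  have hddJ : ∀ i j, dd i (ρ (X (c.J j))) = if i = j then 1 else 0 := by
    intro i j
    have h1 := hdd i (X (c.J j))
    rw [LODM.vf_X, hV2] at h1
    by_cases hij : i = j
    · rw [if_pos hij] at h1 ⊢
      refine hΔu.mul_left_cancel ?_
      rw [h1, mul_one]
    · rw [if_neg hij] at h1 ⊢
      refine hΔu.mul_left_cancel ?_
      rw [h1, map_zero, mul_zero]
  have hcomm : ∀ i j y, dd i (dd j y) = dd j (dd i y) := by
    intro i j y
    have h0 : ⁅dd i, dd j⁆ = 0 := by
      refine LODM.der_zero c ρ (fun q hq => (hker q).2 hq) hΔu.ne_zero (fun y => ?_) _ fun m => ?_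
      · obtain ⟨a, b, hb, h⟩ := hfrac y
        exact ⟨a, b, ((hunit b).2 hb).ne_zero, h⟩
      · rw [Derivation.commutator_apply, hddJ, hddJ]
        split_ifs <;> simp
    have h1 := congrArg (fun D : Derivation ℂ R R => D y) h0
    simp only [Derivation.commutator_apply, Derivation.zero_apply] at h1
    exact sub_eq_zero.1 h1
  exact ⟨ρ, dd, ⟨hker, hfrac, hunit, hpow, hdd, hcomm⟩⟩

end LODM

theorem specLOD (hVJP : SpecVJP) : SpecLOD := by
  classical
  intro N n I hI hn p hp c hc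
  obtain ⟨hV1, hV2, -, -⟩ := hVJP N n I hI hn c
  let ev : PR N ⧸ I →+* ℂ := Ideal.Quotient.lift I (eval p) fun q hq => hp q hq
  have hev : ∀ q, ev (Ideal.Quotient.mk I q) = eval p q := fun q => Ideal.Quotient.lift_mk I _ _
  have hP0 : (RingHom.ker ev).IsPrime := RingHom.ker_isPrime ev
  have hle : (RingHom.ker ev).primeCompl ≤ nonZeroDivisors (PR N ⧸ I) :=
    (RingHom.ker ev).primeCompl_le_nonZeroDivisors
  have hdom : IsDomain (Localization.AtPrime (RingHom.ker ev)) :=
    IsLocalization.isDomain_localization hle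
  have hnoe : IsNoetherianRing (Localization.AtPrime (RingHom.ker ev)) :=
    IsLocalization.isNoetherianRing (RingHom.ker ev).primeCompl _ inferInstance
  obtain ⟨ρ, dd, h⟩ := LODM.main I hI p c hc hV1 hV2 (RingHom.ker ev)
    (fun b => by rw [RingHom.mem_ker, hev]) (Localization.AtPrime (RingHom.ker ev))
  exact ⟨Localization.AtPrime (RingHom.ker ev), inferInstance, hdom, inferInstance, hnoe,
    inferInstance, ρ, dd, h⟩

end Pool.Agent.Lib.MPc9b009.LF
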