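import Pool.Agent.Lib.MP_c9b009_ag.LF.SpecT

/-!
# MP_c9b009_ag, row LF, module LVF: vector fields in local coordinates
-/

set_option autoImplicit false

namespace Pool.Agent.Lib.MPc9b009.LF

open MvPolynomial Pool.Agent.Lib.MPc9b009.B5 Pool.Agent.Lib.MPc9b009.OD
  Pool.Agent.Lib.MPc9b009.PS Pool.Agent.Lib.MPc9b009.LS

namespace LVFM

theorem key (hVJP : SpecVJP) {N n : ℕ} {I : Ideal (PR N)} (hI : I.IsPrime)
    (hn : Algebra.trdeg ℂ (PR N ⧸ I) = ((n : ℕ) : Cardinal)) (c : Crd I n) (v : Fin N → PR N)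
    (e : Ideal (PR N)) (h : ∀ a, vf v (c.F a) ∈ e) (q : PR N) :
    c.Δ * vf v q - ∑ i, v (c.J i) * vf (c.V i) q ∈ e := by
  have h3 := (hVJP N n I hI hn c).2.2.1 v e h
  have e1 : c.Δ * vf v q - ∑ i, v (c.J i) * vf (c.V i) q =
      ∑ l, (c.Δ * v l - ∑ i, v (c.J i) * c.V i l) * pderiv l q := by
    unfold vf
    simp only [sub_mul, Finset.sum_sub_distrib, Finset.mul_sum, Finset.sum_mul]
    rw [Finset.sum_comm]
    simp only [mul_assoc]
  rw [e1]
  exact Ideal.sum_mem _ fun l _ => Ideal.mul_mem_right _ _ (h3 l)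

theorem rho_key {N n : ℕ} {I : Ideal (PR N)} {p : Cn N} {c : Crd I n} {R : Type} [CommRing R]
    [IsLocalRing R] [Algebra ℂ R] {ρ : PR N →ₐ[ℂ] R} {dd : Fin n → Derivation ℂ R R}
    (hR : LRP I p c R ρ dd) (v : Fin N → PR N) (q : PR N) :
    ρ (c.Δ * vf v q - ∑ i, v (c.J i) * vf (c.V i) q) =
      ρ c.Δ * (ρ (vf v q) - ∑ j, ρ (v (c.J j)) * dd j (ρ q)) := by
  rw [map_sub, map_mul, map_sum, mul_sub, Finset.mul_sum]
  congr 1
  refine Finset.sum_congr rfl fun j _ => ?_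
  rw [map_mul, ← hR.der j q]
  ring

end LVFM

open LVFM in
theorem specLVF (hVJP : SpecVJP) : SpecLVF := by
  intro N n I hI hn p _ c hp R _ _ _ ρ dd hR
  have hu : IsUnit (ρ c.Δ) := (hR.unit _).2 hp
  refine ⟨?_, ?_⟩
  · intro k v hv q
    have h1 := key hVJP hI hn c v (I ⊔ mx p ^ k) (fun a => hv _ (c.mem a)) q
    have h2 := (hR.pow _ k).2 h1
    rw [rho_key hR] at h2
    exact (Ideal.unit_mul_mem_iff_mem _ hu).1 h2
  · intro v hv q
    have h1 := key hVJP hI hn c v I (fun a => hv _ (c.mem a)) q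
    have h2 := (hR.ker _).2 h1
    rw [rho_key hR] at h2
    have h3 : ρ (vf v q) - ∑ j, ρ (v (c.J j)) * dd j (ρ q) = 0 := by
      obtain ⟨u, hu'⟩ := hu
      rw [← hu'] at h2
      exact (Units.mul_right_eq_zero u).1 h2
    exact sub_eq_zero.1 h3

end Pool.Agent.Lib.MPc9b009.LF
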