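import Pool.Agent.Lib.MP_c9b009_ag.LF.SpecA
import Pool.Agent.Lib.MP_c9b009_ag.OD.TLD

/-!
# MP_c9b009_ag, row LF, module NDR: the derivative of the norm (helper9)
-/

set_option autoImplicit false

namespace Pool.Agent.Lib.MPc9b009.LF

open MvPolynomial Pool.Agent.Lib.MPc9b009.B5 Pool.Agent.Lib.MPc9b009.OD
  Pool.Agent.Lib.MPc9b009.PS Pool.Agent.Lib.MPc9b009.LS

theorem specNDR : SpecNDR := by
  intro L L' _ _ _ _ _ _ _ D D' hD y hy
  have h := OD.specTLD L L' _ _ _ inferInstance (D.restrictScalars ℤ) (D'.restrictScalars ℤ) hD y hy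
  have hn : Algebra.norm L y ≠ 0 := Algebra.norm_ne_zero_iff.2 hy
  have h2 : Algebra.trace L L' (D' y / y) = D (Algebra.norm L y) / Algebra.norm L y := h
  rw [h2, mul_div_cancel₀ _ hn]

end Pool.Agent.Lib.MPc9b009.LF
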