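import Pool.Agent.Lib.MP_c9b009_ag.LF.SpecT

/-!
# MP_c9b009_ag, row LF, module NRM: the local ring of a smooth point is integrally closed
-/

set_option autoImplicit false

namespace Pool.Agent.Lib.MPc9b009.LF

open MvPolynomial Pool.Agent.Lib.MPc9b009.B5 Pool.Agent.Lib.MPc9b009.OD
  Pool.Agent.Lib.MPc9b009.PS Pool.Agent.Lib.MPc9b009.LS

namespace NRMM

/-- the conductor -/
def con (R : Type) [CommRing R] [IsDomain R] : Ideal R where
  carrier := {r | ∀ a : FractionRing R, IsIntegral R a →
    ∃ b : R, algebraMap R (FractionRing R) r * a = algebraMap R (FractionRing R) b}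
  add_mem' := by
    intro r s hr hs a ha
    obtain ⟨b, hb⟩ := hr a ha
    obtain ⟨b', hb'⟩ := hs a ha
    exact ⟨b + b', by rw [map_add, map_add, add_mul, hb, hb']⟩
  zero_mem' := by
    intro a _
    exact ⟨0, by rw [map_zero, zero_mul]⟩
  smul_mem' := by
    intro c r hr a ha
    obtain ⟨b, hb⟩ := hr a ha
    exact ⟨c * b, by rw [smul_eq_mul, map_mul, map_mul, mul_assoc, hb]⟩

end NRMM

open NRMM in
theorem specNRM (hSEI : SpecSEI) (hCND : SpecCND) (hDSI : SpecDSI) : SpecNRM := by
  intro N n I hI p hp c hc R _ _ _ _ _ ρ dd hL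
  have hD : ∀ i, ∃ D : Derivation ℂ (FractionRing R) (FractionRing R), ∀ f : R,
      D (algebraMap R (FractionRing R) f) = algebraMap R (FractionRing R) (dd i f) :=
    fun i => BSTM.ext_frac (K := FractionRing R) (dd i)
  choose D hD using hD
  have hJ : con R ≠ ⊥ := by
    obtain ⟨r, hr0, hr⟩ := hCND N n I hI p c R inferInstance inferInstance inferInstance
      inferInstance ρ dd hL
    intro h
    have h1 : r ∈ con R := hr
    rw [h] at h1
    exact hr0 h1
  have hst : ∀ i, ∀ r ∈ con R, dd i r ∈ con R := by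
    intro i r hr a ha
    obtain ⟨b, hb⟩ := hr a ha
    have hDa := hSEI R inferInstance inferInstance inferInstance inferInstance (D i) (fun r => ⟨dd i r, hD i r⟩) a ha
    obtain ⟨b', hb'⟩ := hr (D i a) hDa
    refine ⟨dd i b - b', ?_⟩
    have h1 := congrArg (D i) hb
    rw [Derivation.leibniz, hD, hD, smul_eq_mul, smul_eq_mul, hb'] at h1
    rw [map_sub, ← h1]
    ring
  have hT := hDSI N n I hI p hp c hc R inferInstance inferInstance inferInstance inferInstance
    inferInstance ρ dd hL (con R) hJ hst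
  rw [isIntegrallyClosed_iff (FractionRing R)]
  intro x hx
  have h1 : (1 : R) ∈ con R := by rw [hT]; exact Submodule.mem_top
  obtain ⟨b, hb⟩ := h1 x hx
  exact ⟨b, by rw [← hb, map_one, one_mul]⟩

end Pool.Agent.Lib.MPc9b009.LF
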