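import Pool.Agent.Lib.MP_c9b009_ag.LF.SpecD

/-!
# MP_c9b009_ag, row LF, module NZQ: all linear sections near a given one meet `M` near a point (helper58)
-/

set_option autoImplicit false

namespace Pool.Agent.Lib.MPc9b009.LF

open MvPolynomial Pool.Agent.Lib.MPc9b009.B5 Pool.Agent.Lib.MPc9b009.OD
  Pool.Agent.Lib.MPc9b009.PS Pool.Agent.Lib.MPc9b009.LS MeasureTheory Filter Topology

namespace NZQM

theorem dot_sum {N j : ℕ} (t : Fin j → ℂ) (l : Fin j → Cn N) (v : Cn N) :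
    dot (∑ a, t a • l a) v = ∑ a, t a * dot (l a) v := by
  rw [NZPM.dot_apply]
  simp only [Finset.sum_apply, Pi.smul_apply, smul_eq_mul, Finset.sum_mul]
  rw [Finset.sum_comm]
  refine Finset.sum_congr rfl fun a _ => ?_
  rw [NZPM.dot_apply, Finset.mul_sum]
  refine Finset.sum_congr rfl fun i _ => by ring

/-- the linear forms `l a` on the range of `D` -/
noncomputable def LL {N d j : ℕ} (l : Fin j → Cn N) (D : Cn d →L[ℂ] Cn N) : Cn d →ₗ[ℂ] Cn j :=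
  LinearMap.pi fun a => (dot (l a)).comp D.toLinearMap

theorem LL_apply {N d j : ℕ} (l : Fin j → Cn N) (D : Cn d →L[ℂ] Cn N) (u : Cn d) (a : Fin j) :
    LL l D u a = dot (l a) (D u) := rfl

theorem LL_surj {N d j : ℕ} (l : Fin j → Cn N) (D : Cn d →L[ℂ] Cn N)
    (h : ∀ t : Fin j → ℂ, LinearMap.range D.toLinearMap ≤ hyp (∑ a, t a • l a) → t = 0)
    (s : Cn j) : ∃ u, LL l D u = s := by
  by_contra hs
  have hs' : s ∉ LinearMap.range (LL l D) := fun hh => hs hh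
  obtain ⟨f, hf, hPf⟩ := Submodule.exists_le_ker_of_notMem hs'
  obtain ⟨t, ht⟩ := NZPM.exists_dot f
  have h1 : t = 0 := by
    apply h t
    rintro _ ⟨u, rfl⟩
    rw [NZPM.mem_hyp, dot_sum]
    have h2 : f (LL l D u) = 0 := LinearMap.mem_ker.1 (hPf ⟨u, rfl⟩)
    rw [← ht, NZPM.dot_apply] at h2
    exact h2
  apply hf
  rw [← ht, h1, NZPM.dot_apply]
  simp

/-- the map `(y, l) ↦ ((l_a · G y)_a, l)` is open at a point where `y ↦ (l_a · G y)_a` is a submersion -/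
theorem map_nhds {N d j : ℕ} (G : Cn d → Cn N) (y : Cn d) (l : Fin j → Cn N)
    (hG : ContDiffAt ℂ 3 G y)
    (h : ∀ t : Fin j → ℂ, LinearMap.range (fderiv ℂ G y).toLinearMap ≤ hyp (∑ a, t a • l a) →
      t = 0) :
    Filter.map (fun z : Cn d × (Fin j → Cn N) => ((fun a => ∑ i, z.2 a i * G z.1 i : Cn j), z.2))
      (𝓝 (y, l)) = 𝓝 ((fun a => ∑ i, l a i * G y i : Cn j), l) := by
  have hG1 : HasStrictFDerivAt G (fderiv ℂ G y) y := hG.hasStrictFDerivAt (by norm_num)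
  have hG2 : HasStrictFDerivAt (fun z : Cn d × (Fin j → Cn N) => G z.1)
      ((fderiv ℂ G y).comp (ContinuousLinearMap.fst ℂ (Cn d) (Fin j → Cn N))) (y, l) :=
    HasStrictFDerivAt.comp (y, l) hG1 hasStrictFDerivAt_fst
  have hG3 : ∀ i : Fin N, HasStrictFDerivAt (fun z : Cn d × (Fin j → Cn N) => G z.1 i)
      ((ContinuousLinearMap.proj (R := ℂ) (φ := fun _ : Fin N => ℂ) i).comp
        ((fderiv ℂ G y).comp (ContinuousLinearMap.fst ℂ (Cn d) (Fin j → Cn N)))) (y, l) := fun i =>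
    HasStrictFDerivAt.comp (y, l)
      (ContinuousLinearMap.proj (R := ℂ) (φ := fun _ : Fin N => ℂ) i).hasStrictFDerivAt hG2
  have hl2 : ∀ a : Fin j, HasStrictFDerivAt (fun z : Cn d × (Fin j → Cn N) => z.2 a)
      ((ContinuousLinearMap.proj (R := ℂ) (φ := fun _ : Fin j => Cn N) a).comp
        (ContinuousLinearMap.snd ℂ (Cn d) (Fin j → Cn N))) (y, l) := fun a =>
    HasStrictFDerivAt.comp (y, l)
      (ContinuousLinearMap.proj (R := ℂ) (φ := fun _ : Fin j => Cn N) a).hasStrictFDerivAt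
      hasStrictFDerivAt_snd
  have hl3 : ∀ (a : Fin j) (i : Fin N), HasStrictFDerivAt
      (fun z : Cn d × (Fin j → Cn N) => z.2 a i)
      ((ContinuousLinearMap.proj (R := ℂ) (φ := fun _ : Fin N => ℂ) i).comp
        ((ContinuousLinearMap.proj (R := ℂ) (φ := fun _ : Fin j => Cn N) a).comp
          (ContinuousLinearMap.snd ℂ (Cn d) (Fin j → Cn N)))) (y, l) := fun a i =>
    HasStrictFDerivAt.comp (y, l)
      (ContinuousLinearMap.proj (R := ℂ) (φ := fun _ : Fin N => ℂ) i).hasStrictFDerivAt (hl2 a)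
  have hS := fun a : Fin j => HasStrictFDerivAt.fun_sum (u := (Finset.univ : Finset (Fin N)))
    fun i _ => (hl3 a i).mul (hG3 i)
  have hP := hasStrictFDerivAt_pi.2 hS
  have hF := hP.prodMk
    (hasStrictFDerivAt_snd (𝕜 := ℂ) (E := Cn d) (F := Fin j → Cn N) (p := (y, l)))
  refine hF.map_nhds_eq_of_surj ?_
  rw [LinearMap.range_eq_top]
  rintro ⟨s, m⟩
  obtain ⟨u, hu⟩ := LL_surj l (fderiv ℂ G y) h (fun a => s a - ∑ i, G y i * m a i)
  refine ⟨(u, m), ?_⟩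
  refine Prod.ext ?_ rfl
  funext a
  have hua := congrFun hu a
  rw [LL_apply, NZPM.dot_apply] at hua
  change (∑ i, (l a i • (ContinuousLinearMap.proj (R := ℂ) (φ := fun _ : Fin N => ℂ) i).comp
      ((fderiv ℂ G y).comp (ContinuousLinearMap.fst ℂ (Cn d) (Fin j → Cn N))) +
      G y i • (ContinuousLinearMap.proj (R := ℂ) (φ := fun _ : Fin N => ℂ) i).comp
        ((ContinuousLinearMap.proj (R := ℂ) (φ := fun _ : Fin j => Cn N) a).comp
          (ContinuousLinearMap.snd ℂ (Cn d) (Fin j → Cn N))))) (u, m) = s a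
  rw [sum_apply]
  have h1 : ∀ i : Fin N, (l a i • (ContinuousLinearMap.proj (R := ℂ) (φ := fun _ : Fin N => ℂ) i).comp
      ((fderiv ℂ G y).comp (ContinuousLinearMap.fst ℂ (Cn d) (Fin j → Cn N))) +
      G y i • (ContinuousLinearMap.proj (R := ℂ) (φ := fun _ : Fin N => ℂ) i).comp
        ((ContinuousLinearMap.proj (R := ℂ) (φ := fun _ : Fin j => Cn N) a).comp
          (ContinuousLinearMap.snd ℂ (Cn d) (Fin j → Cn N)))) (u, m) =
      l a i * (fderiv ℂ G y) u i + G y i * m a i := fun i => rfl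
  rw [Finset.sum_congr rfl fun i _ => h1 i, Finset.sum_add_distrib, hua]
  ring

end NZQM

open NZQM in
theorem specNZQ : SpecNZQ := by
  intro N d j M T hM x₀ hx₀ ℓ hℓ hind O' hO' hmem
  obtain ⟨c, hc⟩ := hM.cov x₀ hx₀
  obtain ⟨hy₀, hG₀⟩ := c.inv x₀ hx₀ hc
  set y₀ : Cn d := fun m => x₀ (c.I m) with hy₀def
  have hT : LinearMap.range (fderiv ℂ c.G y₀).toLinearMap = T x₀ := by
    rw [c.tan y₀ hy₀, hG₀]
  have hC := NZPM.contDiffAt c hy₀
  have hmap := map_nhds c.G y₀ ℓ hC (by rw [hT]; exact hind)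
  have hzero : (fun a => ∑ i, ℓ a i * c.G y₀ i : Cn j) = 0 := by
    funext a
    rw [← NZPM.dot_apply, hG₀, hℓ a]
    rfl
  rw [hzero] at hmap
  have hcont : ContinuousAt (fun z : Cn d × (Fin j → Cn N) => (c.G z.1, z.2)) (y₀, ℓ) := by
    have hGc : ContinuousAt (fun z : Cn d × (Fin j → Cn N) => c.G z.1) (y₀, ℓ) :=
      ContinuousAt.comp (f := Prod.fst) (g := c.G) hC.continuousAt continuousAt_fst
    exact hGc.prodMk continuousAt_snd
  have hev : ∀ᶠ z : Cn d × (Fin j → Cn N) in 𝓝 (y₀, ℓ), z.1 ∈ c.B ∧ (c.G z.1, z.2) ∈ O' := by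
    have h1 : ∀ᶠ z : Cn d × (Fin j → Cn N) in 𝓝 (y₀, ℓ), z.1 ∈ c.B :=
      continuousAt_fst (c.oB.mem_nhds hy₀)
    have h2 : ∀ᶠ z : Cn d × (Fin j → Cn N) in 𝓝 (y₀, ℓ), (c.G z.1, z.2) ∈ O' := by
      refine hcont (hO'.mem_nhds ?_)
      show (c.G y₀, ℓ) ∈ O'
      rw [hG₀]
      exact hmem
    exact h1.and h2
  have himg : (fun z : Cn d × (Fin j → Cn N) =>
      ((fun a => ∑ i, z.2 a i * c.G z.1 i : Cn j), z.2)) ''
      {z | z.1 ∈ c.B ∧ (c.G z.1, z.2) ∈ O'} ∈ 𝓝 ((0 : Cn j), ℓ) := by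
    rw [← hmap]
    exact Filter.image_mem_map hev
  have hO : {l : Fin j → Cn N | ((0 : Cn j), l) ∈ (fun z : Cn d × (Fin j → Cn N) =>
      ((fun a => ∑ i, z.2 a i * c.G z.1 i : Cn j), z.2)) ''
      {z | z.1 ∈ c.B ∧ (c.G z.1, z.2) ∈ O'}} ∈ 𝓝 ℓ :=
    (Continuous.prodMk_right (0 : Cn j)).continuousAt himg
  obtain ⟨U, hUsub, hUo, hℓU⟩ := mem_nhds_iff.1 hO
  obtain ⟨O, hOo, hOsub⟩ := isOpen_pi_iff'.1 hUo ℓ hℓU
  refine ⟨O, fun a => ⟨(hOo a).1, ⟨ℓ a, (hOo a).2⟩⟩, fun l hl => ?_⟩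
  obtain ⟨⟨y, l'⟩, ⟨hyB, hyO⟩, heq⟩ := hUsub (hOsub fun a _ => hl a)
  have hl' : l' = l := congrArg Prod.snd heq
  subst hl'
  refine ⟨c.G y, (c.mem y hyB).1, fun a => ?_, hyO⟩
  rw [NZPM.mem_hyp, NZPM.dot_apply]
  exact congrFun (congrArg Prod.fst heq) a

end Pool.Agent.Lib.MPc9b009.LF
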