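import Pool.Agent.Lib.MP_c9b009_ag.LF.SpecD

/-!
# MP_c9b009_ag, row LF, module PFN: the vector field `A` is not a multiple of the Euler field
-/

set_option autoImplicit false

namespace Pool.Agent.Lib.MPc9b009.LF

open MvPolynomial Pool.Agent.Lib.MPc9b009.B5 Pool.Agent.Lib.MPc9b009.OD
  Pool.Agent.Lib.MPc9b009.PS Pool.Agent.Lib.MPc9b009.LS

namespace PFNM

/-! ### symplectic families -/

section Fam

variable {V Y : Type*} [AddCommGroup V] [Module ℂ V] [AddCommGroup Y] [Module ℂ Y]

/-- A symplectic family. -/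
structure Sy (B : V →ₗ[ℂ] V →ₗ[ℂ] ℂ) (W : Submodule ℂ V) (m : ℕ) (e f : Fin m → V) : Prop where
  he : ∀ i, e i ∈ W
  hf : ∀ i, f i ∈ W
  ef : ∀ i j, B (e i) (f j) = if i = j then 1 else 0
  ee : ∀ i j, B (e i) (e j) = 0
  ff : ∀ i j, B (f i) (f j) = 0

lemma step (B : V →ₗ[ℂ] V →ₗ[ℂ] ℂ) (hB : ∀ a b, B a b = - B b a) (W : Submodule ℂ V)
    (Q : V →ₗ[ℂ] Y) (hQ : ∀ ξ ∈ W, (∀ η ∈ W, B η ξ = 0) → Q ξ = 0) (m : ℕ) (e f : Fin m → V)
    (h : Sy B W m e f) (hr : 2 * m < Module.finrank ℂ (W.map Q)) :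
    ∃ a ∈ W, ∃ b ∈ W, B a b = 1 ∧
      ∀ i, B (e i) a = 0 ∧ B (e i) b = 0 ∧ B (f i) a = 0 ∧ B (f i) b = 0 := by
  classical
  by_contra hcon
  have h0 : ∀ a ∈ W, ∀ b ∈ W, (∀ i, B (e i) a = 0 ∧ B (e i) b = 0 ∧ B (f i) a = 0 ∧
      B (f i) b = 0) → B a b = 0 := by
    intro a ha b hb hi
    by_contra hab
    refine hcon ⟨a, ha, (B a b)⁻¹ • b, W.smul_mem _ hb, ?_, ?_⟩
    · rw [map_smul, smul_eq_mul, inv_mul_cancel₀ hab]
    · intro i
      obtain ⟨h1, h2, h3, h4⟩ := hi i
      refine ⟨h1, ?_, h3, ?_⟩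
      · rw [map_smul, h2, smul_zero]
      · rw [map_smul, h4, smul_zero]
  set sm : V → V := fun ξ => ∑ i, (B ξ (f i) • e i + B (e i) ξ • f i) with hsm
  set pr : V → V := fun ξ => ξ - sm ξ with hpr
  have hfe : ∀ k i, B (f k) (e i) = - (if i = k then (1 : ℂ) else 0) := by
    intro k i
    rw [hB, h.ef]
  have h1 : ∀ ξ ∈ W, pr ξ ∈ W := by
    intro ξ hξ
    refine W.sub_mem hξ (W.sum_mem fun i _ => W.add_mem (W.smul_mem _ (h.he i))
      (W.smul_mem _ (h.hf i)))
  have h2 : ∀ k ξ, B (e k) (pr ξ) = 0 := by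
    intro k ξ
    simp only [hpr, hsm, map_sub, map_sum, map_add, map_smul, smul_eq_mul, h.ee, h.ef, mul_zero,
      zero_add, mul_ite, mul_one, Finset.sum_ite_eq, Finset.mem_univ, if_true, sub_self]
  have h3 : ∀ k ξ, B (f k) (pr ξ) = 0 := by
    intro k ξ
    simp only [hpr, hsm, map_sub, map_sum, map_add, map_smul, smul_eq_mul, h.ff, hfe, mul_zero,
      add_zero, mul_neg, mul_ite, mul_one, Finset.sum_neg_distrib, Finset.sum_ite_eq',
      Finset.mem_univ, if_true]
    rw [hB (f k) ξ]
    ring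
  have h4 : ∀ ξ ∈ W, ∀ η ∈ W, B η (pr ξ) = 0 := by
    intro ξ hξ η hη
    have e1 : η = pr η + sm η := by simp [hpr]
    have e2 : B (pr η) (pr ξ) = 0 := by
      refine h0 _ (h1 η hη) _ (h1 ξ hξ) ?_
      intro i
      exact ⟨h2 i η, h2 i ξ, h3 i η, h3 i ξ⟩
    have e3 : B (sm η) (pr ξ) = 0 := by
      simp only [hsm, map_sum, map_add, map_smul, LinearMap.sum_apply, LinearMap.add_apply,
        LinearMap.smul_apply, h2, h3, smul_zero, add_zero, Finset.sum_const_zero]
    calc B η (pr ξ) = B (pr η + sm η) (pr ξ) := by rw [← e1]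
      _ = 0 := by rw [map_add, LinearMap.add_apply, e2, e3, add_zero]
  have h5 : W.map Q ≤ Submodule.span ℂ (Set.range (Sum.elim (fun i => Q (e i)) fun i => Q (f i))) := by
    rintro y ⟨ξ, hξ, rfl⟩
    have e1 : Q (pr ξ) = 0 := hQ _ (h1 ξ hξ) (fun η hη => h4 ξ hξ η hη)
    have e2 : Q ξ = Q (sm ξ) := by
      have e3 : ξ = pr ξ + sm ξ := by simp [hpr]
      calc Q ξ = Q (pr ξ + sm ξ) := by rw [← e3]
        _ = Q (sm ξ) := by rw [map_add, e1, zero_add]
    rw [e2]
    simp only [hsm, map_sum, map_add, map_smul]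
    refine Submodule.sum_mem _ fun i _ => Submodule.add_mem _ (Submodule.smul_mem _ _
      (Submodule.subset_span ⟨Sum.inl i, rfl⟩)) (Submodule.smul_mem _ _
      (Submodule.subset_span ⟨Sum.inr i, rfl⟩))
  have : Module.Finite ℂ (Submodule.span ℂ
      (Set.range (Sum.elim (fun i => Q (e i)) fun i => Q (f i)))) :=
    FiniteDimensional.span_of_finite ℂ (Set.finite_range _)
  have h6 := Submodule.finrank_mono h5
  have h7 := finrank_range_le_card (R := ℂ) (Sum.elim (fun i => Q (e i)) fun i => Q (f i))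
  unfold Set.finrank at h7
  rw [Fintype.card_sum, Fintype.card_fin] at h7
  omega

lemma fam (B : V →ₗ[ℂ] V →ₗ[ℂ] ℂ) (hB : ∀ a b, B a b = - B b a) (W : Submodule ℂ V)
    (Q : V →ₗ[ℂ] Y) (hQ : ∀ ξ ∈ W, (∀ η ∈ W, B η ξ = 0) → Q ξ = 0) : ∀ m : ℕ,
    2 * m ≤ Module.finrank ℂ (W.map Q) → ∃ e f : Fin m → V, Sy B W m e f := by
  intro m
  induction m with
  | zero =>
    intro _
    exact ⟨fun i => i.elim0, fun i => i.elim0, ⟨fun i => i.elim0, fun i => i.elim0,
      fun i => i.elim0, fun i => i.elim0, fun i => i.elim0⟩⟩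
  | succ m ih =>
    intro hm
    obtain ⟨e, f, h⟩ := ih (by omega)
    obtain ⟨a, ha, b, hb, hab, hi⟩ := step B hB W Q hQ m e f h (by omega)
    have haa : B a a = 0 := by
      have := hB a a
      exact self_eq_neg.1 this
    have hbb : B b b = 0 := by
      have := hB b b
      exact self_eq_neg.1 this
    have hae : ∀ i, B a (e i) = 0 := fun i => by rw [hB, (hi i).1, neg_zero]
    have hbe : ∀ i, B b (e i) = 0 := fun i => by rw [hB, (hi i).2.1, neg_zero]
    have haf : ∀ i, B a (f i) = 0 := fun i => by rw [hB, (hi i).2.2.1, neg_zero]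
    have hbf : ∀ i, B b (f i) = 0 := fun i => by rw [hB, (hi i).2.2.2, neg_zero]
    refine ⟨Fin.snoc (α := fun _ => V) e a, Fin.snoc (α := fun _ => V) f b, ?_, ?_, ?_, ?_, ?_⟩
    · intro i
      refine Fin.lastCases ?_ (fun i => ?_) i
      · rw [Fin.snoc_last]; exact ha
      · rw [Fin.snoc_castSucc]; exact h.he i
    · intro i
      refine Fin.lastCases ?_ (fun i => ?_) i
      · rw [Fin.snoc_last]; exact hb
      · rw [Fin.snoc_castSucc]; exact h.hf i
    · intro i j
      refine Fin.lastCases ?_ (fun i => ?_) i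
      · refine Fin.lastCases ?_ (fun j => ?_) j
        · rw [Fin.snoc_last, Fin.snoc_last, hab, if_pos rfl]
        · rw [Fin.snoc_last, Fin.snoc_castSucc, haf, if_neg (Fin.castSucc_lt_last j).ne']
      · refine Fin.lastCases ?_ (fun j => ?_) j
        · rw [Fin.snoc_last, Fin.snoc_castSucc, (hi i).2.1, if_neg (Fin.castSucc_lt_last i).ne]
        · rw [Fin.snoc_castSucc, Fin.snoc_castSucc, h.ef]
          simp only [Fin.castSucc_inj]
    · intro i j
      refine Fin.lastCases ?_ (fun i => ?_) i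
      · refine Fin.lastCases ?_ (fun j => ?_) j
        · rw [Fin.snoc_last, haa]
        · rw [Fin.snoc_last, Fin.snoc_castSucc, hae]
      · refine Fin.lastCases ?_ (fun j => ?_) j
        · rw [Fin.snoc_last, Fin.snoc_castSucc, (hi i).1]
        · rw [Fin.snoc_castSucc, Fin.snoc_castSucc, h.ee]
    · intro i j
      refine Fin.lastCases ?_ (fun i => ?_) i
      · refine Fin.lastCases ?_ (fun j => ?_) j
        · rw [Fin.snoc_last, hbb]
        · rw [Fin.snoc_last, Fin.snoc_castSucc, hbf]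
      · refine Fin.lastCases ?_ (fun j => ?_) j
        · rw [Fin.snoc_last, Fin.snoc_castSucc, (hi i).2.2.2]
        · rw [Fin.snoc_castSucc, Fin.snoc_castSucc, h.ff]

end Fam

/-! ### signs -/

section Signs

variable {r : ℕ}

/-- The matrix of the standard symplectic form. -/
def IsJ (J : Option (Fin r × Fin 2) → Option (Fin r × Fin 2) → ℂ) : Prop :=
  (∀ a, J (some (a, 0)) (some (a, 1)) = 1) ∧
  ∀ b b', J b b' ≠ 0 → ∃ (a : Fin r) (u : Equiv.Perm (Fin 2)), b = some (a, u 0) ∧
    b' = some (a, u 1) ∧ J b b' = ((Equiv.Perm.sign u : ℤ) : ℂ)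

lemma term (J : Option (Fin r × Fin 2) → Option (Fin r × Fin 2) → ℂ) (hJ : IsJ J)
    (σ : Equiv.Perm (Option (Fin r × Fin 2))) (h0 : σ none = none)
    (h : ∀ i, J (σ (some (i, 0))) (σ (some (i, 1))) ≠ 0) :
    ((Equiv.Perm.sign σ : ℤ) : ℂ) * ∏ i, J (σ (some (i, 0))) (σ (some (i, 1))) = 1 := by
  choose a u h1 h2 h3 using fun i => hJ.2 _ _ (h i)
  have h4 : ∀ i k, σ (some (i, k)) = some (a i, u i k) := by
    intro i k
    have hk : k = 0 ∨ k = 1 := by omega
    rcases hk with rfl | rfl
    · exact h1 i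
    · exact h2 i
  have ha : Function.Injective a := by
    intro i j hij
    have e1 : σ (some (i, 0)) = σ (some (j, (u j).symm (u i 0))) := by
      rw [h4, h4, hij, Equiv.apply_symm_apply]
    have e2 := σ.injective e1
    have e3 := Option.some_injective _ e2
    exact congrArg Prod.fst e3
  have hb : Function.Bijective a := Finite.injective_iff_bijective.1 ha
  set τ : Equiv.Perm (Fin r) := Equiv.ofBijective a hb with hτ
  set ρ1 : Equiv.Perm (Fin r × Fin 2) := Equiv.prodCongrLeft fun _ : Fin 2 => τ with hρ1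
  set ρ2 : Equiv.Perm (Fin r × Fin 2) := Equiv.prodCongrRight u with hρ2
  have h5 : σ = Equiv.optionCongr (ρ1 * ρ2) := by
    ext1 b
    cases b with
    | none => rw [h0]; rfl
    | some b =>
      obtain ⟨i, k⟩ := b
      rw [h4]
      rfl
  have h6 : Equiv.Perm.sign σ = ∏ i, Equiv.Perm.sign (u i) := by
    rw [h5, Equiv.optionCongr_sign, Equiv.Perm.sign_mul, hρ1, hρ2, Equiv.Perm.sign_prodCongrLeft,
      Equiv.Perm.sign_prodCongrRight]
    simp
  rw [h6, Finset.prod_congr rfl fun i _ => h3 i]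
  have h7 : (∏ i, Equiv.Perm.sign (u i)) * (∏ i, Equiv.Perm.sign (u i)) = 1 :=
    Int.units_mul_self _
  have h8 : (((∏ i, Equiv.Perm.sign (u i) : ℤˣ) : ℤ) : ℂ) *
      (((∏ i, Equiv.Perm.sign (u i) : ℤˣ) : ℤ) : ℂ) = 1 := by
    rw [← Int.cast_mul, ← Units.val_mul, h7]
    simp
  have h9 : ∏ i, ((Equiv.Perm.sign (u i) : ℤ) : ℂ) =
      (((∏ i, Equiv.Perm.sign (u i) : ℤˣ) : ℤ) : ℂ) := by
    rw [Units.coe_prod, Int.cast_prod]
  rw [h9]
  exact h8

lemma sum_ne (J : Option (Fin r × Fin 2) → Option (Fin r × Fin 2) → ℂ) (hJ : IsJ J) :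
    ∑ σ : Equiv.Perm (Option (Fin r × Fin 2)), ((Equiv.Perm.sign σ : ℤ) : ℂ) *
      ((∏ i, J (σ (some (i, 0))) (σ (some (i, 1)))) * (if σ none = none then 1 else 0)) ≠ 0 := by
  classical
  have h1 : ∀ σ : Equiv.Perm (Option (Fin r × Fin 2)), ((Equiv.Perm.sign σ : ℤ) : ℂ) *
      ((∏ i, J (σ (some (i, 0))) (σ (some (i, 1)))) * (if σ none = none then 1 else 0)) =
      if (σ none = none ∧ ∀ i, J (σ (some (i, 0))) (σ (some (i, 1))) ≠ 0) then 1 else 0 := by
    intro σ
    by_cases h0 : σ none = none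
    · by_cases h : ∀ i, J (σ (some (i, 0))) (σ (some (i, 1))) ≠ 0
      · rw [if_pos h0, if_pos ⟨h0, h⟩, mul_one]
        exact term J hJ σ h0 h
      · have h' : ¬ (σ none = none ∧ ∀ i, J (σ (some (i, 0))) (σ (some (i, 1))) ≠ 0) :=
          fun hh => h hh.2
        rw [if_neg h']
        push Not at h
        obtain ⟨i, hi⟩ := h
        rw [Finset.prod_eq_zero (Finset.mem_univ i) hi, zero_mul, mul_zero]
    · have h' : ¬ (σ none = none ∧ ∀ i, J (σ (some (i, 0))) (σ (some (i, 1))) ≠ 0) :=
        fun hh => h0 hh.1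
      rw [if_neg h', if_neg h0, mul_zero, mul_zero]
  rw [Finset.sum_congr rfl fun σ _ => h1 σ, Finset.sum_boole]
  rw [Nat.cast_ne_zero]
  refine (Finset.card_pos.2 ⟨1, ?_⟩).ne'
  rw [Finset.mem_filter]
  refine ⟨Finset.mem_univ _, rfl, fun i => ?_⟩
  rw [Equiv.Perm.one_apply, Equiv.Perm.one_apply, hJ.1]
  exact one_ne_zero

end Signs

/-! ### the form -/

section Form

variable {N : ℕ}

lemma dot_ap (v w : Fin N → ℂ) : dot v w = ∑ i, v i * w i := by
  simp [dot, LinearMap.sum_apply]

/-- The form. -/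
noncomputable def bf (g : Biv N) (x : Cn N) : Cn N →ₗ[ℂ] Cn N →ₗ[ℂ] ℂ :=
  Matrix.toBilin' (mat g.f x)

lemma bf_ap (g : Biv N) (x a b : Cn N) : bf g x a b = ∑ i, ∑ j, a i * eval x (g.f i j) * b j := by
  unfold bf
  rw [Matrix.toBilin'_apply]
  rfl

lemma bf_skew (g : Biv N) (x a b : Cn N) : bf g x a b = - bf g x b a := by
  rw [bf_ap, bf_ap, Finset.sum_comm, ← Finset.sum_neg_distrib]
  refine Finset.sum_congr rfl fun i _ => ?_
  rw [← Finset.sum_neg_distrib]
  refine Finset.sum_congr rfl fun j _ => ?_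
  rw [g.skew i j, map_neg]
  ring

lemma bf_dot (g : Biv N) (x a b : Cn N) : dot a ((mat g.f x).mulVec b) = bf g x a b := by
  rw [dot_ap, bf_ap]
  refine Finset.sum_congr rfl fun i _ => ?_
  unfold Matrix.mulVec dotProduct
  rw [Finset.mul_sum]
  refine Finset.sum_congr rfl fun j _ => ?_
  change a i * (eval x (g.f i j) * b j) = _
  ring

lemma eval_brl (g : Biv N) (x a b : Cn N) : eval x (brl g a b) = bf g x a b := by
  unfold brl
  rw [bf_ap]
  simp only [map_sum, map_mul, eval_C]
  refine Finset.sum_congr rfl fun i _ => Finset.sum_congr rfl fun j _ => ?_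
  ring

lemma sum_hml (g : Biv N) (x a b : Cn N) : ∑ l, b l * eval x (hml g a l) = bf g x a b := by
  unfold hml
  rw [bf_ap, Finset.sum_comm]
  simp only [map_sum, map_mul, eval_C, Finset.mul_sum]
  refine Finset.sum_congr rfl fun i _ => Finset.sum_congr rfl fun j _ => ?_
  ring

lemma perp (x : Cn N) (hx : x ≠ 0) (y : Cn N) (h : ∀ η ∈ LinearMap.ker (dot x), dot η y = 0) :
    y ∈ Submodule.span ℂ {x} := by
  classical
  obtain ⟨k, hk⟩ := Function.ne_iff.1 hx
  rw [Pi.zero_apply] at hk
  rw [Submodule.mem_span_singleton]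
  refine ⟨y k / x k, ?_⟩
  funext j
  have h1 := h (x k • Pi.single j 1 - x j • Pi.single k 1) (by
    rw [LinearMap.mem_ker, map_sub, map_smul, map_smul, dot_ap, dot_ap]
    simp [Pi.single_apply]
    ring)
  rw [dot_ap] at h1
  simp [Pi.single_apply, sub_mul, Finset.sum_sub_distrib] at h1
  rw [Pi.smul_apply, smul_eq_mul, div_mul_eq_mul_div, div_eq_iff hk]
  linear_combination -h1

end Form

end PFNM

open PFNM

theorem specPFN : SpecPFN := by
  classical
  intro N r g x hx hr
  have hB := bf_skew g x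
  set W : Submodule ℂ (Cn N) := LinearMap.ker (dot x) with hW
  have hQ : ∀ ξ ∈ W, (∀ η ∈ W, bf g x η ξ = 0) →
      ((Submodule.span ℂ {x}).mkQ ∘ₗ (mat g.f x).mulVecLin) ξ = 0 := by
    intro ξ _ h
    rw [LinearMap.comp_apply, Submodule.mkQ_apply, Submodule.Quotient.mk_eq_zero]
    refine perp x hx _ ?_
    intro η hη
    rw [Matrix.mulVecLin_apply, bf_dot]
    exact h η hη
  obtain ⟨e, f, h⟩ := fam (bf g x) hB W _ hQ (r + 1) (by
    have h1 : Module.finrank ℂ (W.map ((Submodule.span ℂ {x}).mkQ ∘ₗ (mat g.f x).mulVecLin)) =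
        rk g.f x := rfl
    omega)
  set c : Option (Fin r × Fin 2) → Cn N := fun b => match b with
    | none => e (Fin.last r)
    | some (i, k) => if k = 0 then e i.castSucc else f i.castSucc with hc
  have c0 : c none = e (Fin.last r) := rfl
  have c1 : ∀ i, c (some (i, 0)) = e i.castSucc := fun i => rfl
  have c2 : ∀ i, c (some (i, 1)) = f i.castSucc := fun i => rfl
  have hfe : ∀ k i, bf g x (f k) (e i) = - (if i = k then (1 : ℂ) else 0) := by
    intro k i
    rw [hB, h.ef]
  have hcW : ∀ b, c b ∈ W := by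
    intro b
    match b with
    | none => exact h.he _
    | some (i, 0) => exact h.he _
    | some (i, 1) => exact h.hf _
  have hlast : ∀ b, bf g x (c b) (f (Fin.last r)) = if b = none then 1 else 0 := by
    intro b
    match b with
    | none => rw [c0, h.ef, if_pos rfl, if_pos rfl]
    | some (i, 0) =>
      rw [c1, h.ef, if_neg (Fin.castSucc_lt_last i).ne, if_neg (by simp)]
    | some (i, 1) => rw [c2, h.ff, if_neg (by simp)]
  have hJ : IsJ fun b b' => bf g x (c b) (c b') := by
    constructor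
    · intro a
      simp only [c1, c2, h.ef, if_true]
    · intro b b' hne
      simp only at hne ⊢
      match b, b' with
      | none, none => rw [c0, h.ee] at hne; exact absurd rfl hne
      | none, some (i, 0) => rw [c0, c1, h.ee] at hne; exact absurd rfl hne
      | none, some (i, 1) =>
        rw [c0, c2, h.ef, if_neg (Fin.castSucc_lt_last i).ne'] at hne; exact absurd rfl hne
      | some (i, 0), none => rw [c0, c1, h.ee] at hne; exact absurd rfl hne
      | some (i, 1), none =>
        rw [c0, c2, hfe, if_neg (Fin.castSucc_lt_last i).ne', neg_zero] at hne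
        exact absurd rfl hne
      | some (i, 0), some (j, 0) => rw [c1, c1, h.ee] at hne; exact absurd rfl hne
      | some (i, 1), some (j, 1) => rw [c2, c2, h.ff] at hne; exact absurd rfl hne
      | some (i, 0), some (j, 1) =>
        rw [c1, c2, h.ef] at hne ⊢
        have hij : i.castSucc = j.castSucc := by
          by_contra hh
          rw [if_neg hh] at hne
          exact hne rfl
        have hij' : i = j := Fin.castSucc_injective _ hij
        subst hij'
        refine ⟨i, 1, rfl, rfl, ?_⟩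
        rw [if_pos rfl]
        simp
      | some (i, 1), some (j, 0) =>
        rw [c1, c2, hfe] at hne ⊢
        have hij : j.castSucc = i.castSucc := by
          by_contra hh
          rw [if_neg hh, neg_zero] at hne
          exact hne rfl
        have hij' : j = i := Fin.castSucc_injective _ hij
        subst hij'
        refine ⟨j, Equiv.swap 0 1, by simp, by simp, ?_⟩
        rw [if_pos rfl, Equiv.Perm.sign_swap (by decide)]
        simp
  refine ⟨c, ?_, ?_, ?_⟩
  · intro b
    have h1 := hcW b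
    rw [hW, LinearMap.mem_ker, dot_ap] at h1
    rw [dot_ap, ← h1]
    exact Finset.sum_congr rfl fun i _ => mul_comm _ _
  · intro t ht
    have ht' : ∀ ξ : Cn N, ∑ b, t b * bf g x (c b) ξ = 0 := by
      intro ξ
      have h1 := ht ξ
      rw [bf_dot] at h1
      simpa only [map_sum, map_smul, LinearMap.sum_apply, LinearMap.smul_apply, smul_eq_mul]
        using h1
    funext b
    rw [Pi.zero_apply]
    match b with
    | none =>
      have h1 := ht' (f (Fin.last r))
      simp only [hlast, mul_ite, mul_one, mul_zero, Finset.sum_ite_eq', Finset.mem_univ,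
        if_true] at h1
      exact h1
    | some (i, 0) =>
      have h1 := ht' (f i.castSucc)
      rw [Finset.sum_eq_single (some (i, 0))] at h1
      · rw [c1, h.ef, if_pos rfl, mul_one] at h1
        exact h1
      · intro b' _ hb'
        match b' with
        | none => rw [c0, h.ef, if_neg (Fin.castSucc_lt_last i).ne', mul_zero]
        | some (j, 0) =>
          rw [c1, h.ef, if_neg, mul_zero]
          intro hh
          exact hb' (by rw [Fin.castSucc_injective _ hh])
        | some (j, 1) => rw [c2, h.ff, mul_zero]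
      · intro hh
        exact absurd (Finset.mem_univ _) hh
    | some (i, 1) =>
      have h1 := ht' (e i.castSucc)
      rw [Finset.sum_eq_single (some (i, 1))] at h1
      · rw [c2, hfe, if_pos rfl, mul_neg, mul_one, neg_eq_zero] at h1
        exact h1
      · intro b' _ hb'
        match b' with
        | none => rw [c0, h.ee, mul_zero]
        | some (j, 0) => rw [c1, h.ee, mul_zero]
        | some (j, 1) =>
          rw [c2, hfe, if_neg, neg_zero, mul_zero]
          intro hh
          exact hb' (by rw [Fin.castSucc_injective _ hh])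
      · intro hh
        exact absurd (Finset.mem_univ _) hh
  · intro t ht
    have h1 : ∑ l, f (Fin.last r) l * eval x (PFA g c l) = 0 := by
      have h2 : ∀ l, eval x (PFA g c l) = t * x l := fun l => congrFun ht l
      have h3 := h.hf (Fin.last r)
      rw [hW, LinearMap.mem_ker, dot_ap] at h3
      calc ∑ l, f (Fin.last r) l * eval x (PFA g c l) = ∑ l, t * (x l * f (Fin.last r) l) := by
            refine Finset.sum_congr rfl fun l _ => ?_
            rw [h2]
            ring
        _ = 0 := by rw [← Finset.mul_sum, h3, mul_zero]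
    refine sum_ne _ hJ ?_
    have h4 : ∑ l, f (Fin.last r) l * eval x (PFA g c l) =
        ∑ σ : Equiv.Perm (Option (Fin r × Fin 2)), ∑ l, f (Fin.last r) l *
          (((Equiv.Perm.sign σ : ℤ) : ℂ) *
            ((∏ i, bf g x (c (σ (some (i, 0)))) (c (σ (some (i, 1))))) *
              eval x (hml g (c (σ none)) l))) := by
      rw [Finset.sum_comm]
      refine Finset.sum_congr rfl fun l _ => ?_
      unfold PFA
      simp only [map_sum, map_mul, map_prod, eval_C, Finset.mul_sum, eval_brl]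
    rw [h4] at h1
    refine Eq.trans ?_ h1
    refine Finset.sum_congr rfl fun σ _ => ?_
    have h5 := hlast (σ none)
    rw [← sum_hml] at h5
    rw [← h5, Finset.mul_sum, Finset.mul_sum]
    refine Finset.sum_congr rfl fun l _ => ?_
    ring

end Pool.Agent.Lib.MPc9b009.LF
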