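import Pool.Agent.Lib.MP_c9b009_ag.LF.SpecD

/-!
# MP_c9b009_ag, row LF, module PFT: the vector field `A` is tangent to the hyperplanes (helper77)
-/

set_option autoImplicit false

namespace Pool.Agent.Lib.MPc9b009.LF

open MvPolynomial Pool.Agent.Lib.MPc9b009.B5 Pool.Agent.Lib.MPc9b009.OD
  Pool.Agent.Lib.MPc9b009.PS Pool.Agent.Lib.MPc9b009.LS MeasureTheory

namespace PFTM

section Abs

variable {r : ℕ} {R : Type*} [CommRing R]
  (β : Option (Fin r × Fin 2) → Option (Fin r × Fin 2) → R)
  (s : Equiv.Perm (Option (Fin r × Fin 2)) → R) (b : Option (Fin r × Fin 2))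

/-- the term of `σ` -/
def tm (σ : Equiv.Perm (Option (Fin r × Fin 2))) : R :=
  s σ * ((∏ i : Fin r, β (σ (some (i, 0))) (σ (some (i, 1)))) * β (σ none) b)

variable {β s b}

theorem flip (hb : ∀ a a', β a a' = -β a' a)
    (hs : ∀ (σ : Equiv.Perm (Option (Fin r × Fin 2))) (a : Fin r × Fin 2),
      s (σ * Equiv.swap (some a) none) = -s σ)
    (σ : Equiv.Perm (Option (Fin r × Fin 2))) (i : Fin r) (e e' : Fin 2) (he : e ≠ e')
    (h : σ (some (i, e)) = b) :
    tm β s b (σ * Equiv.swap (some (i, e')) none) = -tm β s b σ := by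
  have h1 : ∀ (j : Fin r) (x : Fin 2), (j, x) ≠ (i, e') →
      (σ * Equiv.swap (some (i, e')) none) (some (j, x)) = σ (some (j, x)) := by
    intro j x hjx
    rw [Equiv.Perm.mul_apply, Equiv.swap_apply_of_ne_of_ne _ (Option.some_ne_none _)]
    exact fun h => hjx (Option.some.inj h)
  have h2 : (σ * Equiv.swap (some (i, e')) none) none = σ (some (i, e')) := by
    rw [Equiv.Perm.mul_apply, Equiv.swap_apply_right]
  have h3 : (σ * Equiv.swap (some (i, e')) none) (some (i, e')) = σ none := by
    rw [Equiv.Perm.mul_apply, Equiv.swap_apply_left]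
  have h4 : (σ * Equiv.swap (some (i, e')) none) (some (i, e)) = b := by
    rw [h1 i e (fun h => he (congrArg Prod.snd h)), h]
  unfold tm
  rw [hs, ← Finset.mul_prod_erase Finset.univ _ (Finset.mem_univ i),
    ← Finset.mul_prod_erase Finset.univ (fun j => β (σ (some (j, 0))) (σ (some (j, 1))))
      (Finset.mem_univ i)]
  have h5 : ∏ j ∈ Finset.univ.erase i,
      β ((σ * Equiv.swap (some (i, e')) none) (some (j, 0)))
        ((σ * Equiv.swap (some (i, e')) none) (some (j, 1))) =
      ∏ j ∈ Finset.univ.erase i, β (σ (some (j, 0))) (σ (some (j, 1))) := by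
    refine Finset.prod_congr rfl fun j hj => ?_
    have hj' : j ≠ i := Finset.ne_of_mem_erase hj
    rw [h1 j 0 fun h => hj' (congrArg Prod.fst h), h1 j 1 fun h => hj' (congrArg Prod.fst h)]
  rw [h5, h2]
  have h6 : β ((σ * Equiv.swap (some (i, e')) none) (some (i, 0)))
        ((σ * Equiv.swap (some (i, e')) none) (some (i, 1))) * β (σ (some (i, e'))) b =
      β (σ (some (i, 0))) (σ (some (i, 1))) * β (σ none) b := by
    fin_cases e <;> fin_cases e'
    · exact absurd rfl he
    · refine Eq.trans (congrArg₂ (· * ·) (congrArg₂ β h4 h3) rfl) ?_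
      have h : σ (some (i, 0)) = b := h
      show β b (σ none) * β (σ (some (i, 1))) b = β (σ (some (i, 0))) (σ (some (i, 1))) * β (σ none) b
      rw [h, hb b (σ none), hb (σ (some (i, 1))) b]
      ring
    · refine Eq.trans (congrArg₂ (· * ·) (congrArg₂ β h3 h4) rfl) ?_
      have h : σ (some (i, 1)) = b := h
      show β (σ none) b * β (σ (some (i, 0))) b = β (σ (some (i, 0))) (σ (some (i, 1))) * β (σ none) b
      rw [h]
      ring
    · exact absurd rfl he
  linear_combination (-s σ * ∏ j ∈ Finset.univ.erase i, β (σ (some (j, 0))) (σ (some (j, 1)))) * h6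

/-- the partner of an index -/
def ptn : Option (Fin r × Fin 2) → Option (Fin r × Fin 2)
  | none => none
  | some (i, e) => some (i, 1 - e)

open Classical in
/-- the involution -/
noncomputable def inv (b : Option (Fin r × Fin 2)) (σ : Equiv.Perm (Option (Fin r × Fin 2))) :
    Equiv.Perm (Option (Fin r × Fin 2)) :=
  if σ none = b then σ else σ * Equiv.swap (ptn (σ⁻¹ b)) none

theorem ne_one_sub (e : Fin 2) : e ≠ 1 - e := by
  fin_cases e <;> decide

theorem sum_zero (hb : ∀ a a', β a a' = -β a' a) (h0 : ∀ a, β a a = 0)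
    (hs : ∀ (σ : Equiv.Perm (Option (Fin r × Fin 2))) (a : Fin r × Fin 2),
      s (σ * Equiv.swap (some a) none) = -s σ) :
    ∑ σ : Equiv.Perm (Option (Fin r × Fin 2)), tm β s b σ = 0 := by
  have hz : ∀ σ : Equiv.Perm (Option (Fin r × Fin 2)), σ none = b → tm β s b σ = 0 := by
    intro σ h
    unfold tm
    rw [h, h0, mul_zero, mul_zero]
  have hc : ∀ σ : Equiv.Perm (Option (Fin r × Fin 2)), σ none ≠ b →
      ∃ (i : Fin r) (e : Fin 2), σ (some (i, e)) = b ∧
        inv b σ = σ * Equiv.swap (some (i, 1 - e)) none := by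
    intro σ h
    have h1 : σ (σ⁻¹ b) = b := σ.apply_symm_apply b
    rcases h2 : σ⁻¹ b with _ | ⟨i, e⟩
    · rw [h2] at h1
      exact absurd h1 h
    · rw [h2] at h1
      refine ⟨i, e, h1, ?_⟩
      unfold inv
      rw [if_neg h, h2]
      rfl
  refine Finset.sum_involution (fun σ _ => inv b σ) (fun σ _ => ?_) (fun σ _ hne => ?_)
    (fun σ _ => Finset.mem_univ _) (fun σ _ => ?_)
  · by_cases h : σ none = b
    · have h1 : inv b σ = σ := if_pos h
      rw [h1, hz σ h, add_zero]
    · obtain ⟨i, e, h1, h2⟩ := hc σ h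
      rw [h2, flip hb hs σ i e (1 - e) (ne_one_sub e) h1, add_neg_cancel]
  · have h : σ none ≠ b := fun h => hne (hz σ h)
    obtain ⟨i, e, -, h2⟩ := hc σ h
    rw [h2]
    intro h3
    have h4 : Equiv.swap (some (i, 1 - e)) none = 1 := by
      have := congrArg (fun t => σ⁻¹ * t) h3
      simp at this
    have h5 := congrArg (fun t : Equiv.Perm (Option (Fin r × Fin 2)) => t none) h4
    simp [Equiv.swap_apply_right] at h5
  · by_cases h : σ none = b
    · have h1 : inv b σ = σ := if_pos h
      show inv b (inv b σ) = σ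
      rw [h1, h1]
    · obtain ⟨i, e, h1, h2⟩ := hc σ h
      show inv b (inv b σ) = σ
      rw [h2]
      have h3 : (σ * Equiv.swap (some (i, 1 - e)) none) none ≠ b := by
        rw [Equiv.Perm.mul_apply, Equiv.swap_apply_right]
        intro h4
        rw [← h1] at h4
        have h5 := Option.some.inj (σ.injective h4)
        exact ne_one_sub e (congrArg Prod.snd h5).symm
      have h4 : (σ * Equiv.swap (some (i, 1 - e)) none)⁻¹ b = some (i, e) := by
        rw [Equiv.Perm.inv_eq_iff_eq, Equiv.Perm.mul_apply, Equiv.swap_apply_of_ne_of_ne, h1]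
        · exact fun h => ne_one_sub e (congrArg Prod.snd (Option.some.inj h))
        · exact Option.some_ne_none _
      have h5 : inv b (σ * Equiv.swap (some (i, 1 - e)) none) =
          σ * Equiv.swap (some (i, 1 - e)) none * Equiv.swap (some (i, 1 - e)) none := by
        unfold inv
        rw [if_neg h3, h4]
        rfl
      rw [h5, mul_assoc, Equiv.swap_mul_self, mul_one]

end Abs

theorem brl_skew {N : ℕ} (g : Biv N) (c c' : Cn N) : brl g c c' = -brl g c' c := by
  unfold brl
  rw [Finset.sum_comm, ← Finset.sum_neg_distrib]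
  refine Finset.sum_congr rfl fun i _ => ?_
  rw [← Finset.sum_neg_distrib]
  refine Finset.sum_congr rfl fun j _ => ?_
  rw [g.skew j i]
  ring

theorem brl_self {N : ℕ} (g : Biv N) (c : Cn N) : brl g c c = 0 := by
  have h := brl_skew g c c
  have h2 : (2 : PR N) * brl g c c = 0 := by linear_combination h
  rcases mul_eq_zero.1 h2 with h3 | h3
  · exact absurd h3 two_ne_zero
  · exact h3

theorem sum_hml {N : ℕ} (g : Biv N) (c c' : Cn N) : ∑ l, C (c' l) * hml g c l = brl g c c' := by
  unfold brl hml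
  rw [Finset.sum_comm (s := Finset.univ) (t := Finset.univ)
    (f := fun i j => C (c i) * C (c' j) * g.f i j)]
  refine Finset.sum_congr rfl fun l _ => ?_
  rw [Finset.mul_sum]
  exact Finset.sum_congr rfl fun i _ => by ring

end PFTM

open PFTM in
theorem specPFT : SpecPFT := by
  intro N r g c b
  have h1 : ∑ l, C (c b l) * PFA g c l =
      ∑ σ : Equiv.Perm (Option (Fin r × Fin 2)),
        tm (fun a a' => brl g (c a) (c a')) (fun σ => C ((Equiv.Perm.sign σ : ℤ) : ℂ)) b σ := by
    unfold PFA tm
    simp_rw [Finset.mul_sum]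
    rw [Finset.sum_comm]
    refine Finset.sum_congr rfl fun σ _ => ?_
    rw [← sum_hml g (c (σ none)) (c b), Finset.mul_sum, Finset.mul_sum]
    exact Finset.sum_congr rfl fun l _ => by ring
  rw [h1]
  refine sum_zero (fun a a' => brl_skew g _ _) (fun a => brl_self g _) fun σ a => ?_
  rw [Equiv.Perm.sign_mul, Equiv.Perm.sign_swap (Option.some_ne_none a)]
  simp

end Pool.Agent.Lib.MPc9b009.LF
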