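import Pool.Agent.Lib.MP_c9b009_ag.LF.SpecT

/-!
# MP_c9b009_ag, row LF, part T, module PFW: the Pfaffian
-/

set_option autoImplicit false

namespace Pool.Agent.Lib.MPc9b009.LF

open MvPolynomial Pool.Agent.Lib.MPc9b009.B5 Pool.Agent.Lib.MPc9b009.OD
  Pool.Agent.Lib.MPc9b009.PS Pool.Agent.Lib.MPc9b009.LS

namespace PFWM

/-- Jacobi: the `2 × 2` minors of the adjugate are divisible by the determinant. -/
theorem jac2 {R : Type} [CommRing R] [IsDomain R] {n : ℕ} (A : Matrix (Fin n) (Fin n) R)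
    (hA : A.det ≠ 0) (i j : Fin n) (hij : i ≠ j) :
    ∃ m, A.adjugate i i * A.adjugate j j - A.adjugate i j * A.adjugate j i = A.det * m := by
  classical
  let s : Fin 2 → Fin n := ![i, j]
  let U : Matrix (Fin n) (Fin 2) R :=
    Matrix.of fun a t => A.adjugate a (s t) - (1 : Matrix (Fin n) (Fin n) R) a (s t)
  let V : Matrix (Fin 2) (Fin n) R := Matrix.of fun t b => if b = s t then 1 else 0
  let B : Matrix (Fin n) (Fin n) R := Matrix.of fun a b =>
    if b = i ∨ b = j then (1 : Matrix (Fin n) (Fin n) R) a b else A a b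
  let d : Fin n → R := fun b => if b = i ∨ b = j then A.det else 1
  have hs0 : s 0 = i := rfl
  have hs1 : s 1 = j := rfl
  let C₁ : Matrix (Fin n) (Fin n) R := 1 + U * V
  have hC : ∀ a b, C₁ a b = if b = i ∨ b = j then A.adjugate a b
      else (1 : Matrix (Fin n) (Fin n) R) a b := by
    intro a b
    rw [show C₁ = 1 + U * V from rfl, Matrix.add_apply, Matrix.mul_apply, Fin.sum_univ_two]
    change (1 : Matrix (Fin n) (Fin n) R) a b +
      ((A.adjugate a i - (1 : Matrix (Fin n) (Fin n) R) a i) * (if b = i then 1 else 0) +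
      (A.adjugate a j - (1 : Matrix (Fin n) (Fin n) R) a j) * (if b = j then 1 else 0)) = _
    by_cases hi : b = i
    · subst hi
      rw [if_pos rfl, if_neg hij, if_pos (Or.inl rfl)]
      ring
    · by_cases hj : b = j
      · subst hj
        rw [if_neg hi, if_pos rfl, if_pos (Or.inr rfl)]
        ring
      · rw [if_neg hi, if_neg hj, if_neg (by tauto)]
        ring
  have h1 : A * C₁ = B * Matrix.diagonal d := by
    ext a b
    rw [Matrix.mul_diagonal, Matrix.mul_apply]
    by_cases hb : b = i ∨ b = j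
    · simp only [hC, if_pos hb, B, d, Matrix.of_apply]
      have h2 := congrFun (congrFun (Matrix.mul_adjugate A) a) b
      rw [Matrix.mul_apply, Matrix.smul_apply, smul_eq_mul] at h2
      rw [h2, mul_comm]
    · simp only [hC, if_neg hb, B, d, Matrix.of_apply]
      have h2 := congrFun (congrFun (Matrix.mul_one A) a) b
      rw [Matrix.mul_apply] at h2
      rw [h2, mul_one]
  have h2 : C₁.det =
      A.adjugate i i * A.adjugate j j - A.adjugate i j * A.adjugate j i := by
    let C₂ : Matrix (Fin 2) (Fin 2) R := 1 + V * U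
    have hCC : C₁.det = C₂.det := Matrix.det_one_add_mul_comm U V
    rw [hCC, Matrix.det_fin_two]
    have hVU : ∀ t t', C₂ t t' = A.adjugate (s t) (s t') := by
      intro t t'
      rw [show C₂ = 1 + V * U from rfl, Matrix.add_apply, Matrix.mul_apply]
      simp only [U, V, Matrix.of_apply, ite_mul, one_mul, zero_mul, Finset.sum_ite_eq',
        Finset.mem_univ, if_true]
      have h3 : (1 : Matrix (Fin 2) (Fin 2) R) t t' =
          (1 : Matrix (Fin n) (Fin n) R) (s t) (s t') := by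
        rw [Matrix.one_apply, Matrix.one_apply]
        have h4 : s t = s t' ↔ t = t' := by
          fin_cases t <;> fin_cases t' <;> simp [hs0, hs1, hij, hij.symm, s]
        by_cases h5 : t = t'
        · rw [if_pos h5, if_pos (h4.2 h5)]
        · rw [if_neg h5, if_neg (fun h => h5 (h4.1 h))]
      rw [h3]
      ring
    rw [hVU, hVU, hVU, hVU, hs0, hs1]
  have h3 := congrArg Matrix.det h1
  rw [Matrix.det_mul, Matrix.det_mul, Matrix.det_diagonal, h2] at h3
  have h4 : ∏ b, d b = A.det * (A.det * ∏ b ∈ (Finset.univ.erase i).erase j, d b) := by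
    rw [← Finset.mul_prod_erase Finset.univ d (Finset.mem_univ i),
      ← Finset.mul_prod_erase (Finset.univ.erase i) d
        (Finset.mem_erase.2 ⟨hij.symm, Finset.mem_univ j⟩)]
    simp only [d, true_or, or_true, if_true]
  rw [h4] at h3
  refine ⟨B.det * ∏ b ∈ (Finset.univ.erase i).erase j, d b, ?_⟩
  apply mul_left_cancel₀ hA
  rw [h3]
  ring

/-- The adjugate of a skew matrix is divisible by the Pfaffian. -/
theorem adj_dvd {R : Type} [CommRing R] [IsDomain R] [CharZero R] [IsIntegrallyClosed R] {n : ℕ}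
    (A : Matrix (Fin n) (Fin n) R) (f : R) (hf : f ≠ 0) (hsk : A.transpose = - A)
    (hd : f ^ 2 = A.det) (i j : Fin n) : f ∣ A.adjugate i j := by
  classical
  have hdet : A.det ≠ 0 := by
    rw [← hd]
    exact pow_ne_zero 2 hf
  have hev : Even n := by
    by_contra hodd
    rw [Nat.not_even_iff_odd] at hodd
    have h1 := Matrix.det_transpose A
    rw [hsk, Matrix.det_neg, Fintype.card_fin, hodd.neg_one_pow, neg_one_mul] at h1
    exact hdet (self_eq_neg.mp h1.symm)
  have hpos : 0 < n := i.pos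
  have hodd : Odd (n - 1) := Nat.Even.sub_odd hpos hev odd_one
  have hadj : A.adjugate.transpose = - A.adjugate := by
    rw [Matrix.adjugate_transpose, hsk]
    have h1 : - A = (-1 : R) • A := by
      rw [neg_smul, one_smul]
    rw [h1, Matrix.adjugate_smul, Fintype.card_fin, hodd.neg_one_pow, neg_smul, one_smul]
  have hji : ∀ a b, A.adjugate b a = - A.adjugate a b := by
    intro a b
    have h1 := congrFun (congrFun hadj a) b
    rw [Matrix.transpose_apply, Matrix.neg_apply] at h1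
    exact h1
  have hii : ∀ a, A.adjugate a a = 0 := fun a => self_eq_neg.mp (hji a a)
  by_cases hij : i = j
  · subst hij
    rw [hii]
    exact dvd_zero f
  · obtain ⟨m, hm⟩ := jac2 A hdet i j hij
    rw [hii, zero_mul, zero_sub, hji i j, ← hd] at hm
    have h1 : f ^ 2 ∣ A.adjugate i j ^ 2 := ⟨m, by rw [← hm]; ring⟩
    exact (IsIntegrallyClosed.pow_dvd_pow_iff two_ne_zero).1 h1

/-- Cramer's rule -/
theorem lin3 {S : Type} [CommRing S] {m n : ℕ} (A : Matrix (Fin m) (Fin m) S)
    (G : Fin m → Fin n → S) (vJ : Fin n → S) (vK : Fin m → S) (b : Fin m) :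
    A.det * vK b - ∑ i, vJ i * (- ∑ a, A.adjugate b a * G a i) =
      ∑ a, A.adjugate b a * (∑ i, vJ i * G a i + ∑ b', vK b' * A a b') := by
  have h3 : ∑ a, A.adjugate b a * ∑ b', vK b' * A a b' = A.det * vK b := by
    have h4 : ∑ a, A.adjugate b a * ∑ b', vK b' * A a b' =
        ∑ b', (A.adjugate * A) b b' * vK b' := by
      simp only [Matrix.mul_apply, Finset.mul_sum, Finset.sum_mul]
      rw [Finset.sum_comm]
      refine Finset.sum_congr rfl fun b' _ => Finset.sum_congr rfl fun a _ => ?_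
      ring
    rw [h4, Matrix.adjugate_mul]
    simp only [Matrix.smul_apply, Matrix.one_apply, smul_eq_mul, mul_ite, mul_one, mul_zero,
      ite_mul, zero_mul, Finset.sum_ite_eq, Finset.mem_univ, if_true]
  have h5 : ∑ i, vJ i * (- ∑ a, A.adjugate b a * G a i) =
      - ∑ a, A.adjugate b a * ∑ i, vJ i * G a i := by
    simp only [mul_neg, Finset.sum_neg_distrib, Finset.mul_sum]
    rw [Finset.sum_comm]
    congr 1
    refine Finset.sum_congr rfl fun a _ => Finset.sum_congr rfl fun i _ => ?_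
    ring
  rw [h5, ← h3, sub_neg_eq_add, ← Finset.sum_add_distrib]
  refine Finset.sum_congr rfl fun a _ => ?_
  ring

/-- VJP (3) -/
theorem vjp3 {N n : ℕ} {P : Ideal (PR N)} (c : Crd P n) (v : Fin N → PR N) (e : Ideal (PR N))
    (he : ∀ a, vf v (c.F a) ∈ e) (l : Fin N) :
    c.Δ * v l - ∑ i, v (c.J i) * c.V i l ∈ e := by
  classical
  have hJJ : ∀ i j, c.J i = c.J j → i = j := by
    intro i j h
    have h1 := c.bij.1 (a₁ := Sum.inl i) (a₂ := Sum.inl j) h
    exact Sum.inl.inj h1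
  have hJK : ∀ i b, c.J i ≠ c.K b := by
    intro i b h
    have h1 := c.bij.1 (a₁ := Sum.inl i) (a₂ := Sum.inr b) h
    cases h1
  have hKK : ∀ i j, c.K i = c.K j → i = j := by
    intro i j h
    have h1 := c.bij.1 (a₁ := Sum.inr i) (a₂ := Sum.inr j) h
    exact Sum.inr.inj h1
  have hsum : ∀ f : Fin N → PR N, ∑ l, f l = ∑ i, f (c.J i) + ∑ b, f (c.K b) := by
    intro f
    rw [← Equiv.sum_comp (Equiv.ofBijective _ c.bij) f, Fintype.sum_sum_type]
    rfl
  set A : Matrix (Fin (N - n)) (Fin (N - n)) (PR N) :=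
    Matrix.of fun a b => pderiv (c.K b) (c.F a) with hA
  have hVJ : ∀ i j, c.V i (c.J j) = if i = j then c.Δ else 0 := by
    intro i j
    rw [Crd.V]
    rw [Finset.sum_eq_zero (fun b _ => if_neg (hJK j b)), sub_zero]
    by_cases h : i = j
    · subst h; simp
    · rw [if_neg h, if_neg (fun h' => h (hJJ _ _ h').symm)]
  have hVK : ∀ i b, c.V i (c.K b) =
      - ∑ a, A.adjugate b a * pderiv (c.J i) (c.F a) := by
    intro i b
    rw [Crd.V, if_neg (fun h => hJK i b h.symm), zero_sub]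
    congr 1
    rw [Finset.sum_eq_single b]
    · rw [if_pos rfl]
    · intro b' _ hb'
      exact if_neg (fun h => hb' (hKK _ _ h).symm)
    · intro h; exact absurd (Finset.mem_univ b) h
  obtain ⟨x, rfl⟩ := c.bij.2 l
  rcases x with j | b
  · have h1 : c.Δ * v (Sum.elim c.J c.K (Sum.inl j)) -
        ∑ i, v (c.J i) * c.V i (Sum.elim c.J c.K (Sum.inl j)) = 0 := by
      rw [Sum.elim_inl, Finset.sum_eq_single j]
      · rw [hVJ, if_pos rfl]; ring
      · intro i _ hi
        rw [hVJ, if_neg hi, mul_zero]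
      · intro h; exact absurd (Finset.mem_univ _) h
    rw [h1]
    exact e.zero_mem
  · have h1 : c.Δ * v (c.K b) - ∑ i, v (c.J i) * c.V i (c.K b) =
        ∑ a, A.adjugate b a * vf v (c.F a) := by
      have h2 : ∀ a, vf v (c.F a) = ∑ i, v (c.J i) * pderiv (c.J i) (c.F a) +
          ∑ b', v (c.K b') * A a b' := by
        intro a
        rw [vf, hsum]
        rfl
      simp only [hVK, h2]
      exact lin3 A (fun a i => pderiv (c.J i) (c.F a)) (fun i => v (c.J i)) (fun b => v (c.K b)) b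
    rw [Sum.elim_inr, h1]
    exact Ideal.sum_mem _ fun a _ => Ideal.mul_mem_left _ _ (he a)

/-- The minors in terms of the `J`-block. -/
theorem block {T : Type} [CommRing T] {N n : ℕ} (D : T) (a : Fin N → Fin N → T)
    (J : Fin n → Fin N) (w : Fin n → Fin N → T) (hsk : ∀ i j, a j i = - a i j)
    (h3 : ∀ l j, D * a l j = ∑ i, a (J i) j * w i l) (I' J' : Fin n → Fin N) :
    (D * D) ^ n * (Matrix.of fun s t => a (I' s) (J' t)).det =
      (Matrix.of fun s i => w i (I' s)).det * (Matrix.of fun i j => a (J i) (J j)).det *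
        (Matrix.of fun m t => w m (J' t)).det := by
  have h7 : ∀ l j, (D * D) * a l j = ∑ i, ∑ m, w i l * a (J i) (J m) * w m j := by
    intro l j
    rw [mul_assoc, h3, Finset.mul_sum]
    refine Finset.sum_congr rfl fun i _ => ?_
    have h8 : D * a (J i) j = ∑ m, a (J i) (J m) * w m j := by
      rw [hsk j (J i), mul_neg, h3, ← Finset.sum_neg_distrib]
      refine Finset.sum_congr rfl fun m _ => ?_
      rw [hsk (J m) (J i)]
      ring
    rw [← mul_assoc, h8, Finset.sum_mul]
    refine Finset.sum_congr rfl fun m _ => ?_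
    ring
  have h9 : (D * D) • (Matrix.of fun s t => a (I' s) (J' t)) =
      (Matrix.of fun s i => w i (I' s)) * (Matrix.of fun i j => a (J i) (J j)) *
        (Matrix.of fun m t => w m (J' t)) := by
    ext s t
    rw [Matrix.smul_apply, smul_eq_mul, Matrix.mul_apply]
    simp only [Matrix.mul_apply, Matrix.of_apply]
    rw [h7, Finset.sum_comm]
    refine Finset.sum_congr rfl fun m _ => ?_
    rw [Finset.sum_mul]
  have h10 := congrArg Matrix.det h9
  rw [Matrix.det_smul, Matrix.det_mul, Matrix.det_mul, Fintype.card_fin] at h10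
  exact h10

/-- The determinant of the `J`-block is not in `I`. -/
theorem det_notMem {N n : ℕ} {I : Ideal (PR N)} (hI : I.IsPrime) (π : Fin N → Fin N → PR N)
    (hn : 2 ≤ n) (hsk : ∀ i j, π j i = - π i j) (hst : Stab π I)
    (hx : ∃ x ∈ Zer I, (mat π x).rank = n) (c : Crd I n) (hΔ : c.Δ ∉ I) :
    (Matrix.of fun i j => π (c.J i) (c.J j)).det ∉ I := by
  classical
  intro hdet
  obtain ⟨x, hxI, hxr⟩ := hx
  obtain ⟨k, rfl⟩ : ∃ k, n = k + 1 := ⟨n - 1, by omega⟩
  have h1 : ¬ (mat π x).rank ≤ k := by omega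
  rw [← specRKM ℂ _ N N k (mat π x)] at h1
  push Not at h1
  obtain ⟨I', J', hm⟩ := h1
  set M : Matrix (Fin (k + 1)) (Fin (k + 1)) (PR N) :=
    Matrix.of fun s t => π (I' s) (J' t) with hM
  have hMI : M.det ∉ I := by
    intro h
    have h2 := hxI _ h
    rw [RingHom.map_det] at h2
    exact hm h2
  let qm : PR N →+* PR N ⧸ I := Ideal.Quotient.mk I
  have := hI
  have hD : qm c.Δ ≠ 0 := fun h => hΔ (Ideal.Quotient.eq_zero_iff_mem.1 h)
  have h3 : ∀ l j, qm c.Δ * qm (π l j) = ∑ i, qm (π (c.J i) j) * qm (c.V i l) := by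
    intro l j
    have h4 := vjp3 c (fun l => π l j) I (fun a => hst _ (c.mem a) j) l
    have h6 : qm (c.Δ * π l j - ∑ i, π (c.J i) j * c.V i l) = 0 :=
      Ideal.Quotient.eq_zero_iff_mem.2 h4
    rw [map_sub, map_mul, map_sum, sub_eq_zero] at h6
    simpa only [map_mul] using h6
  have h10 := block (qm c.Δ) (fun l j => qm (π l j)) c.J (fun i l => qm (c.V i l))
    (fun i j => by rw [hsk i j, map_neg]) h3 I' J'
  have h11 : (Matrix.of fun i j => qm (π (c.J i) (c.J j))).det = 0 := by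
    have h12 := RingHom.map_det qm (Matrix.of fun i j => π (c.J i) (c.J j))
    have h13 : qm (Matrix.of fun i j => π (c.J i) (c.J j)).det = 0 :=
      Ideal.Quotient.eq_zero_iff_mem.2 hdet
    rw [h13] at h12
    exact h12.symm
  have h14 : (Matrix.of fun s t => qm (π (I' s) (J' t))).det ≠ 0 := by
    have h12 := RingHom.map_det qm M
    intro h
    apply hMI
    rw [← Ideal.Quotient.eq_zero_iff_mem]
    exact h12.trans h
  rw [h11, mul_zero, zero_mul] at h10
  exact (mul_ne_zero (pow_ne_zero _ (mul_ne_zero hD hD)) h14) h10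

/-- Primes of `R` and primes between `I` and `mx p`. -/
theorem prime_corr {N n : ℕ} {I : Ideal (PR N)} {p : Cn N} {c : Crd I n} {R : Type} [CommRing R]
    [IsDomain R] [IsLocalRing R] [Algebra ℂ R] {ρ : PR N →ₐ[ℂ] R} {dd : Fin n → Derivation ℂ R R}
    (h : LRP I p c R ρ dd) (q' : Ideal (PR N)) (hq' : q'.IsPrime) (hI : I ≤ q') (Q : Ideal R)
    (hQ : Q.IsPrime) (hlt : q' < Q.comap ρ)
    (hQ1 : ∀ Q' : Ideal R, Q'.IsPrime → Q' < Q → Q' = ⊥) : q' = I := by
  have hb : ∀ b : PR N, eval p b ≠ 0 → b ∉ q' := by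
    intro b hb hbq
    have h1 : ρ b ∈ Q := hlt.le hbq
    exact hQ.ne_top (Ideal.eq_top_of_isUnit_mem _ h1 ((h.unit b).2 hb))
  have hcan : ∀ a b : PR N, ρ a = ρ b → a ∈ q' → b ∈ q' := by
    intro a b hab ha
    have h1 : a - b ∈ q' := hI ((h.ker _).1 (by rw [map_sub, hab, sub_self]))
    have h2 := q'.sub_mem ha h1
    rwa [sub_sub_cancel] at h2
  let Q' : Ideal R :=
    { carrier := {y | ∃ a b : PR N, a ∈ q' ∧ eval p b ≠ 0 ∧ y * ρ b = ρ a}
      add_mem' := by
        rintro y z ⟨a, b, ha, hb1, h1⟩ ⟨a', b', ha', hb2, h2⟩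
        refine ⟨a * b' + a' * b, b * b',
          q'.add_mem (q'.mul_mem_right _ ha) (q'.mul_mem_right _ ha'), ?_, ?_⟩
        · rw [map_mul]
          exact mul_ne_zero hb1 hb2
        · rw [map_mul, map_add, map_mul, map_mul, ← h1, ← h2]
          ring
      zero_mem' := ⟨0, 1, q'.zero_mem, by rw [map_one]; exact one_ne_zero, by
        rw [zero_mul, map_zero]⟩
      smul_mem' := by
        rintro r y ⟨a, b, ha, hb1, h1⟩
        obtain ⟨a', b', hb2, h2⟩ := h.frac r
        refine ⟨a' * a, b' * b, q'.mul_mem_left _ ha, ?_, ?_⟩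
        · rw [map_mul]
          exact mul_ne_zero hb2 hb1
        · rw [smul_eq_mul, map_mul, map_mul, ← h1, ← h2]
          ring }
  have hmem : ∀ y, y ∈ Q' ↔ ∃ a b : PR N, a ∈ q' ∧ eval p b ≠ 0 ∧ y * ρ b = ρ a :=
    fun y => Iff.rfl
  have hle : Q' ≤ Q := by
    intro y hy
    obtain ⟨a, b, ha, hb1, h1⟩ := (hmem y).1 hy
    have h2 : y * ρ b ∈ Q := by
      rw [h1]
      exact hlt.le ha
    rcases hQ.mem_or_mem h2 with h3 | h3
    · exact h3
    · exact absurd (Ideal.eq_top_of_isUnit_mem _ h3 ((h.unit b).2 hb1)) hQ.ne_top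
  have hρ : ∀ s : PR N, ρ s ∈ Q' → s ∈ q' := by
    intro s hs
    obtain ⟨a, b, ha, hb1, h1⟩ := (hmem _).1 hs
    have h2 : s * b ∈ q' := hcan a (s * b) (by rw [map_mul, h1]) ha
    exact (hq'.mem_or_mem h2).resolve_right (hb b hb1)
  have hP : Q'.IsPrime := by
    refine ⟨fun htop => hQ.ne_top (top_le_iff.1 (htop ▸ hle)), ?_⟩
    intro y z hyz
    obtain ⟨a₁, b₁, hb1, h1⟩ := h.frac y
    obtain ⟨a₂, b₂, hb2, h2⟩ := h.frac z
    obtain ⟨a₃, b₃, ha3, hb3, h3⟩ := (hmem _).1 hyz
    have h4 : (a₁ * a₂) * b₃ ∈ q' := by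
      refine hcan (a₃ * (b₁ * b₂)) _ ?_ (q'.mul_mem_right _ ha3)
      simp only [map_mul]
      rw [← h1, ← h2, ← h3]
      ring
    have h5 := (hq'.mem_or_mem h4).resolve_right (hb b₃ hb3)
    rcases hq'.mem_or_mem h5 with h6 | h6
    · exact Or.inl ((hmem _).2 ⟨a₁, b₁, h6, hb1, h1⟩)
    · exact Or.inr ((hmem _).2 ⟨a₂, b₂, h6, hb2, h2⟩)
  have hne : Q' < Q := by
    refine lt_of_le_of_ne hle ?_
    intro he
    obtain ⟨s, hs, hs'⟩ := Set.exists_of_ssubset hlt
    apply hs'
    apply hρ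
    rw [he]
    exact hs
  have hbot := hQ1 Q' hP hne
  refine le_antisymm ?_ hI
  intro a ha
  have h1 : ρ a ∈ Q' := (hmem _).2 ⟨a, 1, ha, by rw [map_one]; exact one_ne_zero, by
    rw [map_one, mul_one]⟩
  rw [hbot, Ideal.mem_bot] at h1
  exact (h.ker a).1 h1

end PFWM

open PFWM

/-- PFW. -/
theorem specPFW (hLOD : SpecLOD) (hNRM : SpecNRM) (hHTO : SpecHTO) (hHGT : SpecHGT)
    (hDVQ : SpecDVQ) (hSQR : SpecSQR) (hRDQ : SpecRDQ) : SpecPFW := by
  classical
  intro N n I π hn hI htr hsk hst hR hx p hp c hΔ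
  obtain ⟨R, iR, iD, iL, iN, iA, ρ, dd, h⟩ := hLOD N n I hI htr p hp c hΔ
  have hIC : IsIntegrallyClosed R := hNRM N n I hI p hp c hΔ R iR iD iL iN iA ρ dd h
  have hCZ : CharZero R := charZero_of_injective_algebraMap (algebraMap ℂ R).injective
  have hΔI : c.Δ ∉ I := fun h1 => hΔ (hp _ h1)
  have hδI := det_notMem hI π hn hsk hst hx c hΔI
  set A₀ : Matrix (Fin n) (Fin n) (PR N) := Matrix.of fun i j => π (c.J i) (c.J j) with hA₀
  set A : Matrix (Fin n) (Fin n) R := Matrix.of fun i j => ρ (π (c.J i) (c.J j)) with hA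
  have hdet : A.det = ρ A₀.det := by
    have h1 := RingHom.map_det (ρ : PR N →+* R) A₀
    exact h1.symm
  have hdet0 : A.det ≠ 0 := by
    rw [hdet]
    exact fun h1 => hδI ((h.ker _).1 h1)
  have hAsk : A.transpose = - A := by
    ext i j
    rw [Matrix.transpose_apply, Matrix.neg_apply, hA, Matrix.of_apply, Matrix.of_apply,
      hsk (c.J i) (c.J j), map_neg]
  obtain ⟨f, hf⟩ := hSQR n R iR iD hCZ hIC A hAsk
  have hf0 : f ≠ 0 := by
    rintro rfl
    apply hdet0
    rw [← hf]
    exact zero_pow two_ne_zero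
  have := hIC
  choose W hW using fun i j => adj_dvd A f hf0 hAsk hf i j
  refine ⟨R, iR, iD, iL, iN, iA, ρ, dd, Matrix.of W, f, h, hf0, ?_, hf, ?_⟩
  · ext i j
    apply mul_left_cancel₀ hf0
    have h1 := congrFun (congrFun (Matrix.mul_adjugate A) i) j
    rw [Matrix.mul_apply, Matrix.smul_apply, smul_eq_mul, ← hf] at h1
    rw [Matrix.mul_apply, Finset.mul_sum, Matrix.smul_apply, smul_eq_mul, ← mul_assoc, ← sq, ← h1]
    refine Finset.sum_congr rfl fun k _ => ?_
    rw [hW k j]
    change f * (A i k * W k j) = A i k * (f * W k j)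
    ring
  · intro a ha
    refine hHTO R iR iD iN hIC a f hf0 ?_
    intro Q hQ hfQ hQ1
    have hq : (Q.comap ρ).IsPrime := Ideal.comap_isPrime ρ Q
    have hIq : I ≤ Q.comap ρ := by
      intro b hb
      rw [Ideal.mem_comap, (h.ker b).2 hb]
      exact Q.zero_mem
    have hδq : A₀.det ∈ Q.comap ρ := by
      rw [Ideal.mem_comap, ← hdet, ← hf]
      exact Ideal.pow_mem_of_mem Q hfQ 2 (by norm_num)
    have hlt : I < Q.comap ρ := by
      refine lt_of_le_of_ne hIq ?_
      intro he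
      apply hδI
      rw [he]
      exact hδq
    have hΔq : c.Δ ∉ Q.comap ρ := by
      intro h1
      exact hQ.ne_top (Ideal.eq_top_of_isUnit_mem _ h1 ((h.unit _).2 hΔ))
    have hD := hHGT N n I (Q.comap ρ) hI hq hlt htr
      (fun q' hq' hI' hl => prime_corr h q' hq' hI' Q hQ hl hQ1)
    obtain ⟨u, σ, h1, h2, h3, j, h4⟩ := hRDQ N n I (Q.comap ρ) π hn hI hq hIq htr hD hsk hst hR c
      hΔq hδq
    have h5 : f ^ 2 * ρ u = ρ σ ^ 2 := by
      rw [hf, hdet, ← map_mul, h1, map_pow]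
    have h6 : ∃ j, dd j (ρ σ) ∉ Q := by
      refine ⟨j, fun h7 => h4 ?_⟩
      rw [Ideal.mem_comap, ← h.der]
      exact Q.mul_mem_left _ h7
    exact (hDVQ n R iR iD iN iA hIC dd Q hQ hQ1 f (ρ u) (ρ σ) hf0 hfQ h2 h5 h6).2 a ha

end Pool.Agent.Lib.MPc9b009.LF
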