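import Pool.Agent.Lib.MP_c9b009_ag.LF.SpecA
import Pool.Agent.Lib.MP_c9b009_ag.PS.JST
import Pool.Agent.Lib.MP_c9b009_ag.LS.EXD
import Pool.Agent.Lib.MP_c9b009_ag.B5.TRH

/-!
# MP_c9b009_ag, row LF, module PHA: the invariant volume form (theorem H)
-/

set_option autoImplicit false

namespace Pool.Agent.Lib.MPc9b009.LF

open MvPolynomial Pool.Agent.Lib.MPc9b009.B5 Pool.Agent.Lib.MPc9b009.OD
  Pool.Agent.Lib.MPc9b009.PS Pool.Agent.Lib.MPc9b009.LS

namespace PHAM

/-! ### linear algebra -/

theorem exists_minor {F : Type} [Field F] {N d : ℕ} (U : Fin d → Fin N → F)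
    (hU : LinearIndependent F U) :
    ∃ A : Fin d → Fin N, (Matrix.of fun i j => U j (A i)).det ≠ 0 := by
  classical
  cases d with
  | zero => exact ⟨Fin.elim0, by simp⟩
  | succ k =>
    by_contra hcon
    push Not at hcon
    have h1 : (Matrix.of U).rank ≤ k := by
      refine (specRKM F _ (k + 1) N k (Matrix.of U)).1 fun I J => ?_
      have h2 : (Matrix.of fun s t => Matrix.of U (I s) (J t)) =
          (Matrix.of fun s i => if I s = i then (1 : F) else 0) *
            (Matrix.of fun i t => U i (J t)) := by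
        ext s t
        rw [Matrix.mul_apply]
        simp
      have h3 : (Matrix.of fun i t => U i (J t)).det = 0 := by
        rw [← Matrix.det_transpose]
        exact hcon J
      rw [h2, Matrix.det_mul, h3, mul_zero]
    have h2 : (Matrix.of U).rank = Fintype.card (Fin (k + 1)) := LinearIndependent.rank_matrix hU
    rw [h2, Fintype.card_fin] at h1
    omega

theorem frame {L E : Type} [Field L] [Field E] [Algebra L E] {N d : ℕ}
    (T : Submodule L (Fin N → L)) (hT : Module.finrank L T = d) (u : Fin d → Fin N → E)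
    (hu : ∀ s ∈ T, (fun l => algebraMap L E (s l)) ∈ Submodule.span E (Set.range u))
    (A : Fin d → Fin N) (hA : (Matrix.of fun i j => u j (A i)).det ≠ 0) :
    ∃ t : Fin d → Fin N → L, (∀ i, t i ∈ T) ∧ (∀ i j, t i (A j) = if i = j then 1 else 0) ∧
      ∀ w ∈ Submodule.span E {w : Fin N → E | ∃ s ∈ T, w = fun l => algebraMap L E (s l)},
        ∀ l, w l = ∑ m, w (A m) * algebraMap L E (t m l) := by
  classical
  let ρ : T →ₗ[L] (Fin d → L) :=
    { toFun := fun s i => s.1 (A i)
      map_add' := fun _ _ => rfl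
      map_smul' := fun _ _ => rfl }
  have hinj0 : ∀ s ∈ T, (∀ i, s (A i) = 0) → s = 0 := by
    intro s hs h0
    obtain ⟨c, hc⟩ := (Submodule.mem_span_range_iff_exists_fun E).1 (hu s hs)
    have h1 : (Matrix.of fun i j => u j (A i)).mulVec c = 0 := by
      funext i
      have h2 := congrFun hc (A i)
      rw [Finset.sum_apply] at h2
      rw [Matrix.mulVec, dotProduct]
      simp only [Matrix.of_apply, Pi.zero_apply]
      rw [h0 i, map_zero] at h2
      rw [← h2]
      exact Finset.sum_congr rfl fun j _ => by rw [Pi.smul_apply, smul_eq_mul, mul_comm]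
    have h2 : c = 0 := Matrix.eq_zero_of_mulVec_eq_zero hA h1
    funext l
    have h3 := congrFun hc l
    rw [h2] at h3
    simp only [Pi.zero_apply, zero_smul, Finset.sum_const_zero] at h3
    exact (map_eq_zero (algebraMap L E)).1 h3.symm
  have hinj : Function.Injective ρ := by
    rw [← LinearMap.ker_eq_bot, LinearMap.ker_eq_bot']
    intro s hs
    apply Subtype.ext
    exact hinj0 s.1 s.2 fun i => congrFun hs i
  have hsurj : Function.Surjective ρ :=
    (LinearMap.injective_iff_surjective_of_finrank_eq_finrank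
      (by rw [hT, Module.finrank_fin_fun])).1 hinj
  choose t ht using fun i => hsurj (Pi.single i (1 : L))
  have hdual : ∀ i j, (t i).1 (A j) = if i = j then 1 else 0 := by
    intro i j
    have h1 := congrFun (ht i) j
    rw [Pi.single_apply] at h1
    change (t i).1 (A j) = _ at h1
    rw [h1]
    simp only [eq_comm]
  have hs : ∀ s ∈ T, ∀ l, s l = ∑ m, s (A m) * (t m).1 l := by
    intro s hs l
    have h1 : s - ∑ m, s (A m) • (t m).1 = 0 := by
      apply hinj0
      · exact T.sub_mem hs (T.sum_mem fun m _ => T.smul_mem _ (t m).2)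
      · intro i
        rw [Pi.sub_apply, Finset.sum_apply]
        simp only [Pi.smul_apply, hdual, smul_eq_mul, mul_ite, mul_one, mul_zero]
        simp
    have h2 := congrFun (sub_eq_zero.1 h1) l
    rw [Finset.sum_apply] at h2
    rw [h2]
    rfl
  refine ⟨fun i => (t i).1, fun i => (t i).2, hdual, fun w hw l => ?_⟩
  induction hw using Submodule.span_induction with
  | mem w h =>
    obtain ⟨s, hs', rfl⟩ := h
    change algebraMap L E (s l) = _
    rw [hs s hs' l, map_sum]
    exact Finset.sum_congr rfl fun m _ => by rw [map_mul]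
  | zero => simp
  | add x y _ _ hx hy =>
    rw [Pi.add_apply, hx, hy, ← Finset.sum_add_distrib]
    exact Finset.sum_congr rfl fun m _ => by rw [Pi.add_apply, add_mul]
  | smul c x _ hx =>
    rw [Pi.smul_apply, hx, smul_eq_mul, Finset.mul_sum]
    exact Finset.sum_congr rfl fun m _ => by rw [Pi.smul_apply, smul_eq_mul, mul_assoc]

/-! ### coefficients -/

theorem c0_pderiv {N : ℕ} {E : Type} [CommRing E] (j : Fin N) (Q : MvPolynomial (Fin N) E) :
    constantCoeff (pderiv j Q) = coeff (Finsupp.single j 1) Q := by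
  classical
  induction Q using MvPolynomial.induction_on' with
  | monomial s a =>
    rw [pderiv_monomial, constantCoeff_monomial, coeff_monomial]
    by_cases h : s = Finsupp.single j 1
    · rw [if_pos h, h, if_pos (tsub_self _)]
      simp
    · rw [if_neg h]
      split_ifs with h2
      · have h3 : s j = 0 := by
          by_contra h4
          apply h
          have h5 : s ≤ Finsupp.single j 1 := tsub_eq_zero_iff_le.1 h2
          have h6 : Finsupp.single j 1 ≤ s := by
            rw [Finsupp.single_le_iff]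
            omega
          exact le_antisymm h5 h6
        rw [h3]
        simp
      · rfl
  | add p q hp hq => rw [map_add, map_add, coeff_add, hp, hq]

theorem c0_pderiv_mem {N k : ℕ} {E : Type} [Field E] {Q : MvPolynomial (Fin N) E}
    (h : Q ∈ YI N (k + 1) E) (j : Fin N) : constantCoeff (pderiv j Q) = 0 := by
  rw [c0_pderiv]
  rw [YI, MvPolynomial.mem_pow_idealOfVars_iff'] at h
  apply h
  simp

theorem J0_apply {N : ℕ} {E : Type} [CommRing E] (γ : Fin N → MvPolynomial (Fin N) E)
    (i a : Fin N) : J0 γ i a = constantCoeff (pderiv a (γ i)) := rfl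

theorem J0_eq {N : ℕ} {E : Type} [CommRing E] (γ : Fin N → MvPolynomial (Fin N) E) :
    J0 γ = Matrix.of fun i j => coeff (Finsupp.single j 1) (γ i) := by
  ext i j
  rw [J0_apply, c0_pderiv]
  rfl

section diff

variable {N k : ℕ} {E : Type} [Field E] [Algebra ℂ E] (γ ψ : Fin N → MvPolynomial (Fin N) E)
  (D : Derivation ℂ E E) (q : Fin N → PR N)

theorem pderiv_aeval (j : Fin N) (Q : PR N) :
    pderiv j (aeval γ Q) = ∑ l, aeval γ (pderiv l Q) * pderiv j (γ l) := by
  have h := BSTM.der_poly (aeval γ : PR N →ₐ[ℂ] MvPolynomial (Fin N) E)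
    ((pderiv j).restrictScalars ℂ) Q
  simpa using h

theorem psi_zero (hinv : IsUnit (Matrix.of fun i j => coeff (Finsupp.single j 1) (γ i)).det)
    (hR : ∀ i, ∑ a, ψ a * pderiv a (γ i) - (LS.DIFM.dh D (γ i) - aeval γ (q i)) ∈ YI N (k + 1) E)
    (hc : ∀ i, D (constantCoeff (γ i)) = constantCoeff (aeval γ (q i))) :
    ∀ a, constantCoeff (ψ a) = 0 := by
  have hdh : ∀ Q : MvPolynomial (Fin N) E, constantCoeff (LS.DIFM.dh D Q) = D (constantCoeff Q) :=
    fun Q => LS.DIFM.coeff_dh D Q 0
  have h1 : (J0 γ).mulVec (fun a => constantCoeff (ψ a)) = 0 := by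
    funext i
    have h2 := LS.DIFM.const_mem (k + 1) (hR i)
    rw [map_sub, map_sub, hdh, hc, sub_self, sub_zero, map_sum] at h2
    rw [Matrix.mulVec, dotProduct, Pi.zero_apply, ← h2]
    exact Finset.sum_congr rfl fun a _ => by rw [map_mul, J0_apply, mul_comm]
  rw [← J0_eq] at hinv
  have h3 := Matrix.eq_zero_of_mulVec_eq_zero hinv.ne_zero h1
  exact fun a => congrFun h3 a

theorem psi_der (hψ : ∀ a, constantCoeff (ψ a) = 0)
    (hR : ∀ i, ∑ a, ψ a * pderiv a (γ i) - (LS.DIFM.dh D (γ i) - aeval γ (q i)) ∈ YI N (k + 1) E)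
    (i j : Fin N) :
    ∑ a, J0 γ i a * constantCoeff (pderiv j (ψ a)) =
      D (J0 γ i j) - ∑ l, constantCoeff (aeval γ (pderiv l (q i))) * J0 γ l j := by
  have h1 := c0_pderiv_mem (hR i) j
  rw [map_sub, map_sub, map_sub, map_sub, map_sum, map_sum, pderiv_aeval, map_sum] at h1
  have h2 : ∀ a, constantCoeff (pderiv j (ψ a * pderiv a (γ i))) =
      J0 γ i a * constantCoeff (pderiv j (ψ a)) := by
    intro a
    rw [Derivation.leibniz, map_add, smul_eq_mul, smul_eq_mul, map_mul, map_mul, hψ, zero_mul,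
      zero_add, J0_apply]
  have h3 : constantCoeff (pderiv j (LS.DIFM.dh D (γ i))) = D (J0 γ i j) := by
    rw [c0_pderiv, LS.DIFM.coeff_dh, J0_apply, c0_pderiv]
  have h4 : ∀ l, constantCoeff (aeval γ (pderiv l (q i)) * pderiv j (γ l)) =
      constantCoeff (aeval γ (pderiv l (q i))) * J0 γ l j := by
    intro l
    rw [map_mul, J0_apply]
  rw [h3] at h1
  simp only [h2, h4] at h1
  exact sub_eq_zero.1 h1

end diff


/-! ### determinants -/

theorem jac_trace {R : Type} [CommRing R] [Algebra ℂ R] (D : Derivation ℂ R R) {d : ℕ}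
    (B Ψ G : Matrix (Fin d) (Fin d) R) (h : ∀ k j, D (B k j) = (B * Ψ + G * B) k j) :
    D B.det = B.det * (Ψ.trace + G.trace) := by
  have h1 : D B.det = (B.adjugate * (B * Ψ + G * B)).trace := by
    rw [JSTM.der_det, Matrix.trace]
    refine Finset.sum_congr rfl fun i _ => ?_
    rw [Matrix.diag_apply, Matrix.mul_apply]
    exact Finset.sum_congr rfl fun k _ => by rw [h]
  rw [h1, Matrix.mul_add, Matrix.trace_add, ← Matrix.mul_assoc, Matrix.adjugate_mul,
    Matrix.smul_mul, one_mul, Matrix.trace_smul, Matrix.trace_mul_comm, Matrix.mul_assoc,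
    Matrix.mul_adjugate, Matrix.mul_smul, mul_one, Matrix.trace_smul, smul_eq_mul, smul_eq_mul,
    mul_add]

/-! ### vector fields -/

theorem vf_mul {N : ℕ} (v : Fin N → PR N) (a x : PR N) : vf v (a * x) = a * vf v x + x * vf v a := by
  unfold vf
  rw [Finset.mul_sum, Finset.mul_sum, ← Finset.sum_add_distrib]
  refine Finset.sum_congr rfl fun l _ => ?_
  rw [Derivation.leibniz, smul_eq_mul, smul_eq_mul]
  ring

theorem vf_gen {N : ℕ} (S : Set (PR N)) (J : Ideal (PR N)) (v : Fin N → PR N)
    (hJ : Ideal.span S ≤ J) (h : ∀ x ∈ S, vf v x ∈ J) : ∀ q ∈ Ideal.span S, vf v q ∈ J := by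
  intro q hq
  induction hq using Submodule.span_induction with
  | mem x hx => exact h x hx
  | zero => simp [vf]
  | add x y _ _ hx hy =>
    have : vf v (x + y) = vf v x + vf v y := by
      unfold vf
      rw [← Finset.sum_add_distrib]
      exact Finset.sum_congr rfl fun l _ => by rw [map_add, mul_add]
    rw [this]
    exact J.add_mem hx hy
  | smul a x hx hx' =>
    rw [smul_eq_mul, vf_mul]
    exact J.add_mem (J.mul_mem_left _ hx') (J.mul_mem_right _ (hJ hx))

section app

variable {N k : ℕ} {κ τ : Type} [Fintype κ] [DecidableEq τ] {f : κ → PR N} {blk : κ → τ} {ι : τ}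
  {π : Fin N → Fin N → PR N} {p : Cn N} {E : Type} [Field E] [Algebra ℂ E]

omit [Fintype κ] [DecidableEq τ] in
theorem apE_sub {u u' : Fin N → MvPolynomial (Fin N) E} (h : apE k f blk ι π p E u)
    (h' : apE k f blk ι π p E u') : apE k f blk ι π p E (fun l => u l - u' l) := by
  refine ⟨fun i => ?_, fun i j => ?_⟩
  · have h1 := Ideal.sub_mem _ (h.1 i) (h'.1 i)
    rw [← Finset.sum_sub_distrib] at h1
    convert h1 using 2
    rename_i l _
    ring
  · have h1 := Ideal.sub_mem _ (h.2 i j) (h'.2 i j)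
    have h2 : (∑ l, u l * pderiv l (tr E p (π i j)) -
        ∑ l, (pderiv l (u i) * tr E p (π l j) + pderiv l (u j) * tr E p (π i l))) -
        (∑ l, u' l * pderiv l (tr E p (π i j)) -
        ∑ l, (pderiv l (u' i) * tr E p (π l j) + pderiv l (u' j) * tr E p (π i l))) =
        ∑ l, (u l - u' l) * pderiv l (tr E p (π i j)) -
        ∑ l, (pderiv l (u i - u' i) * tr E p (π l j) + pderiv l (u j - u' j) * tr E p (π i l)) := by
      rw [← Finset.sum_sub_distrib, ← Finset.sum_sub_distrib, ← Finset.sum_sub_distrib,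
        ← Finset.sum_sub_distrib]
      refine Finset.sum_congr rfl fun l _ => ?_
      rw [map_sub, map_sub]
      ring
    rw [h2] at h1
    exact h1

theorem c0_tr (q : PR N) : constantCoeff (tr ℂ p q) = eval p q := by
  have h : (constantCoeff.comp (tr ℂ p).toRingHom) = eval p := by
    refine MvPolynomial.ringHom_ext (fun r => ?_) (fun l => ?_)
    · simp [tr]
    · simp [tr]
  exact RingHom.congr_fun h q

theorem pderiv_tr (a : Fin N) (q : PR N) : pderiv a (tr ℂ p q) = tr ℂ p (pderiv a q) := by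
  classical
  rw [tr, pderiv_aeval]
  rw [Finset.sum_eq_single a]
  · rw [map_add, pderiv_X_self, pderiv_C, add_zero, mul_one]
  · intro b _ hb
    rw [map_add, pderiv_X_of_ne hb, pderiv_C, add_zero, mul_zero]
  · intro h
    exact absurd (Finset.mem_univ _) h

theorem iso_part (hLNC : SpecLNC) {d : ℕ} (I P : Ideal (PR N))
    (hfI : ∀ i, blk i = ι → bi f blk i = I) (hfι : Ideal.span (f '' {l | blk l = ι}) = I)
    (t₀ : τ) (hfP : Ideal.span (f '' {l | blk l = t₀}) = P)
    (hfP' : ∀ i, blk i = t₀ → bi f blk i = P)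
    (e : Fin d → Cn N)
    (hT : ∀ ψ ∈ PVk I π p k, (∀ q ∈ P, vf ψ q ∈ P ⊔ mx p ^ k) → (∀ l, eval p (ψ l) = 0) →
      ∃ Ψ : Matrix (Fin d) (Fin d) ℂ, Ψ.trace = 0 ∧
      ∀ j l, ∑ a, eval p (pderiv a (ψ l)) * e j a = ∑ i, Ψ i j * e i l)
    (ψ : Fin N → MvPolynomial (Fin N) E) (hψ : apE k f blk ι π p E ψ)
    (h0 : ∀ a, constantCoeff (ψ a) = 0) :
    ∃ Ψ : Matrix (Fin d) (Fin d) E, Ψ.trace = 0 ∧
      ∀ j l, ∑ a, constantCoeff (pderiv a (ψ l)) * algebraMap ℂ E (e j a) =
        ∑ i, algebraMap ℂ E (e i l) * Ψ i j := by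
  classical
  obtain ⟨m, ee, w, hli, he0, hu, hw⟩ :=
    hLNC N k κ τ inferInstance inferInstance f blk ι π p E _ _ ψ hψ
  have hc : ∀ Q : MvPolynomial (Fin N) ℂ, constantCoeff (MvPolynomial.map (algebraMap ℂ E) Q) =
      algebraMap ℂ E (constantCoeff Q) := by
    intro Q
    rw [constantCoeff_map]
  have hle : mx p ^ (k + 1) ≤ mx p ^ k := Ideal.pow_le_pow_right (Nat.le_succ k)
  have hw0 : ∀ α l, eval p (w α l) = 0 := by
    intro α l
    have h1 := h0 l
    rw [hu l, map_sum] at h1
    have h2 : ∑ α, eval p (w α l) • ee α = 0 := by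
      rw [← h1]
      refine Finset.sum_congr rfl fun α _ => ?_
      rw [map_mul, constantCoeff_C, hc, c0_tr, Algebra.smul_def, mul_comm]
    exact Fintype.linearIndependent_iff.1 hli (fun α => eval p (w α l)) h2 α
  have hex : ∀ α, ∃ Ψ : Matrix (Fin d) (Fin d) ℂ, Ψ.trace = 0 ∧
      ∀ j l, ∑ a, eval p (pderiv a (w α l)) * e j a = ∑ i, Ψ i j * e i l := by
    intro α
    refine hT (w α) ⟨?_, fun i j => ?_⟩ ?_ (hw0 α)
    · rw [← hfι]
      refine vf_gen _ _ _ le_sup_left ?_
      rintro x ⟨i, hi, rfl⟩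
      have h1 := (hw α).1 i
      rw [hfI i hi] at h1
      rw [hfι]
      exact (sup_le_sup_left hle I) h1
    · have h1 := (hw α).2 i j
      rw [hfι] at h1
      exact (sup_le_sup_left hle I) h1
    · rw [← hfP]
      refine vf_gen _ _ _ le_sup_left ?_
      rintro x ⟨i, hi, rfl⟩
      have h1 := (hw α).1 i
      rw [hfP' i hi] at h1
      rw [hfP]
      exact (sup_le_sup_left hle P) h1
  choose Ψ hΨ0 hΨ using hex
  refine ⟨Matrix.of fun i j => ∑ α, ee α * algebraMap ℂ E (Ψ α i j), ?_, fun j l => ?_⟩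
  · rw [Matrix.trace]
    simp only [Matrix.diag_apply, Matrix.of_apply]
    rw [Finset.sum_comm]
    refine Finset.sum_eq_zero fun α _ => ?_
    rw [← Finset.mul_sum, ← map_sum]
    have h1 : ∑ i, Ψ α i i = 0 := hΨ0 α
    rw [h1, map_zero, mul_zero]
  · have h1 : ∀ a, constantCoeff (pderiv a (ψ l)) =
        ∑ α, ee α * algebraMap ℂ E (eval p (pderiv a (w α l))) := by
      intro a
      rw [hu l, map_sum, map_sum]
      refine Finset.sum_congr rfl fun α _ => ?_
      rw [pderiv_C_mul, map_mul, constantCoeff_C, pderiv_map, hc, pderiv_tr, c0_tr]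
    simp only [h1, Matrix.of_apply, Finset.sum_mul, Finset.mul_sum]
    rw [Finset.sum_comm, Finset.sum_comm (s := Finset.univ (α := Fin d))]
    refine Finset.sum_congr rfl fun α _ => ?_
    have h2 := congrArg (algebraMap ℂ E) (hΨ α j l)
    rw [map_sum, map_sum] at h2
    have h3 : ∑ a, ee α * algebraMap ℂ E (eval p (pderiv a (w α l))) * algebraMap ℂ E (e j a) =
        ee α * ∑ a, algebraMap ℂ E (eval p (pderiv a (w α l)) * e j a) := by
      rw [Finset.mul_sum]
      exact Finset.sum_congr rfl fun a _ => by rw [map_mul, mul_assoc]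
    rw [h3, h2, Finset.mul_sum]
    refine Finset.sum_congr rfl fun i _ => ?_
    rw [map_mul]
    ring

end app


theorem c0_aeval {N : ℕ} {L E : Type} [Field L] [Field E] [Algebra ℂ L] [Algebra ℂ E] [Algebra L E]
    [IsScalarTower ℂ L E] (φ : PR N →ₐ[ℂ] L) (γ : Fin N → MvPolynomial (Fin N) E)
    (hγ : ∀ l, constantCoeff (γ l) = algebraMap L E (φ (X l))) (Q : PR N) :
    constantCoeff (aeval γ Q) = algebraMap L E (φ Q) := by
  induction Q using MvPolynomial.induction_on with
  | C a =>
    have h1 : φ (C a) = algebraMap ℂ L a := φ.commutes a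
    rw [h1, aeval_C, MvPolynomial.algebraMap_apply, constantCoeff_C,
      ← IsScalarTower.algebraMap_apply ℂ L E]
  | add p q hp hq => rw [map_add, map_add, map_add, map_add, hp, hq]
  | mul_X p n hp => rw [map_mul, map_mul, map_mul, map_mul, hp, aeval_X, hγ]

/-- the derivative of `Λ` -/
theorem der_lam {N d : ℕ} {L E : Type} [Field L] [Field E] [Algebra ℂ L] [Algebra ℂ E]
    [Algebra L E] [IsScalarTower ℂ L E] (φ : PR N →ₐ[ℂ] L) (A : Fin d → Fin N)
    (dd : Fin d → Derivation ℂ L L) (u : Fin d → Fin N → E)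
    (hu : ∀ j l, u j l = ∑ m, u j (A m) * algebraMap L E (dd m (φ (X l))))
    (D : Derivation ℂ E E) (η : Fin N → PR N) (Ψ : Matrix (Fin d) (Fin d) E)
    (hΨ : Ψ.trace = 0)
    (hD : ∀ j l, D (u j l) = ∑ i, u i l * Ψ i j +
      ∑ l', algebraMap L E (φ (pderiv l' (η l))) * u j l') :
    D (Matrix.of fun i j => u j (A i)).det = (Matrix.of fun i j => u j (A i)).det *
      algebraMap L E (∑ i, dd i (φ (η (A i)))) := by
  have h1 : ∀ j k, ∑ l', algebraMap L E (φ (pderiv l' (η (A k)))) * u j l' =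
      ∑ m, algebraMap L E (dd m (φ (η (A k)))) * u j (A m) := by
    intro j k
    have h2 : ∀ l', algebraMap L E (φ (pderiv l' (η (A k)))) * u j l' =
        ∑ m, algebraMap L E (φ (pderiv l' (η (A k))) * dd m (φ (X l'))) * u j (A m) := by
      intro l'
      rw [hu j l', Finset.mul_sum]
      refine Finset.sum_congr rfl fun m _ => ?_
      rw [map_mul]
      ring
    simp only [h2]
    rw [Finset.sum_comm]
    refine Finset.sum_congr rfl fun m _ => ?_
    rw [← Finset.sum_mul, ← map_sum, ← BSTM.der_poly φ (dd m) (η (A k))]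
  rw [jac_trace D _ Ψ (Matrix.of fun k m => algebraMap L E (dd m (φ (η (A k)))))]
  · rw [hΨ, zero_add, Matrix.trace, map_sum]
    rfl
  · intro k j
    rw [Matrix.add_apply, Matrix.mul_apply, Matrix.mul_apply]
    change D (u j (A k)) = _
    rw [hD, h1]
    rfl

end PHAM

open PHAM in
theorem specPHA (hKEB : SpecKEB) (hPTB : SpecPTB) (hWTL : SpecWTL) (hETL : SpecETL)
    (hLNC : SpecLNC) (hTNG : SpecTNG) (hTGD : SpecTGD) (hTRZ : SpecTRZ) (hNDR : SpecNDR) :
    SpecPHA := by
  intro N n r d I P π V p hn hI htr hskew hstI hjac hrdc hrk hcrd hIP hP hstP htrP hV hp hmin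
    L _ _ φ hGen
  classical
  obtain ⟨k, hk⟩ := hTRZ N n r d I P π V p hn hI htr hskew hstI hjac hrdc hrk hcrd hIP hP hstP
    hV hp hmin
  obtain ⟨a, fI, hfI⟩ := Submodule.fg_iff_exists_fin_generating_family.1
    ((isNoetherianRing_iff_ideal_fg (PR N)).1 inferInstance I)
  obtain ⟨b', fP, hfP⟩ := Submodule.fg_iff_exists_fin_generating_family.1
    ((isNoetherianRing_iff_ideal_fg (PR N)).1 inferInstance P)
  let f : Fin a ⊕ Fin b' → PR N := Sum.elim fI fP
  let blk : Fin a ⊕ Fin b' → Bool := Sum.elim (fun _ => true) (fun _ => false)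
  have hst : Ideal.span (f '' {l | blk l = true}) = I := by
    rw [← hfI]
    congr 1
    ext x
    constructor
    · rintro ⟨l, hl, rfl⟩
      cases l with
      | inl i => exact ⟨i, rfl⟩
      | inr i => exact absurd hl (by simp [blk])
    · rintro ⟨i, rfl⟩
      exact ⟨Sum.inl i, rfl, rfl⟩
  have hsf : Ideal.span (f '' {l | blk l = false}) = P := by
    rw [← hfP]
    congr 1
    ext x
    constructor
    · rintro ⟨l, hl, rfl⟩
      cases l with
      | inl i => exact absurd hl (by simp [blk])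
      | inr i => exact ⟨i, rfl⟩
    · rintro ⟨i, rfl⟩
      exact ⟨Sum.inr i, rfl, rfl⟩
  have hbt : ∀ i, blk i = true → bi f blk i = I := by
    intro i hi
    unfold bi
    rw [hi]
    exact hst
  have hbf : ∀ i, blk i = false → bi f blk i = P := by
    intro i hi
    unfold bi
    rw [hi]
    exact hsf
  have hmemI : ∀ i, f (Sum.inl i) ∈ I := fun i => by
    rw [← hst]; exact Ideal.subset_span ⟨Sum.inl i, rfl, rfl⟩
  have hmemP : ∀ i, f (Sum.inr i) ∈ P := fun i => by
    rw [← hsf]; exact Ideal.subset_span ⟨Sum.inr i, rfl, rfl⟩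
  have hadm : ∀ v : Fin N → PR N, v ∈ PV I π → (∀ q ∈ P, vf v q ∈ P) → v ∈ adm f blk := by
    intro v hv hvP i
    cases i with
    | inl i =>
      rw [hbt (Sum.inl i) rfl]
      exact hv.1 _ (hmemI i)
    | inr i =>
      rw [hbf (Sum.inr i) rfl]
      exact hvP _ (hmemP i)
  have hstab : Stab V P := fun g hg j => (hV j).2 g hg
  obtain ⟨R, iR, iRA, aa, hft, haev⟩ := hKEB N (k + 1) r _ Bool inferInstance inferInstance P f blk
    true π p V hP hstab (fun j => hadm _ (hV j).1 (hV j).2)
    (fun c i j => by rw [hst]; exact (hV c).1.2 i j) hp hmin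
  obtain ⟨E, iE, iEC, iEL, b, hTow, hFin, hb⟩ := hPTB N (k + 1) _ Bool inferInstance inferInstance P
    f blk true π p hP L _ _ φ hGen R iR iRA aa hft haev
  obtain ⟨hfin, hTe, -⟩ := hTNG N k d _ Bool inferInstance inferInstance P f blk false p hP htrP hsf
    hp L _ _ φ hGen E iE iEC iEL hTow b.toPt hb
  obtain ⟨hT1, hT2, hT3, -⟩ := hTGD N d P hP htrP L _ _ φ hGen
  let bs := Module.finBasisOfFinrankEq ℂ (tgx P p) hfin
  let e : Fin d → Cn N := fun i => (bs i).1
  have heI : LinearIndependent ℂ e :=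
    bs.linearIndependent.map' (tgx P p).subtype (Submodule.ker_subtype _)
  have hem : ∀ i, e i ∈ tgx P p := fun i => (bs i).2
  have hesp : ∀ t, t ∈ tgx P p ↔ t ∈ Submodule.span ℂ (Set.range e) := by
    intro t
    constructor
    · intro ht
      have h1 := bs.sum_repr ⟨t, ht⟩
      have h2 := congrArg Subtype.val h1
      rw [AddSubmonoidClass.coe_finsetSum] at h2
      change _ = t at h2
      rw [← h2]
      exact Submodule.sum_mem _ fun i _ => Submodule.smul_mem _ _ (Submodule.subset_span ⟨i, rfl⟩)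
    · intro ht
      refine (Submodule.span_le.2 ?_) ht
      rintro _ ⟨i, rfl⟩
      exact hem i
  obtain ⟨huI, husp⟩ := hTe e hem heI
  set u : Fin d → Fin N → E := fun i => (J0 b.γ).mulVec (fun l => algebraMap ℂ E (e i l)) with hu
  obtain ⟨A, hA⟩ := exists_minor u huI
  obtain ⟨t, htT, htd, htw⟩ := frame (tsp P φ) hT1 u
    (fun s hs => (husp _).2 (Submodule.subset_span ⟨s, hs, rfl⟩)) A hA
  choose dd hdd using fun i => hT2 (t i) (htT i)
  have hul : ∀ j l, u j l = ∑ m, u j (A m) * algebraMap L E (dd m (φ (X l))) := by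
    intro j l
    have h1 := htw (u j) ((husp _).1 (Submodule.subset_span ⟨j, rfl⟩)) l
    rw [h1]
    exact Finset.sum_congr rfl fun m _ => by rw [hdd]
  refine ⟨⟨A, dd, Module.finrank L E, Algebra.norm L (Matrix.of fun i j => u j (A i)).det,
    Module.finrank_pos, ?_, ?_, ?_⟩⟩
  · exact Algebra.norm_ne_zero_iff.2 hA
  · intro i j
    rw [hdd, htd]
  · intro η hη D hD
    obtain ⟨D', hD'⟩ := LS.specEXD L E _ _ _ _ _ hTow hFin D
    obtain ⟨w, hw, hw'⟩ := hWTL N k _ Bool inferInstance inferInstance P f blk true π p E _ _ b D'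
    obtain ⟨w2, hw2, hw2'⟩ := hETL N k _ Bool inferInstance inferInstance P f blk true π p E _ _ b η
      (hadm η hη.1 hη.2) (fun i j => by rw [hst]; exact hη.1.2 i j)
    have hca : ∀ Q : PR N, constantCoeff (aeval b.γ Q) = algebraMap L E (φ Q) :=
      c0_aeval φ b.γ hb
    have hR : ∀ i, ∑ a, (w a - w2 a) * pderiv a (b.γ i) -
        (LS.DIFM.dh D' (b.γ i) - aeval b.γ (η i)) ∈ YI N (k + 1) E := by
      intro i
      have h1 := Ideal.sub_mem _ (hw' i) (hw2' i)
      have h2 : ∑ a, (w a - w2 a) * pderiv a (b.γ i) = ∑ a, w a * pderiv a (b.γ i) -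
          ∑ a, w2 a * pderiv a (b.γ i) := by
        rw [← Finset.sum_sub_distrib]
        exact Finset.sum_congr rfl fun a _ => sub_mul _ _ _
      rw [h2]
      convert h1 using 1
      ring
    have hc : ∀ i, D' (constantCoeff (b.γ i)) = constantCoeff (aeval b.γ (η i)) := by
      intro i
      rw [hb, hD', hD, hca]
    have hψ0 := psi_zero b.γ (fun l => w l - w2 l) D' η b.inv hR hc
    have hψd := psi_der b.γ (fun l => w l - w2 l) D' η hψ0 hR
    obtain ⟨Ψ, hΨ0, hΨ⟩ := iso_part hLNC I P hbt hst false hsf hbf e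
      (fun ψ h1 h2 h3 => hk ψ h1 h2 h3 e hesp heI) (fun l => w l - w2 l) (apE_sub hw hw2) hψ0
    have hDu : ∀ j l, D' (u j l) = ∑ i, u i l * Ψ i j +
        ∑ l', algebraMap L E (φ (pderiv l' (η l))) * u j l' := by
      intro j l
      have h1 : D' (u j l) = ∑ m, D' (J0 b.γ l m) * algebraMap ℂ E (e j m) := by
        rw [hu]
        change D' (∑ m, J0 b.γ l m * algebraMap ℂ E (e j m)) = _
        rw [map_sum]
        refine Finset.sum_congr rfl fun m _ => ?_
        rw [Derivation.leibniz, Derivation.map_algebraMap, smul_zero, zero_add, smul_eq_mul,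
          mul_comm]
      have h2 : ∀ m, D' (J0 b.γ l m) = ∑ a, J0 b.γ l a *
          constantCoeff (pderiv m (w a - w2 a)) +
          ∑ l', algebraMap L E (φ (pderiv l' (η l))) * J0 b.γ l' m := by
        intro m
        rw [hψd l m]
        simp only [hca]
        ring
      rw [h1]
      simp only [h2, add_mul, Finset.sum_add_distrib]
      congr 1
      · have h3 : ∀ i, u i l * Ψ i j = ∑ a, J0 b.γ l a * (algebraMap ℂ E (e i a) * Ψ i j) := by
          intro i
          rw [hu]
          change (∑ m, J0 b.γ l m * algebraMap ℂ E (e i m)) * Ψ i j = _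
          rw [Finset.sum_mul]
          exact Finset.sum_congr rfl fun a _ => mul_assoc _ _ _
        simp only [h3, Finset.sum_mul]
        rw [Finset.sum_comm, Finset.sum_comm (s := Finset.univ (α := Fin d))]
        refine Finset.sum_congr rfl fun a _ => ?_
        rw [← Finset.mul_sum, ← hΨ j a, Finset.mul_sum]
        exact Finset.sum_congr rfl fun m _ => mul_assoc _ _ _
      · have h3 : ∀ l', algebraMap L E (φ (pderiv l' (η l))) * u j l' =
            ∑ m, algebraMap L E (φ (pderiv l' (η l))) * J0 b.γ l' m *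
              algebraMap ℂ E (e j m) := by
          intro l'
          rw [hu]
          change _ * (∑ m, J0 b.γ l' m * algebraMap ℂ E (e j m)) = _
          rw [Finset.mul_sum]
          exact Finset.sum_congr rfl fun a _ => (mul_assoc _ _ _).symm
        simp only [h3, Finset.sum_mul]
        rw [Finset.sum_comm]
    have hfinal := der_lam φ A dd u hul D' η Ψ hΨ0 hDu
    have h5 := hNDR L E _ _ _ _ _ hTow hFin D D' hD' _ hA
    rw [hfinal, mul_div_cancel_left₀ _ hA, Algebra.trace_algebraMap, nsmul_eq_mul] at h5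
    rw [h5]
    ring

end Pool.Agent.Lib.MPc9b009.LF
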