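import Pool.Agent.Lib.MP_c9b009_ag.LF.SpecD

/-!
# MP_c9b009_ag, row LF, module POV

A smooth partition of unity on the shell `s ≤ |x|² ≤ 4 s` of a closed cone, subordinate to finitely many charts
of a given covering family.
-/

set_option autoImplicit false

namespace Pool.Agent.Lib.MPc9b009.LF

open MvPolynomial Pool.Agent.Lib.MPc9b009.B5 Pool.Agent.Lib.MPc9b009.OD
  Pool.Agent.Lib.MPc9b009.PS Pool.Agent.Lib.MPc9b009.LS MeasureTheory
open scoped Manifold ContDiff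

theorem specPOV : SpecPOV := by
  intro N k M T hC hM ι cc hcc s hs
  set K : Set (Cn N) := {x : Cn N | x ∈ insert 0 M ∧ s ≤ ∑ j, ‖x j‖ ^ 2 ∧
    ∑ j, ‖x j‖ ^ 2 ≤ 4 * s} with hK
  have hKc : IsCompact K := PS.POUM.compact_shell hM s
  have hKM : K ⊆ M := by
    rintro x ⟨hx, h1, _⟩
    rcases hx with rfl | hx
    · exfalso
      have h0 : ∑ j, ‖(0 : Cn N) j‖ ^ 2 = 0 := by simp
      rw [h0] at h1
      linarith
    · exact hx
  have hch : ∀ x : M, ∃ i : ι, (x : Cn N) ∈ (cc i).W := fun x => hcc x x.2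
  choose ch hcW using hch
  obtain ⟨t, ht⟩ := hKc.elim_finite_subcover (fun x : M => (cc (ch x)).W)
    (fun x => (cc (ch x)).oW) (fun x hx => Set.mem_iUnion.2 ⟨⟨x, hKM hx⟩, hcW _⟩)
  set e := t.equivFin with he
  set c : Fin t.card → ι := fun l => ch (e.symm l) with hc
  have hcov : K ⊆ ⋃ l, (cc (c l)).W := by
    intro x hx
    obtain ⟨y, hy⟩ := Set.mem_iUnion.1 (ht hx)
    obtain ⟨hyt, hxy⟩ := Set.mem_iUnion.1 hy
    refine Set.mem_iUnion.2 ⟨e ⟨y, hyt⟩, ?_⟩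
    rw [hc]
    simp only [Equiv.symm_apply_apply]
    exact hxy
  obtain ⟨f, hf⟩ := SmoothPartitionOfUnity.exists_isSubordinate 𝓘(ℝ, Cn N) hKc.isClosed
    (fun l => (cc (c l)).W) (fun l => (cc (c l)).oW) hcov
  refine ⟨t.card, c, fun l x => f l x, ?_, ?_, ?_, ?_⟩
  · intro l
    have h1 : ContMDiff 𝓘(ℝ, Cn N) 𝓘(ℝ, ℝ) ∞ (fun x => f l x) := (f l).contMDiff
    exact (contMDiff_iff_contDiff.1 h1).of_le (by exact_mod_cast le_top)
  · intro l x
    exact f.nonneg l x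
  · intro l
    exact hf l
  · intro x hx h1 h2
    have h3 : x ∈ K := ⟨Or.inr hx, h1, h2⟩
    have h4 := f.sum_eq_one h3
    rwa [finsum_eq_sum_of_fintype] at h4

end Pool.Agent.Lib.MPc9b009.LF
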