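import Pool.Agent.Lib.MP_c9b009_ag.LF.SpecA
import Pool.Agent.Lib.MP_c9b009_ag.LS.PTK

/-!
# MP_c9b009_ag, row LF, module PTB: a point over a finite extension of the function field
-/

set_option autoImplicit false

namespace Pool.Agent.Lib.MPc9b009.LF

open MvPolynomial Pool.Agent.Lib.MPc9b009.B5 Pool.Agent.Lib.MPc9b009.OD
  Pool.Agent.Lib.MPc9b009.PS Pool.Agent.Lib.MPc9b009.LS

namespace PTBM

open LS.REPM LS.PTKM

section dat

variable {N k : ℕ} {κ τ : Type} [Fintype κ] [DecidableEq τ]
variable {B B' : Type} [CommRing B] [Algebra ℂ B] [CommRing B'] [Algebra ℂ B']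

/-- the expression of `e3` -/
noncomputable def E3 (f : κ → PR N) (blk : κ → τ) (ι : τ) (π : Fin N → Fin N → PR N) (p₀ : Cn N)
    (γ : Fin N → MvPolynomial (Fin N) B) (m3 : Fin N → Fin N → κ → MvPolynomial (Fin N) B)
    (i j : Fin N) : MvPolynomial (Fin N) B :=
  (∑ a, ∑ b, tr B p₀ (π a b) * pderiv a (γ i) * pderiv b (γ j)) - aeval γ (π i j) -
    ∑ l, (if blk l = ι then m3 i j l * tr B p₀ (f l) else 0)

lemma mp_pderiv (φ : B →ₐ[ℂ] B') (a : Fin N) (Q : MvPolynomial (Fin N) B) :
    mp φ (pderiv a Q) = pderiv a (mp φ Q) := by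
  unfold mp
  rw [mapAlgHom_apply, mapAlgHom_apply, pderiv_map]

lemma mp_E3 (φ : B →ₐ[ℂ] B') (f : κ → PR N) (blk : κ → τ) (ι : τ) (π : Fin N → Fin N → PR N)
    (p₀ : Cn N) (γ : Fin N → MvPolynomial (Fin N) B)
    (m3 : Fin N → Fin N → κ → MvPolynomial (Fin N) B) (i j : Fin N) :
    mp φ (E3 f blk ι π p₀ γ m3 i j)
      = E3 f blk ι π p₀ (fun i => mp φ (γ i)) (fun i j l => mp φ (m3 i j l)) i j := by
  unfold E3
  rw [map_sub, map_sub, map_sum, map_sum, mp_aeval]
  congr 1
  · congr 1
    refine Finset.sum_congr rfl fun a _ => ?_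
    rw [map_sum]
    refine Finset.sum_congr rfl fun b _ => ?_
    rw [map_mul, map_mul, mp_tr, mp_pderiv, mp_pderiv]
  · refine Finset.sum_congr rfl fun l _ => ?_
    split_ifs
    · rw [map_mul, mp_tr]
    · rw [map_zero]

end dat

/-- the image of a point -/
noncomputable def mapB {N k : ℕ} {κ τ : Type} [Fintype κ] [DecidableEq τ] {P : Ideal (PR N)}
    {f : κ → PR N} {blk : κ → τ} {ι : τ} {π : Fin N → Fin N → PR N} {p₀ : Cn N} {A B : Type}
    [CommRing A] [Algebra ℂ A] [CommRing B] [Algebra ℂ B] (η : A →ₐ[ℂ] B)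
    (a : PtB N k P f blk ι π p₀ A) : PtB N k P f blk ι π p₀ B where
  toPt := LS.PTKM.map η a.toPt
  m3 i j l := mp η (a.m3 i j l)
  e3 i j := by
    change E3 f blk ι π p₀ (fun i => mp η (a.γ i)) (fun i j l => mp η (a.m3 i j l)) i j ∈ _
    rw [← mp_E3, mem_YI]
    intro m hm
    rw [coeff_mp]
    have h := (mem_YI _).1 (a.e3 i j) m hm
    have h2 : E3 f blk ι π p₀ a.γ a.m3 i j =
        (∑ c, ∑ b, tr A p₀ (π c b) * pderiv c (a.γ i) * pderiv b (a.γ j)) -
          aeval a.γ (π i j) - ∑ l, (if blk l = ι then a.m3 i j l * tr A p₀ (f l) else 0) := rfl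
    rw [h2, h, map_zero]

end PTBM

open PTBM LS.PTKM LS.REPM in
/-- **PTB**: a point over a finite extension of the function field. -/
theorem specPTB : SpecPTB := by
  classical
  intro N k κ τ _ _ P f blk ι π p₀ hP L _ _ φ hG A _ _ a hft hk
  let c : Fin N → A := fun i => constantCoeff (a.γ i)
  let ψ : PR N →ₐ[ℂ] A := aeval c
  have hk' : ∀ q, ψ q = 0 ↔ q ∈ P := hk
  let T : Submonoid A := Submonoid.map (ψ : PR N →* A) P.primeCompl
  have hT0 : (0 : A) ∉ T := by
    rintro ⟨q, hq, hq0⟩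
    exact hq ((hk' q).1 hq0)
  haveI : Nontrivial (Localization T) := by
    rw [← not_subsingleton_iff_nontrivial]
    intro hs
    exact hT0 ((IsLocalization.subsingleton_iff (M := T) (S := Localization T)).1 hs)
  obtain ⟨M, hM⟩ := Ideal.exists_maximal (Localization T)
  letI : Field (Localization T ⧸ M) := Ideal.Quotient.field M
  let η : A →ₐ[ℂ] (Localization T ⧸ M) :=
    (Ideal.Quotient.mkₐ ℂ M).comp (IsScalarTower.toAlgHom ℂ A (Localization T))
  have hη : ∀ x, η x = Ideal.Quotient.mk M (algebraMap A (Localization T) x) := fun x => rfl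
  have hunit : ∀ t ∈ T, η t ≠ 0 := by
    intro t ht h
    have h1 : IsUnit (algebraMap A (Localization T) t) := IsLocalization.map_units _ (⟨t, ht⟩ : T)
    have h2 : IsUnit (η t) := by
      rw [hη]
      exact h1.map _
    rw [h] at h2
    exact not_isUnit_zero h2
  let χ : PR N →ₐ[ℂ] (Localization T ⧸ M) := η.comp ψ
  have hχ : ∀ q, χ q = 0 ↔ q ∈ P := by
    intro q
    constructor
    · intro h
      by_contra hq
      exact hunit (ψ q) ⟨q, hq, rfl⟩ h
    · intro hq
      change η (ψ q) = 0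
      rw [(hk' q).2 hq, map_zero]
  obtain ⟨σ, hσ⟩ := frac hG χ hχ
  letI : Algebra L (Localization T ⧸ M) := σ.toAlgebra
  have hσa : ∀ y : L, algebraMap L (Localization T ⧸ M) y = σ y := fun y => rfl
  haveI hst : IsScalarTower ℂ L (Localization T ⧸ M) := by
    refine IsScalarTower.of_algebraMap_eq fun z => ?_
    rw [hσa]
    have h1 : algebraMap ℂ L z = φ (C z) := by
      rw [← algebraMap_eq, AlgHom.commutes]
    rw [h1, hσ, ← algebraMap_eq, AlgHom.commutes]
  have hfin : Algebra.FiniteType L (Localization T ⧸ M) := by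
    obtain ⟨s, hs⟩ := hft.out
    refine ⟨s.image η, ?_⟩
    rw [eq_top_iff]
    intro x _
    have hA : ∀ y : A, η y ∈ Algebra.adjoin L ((s.image η : Finset _) : Set (Localization T ⧸ M)) := by
      intro y
      have hy : y ∈ Algebra.adjoin ℂ (s : Set A) := by
        rw [hs]
        exact Algebra.mem_top
      induction hy using Algebra.adjoin_induction with
      | mem y hy =>
        exact Algebra.subset_adjoin (by
          rw [Finset.coe_image]
          exact ⟨y, hy, rfl⟩)
      | algebraMap z =>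
        rw [AlgHom.commutes, IsScalarTower.algebraMap_apply ℂ L (Localization T ⧸ M)]
        exact Subalgebra.algebraMap_mem _ _
      | add y z _ _ hy hz =>
        rw [map_add]
        exact Subalgebra.add_mem _ hy hz
      | mul y z _ _ hy hz =>
        rw [map_mul]
        exact Subalgebra.mul_mem _ hy hz
    obtain ⟨w, rfl⟩ := Ideal.Quotient.mk_surjective x
    obtain ⟨⟨y, t⟩, hyt⟩ := IsLocalization.surj T w
    obtain ⟨q, hq, hqt⟩ := t.2
    have h1 : Ideal.Quotient.mk M w * η t = η y := by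
      rw [hη, hη, ← map_mul, hyt]
    have h2 : η t = σ (φ q) := by
      rw [hσ]
      change η t = η (ψ q)
      rw [← hqt]
      rfl
    have h3 : σ (φ q) ≠ 0 := by
      rw [← h2]
      exact hunit t t.2
    have h4 : Ideal.Quotient.mk M w = (φ q)⁻¹ • η y := by
      rw [Algebra.smul_def, hσa, map_inv₀, ← h1, h2]
      field_simp
    rw [h4]
    exact Subalgebra.smul_mem _ (hA y) _
  haveI := hfin
  refine ⟨Localization T ⧸ M, inferInstance, inferInstance, inferInstance, mapB η a, hst, ?_,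
    fun l => ?_⟩
  · exact finite_of_finite_type_of_isJacobsonRing L (Localization T ⧸ M)
  · change constantCoeff (mp η (a.γ l)) = σ (φ (X l))
    rw [cc_mp, hσ]
    change η (c l) = η (ψ (X l))
    rw [show ψ (X l) = c l from aeval_X _ _]

end Pool.Agent.Lib.MPc9b009.LF
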