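import Pool.Agent.Lib.MP_c9b009_ag.LF.SpecK
import Pool.Agent.Lib.MP_c9b009_ag.PS.PVA
import Mathlib.Analysis.ODE.Gronwall

/-!
# MP_c9b009_ag, row LF, module PVB (helper21): the ideal vanishes on the graph
-/

set_option autoImplicit false

namespace Pool.Agent.Lib.MPc9b009.LF

open MvPolynomial Pool.Agent.Lib.MPc9b009.B5 Pool.Agent.Lib.MPc9b009.OD
  Pool.Agent.Lib.MPc9b009.PS Pool.Agent.Lib.MPc9b009.LS MeasureTheory Filter Topology
open Pool.Agent.Lib.MPc9b009.PS.PVAM (dd dd_sum dd_sub DD DD_apply hasF ev_le ww mem_bound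
  mem_bounds uinj)

namespace PVBM

variable {N d : ℕ} {P : Ideal (PR N)}

theorem dd_vf (x : Cn N) (v : Fin N → PR N) (z : PR N) :
    dd z x (fun l => eval x (v l)) = eval x (vf v z) := by
  unfold dd vf
  rw [map_sum]
  refine Finset.sum_congr rfl fun l _ => ?_
  rw [map_mul, mul_comm]

theorem dd_smul (x : Cn N) (z : PR N) (t : ℂ) (v : Cn N) : dd z x (t • v) = t * dd z x v := by
  unfold dd
  rw [Finset.mul_sum]
  refine Finset.sum_congr rfl fun j _ => ?_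
  rw [Pi.smul_apply, smul_eq_mul]
  ring

/-- injectivity at the point -/
theorem inj (c : Crd P d) (x₀ : Cn N) (hΔ : eval x₀ c.Δ ≠ 0) (v : Cn N)
    (hv : ∀ m, v (c.J m) = 0) (hF : ∀ a, dd (c.F a) x₀ v = 0) : v = 0 := by
  classical
  obtain ⟨A, hA⟩ : ∃ A : Matrix (Fin (N - d)) (Fin (N - d)) ℂ,
    A = Matrix.of fun a b => eval x₀ (pderiv (c.K b) (c.F a)) := ⟨_, rfl⟩
  have hdet : A.det ≠ 0 := by
    have h : A.det = eval x₀ c.Δ := by
      unfold Crd.Δ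
      rw [RingHom.map_det, hA]
      rfl
    rw [h]
    exact hΔ
  have hmul : A.mulVec (fun b => v (c.K b)) = 0 := by
    funext a
    have h1 := hF a
    unfold dd at h1
    rw [← c.bij.sum_comp, Fintype.sum_sum_type] at h1
    simp only [Sum.elim_inl, Sum.elim_inr, hv, mul_zero, Finset.sum_const_zero, zero_add] at h1
    rw [hA]
    exact h1
  have hK := Matrix.eq_zero_of_mulVec_eq_zero hdet hmul
  funext l
  obtain ⟨i | b, rfl⟩ := c.bij.2 l
  · exact hv i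
  · exact congrFun hK b

theorem key (c : Crd P d) (hV1 : ∀ i, ∀ q ∈ P, vf (c.V i) q ∈ P)
    (hV2 : ∀ i j, c.V i (c.J j) = if i = j then c.Δ else 0)
    (s : Finset (MvPolynomial (Fin N) ℂ)) (hs : Ideal.span (s : Set (MvPolynomial (Fin N) ℂ)) = P)
    (x₀ : Cn N) (hΔ : eval x₀ c.Δ ≠ 0) :
    ∃ C : ℝ, 0 ≤ C ∧ ∀ᶠ x in 𝓝 x₀, ∀ (k : Fin d) (D : Cn N),
      (∀ m, D (c.J m) = if m = k then 1 else 0) → (∀ a, dd (c.F a) x D = 0) →
      ∀ i : s, ‖dd i.1 x D‖ ≤ C * ‖ww s x‖ := by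
  obtain ⟨K, hK, hu⟩ := uinj c.F c.J x₀ (inj c x₀ hΔ)
  have hdc : Continuous fun x => eval x c.Δ := MvPolynomial.continuous_eval _
  have hdne : ∀ᶠ x in 𝓝 x₀, eval x c.Δ ≠ 0 := hdc.continuousAt.eventually_ne hΔ
  obtain ⟨M₁, hM₁, h₁⟩ := ev_le x₀ (fun (_ : Unit) x => (eval x c.Δ)⁻¹)
    (fun _ => hdc.continuousAt.inv₀ hΔ)
  obtain ⟨M₂, hM₂, h₂⟩ := mem_bounds s x₀ (fun q : Fin d × Fin (N - d) => vf (c.V q.1) (c.F q.2))
    (fun q => by rw [hs]; exact hV1 _ _ (c.mem _))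
  obtain ⟨M₃, hM₃, h₃⟩ := mem_bounds s x₀ (fun q : Fin d × s => vf (c.V q.1) q.2.1)
    (fun q => by
      rw [hs]
      refine hV1 _ _ ?_
      rw [← hs]
      exact Ideal.subset_span q.2.2)
  obtain ⟨M₄, hM₄, h₄⟩ := ev_le x₀ (fun (q : s × Fin N) x => eval x (pderiv q.2 q.1.1))
    (fun q => (MvPolynomial.continuous_eval _).continuousAt)
  refine ⟨M₁ * M₃ + N * M₄ * (K * (M₁ * M₂)), by positivity, ?_⟩
  filter_upwards [hu, hdne, h₁, h₂, h₃, h₄] with x hu hdne h₁ h₂ h₃ h₄ k D hD hDF i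
  have hw : 0 ≤ ‖ww s x‖ := norm_nonneg _
  -- the vector `v`
  obtain ⟨v, hv⟩ : ∃ v : Cn N, v = (eval x c.Δ)⁻¹ • (fun l => eval x (c.V k l)) := ⟨_, rfl⟩
  have hvI : ∀ m, v (c.J m) = if m = k then 1 else 0 := by
    intro m
    rw [hv, Pi.smul_apply, smul_eq_mul, hV2]
    by_cases hkm : k = m
    · rw [if_pos hkm, if_pos hkm.symm, inv_mul_cancel₀ hdne]
    · rw [if_neg hkm, if_neg (fun h => hkm h.symm), map_zero, mul_zero]
  have hvd : ∀ (z : MvPolynomial (Fin N) ℂ) (M : ℝ), 0 ≤ M →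
      ‖eval x (vf (c.V k) z)‖ ≤ M * ‖ww s x‖ → ‖dd z x v‖ ≤ M₁ * M * ‖ww s x‖ := by
    intro z M hM h
    rw [hv, dd_smul, dd_vf, norm_mul, mul_assoc]
    exact mul_le_mul (h₁ ()) h (norm_nonneg _) hM₁
  -- the difference
  have hδ : ‖v - D‖ ≤ K * (M₁ * M₂ * ‖ww s x‖) := by
    refine hu (v - D) ?_ _ (by positivity) ?_
    · intro m
      rw [Pi.sub_apply, hvI, hD, sub_self]
    · intro a
      rw [dd_sub, hDF, sub_zero]
      exact hvd (c.F a) M₂ hM₂ (h₂ (k, a))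
  have h5 : dd i.1 x D = dd i.1 x v - dd i.1 x (v - D) := by
    rw [dd_sub]
    ring
  have h6 : ‖dd i.1 x (v - D)‖ ≤ N * M₄ * ‖v - D‖ := by
    unfold dd
    refine (norm_sum_le _ _).trans ?_
    calc ∑ j, ‖eval x (pderiv j i.1) * (v - D) j‖ ≤ ∑ j : Fin N, M₄ * ‖v - D‖ := by
          refine Finset.sum_le_sum fun j _ => ?_
          rw [norm_mul]
          exact mul_le_mul (h₄ (i, j)) (norm_le_pi_norm (v - D) j) (norm_nonneg _) hM₄
      _ = N * M₄ * ‖v - D‖ := by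
          rw [Finset.sum_const, Finset.card_univ, Fintype.card_fin, nsmul_eq_mul]
          ring
  have h7 := hvd i.1 M₃ hM₃ (h₃ (k, i))
  have h8 : (N : ℝ) * M₄ * ‖v - D‖ ≤ N * M₄ * (K * (M₁ * M₂ * ‖ww s x‖)) :=
    mul_le_mul_of_nonneg_left hδ (by positivity)
  calc ‖dd i.1 x D‖ ≤ ‖dd i.1 x v‖ + ‖dd i.1 x (v - D)‖ := by
        rw [h5]
        exact norm_sub_le _ _
    _ ≤ M₁ * M₃ * ‖ww s x‖ + N * M₄ * (K * (M₁ * M₂ * ‖ww s x‖)) :=
        add_le_add h7 (h6.trans h8)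
    _ = (M₁ * M₃ + N * M₄ * (K * (M₁ * M₂))) * ‖ww s x‖ := by ring

end PVBM

open PVBM in
theorem specPVB (hVJP : SpecVJP) : SpecPVB := by
  classical
  intro N d P hP htr c x₀ hx₀ hΔ B G hB hG hy₀ hG₀ hBG
  obtain ⟨hV1, hV2, -, -⟩ := hVJP N d P hP htr c
  obtain ⟨s, hs⟩ : P.FG := (isNoetherianRing_iff_ideal_fg _).1 inferInstance P
  obtain ⟨C, hC, hkey⟩ := key c hV1 hV2 s hs x₀ hΔ
  obtain ⟨y₀, hy⟩ : ∃ y₀ : Cn d, y₀ = fun m => x₀ (c.J m) := ⟨_, rfl⟩
  rw [← hy] at hy₀ hG₀ ⊢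
  have hGc : ContinuousAt G y₀ := (hG.continuousOn.continuousAt (hB.mem_nhds hy₀))
  have hev : ∀ᶠ y in 𝓝 y₀, y ∈ B ∧ ∀ (k : Fin d) (D : Cn N),
      (∀ m, D (c.J m) = if m = k then 1 else 0) → (∀ a, dd (c.F a) (G y) D = 0) →
      ∀ i : s, ‖dd i.1 (G y) D‖ ≤ C * ‖ww s (G y)‖ := by
    refine (Filter.eventually_of_mem (hB.mem_nhds hy₀) fun _ h => h).and ?_
    have h1 : Tendsto G (𝓝 y₀) (𝓝 x₀) := by
      have h2 := hGc.tendsto
      rwa [hG₀] at h2
    exact h1.eventually hkey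
  obtain ⟨ε, hε, hball⟩ := Metric.eventually_nhds_iff_ball.1 hev
  refine ⟨ε, hε, fun y hy => (hball y hy).1, ?_⟩
  intro y hyb
  -- derivatives
  have hGd : ∀ z ∈ Metric.ball y₀ ε, HasFDerivAt G (fderiv ℂ G z) z := by
    intro z hz
    have hzB := (hball z hz).1
    exact ((hG.contDiffAt (hB.mem_nhds hzB)).differentiableAt (by norm_num)).hasFDerivAt
  have hcomp : ∀ z ∈ Metric.ball y₀ ε, ∀ (h : MvPolynomial (Fin N) ℂ) (v : Cn d),
      HasFDerivAt (fun z => eval (G z) h) ((DD h (G z)).comp (fderiv ℂ G z)) z := by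
    intro z hz h v
    exact (hasF h (G z)).comp z (hGd z hz)
  have hDI : ∀ z ∈ Metric.ball y₀ ε, ∀ (k m : Fin d),
      fderiv ℂ G z (Pi.single k 1) (c.J m) = if m = k then 1 else 0 := by
    intro z hz k m
    have hzB := (hball z hz).1
    have h1 : HasFDerivAt (fun z => G z (c.J m))
        ((ContinuousLinearMap.proj (c.J m) : Cn N →L[ℂ] ℂ).comp (fderiv ℂ G z)) z :=
      (ContinuousLinearMap.proj (c.J m) : Cn N →L[ℂ] ℂ).hasFDerivAt.comp z (hGd z hz)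
    have h2 : HasFDerivAt (fun z : Cn d => z m) (ContinuousLinearMap.proj m : Cn d →L[ℂ] ℂ) z :=
      (ContinuousLinearMap.proj m : Cn d →L[ℂ] ℂ).hasFDerivAt
    have h3 : (fun z => G z (c.J m)) =ᶠ[𝓝 z] fun z : Cn d => z m := by
      filter_upwards [hB.mem_nhds hzB] with z' hz'
      exact (hBG z' hz').2 m
    have h4 := (h2.congr_of_eventuallyEq h3).unique h1
    have h5 := congrArg (fun L : Cn d →L[ℂ] ℂ => L (Pi.single k 1)) h4
    simp only [ContinuousLinearMap.comp_apply, ContinuousLinearMap.proj_apply] at h5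
    rw [← h5, Pi.single_apply]
  have hDF : ∀ z ∈ Metric.ball y₀ ε, ∀ (k : Fin d) (a : Fin (N - d)),
      dd (c.F a) (G z) (fderiv ℂ G z (Pi.single k 1)) = 0 := by
    intro z hz k a
    have hzB := (hball z hz).1
    have h1 := hcomp z hz (c.F a) 0
    have h2 : HasFDerivAt (fun _ : Cn d => (0 : ℂ)) (0 : Cn d →L[ℂ] ℂ) z := hasFDerivAt_const _ _
    have h3 : (fun z => eval (G z) (c.F a)) =ᶠ[𝓝 z] fun _ : Cn d => (0 : ℂ) := by
      filter_upwards [hB.mem_nhds hzB] with z' hz'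
      exact (hBG z' hz').1 a
    have h4 := (h2.congr_of_eventuallyEq h3).unique h1
    have h5 := congrArg (fun L : Cn d →L[ℂ] ℂ => L (Pi.single k 1)) h4
    exact h5.symm
  have hbd : ∀ z ∈ Metric.ball y₀ ε, ∀ (v : Cn d) (i : s),
      ‖dd i.1 (G z) (fderiv ℂ G z v)‖ ≤ d * C * ‖v‖ * ‖ww s (G z)‖ := by
    intro z hz v i
    have h1 : fderiv ℂ G z v = ∑ k, v k • fderiv ℂ G z (Pi.single k 1) := by
      conv_lhs => rw [← Finset.univ_sum_single v]
      rw [map_sum]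
      refine Finset.sum_congr rfl fun k _ => ?_
      rw [← map_smul]
      congr 1
      rw [← Pi.single_smul, smul_eq_mul, mul_one]
    rw [h1, dd_sum]
    refine (norm_sum_le _ _).trans ?_
    calc ∑ k, ‖v k * dd i.1 (G z) (fderiv ℂ G z (Pi.single k 1))‖
        ≤ ∑ k : Fin d, ‖v‖ * (C * ‖ww s (G z)‖) := by
          refine Finset.sum_le_sum fun k _ => ?_
          rw [norm_mul]
          exact mul_le_mul (norm_le_pi_norm v k)
            ((hball z hz).2 k _ (hDI z hz k) (hDF z hz k) i) (norm_nonneg _) (norm_nonneg _)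
      _ = d * C * ‖v‖ * ‖ww s (G z)‖ := by
          rw [Finset.sum_const, Finset.card_univ, Fintype.card_fin, nsmul_eq_mul]
          ring
  -- the segment
  let ln : ℝ → Cn d := fun t => y₀ + t • (y - y₀)
  have hln : ∀ t ∈ Set.Icc (0 : ℝ) 1, ln t ∈ Metric.ball y₀ ε := by
    intro t ht
    rw [Metric.mem_ball, dist_eq_norm]
    have h1 : ln t - y₀ = t • (y - y₀) := by
      show y₀ + t • (y - y₀) - y₀ = _
      abel
    rw [h1, norm_smul, Real.norm_eq_abs, abs_of_nonneg ht.1]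
    rw [Metric.mem_ball, dist_eq_norm] at hyb
    exact (mul_le_of_le_one_left (norm_nonneg _) ht.2).trans_lt hyb
  have hder : ∀ t ∈ Set.Icc (0 : ℝ) 1, HasDerivAt (fun t => ww s (G (ln t)))
      (fun i : s => dd i.1 (G (ln t)) (fderiv ℂ G (ln t) (y - y₀))) t := by
    intro t ht
    rw [hasDerivAt_pi]
    intro i
    have h1 : HasDerivAt ln (y - y₀) t := by
      have h2 : HasDerivAt (fun t : ℝ => t • (y - y₀)) ((1 : ℝ) • (y - y₀)) t :=
        (hasDerivAt_id t).smul_const (y - y₀)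
      rw [one_smul] at h2
      exact h2.const_add y₀
    have h3 := (hcomp (ln t) (hln t ht) i.1 0).restrictScalars ℝ
    have h4 := h3.comp_hasDerivAt t h1
    exact h4
  have h0 : ww s (G (ln 0)) = 0 := by
    have h1 : ln 0 = y₀ := by
      show y₀ + (0 : ℝ) • (y - y₀) = y₀
      rw [zero_smul, add_zero]
    rw [h1, hG₀]
    funext i
    refine hx₀ i.1 ?_
    rw [← hs]
    exact Ideal.subset_span i.2
  have hfin := eq_zero_of_abs_deriv_le_mul_abs_self_of_eq_zero_right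
    (f := fun t => ww s (G (ln t)))
    (f' := fun t => (fun i : s => dd i.1 (G (ln t)) (fderiv ℂ G (ln t) (y - y₀))))
    (K := d * C * ‖y - y₀‖) (a := 0) (b := 1)
    (fun t ht => (hder t ht).continuousAt.continuousWithinAt)
    (fun t ht => (hder t ⟨ht.1, ht.2.le⟩).hasDerivWithinAt) h0
    (fun t ht => by
      rw [pi_norm_le_iff_of_nonneg (by positivity)]
      intro i
      exact hbd (ln t) (hln t ⟨ht.1, ht.2.le⟩) (y - y₀) i)
    1 ⟨zero_le_one, le_rfl⟩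
  have hln1 : ln 1 = y := by
    show y₀ + (1 : ℝ) • (y - y₀) = y
    rw [one_smul]
    abel
  rw [hln1] at hfin
  -- all elements
  intro h hh
  rw [← hs] at hh
  obtain ⟨f, _, hf⟩ := Submodule.mem_span_finset.1 hh
  rw [← hf, map_sum]
  refine Finset.sum_eq_zero fun a ha => ?_
  rw [smul_eq_mul, map_mul]
  have h1 : eval (G y) a = 0 := congrFun hfin ⟨a, ha⟩
  rw [h1, mul_zero]

end Pool.Agent.Lib.MPc9b009.LF
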