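import Pool.Agent.Lib.MP_c9b009_ag.LF.SpecT

/-!
# MP_c9b009_ag, row LF, module RDQ (helper21): a square root of the determinant near a generic point of
the divisor
-/

set_option autoImplicit false

namespace Pool.Agent.Lib.MPc9b009.LF

open MvPolynomial Pool.Agent.Lib.MPc9b009.B5 Pool.Agent.Lib.MPc9b009.OD
  Pool.Agent.Lib.MPc9b009.PS Pool.Agent.Lib.MPc9b009.LS

namespace RDQM

/-- a polynomial outside a prime `Q` does not vanish at some zero of `Q` -/
theorem exists_zero {N : ℕ} (Q : Ideal (PR N)) (hQ : Q.IsPrime) {q : PR N} (hq : q ∉ Q) :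
    ∃ x : Cn N, (∀ f ∈ Q, eval x f = 0) ∧ eval x q ≠ 0 := by
  by_contra hcon
  push Not at hcon
  apply hq
  have h1 : q ∈ vanishingIdeal ℂ (zeroLocus ℂ Q) := by
    rw [mem_vanishingIdeal_iff]
    intro x hx
    rw [mem_zeroLocus_iff] at hx
    exact hcon x hx
  rw [IsPrime.vanishingIdeal_zeroLocus] at h1
  exact h1

/-- the derivative along `v` at `x` -/
noncomputable def dv {N : ℕ} (x v : Cn N) : PR N →ₗ[ℂ] ℂ where
  toFun q := ∑ l, v l * eval x (pderiv l q)
  map_add' := by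
    intro a b
    rw [← Finset.sum_add_distrib]
    refine Finset.sum_congr rfl fun l _ => ?_
    rw [map_add, map_add, mul_add]
  map_smul' := by
    intro c a
    rw [RingHom.id_apply, smul_eq_mul, Finset.mul_sum]
    refine Finset.sum_congr rfl fun l _ => ?_
    rw [Derivation.map_smul, smul_eval]
    ring

theorem dv_apply {N : ℕ} (x v : Cn N) (q : PR N) : dv x v q = ∑ l, v l * eval x (pderiv l q) := rfl

theorem dv_mul {N : ℕ} (x v : Cn N) (a b : PR N) :
    dv x v (a * b) = dv x v a * eval x b + eval x a * dv x v b := by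
  rw [dv_apply, dv_apply, dv_apply, Finset.sum_mul, Finset.mul_sum, ← Finset.sum_add_distrib]
  refine Finset.sum_congr rfl fun l _ => ?_
  rw [Derivation.leibniz, map_add, smul_eq_mul, smul_eq_mul, map_mul, map_mul]
  ring

theorem dv_C_mul {N : ℕ} (x v : Cn N) (t : ℂ) (b : PR N) : dv x v (C t * b) = t * dv x v b := by
  rw [← smul_eq_C_mul, LinearMap.map_smul, smul_eq_mul]

/-- the Schur complement of a skew matrix -/
theorem schur {R κ : Type} [CommRing R] [IsDomain R] [CharZero R] [Fintype κ] [DecidableEq κ]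
    (B : Matrix (κ ⊕ Fin 2) (κ ⊕ Fin 2) R) (hB : B.transpose = -B) (hδ : B.toBlocks₁₁.det ≠ 0) :
    B.det * B.toBlocks₁₁.det = (B.toBlocks₁₁.det * B (Sum.inr 0) (Sum.inr 1) -
      (B.toBlocks₂₁ * B.toBlocks₁₁.adjugate * B.toBlocks₁₂) 0 1) ^ 2 := by
  have hent : ∀ i j, B j i = - B i j := fun i j => by
    have := congrFun (congrFun hB i) j
    rwa [Matrix.transpose_apply, Matrix.neg_apply] at this
  obtain ⟨P, hP⟩ : ∃ P, P = B.toBlocks₁₁ := ⟨_, rfl⟩
  obtain ⟨Q, hQ⟩ : ∃ Q, Q = B.toBlocks₁₂ := ⟨_, rfl⟩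
  obtain ⟨R', hR'⟩ : ∃ R', R' = B.toBlocks₂₁ := ⟨_, rfl⟩
  obtain ⟨S, hS⟩ : ∃ S, S = B.toBlocks₂₂ := ⟨_, rfl⟩
  have hBb : B = Matrix.fromBlocks P Q R' S := by
    rw [hP, hQ, hR', hS, Matrix.fromBlocks_toBlocks]
  have tP : P.transpose = -P := by
    ext i j
    rw [hP]
    exact hent _ _
  have tQ : Q.transpose = -R' := by
    ext i j
    rw [hQ, hR']
    exact hent _ _
  have tR : R'.transpose = -Q := by
    ext i j
    rw [hQ, hR']
    exact hent _ _
  have tS : S.transpose = -S := by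
    ext i j
    rw [hS]
    exact hent _ _
  rw [← hP, ← hQ, ← hR']
  rw [← hP] at hδ
  have hS01 : B (Sum.inr 0) (Sum.inr 1) = S 0 1 := by rw [hS]; rfl
  rw [hS01]
  have hadj : P.adjugate.transpose = -P.adjugate := by
    have h1 : P.adjugate.transpose * P = -(P.det • (1 : Matrix κ κ R)) := by
      have h2 : (P * P.adjugate).transpose = (P.det • (1 : Matrix κ κ R)).transpose := by
        rw [Matrix.mul_adjugate]
      rw [Matrix.transpose_mul, tP, Matrix.mul_neg, Matrix.transpose_smul,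
        Matrix.transpose_one] at h2
      rw [← h2, neg_neg]
    have h3 : P.det • P.adjugate.transpose = P.det • (-P.adjugate) := by
      calc P.det • P.adjugate.transpose = P.adjugate.transpose * (P * P.adjugate) := by
            rw [Matrix.mul_adjugate, Matrix.mul_smul, Matrix.mul_one]
        _ = (P.adjugate.transpose * P) * P.adjugate := by rw [Matrix.mul_assoc]
        _ = P.det • (-P.adjugate) := by
            rw [h1, Matrix.neg_mul, Matrix.smul_mul, Matrix.one_mul, smul_neg]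
    ext i j
    have h4 := congrFun (congrFun h3 i) j
    rw [Matrix.smul_apply, Matrix.smul_apply, smul_eq_mul, smul_eq_mul] at h4
    exact mul_left_cancel₀ hδ h4
  obtain ⟨E, hE⟩ : ∃ E, E = P.det • S - R' * P.adjugate * Q := ⟨_, rfl⟩
  have tRQ : (R' * P.adjugate * Q).transpose = -(R' * P.adjugate * Q) := by
    rw [Matrix.transpose_mul, Matrix.transpose_mul, tQ, tR, hadj]
    simp only [Matrix.neg_mul, Matrix.mul_neg, neg_neg, Matrix.mul_assoc]
  have tE : E.transpose = -E := by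
    rw [hE, Matrix.transpose_sub, Matrix.transpose_smul, tS, tRQ, smul_neg, neg_sub, sub_neg_eq_add,
      neg_add_eq_sub]
  have hE01 : E 0 1 = P.det * S 0 1 - (R' * P.adjugate * Q) 0 1 := by
    rw [hE]
    rfl
  rw [← hE01]
  have hdE : E.det = E 0 1 ^ 2 := by
    have h0 : E 0 0 = 0 := by
      have h := congrFun (congrFun tE 0) 0
      rw [Matrix.transpose_apply, Matrix.neg_apply] at h
      exact self_eq_neg.mp h
    have h1 : E 1 0 = - E 0 1 := by
      have h := congrFun (congrFun tE 0) 1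
      rwa [Matrix.transpose_apply, Matrix.neg_apply] at h
    rw [Matrix.det_fin_two, h0, h1]
    ring
  have hmul : B * Matrix.fromBlocks 1 (-(P.adjugate * Q)) 0 (P.det • 1) =
      Matrix.fromBlocks P 0 R' E := by
    rw [hBb, Matrix.fromBlocks_multiply]
    congr 1
    · rw [Matrix.mul_one, Matrix.mul_zero, add_zero]
    · rw [Matrix.mul_neg, ← Matrix.mul_assoc, Matrix.mul_adjugate, Matrix.smul_mul, Matrix.one_mul,
        Matrix.mul_smul, Matrix.mul_one, neg_add_cancel]
    · rw [Matrix.mul_one, Matrix.mul_zero, add_zero]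
    · rw [Matrix.mul_neg, ← Matrix.mul_assoc, Matrix.mul_smul, Matrix.mul_one, hE]
      abel
  have hd := congrArg Matrix.det hmul
  rw [Matrix.det_mul, Matrix.det_fromBlocks_zero₂₁, Matrix.det_fromBlocks_zero₁₂, Matrix.det_one,
    one_mul, Matrix.det_smul, Matrix.det_one, mul_one, Fintype.card_fin, hdE] at hd
  refine mul_left_cancel₀ hδ ?_
  rw [← hd]
  ring

/-- linear algebra at the point -/
theorem ptl {n : ℕ} (A : Matrix (Fin n) (Fin n) ℂ) (hA : A.transpose = -A) (ξ ζ : Fin n → ℂ)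
    (hξ : A.mulVec ξ = 0) (hζ : A.mulVec ζ = 0) (hli : LinearIndependent ℂ ![ξ, ζ])
    (hr : n ≤ A.rank + 2) :
    ∃ (m : ℕ) (e : Fin m ⊕ Fin 2 ≃ Fin n) (U : Matrix (Fin m ⊕ Fin 2) (Fin n) ℂ),
      (U.submatrix e.symm id).det ≠ 0 ∧ U (Sum.inr 0) = ξ ∧ U (Sum.inr 1) = ζ ∧
      (U * A * U.transpose).toBlocks₁₁.det ≠ 0 := by
  obtain ⟨S, hS⟩ : ∃ S, S = Submodule.span ℂ (Set.range ![ξ, ζ]) := ⟨_, rfl⟩
  obtain ⟨W, hW⟩ := S.exists_isCompl
  have hfS : Module.finrank ℂ S = 2 := by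
    rw [hS, finrank_span_eq_card hli, Fintype.card_fin]
  have hfW := Submodule.finrank_add_eq_of_isCompl hW
  rw [hfS, Module.finrank_fin_fun] at hfW
  obtain ⟨m, hm⟩ : ∃ m, m = Module.finrank ℂ W := ⟨_, rfl⟩
  obtain ⟨b⟩ : Nonempty (Module.Basis (Fin m) ℂ W) := ⟨Module.finBasisOfFinrankEq ℂ W hm.symm⟩
  obtain ⟨u, hu⟩ : ∃ u : Fin m → Fin n → ℂ, u = fun i => (b i : Fin n → ℂ) := ⟨_, rfl⟩
  have hui : LinearIndependent ℂ u := by
    rw [hu]
    exact b.linearIndependent.map' W.subtype W.ker_subtype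
  have huW : ∀ i, u i ∈ W := fun i => by
    rw [hu]
    exact (b i).2
  have huS : Submodule.span ℂ (Set.range u) ≤ W := by
    rw [Submodule.span_le]
    rintro _ ⟨i, rfl⟩
    exact huW i
  have hUi : LinearIndependent ℂ (Sum.elim u ![ξ, ζ]) := by
    refine hui.sum_type hli ?_
    rw [← hS]
    exact (hW.disjoint.mono_right huS).symm
  have hcard : m + 2 = n := by omega
  obtain ⟨e⟩ : Nonempty (Fin m ⊕ Fin 2 ≃ Fin n) := ⟨finSumFinEquiv.trans (finCongr hcard)⟩
  obtain ⟨U, hU⟩ : ∃ U : Matrix (Fin m ⊕ Fin 2) (Fin n) ℂ, U = Matrix.of (Sum.elim u ![ξ, ζ]) :=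
    ⟨_, rfl⟩
  have hU0 : U (Sum.inr 0) = ξ := by rw [hU]; rfl
  have hU1 : U (Sum.inr 1) = ζ := by rw [hU]; rfl
  have hUu : ∀ i, U (Sum.inl i) = u i := fun i => by rw [hU]; rfl
  have hdet : (U.submatrix e.symm id).det ≠ 0 := by
    have h1 : LinearIndependent ℂ (U.submatrix e.symm id).row := by
      have h2 : (U.submatrix e.symm id).row = Sum.elim u ![ξ, ζ] ∘ e.symm := by
        rw [hU]
        rfl
      rw [h2]
      exact hUi.comp _ e.symm.injective
    rw [Matrix.linearIndependent_rows_iff_isUnit, Matrix.isUnit_iff_isUnit_det] at h1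
    exact h1.ne_zero
  refine ⟨m, e, U, hdet, hU0, hU1, ?_⟩
  intro h0
  obtain ⟨w, hw0, hw⟩ := Matrix.exists_mulVec_eq_zero_iff.mpr h0
  apply hw0
  obtain ⟨z, hz⟩ : ∃ z : Fin n → ℂ, z = ∑ i, w i • u i := ⟨_, rfl⟩
  have hzW : z ∈ W := by
    rw [hz]
    exact W.sum_mem fun i _ => W.smul_mem _ (huW i)
  -- `A z` is orthogonal to everything
  have hskew : ∀ y : Fin n → ℂ, A.mulVec y = 0 → y ⬝ᵥ A.mulVec z = 0 := by
    intro y hy
    rw [Matrix.dotProduct_mulVec, ← Matrix.mulVec_transpose, hA, Matrix.neg_mulVec, hy, neg_zero,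
      zero_dotProduct]
  have horth : ∀ k, U k ⬝ᵥ A.mulVec z = 0 := by
    rintro (i | k)
    · have h1 := congrFun hw i
      rw [Pi.zero_apply] at h1
      rw [← h1, hz]
      simp only [Matrix.mulVec, dotProduct, Matrix.toBlocks₁₁, Matrix.of_apply, Matrix.mul_apply,
        Matrix.transpose_apply, hUu, Finset.sum_apply, Pi.smul_apply, smul_eq_mul]
      simp only [Finset.mul_sum, Finset.sum_mul]
      rw [Finset.sum_comm]
      rw [Finset.sum_comm (s := Finset.univ (α := Fin m))]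
      refine Finset.sum_congr rfl fun a _ => ?_
      rw [Finset.sum_comm]
      refine Finset.sum_congr rfl fun c _ => ?_
      refine Finset.sum_congr rfl fun d _ => ?_
      ring
    · fin_cases k
      · exact hU0 ▸ hskew _ hξ
      · exact hU1 ▸ hskew _ hζ
  have hAz : A.mulVec z = 0 := by
    refine Matrix.eq_zero_of_mulVec_eq_zero hdet ?_
    funext k
    exact horth (e.symm k)
  have hker : S = LinearMap.ker A.mulVecLin := by
    refine Submodule.eq_of_le_of_finrank_le ?_ ?_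
    · rw [hS, Submodule.span_le]
      rintro _ ⟨k, rfl⟩
      fin_cases k
      · exact hξ
      · exact hζ
    · rw [hfS]
      have h1 := LinearMap.finrank_range_add_finrank_ker A.mulVecLin
      rw [Module.finrank_fin_fun] at h1
      have h2 : A.rank = Module.finrank ℂ (LinearMap.range A.mulVecLin) := rfl
      omega
  have hzS : z ∈ S := by
    rw [hker]
    exact hAz
  have hz0 : z = 0 := by
    have h1 : z ∈ S ⊓ W := ⟨hzS, hzW⟩
    rw [hW.inf_eq_bot, Submodule.mem_bot] at h1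
    exact h1
  rw [hz] at hz0
  exact funext (Fintype.linearIndependent_iff.mp hui w hz0)

/-- the derivative of a product of three factors, the outer ones vanish -/
theorem dv_three {N : ℕ} (x v : Cn N) (a b c : PR N) (ha : eval x a = 0) (hc : eval x c = 0) :
    dv x v (a * b * c) = 0 := by
  rw [dv_mul, dv_mul, map_mul, ha, hc]
  ring

theorem swap4 {α β R : Type} [Fintype α] [Fintype β] [AddCommMonoid R]
    (F : α → α → β → β → R) :
    ∑ i, ∑ i', ∑ l, ∑ j, F i i' l j = ∑ l, ∑ j, ∑ i, ∑ i', F i i' l j := by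
  calc ∑ i, ∑ i', ∑ l, ∑ j, F i i' l j
      = ∑ i, ∑ l, ∑ i', ∑ j, F i i' l j :=
        Finset.sum_congr rfl fun i _ => Finset.sum_comm
    _ = ∑ l, ∑ i, ∑ i', ∑ j, F i i' l j := Finset.sum_comm
    _ = ∑ l, ∑ i, ∑ j, ∑ i', F i i' l j :=
        Finset.sum_congr rfl fun l _ => Finset.sum_congr rfl fun i _ => Finset.sum_comm
    _ = ∑ l, ∑ j, ∑ i, ∑ i', F i i' l j :=
        Finset.sum_congr rfl fun l _ => Finset.sum_comm

theorem umu {R κ ι : Type} [CommRing R] [Fintype κ] [Fintype ι] (U : Matrix κ ι R)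
    (A : Matrix ι ι R) (k k' : κ) :
    (U * A * U.transpose) k k' = U k ⬝ᵥ A.mulVec (U k') := by
  rw [Matrix.mul_assoc, Matrix.mul_apply]
  refine Finset.sum_congr rfl fun i _ => ?_
  rw [Matrix.mul_apply]
  rfl

theorem skew_dot {ι : Type} [Fintype ι] (A : Matrix ι ι ℂ) (hA : A.transpose = -A) (y z : ι → ℂ) :
    y ⬝ᵥ A.mulVec z = - (z ⬝ᵥ A.mulVec y) := by
  rw [Matrix.dotProduct_mulVec, ← Matrix.mulVec_transpose, hA, Matrix.neg_mulVec,
    neg_dotProduct, dotProduct_comm]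

theorem skew_self {ι : Type} [Fintype ι] (A : Matrix ι ι ℂ) (hA : A.transpose = -A) (y : ι → ℂ) :
    y ⬝ᵥ A.mulVec y = 0 := by
  have h := skew_dot A hA y y
  exact self_eq_neg.mp h

end RDQM

theorem specRDQ (hVJP : SpecVJP) : SpecRDQ := by
  classical
  intro N n I q π hn hI hq hIq hdI hdq hsk hst hR c hΔ hdet
  obtain ⟨hV1, hV2, hV3, hnN⟩ := hVJP N n I hI hdI c
  obtain ⟨b, hb, hRb⟩ := hR
  -- the point
  obtain ⟨β, hβ, hβq⟩ : ∃ β ∈ b, β ∉ q := by
    by_contra hcon
    push Not at hcon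
    have h1 := hb q hq hcon
    have h2 : ((n : ℕ) : Cardinal) ≤ ((n - 2 : ℕ) : Cardinal) + 1 := hdq.trans (by gcongr)
    have h3 : n ≤ n - 2 + 1 := by exact_mod_cast h2
    omega
  have hΔβ : c.Δ * β ∉ q := fun h => (hq.mem_or_mem h).elim hΔ hβq
  obtain ⟨x, hxq, hxne⟩ := RDQM.exists_zero q hq hΔβ
  rw [map_mul] at hxne
  have hΔx : eval x c.Δ ≠ 0 := left_ne_zero_of_mul hxne
  have hxI : x ∈ Zer I := fun f hf => hxq f (hIq hf)
  have hxb : x ∉ Zer b := fun h => right_ne_zero_of_mul hxne (h β hβ)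
  have hRx := hRb x hxI hxb
  -- the matrices
  obtain ⟨𝔸, h𝔸⟩ : ∃ 𝔸 : Matrix (Fin n) (Fin n) (PR N),
    𝔸 = Matrix.of fun i j => π (c.J i) (c.J j) := ⟨_, rfl⟩
  rw [← h𝔸] at hdet ⊢
  have h𝔸e : ∀ i j, 𝔸 i j = π (c.J i) (c.J j) := fun i j => by rw [h𝔸]; rfl
  have h𝔸t : 𝔸.transpose = -𝔸 := by
    ext1 i j
    rw [Matrix.transpose_apply, Matrix.neg_apply, h𝔸e, h𝔸e, hsk]
  obtain ⟨A, hA⟩ : ∃ A : Matrix (Fin n) (Fin n) ℂ, A = 𝔸.map (eval x) := ⟨_, rfl⟩
  have hAe : ∀ i j, A i j = eval x (π (c.J i) (c.J j)) := fun i j => by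
    rw [hA, Matrix.map_apply, h𝔸e]
  have hAt : A.transpose = -A := by
    ext1 i j
    rw [Matrix.transpose_apply, Matrix.neg_apply, hAe, hAe, hsk, map_neg]
  have hdA : A.det = 0 := by
    have h1 := hxq _ hdet
    rw [RingHom.map_det] at h1
    rw [hA]
    exact h1
  have h3 : ∀ l j, c.Δ * π l j - ∑ i, π (c.J i) j * c.V i l ∈ I := fun l j =>
    hV3 (fun l => π l j) I (fun a => hst _ (c.mem a) j) l
  have h4 : ∀ l j, c.Δ ^ 2 * π l j - ∑ i, ∑ i', c.V i l * c.V i' j * π (c.J i) (c.J i') ∈ I := by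
    intro l j
    have e1 := I.mul_mem_left c.Δ (h3 l j)
    have e2 : ∑ i, c.V i l * (-(c.Δ * π j (c.J i) - ∑ i', π (c.J i') (c.J i) * c.V i' j)) ∈ I :=
      I.sum_mem fun i _ => I.mul_mem_left _ (I.neg_mem (h3 j (c.J i)))
    have e3 := I.add_mem e1 e2
    have e4 : c.Δ ^ 2 * π l j - ∑ i, ∑ i', c.V i l * c.V i' j * π (c.J i) (c.J i') =
        c.Δ * (c.Δ * π l j - ∑ i, π (c.J i) j * c.V i l) +
        ∑ i, c.V i l * (-(c.Δ * π j (c.J i) - ∑ i', π (c.J i') (c.J i) * c.V i' j)) := by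
      have e5 : ∀ i, c.V i l * (-(c.Δ * π j (c.J i) - ∑ i', π (c.J i') (c.J i) * c.V i' j)) =
          c.Δ * (π (c.J i) j * c.V i l) - ∑ i', c.V i l * c.V i' j * π (c.J i) (c.J i') := by
        intro i
        have e6 : ∑ i', π (c.J i') (c.J i) * c.V i' j =
            - ∑ i', π (c.J i) (c.J i') * c.V i' j := by
          rw [← Finset.sum_neg_distrib]
          refine Finset.sum_congr rfl fun i' _ => ?_
          rw [hsk (c.J i) (c.J i')]
          ring
        have e7 : ∑ i', c.V i l * c.V i' j * π (c.J i) (c.J i') =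
            c.V i l * ∑ i', π (c.J i) (c.J i') * c.V i' j := by
          rw [Finset.mul_sum]
          refine Finset.sum_congr rfl fun i' _ => ?_
          ring
        rw [e6, e7, hsk (c.J i) j]
        ring
      rw [Finset.sum_congr rfl fun i _ => e5 i, Finset.sum_sub_distrib, ← Finset.mul_sum]
      ring
    rw [e4]
    exact e3
  obtain ⟨t, ht⟩ : ∃ t : Matrix (Fin n) (Fin N) ℂ, t = Matrix.of fun i l => eval x (c.V i l) :=
    ⟨_, rfl⟩
  have hte : ∀ i l, t i l = eval x (c.V i l) := fun i l => by rw [ht]; rfl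
  -- `Δ² M = tᵀ A t`
  have hM4 : (eval x c.Δ) ^ 2 • mat π x = t.transpose * A * t := by
    ext1 l j
    have e1 := hxI _ (h4 l j)
    rw [map_sub, map_mul, map_pow, sub_eq_zero] at e1
    rw [Matrix.smul_apply, smul_eq_mul]
    change (eval x c.Δ) ^ 2 * eval x (π l j) = _
    rw [e1, map_sum, Matrix.mul_apply]
    rw [Finset.sum_congr rfl fun i _ => map_sum _ _ _, Finset.sum_comm]
    refine Finset.sum_congr rfl fun i' _ => ?_
    rw [Matrix.mul_apply, Finset.sum_mul]
    refine Finset.sum_congr rfl fun i _ => ?_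
    rw [map_mul, map_mul, Matrix.transpose_apply, hAe, hte, hte]
    ring
  have hrk : (mat π x).rank ≤ A.rank := by
    have h5 : mat π x = (((eval x c.Δ) ^ 2)⁻¹ • t.transpose) * A * t := by
      rw [Matrix.smul_mul, Matrix.smul_mul, ← hM4, smul_smul, inv_mul_cancel₀ (pow_ne_zero 2 hΔx),
        one_smul]
    rw [h5]
    exact (Matrix.rank_mul_le_left _ _).trans (Matrix.rank_mul_le_right _ _)
  have hdef : A.rank < n := by
    by_contra hcon
    have h6 : A.rank = n := le_antisymm ((Matrix.rank_le_width A)) (not_lt.mp hcon)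
    obtain ⟨w, hw0, hw⟩ := Matrix.exists_mulVec_eq_zero_iff.mpr hdA
    have h7 := LinearMap.finrank_range_add_finrank_ker A.mulVecLin
    rw [Module.finrank_fin_fun] at h7
    have h8 : A.rank = Module.finrank ℂ (LinearMap.range A.mulVecLin) := rfl
    have h9 : Module.finrank ℂ (LinearMap.ker A.mulVecLin) = 0 := by omega
    rw [Submodule.finrank_eq_zero] at h9
    have h10 : w ∈ LinearMap.ker A.mulVecLin := hw
    rw [h9, Submodule.mem_bot] at h10
    exact hw0 h10
  obtain ⟨hrM, ξ, ζ, v, hξ, hζ, hv, hκ⟩ : (mat π x).rank + 2 = n ∧ ∃ ξ ζ v : Cn N,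
      (mat π x).mulVec ξ = 0 ∧ (mat π x).mulVec ζ = 0 ∧ v ∈ tgx I x ∧
      ∑ i, ∑ j, ∑ l, ξ i * ζ j * v l * eval x (pderiv l (π i j)) ≠ 0 := by
    rcases hRx with h | h
    · omega
    · exact h
  -- the derivative along `v` of the elements of `I` is zero
  have hdv0 : ∀ f ∈ I, RDQM.dv x v f = 0 := by
    intro f hf
    rw [RDQM.dv_apply]
    have h1 : ∑ l, v l * aeval x (pderiv l f) = 0 := hv f hf
    rw [← h1]
    rfl
  have hκ' : ∑ i, ∑ j, ξ i * ζ j * RDQM.dv x v (π i j) ≠ 0 := by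
    intro h
    apply hκ
    rw [← h]
    refine Finset.sum_congr rfl fun i _ => Finset.sum_congr rfl fun j _ => ?_
    rw [RDQM.dv_apply, Finset.mul_sum]
    refine Finset.sum_congr rfl fun l _ => ?_
    ring
  -- the covectors on the coordinates `J`
  have hpull : ∀ η : Cn N, (mat π x).mulVec η = 0 → A.mulVec (t.mulVec η) = 0 := by
    intro η hη
    funext k
    rw [Pi.zero_apply]
    have e1 : ∀ l, eval x c.Δ * eval x (π l (c.J k)) =
        ∑ i, eval x (π (c.J i) (c.J k)) * eval x (c.V i l) := by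
      intro l
      have e2 := hxI _ (h3 l (c.J k))
      rw [map_sub, map_mul, map_sum, sub_eq_zero] at e2
      rw [e2]
      refine Finset.sum_congr rfl fun i _ => ?_
      rw [map_mul]
    have e3 := congrFun hη (c.J k)
    have e4 : ∑ l, eval x (π (c.J k) l) * η l = 0 := e3
    have e5 : ∑ l, (eval x c.Δ * eval x (π l (c.J k))) * η l = 0 := by
      have e6 : ∀ l, (eval x c.Δ * eval x (π l (c.J k))) * η l =
          - (eval x c.Δ) * (eval x (π (c.J k) l) * η l) := by
        intro l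
        rw [hsk (c.J k) l, map_neg]
        ring
      rw [Finset.sum_congr rfl fun l _ => e6 l, ← Finset.mul_sum, e4, mul_zero]
    rw [Finset.sum_congr rfl fun l _ => by rw [e1 l]] at e5
    have e7 : (A.mulVec (t.mulVec η)) k = - ∑ l, (∑ i, eval x (π (c.J i) (c.J k)) *
        eval x (c.V i l)) * η l := by
      change ∑ i, A k i * ∑ l, t i l * η l = _
      rw [← Finset.sum_neg_distrib]
      simp only [Finset.mul_sum, Finset.sum_mul, ← Finset.sum_neg_distrib]
      rw [Finset.sum_comm]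
      refine Finset.sum_congr rfl fun l _ => Finset.sum_congr rfl fun i _ => ?_
      rw [hAe, hte, hsk (c.J i) (c.J k), map_neg]
      ring
    rw [e7, e5, neg_zero]
  obtain ⟨ξ', hξ'⟩ : ∃ ξ', ξ' = t.mulVec ξ := ⟨_, rfl⟩
  obtain ⟨ζ', hζ'⟩ : ∃ ζ', ζ' = t.mulVec ζ := ⟨_, rfl⟩
  have hAξ : A.mulVec ξ' = 0 := by rw [hξ']; exact hpull ξ hξ
  have hAζ : A.mulVec ζ' = 0 := by rw [hζ']; exact hpull ζ hζ
  have hκJ : ∑ i, ∑ j, ξ' i * ζ' j * RDQM.dv x v (π (c.J i) (c.J j)) ≠ 0 := by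
    obtain ⟨a, ha⟩ : ∃ a : Fin n → PR N, a = fun i => ∑ l, C (ξ l) * c.V i l := ⟨_, rfl⟩
    obtain ⟨b', hb'⟩ : ∃ b' : Fin n → PR N, b' = fun i => ∑ l, C (ζ l) * c.V i l := ⟨_, rfl⟩
    have hax : ∀ i, eval x (a i) = ξ' i := by
      intro i
      rw [ha, hξ']
      change eval x (∑ l, C (ξ l) * c.V i l) = ∑ l, t i l * ξ l
      rw [map_sum]
      refine Finset.sum_congr rfl fun l _ => ?_
      rw [map_mul, eval_C, hte, mul_comm]
    have hbx : ∀ i, eval x (b' i) = ζ' i := by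
      intro i
      rw [hb', hζ']
      change eval x (∑ l, C (ζ l) * c.V i l) = ∑ l, t i l * ζ l
      rw [map_sum]
      refine Finset.sum_congr rfl fun l _ => ?_
      rw [map_mul, eval_C, hte, mul_comm]
    obtain ⟨P₁, hP₁⟩ : ∃ P₁ : PR N, P₁ = ∑ l, ∑ j, C (ξ l) * (C (ζ j) * π l j) := ⟨_, rfl⟩
    have hQI : c.Δ ^ 2 * P₁ - ∑ i, ∑ i', a i * b' i' * π (c.J i) (c.J i') ∈ I := by
      have e1 : ∑ l, ∑ j, C (ξ l) * C (ζ j) * (c.Δ ^ 2 * π l j -
          ∑ i, ∑ i', c.V i l * c.V i' j * π (c.J i) (c.J i')) ∈ I :=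
        I.sum_mem fun l _ => I.sum_mem fun j _ => I.mul_mem_left _ (h4 l j)
      have e2 : c.Δ ^ 2 * P₁ - ∑ i, ∑ i', a i * b' i' * π (c.J i) (c.J i') =
          ∑ l, ∑ j, C (ξ l) * C (ζ j) * (c.Δ ^ 2 * π l j -
          ∑ i, ∑ i', c.V i l * c.V i' j * π (c.J i) (c.J i')) := by
        have e3 : ∑ i, ∑ i', a i * b' i' * π (c.J i) (c.J i') = ∑ l, ∑ j, C (ξ l) * C (ζ j) *
            ∑ i, ∑ i', c.V i l * c.V i' j * π (c.J i) (c.J i') := by
          have e5 : ∀ i i', a i * b' i' * π (c.J i) (c.J i') = ∑ l, ∑ j,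
              C (ξ l) * C (ζ j) * (c.V i l * c.V i' j * π (c.J i) (c.J i')) := by
            intro i i'
            rw [ha, hb']
            change (∑ l, C (ξ l) * c.V i l) * (∑ j, C (ζ j) * c.V i' j) * π (c.J i) (c.J i') = _
            rw [Finset.sum_mul_sum, Finset.sum_mul]
            refine Finset.sum_congr rfl fun l _ => ?_
            rw [Finset.sum_mul]
            refine Finset.sum_congr rfl fun j _ => ?_
            ring
          rw [Finset.sum_congr rfl fun i _ => Finset.sum_congr rfl fun i' _ => e5 i i',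
            RDQM.swap4]
          refine Finset.sum_congr rfl fun l _ => Finset.sum_congr rfl fun j _ => ?_
          rw [Finset.mul_sum]
          refine Finset.sum_congr rfl fun i _ => ?_
          rw [Finset.mul_sum]
        rw [e3, hP₁, Finset.mul_sum, ← Finset.sum_sub_distrib]
        refine Finset.sum_congr rfl fun l _ => ?_
        rw [Finset.mul_sum, ← Finset.sum_sub_distrib]
        refine Finset.sum_congr rfl fun j _ => ?_
        ring
      rw [e2]
      exact e1
    have hd := hdv0 _ hQI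
    have hP0 : eval x P₁ = 0 := by
      rw [hP₁, map_sum]
      refine Finset.sum_eq_zero fun l _ => ?_
      rw [map_sum]
      have e1 : ∑ j, eval x (π l j) * ζ j = 0 := congrFun hζ l
      have e2 : ∀ j, eval x (C (ξ l) * (C (ζ j) * π l j)) = ξ l * (eval x (π l j) * ζ j) := by
        intro j
        rw [map_mul, map_mul, eval_C, eval_C]
        ring
      rw [Finset.sum_congr rfl fun j _ => e2 j, ← Finset.mul_sum, e1, mul_zero]
    have hdP : RDQM.dv x v P₁ = ∑ i, ∑ j, ξ i * ζ j * RDQM.dv x v (π i j) := by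
      rw [hP₁, map_sum]
      refine Finset.sum_congr rfl fun l _ => ?_
      rw [map_sum]
      refine Finset.sum_congr rfl fun j _ => ?_
      rw [RDQM.dv_C_mul, RDQM.dv_C_mul]
      ring
    have hd2 : RDQM.dv x v (∑ i, ∑ i', a i * b' i' * π (c.J i) (c.J i')) =
        ∑ i, ∑ j, ξ' i * ζ' j * RDQM.dv x v (π (c.J i) (c.J j)) := by
      have e1 : ∀ i i', RDQM.dv x v (a i * b' i' * π (c.J i) (c.J i')) =
          (RDQM.dv x v (a i) * (A i i' * ζ' i') + RDQM.dv x v (b' i') * (ξ' i * A i i')) +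
          ξ' i * ζ' i' * RDQM.dv x v (π (c.J i) (c.J i')) := by
        intro i i'
        rw [RDQM.dv_mul, RDQM.dv_mul, map_mul, hax, hbx, hAe]
        ring
      have e2 : ∑ i, ∑ i', RDQM.dv x v (a i) * (A i i' * ζ' i') = 0 := by
        refine Finset.sum_eq_zero fun i _ => ?_
        have e3 : ∑ i', A i i' * ζ' i' = 0 := congrFun hAζ i
        rw [← Finset.mul_sum, e3, mul_zero]
      have e4 : ∑ i, ∑ i', RDQM.dv x v (b' i') * (ξ' i * A i i') = 0 := by
        rw [Finset.sum_comm]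
        refine Finset.sum_eq_zero fun i' _ => ?_
        have e5 : ∑ i, A i' i * ξ' i = 0 := congrFun hAξ i'
        have e6 : ∑ i, ξ' i * A i i' = 0 := by
          rw [← neg_eq_zero, ← Finset.sum_neg_distrib, ← e5]
          refine Finset.sum_congr rfl fun i _ => ?_
          have e7 := congrFun (congrFun hAt i) i'
          rw [Matrix.transpose_apply, Matrix.neg_apply] at e7
          rw [e7]
          ring
        rw [← Finset.mul_sum, e6, mul_zero]
      rw [map_sum, Finset.sum_congr rfl fun i _ => map_sum _ _ _,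
        Finset.sum_congr rfl fun i _ => Finset.sum_congr rfl fun i' _ => e1 i i']
      simp only [Finset.sum_add_distrib]
      rw [e2, e4, add_zero, zero_add]
    rw [map_sub, hd2, RDQM.dv_mul, hP0, mul_zero, zero_add, hdP] at hd
    intro hcon
    rw [hcon, sub_zero, map_pow] at hd
    exact (mul_ne_zero (pow_ne_zero 2 hΔx) hκ') hd
  -- the matrix of derivatives
  obtain ⟨D, hD⟩ : ∃ D : Matrix (Fin n) (Fin n) ℂ,
    D = Matrix.of fun i j => RDQM.dv x v (π (c.J i) (c.J j)) := ⟨_, rfl⟩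
  have hDe : ∀ i j, D i j = RDQM.dv x v (π (c.J i) (c.J j)) := fun i j => by rw [hD]; rfl
  have hDt : D.transpose = -D := by
    ext1 i j
    rw [Matrix.transpose_apply, Matrix.neg_apply, hDe, hDe, hsk, map_neg]
  have hκD : ξ' ⬝ᵥ D.mulVec ζ' ≠ 0 := by
    intro h
    apply hκJ
    rw [← h]
    refine Finset.sum_congr rfl fun i _ => ?_
    change _ = ξ' i * ∑ j, D i j * ζ' j
    rw [Finset.mul_sum]
    refine Finset.sum_congr rfl fun j _ => ?_
    rw [hDe]
    ring
  have hli : LinearIndependent ℂ ![ξ', ζ'] := by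
    rw [LinearIndependent.pair_iff]
    intro s r h
    have e1 : (s • ξ' + r • ζ') ⬝ᵥ D.mulVec ζ' = 0 := by rw [h, zero_dotProduct]
    have e2 : (s • ξ' + r • ζ') ⬝ᵥ D.mulVec ξ' = 0 := by rw [h, zero_dotProduct]
    rw [add_dotProduct, smul_dotProduct, smul_dotProduct, RDQM.skew_self D hDt, smul_zero,
      add_zero, smul_eq_mul] at e1
    rw [add_dotProduct, smul_dotProduct, smul_dotProduct, RDQM.skew_self D hDt, smul_zero,
      zero_add, smul_eq_mul, RDQM.skew_dot D hDt] at e2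
    refine ⟨(mul_eq_zero.mp e1).resolve_right hκD, (mul_eq_zero.mp e2).resolve_right ?_⟩
    exact neg_ne_zero.mpr hκD
  obtain ⟨m, e, U, hUdet, hU0, hU1, hUB⟩ := RDQM.ptl A hAt ξ' ζ' hAξ hAζ hli (by omega)
  obtain ⟨B, hB⟩ : ∃ B : Matrix (Fin m ⊕ Fin 2) (Fin m ⊕ Fin 2) (PR N),
    B = (U.map (C : ℂ → PR N) : Matrix (Fin m ⊕ Fin 2) (Fin n) (PR N)) * 𝔸 *
      (U.map (C : ℂ → PR N) : Matrix (Fin m ⊕ Fin 2) (Fin n) (PR N)).transpose := ⟨_, rfl⟩
  have hBt : B.transpose = -B := by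
    rw [hB, Matrix.transpose_mul, Matrix.transpose_mul, Matrix.transpose_transpose, h𝔸t,
      Matrix.neg_mul, Matrix.mul_neg, Matrix.mul_assoc]
  have hUC : (U.map (C : ℂ → PR N)).map (eval x) = U := by
    ext i j
    rw [Matrix.map_apply, Matrix.map_apply, eval_C]
  have hBe : B.map (eval x) = U * A * U.transpose := by
    rw [hB, Matrix.map_mul, Matrix.map_mul, Matrix.transpose_map, hUC, hA]
  have hBe' : ∀ i j, eval x (B i j) = U i ⬝ᵥ A.mulVec (U j) := by
    intro i j
    rw [← RDQM.umu, ← hBe, Matrix.map_apply]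
  have hB1 : ∀ i j, A.mulVec (U j) = 0 → eval x (B i j) = 0 := by
    intro i j h
    rw [hBe', h, dotProduct_zero]
  have hB2 : ∀ i j, A.mulVec (U i) = 0 → eval x (B i j) = 0 := by
    intro i j h
    rw [hBe', RDQM.skew_dot A hAt, h, dotProduct_zero, neg_zero]
  obtain ⟨δ, hδ⟩ : ∃ δ : PR N, δ = B.toBlocks₁₁.det := ⟨_, rfl⟩
  have hδx : eval x δ ≠ 0 := by
    rw [hδ, RingHom.map_det]
    have h1 : (eval x).mapMatrix B.toBlocks₁₁ = (U * A * U.transpose).toBlocks₁₁ := by
      rw [← hBe]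
      rfl
    rw [h1]
    exact hUB
  have hδ0 : δ ≠ 0 := by
    intro h
    apply hδx
    rw [h, map_zero]
  obtain ⟨σ, hσ⟩ : ∃ σ : PR N, σ = δ * B (Sum.inr 0) (Sum.inr 1) -
    (B.toBlocks₂₁ * B.toBlocks₁₁.adjugate * B.toBlocks₁₂) 0 1 := ⟨_, rfl⟩
  have hsch : B.det * δ = σ ^ 2 := by
    rw [hσ, hδ]
    exact RDQM.schur B hBt (hδ ▸ hδ0)
  have hdetB : B.det = C ((U.submatrix e.symm id).det ^ 2) * 𝔸.det := by
    have h1 : B = (((U.submatrix e.symm id).map (C : ℂ → PR N) :
        Matrix (Fin n) (Fin n) (PR N)) * 𝔸 * ((U.submatrix e.symm id).map (C : ℂ → PR N) :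
        Matrix (Fin n) (Fin n) (PR N)).transpose).submatrix e e := by
      ext1 i j
      rw [hB, Matrix.submatrix_apply, RDQM.umu, RDQM.umu]
      have h2 : ∀ k, ((U.submatrix e.symm id).map (C : ℂ → PR N)) (e k) = (U.map C) k := by
        intro k
        funext l
        rw [Matrix.map_apply, Matrix.submatrix_apply, Matrix.map_apply, e.symm_apply_apply]
        rfl
      rw [h2, h2]
    rw [h1, Matrix.det_submatrix_equiv_self, Matrix.det_mul, Matrix.det_mul, Matrix.det_transpose]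
    have h3 : ((U.submatrix e.symm id).map (C : ℂ → PR N)).det =
        C (U.submatrix e.symm id).det := by
      rw [RingHom.map_det]
      rfl
    rw [h3, map_pow]
    ring
  refine ⟨C ((U.submatrix e.symm id).det ^ 2) * δ, σ, ?_, ?_, ?_, ?_⟩
  · rw [← hsch, hdetB]
    ring
  · intro h
    have h1 := hxq _ h
    rw [map_mul, eval_C] at h1
    exact (mul_ne_zero (pow_ne_zero 2 hUdet) hδx) h1
  · have h1 : σ ^ 2 ∈ q := by
      rw [← hsch, hdetB, mul_comm (C _) 𝔸.det, mul_assoc]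
      exact q.mul_mem_right _ hdet
    exact hq.mem_of_pow_mem _ h1
  · by_contra hcon
    push Not at hcon
    -- `Δ v = ∑ v_(J j) V^j` at `x`
    have hvJ : ∀ l, eval x c.Δ * v l = ∑ j, v (c.J j) * eval x (c.V j l) := by
      intro l
      have h1 := hV3 (fun l => C (v l)) (RingHom.ker (eval x)) (fun a => by
        rw [RingHom.mem_ker]
        unfold vf
        rw [map_sum]
        have h2 := hdv0 _ (c.mem a)
        rw [RDQM.dv_apply] at h2
        rw [← h2]
        refine Finset.sum_congr rfl fun l _ => ?_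
        rw [map_mul, eval_C]) l
      rw [RingHom.mem_ker, map_sub, map_mul, eval_C, map_sum, sub_eq_zero] at h1
      rw [h1]
      refine Finset.sum_congr rfl fun j _ => ?_
      rw [map_mul, eval_C]
    have h0 : RDQM.dv x v σ = 0 := by
      have h1 : eval x c.Δ * RDQM.dv x v σ = 0 := by
        rw [RDQM.dv_apply, Finset.mul_sum]
        have h2 : ∀ l, eval x c.Δ * (v l * eval x (pderiv l σ)) =
            ∑ j, v (c.J j) * (eval x (c.V j l) * eval x (pderiv l σ)) := by
          intro l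
          rw [← mul_assoc, hvJ, Finset.sum_mul]
          refine Finset.sum_congr rfl fun j _ => ?_
          ring
        rw [Finset.sum_congr rfl fun l _ => h2 l, Finset.sum_comm]
        refine Finset.sum_eq_zero fun j _ => ?_
        rw [← Finset.mul_sum]
        have h3 := hxq _ (hcon j)
        unfold vf at h3
        rw [map_sum] at h3
        rw [Finset.sum_congr rfl fun l _ => (map_mul (eval x) (c.V j l) (pderiv l σ)).symm, h3,
          mul_zero]
      exact (mul_eq_zero.mp h1).resolve_left hΔx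
    have hA0 : A.mulVec (U (Sum.inr 0)) = 0 := by rw [hU0]; exact hAξ
    have hA1 : A.mulVec (U (Sum.inr 1)) = 0 := by rw [hU1]; exact hAζ
    have h5 : RDQM.dv x v ((B.toBlocks₂₁ * B.toBlocks₁₁.adjugate * B.toBlocks₁₂) 0 1) = 0 := by
      rw [Matrix.mul_apply, map_sum]
      refine Finset.sum_eq_zero fun k _ => ?_
      rw [RDQM.dv_mul]
      have h6 : eval x (B.toBlocks₁₂ k 1) = 0 := hB1 (Sum.inl k) (Sum.inr 1) hA1
      have h7 : eval x ((B.toBlocks₂₁ * B.toBlocks₁₁.adjugate) 0 k) = 0 := by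
        rw [Matrix.mul_apply, map_sum]
        refine Finset.sum_eq_zero fun i _ => ?_
        have h8 : eval x (B.toBlocks₂₁ 0 i) = 0 := hB2 (Sum.inr 0) (Sum.inl i) hA0
        rw [map_mul, h8, zero_mul]
      rw [h6, h7, mul_zero, zero_mul, add_zero]
    have h9 : RDQM.dv x v (B (Sum.inr 0) (Sum.inr 1)) = ξ' ⬝ᵥ D.mulVec ζ' := by
      rw [hB, RDQM.umu]
      change RDQM.dv x v (∑ i, C (U (Sum.inr 0) i) * ∑ j, 𝔸 i j * C (U (Sum.inr 1) j)) =
        ∑ i, ξ' i * ∑ j, D i j * ζ' j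
      rw [map_sum]
      refine Finset.sum_congr rfl fun i _ => ?_
      rw [RDQM.dv_C_mul, map_sum, hU0]
      congr 1
      refine Finset.sum_congr rfl fun j _ => ?_
      rw [mul_comm, RDQM.dv_C_mul, hU1, h𝔸e, hDe, mul_comm]
    rw [hσ, map_sub, h5, sub_zero, RDQM.dv_mul, hB1 _ _ hA1, mul_zero, zero_add, h9] at h0
    exact (mul_ne_zero hδx hκD) h0


end Pool.Agent.Lib.MPc9b009.LF
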