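import Pool.Agent.Lib.MP_c9b009_ag.LF.SpecA
import Pool.Agent.Lib.MP_c9b009_ag.LS.REP

/-!
# MP_c9b009_ag, row LF, module REB: the points `PtB` are represented by a finitely generated algebra
-/

set_option autoImplicit false

namespace Pool.Agent.Lib.MPc9b009.LF

open MvPolynomial Pool.Agent.Lib.MPc9b009.B5 Pool.Agent.Lib.MPc9b009.OD
  Pool.Agent.Lib.MPc9b009.PS Pool.Agent.Lib.MPc9b009.LS

namespace REBM

open Pool.Agent.Lib.MPc9b009.LS.REPM (S mem_S mem_S_of_degree pol coeff_pol mem_YI pol_sub_mem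
  E1 E2 Lin mp coeff_mp cc_mp mp_C mp_X mp_pol mp_aeval mp_tr mp_E1 mp_E2 aeval_sub_mem E1_congr
  E2_congr Lin_mp)

/-! ### the data without conditions -/

section dat

variable {N k : ℕ} {κ τ : Type} [Fintype κ] [DecidableEq τ]
variable {B B' : Type} [CommRing B] [Algebra ℂ B] [CommRing B'] [Algebra ℂ B']

/-- the bracket of the components -/
noncomputable def Br (π : Fin N → Fin N → PR N) (p₀ : Cn N)
    (γ : Fin N → MvPolynomial (Fin N) B) (i j : Fin N) : MvPolynomial (Fin N) B :=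
  ∑ a, ∑ b, tr B p₀ (π a b) * pderiv a (γ i) * pderiv b (γ j)

/-- the expression of `e3` -/
noncomputable def E3 (f : κ → PR N) (blk : κ → τ) (ι : τ) (π : Fin N → Fin N → PR N) (p₀ : Cn N)
    (γ : Fin N → MvPolynomial (Fin N) B) (m : Fin N → Fin N → κ → MvPolynomial (Fin N) B)
    (i j : Fin N) : MvPolynomial (Fin N) B :=
  Br π p₀ γ i j - aeval γ (π i j) -
    ∑ l, (if blk l = ι then m i j l * tr B p₀ (f l) else 0)

lemma mp_pderiv (φ : B →ₐ[ℂ] B') (a : Fin N) (Q : MvPolynomial (Fin N) B) :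
    mp φ (pderiv a Q) = pderiv a (mp φ Q) := by
  unfold mp
  rw [mapAlgHom_apply, mapAlgHom_apply, pderiv_map]

lemma mp_Br (φ : B →ₐ[ℂ] B') (π : Fin N → Fin N → PR N) (p₀ : Cn N)
    (γ : Fin N → MvPolynomial (Fin N) B) (i j : Fin N) :
    mp φ (Br π p₀ γ i j) = Br π p₀ (fun i => mp φ (γ i)) i j := by
  unfold Br
  rw [map_sum]
  refine Finset.sum_congr rfl fun a _ => ?_
  rw [map_sum]
  refine Finset.sum_congr rfl fun b _ => ?_
  rw [map_mul, map_mul, mp_tr, mp_pderiv, mp_pderiv]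

lemma mp_E3 (φ : B →ₐ[ℂ] B') (f : κ → PR N) (blk : κ → τ) (ι : τ) (π : Fin N → Fin N → PR N)
    (p₀ : Cn N) (γ : Fin N → MvPolynomial (Fin N) B)
    (m : Fin N → Fin N → κ → MvPolynomial (Fin N) B) (i j : Fin N) :
    mp φ (E3 f blk ι π p₀ γ m i j)
      = E3 f blk ι π p₀ (fun i => mp φ (γ i)) (fun i j l => mp φ (m i j l)) i j := by
  unfold E3
  rw [map_sub, map_sub, map_sum, mp_aeval, mp_Br]
  congr 1
  refine Finset.sum_congr rfl fun l _ => ?_
  split_ifs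
  · rw [map_mul, mp_tr]
  · rw [map_zero]

lemma E3_congr (I : Ideal (MvPolynomial (Fin N) B)) (f : κ → PR N) (blk : κ → τ) (ι : τ)
    (π : Fin N → Fin N → PR N) (p₀ : Cn N) {γ γ' : Fin N → MvPolynomial (Fin N) B}
    {m m' : Fin N → Fin N → κ → MvPolynomial (Fin N) B} (h : ∀ i, γ i - γ' i ∈ I)
    (hd : ∀ a i, pderiv a (γ i) - pderiv a (γ' i) ∈ I) (hm : ∀ i j l, m i j l - m' i j l ∈ I)
    (i j : Fin N) : E3 f blk ι π p₀ γ m i j - E3 f blk ι π p₀ γ' m' i j ∈ I := by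
  have h0 : Br π p₀ γ i j - Br π p₀ γ' i j ∈ I := by
    unfold Br
    rw [← Finset.sum_sub_distrib]
    refine Ideal.sum_mem _ fun a _ => ?_
    rw [← Finset.sum_sub_distrib]
    refine Ideal.sum_mem _ fun b _ => ?_
    have h1 : tr B p₀ (π a b) * pderiv a (γ i) * pderiv b (γ j)
        - tr B p₀ (π a b) * pderiv a (γ' i) * pderiv b (γ' j)
        = tr B p₀ (π a b) * pderiv b (γ j) * (pderiv a (γ i) - pderiv a (γ' i))
          + tr B p₀ (π a b) * pderiv a (γ' i) * (pderiv b (γ j) - pderiv b (γ' j)) := by ring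
    rw [h1]
    exact Ideal.add_mem _ (Ideal.mul_mem_left _ _ (hd a i)) (Ideal.mul_mem_left _ _ (hd b j))
  have h1 : E3 f blk ι π p₀ γ m i j - E3 f blk ι π p₀ γ' m' i j =
      (Br π p₀ γ i j - Br π p₀ γ' i j) - (aeval γ (π i j) - aeval γ' (π i j))
      - ∑ l, (if blk l = ι then (m i j l - m' i j l) * tr B p₀ (f l) else 0) := by
    unfold E3
    have h2 : ∑ l, (if blk l = ι then (m i j l - m' i j l) * tr B p₀ (f l) else 0)
        = ∑ l, (if blk l = ι then m i j l * tr B p₀ (f l) else 0)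
          - ∑ l, (if blk l = ι then m' i j l * tr B p₀ (f l) else 0) := by
      rw [← Finset.sum_sub_distrib]
      refine Finset.sum_congr rfl fun l _ => ?_
      split_ifs
      · ring
      · ring
    rw [h2]
    ring
  rw [h1]
  refine Ideal.sub_mem _ (Ideal.sub_mem _ h0 (aeval_sub_mem I h _)) (Ideal.sum_mem _ fun l _ => ?_)
  split_ifs
  · exact Ideal.mul_mem_right _ _ (hm i j l)
  · exact Ideal.zero_mem _

/-- the derivative of the truncation -/
lemma pderiv_pol_sub_mem (a : Fin N) (Q : MvPolynomial (Fin N) B) :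
    pderiv a (pol (fun m : S N k => coeff m.1 Q)) - pderiv a Q ∈ YI N k B := by
  rw [← map_sub, mem_YI]
  intro m hm
  have h1 : (m + Finsupp.single a 1).degree ≤ k + 1 := by
    rw [map_add, Finsupp.degree_single]
    omega
  rw [coeff_pderiv, coeff_sub, coeff_pol _ _ (mem_S_of_degree h1), sub_self, zero_mul]

end dat

/-! ### the generic data -/

section gen

variable {N k : ℕ} {κ τ : Type} [Fintype κ] [DecidableEq τ]

/-- the variables -/
abbrev J (N k : ℕ) (κ : Type) : Type :=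
  (Fin N × S N k) ⊕ ((κ × κ × S N k) ⊕ ((κ × κ × S N k) ⊕
    ((Fin N × Fin N × κ × S N k) ⊕ Unit)))

/-- the generic coordinates -/
noncomputable def Γ (N k : ℕ) (κ : Type) (i : Fin N) :
    MvPolynomial (Fin N) (MvPolynomial (J N k κ) ℂ) :=
  pol (k := k) fun m => X (Sum.inl (i, m))

/-- generic coefficients -/
noncomputable def M₁ (N k : ℕ) (κ : Type) (i j : κ) :
    MvPolynomial (Fin N) (MvPolynomial (J N k κ) ℂ) :=
  pol (k := k) fun m => X (Sum.inr (Sum.inl (i, j, m)))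

/-- generic coefficients -/
noncomputable def M₂ (N k : ℕ) (κ : Type) (i j : κ) :
    MvPolynomial (Fin N) (MvPolynomial (J N k κ) ℂ) :=
  pol (k := k) fun m => X (Sum.inr (Sum.inr (Sum.inl (i, j, m))))

/-- generic coefficients -/
noncomputable def M₃ (N k : ℕ) (κ : Type) (i j : Fin N) (l : κ) :
    MvPolynomial (Fin N) (MvPolynomial (J N k κ) ℂ) :=
  pol (k := k) fun m => X (Sum.inr (Sum.inr (Sum.inr (Sum.inl (i, j, l, m)))))

/-- the equations -/
def G (k : ℕ) (P : Ideal (PR N)) (f : κ → PR N) (blk : κ → τ) (ι : τ)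
    (π : Fin N → Fin N → PR N) (p₀ : Cn N) : Set (MvPolynomial (J N k κ) ℂ) :=
  {r | (∃ (i : κ) (m : Fin N →₀ ℕ), m.degree ≤ k ∧
      r = coeff m (E1 f blk p₀ (Γ N k κ) (M₁ N k κ) i)) ∨
    (∃ (i : κ) (m : Fin N →₀ ℕ), m.degree ≤ k ∧
      r = coeff m (E2 f blk p₀ (Γ N k κ) (M₂ N k κ) i)) ∨
    (∃ (i j : Fin N) (m : Fin N →₀ ℕ), m.degree ≤ k ∧
      r = coeff m (E3 f blk ι π p₀ (Γ N k κ) (M₃ N k κ) i j)) ∨
    (∃ q ∈ P, r = aeval (fun i => constantCoeff (Γ N k κ i)) q) ∨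
    r = (Lin (Γ N k κ)).det * X (Sum.inr (Sum.inr (Sum.inr (Sum.inr ())))) - 1}

variable {B : Type} [CommRing B] [Algebra ℂ B]

/-- solutions of the equations are points -/
noncomputable def ptOf (P : Ideal (PR N)) (f : κ → PR N) (blk : κ → τ) (ι : τ)
    (π : Fin N → Fin N → PR N) (p₀ : Cn N)
    (φ : MvPolynomial (J N k κ) ℂ →ₐ[ℂ] B) (h : ∀ r ∈ G k P f blk ι π p₀, φ r = 0) :
    PtB N k P f blk ι π p₀ B where
  γ i := mp φ (Γ N k κ i)
  m i j := mp φ (M₁ N k κ i j)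
  m' i j := mp φ (M₂ N k κ i j)
  m3 i j l := mp φ (M₃ N k κ i j l)
  e1 i := by
    change E1 f blk p₀ (fun i => mp φ (Γ N k κ i)) (fun i j => mp φ (M₁ N k κ i j)) i ∈ _
    rw [← mp_E1, mem_YI]
    intro m hm
    rw [coeff_mp]
    exact h _ (Or.inl ⟨i, m, hm, rfl⟩)
  e2 i := by
    change E2 f blk p₀ (fun i => mp φ (Γ N k κ i)) (fun i j => mp φ (M₂ N k κ i j)) i ∈ _
    rw [← mp_E2, mem_YI]
    intro m hm
    rw [coeff_mp]
    exact h _ (Or.inr (Or.inl ⟨i, m, hm, rfl⟩))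
  e3 i j := by
    change E3 f blk ι π p₀ (fun i => mp φ (Γ N k κ i)) (fun i j l => mp φ (M₃ N k κ i j l)) i j ∈ _
    rw [← mp_E3, mem_YI]
    intro m hm
    rw [coeff_mp]
    exact h _ (Or.inr (Or.inr (Or.inl ⟨i, j, m, hm, rfl⟩)))
  base q hq := by
    have h1 : (fun i => constantCoeff (mp φ (Γ N k κ i)))
        = fun i => φ (constantCoeff (Γ N k κ i)) := by
      funext i
      exact cc_mp _ _
    rw [h1, ← comp_aeval_apply]
    exact h _ (Or.inr (Or.inr (Or.inr (Or.inl ⟨q, hq, rfl⟩))))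
  inv := by
    have h1 := h _ (Or.inr (Or.inr (Or.inr (Or.inr rfl))))
    rw [map_sub, map_mul, map_one, sub_eq_zero, ← Lin_mp] at h1
    exact IsUnit.of_mul_eq_one _ h1

/-- the homomorphism of a point -/
noncomputable def homOf {P : Ideal (PR N)} {f : κ → PR N} {blk : κ → τ} {ι : τ}
    {π : Fin N → Fin N → PR N} {p₀ : Cn N}
    (b : PtB N k P f blk ι π p₀ B) : MvPolynomial (J N k κ) ℂ →ₐ[ℂ] B :=
  aeval (Sum.elim (fun x => coeff x.2.1 (b.γ x.1))
    (Sum.elim (fun x => coeff x.2.2.1 (b.m x.1 x.2.1))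
      (Sum.elim (fun x => coeff x.2.2.1 (b.m' x.1 x.2.1))
        (Sum.elim (fun x => coeff x.2.2.2.1 (b.m3 x.1 x.2.1 x.2.2.1))
          (fun _ => ((b.inv.unit⁻¹ : Bˣ) : B))))))

variable {P : Ideal (PR N)} {f : κ → PR N} {blk : κ → τ} {ι : τ} {π : Fin N → Fin N → PR N}
  {p₀ : Cn N}

lemma homOf_Γ (b : PtB N k P f blk ι π p₀ B) (i : Fin N) :
    mp (homOf b) (Γ N k κ i) = pol fun m : S N k => coeff m.1 (b.γ i) := by
  unfold Γ
  rw [mp_pol]
  congr 1
  funext m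
  unfold homOf
  rw [aeval_X]
  rfl

lemma homOf_M₁ (b : PtB N k P f blk ι π p₀ B) (i j : κ) :
    mp (homOf b) (M₁ N k κ i j) = pol fun m : S N k => coeff m.1 (b.m i j) := by
  unfold M₁
  rw [mp_pol]
  congr 1
  funext m
  unfold homOf
  rw [aeval_X]
  rfl

lemma homOf_M₂ (b : PtB N k P f blk ι π p₀ B) (i j : κ) :
    mp (homOf b) (M₂ N k κ i j) = pol fun m : S N k => coeff m.1 (b.m' i j) := by
  unfold M₂
  rw [mp_pol]
  congr 1
  funext m
  unfold homOf
  rw [aeval_X]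
  rfl

lemma homOf_M₃ (b : PtB N k P f blk ι π p₀ B) (i j : Fin N) (l : κ) :
    mp (homOf b) (M₃ N k κ i j l) = pol fun m : S N k => coeff m.1 (b.m3 i j l) := by
  unfold M₃
  rw [mp_pol]
  congr 1
  funext m
  unfold homOf
  rw [aeval_X]
  rfl

lemma homOf_cc (b : PtB N k P f blk ι π p₀ B) (i : Fin N) :
    homOf b (constantCoeff (Γ N k κ i)) = constantCoeff (b.γ i) := by
  rw [← cc_mp, homOf_Γ, constantCoeff_eq, coeff_pol _ 0 (mem_S.2 fun _ => by simp)]

lemma homOf_det (b : PtB N k P f blk ι π p₀ B) :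
    homOf b (Lin (Γ N k κ)).det = (Lin b.γ).det := by
  rw [← Lin_mp]
  congr 1
  ext i j
  simp only [Lin, Matrix.of_apply]
  rw [homOf_Γ, coeff_pol _ _ (mem_S_of_degree (by rw [Finsupp.degree_single]; omega))]

lemma homOf_G (b : PtB N k P f blk ι π p₀ B) : ∀ r ∈ G k P f blk ι π p₀, homOf b r = 0 := by
  have hγ : ∀ i, mp (homOf b) (Γ N k κ i) - b.γ i ∈ YI N k B := fun i => by
    rw [homOf_Γ]
    exact pol_sub_mem _
  have hγ' : ∀ a i, pderiv a (mp (homOf b) (Γ N k κ i)) - pderiv a (b.γ i) ∈ YI N k B :=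
    fun a i => by
    rw [homOf_Γ]
    exact pderiv_pol_sub_mem a _
  have hm : ∀ i j, mp (homOf b) (M₁ N k κ i j) - b.m i j ∈ YI N k B := fun i j => by
    rw [homOf_M₁]
    exact pol_sub_mem _
  have hm' : ∀ i j, mp (homOf b) (M₂ N k κ i j) - b.m' i j ∈ YI N k B := fun i j => by
    rw [homOf_M₂]
    exact pol_sub_mem _
  have hm3 : ∀ i j l, mp (homOf b) (M₃ N k κ i j l) - b.m3 i j l ∈ YI N k B := fun i j l => by
    rw [homOf_M₃]
    exact pol_sub_mem _
  rintro r (⟨i, m, hmk, rfl⟩ | ⟨i, m, hmk, rfl⟩ | ⟨i, j, m, hmk, rfl⟩ | ⟨q, hq, rfl⟩ | rfl)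
  · rw [← coeff_mp, mp_E1]
    refine (mem_YI _).1 ?_ m hmk
    have h1 := Ideal.add_mem _ (E1_congr (YI N k B) f blk p₀ hγ hm i) (b.e1 i)
    have h2 : E1 f blk p₀ b.γ b.m i
        = aeval b.γ (f i) - ∑ j, (if blk j = blk i then b.m i j * tr B p₀ (f j) else 0) := rfl
    rw [← h2, sub_add_cancel] at h1
    exact h1
  · rw [← coeff_mp, mp_E2]
    refine (mem_YI _).1 ?_ m hmk
    have h1 := Ideal.add_mem _ (E2_congr (YI N k B) f blk p₀ hγ hm' i) (b.e2 i)
    have h2 : E2 f blk p₀ b.γ b.m' i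
        = tr B p₀ (f i) - ∑ j, (if blk j = blk i then b.m' i j * aeval b.γ (f j) else 0) := rfl
    rw [← h2, sub_add_cancel] at h1
    exact h1
  · rw [← coeff_mp, mp_E3]
    refine (mem_YI _).1 ?_ m hmk
    have h1 := Ideal.add_mem _ (E3_congr (YI N k B) f blk ι π p₀ hγ hγ' hm3 i j) (b.e3 i j)
    have h2 : E3 f blk ι π p₀ b.γ b.m3 i j
        = (∑ a, ∑ c, tr B p₀ (π a c) * pderiv a (b.γ i) * pderiv c (b.γ j))
          - aeval b.γ (π i j) -
          ∑ l, (if blk l = ι then b.m3 i j l * tr B p₀ (f l) else 0) := rfl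
    rw [← h2, sub_add_cancel] at h1
    exact h1
  · rw [comp_aeval_apply]
    have h1 : (fun i => homOf b (constantCoeff (Γ N k κ i))) = fun i => constantCoeff (b.γ i) := by
      funext i
      exact homOf_cc b i
    rw [h1]
    exact b.base q hq
  · rw [map_sub, map_mul, map_one, homOf_det]
    have h1 : homOf b (X (Sum.inr (Sum.inr (Sum.inr (Sum.inr ()))))) =
        ((b.inv.unit⁻¹ : Bˣ) : B) := by
      unfold homOf
      rw [aeval_X]
      rfl
    rw [h1, sub_eq_zero]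
    exact b.inv.mul_val_inv

end gen

end REBM

open REBM LS.REPM in
/-- **REB**. -/
theorem specREB : SpecREB := by
  intro N k κ τ _ _ P f blk ι π p₀
  let I : Ideal (MvPolynomial (REBM.J N k κ) ℂ) := Ideal.span (REBM.G k P f blk ι π p₀)
  refine ⟨MvPolynomial (REBM.J N k κ) ℂ ⧸ I, inferInstance, inferInstance,
    REBM.ptOf P f blk ι π p₀ (Ideal.Quotient.mkₐ ℂ I) ?_, ?_, ?_⟩
  · intro r hr
    exact Ideal.Quotient.eq_zero_iff_mem.2 (Ideal.subset_span hr)
  · infer_instance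
  · intro B _ _ b
    have h : ∀ r ∈ I, REBM.homOf b r = 0 := by
      intro r hr
      have h1 : I ≤ RingHom.ker (REBM.homOf b) := Ideal.span_le.2 fun r hr => REBM.homOf_G b r hr
      exact h1 hr
    refine ⟨Ideal.Quotient.liftₐ I (REBM.homOf b) h, fun i => ?_⟩
    have h2 : constantCoeff ((REBM.ptOf P f blk ι π p₀ (Ideal.Quotient.mkₐ ℂ I) (fun r hr =>
        Ideal.Quotient.eq_zero_iff_mem.2 (Ideal.subset_span hr))).γ i)
        = Ideal.Quotient.mkₐ ℂ I (constantCoeff (REBM.Γ N k κ i)) := LS.REPM.cc_mp _ _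
    rw [h2]
    have h3 : Ideal.Quotient.liftₐ I (REBM.homOf b) h
        (Ideal.Quotient.mkₐ ℂ I (constantCoeff (REBM.Γ N k κ i)))
        = REBM.homOf b (constantCoeff (REBM.Γ N k κ i)) := rfl
    rw [h3]
    exact REBM.homOf_cc b i

end Pool.Agent.Lib.MPc9b009.LF
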