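import Pool.Agent.Lib.MP_c9b009_ag.LF.SpecK
import Pool.Agent.Lib.MP_c9b009_ag.PS.JST
import Pool.Agent.Lib.MP_c9b009_ag.B5.FINI

/-!
# MP_c9b009_ag, row LF, module RHO: the derivative of the Jacobian determinants
-/

set_option autoImplicit false

namespace Pool.Agent.Lib.MPc9b009.LF

open MvPolynomial Pool.Agent.Lib.MPc9b009.B5 Pool.Agent.Lib.MPc9b009.OD
  Pool.Agent.Lib.MPc9b009.PS Pool.Agent.Lib.MPc9b009.LS

namespace RHOM

/-- every derivation is a combination of the dual derivations -/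
theorem dual_formula {N d : ℕ} {L : Type} [Field L] [Algebra ℂ L] (x : Fin N → L)
    (A' : Fin d → Fin N) (dd' : Fin d → Derivation ℂ L L)
    (hD' : ∀ (D : Derivation ℂ L L) (y : L), D y = ∑ i, D (x (A' i)) * dd' i y)
    (A : Fin d → Fin N) (dd : Fin d → Derivation ℂ L L)
    (hdual : ∀ i j, dd i (x (A j)) = if i = j then 1 else 0)
    (D : Derivation ℂ L L) (y : L) : D y = ∑ i, D (x (A i)) * dd i y := by
  let P : Matrix (Fin d) (Fin d) L := Matrix.of fun i k => dd i (x (A' k))
  let Q : Matrix (Fin d) (Fin d) L := Matrix.of fun k j => dd' k (x (A j))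
  have hPQ : P * Q = 1 := by
    ext i j
    rw [Matrix.mul_apply, Matrix.one_apply, ← hdual i j, hD' (dd i) (x (A j))]
    rfl
  have hQP : Q * P = 1 := mul_eq_one_comm.1 hPQ
  have h1 : ∀ (k : Fin d) (z : L), dd' k z = ∑ i, dd' k (x (A i)) * dd i z := by
    intro k z
    have h2 : P.mulVec (fun m => dd' m z) = fun i => dd i z := by
      funext i
      exact (hD' (dd i) z).symm
    have h3 : Q.mulVec (fun i => dd i z) = fun m => dd' m z := by
      rw [← h2, Matrix.mulVec_mulVec, hQP, Matrix.one_mulVec]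
    exact (congrFun h3 k).symm
  have h4 : ∀ i, D (x (A i)) = ∑ k, D (x (A' k)) * dd' k (x (A i)) := fun i => hD' D (x (A i))
  rw [hD' D y]
  simp only [h4, Finset.sum_mul]
  rw [Finset.sum_comm]
  refine Finset.sum_congr rfl fun k _ => ?_
  rw [h1 k y, Finset.mul_sum]
  refine Finset.sum_congr rfl fun i _ => ?_
  ring

/-- the trace part -/
theorem trace_part {R : Type*} [CommRing R] {n : Type*} [Fintype n] [DecidableEq n]
    (M C : Matrix n n R) :
    ∑ j, ∑ i, M.adjugate j i * ∑ k, C i k * M k j = (∑ i, C i i) * M.det := by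
  have h1 : ∑ j, ∑ i, M.adjugate j i * ∑ k, C i k * M k j = (M.adjugate * (C * M)).trace := by
    rw [Matrix.trace]
    refine Finset.sum_congr rfl fun j _ => ?_
    rw [Matrix.diag_apply, Matrix.mul_apply]
    rfl
  rw [h1, Matrix.trace_mul_comm, Matrix.mul_assoc, Matrix.mul_adjugate, Matrix.mul_smul,
    Matrix.mul_one, Matrix.trace_smul, smul_eq_mul, mul_comm]
  rfl

end RHOM

open RHOM in
theorem specRHO (hTGD : SpecTGD) : SpecRHO := by
  intro N d P hP htr L _ _ φ hG W I v D hD B
  obtain ⟨-, -, -, A', dd', -, hD'⟩ := hTGD N d P hP htr L _ _ φ hG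
  have hf := dual_formula (fun l => φ (X l)) A' dd' hD' I.A I.dd I.dual
  have hcom : ∀ i l, D (I.dd i (φ (X l))) = ∑ m, φ (pderiv m (v l)) * I.dd i (φ (X m)) -
      ∑ k, I.dd i (φ (v (I.A k))) * I.dd k (φ (X l)) := by
    intro i l
    have h1 : (⁅D, I.dd i⁆ : Derivation ℂ L L) (φ (X l)) =
        ∑ k, (⁅D, I.dd i⁆ : Derivation ℂ L L) (φ (X (I.A k))) * I.dd k (φ (X l)) := hf _ _
    have h2 : ∀ k, (⁅D, I.dd i⁆ : Derivation ℂ L L) (φ (X (I.A k))) = - I.dd i (φ (v (I.A k))) := by
      intro k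
      rw [Derivation.commutator_apply, I.dual, hD]
      split_ifs <;> simp
    rw [Derivation.commutator_apply, hD, BSTM.der_poly φ (I.dd i) (v l)] at h1
    simp only [h2, neg_mul, Finset.sum_neg_distrib] at h1
    linear_combination h1
  have h3 : D (I.rho B) = ∑ j, ∑ i, (Matrix.of fun i j => I.dd i (φ (X (B j)))).adjugate j i *
      D (I.dd i (φ (X (B j)))) := JSTM.der_det D _
  rw [h3]
  simp only [hcom, mul_sub, Finset.sum_sub_distrib]
  congr 1
  · refine Finset.sum_congr rfl fun j _ => ?_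
    simp only [Finset.mul_sum]
    rw [Finset.sum_comm]
    refine Finset.sum_congr rfl fun l _ => ?_
    have h4 : I.rho (Function.update B j l) =
        ∑ i, (Matrix.of fun i j => I.dd i (φ (X (B j)))).adjugate j i * I.dd i (φ (X l)) := by
      rw [JSTM.adj_col, InvV.rho]
      congr 1
      ext i k
      rw [Matrix.updateCol_apply, Matrix.of_apply, Matrix.of_apply, Function.update_apply]
      split_ifs <;> rfl
    rw [h4, Finset.mul_sum]
    refine Finset.sum_congr rfl fun i _ => ?_
    ring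
  · exact trace_part (Matrix.of fun i j => I.dd i (φ (X (B j))))
      (Matrix.of fun i k => I.dd i (φ (v (I.A k))))

end Pool.Agent.Lib.MPc9b009.LF
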