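import Pool.Agent.Lib.MP_c9b009_ag.LF.SpecT

/-!
# MP_c9b009_ag, LF/SQR: the determinant of a skew matrix is a square
-/

set_option autoImplicit false

namespace Pool.Agent.Lib.MPc9b009.LF

open MvPolynomial Pool.Agent.Lib.MPc9b009.B5 Pool.Agent.Lib.MPc9b009.OD
  Pool.Agent.Lib.MPc9b009.PS Pool.Agent.Lib.MPc9b009.LS

namespace SQRM

open Matrix

/-- over a field with `2 ≠ 0` -/
theorem field_sq {K : Type} [Field K] (h2 : (2 : K) ≠ 0) : ∀ (n : ℕ)
    (A : Matrix (Fin n) (Fin n) K), Aᵀ = -A → ∃ y : K, y ^ 2 = A.det := by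
  intro n
  induction n using Nat.strong_induction_on with
  | _ n ih =>
    intro A hA
    have hsk : ∀ i j, A j i = -A i j := fun i j => by
      have := congrFun (congrFun hA i) j
      simpa using this
    have hdg : ∀ i, A i i = 0 := fun i => by
      have h := hsk i i
      have h' : 2 * A i i = 0 := by linear_combination h
      exact (mul_eq_zero.1 h').resolve_left h2
    match n, A, hA, hsk, hdg, ih with
    | 0, A, _, _, _, _ => exact ⟨1, by simp⟩
    | 1, A, _, _, hdg, _ => exact ⟨0, by simp [Matrix.det_unique, hdg]⟩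
    | k + 2, A, hA, hsk, hdg, ih =>
      by_cases h0 : A = 0
      · refine ⟨0, ?_⟩
        rw [h0]
        have hz : (0 : Matrix (Fin (k + 2)) (Fin (k + 2)) K).det = 0 :=
          Matrix.det_eq_zero_of_row_eq_zero 0 fun _ => rfl
        rw [hz]
        ring
      have hex : ∃ i j, A i j ≠ 0 := by
        by_contra hc
        push Not at hc
        exact h0 (Matrix.ext fun i j => by simpa using hc i j)
      obtain ⟨i, j, hij⟩ := hex
      have hne : i ≠ j := fun h => hij (by rw [h]; exact hdg j)
      -- the permutation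
      let z : Fin (k + 2) := 0
      let o : Fin (k + 2) := 1
      have hzo : z ≠ o := by
        intro h
        have := congrArg Fin.val h
        simp [z, o] at this
      let q := Equiv.swap z i o
      have hqi : q ≠ i := by
        intro h
        have h1 : Equiv.swap z i o = Equiv.swap z i z := by
          rw [Equiv.swap_apply_left]; exact h
        exact hzo ((Equiv.injective _ h1).symm)
      let σ : Equiv.Perm (Fin (k + 2)) := (Equiv.swap z i).trans (Equiv.swap q j)
      have hσ0 : σ z = i := by
        change Equiv.swap q j (Equiv.swap z i z) = i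
        rw [Equiv.swap_apply_left]
        exact Equiv.swap_apply_of_ne_of_ne hqi.symm hne
      have hσ1 : σ o = j := by
        change Equiv.swap q j (Equiv.swap z i o) = j
        exact Equiv.swap_apply_left q j
      let e0 : Fin 2 ⊕ Fin k ≃ Fin (k + 2) :=
        finSumFinEquiv.trans (finCongr (Nat.add_comm 2 k))
      have he0 : e0 (Sum.inl 0) = z := by
        apply Fin.ext
        simp [e0, z]
      have he1 : e0 (Sum.inl 1) = o := by
        apply Fin.ext
        simp [e0, o]
      let e : Fin 2 ⊕ Fin k ≃ Fin (k + 2) := e0.trans σ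
      have hei : e (Sum.inl 0) = i := by
        change σ (e0 (Sum.inl 0)) = i
        rw [he0, hσ0]
      have hej : e (Sum.inl 1) = j := by
        change σ (e0 (Sum.inl 1)) = j
        rw [he1, hσ1]
      let B : Matrix (Fin 2 ⊕ Fin k) (Fin 2 ⊕ Fin k) K := A.submatrix e e
      have hdet : B.det = A.det := Matrix.det_submatrix_equiv_self e A
      have hB : ∀ a b, B b a = -B a b := fun a b => hsk _ _
      set P := B.toBlocks₁₁ with hP
      set Q := B.toBlocks₁₂ with hQ
      set R := B.toBlocks₂₁ with hR
      set T := B.toBlocks₂₂ with hT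
      have hfb : Matrix.fromBlocks P Q R T = B := Matrix.fromBlocks_toBlocks B
      have hPt : Pᵀ = -P := by
        ext a b
        simpa [hP, Matrix.toBlocks₁₁] using hB (Sum.inl a) (Sum.inl b)
      have hQt : Qᵀ = -R := by
        ext a b
        simpa [hQ, hR, Matrix.toBlocks₁₂, Matrix.toBlocks₂₁] using hB (Sum.inr a) (Sum.inl b)
      have hRt : Rᵀ = -Q := by
        ext a b
        simpa [hQ, hR, Matrix.toBlocks₁₂, Matrix.toBlocks₂₁] using hB (Sum.inl a) (Sum.inr b)
      have hTt : Tᵀ = -T := by
        ext a b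
        simpa [hT, Matrix.toBlocks₂₂] using hB (Sum.inr a) (Sum.inr b)
      have hPd : P.det = (A i j) ^ 2 := by
        rw [Matrix.det_fin_two]
        have h00 : P 0 0 = 0 := by
          change A (e (Sum.inl 0)) (e (Sum.inl 0)) = 0
          exact hdg _
        have h01 : P 0 1 = A i j := by
          change A (e (Sum.inl 0)) (e (Sum.inl 1)) = A i j
          rw [hei, hej]
        have h10 : P 1 0 = -A i j := by
          change A (e (Sum.inl 1)) (e (Sum.inl 0)) = -A i j
          rw [hei, hej, hsk i j]
        rw [h00, h01, h10]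
        ring
      have hPu : IsUnit P.det := by
        rw [hPd]
        exact (pow_ne_zero 2 hij).isUnit
      let _ : Invertible P := Matrix.invertibleOfIsUnitDet P hPu
      have hS : (T - R * ⅟P * Q)ᵀ = -(T - R * ⅟P * Q) := by
        have hinv : (⅟P)ᵀ = -⅟P := by
          have h1 : (⅟P)ᵀ * Pᵀ = 1 := by
            rw [← Matrix.transpose_mul, mul_invOf_self, Matrix.transpose_one]
          rw [hPt] at h1
          have h2 : -(⅟P)ᵀ * P = 1 := by
            rw [Matrix.neg_mul, ← Matrix.mul_neg, h1]
          have h3 : ⅟P = -(⅟P)ᵀ := invOf_eq_left_inv h2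
          calc (⅟P)ᵀ = -(-(⅟P)ᵀ) := (neg_neg _).symm
            _ = -⅟P := congrArg (fun M => -M) h3.symm
        rw [Matrix.transpose_sub, Matrix.transpose_mul, Matrix.transpose_mul, hTt, hQt, hinv, hRt]
        simp only [Matrix.neg_mul, Matrix.mul_neg, neg_neg, Matrix.mul_assoc]
        abel
      obtain ⟨y, hy⟩ := ih k (by omega) (T - R * ⅟P * Q) hS
      refine ⟨A i j * y, ?_⟩
      rw [← hdet, ← hfb, Matrix.det_fromBlocks₁₁, hPd, ← hy]
      ring

end SQRM

theorem specSQR : SpecSQR := by
  intro n R _ _ _ hic A hA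
  let K := FractionRing R
  have h2 : (2 : K) ≠ 0 := by
    have h : algebraMap R K 2 ≠ algebraMap R K 0 := fun h =>
      two_ne_zero (IsFractionRing.injective R K h)
    simpa only [map_ofNat, map_zero, ne_eq] using h
  have hA' : ((algebraMap R K).mapMatrix A).transpose = -(algebraMap R K).mapMatrix A := by
    rw [← map_neg, ← hA]
    rfl
  obtain ⟨y, hy⟩ := SQRM.field_sq h2 n ((algebraMap R K).mapMatrix A) hA'
  rw [← RingHom.map_det] at hy
  obtain ⟨f, hf⟩ := IsIntegrallyClosed.exists_algebraMap_eq_of_isIntegral_pow (R := R) (K := K)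
    (x := y) (n := 2) (by norm_num) (by rw [hy]; exact isIntegral_algebraMap)
  refine ⟨f, IsFractionRing.injective R K ?_⟩
  rw [map_pow, hf, hy]

end Pool.Agent.Lib.MPc9b009.LF
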