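import Pool.Agent.Lib.MP_c9b009_ag.LF.SpecK

/-!
# MP_c9b009_ag, row LF, module STI: the poles and the zeros of the volume form are stable
-/

set_option autoImplicit false

namespace Pool.Agent.Lib.MPc9b009.LF

open MvPolynomial Pool.Agent.Lib.MPc9b009.B5 Pool.Agent.Lib.MPc9b009.OD
  Pool.Agent.Lib.MPc9b009.PS Pool.Agent.Lib.MPc9b009.LS

namespace STIM

/-- Derivations extend to the fraction field, abstract form. -/
theorem ext_abs {A L : Type} [CommRing A] [IsDomain A] [Algebra ℂ A] [Field L] [Algebra ℂ L]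
    (ψ : A →ₐ[ℂ] L) (hψi : Function.Injective ψ)
    (hfrac : ∀ y : L, ∃ a b : A, ψ b ≠ 0 ∧ y * ψ b = ψ a) (d1 : Derivation ℂ A A) :
    ∃ D : Derivation ℂ L L, ∀ f, D (ψ f) = ψ (d1 f) := by
  let iAL : Algebra A L := ψ.toRingHom.toAlgebra
  have hAL : ∀ a : A, algebraMap A L a = ψ a := fun _ => rfl
  have iT1 : IsScalarTower ℂ A L := by
    apply IsScalarTower.of_algebraMap_eq
    intro a
    rw [hAL]
    exact (ψ.commutes a).symm
  have iFA : FaithfulSMul A L := (faithfulSMul_iff_algebraMap_injective _ _).2 hψi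
  have iFr : IsFractionRing A L := by
    refine IsFractionRing.of_field A L ?_
    intro y
    obtain ⟨a, b, hb, hy⟩ := hfrac y
    refine ⟨a, b, ?_⟩
    rw [hAL, hAL, eq_div_iff hb, hy]
  obtain ⟨D, hD⟩ := BSTM.ext_frac (K := L) d1
  exact ⟨D, hD⟩

/-- A vector field which preserves `P` induces a derivation of the function field. -/
theorem ext_gen {N : ℕ} (P : Ideal (PR N)) (hP : P.IsPrime) {L : Type} [Field L] [Algebra ℂ L]
    (φ : PR N →ₐ[ℂ] L) (hG : Gen P L φ) (v : Fin N → PR N) (hv : ∀ q ∈ P, vf v q ∈ P) :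
    ∃ D : Derivation ℂ L L, ∀ q, D (φ q) = φ (vf v q) := by
  have hdom : IsDomain (PR N ⧸ P) := Ideal.Quotient.isDomain P
  let d0 : Derivation ℂ (PR N) (PR N) := mkDerivation ℂ v
  have h0 : ∀ g, d0 g = vf v g := by
    intro g
    have h := BSTM.der_poly (AlgHom.id ℂ (PR N)) d0 g
    simp only [AlgHom.id_apply] at h
    rw [h]
    refine Finset.sum_congr rfl fun k _ => ?_
    rw [mkDerivation_X, mul_comm]
  let d1 : Derivation ℂ (PR N ⧸ P) (PR N ⧸ P) :=
    Derivation.liftOfSurjective (f := Ideal.Quotient.mkₐ ℂ P) (Ideal.Quotient.mkₐ_surjective ℂ P)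
      (d := d0) (by
        intro x hx
        rw [Ideal.Quotient.mkₐ_eq_mk, Ideal.Quotient.eq_zero_iff_mem] at hx ⊢
        rw [h0]
        exact hv x hx)
  obtain ⟨D, hD⟩ := ext_abs (Ideal.Quotient.liftₐ P φ (fun a ha => (hG.ker a).2 ha)) (by
    rw [injective_iff_map_eq_zero]
    intro a ha
    obtain ⟨q, rfl⟩ := Ideal.Quotient.mk_surjective a
    exact Ideal.Quotient.eq_zero_iff_mem.2 ((hG.ker q).1 ha)) (by
    intro y
    obtain ⟨a, b, hb, hy⟩ := hG.frac y
    exact ⟨Ideal.Quotient.mk P a, Ideal.Quotient.mk P b, hb, hy⟩) d1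
  refine ⟨D, fun q => ?_⟩
  have h1 := hD (Ideal.Quotient.mk P q)
  have h2 : d1 (Ideal.Quotient.mk P q) = Ideal.Quotient.mk P (vf v q) := by
    change d1 (Ideal.Quotient.mkₐ ℂ P q) = _
    rw [Derivation.liftOfSurjective_apply, h0, Ideal.Quotient.mkₐ_eq_mk]
  rw [h2] at h1
  exact h1

theorem prod_der {L : Type} [Field L] [Algebra ℂ L] (D : Derivation ℂ L L) {ι : Type}
    [DecidableEq ι] (r : ι → L) (s : Finset ι) :
    D (∏ t ∈ s, r t) = ∑ t ∈ s, D (r t) * ∏ x ∈ s \ {t}, r x := by
  induction s using Finset.induction_on with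
  | empty => simp
  | insert a s ha ih =>
    rw [Finset.prod_insert ha, Derivation.leibniz, ih, Finset.sum_insert ha, smul_eq_mul,
      smul_eq_mul, Finset.mul_sum, add_comm]
    have h1 : insert a s \ {a} = s := by
      rw [Finset.sdiff_singleton_eq_erase, Finset.erase_insert ha]
    rw [h1, mul_comm (∏ x ∈ s, r x)]
    congr 1
    refine Finset.sum_congr rfl (fun t ht => ?_)
    have h2 : insert a s \ {t} = insert a (s \ {t}) := by
      rw [Finset.insert_sdiff_of_notMem]
      rw [Finset.mem_singleton]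
      rintro rfl
      exact ha ht
    have h3 : a ∉ s \ {t} := fun h => ha (Finset.mem_sdiff.1 h).1
    rw [h2, Finset.prod_insert h3]
    ring

section

variable {N d : ℕ} {W : Set (Fin N → PR N)} {L : Type} [Field L] [Algebra ℂ L]
  {φ : PR N →ₐ[ℂ] L} (I : InvV d W φ)

/-- the products -/
noncomputable def la (B : Fin I.M → Fin d → Fin N) : L := I.lam * ∏ t, I.rho (B t)

theorem la_const (B : Fin d → Fin N) : la I (fun _ => B) = I.lamB B := by
  rw [la, InvV.lamB, Finset.prod_const, Finset.card_univ, Fintype.card_fin]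

/-- the span of the products over `φ(S)` -/
noncomputable def LS' : AddSubgroup L where
  carrier := {y | ∃ s : (Fin I.M → Fin d → Fin N) → PR N, y = ∑ B, φ (s B) * la I B}
  add_mem' := by
    rintro a b ⟨s, rfl⟩ ⟨t, rfl⟩
    refine ⟨s + t, ?_⟩
    rw [← Finset.sum_add_distrib]
    refine Finset.sum_congr rfl (fun B _ => ?_)
    rw [Pi.add_apply, map_add, add_mul]
  zero_mem' := by
    refine ⟨0, ?_⟩
    simp
  neg_mem' := by
    rintro a ⟨s, rfl⟩
    refine ⟨-s, ?_⟩
    rw [← Finset.sum_neg_distrib]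
    refine Finset.sum_congr rfl (fun B _ => ?_)
    rw [Pi.neg_apply, map_neg, neg_mul]

theorem mem_LS {y : L} : y ∈ LS' I ↔
    ∃ s : (Fin I.M → Fin d → Fin N) → PR N, y = ∑ B, φ (s B) * la I B := Iff.rfl

theorem mul_mem (q : PR N) {y : L} (hy : y ∈ LS' I) : φ q * y ∈ LS' I := by
  obtain ⟨s, rfl⟩ := hy
  refine ⟨fun B => q * s B, ?_⟩
  rw [Finset.mul_sum]
  refine Finset.sum_congr rfl (fun B _ => ?_)
  rw [map_mul, mul_assoc]

theorem la_mem (B : Fin I.M → Fin d → Fin N) : la I B ∈ LS' I := by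
  classical
  refine ⟨Pi.single B 1, ?_⟩
  rw [Finset.sum_eq_single B]
  · rw [Pi.single_eq_same, map_one, one_mul]
  · intro B' _ h
    rw [Pi.single_eq_of_ne h, map_zero, zero_mul]
  · intro h
    exact absurd (Finset.mem_univ _) h

theorem rho_A : I.rho I.A = 1 := by
  rw [InvV.rho]
  have h : (Matrix.of fun i j => I.dd i (φ (X (I.A j)))) = (1 : Matrix (Fin d) (Fin d) L) := by
    ext i j
    rw [Matrix.of_apply, I.dual, Matrix.one_apply]
  rw [h, Matrix.det_one]

theorem la_A : la I (fun _ => I.A) = I.lam := by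
  rw [la_const, InvV.lamB, rho_A, one_pow, mul_one]

/-- the span is stable -/
theorem der_la (hRHO : SpecRHO) (P : Ideal (PR N)) (hP : P.IsPrime)
    (hd : Algebra.trdeg ℂ (PR N ⧸ P) = ((d : ℕ) : Cardinal)) (hG : Gen P L φ)
    (v : Fin N → PR N) (hv : v ∈ W) (D : Derivation ℂ L L) (hD : ∀ q, D (φ q) = φ (vf v q))
    (B : Fin I.M → Fin d → Fin N) : D (la I B) ∈ LS' I := by
  classical
  have hDX : ∀ l, D (φ (X l)) = φ (v l) := by
    intro l
    rw [hD, vf]
    congr 1
    rw [Finset.sum_eq_single l]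
    · rw [pderiv_X_self, mul_one]
    · intro k _ hk
      rw [pderiv_X_of_ne hk.symm, mul_zero]
    · intro h
      exact absurd (Finset.mem_univ _) h
  set tr : L := ∑ i, I.dd i (φ (v (I.A i))) with htr
  have h1 : ∀ t, D (I.rho (B t)) =
      ∑ j, ∑ l, φ (pderiv l (v (B t j))) * I.rho (Function.update (B t) j l) -
        tr * I.rho (B t) := fun t =>
    hRHO N d P hP hd L inferInstance inferInstance φ hG W I v D hDX (B t)
  have h2 : D I.lam = (I.M : L) * tr * I.lam := I.inv v hv D hDX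
  have h3 : ∀ t : Fin I.M, I.rho (B t) * ∏ x ∈ Finset.univ \ {t}, I.rho (B x) =
      ∏ x, I.rho (B x) := by
    intro t
    have := Finset.prod_update_of_mem (Finset.mem_univ t) (fun x => I.rho (B x)) (I.rho (B t))
    rw [← this, Function.update_eq_self]
  have h4 : D (la I B) = ∑ t, ∑ j, ∑ l, φ (pderiv l (v (B t j))) *
      la I (Function.update B t (Function.update (B t) j l)) := by
    have h5 : ∀ (t : Fin I.M) (B' : Fin d → Fin N),
        la I (Function.update B t B') =
          I.lam * (I.rho B' * ∏ x ∈ Finset.univ \ {t}, I.rho (B x)) := by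
      intro t B'
      rw [la, ← Finset.prod_update_of_mem (Finset.mem_univ t) (fun x => I.rho (B x))]
      congr 1
      refine Finset.prod_congr rfl (fun x _ => ?_)
      by_cases hx : x = t
      · subst hx
        rw [Function.update_self, Function.update_self]
      · rw [Function.update_of_ne hx, Function.update_of_ne hx]
    rw [la, Derivation.leibniz, prod_der, smul_eq_mul, smul_eq_mul, h2]
    simp only [h1, h5, sub_mul, Finset.sum_sub_distrib, mul_sub, Finset.sum_mul, Finset.mul_sum]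
    have h6 : ∑ t : Fin I.M, I.lam * (tr * I.rho (B t) * ∏ x ∈ Finset.univ \ {t}, I.rho (B x)) =
        (∏ x, I.rho (B x)) * ((I.M : L) * tr * I.lam) := by
      have h7 : ∀ t : Fin I.M, I.lam * (tr * I.rho (B t) *
          ∏ x ∈ Finset.univ \ {t}, I.rho (B x)) = I.lam * tr * ∏ x, I.rho (B x) := by
        intro t
        rw [← h3 t]
        ring
      rw [Finset.sum_congr rfl (fun t _ => h7 t), Finset.sum_const, Finset.card_univ,
        Fintype.card_fin, nsmul_eq_mul]
      ring
    rw [h6, sub_add_cancel]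
    refine Finset.sum_congr rfl (fun t _ => Finset.sum_congr rfl (fun j _ =>
      Finset.sum_congr rfl (fun l _ => ?_)))
    ring
  rw [h4]
  exact sum_mem (fun t _ => sum_mem (fun j _ => sum_mem (fun l _ => mul_mem I _ (la_mem I _))))

theorem der_mem (hRHO : SpecRHO) (P : Ideal (PR N)) (hP : P.IsPrime)
    (hd : Algebra.trdeg ℂ (PR N ⧸ P) = ((d : ℕ) : Cardinal)) (hG : Gen P L φ)
    (v : Fin N → PR N) (hv : v ∈ W) (D : Derivation ℂ L L) (hD : ∀ q, D (φ q) = φ (vf v q))
    {y : L} (hy : y ∈ LS' I) : D y ∈ LS' I := by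
  obtain ⟨s, rfl⟩ := hy
  rw [map_sum]
  refine sum_mem (fun B _ => ?_)
  rw [Derivation.leibniz, smul_eq_mul, smul_eq_mul, hD, mul_comm (la I B)]
  exact add_mem (mul_mem I _ (der_la I hRHO P hP hd hG v hv D hD B)) (mul_mem I _ (la_mem I B))

/-- the denominators -/
noncomputable def J1 : Ideal (PR N) where
  carrier := {q | ∀ y ∈ LS' I, ∃ a, φ q * y = φ a}
  add_mem' := by
    intro p q hp hq y hy
    obtain ⟨a, ha⟩ := hp y hy
    obtain ⟨b, hb⟩ := hq y hy
    exact ⟨a + b, by rw [map_add, add_mul, ha, hb, map_add]⟩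
  zero_mem' := by
    intro y _
    exact ⟨0, by rw [map_zero, zero_mul]⟩
  smul_mem' := by
    intro c q hq y hy
    obtain ⟨a, ha⟩ := hq y hy
    exact ⟨c * a, by rw [smul_eq_mul, map_mul, mul_assoc, ha, map_mul]⟩

/-- the numerators -/
noncomputable def J2 : Ideal (PR N) where
  carrier := {q | φ q ∈ LS' I}
  add_mem' := by
    intro p q hp hq
    show φ (p + q) ∈ LS' I
    rw [map_add]
    exact add_mem hp hq
  zero_mem' := by
    show φ 0 ∈ LS' I
    rw [map_zero]
    exact zero_mem _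
  smul_mem' := by
    intro c q hq
    show φ (c * q) ∈ LS' I
    rw [map_mul]
    exact mul_mem I c hq

end

theorem vf_add {N : ℕ} (v : Fin N → PR N) (p q : PR N) : vf v (p + q) = vf v p + vf v q := by
  rw [vf, vf, vf, ← Finset.sum_add_distrib]
  exact Finset.sum_congr rfl (fun l _ => by rw [map_add, mul_add])

theorem vf_mul {N : ℕ} (v : Fin N → PR N) (p q : PR N) :
    vf v (p * q) = p * vf v q + q * vf v p := by
  rw [vf, vf, vf, Finset.mul_sum, Finset.mul_sum, ← Finset.sum_add_distrib]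
  refine Finset.sum_congr rfl (fun l _ => ?_)
  rw [Derivation.leibniz, smul_eq_mul, smul_eq_mul]
  ring

end STIM

open STIM

theorem specSTI (hRHO : SpecRHO) : SpecSTI := by
  classical
  intro N d P hP hd L _ _ φ hG W hW I
  have hker : ∀ {p q : PR N}, φ p = φ q → p - q ∈ P := by
    intro p q h
    rw [← hG.ker, map_sub, h, sub_self]
  have hPe : ∀ x ∈ Zer P, ∀ {p q : PR N}, φ p = φ q → eval x p = eval x q := by
    intro x hx p q h
    have h1 := hx _ (hker h)
    rw [map_sub] at h1
    exact sub_eq_zero.1 h1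
  -- stability
  have hs1 : ∀ v ∈ W, ∀ q ∈ J1 I, vf v q ∈ J1 I := by
    intro v hv q hq y hy
    obtain ⟨D, hD⟩ := ext_gen P hP φ hG v (hW v hv)
    obtain ⟨a, ha⟩ := hq y hy
    obtain ⟨b, hb⟩ := hq (D y) (der_mem I hRHO P hP hd hG v hv D hD hy)
    refine ⟨vf v a - b, ?_⟩
    have h1 : D (φ q * y) = φ q * D y + y * φ (vf v q) := by
      rw [Derivation.leibniz, smul_eq_mul, smul_eq_mul, hD]
    rw [ha, hD, hb] at h1
    rw [map_sub, h1]
    ring
  have hs2 : ∀ v ∈ W, ∀ q ∈ J2 I, vf v q ∈ J2 I := by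
    intro v hv q hq
    obtain ⟨D, hD⟩ := ext_gen P hP φ hG v (hW v hv)
    show φ (vf v q) ∈ LS' I
    rw [← hD]
    exact der_mem I hRHO P hP hd hG v hv D hD hq
  refine ⟨J1 I * J2 I ⊔ P, le_sup_right, ?_, ?_, ?_⟩
  · -- not contained in `P`
    intro hle
    have h1 : ∀ B : Fin I.M → Fin d → Fin N, ∃ b a : PR N, φ b ≠ 0 ∧ φ b * la I B = φ a := by
      intro B
      obtain ⟨a, b, hb, hab⟩ := hG.frac (la I B)
      exact ⟨b, a, hb, by rw [mul_comm]; exact hab⟩
    choose b a hb hab using h1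
    have hq1 : (∏ B, b B) ∈ J1 I := by
      rintro _ ⟨s, rfl⟩
      refine ⟨∑ B, s B * (a B * ∏ x ∈ Finset.univ \ {B}, b x), ?_⟩
      rw [Finset.mul_sum, map_sum]
      refine Finset.sum_congr rfl (fun B _ => ?_)
      have h2 : ∏ B, b B = b B * ∏ x ∈ Finset.univ \ {B}, b x := by
        have := Finset.prod_update_of_mem (Finset.mem_univ B) b (b B)
        rw [← this, Function.update_eq_self]
      rw [h2, map_mul, map_mul, map_mul, ← hab]
      ring
    have hq1' : (∏ B, b B) ∉ P := by
      rw [← hG.ker, map_prod, Finset.prod_eq_zero_iff]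
      rintro ⟨B, -, h⟩
      exact hb B h
    obtain ⟨a', b', hb', hab'⟩ := hG.frac I.lam
    have hq2 : a' ∈ J2 I := by
      show φ a' ∈ LS' I
      rw [← hab', mul_comm, ← la_A I]
      exact mul_mem I _ (la_mem I _)
    have hq2' : a' ∉ P := by
      rw [← hG.ker, ← hab']
      exact mul_ne_zero I.ne hb'
    rcases hP.mem_or_mem (hle (Ideal.mem_sup_left (Ideal.mul_mem_mul hq1 hq2))) with h | h
    · exact hq1' h
    · exact hq2' h
  · -- stable
    intro v hv q hq
    obtain ⟨r, hr, p, hp, rfl⟩ := Submodule.mem_sup.1 hq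
    rw [vf_add]
    refine Ideal.add_mem _ ?_ (Ideal.mem_sup_right (hW v hv p hp))
    refine Ideal.mem_sup_left ?_
    refine Submodule.mul_induction_on hr ?_ ?_
    · intro m hm n hn
      rw [vf_mul]
      exact Ideal.add_mem _ (Ideal.mul_mem_mul hm (hs2 v hv n hn))
        (by rw [mul_comm n (vf v m)]; exact Ideal.mul_mem_mul (hs1 v hv m hm) hn)
    · intro a b ha hb
      rw [vf_add]
      exact Ideal.add_mem _ ha hb
  · intro x hx hxj
    -- `b ∈ J1`, `c ∈ J2` which do not vanish at `x`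
    obtain ⟨b, hb, hbx⟩ : ∃ b ∈ J1 I, eval x b ≠ 0 := by
      by_contra hcon
      push Not at hcon
      apply hxj
      intro h hh
      obtain ⟨r, hr, p, hp, rfl⟩ := Submodule.mem_sup.1 hh
      rw [map_add, hx p hp, add_zero]
      refine Submodule.mul_induction_on hr ?_ ?_
      · intro m hm n hn
        rw [map_mul, hcon m hm, zero_mul]
      · intro a b ha hb
        rw [map_add, ha, hb, add_zero]
    obtain ⟨c, hc, hcx⟩ : ∃ c ∈ J2 I, eval x c ≠ 0 := by
      by_contra hcon
      push Not at hcon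
      apply hxj
      intro h hh
      obtain ⟨r, hr, p, hp, rfl⟩ := Submodule.mem_sup.1 hh
      rw [map_add, hx p hp, add_zero]
      refine Submodule.mul_induction_on hr ?_ ?_
      · intro m hm n hn
        rw [map_mul, hcon n hn, mul_zero]
      · intro a b ha hb
        rw [map_add, ha, hb, add_zero]
    have hla : ∀ B, ∃ a, φ b * la I B = φ a := fun B => hb _ (la_mem I B)
    choose a ha using hla
    refine ⟨?_, ?_⟩
    · obtain ⟨s, hs⟩ := (mem_LS I).1 hc
      have h1 : φ (b * c) = φ (∑ B, s B * a B) := by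
        rw [map_mul, hs, Finset.mul_sum, map_sum]
        refine Finset.sum_congr rfl (fun B _ => ?_)
        rw [map_mul, ← ha]
        ring
      have h2 := hPe x hx h1
      rw [map_mul, map_sum] at h2
      obtain ⟨B, hB⟩ : ∃ B, eval x (a B) ≠ 0 := by
        by_contra hcon
        push Not at hcon
        apply mul_ne_zero hbx hcx
        rw [h2]
        refine Finset.sum_eq_zero (fun B _ => ?_)
        rw [map_mul, hcon, mul_zero]
      have h3 : φ (a B ^ I.M) = φ (∏ t, a (fun _ => B t)) := by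
        rw [map_pow, ← ha, map_prod]
        have h4 : ∀ t, φ (a (fun _ => B t)) = φ b * (I.lam * I.rho (B t) ^ I.M) := by
          intro t
          rw [← ha, la_const]
          rfl
        rw [Finset.prod_congr rfl (fun t _ => h4 t), Finset.prod_mul_distrib,
          Finset.prod_mul_distrib, Finset.prod_const, Finset.prod_const, Finset.card_univ,
          Fintype.card_fin, Finset.prod_pow, la]
        ring
      have h4 := hPe x hx h3
      rw [map_pow, map_prod] at h4
      have h5 : ∏ t, eval x (a (fun _ => B t)) ≠ 0 := by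
        rw [← h4]
        exact pow_ne_zero _ hB
      have h6 := Finset.prod_ne_zero_iff.1 h5 ⟨0, I.pos⟩ (Finset.mem_univ _)
      refine ⟨B ⟨0, I.pos⟩, a (fun _ => B ⟨0, I.pos⟩), b, ?_, h6, hbx⟩
      rw [← ha, la_const]
    · intro B
      refine ⟨a (fun _ => B), b, ?_, hbx⟩
      rw [← ha, la_const]

end Pool.Agent.Lib.MPc9b009.LF
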