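import Pool.Agent.Lib.MP_c9b009_ag.LF.SpecK

/-!
# MP_c9b009_ag, row LF, module TGD: the tangent space at the generic point
-/

set_option autoImplicit false

namespace Pool.Agent.Lib.MPc9b009.LF

open MvPolynomial Pool.Agent.Lib.MPc9b009.B5 Pool.Agent.Lib.MPc9b009.OD
  Pool.Agent.Lib.MPc9b009.PS Pool.Agent.Lib.MPc9b009.LS

namespace TGDM

/-- the derivation of the coordinate ring given by a tangent vector -/
lemma exists_quot {N : ℕ} {P : Ideal (PR N)} {L : Type} [Field L] [Algebra ℂ L]
    (φ : PR N →ₐ[ℂ] L) (t : Fin N → L) (ht : t ∈ tsp P φ) [Algebra (PR N ⧸ P) L]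
    (hψ : ∀ q : PR N, algebraMap (PR N ⧸ P) L (Ideal.Quotient.mk P q) = φ q) :
    ∃ d : Derivation ℂ (PR N ⧸ P) L, ∀ l, d (Ideal.Quotient.mk P (X l)) = t l := by
  let f : PR N → L := fun q => ∑ l, t l * φ (pderiv l q)
  have hf0 : ∀ q ∈ P, f q = 0 := ht
  have hadd : ∀ q r, f (q + r) = f q + f r := by
    intro q r
    show ∑ l, t l * φ (pderiv l (q + r)) = ∑ l, t l * φ (pderiv l q) + ∑ l, t l * φ (pderiv l r)
    rw [← Finset.sum_add_distrib]
    refine Finset.sum_congr rfl fun l _ => ?_
    rw [map_add, map_add, mul_add]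
  have hsmul : ∀ (c : ℂ) q, f (c • q) = c • f q := by
    intro c q
    show ∑ l, t l * φ (pderiv l (c • q)) = c • ∑ l, t l * φ (pderiv l q)
    rw [Finset.smul_sum]
    refine Finset.sum_congr rfl fun l _ => ?_
    rw [Derivation.map_smul, map_smul, mul_smul_comm]
  have hmul : ∀ q r, f (q * r) = φ q * f r + φ r * f q := by
    intro q r
    show ∑ l, t l * φ (pderiv l (q * r)) = φ q * ∑ l, t l * φ (pderiv l r) +
      φ r * ∑ l, t l * φ (pderiv l q)
    rw [Finset.mul_sum, Finset.mul_sum, ← Finset.sum_add_distrib]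
    refine Finset.sum_congr rfl fun l _ => ?_
    rw [Derivation.leibniz, smul_eq_mul, smul_eq_mul, map_add, map_mul, map_mul]
    ring
  let g : PR N ⧸ P → L := fun b => f (Quotient.out b)
  have hg : ∀ q : PR N, g (Ideal.Quotient.mk P q) = f q := by
    intro q
    have h1 : Ideal.Quotient.mk P (Quotient.out (Ideal.Quotient.mk P q)) =
        Ideal.Quotient.mk P q := Quotient.out_eq _
    rw [Ideal.Quotient.eq] at h1
    have h2 : f (Quotient.out (Ideal.Quotient.mk P q)) =
        f (Quotient.out (Ideal.Quotient.mk P q) - q) + f q := by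
      rw [← hadd, sub_add_cancel]
    show f (Quotient.out (Ideal.Quotient.mk P q)) = f q
    rw [h2, hf0 _ h1, zero_add]
  let ℓ : (PR N ⧸ P) →ₗ[ℂ] L :=
    { toFun := g
      map_add' := by
        intro a b
        obtain ⟨q, rfl⟩ := Ideal.Quotient.mk_surjective a
        obtain ⟨r, rfl⟩ := Ideal.Quotient.mk_surjective b
        rw [← map_add, hg, hg, hg, hadd]
      map_smul' := by
        intro c a
        obtain ⟨q, rfl⟩ := Ideal.Quotient.mk_surjective a
        have h1 : c • (Ideal.Quotient.mk P q) = Ideal.Quotient.mk P (c • q) := rfl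
        rw [h1, hg, hg, hsmul]
        rfl }
  refine ⟨Derivation.mk' ℓ ?_, ?_⟩
  · intro a b
    obtain ⟨q, rfl⟩ := Ideal.Quotient.mk_surjective a
    obtain ⟨r, rfl⟩ := Ideal.Quotient.mk_surjective b
    show g (Ideal.Quotient.mk P q * Ideal.Quotient.mk P r) =
      Ideal.Quotient.mk P q • g (Ideal.Quotient.mk P r) +
        Ideal.Quotient.mk P r • g (Ideal.Quotient.mk P q)
    rw [← map_mul, hg, hg, hg, hmul, Algebra.smul_def, Algebra.smul_def, hψ, hψ]
  · intro l
    show g (Ideal.Quotient.mk P (X l)) = t l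
    rw [hg]
    show ∑ m, t m * φ (pderiv m (X l)) = t l
    rw [Finset.sum_eq_single l]
    · rw [pderiv_X_self, map_one, mul_one]
    · intro m _ hm
      rw [pderiv_X_of_ne (Ne.symm hm), map_zero, mul_zero]
    · intro h
      exact absurd (Finset.mem_univ _) h

/-- a transcendence basis among the coordinates -/
lemma exists_basis {N n : ℕ} {P : Ideal (PR N)} (hP : P.IsPrime)
    (hn : Algebra.trdeg ℂ (PR N ⧸ P) = ((n : ℕ) : Cardinal)) {L : Type} [Field L] [Algebra ℂ L]
    {φ : PR N →ₐ[ℂ] L} (hφ : Gen P L φ) :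
    ∃ A : Fin n → Fin N, IsTranscendenceBasis ℂ (fun i => φ (X (A i))) := by
  have hker : ∀ a ∈ P, φ a = 0 := fun a ha => (hφ.ker a).2 ha
  let ψ : (PR N ⧸ P) →ₐ[ℂ] L := Ideal.Quotient.liftₐ P φ hker
  have hψ : ∀ q : PR N, ψ (Ideal.Quotient.mk P q) = φ q := fun q => rfl
  have hinj : Function.Injective ψ := by
    rw [injective_iff_map_eq_zero]
    intro a ha
    obtain ⟨q, rfl⟩ := Ideal.Quotient.mk_surjective a
    rw [hψ, hφ.ker] at ha
    exact Ideal.Quotient.eq_zero_iff_mem.2 ha
  have hdom : IsDomain (PR N ⧸ P) := Ideal.Quotient.isDomain P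
  letI iBL : Algebra (PR N ⧸ P) L := ψ.toRingHom.toAlgebra
  have iT : IsScalarTower ℂ (PR N ⧸ P) L := IsScalarTower.of_algebraMap_eq fun a =>
    (ψ.commutes a).symm
  have iF : FaithfulSMul (PR N ⧸ P) L := (faithfulSMul_iff_algebraMap_injective _ _).2 hinj
  have halg0 : Algebra.IsAlgebraic (PR N ⧸ P) L := by
    refine ⟨fun y => ?_⟩
    obtain ⟨a, b, hb, hab⟩ := hφ.frac y
    refine ⟨Polynomial.C (Ideal.Quotient.mk P b) * Polynomial.X -
      Polynomial.C (Ideal.Quotient.mk P a), ?_, ?_⟩
    · intro h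
      have h1 := congrArg (fun p => Polynomial.coeff p 1) h
      simp only [Polynomial.coeff_sub, Polynomial.coeff_C_mul, Polynomial.coeff_X_one, mul_one,
        Polynomial.coeff_C_succ, sub_zero, Polynomial.coeff_zero] at h1
      apply hb
      rw [← hψ, h1, map_zero]
    · rw [map_sub, map_mul, Polynomial.aeval_C, Polynomial.aeval_C, Polynomial.aeval_X]
      show ψ (Ideal.Quotient.mk P b) * y - ψ (Ideal.Quotient.mk P a) = 0
      rw [hψ, hψ, ← hab, mul_comm, sub_self]
  have htr : Algebra.trdeg ℂ L = ((n : ℕ) : Cardinal) := by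
    rw [← hn, ← _root_.trdeg_add_eq ℂ (PR N ⧸ P) (A := L), _root_.trdeg_eq_zero (R := PR N ⧸ P) (A := L), add_zero]
  have halg : Algebra.IsAlgebraic (Algebra.adjoin ℂ (Set.range fun l => φ (X l))) L := by
    have hmem : ∀ q : PR N, φ q ∈ Algebra.adjoin ℂ (Set.range fun l => φ (X l)) := by
      intro q
      rw [Algebra.adjoin_range_eq_range_aeval]
      refine ⟨q, ?_⟩
      have h1 : (aeval fun l => φ (X l) : PR N →ₐ[ℂ] L) = φ := by
        apply MvPolynomial.algHom_ext
        intro i
        rw [aeval_X]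
      exact congrArg (fun e : PR N →ₐ[ℂ] L => e q) h1
    refine ⟨fun y => ?_⟩
    obtain ⟨a, b, hb, hab⟩ := hφ.frac y
    refine ⟨Polynomial.C ⟨φ b, hmem b⟩ * Polynomial.X - Polynomial.C ⟨φ a, hmem a⟩, ?_, ?_⟩
    · intro h
      have h1 := congrArg (fun p => Polynomial.coeff p 1) h
      simp only [Polynomial.coeff_sub, Polynomial.coeff_C_mul, Polynomial.coeff_X_one, mul_one,
        Polynomial.coeff_C_succ, sub_zero, Polynomial.coeff_zero] at h1
      exact hb (congrArg Subtype.val h1)
    · rw [map_sub, map_mul, Polynomial.aeval_C, Polynomial.aeval_C, Polynomial.aeval_X]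
      show φ b * y - φ a = 0
      rw [← hab, mul_comm, sub_self]
  obtain ⟨u, hu, hbas⟩ := exists_isTranscendenceBasis_subset (R := ℂ) (A := L)
    (Set.range fun l => φ (X l))
  have hcard : Cardinal.mk u = ((n : ℕ) : Cardinal) := by
    rw [hbas.cardinalMk_eq_trdeg, htr]
  have hfin : Finite u := by
    rw [← Cardinal.mk_lt_aleph0_iff, hcard]
    exact Cardinal.natCast_lt_aleph0
  have hfin' : Fintype u := Fintype.ofFinite u
  have hc : Fintype.card u = n := by
    have h1 := hcard
    rw [Cardinal.mk_fintype] at h1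
    exact_mod_cast h1
  let e : Fin n ≃ u := (Fintype.equivFinOfCardEq hc).symm
  have hch : ∀ i : Fin n, ∃ l : Fin N, φ (X l) = (e i : L) := fun i => hu (e i).2
  choose A hA using hch
  refine ⟨A, ?_⟩
  have h1 : (fun i => φ (X (A i))) = (Subtype.val : u → L) ∘ e := by
    funext i
    exact hA i
  rw [h1]
  exact hbas.comp_equiv e

end TGDM

open TGDM in
theorem specTGD : SpecTGD := by
  intro N n P hP hn L _ _ φ hφ
  have hker : ∀ a ∈ P, φ a = 0 := fun a ha => (hφ.ker a).2 ha
  obtain ⟨A, hA⟩ := exists_basis hP hn hφ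
  -- the derivations
  have hdd : ∃ dd : Fin n → Derivation ℂ L L,
      (∀ i j, dd i (φ (X (A j))) = if i = j then 1 else 0) ∧
      ∀ (D : Derivation ℂ L L) (y : L), D y = ∑ i, D (φ (X (A i))) * dd i y := by
    let A0 := MvPolynomial (Fin n) ℂ
    let θ : A0 →ₐ[ℂ] L := aeval fun i => φ (X (A i))
    have hθ : Function.Injective θ := hA.1
    let i1 : Algebra A0 L := θ.toRingHom.toAlgebra
    have hFS : FaithfulSMul A0 L := (faithfulSMul_iff_algebraMap_injective A0 L).mpr hθ
    have hRalg : Algebra.IsAlgebraic A0 L := by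
      have h1 : Algebra.IsAlgebraic (Algebra.adjoin ℂ (Set.range fun i => φ (X (A i)))) L :=
        hA.isAlgebraic
      refine ⟨fun x => ?_⟩
      refine IsAlgebraic.of_ringHom_of_comp_eq
        (S := Algebra.adjoin ℂ (Set.range fun i => φ (X (A i))))
        (f := (hA.1.aevalEquiv : A0 ≃ₐ[ℂ] _)) (g := RingHom.id L) (h1.isAlgebraic x)
        hA.1.aevalEquiv.surjective Function.injective_id ?_
      ext q
      · simp
        exact (θ.commutes q).symm
      · simp
        exact (aeval_X (fun i => φ (X (A i))) q).symm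
    let F := FractionRing A0
    let i2 : Algebra F L := FractionRing.liftAlgebra A0 L
    have iT : IsScalarTower A0 F L := FractionRing.isScalarTower_liftAlgebra _ L
    have iC : IsScalarTower ℂ A0 L := IsScalarTower.of_algebraMap_eq fun a => (θ.commutes a).symm
    have hKalg : Algebra.IsAlgebraic F L :=
      (IsFractionRing.comap_isAlgebraic_iff (A := A0) (K := F) (C := L)).mp hRalg
    have hKint : Algebra.IsIntegral F L := inferInstance
    have hfd : FiniteDimensional F (IntermediateField.adjoin F (Set.range fun l => φ (X l))) :=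
      IntermediateField.finiteDimensional_adjoin fun x _ => Algebra.IsIntegral.isIntegral x
    have hC : ∀ c : ℂ, algebraMap ℂ L c ∈
        IntermediateField.adjoin F (Set.range fun l => φ (X l)) := by
      intro c
      rw [IsScalarTower.algebraMap_apply ℂ A0 L, IsScalarTower.algebraMap_apply A0 F L]
      exact IntermediateField.algebraMap_mem _ _
    have hmem : ∀ q : PR N, φ q ∈ IntermediateField.adjoin F (Set.range fun l => φ (X l)) := by
      intro q
      induction q using MvPolynomial.induction_on with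
      | C a =>
        have h1 : φ (C a) = algebraMap ℂ L a := φ.commutes a
        rw [h1]
        exact hC a
      | add p q hp hq => rw [map_add]; exact add_mem hp hq
      | mul_X p m hp =>
        rw [map_mul]
        exact mul_mem hp (IntermediateField.subset_adjoin F _ ⟨m, rfl⟩)
    have htop : IntermediateField.adjoin F (Set.range fun l => φ (X l)) = ⊤ := by
      rw [eq_top_iff]
      intro y _
      obtain ⟨a, b, hb, hab⟩ := hφ.frac y
      have h1 : y = φ a / φ b := by
        rw [← hab, mul_div_assoc, div_self hb, mul_one]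
      rw [h1]
      exact div_mem (hmem a) (hmem b)
    have hFin : FiniteDimensional F L := by
      rw [htop] at hfd
      exact FiniteDimensional.of_surjective
        (IntermediateField.topEquiv (F := F) (E := L)).toLinearMap
        (IntermediateField.topEquiv (F := F) (E := L)).surjective
    obtain ⟨dd, h1, h2⟩ := specDEX (Fin n) inferInstance inferInstance L inferInstance i1 i2 iT
      inferInstance iC hFin
    have hX : ∀ i, algebraMap A0 L (X i) = φ (X (A i)) := fun i => aeval_X _ i
    refine ⟨dd, fun i j => ?_, fun D y => ?_⟩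
    · rw [← hX, h1]
    · rw [h2 D y]
      refine Finset.sum_congr rfl fun i _ => ?_
      rw [hX]
  obtain ⟨dd, hdd1, hdd2⟩ := hdd
  have h2 : ∀ t ∈ tsp P φ, ∃ D : Derivation ℂ L L, ∀ l, D (φ (X l)) = t l := by
    intro t ht
    let ψ : (PR N ⧸ P) →ₐ[ℂ] L := Ideal.Quotient.liftₐ P φ hker
    have hψ : ∀ q : PR N, ψ (Ideal.Quotient.mk P q) = φ q := fun q => rfl
    have hinj : Function.Injective ψ := by
      rw [injective_iff_map_eq_zero]
      intro a ha
      obtain ⟨q, rfl⟩ := Ideal.Quotient.mk_surjective a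
      rw [hψ, hφ.ker] at ha
      exact Ideal.Quotient.eq_zero_iff_mem.2 ha
    have hdom : IsDomain (PR N ⧸ P) := Ideal.Quotient.isDomain P
    let iBL : Algebra (PR N ⧸ P) L := ψ.toRingHom.toAlgebra
    have iT : IsScalarTower ℂ (PR N ⧸ P) L := IsScalarTower.of_algebraMap_eq fun a =>
      (ψ.commutes a).symm
    have iF : FaithfulSMul (PR N ⧸ P) L := (faithfulSMul_iff_algebraMap_injective _ _).2 hinj
    have iFr : IsFractionRing (PR N ⧸ P) L := by
      refine IsFractionRing.of_field _ _ fun z => ?_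
      obtain ⟨a, b, hb, hab⟩ := hφ.frac z
      refine ⟨Ideal.Quotient.mk P a, Ideal.Quotient.mk P b, ?_⟩
      show z = φ a / φ b
      rw [← hab, mul_div_assoc, div_self hb, mul_one]
    have iE : Algebra.FormallyEtale (PR N ⧸ P) L :=
      Algebra.FormallyEtale.of_isLocalization (nonZeroDivisors (PR N ⧸ P))
    obtain ⟨d, hd⟩ := exists_quot φ t ht (fun q => hψ q)
    obtain ⟨D, hD⟩ := DEXM.exists_ext ℂ (PR N ⧸ P) L d
    refine ⟨D, fun l => ?_⟩
    rw [← hd l, ← hD]
    rfl
  have h3 : ∀ D : Derivation ℂ L L, (fun l => D (φ (X l))) ∈ tsp P φ := by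
    intro D q hq
    have h4 := BSTM.der_poly φ D q
    rw [hker q hq, map_zero] at h4
    rw [h4]
    exact Finset.sum_congr rfl fun l _ => mul_comm _ _
  refine ⟨?_, h2, h3, A, dd, hdd1, hdd2⟩
  let ρ : tsp P φ →ₗ[L] (Fin n → L) :=
    { toFun := fun t i => t.1 (A i)
      map_add' := fun _ _ => rfl
      map_smul' := fun _ _ => rfl }
  have hρi : Function.Injective ρ := by
    rw [injective_iff_map_eq_zero]
    rintro ⟨t, ht⟩ h0
    obtain ⟨D, hD⟩ := h2 t ht
    apply Subtype.ext
    funext l
    show t l = 0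
    rw [← hD l, hdd2 D]
    refine Finset.sum_eq_zero fun i _ => ?_
    rw [hD]
    have h5 : t (A i) = 0 := congrFun h0 i
    rw [h5, zero_mul]
  have hρs : Function.Surjective ρ := by
    intro c
    let D : Derivation ℂ L L := ∑ i, c i • dd i
    have hD : ∀ y, D y = ∑ i, c i * dd i y := by
      intro y
      show (∑ i, c i • dd i) y = _
      rw [DEXM.sum_apply']
      rfl
    refine ⟨⟨fun l => D (φ (X l)), h3 D⟩, ?_⟩
    funext j
    show D (φ (X (A j))) = c j
    rw [hD, Finset.sum_eq_single j]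
    · rw [hdd1, if_pos rfl, mul_one]
    · intro i _ hi
      rw [hdd1, if_neg hi, mul_zero]
    · intro h
      exact absurd (Finset.mem_univ _) h
  rw [LinearEquiv.finrank_eq (LinearEquiv.ofBijective ρ ⟨hρi, hρs⟩), Module.finrank_fin_fun]

end Pool.Agent.Lib.MPc9b009.LF
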