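import Pool.Agent.Lib.MP_c9b009_ag.LF.SpecT

/-!
# MP_c9b009_ag, row LF, module TLB: the commutator of two approximate Poisson fields (helper96)
-/

set_option autoImplicit false

namespace Pool.Agent.Lib.MPc9b009.LF

open MvPolynomial Pool.Agent.Lib.MPc9b009.B5 Pool.Agent.Lib.MPc9b009.OD
  Pool.Agent.Lib.MPc9b009.PS Pool.Agent.Lib.MPc9b009.LS

namespace TLBM

variable {n : ℕ} {R : Type} [CommRing R]

/-- a derivation lowers the order at an ideal by at most one -/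
theorem der_pow [Algebra ℂ R] (d : Derivation ℂ R R) (m : Ideal R) (k : ℕ) :
    ∀ x ∈ m ^ (k + 1), d x ∈ m ^ k := by
  induction k with
  | zero =>
    intro x _
    rw [pow_zero, Ideal.one_eq_top]
    trivial
  | succ k ih =>
    intro x hx
    rw [pow_succ] at hx
    refine Submodule.mul_induction_on hx ?_ ?_
    · intro a ha b hb
      rw [Derivation.leibniz, smul_eq_mul, smul_eq_mul]
      refine Ideal.add_mem _ (Ideal.mul_mem_right _ _ ha) ?_
      rw [pow_succ, mul_comm b]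
      exact Ideal.mul_mem_mul (ih a ha) hb
    · intro a b ha hb
      rw [map_add]
      exact Ideal.add_mem _ ha hb

theorem sum2_mem (J : Ideal R) (W : Matrix (Fin n) (Fin n) R) (L : Fin n → Fin n → R)
    (hL : ∀ a b, L a b ∈ J) (i j : Fin n) : ∑ a, ∑ b, W i a * L a b * W b j ∈ J :=
  Ideal.sum_mem _ fun a _ => Ideal.sum_mem _ fun b _ =>
    Ideal.mul_mem_right _ _ (Ideal.mul_mem_left _ _ (hL a b))

theorem two_mem [Algebra ℂ R] (J : Ideal R) {x : R} (h : 2 * x ∈ J) : x ∈ J := by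
  have h1 : algebraMap ℂ R (1 / 2) * (2 * x) = x := by
    have h2 : (2 : R) = algebraMap ℂ R 2 := (map_ofNat (algebraMap ℂ R) 2).symm
    rw [← mul_assoc, h2, ← map_mul]
    norm_num
  rw [← h1]
  exact Ideal.mul_mem_left _ _ h

end TLBM

open TLBM in
theorem specTLB (hTLI : SpecTLI) (hTLR : SpecTLR) : SpecTLB := by
  intro n R _ _ _ _ _ _ dd hcomm A W f hf hA hAW hdet hjac hred
  obtain ⟨hR1, k₂, hk₂⟩ := hTLR n R inferInstance inferInstance inferInstance inferInstance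
    inferInstance dd f hf hred
  obtain ⟨k₀, hk₀⟩ := hR1 (k₂ + 1)
  obtain ⟨m, hm⟩ : ∃ m, m = IsLocalRing.maximalIdeal R := ⟨_, rfl⟩
  rw [← hm] at hk₀ hk₂ ⊢
  refine ⟨max k₀ k₂, fun v w hv hw => ?_⟩
  obtain ⟨k, hk⟩ : ∃ k, k = max k₀ k₂ := ⟨_, rfl⟩
  rw [← hk] at hv hw
  have hle0 : m ^ k ≤ m ^ k₀ := Ideal.pow_le_pow_right (by omega)
  have hle2 : m ^ k ≤ m ^ k₂ := Ideal.pow_le_pow_right (by omega)
  obtain ⟨hw1, -, -⟩ := hTLI n R inferInstance inferInstance inferInstance inferInstance dd hcomm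
    A W f hf hA hAW hdet hjac w w
  obtain ⟨-, hv2, hv3⟩ := hTLI n R inferInstance inferInstance inferInstance inferInstance dd hcomm
    A W f hf hA hAW hdet hjac v w
  obtain ⟨e, he⟩ : ∃ e, e = W.mulVec w := ⟨_, rfl⟩
  rw [← he] at hw1 hv3
  -- the matrix `E'`
  obtain ⟨E, hE⟩ : ∃ E : Fin n → Fin n → R,
      E = fun i j => ∑ a, ∑ b, W i a * Ldf dd A w a b * W b j := ⟨_, rfl⟩
  have hEm : ∀ i j, E i j ∈ m ^ k := by
    intro i j
    rw [hE]
    exact sum2_mem _ W _ hw i j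
  have hw1' : ∀ i j, f * (dd i (e j) - dd j (e i)) - (dd i f * e j - dd j f * e i) = E i j := by
    intro i j
    rw [hE]
    exact hw1 i j
  obtain ⟨u₂, hu₂⟩ : ∃ u₂, u₂ = ∑ a, v a * e a := ⟨_, rfl⟩
  obtain ⟨vf', hvf⟩ : ∃ x, x = ∑ l, v l * dd l f := ⟨_, rfl⟩
  -- `v(f) ∈ (f) + 𝔪^k`
  have hvm : vf' ∈ Ideal.span {f} ⊔ m ^ k := by
    refine two_mem _ ?_
    rw [hvf, hv2]
    refine Ideal.add_mem _ ?_ ?_
    · refine Ideal.mem_sup_left ?_
      have h1 : 2 * f * ∑ a, dd a (v a) = (2 * ∑ a, dd a (v a)) * f := by ring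
      rw [h1]
      exact Ideal.mul_mem_left _ _ (Ideal.mem_span_singleton_self f)
    · refine Ideal.mem_sup_right ?_
      exact Ideal.sum_mem _ fun a _ => Ideal.sum_mem _ fun b _ => Ideal.mul_mem_left _ _ (hv a b)
  -- `u₂ ∂_j f ∈ (f) + 𝔪^k`
  have hsum : ∀ j, ∑ a, v a * E a j = f * ∑ a, v a * (dd a (e j) - dd j (e a)) - vf' * e j +
      dd j f * u₂ := by
    intro j
    rw [hvf, hu₂, Finset.mul_sum, Finset.sum_mul, Finset.mul_sum, ← Finset.sum_sub_distrib,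
      ← Finset.sum_add_distrib]
    refine Finset.sum_congr rfl fun a _ => ?_
    rw [← hw1' a j]
    ring
  have hum : ∀ j, u₂ * dd j f ∈ Ideal.span {f} ⊔ m ^ k₀ := by
    intro j
    have h1 : u₂ * dd j f = ∑ a, v a * E a j - (∑ a, v a * (dd a (e j) - dd j (e a))) * f +
        e j * vf' := by
      rw [hsum j]
      ring
    rw [h1]
    have hs : Ideal.span {f} ⊔ m ^ k ≤ Ideal.span {f} ⊔ m ^ k₀ := sup_le_sup_left hle0 _
    refine Ideal.add_mem _ (Ideal.sub_mem _ ?_ ?_) (Ideal.mul_mem_left _ _ (hs hvm))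
    · exact Ideal.mem_sup_right (hle0 (Ideal.sum_mem _ fun a _ => Ideal.mul_mem_left _ _ (hEm a j)))
    · exact Ideal.mem_sup_left (Ideal.mul_mem_left _ _ (Ideal.mem_span_singleton_self f))
  obtain ⟨y, hy, r, hr, hyr⟩ := Submodule.mem_sup.1 (hk₀ u₂ hum)
  obtain ⟨u, rfl⟩ := Ideal.mem_span_singleton'.1 hy
  refine ⟨u, fun i => ?_⟩
  refine hk₂ _ ?_
  have h3 := hv3 i
  have h4 : ∀ j, f * dd j (∑ a, v a * e a) - (∑ a, v a * e a) * dd j f =
      f ^ 2 * dd j u + (f * dd j r - r * dd j f) := by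
    intro j
    rw [← hu₂, ← hyr, map_add, Derivation.leibniz, smul_eq_mul, smul_eq_mul]
    ring
  have h5 : f ^ 2 * ((∑ l, v l * dd l (w i) - ∑ l, w l * dd l (v i)) - ∑ j, A i j * dd j u) =
      ∑ j, A i j * (f * dd j r - r * dd j f) + ∑ j, A i j * (∑ a, v a * E a j) +
      f * ∑ j, Ldf dd A v i j * e j := by
    have h6 : ∑ j, A i j * (f * dd j (∑ a, v a * e a) - (∑ a, v a * e a) * dd j f) =
        ∑ j, f ^ 2 * (A i j * dd j u) + ∑ j, A i j * (f * dd j r - r * dd j f) := by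
      rw [← Finset.sum_add_distrib]
      refine Finset.sum_congr rfl fun j _ => ?_
      rw [h4 j]
      ring
    rw [mul_sub, h3, hE, h6, Finset.mul_sum Finset.univ (fun j => A i j * dd j u)]
    abel
  rw [h5]
  refine Ideal.add_mem _ (Ideal.add_mem _ ?_ ?_) ?_
  · refine Ideal.sum_mem _ fun j _ => Ideal.mul_mem_left _ _ (Ideal.sub_mem _ ?_ ?_)
    · exact Ideal.mul_mem_left _ _ (der_pow (dd j) m k₂ r hr)
    · exact Ideal.mul_mem_right _ _ (Ideal.pow_le_pow_right (Nat.le_succ k₂) hr)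
  · exact Ideal.sum_mem _ fun j _ => Ideal.mul_mem_left _ _ (Ideal.sum_mem _ fun a _ =>
      Ideal.mul_mem_left _ _ (hle2 (hEm a j)))
  · exact Ideal.mul_mem_left _ _ (Ideal.sum_mem _ fun j _ =>
      Ideal.mul_mem_right _ _ (hle2 (hv i j)))

end Pool.Agent.Lib.MPc9b009.LF
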