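import Pool.Agent.Lib.MP_c9b009_ag.LF.SpecT

/-!
# MP_c9b009_ag, row LF, module TLI: identities for the commutator (helper9)
-/

set_option autoImplicit false

namespace Pool.Agent.Lib.MPc9b009.LF

open MvPolynomial Pool.Agent.Lib.MPc9b009.B5 Pool.Agent.Lib.MPc9b009.OD
  Pool.Agent.Lib.MPc9b009.PS Pool.Agent.Lib.MPc9b009.LS

namespace TLIM

variable {n : ℕ} {R : Type} [CommRing R]

/-- `X a b = f ∂_a η_b - ∂_a f η_b` -/
def XX [Algebra ℂ R] (dd : Fin n → Derivation ℂ R R) (f : R) (e : Fin n → R) (a b : Fin n) : R :=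
  f * dd a (e b) - dd a f * e b

theorem hv (A W : Matrix (Fin n) (Fin n) R) (f : R)
    (hAW : A * W = f • (1 : Matrix (Fin n) (Fin n) R)) (v : Fin n → R) (i : Fin n) :
    f * v i = ∑ b, A i b * W.mulVec v b := by
  have h1 : A.mulVec (W.mulVec v) = f • v := by
    rw [Matrix.mulVec_mulVec, hAW, Matrix.smul_mulVec, Matrix.one_mulVec]
  exact (congrFun h1 i).symm

theorem hdv [Algebra ℂ R] (dd : Fin n → Derivation ℂ R R) (A W : Matrix (Fin n) (Fin n) R) (f : R)
    (hAW : A * W = f • (1 : Matrix (Fin n) (Fin n) R)) (v : Fin n → R) (l i : Fin n) :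
    f ^ 2 * dd l (v i) = ∑ b, (f * dd l (A i b) * W.mulVec v b +
      A i b * XX dd f (W.mulVec v) l b) := by
  have h1 := hv A W f hAW v i
  have h2 := congrArg (dd l) h1
  rw [Derivation.leibniz, map_sum] at h2
  simp only [Derivation.leibniz, smul_eq_mul] at h2
  have h3 : f ^ 2 * dd l (v i) = f * (f * dd l (v i) + v i * dd l f) - (f * v i) * dd l f := by ring
  rw [h3, h2, h1, Finset.mul_sum, Finset.sum_mul, ← Finset.sum_sub_distrib]
  refine Finset.sum_congr rfl fun b _ => ?_
  rw [XX]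
  ring

theorem hL [Algebra ℂ R] (dd : Fin n → Derivation ℂ R R) (A W : Matrix (Fin n) (Fin n) R) (f : R)
    (hA : A.transpose = - A) (hAW : A * W = f • (1 : Matrix (Fin n) (Fin n) R))
    (hjac : ∀ i j k, ∑ l, (A i l * dd l (A j k) + A j l * dd l (A k i) + A k l * dd l (A i j)) = 0)
    (v : Fin n → R) (i j : Fin n) :
    f ^ 2 * Ldf dd A v i j = ∑ a, ∑ b, A i a *
      (XX dd f (W.mulVec v) a b - XX dd f (W.mulVec v) b a) * A b j := by
  have hs : ∀ a b, A a b = - A b a := fun a b => by
    have := congrFun (congrFun hA b) a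
    simpa using this
  set e := W.mulVec v with he
  have h1 : f ^ 2 * Ldf dd A v i j = f * ∑ l, (f * v l) * dd l (A i j) -
      ∑ l, (A l j * (f ^ 2 * dd l (v i)) + A i l * (f ^ 2 * dd l (v j))) := by
    rw [Ldf, mul_sub, Finset.mul_sum, Finset.mul_sum, Finset.mul_sum]
    congr 1
    · exact Finset.sum_congr rfl fun l _ => by ring
    · exact Finset.sum_congr rfl fun l _ => by ring
  have h2 : f ^ 2 * Ldf dd A v i j = ∑ l, ∑ b,
      (f * e b * (A l b * dd l (A i j) - A l j * dd l (A i b) - A i l * dd l (A j b)) -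
        (A l j * A i b + A i l * A j b) * XX dd f e l b) := by
    rw [h1, Finset.mul_sum, ← Finset.sum_sub_distrib]
    refine Finset.sum_congr rfl fun l _ => ?_
    rw [hdv dd A W f hAW v l i, hdv dd A W f hAW v l j, hv A W f hAW v l, ← he,
      Finset.sum_mul, Finset.mul_sum, Finset.mul_sum, Finset.mul_sum, ← Finset.sum_add_distrib,
      ← Finset.sum_sub_distrib]
    refine Finset.sum_congr rfl fun b _ => ?_
    ring
  have h3 : ∑ l, ∑ b, f * e b *
      (A l b * dd l (A i j) - A l j * dd l (A i b) - A i l * dd l (A j b)) = 0 := by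
    rw [Finset.sum_comm]
    refine Finset.sum_eq_zero fun b _ => ?_
    rw [← Finset.mul_sum]
    have h4 := hjac i j b
    have h5 : ∑ l, (A l b * dd l (A i j) - A l j * dd l (A i b) - A i l * dd l (A j b)) =
        - ∑ l, (A i l * dd l (A j b) + A j l * dd l (A b i) + A b l * dd l (A i j)) := by
      rw [← Finset.sum_neg_distrib]
      refine Finset.sum_congr rfl fun l _ => ?_
      rw [hs l b, hs l j, hs i b, map_neg]
      ring
    rw [h5, h4, neg_zero, mul_zero]
  have h6 : ∑ a, ∑ b, A i a * (XX dd f e a b - XX dd f e b a) * A b j =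
      ∑ a, ∑ b, (A i a * A b j - A i b * A a j) * XX dd f e a b := by
    have h7 : ∑ a, ∑ b, A i a * (XX dd f e a b - XX dd f e b a) * A b j =
        ∑ a, ∑ b, A i a * A b j * XX dd f e a b - ∑ a, ∑ b, A i a * A b j * XX dd f e b a := by
      rw [← Finset.sum_sub_distrib]
      refine Finset.sum_congr rfl fun a _ => ?_
      rw [← Finset.sum_sub_distrib]
      exact Finset.sum_congr rfl fun b _ => by ring
    rw [h7, Finset.sum_comm (f := fun a b => A i a * A b j * XX dd f e b a),
      ← Finset.sum_sub_distrib]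
    refine Finset.sum_congr rfl fun a _ => ?_
    rw [← Finset.sum_sub_distrib]
    exact Finset.sum_congr rfl fun b _ => by ring
  rw [h6, h2]
  have h8 : ∀ l b : Fin n,
      (f * e b * (A l b * dd l (A i j) - A l j * dd l (A i b) - A i l * dd l (A j b)) -
        (A l j * A i b + A i l * A j b) * XX dd f e l b) =
      f * e b * (A l b * dd l (A i j) - A l j * dd l (A i b) - A i l * dd l (A j b)) +
        (A i l * A b j - A i b * A l j) * XX dd f e l b := by
    intro l b
    rw [hs j b]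
    ring
  simp only [h8, Finset.sum_add_distrib]
  rw [h3, zero_add]

theorem cancel [IsDomain R] {f : R} (hf : f ≠ 0) {X Y : Matrix (Fin n) (Fin n) R}
    (h : f • X = f • Y) : X = Y := by
  ext i j
  exact mul_left_cancel₀ hf (congrFun (congrFun h i) j)

theorem hadj [IsDomain R] {A W : Matrix (Fin n) (Fin n) R} {f : R} (hf : f ≠ 0)
    (hAW : A * W = f • (1 : Matrix (Fin n) (Fin n) R)) (hdet : f ^ 2 = A.det) :
    A.adjugate = f • W := by
  refine cancel hf ?_
  calc f • A.adjugate = A.adjugate * (f • (1 : Matrix (Fin n) (Fin n) R)) := by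
        rw [Matrix.mul_smul, Matrix.mul_one]
    _ = A.adjugate * A * W := by rw [← hAW, Matrix.mul_assoc]
    _ = f • (f • W) := by
        rw [Matrix.adjugate_mul, ← hdet, Matrix.smul_mul, Matrix.one_mul, smul_smul, pow_two]

theorem hWA [IsDomain R] {A W : Matrix (Fin n) (Fin n) R} {f : R} (hf : f ≠ 0)
    (hAW : A * W = f • (1 : Matrix (Fin n) (Fin n) R)) (hdet : f ^ 2 = A.det) :
    W * A = f • (1 : Matrix (Fin n) (Fin n) R) := by
  refine cancel hf ?_
  rw [← Matrix.smul_mul, ← hadj hf hAW hdet, Matrix.adjugate_mul, ← hdet, smul_smul, pow_two]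

/-- identity (1) -/
theorem one [Algebra ℂ R] [IsDomain R] (dd : Fin n → Derivation ℂ R R) (A W : Matrix (Fin n) (Fin n) R) (f : R)
    (hf : f ≠ 0) (hA : A.transpose = - A) (hAW : A * W = f • (1 : Matrix (Fin n) (Fin n) R))
    (hdet : f ^ 2 = A.det)
    (hjac : ∀ i j k, ∑ l, (A i l * dd l (A j k) + A j l * dd l (A k i) + A k l * dd l (A i j)) = 0)
    (v : Fin n → R) (i j : Fin n) :
    XX dd f (W.mulVec v) i j - XX dd f (W.mulVec v) j i =
      ∑ a, ∑ b, W i a * Ldf dd A v a b * W b j := by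
  set E : Matrix (Fin n) (Fin n) R := Matrix.of fun a b =>
    XX dd f (W.mulVec v) a b - XX dd f (W.mulVec v) b a with hE
  set L : Matrix (Fin n) (Fin n) R := Matrix.of fun a b => Ldf dd A v a b with hLd
  have h3 : ∀ (P Q S : Matrix (Fin n) (Fin n) R) (a b : Fin n),
      (P * Q * S) a b = ∑ c, ∑ d, P a c * Q c d * S d b := by
    intro P Q S a b
    rw [Matrix.mul_apply, Finset.sum_comm]
    refine Finset.sum_congr rfl fun d _ => ?_
    rw [Matrix.mul_apply, Finset.sum_mul]
  have h1 : f ^ 2 • L = A * E * A := by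
    ext a b
    rw [h3, Matrix.smul_apply, smul_eq_mul]
    exact hL dd A W f hA hAW hjac v a b
  have h2 : E = W * L * W := by
    refine cancel (pow_ne_zero 2 hf) ?_
    calc f ^ 2 • E = (W * A) * E * (A * W) := by
          rw [hWA hf hAW hdet, hAW, Matrix.smul_mul, Matrix.one_mul, Matrix.mul_smul,
            Matrix.mul_one, smul_smul, pow_two]
      _ = W * (A * E * A) * W := by simp only [Matrix.mul_assoc]
      _ = f ^ 2 • (W * L * W) := by
          rw [← h1, Matrix.mul_smul, Matrix.smul_mul]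
  have h4 := congrFun (congrFun h2 i) j
  rw [h3] at h4
  exact h4

/-- identity (2) -/
theorem two [Algebra ℂ R] [IsDomain R] (dd : Fin n → Derivation ℂ R R) (A W : Matrix (Fin n) (Fin n) R) (f : R)
    (hf : f ≠ 0) (hAW : A * W = f • (1 : Matrix (Fin n) (Fin n) R)) (hdet : f ^ 2 = A.det)
    (v : Fin n → R) :
    2 * ∑ l, v l * dd l f = 2 * f * ∑ a, dd a (v a) + ∑ a, ∑ b, W b a * Ldf dd A v a b := by
  set D : Derivation ℂ R R := ∑ l, v l • dd l with hD
  have hDa : ∀ y, D y = ∑ l, v l * dd l y := by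
    intro y
    have h0 : (Derivation.coeFnAddMonoidHom D : R → R) = ∑ l, ⇑(v l • dd l) := by
      rw [hD, map_sum]
      rfl
    have h00 := congrFun h0 y
    rw [Finset.sum_apply] at h00
    exact h00
  have h1 : f * (2 * D f) = f * ∑ i, ∑ k, W i k * D (A k i) := by
    have h2 := JSTM.der_det D A
    rw [← hdet, hadj hf hAW hdet, pow_two, Derivation.leibniz, smul_eq_mul] at h2
    rw [show f * (2 * D f) = f * D f + f * D f by ring, h2, Finset.mul_sum]
    refine Finset.sum_congr rfl fun i _ => ?_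
    rw [Finset.mul_sum]
    refine Finset.sum_congr rfl fun k _ => ?_
    rw [Matrix.smul_apply, smul_eq_mul]
    ring
  have h3 := mul_left_cancel₀ hf h1
  rw [← hDa, h3]
  have h4 : ∀ i k, W i k * D (A k i) = W i k * Ldf dd A v k i +
      (∑ l, (A l i * W i k) * dd l (v k) + ∑ l, (W i k * A k l) * dd l (v i)) := by
    intro i k
    rw [Ldf, ← hDa, mul_sub, ← Finset.sum_add_distrib, Finset.mul_sum,
      Finset.sum_congr rfl fun l _ => show W i k * (A l i * dd l (v k) + A k l * dd l (v i)) =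
        A l i * W i k * dd l (v k) + W i k * A k l * dd l (v i) by ring]
    ring
  have hδ : ∀ (P : Matrix (Fin n) (Fin n) R), P = f • (1 : Matrix (Fin n) (Fin n) R) →
      ∀ k, ∑ l, P l k * dd l (v k) = f * dd k (v k) := by
    intro P hP k
    rw [hP, Finset.sum_eq_single k]
    · simp
    · intro l _ hl
      simp [Matrix.one_apply_ne hl]
    · intro h
      exact absurd (Finset.mem_univ k) h
  have hδ' : ∀ (P : Matrix (Fin n) (Fin n) R), P = f • (1 : Matrix (Fin n) (Fin n) R) →
      ∀ k, ∑ l, P k l * dd l (v k) = f * dd k (v k) := by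
    intro P hP k
    rw [hP, Finset.sum_eq_single k]
    · simp
    · intro l _ hl
      simp [Matrix.one_apply_ne hl.symm]
    · intro h
      exact absurd (Finset.mem_univ k) h
  have h5 : ∑ i, ∑ k, ∑ l, (A l i * W i k) * dd l (v k) = f * ∑ a, dd a (v a) := by
    rw [Finset.sum_comm, Finset.mul_sum]
    refine Finset.sum_congr rfl fun k _ => ?_
    rw [Finset.sum_comm, ← hδ (A * W) hAW k]
    refine Finset.sum_congr rfl fun l _ => ?_
    rw [Matrix.mul_apply, Finset.sum_mul]
  have h6 : ∑ i, ∑ k, ∑ l, (W i k * A k l) * dd l (v i) = f * ∑ a, dd a (v a) := by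
    rw [Finset.mul_sum]
    refine Finset.sum_congr rfl fun i _ => ?_
    rw [Finset.sum_comm, ← hδ' (W * A) (hWA hf hAW hdet) i]
    refine Finset.sum_congr rfl fun l _ => ?_
    rw [Matrix.mul_apply, Finset.sum_mul]
  simp only [h4, Finset.sum_add_distrib]
  rw [h5, h6, Finset.sum_comm (f := fun i k => W i k * Ldf dd A v k i)]
  ring

/-- identity (3) -/
theorem three [Algebra ℂ R] [IsDomain R] (dd : Fin n → Derivation ℂ R R) (A W : Matrix (Fin n) (Fin n) R) (f : R)
    (hf : f ≠ 0) (hA : A.transpose = - A) (hAW : A * W = f • (1 : Matrix (Fin n) (Fin n) R))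
    (hdet : f ^ 2 = A.det)
    (hjac : ∀ i j k, ∑ l, (A i l * dd l (A j k) + A j l * dd l (A k i) + A k l * dd l (A i j)) = 0)
    (v w : Fin n → R) (i : Fin n) :
    f ^ 2 * (∑ l, v l * dd l (w i) - ∑ l, w l * dd l (v i)) =
      ∑ j, A i j * (f * dd j (∑ a, v a * W.mulVec w a) - (∑ a, v a * W.mulVec w a) * dd j f) +
      ∑ j, A i j * (∑ a, v a * ∑ c, ∑ b, W a c * Ldf dd A w c b * W b j) +
      f * ∑ j, Ldf dd A v i j * W.mulVec w j := by
  set e := W.mulVec w with he
  have hE : ∀ a j, ∑ c, ∑ b, W a c * Ldf dd A w c b * W b j = XX dd f e a j - XX dd f e j a :=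
    fun a j => (one dd A W f hf hA hAW hdet hjac w a j).symm
  simp only [hE]
  have h1 : f ^ 2 * ∑ l, v l * dd l (w i) = ∑ l, ∑ b, v l * (f * dd l (A i b) * e b +
      A i b * XX dd f e l b) := by
    rw [Finset.mul_sum]
    refine Finset.sum_congr rfl fun l _ => ?_
    rw [show f ^ 2 * (v l * dd l (w i)) = v l * (f ^ 2 * dd l (w i)) by ring,
      hdv dd A W f hAW w l i, Finset.mul_sum]
  have h2 : f ^ 2 * ∑ l, w l * dd l (v i) = ∑ l, ∑ b, f * (A l b * e b) * dd l (v i) := by
    rw [Finset.mul_sum]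
    refine Finset.sum_congr rfl fun l _ => ?_
    rw [show f ^ 2 * (w l * dd l (v i)) = f * (f * w l) * dd l (v i) by ring,
      hv A W f hAW w l, Finset.mul_sum, Finset.sum_mul]
  have h3 : f * ∑ j, Ldf dd A v i j * e j = ∑ l, ∑ j, (f * (v l * dd l (A i j)) * e j -
      f * (A l j * dd l (v i) + A i l * dd l (v j)) * e j) := by
    rw [Finset.sum_comm, Finset.mul_sum]
    refine Finset.sum_congr rfl fun j _ => ?_
    rw [Ldf, ← Finset.sum_sub_distrib, Finset.sum_mul, Finset.mul_sum]
    refine Finset.sum_congr rfl fun l _ => ?_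
    ring
  have h4 : ∑ j, A i j * (∑ a, v a * (XX dd f e a j - XX dd f e j a)) =
      ∑ l, ∑ j, (v l * (A i j * XX dd f e l j) - A i l * (v j * XX dd f e l j)) := by
    have h5 : ∑ j, A i j * (∑ a, v a * (XX dd f e a j - XX dd f e j a)) =
        ∑ j, ∑ a, v a * (A i j * XX dd f e a j) - ∑ j, ∑ a, A i j * (v a * XX dd f e j a) := by
      rw [← Finset.sum_sub_distrib]
      refine Finset.sum_congr rfl fun j _ => ?_
      rw [← Finset.sum_sub_distrib, Finset.mul_sum]
      exact Finset.sum_congr rfl fun a _ => by ring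
    rw [h5, Finset.sum_comm, ← Finset.sum_sub_distrib]
    refine Finset.sum_congr rfl fun l _ => ?_
    rw [← Finset.sum_sub_distrib]
  have h6 : ∑ j, A i j * (f * dd j (∑ a, v a * e a) - (∑ a, v a * e a) * dd j f) =
      ∑ l, ∑ j, A i l * (f * (e j * dd l (v j)) + v j * XX dd f e l j) := by
    refine Finset.sum_congr rfl fun l _ => ?_
    rw [← Finset.mul_sum, map_sum, Finset.mul_sum, Finset.sum_mul, ← Finset.sum_sub_distrib]
    congr 1
    refine Finset.sum_congr rfl fun j _ => ?_
    rw [Derivation.leibniz, smul_eq_mul, smul_eq_mul, XX]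
    ring
  rw [mul_sub, h1, h2, h3, h4, h6, ← Finset.sum_sub_distrib, ← Finset.sum_add_distrib,
    ← Finset.sum_add_distrib]
  refine Finset.sum_congr rfl fun l _ => ?_
  rw [← Finset.sum_sub_distrib, ← Finset.sum_add_distrib, ← Finset.sum_add_distrib]
  refine Finset.sum_congr rfl fun j _ => ?_
  ring

end TLIM

theorem specTLI : SpecTLI := by
  intro n R _ _ _ _ dd _ A W f hf hA hAW hdet hjac v w
  refine ⟨fun i j => ?_, TLIM.two dd A W f hf hAW hdet v,
    TLIM.three dd A W f hf hA hAW hdet hjac v w⟩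
  rw [← TLIM.one dd A W f hf hA hAW hdet hjac v i j, TLIM.XX, TLIM.XX]
  ring

end Pool.Agent.Lib.MPc9b009.LF
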