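import Pool.Agent.Lib.MP_c9b009_ag.LF.SpecT

/-!
# MP_c9b009_ag, row LF, module TLM: the trace lemma
-/

set_option autoImplicit false

namespace Pool.Agent.Lib.MPc9b009.LF

open MvPolynomial Pool.Agent.Lib.MPc9b009.B5 Pool.Agent.Lib.MPc9b009.OD
  Pool.Agent.Lib.MPc9b009.PS Pool.Agent.Lib.MPc9b009.LS

namespace TLMM

theorem mem_tgx {N : ℕ} {I : Ideal (PR N)} {p t : Cn N} :
    t ∈ tgx I p ↔ ∀ q ∈ I, ∑ l, t l * eval p (pderiv l q) = 0 := by
  have h : t ∈ tgx I p ↔ ∀ q ∈ I, ∑ l, t l * aeval p (pderiv l q) = 0 := Iff.rfl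
  simpa only [aeval_eq_eval, RingHom.coe_coe] using h

/-- elements of the tangent space with the same coordinates are equal -/
theorem tgx_ext {N n : ℕ} {I : Ideal (PR N)} {p : Cn N} (c : Crd I n) (hc : eval p c.Δ ≠ 0)
    {t t' : Cn N} (ht : t ∈ tgx I p) (ht' : t' ∈ tgx I p) (h : ∀ i, t (c.J i) = t' (c.J i)) :
    t = t' := by
  have hs : t - t' ∈ tgx I p := Submodule.sub_mem _ ht ht'
  have hs0 : ∀ i, (t - t') (c.J i) = 0 := fun i => by
    rw [Pi.sub_apply, h i, sub_self]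
  suffices hz : t - t' = 0 from sub_eq_zero.1 hz
  generalize t - t' = s at hs hs0 ⊢
  have hK : (fun b => s (c.K b)) = 0 := by
    have hdet : (Matrix.of fun a b => eval p (pderiv (c.K b) (c.F a))).det ≠ 0 := by
      have e : (Matrix.of fun a b => eval p (pderiv (c.K b) (c.F a))).det = eval p c.Δ := by
        rw [Crd.Δ, RingHom.map_det]
        rfl
      rw [e]
      exact hc
    refine Matrix.eq_zero_of_mulVec_eq_zero hdet ?_
    funext a
    have h1 := (mem_tgx.1 hs) (c.F a) (c.mem a)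
    rw [← (Equiv.ofBijective _ c.bij).sum_comp, Fintype.sum_sum_type] at h1
    simp only [Equiv.ofBijective_apply, Sum.elim_inl, Sum.elim_inr, hs0, zero_mul,
      Finset.sum_const_zero, zero_add] at h1
    simp only [Matrix.mulVec, dotProduct, Matrix.of_apply, Pi.zero_apply]
    rw [← h1]
    exact Finset.sum_congr rfl fun b _ => mul_comm _ _
  funext l
  obtain ⟨x, rfl⟩ := c.bij.2 l
  cases x with
  | inl i => exact hs0 i
  | inr b => exact congrFun hK b

/-- Hamiltonian vectors are tangent -/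
theorem ham_tgx {N : ℕ} {π : Fin N → Fin N → PR N} {P : Ideal (PR N)} (hS : Stab π P) {x : Cn N}
    (hx : x ∈ Zer P) (ξ : Cn N) : (mat π x).mulVec ξ ∈ tgx P x := by
  rw [mem_tgx]
  intro q hq
  have h : ∀ j, ∑ i, eval x (π i j) * eval x (pderiv i q) = 0 := by
    intro j
    have h := hx _ (hS q hq j)
    simpa only [map_sum, map_mul] using h
  have e : ∑ l, (mat π x).mulVec ξ l * eval x (pderiv l q) =
      ∑ j, ξ j * ∑ i, eval x (π i j) * eval x (pderiv i q) := by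
    simp only [Matrix.mulVec, dotProduct, mat, Matrix.of_apply, Finset.sum_mul, Finset.mul_sum]
    rw [Finset.sum_comm]
    refine Finset.sum_congr rfl fun j _ => Finset.sum_congr rfl fun i _ => ?_
    ring
  rw [e]
  exact Finset.sum_eq_zero fun j _ => by rw [h j, mul_zero]

theorem vf_mul {N : ℕ} (v : Fin N → PR N) (a b : PR N) :
    vf v (a * b) = a * vf v b + b * vf v a := by
  simp only [vf, Derivation.leibniz, smul_eq_mul, Finset.mul_sum, ← Finset.sum_add_distrib]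
  exact Finset.sum_congr rfl fun l _ => by ring

theorem vf_add {N : ℕ} (v : Fin N → PR N) (a b : PR N) :
    vf v (a + b) = vf v a + vf v b := by
  simp only [vf, map_add, mul_add, Finset.sum_add_distrib]

theorem vf_sum {N : ℕ} {ι : Type} (s : Finset ι) (v : Fin N → PR N) (a : ι → PR N) :
    vf v (∑ i ∈ s, a i) = ∑ i ∈ s, vf v (a i) := by
  simp only [vf, map_sum, Finset.mul_sum]
  exact Finset.sum_comm

theorem mem_mx {N : ℕ} {p : Cn N} {q : PR N} : q ∈ mx p ↔ eval p q = 0 := RingHom.mem_ker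

theorem le_mx {N : ℕ} {I : Ideal (PR N)} {p : Cn N} (hp : p ∈ Zer I) {k : ℕ} (hk : 1 ≤ k) :
    I ⊔ mx p ^ k ≤ mx p :=
  sup_le (fun a ha => mem_mx.2 (hp a ha)) (Ideal.pow_le_self (by omega))

/-- a field in `PVk` maps `I ⊔ mx p ^ k` to `mx p`, `2 ≤ k` -/
theorem vf_mx {N : ℕ} {I : Ideal (PR N)} {p : Cn N} (hp : p ∈ Zer I) {k : ℕ} (hk : 2 ≤ k)
    {w : Fin N → PR N} (hw : ∀ q ∈ I, vf w q ∈ I ⊔ mx p ^ k) {q : PR N} (hq : q ∈ I ⊔ mx p ^ k) :
    eval p (vf w q) = 0 := by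
  obtain ⟨a, ha, b, hb, rfl⟩ := Submodule.mem_sup.1 hq
  rw [vf_add, map_add]
  have h1 : eval p (vf w a) = 0 := mem_mx.1 (le_mx hp (by omega) (hw a ha))
  have h2 : eval p (vf w b) = 0 := by
    have hb2 : b ∈ mx p * mx p := by
      rw [← pow_two]
      exact Ideal.pow_le_pow_right hk hb
    refine Submodule.mul_induction_on hb2 (fun x hx y hy => ?_) (fun x y hx hy => ?_)
    · rw [vf_mul, map_add, map_mul, map_mul, mem_mx.1 hx, mem_mx.1 hy, zero_mul, zero_mul,
        add_zero]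
    · rw [vf_add, map_add, hx, hy, add_zero]
  rw [h1, h2, add_zero]

theorem t1_tgx {N : ℕ} {I : Ideal (PR N)} {p : Cn N} (hp : p ∈ Zer I) {k : ℕ} (hk : 2 ≤ k)
    {w ψ : Fin N → PR N} (hw : ∀ q ∈ I, vf w q ∈ I ⊔ mx p ^ k)
    (hψ : ∀ q ∈ I, vf ψ q ∈ I ⊔ mx p ^ k) (hψ0 : ∀ l, eval p (ψ l) = 0) :
    (fun i => eval p (vf w (ψ i))) ∈ tgx I p := by
  rw [mem_tgx]
  intro q hq
  have h1 := vf_mx hp hk hw (hψ q hq)
  have h2 : vf w (vf ψ q) = ∑ i, (ψ i * vf w (pderiv i q) + pderiv i q * vf w (ψ i)) := by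
    have h3 : vf ψ q = ∑ i, ψ i * pderiv i q := rfl
    rw [h3, vf_sum]
    exact Finset.sum_congr rfl fun i _ => vf_mul w _ _
  rw [h2, map_sum] at h1
  rw [← h1]
  refine Finset.sum_congr rfl fun i _ => ?_
  rw [map_add, map_mul, map_mul, hψ0, zero_mul, zero_add, mul_comm]

end TLMM

open TLMM in
/-- **TLM**, the trace lemma. -/
theorem specTLM (hPFW : SpecPFW) (hTLB : SpecTLB) (hLVF : SpecLVF) : SpecTLM := by
  intro N n I π hn hI htr hsk hS hJ hR hrk p hp ⟨c, hc⟩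
  obtain ⟨R, i1, i2, i3, i4, i5, ρ, dd, W, f, hL, hf, hAW, hdet, hred⟩ :=
    hPFW N n I π hn hI htr hsk hS hR hrk p hp c hc
  have : CharZero R := charZero_of_injective_algebraMap (algebraMap ℂ R).injective
  obtain ⟨hV1, hV2⟩ := hLVF N n I hI htr p hp c hc R i1 i3 i5 ρ dd hL
  set A : Matrix (Fin n) (Fin n) R := Matrix.of fun i j => ρ (π (c.J i) (c.J j)) with hA
  have hAa : ∀ i j, A i j = ρ (π (c.J i) (c.J j)) := fun i j => rfl
  have hAsk : ∀ i j, A j i = - A i j := fun i j => by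
    rw [hAa, hAa, hsk (c.J i) (c.J j), map_neg]
  have hAt : A.transpose = - A := by
    ext i j
    rw [Matrix.transpose_apply, Matrix.neg_apply, hAsk i j]
  -- the columns of `π`
  have hcol : ∀ j q, ρ (∑ l, π l (c.J j) * pderiv l q) = ∑ a, A a j * dd a (ρ q) := fun j q =>
    hV2 (fun l => π l (c.J j)) (fun q hq => hS q hq (c.J j)) q
  have hrow : ∀ i q, ρ (∑ l, π (c.J i) l * pderiv l q) = ∑ a, A i a * dd a (ρ q) := by
    intro i q
    have h1 := congrArg (fun z => - z) (hcol i q)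
    have h2 : -ρ (∑ l, π l (c.J i) * pderiv l q) = ρ (∑ l, π (c.J i) l * pderiv l q) := by
      rw [← map_neg, ← Finset.sum_neg_distrib]
      refine congrArg _ (Finset.sum_congr rfl fun l _ => ?_)
      rw [hsk l (c.J i), neg_mul]
    have h3 : -(∑ a, A a i * dd a (ρ q)) = ∑ a, A i a * dd a (ρ q) := by
      rw [← Finset.sum_neg_distrib]
      refine Finset.sum_congr rfl fun a _ => ?_
      rw [hAsk a i, neg_mul]
    rw [← h2, ← h3]
    exact h1
  have hJac : ∀ i j k, ∑ l, (A i l * dd l (A j k) + A j l * dd l (A k i) +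
      A k l * dd l (A i j)) = 0 := by
    intro i j k
    have h1 := (hL.ker _).2 (hJ (c.J i) (c.J j) (c.J k))
    rw [jac, Finset.sum_add_distrib, Finset.sum_add_distrib, map_add, map_add, hrow, hrow,
      hrow] at h1
    rw [Finset.sum_add_distrib, Finset.sum_add_distrib]
    exact h1
  obtain ⟨k₀, hk₀⟩ := hTLB n R i1 i2 i3 i4 inferInstance i5 dd hL.comm A W f hf hAt hAW hdet hJac
    hred
  -- the maximal ideal
  have hm0 : ∀ q, ρ q ∈ IsLocalRing.maximalIdeal R ↔ eval p q = 0 := by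
    intro q
    rw [IsLocalRing.mem_maximalIdeal, mem_nonunits_iff, hL.unit, not_not]
  have hmk : ∀ {k : ℕ}, 1 ≤ k → IsLocalRing.maximalIdeal R ^ k ≤ IsLocalRing.maximalIdeal R :=
    fun hk => Ideal.pow_le_self (by omega)
  -- the defect
  have hdef : ∀ (k : ℕ) (v : Fin N → PR N), v ∈ PVk I π p k → ∀ i j,
      Ldf dd A (fun i => ρ (v (c.J i))) i j ∈ IsLocalRing.maximalIdeal R ^ k := by
    intro k v hv i j
    have h1 := (hL.pow _ k).2 (hv.2 (c.J i) (c.J j))
    have h2 := hV1 k v hv.1 (π (c.J i) (c.J j))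
    have h3 : Ldf dd A (fun i => ρ (v (c.J i))) i j = ρ (dfc π v (c.J i) (c.J j)) -
        (ρ (vf v (π (c.J i) (c.J j))) - ∑ l, ρ (v (c.J l)) * dd l (ρ (π (c.J i) (c.J j)))) := by
      have h4 : ρ (dfc π v (c.J i) (c.J j)) = ρ (vf v (π (c.J i) (c.J j))) -
          (∑ a, A a j * dd a (ρ (v (c.J i))) + ∑ a, A i a * dd a (ρ (v (c.J j)))) := by
        rw [dfc, map_sub, Finset.sum_add_distrib, map_add, ← hcol, ← hrow]
        congr 2
        · refine congrArg _ (Finset.sum_congr rfl fun l _ => mul_comm _ _)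
        · refine congrArg _ (Finset.sum_congr rfl fun l _ => mul_comm _ _)
      rw [h4, Ldf, Finset.sum_add_distrib, ← hAa i j]
      ring
    rw [h3]
    exact Ideal.sub_mem _ h1 h2
  refine ⟨max k₀ 2, fun ψ hψ w hw hψ0 => ?_⟩
  have hle : ∀ {x : R}, x ∈ IsLocalRing.maximalIdeal R ^ (max k₀ 2) →
      x ∈ IsLocalRing.maximalIdeal R ^ k₀ := fun hx => Ideal.pow_le_pow_right (le_max_left _ _) hx
  obtain ⟨u, hu⟩ := hk₀ (fun i => ρ (w (c.J i))) (fun i => ρ (ψ (c.J i)))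
    (fun i j => hle (hdef _ w hw i j)) (fun i j => hle (hdef _ ψ hψ i j))
  -- the values of `dd j u`
  have hξ : ∀ j, ∃ z : ℂ, dd j u - ρ (C z) ∈ IsLocalRing.maximalIdeal R := by
    intro j
    obtain ⟨a, b, hb, hab⟩ := hL.frac (dd j u)
    refine ⟨eval p a / eval p b, ?_⟩
    have h1 : (dd j u - ρ (C (eval p a / eval p b))) * ρ b ∈ IsLocalRing.maximalIdeal R := by
      rw [sub_mul, hab, ← map_mul, ← map_sub, hm0, map_sub, map_mul, eval_C,
        div_mul_cancel₀ _ hb, sub_self]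
    have h2 : IsUnit (ρ b) := (hL.unit b).2 hb
    rcases (IsLocalRing.maximalIdeal.isMaximal R).isPrime.mem_or_mem h1 with h3 | h3
    · exact h3
    · exact absurd ((hm0 b).1 h3) hb
  choose ξ hξ using hξ
  refine ⟨fun l => Sum.elim ξ (fun _ => 0) ((Equiv.ofBijective _ c.bij).symm l), ?_⟩
  set ξ' : Cn N := fun l => Sum.elim ξ (fun _ => 0) ((Equiv.ofBijective _ c.bij).symm l)
  have hmain : (fun i => eval p (vf w (ψ i))) = (mat π p).mulVec ξ' := by
    refine tgx_ext c hc (t1_tgx hp (le_max_right _ _) hw.1 hψ.1 hψ0) (ham_tgx hS hp ξ') ?_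
    intro i
    have h1 : ρ (vf w (ψ (c.J i)) - ∑ j, π (c.J i) (c.J j) * C (ξ j)) ∈
        IsLocalRing.maximalIdeal R := by
      have h2 := hmk (k := max k₀ 2) (by omega) (hV1 (max k₀ 2) w hw.1 (ψ (c.J i)))
      have h3 : ∑ l, ρ (ψ (c.J l)) * dd l (ρ (w (c.J i))) ∈ IsLocalRing.maximalIdeal R :=
        Ideal.sum_mem _ fun l _ => Ideal.mul_mem_right _ _ ((hm0 _).2 (hψ0 _))
      have h4 : ∑ j, A i j * (dd j u - ρ (C (ξ j))) ∈ IsLocalRing.maximalIdeal R :=
        Ideal.sum_mem _ fun j _ => Ideal.mul_mem_left _ _ (hξ j)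
      have h5 : ρ (vf w (ψ (c.J i)) - ∑ j, π (c.J i) (c.J j) * C (ξ j)) =
          (ρ (vf w (ψ (c.J i))) - ∑ j, ρ (w (c.J j)) * dd j (ρ (ψ (c.J i)))) +
          (((∑ l, ρ (w (c.J l)) * dd l (ρ (ψ (c.J i))) -
            ∑ l, ρ (ψ (c.J l)) * dd l (ρ (w (c.J i)))) - ∑ j, A i j * dd j u) +
          (∑ l, ρ (ψ (c.J l)) * dd l (ρ (w (c.J i))) +
            ∑ j, A i j * (dd j u - ρ (C (ξ j))))) := by
        have h6 : ∑ j, A i j * (dd j u - ρ (C (ξ j))) =
            ∑ j, A i j * dd j u - ρ (∑ j, π (c.J i) (c.J j) * C (ξ j)) := by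
          rw [map_sum, ← Finset.sum_sub_distrib]
          refine Finset.sum_congr rfl fun j _ => ?_
          rw [map_mul, mul_sub, ← hAa]
        rw [h6, map_sub]
        ring
      rw [h5]
      exact Ideal.add_mem _ h2 (Ideal.add_mem _ (hu i) (Ideal.add_mem _ h3 h4))
    have h7 := (hm0 _).1 h1
    rw [map_sub, sub_eq_zero, map_sum] at h7
    rw [h7]
    simp only [Matrix.mulVec, dotProduct, mat, Matrix.of_apply]
    rw [← (Equiv.ofBijective _ c.bij).sum_comp, Fintype.sum_sum_type]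
    have hJ' : ∀ x, ξ' (c.J x) = ξ x := fun x => by
      have h := (Equiv.ofBijective _ c.bij).symm_apply_apply (Sum.inl x)
      rw [Equiv.ofBijective_apply, Sum.elim_inl] at h
      show Sum.elim ξ (fun _ => 0) ((Equiv.ofBijective _ c.bij).symm (c.J x)) = ξ x
      rw [h, Sum.elim_inl]
    have hK' : ∀ x, ξ' (c.K x) = 0 := fun x => by
      have h := (Equiv.ofBijective _ c.bij).symm_apply_apply (Sum.inr x)
      rw [Equiv.ofBijective_apply, Sum.elim_inr] at h
      show Sum.elim ξ (fun _ => 0) ((Equiv.ofBijective _ c.bij).symm (c.K x)) = 0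
      rw [h, Sum.elim_inr]
    simp only [Equiv.ofBijective_apply, Sum.elim_inl, Sum.elim_inr, hJ', hK', mul_zero,
      Finset.sum_const_zero, add_zero, map_mul, eval_C]
  intro i
  have h8 := congrFun hmain i
  rw [← h8]
  simp only [vf, map_sum, map_mul]

end Pool.Agent.Lib.MPc9b009.LF
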