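import Pool.Agent.Lib.MP_c9b009_ag.LF.SpecT

/-!
# MP_c9b009_ag, row LF, module TLR: Artin-Rees
-/

set_option autoImplicit false

namespace Pool.Agent.Lib.MPc9b009.LF

open MvPolynomial Pool.Agent.Lib.MPc9b009.B5 Pool.Agent.Lib.MPc9b009.OD
  Pool.Agent.Lib.MPc9b009.PS Pool.Agent.Lib.MPc9b009.LS

namespace TLRM

theorem ar1 {R : Type} [CommRing R] [IsNoetherianRing R] (m : Ideal R) {n : ℕ} (f : R)
    (d : Fin n → R) (hf : ∀ a, (∀ j, f ∣ a * d j) → f ∣ a) (k₁ : ℕ) :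
    ∃ k : ℕ, ∀ a : R, (∀ j, a * d j ∈ Ideal.span {f} ⊔ m ^ k) → a ∈ Ideal.span {f} ⊔ m ^ k₁ := by
  classical
  let M := Fin n → R ⧸ Ideal.span {f}
  let φ : R →ₗ[R] M := LinearMap.pi fun j =>
    (Submodule.mkQ (Ideal.span {f})).comp (LinearMap.toSpanSingleton R R (d j))
  have hφ : ∀ a j, φ a j = Ideal.Quotient.mk (Ideal.span {f}) (a * d j) := fun a j => rfl
  have hker : ∀ a, φ a = 0 → f ∣ a := by
    intro a ha
    apply hf
    intro j
    have h1 := congrFun ha j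
    rw [hφ] at h1
    exact Ideal.mem_span_singleton.1 (Ideal.Quotient.eq_zero_iff_mem.1 h1)
  obtain ⟨k', hk'⟩ := Ideal.exists_pow_inf_eq_pow_smul (M := M) m (LinearMap.range φ)
  refine ⟨k' + k₁, fun a ha => ?_⟩
  have h1 : φ a ∈ (m ^ (k' + k₁) • ⊤ : Submodule R M) := by
    have h2 : ∀ j, ∃ y ∈ m ^ (k' + k₁), φ a j = Ideal.Quotient.mk (Ideal.span {f}) y := by
      intro j
      obtain ⟨x, hx, y, hy, hxy⟩ := Submodule.mem_sup.1 (ha j)
      refine ⟨y, hy, ?_⟩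
      rw [hφ, ← hxy, map_add, Ideal.Quotient.eq_zero_iff_mem.2 hx, zero_add]
    choose y hy hy' using h2
    have h3 : φ a = ∑ j, y j • (Pi.single j 1 : M) := by
      funext i
      rw [Finset.sum_apply]
      rw [Finset.sum_eq_single i]
      · rw [Pi.smul_apply, Pi.single_eq_same, hy' i, Algebra.smul_def, mul_one]
        rfl
      · intro b _ hb
        rw [Pi.smul_apply, Pi.single_eq_of_ne (Ne.symm hb), smul_zero]
      · intro h
        exact absurd (Finset.mem_univ _) h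
    rw [h3]
    exact Submodule.sum_mem _ fun j _ => Submodule.smul_mem_smul (hy j) trivial
  have h2 : φ a ∈ (m ^ (k' + k₁) • ⊤ : Submodule R M) ⊓ LinearMap.range φ :=
    ⟨h1, LinearMap.mem_range_self φ a⟩
  rw [hk' _ (Nat.le_add_right _ _), Nat.add_sub_cancel_left] at h2
  have hle : m ^ k₁ • ((m ^ k' • ⊤ : Submodule R M) ⊓ LinearMap.range φ) ≤
      m ^ k₁ • LinearMap.range φ := smul_mono_right _ inf_le_right
  have h3 : φ a ∈ m ^ k₁ • LinearMap.range φ := hle h2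
  rw [LinearMap.range_eq_map, ← Submodule.map_smul''] at h3
  obtain ⟨b, hb, hab⟩ := h3
  have hb' : b ∈ m ^ k₁ := by
    have : (m ^ k₁ • ⊤ : Submodule R R) = m ^ k₁ := by
      rw [smul_eq_mul, Ideal.mul_top]
    rw [← this]
    exact hb
  have h4 : f ∣ a - b := by
    apply hker
    rw [map_sub, hab, sub_self]
  have h5 : a = (a - b) + b := by ring
  rw [h5]
  exact Submodule.add_mem_sup (Ideal.mem_span_singleton.2 h4) hb'

theorem ar2 {R : Type} [CommRing R] [IsDomain R] [IsNoetherianRing R] (m : Ideal R) (g : R)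
    (hg : g ≠ 0) : ∃ k : ℕ, ∀ a : R, g * a ∈ m ^ k → a ∈ m := by
  obtain ⟨k', hk'⟩ := Ideal.exists_pow_inf_eq_pow_smul (M := R) m (Ideal.span {g})
  refine ⟨k' + 1, fun a ha => ?_⟩
  have h1 : g * a ∈ (m ^ (k' + 1) • ⊤ : Submodule R R) := by
    have : (m ^ (k' + 1) • ⊤ : Submodule R R) = m ^ (k' + 1) := by
      rw [smul_eq_mul, Ideal.mul_top]
    rw [this]
    exact ha
  have h2 : g * a ∈ (m ^ (k' + 1) • ⊤ : Submodule R R) ⊓ Ideal.span {g} :=
    ⟨h1, Ideal.mem_span_singleton.2 ⟨a, rfl⟩⟩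
  rw [hk' _ (Nat.le_add_right _ _), Nat.add_sub_cancel_left, pow_one] at h2
  have hle : m • ((m ^ k' • ⊤ : Submodule R R) ⊓ Ideal.span {g}) ≤
      m • (Ideal.span {g} : Ideal R) := smul_mono_right _ inf_le_right
  have h3 : g * a ∈ m • (Ideal.span {g} : Ideal R) := hle h2
  rw [smul_eq_mul, Ideal.mem_mul_span_singleton] at h3
  obtain ⟨b, hb, hab⟩ := h3
  have h4 : b = a := mul_left_cancel₀ hg (by rw [← hab, mul_comm])
  rw [← h4]
  exact hb

end TLRM

theorem specTLR : SpecTLR := by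
  intro n R _ _ _ _ _ dd f hf hdvd
  exact ⟨TLRM.ar1 (IsLocalRing.maximalIdeal R) f (fun j => dd j f) hdvd,
    TLRM.ar2 (IsLocalRing.maximalIdeal R) (f ^ 2) (pow_ne_zero 2 hf)⟩

end Pool.Agent.Lib.MPc9b009.LF
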