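import Pool.Agent.Lib.MP_c9b009_ag.LF.SpecA

/-!
# MP_c9b009_ag, row LF, module TNG: the tangent spaces correspond
-/

set_option autoImplicit false

namespace Pool.Agent.Lib.MPc9b009.LF

open MvPolynomial Pool.Agent.Lib.MPc9b009.B5 Pool.Agent.Lib.MPc9b009.OD
  Pool.Agent.Lib.MPc9b009.PS Pool.Agent.Lib.MPc9b009.LS

namespace TNGM

/-! ### scalar extension -/

section BC

variable {N : ℕ} {E E' : Type} [Field E] [Field E'] [Algebra ℂ E] [Algebra ℂ E'] [Algebra E E']

omit [Algebra ℂ E] [Algebra ℂ E'] in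
theorem coord_mul {ι : Type*} (B : Module.Basis ι E E') (α : ι) (x : E') (y : E) :
    B.coord α (x * algebraMap E E' y) = B.coord α x * y := by
  rw [mul_comm, ← Algebra.smul_def, map_smul, smul_eq_mul, mul_comm]

omit [Algebra ℂ E] [Algebra ℂ E'] in
theorem li {ι : Type} (e : ι → Fin N → E) (h : LinearIndependent E e) :
    LinearIndependent E' (fun i => (fun l => algebraMap E E' (e i l) : Fin N → E')) := by
  classical
  rw [linearIndependent_iff'] at h ⊢
  intro s c hc i hi
  have B := Module.Basis.ofVectorSpace E E'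
  apply B.ext_elem
  intro α
  have h1 : ∑ j ∈ s, (B.coord α (c j)) • e j = 0 := by
    funext l
    have h2 := congrFun hc l
    rw [Finset.sum_apply] at h2 ⊢
    simp only [Pi.smul_apply, smul_eq_mul, Pi.zero_apply] at h2 ⊢
    have h3 := congrArg (B.coord α) h2
    rw [map_sum, map_zero] at h3
    simpa only [coord_mul] using h3
  have h2 := h s (fun j => B.coord α (c j)) h1 i hi
  simpa using h2

theorem bc (P : Ideal (PR N)) (χ : PR N →ₐ[ℂ] E) (χ' : PR N →ₐ[ℂ] E')
    (h : ∀ q, χ' q = algebraMap E E' (χ q)) :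
    tsp P χ' = Submodule.span E' {w | ∃ s ∈ tsp P χ, w = fun l => algebraMap E E' (s l)} := by
  classical
  apply le_antisymm
  · intro t ht
    have B := Module.Basis.ofVectorSpace E E'
    have h1 : ∀ α, (fun l => B.coord α (t l)) ∈ tsp P χ := by
      intro α q hq
      have h2 := ht q hq
      have h3 := congrArg (B.coord α) h2
      rw [map_sum, map_zero] at h3
      rw [← h3]
      refine Finset.sum_congr rfl fun l _ => ?_
      rw [h, coord_mul]
    set S := Finset.univ.biUnion fun l => (B.repr (t l)).support with hS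
    have h2 : t = ∑ α ∈ S, B α • (fun l => algebraMap E E' (B.coord α (t l)) : Fin N → E') := by
      funext l
      rw [Finset.sum_apply]
      have h3 := B.linearCombination_repr (t l)
      rw [Finsupp.linearCombination_apply, Finsupp.sum_of_support_subset (s := S)] at h3
      · conv_lhs => rw [← h3]
        refine Finset.sum_congr rfl fun α _ => ?_
        rw [Pi.smul_apply, smul_eq_mul, Algebra.smul_def, mul_comm]
        rfl
      · intro α hα
        exact Finset.mem_biUnion.mpr ⟨l, Finset.mem_univ _, hα⟩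
      · intro α _
        exact zero_smul _ _
    rw [h2]
    exact Submodule.sum_mem _ fun α _ => Submodule.smul_mem _ _
      (Submodule.subset_span ⟨_, h1 α, rfl⟩)
  · rw [Submodule.span_le]
    rintro w ⟨s, hs, rfl⟩ q hq
    have h1 := hs q hq
    have h2 := congrArg (algebraMap E E') h1
    rw [map_sum, map_zero] at h2
    rw [← h2]
    refine Finset.sum_congr rfl fun l _ => ?_
    rw [h, map_mul]

theorem rk_bc (P : Ideal (PR N)) (χ : PR N →ₐ[ℂ] E) (χ' : PR N →ₐ[ℂ] E')
    (h : ∀ q, χ' q = algebraMap E E' (χ q)) :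
    Module.finrank E' (tsp P χ') = Module.finrank E (tsp P χ) := by
  classical
  have B := Module.finBasis E (tsp P χ)
  have h1 : LinearIndependent E (fun i => (B i : Fin N → E)) :=
    B.linearIndependent.map' (tsp P χ).subtype (Submodule.ker_subtype _)
  have h2 := li (E' := E') _ h1
  have h3 : tsp P χ' = Submodule.span E' (Set.range fun i =>
      (fun l => algebraMap E E' ((B i : Fin N → E) l) : Fin N → E')) := by
    rw [bc P χ χ' h]
    apply le_antisymm
    · rw [Submodule.span_le]
      rintro w ⟨s, hs, rfl⟩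
      have h4 := B.sum_repr ⟨s, hs⟩
      have h5 : (fun l => algebraMap E E' (s l) : Fin N → E') =
          ∑ i, algebraMap E E' (B.repr ⟨s, hs⟩ i) •
            (fun l => algebraMap E E' ((B i : Fin N → E) l) : Fin N → E') := by
        funext l
        rw [Finset.sum_apply]
        simp only [Pi.smul_apply, smul_eq_mul]
        have h7 : s l = ∑ i, B.repr ⟨s, hs⟩ i * (B i : Fin N → E) l := by
          have h8 : s l = (tsp P χ).subtype (∑ i, B.repr ⟨s, hs⟩ i • B i) l := by
            rw [h4]
            rfl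
          rw [h8, map_sum, Finset.sum_apply]
          rfl
        conv_lhs => rw [h7]
        rw [map_sum]
        exact Finset.sum_congr rfl fun i _ => map_mul _ _ _
      rw [h5]
      exact Submodule.sum_mem _ fun i _ => Submodule.smul_mem _ _
        (Submodule.subset_span ⟨i, rfl⟩)
    · rw [Submodule.span_le]
      rintro w ⟨i, rfl⟩
      exact Submodule.subset_span ⟨_, (B i).2, rfl⟩
  rw [h3, finrank_span_eq_card h2, Fintype.card_fin]

end BC

/-! ### the derivative at the origin -/

section Der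

variable {N : ℕ} {B : Type} [Field B] [Algebra ℂ B]

/-- the derivative at `0` in the direction `t` -/
noncomputable def Dt (t : Fin N → B) : MvPolynomial (Fin N) B →+ B where
  toFun Q := ∑ a, t a * constantCoeff (pderiv a Q)
  map_zero' := by simp
  map_add' := by
    intro x y
    simp [mul_add, Finset.sum_add_distrib]

omit [Algebra ℂ B] in
theorem Dt_apply (t : Fin N → B) (Q : MvPolynomial (Fin N) B) :
    Dt t Q = ∑ a, t a * constantCoeff (pderiv a Q) := rfl

omit [Algebra ℂ B] in
theorem Dt_mul (t : Fin N → B) (Q R : MvPolynomial (Fin N) B) :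
    Dt t (Q * R) = constantCoeff Q * Dt t R + constantCoeff R * Dt t Q := by
  simp only [Dt_apply, Derivation.leibniz, smul_eq_mul, map_add, map_mul, Finset.mul_sum,
    ← Finset.sum_add_distrib]
  refine Finset.sum_congr rfl fun a _ => ?_
  ring

omit [Algebra ℂ B] in
theorem Dt_C (t : Fin N → B) (c : B) : Dt t (C c) = 0 := by
  simp [Dt_apply]

omit [Algebra ℂ B] in
theorem Dt_X (t : Fin N → B) (l : Fin N) : Dt t (X l) = t l := by
  classical
  rw [Dt_apply, Finset.sum_eq_single l]
  · rw [pderiv_X_self, map_one, mul_one]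
  · intro b _ hb
    rw [pderiv_X_of_ne hb.symm, map_zero, mul_zero]
  · intro h
    exact absurd (Finset.mem_univ l) h

omit [Algebra ℂ B] in
theorem cc_vars {Q : MvPolynomial (Fin N) B} (h : Q ∈ MvPolynomial.idealOfVars (Fin N) B) :
    constantCoeff Q = 0 := by
  have h1 : Q ∈ MvPolynomial.idealOfVars (Fin N) B ^ 1 := by rwa [pow_one]
  rw [MvPolynomial.mem_pow_idealOfVars_iff'] at h1
  exact h1 0 (by simp)

omit [Algebra ℂ B] in
theorem Dt_YI (k : ℕ) (t : Fin N → B) {Q : MvPolynomial (Fin N) B} (h : Q ∈ YI N (k + 1) B) :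
    Dt t Q = 0 := by
  have h1 : Q ∈ MvPolynomial.idealOfVars (Fin N) B * MvPolynomial.idealOfVars (Fin N) B := by
    rw [← pow_two]
    exact Ideal.pow_le_pow_right (by omega) h
  refine Submodule.mul_induction_on h1 (fun x hx y hy => ?_) (fun x y hx hy => ?_)
  · rw [Dt_mul, cc_vars hx, cc_vars hy, zero_mul, zero_mul, add_zero]
  · rw [map_add, hx, hy, add_zero]

theorem cc (g : Fin N → MvPolynomial (Fin N) B)
    (q : PR N) : constantCoeff (aeval g q) = aeval (fun l => constantCoeff (g l)) q := by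
  induction q using MvPolynomial.induction_on with
  | C a =>
    rw [algHom_C, algHom_C, MvPolynomial.algebraMap_apply, constantCoeff_C]
  | add p q hp hq => rw [map_add, map_add, map_add, hp, hq]
  | mul_X p i hp => rw [map_mul, map_mul, map_mul, hp, aeval_X, aeval_X]

theorem Dt_aeval (t : Fin N → B) (g : Fin N → MvPolynomial (Fin N) B) (q : PR N) :
    Dt t (aeval g q) =
      ∑ l, aeval (fun l => constantCoeff (g l)) (pderiv l q) * Dt t (g l) := by
  classical
  induction q using MvPolynomial.induction_on with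
  | C a =>
    rw [algHom_C, MvPolynomial.algebraMap_apply, Dt_C]
    refine (Finset.sum_eq_zero fun l _ => ?_).symm
    rw [pderiv_C, map_zero, zero_mul]
  | add p q hp hq =>
    rw [map_add, map_add, hp, hq, ← Finset.sum_add_distrib]
    refine Finset.sum_congr rfl fun l _ => ?_
    rw [map_add, map_add, add_mul]
  | mul_X p i hp =>
    rw [map_mul, aeval_X, Dt_mul, hp, cc]
    have h1 : ∀ l, aeval (fun l => constantCoeff (g l)) (pderiv l (p * X i)) * Dt t (g l) =
        (if l = i then aeval (fun l => constantCoeff (g l)) p * Dt t (g l) else 0) +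
        constantCoeff (g i) *
          (aeval (fun l => constantCoeff (g l)) (pderiv l p) * Dt t (g l)) := by
      intro l
      rw [Derivation.leibniz, smul_eq_mul, smul_eq_mul, map_add, map_mul, map_mul, aeval_X]
      by_cases hl : l = i
      · subst hl
        rw [pderiv_X_self, map_one, if_pos rfl]
        ring
      · rw [pderiv_X_of_ne (Ne.symm hl), map_zero, if_neg hl]
        ring
    rw [Finset.sum_congr rfl fun l _ => h1 l, Finset.sum_add_distrib, Finset.sum_ite_eq',
      if_pos (Finset.mem_univ i), ← Finset.mul_sum]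

theorem Dt_tr (t : Fin N → B) (p₀ : Cn N) (q : PR N) :
    Dt t (tr B p₀ q) = ∑ l, t l * aeval (fun l => algebraMap ℂ B (p₀ l)) (pderiv l q) := by
  unfold tr
  rw [Dt_aeval]
  have h : (fun l : Fin N => constantCoeff (X l + C (algebraMap ℂ B (p₀ l)) :
      MvPolynomial (Fin N) B)) = fun l => algebraMap ℂ B (p₀ l) := by
    funext l
    simp
  rw [h]
  refine Finset.sum_congr rfl fun l _ => ?_
  rw [map_add, Dt_X, Dt_C, add_zero, mul_comm]

theorem cc_tr (p₀ : Cn N) (q : PR N) :
    constantCoeff (tr B p₀ q) = aeval (fun l => algebraMap ℂ B (p₀ l)) q := by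
  unfold tr
  rw [cc]
  have h : (fun l : Fin N => constantCoeff (X l + C (algebraMap ℂ B (p₀ l)) :
      MvPolynomial (Fin N) B)) = fun l => algebraMap ℂ B (p₀ l) := by
    funext l
    simp
  rw [h]

theorem gen {κ τ : Type} {P : Ideal (PR N)} {f : κ → PR N} {blk : κ → τ} {t₀ : τ}
    (hs : Ideal.span (f '' {l | blk l = t₀}) = P) (χ : PR N →ₐ[ℂ] B) (hχ : ∀ q ∈ P, χ q = 0)
    (t : Fin N → B) :
    t ∈ tsp P χ ↔ ∀ i, blk i = t₀ → ∑ l, t l * χ (pderiv l (f i)) = 0 := by
  constructor
  · intro h i hi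
    apply h
    rw [← hs]
    exact Ideal.subset_span ⟨i, hi, rfl⟩
  · intro h q hq
    have hq' : q ∈ Ideal.span (f '' {l | blk l = t₀}) := by rwa [hs]
    refine Submodule.span_induction (p := fun x _ => ∑ l, t l * χ (pderiv l x) = 0)
      ?_ ?_ ?_ ?_ hq'
    · rintro x ⟨i, hi, rfl⟩
      exact h i hi
    · simp
    · intro x y _ _ hx hy
      simp only [map_add, mul_add, Finset.sum_add_distrib, hx, hy, add_zero]
    · intro a x hx hx'
      have h1 : χ x = 0 := hχ x (by rw [← hs]; exact hx)
      have h2 : ∑ l, t l * χ (pderiv l (a • x)) = χ a * ∑ l, t l * χ (pderiv l x) := by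
        rw [Finset.mul_sum]
        refine Finset.sum_congr rfl fun l _ => ?_
        rw [smul_eq_mul, Derivation.leibniz, smul_eq_mul, smul_eq_mul, map_add, map_mul, map_mul,
          h1, zero_mul, add_zero]
        ring
      rw [h2, hx', mul_zero]

omit [Algebra ℂ B] in
theorem J0_mulVec (γ : Fin N → MvPolynomial (Fin N) B) (t : Fin N → B) (l : Fin N) :
    (J0 γ).mulVec t l = Dt t (γ l) := by
  rw [Dt_apply]
  change ∑ a, J0 γ l a * t a = _
  refine Finset.sum_congr rfl fun a _ => ?_
  exact mul_comm (constantCoeff (pderiv a (γ l))) (t a)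

theorem equi {k : ℕ} {κ τ : Type} [Fintype κ] [DecidableEq τ] {P : Ideal (PR N)} {f : κ → PR N}
    {blk : κ → τ} {t₀ : τ} {p₀ : Cn N} (hs : Ideal.span (f '' {l | blk l = t₀}) = P)
    (hp : p₀ ∈ Zer P) (b : Pt N (k + 1) P f blk p₀ B) (φ' : PR N →ₐ[ℂ] B)
    (hφ : ∀ l, constantCoeff (b.γ l) = φ' (X l)) (hk : ∀ q ∈ P, φ' q = 0) (t : Fin N → B) :
    t ∈ tsp P (aeval (fun l => algebraMap ℂ B (p₀ l)) : PR N →ₐ[ℂ] B) ↔
      (J0 b.γ).mulVec t ∈ tsp P φ' := by
  have hφ' : ∀ q, aeval (fun l => constantCoeff (b.γ l)) q = φ' q := by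
    intro q
    have h1 : (fun l => constantCoeff (b.γ l)) = fun l => φ' (X l) := funext hφ
    rw [h1]
    exact (AlgHom.congr_fun (aeval_unique φ') q).symm
  have h0 : ∀ q ∈ P, (aeval (fun l => algebraMap ℂ B (p₀ l)) : PR N →ₐ[ℂ] B) q = 0 := by
    intro q hq
    have h1 := hp q hq
    have h2 : (aeval (fun l => algebraMap ℂ B (p₀ l)) : PR N →ₐ[ℂ] B) q =
        algebraMap ℂ B (eval p₀ q) := by
      have h3 := MvPolynomial.aeval_algebraMap_apply B p₀ q
      rw [← MvPolynomial.coe_aeval_eq_eval]
      exact h3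
    rw [h2, h1, map_zero]
  have hfP : ∀ i, blk i = t₀ → f i ∈ P := by
    intro i hi
    rw [← hs]
    exact Ideal.subset_span ⟨i, hi, rfl⟩
  have ha : ∀ q, Dt t (aeval b.γ q) = ∑ l, (J0 b.γ).mulVec t l * φ' (pderiv l q) := by
    intro q
    rw [Dt_aeval]
    refine Finset.sum_congr rfl fun l _ => ?_
    rw [hφ', J0_mulVec, mul_comm]
  have hc : ∀ q, constantCoeff (aeval b.γ q) = φ' q := by
    intro q
    rw [cc, hφ']
  rw [gen hs _ h0, gen hs _ hk]
  constructor
  · intro h i hi
    have h1 := Dt_YI k t (b.e1 i)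
    rw [map_sub, sub_eq_zero, map_sum] at h1
    rw [← ha, h1]
    refine Finset.sum_eq_zero fun j _ => ?_
    split_ifs with hj
    · have hj' : blk j = t₀ := hj.trans hi
      rw [Dt_mul, cc_tr, h0 _ (hfP j hj'), zero_mul, add_zero, Dt_tr, h j hj', mul_zero]
    · exact map_zero _
  · intro h i hi
    have h1 := Dt_YI k t (b.e2 i)
    rw [map_sub, sub_eq_zero, map_sum] at h1
    rw [← Dt_tr, h1]
    refine Finset.sum_eq_zero fun j _ => ?_
    split_ifs with hj
    · have hj' : blk j = t₀ := hj.trans hi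
      rw [Dt_mul, hc, hk _ (hfP j hj'), zero_mul, add_zero, ha, h j hj', mul_zero]
    · exact map_zero _

omit [Algebra ℂ B] in
theorem cc_pderiv (a : Fin N) (Q : MvPolynomial (Fin N) B) :
    constantCoeff (pderiv a Q) = coeff (Finsupp.single a 1) Q := by
  classical
  induction Q using MvPolynomial.induction_on' with
  | monomial u c =>
    rw [pderiv_monomial, constantCoeff_monomial, coeff_monomial]
    by_cases h : u = Finsupp.single a 1
    · subst h
      simp
    · rw [if_neg h]
      by_cases h1 : u a = 0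
      · simp [h1]
      · rw [if_neg]
        intro h2
        apply h
        have h3 : u = Finsupp.single a 1 := by
          ext l
          have h4 := DFunLike.congr_fun h2 l
          simp only [Finsupp.coe_tsub, Pi.sub_apply, Finsupp.coe_zero, Pi.zero_apply] at h4
          by_cases hl : l = a
          · subst hl
            simp only [Finsupp.single_eq_same] at h4 ⊢
            omega
          · rw [Finsupp.single_apply, if_neg (Ne.symm hl)] at h4 ⊢
            omega
        exact h3
  | add p q hp hq => rw [map_add, map_add, hp, hq, coeff_add]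

end Der

end TNGM

open TNGM in
theorem specTNG (hTGD : SpecTGD) : SpecTNG := by
  intro N k d κ τ _ _ P f blk t₀ p₀ hP htr hs hp L _ _ φ hG L' _ _ _ hST b hb
  obtain ⟨hd, -⟩ := hTGD N d P hP htr L _ _ φ hG
  set φ' : PR N →ₐ[ℂ] L' := (IsScalarTower.toAlgHom ℂ L L').comp φ with hφ'
  have hφ1 : ∀ q, φ' q = algebraMap L L' (φ q) := fun q => rfl
  have hk : ∀ q ∈ P, φ' q = 0 := by
    intro q hq
    rw [hφ1, (hG.ker q).mpr hq, map_zero]
  set ψ : PR N →ₐ[ℂ] L' := aeval (fun l => algebraMap ℂ L' (p₀ l)) with hψ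
  have hψ1 : ∀ q, ψ q = algebraMap ℂ L' ((aeval p₀ : PR N →ₐ[ℂ] ℂ) q) := by
    intro q
    exact MvPolynomial.aeval_algebraMap_apply L' p₀ q
  have heq : ∀ t, t ∈ tsp P ψ ↔ (J0 b.γ).mulVec t ∈ tsp P φ' :=
    fun t => equi hs hp b φ' (fun l => by rw [hb, hφ1]) hk t
  have hdet : IsUnit (J0 b.γ).det := by
    have h1 : J0 b.γ = Matrix.of fun i j => coeff (Finsupp.single j 1) (b.γ i) := by
      ext i a
      exact cc_pderiv a (b.γ i)
    rw [h1]
    exact b.inv
  have hBC := bc P φ φ' hφ1
  have r1 : Module.finrank L' (tsp P φ') = d := by rw [rk_bc P φ φ' hφ1, hd]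
  -- the isomorphism
  set M := J0 b.γ with hM
  let T : (Fin N → L') ≃ₗ[L'] (Fin N → L') := Matrix.toLinearEquiv' M (M.invertibleOfIsUnitDet hdet)
  have hT : ∀ t, T t = M.mulVec t := fun t => rfl
  have hmap : (tsp P ψ).map (T : (Fin N → L') →ₗ[L'] (Fin N → L')) = tsp P φ' := by
    ext s
    rw [Submodule.mem_map]
    constructor
    · rintro ⟨t, ht, rfl⟩
      exact (heq t).mp ht
    · intro hs'
      refine ⟨T.symm s, ?_, T.apply_symm_apply s⟩
      rw [heq, ← hT, T.apply_symm_apply]
      exact hs'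
  have r2 : Module.finrank L' (tsp P ψ) = d := by
    rw [← r1, ← hmap]
    exact (LinearEquiv.finrank_map_eq T _).symm
  have r3 : Module.finrank ℂ (tgx P p₀) = d := by
    have h1 := rk_bc (E := ℂ) (E' := L') P (aeval p₀) ψ hψ1
    rw [← r2, h1]
    rfl
  have hup : ∀ t ∈ tgx P p₀, (fun l => algebraMap ℂ L' (t l)) ∈ tsp P ψ := by
    intro t ht
    rw [bc (E := ℂ) (E' := L') P (aeval p₀) ψ hψ1]
    exact Submodule.subset_span ⟨t, ht, rfl⟩
  have hup' : ∀ t ∈ tgx P p₀, M.mulVec (fun l => algebraMap ℂ L' (t l)) ∈ tsp P φ' :=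
    fun t ht => (heq _).mp (hup t ht)
  refine ⟨r3, ?_, ?_⟩
  · intro e he hli
    have h1 := li (E' := L') e hli
    have h2 : LinearIndependent L' (fun i => M.mulVec (fun l => algebraMap ℂ L' (e i l))) :=
      h1.map' (T : (Fin N → L') →ₗ[L'] (Fin N → L')) (LinearEquiv.ker T)
    refine ⟨h2, fun t => ?_⟩
    have h3 : Submodule.span L' (Set.range fun i => M.mulVec (fun l => algebraMap ℂ L' (e i l))) =
        tsp P φ' := by
      apply Submodule.eq_of_le_of_finrank_eq
      · rw [Submodule.span_le]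
        rintro w ⟨i, rfl⟩
        exact hup' _ (he i)
      · rw [finrank_span_eq_card h2, Fintype.card_fin, r1]
    rw [h3, hBC]
  · intro t ht
    rw [← hBC]
    exact hup' t ht

end Pool.Agent.Lib.MPc9b009.LF
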