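import Pool.Agent.Lib.MP_c9b009_ag.LF.SpecA

/-!
# MP_c9b009_ag, row LF, module TRP: transport of vector fields to the germ at `p₀`
-/

set_option autoImplicit false

namespace Pool.Agent.Lib.MPc9b009.LF

open MvPolynomial Pool.Agent.Lib.MPc9b009.B5 Pool.Agent.Lib.MPc9b009.OD
  Pool.Agent.Lib.MPc9b009.PS Pool.Agent.Lib.MPc9b009.LS

namespace TRPM

/-- a derivation lowers the order by at most one -/
theorem der_pow {A R : Type} [CommRing A] [CommRing R] [Algebra A R] (D : Derivation A R R)
    (J : Ideal R) (n : ℕ) : ∀ x ∈ J ^ (n + 1), D x ∈ J ^ n := by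
  induction n with
  | zero =>
    intro x _
    rw [pow_zero, Ideal.one_eq_top]
    trivial
  | succ n ih =>
    intro x hx
    rw [pow_succ' J (n + 1)] at hx
    refine Submodule.mul_induction_on hx ?_ ?_
    · intro a ha b hb
      rw [Derivation.leibniz, smul_eq_mul, smul_eq_mul]
      refine Ideal.add_mem _ ?_ (Ideal.mul_mem_right _ _ hb)
      rw [pow_succ']
      exact Ideal.mul_mem_mul ha (ih b hb)
    · intro a b ha hb
      rw [map_add]
      exact Ideal.add_mem _ ha hb

variable {N : ℕ} {E : Type} [Field E] [Algebra ℂ E]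

omit [Algebra ℂ E] in
/-- partial derivatives commute -/
theorem pd_comm (i j : Fin N) (z : MvPolynomial (Fin N) E) :
    pderiv i (pderiv j z) = pderiv j (pderiv i z) := by
  have h : (⁅(pderiv i : Derivation E (MvPolynomial (Fin N) E) (MvPolynomial (Fin N) E)),
      pderiv j⁆ : Derivation E (MvPolynomial (Fin N) E) (MvPolynomial (Fin N) E)) = 0 := by
    apply MvPolynomial.derivation_ext
    intro k
    rw [Derivation.commutator_apply, pderiv_X, pderiv_X]
    rw [Pi.single_apply, Pi.single_apply]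
    split_ifs <;> simp
  have h2 := DFunLike.congr_fun h z
  rw [Derivation.commutator_apply] at h2
  simpa [sub_eq_zero] using h2

/-- the vector field as a derivation -/
noncomputable def du (u : Fin N → MvPolynomial (Fin N) E) :
    Derivation ℂ (MvPolynomial (Fin N) E) (MvPolynomial (Fin N) E) :=
  ∑ a, u a • (pderiv a).restrictScalars ℂ

theorem du_apply (u : Fin N → MvPolynomial (Fin N) E) (Q : MvPolynomial (Fin N) E) :
    du u Q = ∑ a, u a * pderiv a Q := by
  rw [du]
  induction (Finset.univ : Finset (Fin N)) using Finset.induction_on with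
  | empty => simp
  | insert a s ha ih =>
    rw [Finset.sum_insert ha, Finset.sum_insert ha, Derivation.add_apply, ih,
      Derivation.smul_apply, smul_eq_mul]
    rfl

theorem du_YI (u : Fin N → MvPolynomial (Fin N) E) (k : ℕ) {x : MvPolynomial (Fin N) E}
    (hx : x ∈ YI N (k + 1) E) : du u x ∈ YI N k E := by
  exact der_pow (du u) _ (k + 1) x hx

omit [Algebra ℂ E] in
theorem pd_YI (a : Fin N) (k : ℕ) {x : MvPolynomial (Fin N) E}
    (hx : x ∈ YI N (k + 1) E) : pderiv a x ∈ YI N k E := by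
  exact der_pow (pderiv a) _ (k + 1) x hx

omit [Algebra ℂ E] in
theorem YI_le (k : ℕ) : YI N (k + 1) E ≤ YI N k E := Ideal.pow_le_pow_right (Nat.le_succ _)

theorem tr_mem {κ τ : Type} (f : κ → PR N) (blk : κ → τ) (t : τ) (p₀ : Cn N) (j : κ)
    (hj : blk j = t) : tr E p₀ (f j) ∈ gbi f blk t p₀ E :=
  Ideal.subset_span ⟨j, hj, rfl⟩

/-- the identity behind the second part -/
theorem ident {R : Type} [CommRing R] {n : ℕ} (T dT U : Fin n → Fin n → R)
    (α α' p p' : Fin n → R) :
    ∑ a, ∑ c, α a * (dT a c - ∑ l, (U l a * T l c + U l c * T a l)) * α' c =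
      ∑ a, ∑ c, (T a c * α a * (p' c - ∑ l, U c l * α' l) +
        α' c * (T a c * (p a - ∑ l, U a l * α l) + α a * dT a c)) -
      ∑ a, ∑ c, T a c * (p a * α' c + α a * p' c) := by
  have e1 : ∑ a, ∑ c, α a * (∑ l, U l a * T l c) * α' c =
      ∑ a, ∑ c, T a c * (∑ l, U a l * α l) * α' c := by
    have h1 : ∀ a c, α a * (∑ l, U l a * T l c) * α' c =
        ∑ l, T l c * U l a * α a * α' c := by
      intro a c
      rw [Finset.mul_sum, Finset.sum_mul]
      exact Finset.sum_congr rfl (fun l _ => by ring)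
    have h2 : ∀ a c, T a c * (∑ l, U a l * α l) * α' c =
        ∑ l, T a c * U a l * α l * α' c := by
      intro a c
      rw [Finset.mul_sum, Finset.sum_mul]
      exact Finset.sum_congr rfl (fun l _ => by ring)
    simp only [h1, h2]
    rw [Finset.sum_comm]
    rw [Finset.sum_comm (f := fun a c => ∑ l, T a c * U a l * α l * α' c)]
    exact Finset.sum_congr rfl (fun c _ => Finset.sum_comm)
  have e2 : ∑ a, ∑ c, α a * (∑ l, U l c * T a l) * α' c =
      ∑ a, ∑ c, T a c * α a * (∑ l, U c l * α' l) := by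
    refine Finset.sum_congr rfl (fun a _ => ?_)
    have h1 : ∀ c, α a * (∑ l, U l c * T a l) * α' c =
        ∑ l, T a l * α a * (U l c * α' c) := by
      intro c
      rw [Finset.mul_sum, Finset.sum_mul]
      exact Finset.sum_congr rfl (fun l _ => by ring)
    have h2 : ∀ c, T a c * α a * (∑ l, U c l * α' l) =
        ∑ l, T a c * α a * (U c l * α' l) := by
      intro c
      rw [Finset.mul_sum]
    simp only [h1, h2]
    exact Finset.sum_comm
  have e3 : ∑ a, ∑ c, α a * (dT a c - ∑ l, (U l a * T l c + U l c * T a l)) * α' c =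
      ∑ a, ∑ c, α a * dT a c * α' c - ∑ a, ∑ c, α a * (∑ l, U l a * T l c) * α' c -
        ∑ a, ∑ c, α a * (∑ l, U l c * T a l) * α' c := by
    simp only [← Finset.sum_sub_distrib]
    refine Finset.sum_congr rfl (fun a _ => Finset.sum_congr rfl (fun c _ => ?_))
    rw [Finset.sum_add_distrib]
    ring
  have e4 : ∑ a, ∑ c, (T a c * α a * (p' c - ∑ l, U c l * α' l) +
        α' c * (T a c * (p a - ∑ l, U a l * α l) + α a * dT a c)) -
      ∑ a, ∑ c, T a c * (p a * α' c + α a * p' c) =
      ∑ a, ∑ c, α a * dT a c * α' c - ∑ a, ∑ c, T a c * (∑ l, U a l * α l) * α' c -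
        ∑ a, ∑ c, T a c * α a * (∑ l, U c l * α' l) := by
    simp only [← Finset.sum_sub_distrib]
    refine Finset.sum_congr rfl (fun a _ => Finset.sum_congr rfl (fun c _ => ?_))
    ring
  rw [e3, e4, e1, e2]

end TRPM

open TRPM

theorem specTRP (hJIN : SpecJIN) : SpecTRP := by
  classical
  intro N k κ τ _ _ P f blk ι π p₀ E _ _ b u r h1 h2 h3
  have hdr : ∀ i, du u (b.γ i) - r i ∈ YI N (k + 1) E := by
    intro i
    rw [du_apply]
    exact h1 i
  have hda : ∀ q : PR N, du u (aeval b.γ q) - ∑ l, aeval b.γ (pderiv l q) * r l ∈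
      YI N (k + 1) E := by
    intro q
    have h := BSTM.der_poly (aeval b.γ : PR N →ₐ[ℂ] MvPolynomial (Fin N) E) (du u) q
    simp only [aeval_X] at h
    rw [h, ← Finset.sum_sub_distrib]
    refine Ideal.sum_mem _ (fun l _ => ?_)
    rw [← mul_sub]
    exact Ideal.mul_mem_left _ _ (hdr l)
  -- `f_j(γ)`
  have hfg : ∀ j, aeval b.γ (f j) ∈ gbi f blk (blk j) p₀ E ⊔ YI N (k + 1) E := by
    intro j
    have h := b.e1 j
    rw [← sub_add_cancel (aeval b.γ (f j))
      (∑ l, (if blk l = blk j then b.m j l * tr E p₀ (f l) else 0))]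
    refine Ideal.add_mem _ (Ideal.mem_sup_right h) (Ideal.mem_sup_left ?_)
    refine Ideal.sum_mem _ (fun l _ => ?_)
    split_ifs with hl
    · exact Ideal.mul_mem_left _ _ (tr_mem f blk _ p₀ l hl)
    · exact Ideal.zero_mem _
  -- `u (f_j(γ))`
  have hufg : ∀ j, du u (aeval b.γ (f j)) ∈ gbi f blk (blk j) p₀ E ⊔ YI N (k + 1) E := by
    intro j
    rw [← sub_add_cancel (du u (aeval b.γ (f j))) (∑ l, aeval b.γ (pderiv l (f j)) * r l)]
    exact Ideal.add_mem _ (Ideal.mem_sup_right (hda (f j))) (h2 j)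
  have hle : ∀ t, gbi f blk t p₀ E ⊔ YI N (k + 1) E ≤ gbi f blk t p₀ E ⊔ YI N k E :=
    fun t => sup_le_sup_left (YI_le k) _
  -- first part
  have hA : ∀ i, du u (tr E p₀ (f i)) ∈ gbi f blk (blk i) p₀ E ⊔ YI N k E := by
    intro i
    have h := du_YI u k (b.e2 i)
    rw [map_sub, map_sum] at h
    rw [← sub_add_cancel (du u (tr E p₀ (f i)))
      (∑ j, du u (if blk j = blk i then b.m' i j * aeval b.γ (f j) else 0))]
    refine Ideal.add_mem _ (Ideal.mem_sup_right h) (Ideal.sum_mem _ (fun j _ => ?_))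
    split_ifs with hj
    · rw [Derivation.leibniz, smul_eq_mul, smul_eq_mul]
      refine Ideal.add_mem _ (Ideal.mul_mem_left _ _ (hle _ ?_))
        (Ideal.mul_mem_right _ _ (hle _ ?_))
      · rw [← hj]
        exact hufg j
      · rw [← hj]
        exact hfg j
    · rw [map_zero]
      exact Ideal.zero_mem _
  -- `u` preserves the block `ι`
  have hG : ∀ x ∈ gbi f blk ι p₀ E ⊔ YI N (k + 1) E, du u x ∈ gbi f blk ι p₀ E ⊔ YI N k E := by
    intro x hx
    obtain ⟨y, hy, z, hz, rfl⟩ := Submodule.mem_sup.1 hx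
    rw [map_add]
    refine Ideal.add_mem _ ?_ (Ideal.mem_sup_right (du_YI u k hz))
    refine Submodule.span_induction ?_ ?_ ?_ ?_ hy
    · rintro _ ⟨j, hj, rfl⟩
      have := hA j
      rw [show blk j = ι from hj] at this
      exact this
    · rw [map_zero]
      exact Ideal.zero_mem _
    · intro a c _ _ ha hc
      rw [map_add]
      exact Ideal.add_mem _ ha hc
    · intro a c hc ha
      rw [smul_eq_mul, Derivation.leibniz, smul_eq_mul, smul_eq_mul]
      exact Ideal.add_mem _ (Ideal.mul_mem_left _ _ ha)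
        (Ideal.mul_mem_right _ _ (Ideal.mem_sup_left hc))
  refine ⟨fun i => by rw [← du_apply]; exact hA i, ?_⟩
  -- second part
  set G : Ideal (MvPolynomial (Fin N) E) := gbi f blk ι p₀ E ⊔ YI N k E with hGd
  set q : MvPolynomial (Fin N) E →+* MvPolynomial (Fin N) E ⧸ G := Ideal.Quotient.mk G with hq
  set 𝔡 : Fin N → Fin N → MvPolynomial (Fin N) E := fun i j =>
    ∑ l, u l * pderiv l (tr E p₀ (π i j)) -
      ∑ l, (pderiv l (u i) * tr E p₀ (π l j) + pderiv l (u j) * tr E p₀ (π i l)) with h𝔡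
  have hpd : ∀ a i, pderiv a (du u (b.γ i)) - pderiv a (r i) ∈ G := by
    intro a i
    rw [← map_sub]
    exact Ideal.mem_sup_right (pd_YI a k (hdr i))
  have hcom : ∀ a i, du u (pderiv a (b.γ i)) =
      pderiv a (du u (b.γ i)) - ∑ c, pderiv a (u c) * pderiv c (b.γ i) := by
    intro a i
    rw [du_apply, du_apply, map_sum, ← Finset.sum_sub_distrib]
    refine Finset.sum_congr rfl (fun c _ => ?_)
    rw [Derivation.leibniz, smul_eq_mul, smul_eq_mul, pd_comm]
    ring
  have hkey : ∀ i j, q (∑ a, ∑ c, pderiv a (b.γ i) * 𝔡 a c * pderiv c (b.γ j)) = 0 := by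
    intro i j
    have h4 := b.e3 i j
    have h5 : (∑ a, ∑ c, tr E p₀ (π a c) * pderiv a (b.γ i) * pderiv c (b.γ j)) -
        aeval b.γ (π i j) ∈ gbi f blk ι p₀ E ⊔ YI N (k + 1) E := by
      rw [← sub_add_cancel ((∑ a, ∑ c, tr E p₀ (π a c) * pderiv a (b.γ i) * pderiv c (b.γ j)) -
        aeval b.γ (π i j)) (∑ l, (if blk l = ι then b.m3 i j l * tr E p₀ (f l) else 0))]
      refine Ideal.add_mem _ (Ideal.mem_sup_right h4) (Ideal.mem_sup_left ?_)
      refine Ideal.sum_mem _ (fun l _ => ?_)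
      split_ifs with hl
      · exact Ideal.mul_mem_left _ _ (tr_mem f blk _ p₀ l hl)
      · exact Ideal.zero_mem _
    have h6 := hG _ h5
    rw [map_sub] at h6
    have h7 : du u (∑ a, ∑ c, tr E p₀ (π a c) * pderiv a (b.γ i) * pderiv c (b.γ j)) =
        ∑ a, ∑ c, (tr E p₀ (π a c) * pderiv a (b.γ i) * (pderiv c (du u (b.γ j)) -
            ∑ l, pderiv c (u l) * pderiv l (b.γ j)) +
          pderiv c (b.γ j) * (tr E p₀ (π a c) * (pderiv a (du u (b.γ i)) -
            ∑ l, pderiv a (u l) * pderiv l (b.γ i)) + pderiv a (b.γ i) *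
              du u (tr E p₀ (π a c)))) := by
      rw [map_sum]
      refine Finset.sum_congr rfl (fun a _ => ?_)
      rw [map_sum]
      refine Finset.sum_congr rfl (fun c _ => ?_)
      rw [Derivation.leibniz, Derivation.leibniz, smul_eq_mul, smul_eq_mul, smul_eq_mul,
        smul_eq_mul, hcom, hcom]
    have h8 := ident (fun a c => tr E p₀ (π a c)) (fun a c => du u (tr E p₀ (π a c)))
      (fun a l => pderiv a (u l)) (fun a => pderiv a (b.γ i)) (fun a => pderiv a (b.γ j))
      (fun a => pderiv a (du u (b.γ i))) (fun a => pderiv a (du u (b.γ j)))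
    rw [← h7] at h8
    have h9 : ∑ a, ∑ c, pderiv a (b.γ i) * 𝔡 a c * pderiv c (b.γ j) =
        ∑ a, ∑ c, pderiv a (b.γ i) * (du u (tr E p₀ (π a c)) -
          ∑ l, (pderiv l (u a) * tr E p₀ (π l c) + pderiv l (u c) * tr E p₀ (π a l))) *
            pderiv c (b.γ j) := by
      refine Finset.sum_congr rfl (fun a _ => Finset.sum_congr rfl (fun c _ => ?_))
      rw [du_apply]
    rw [h9, h8]
    have h10 := h3 i j
    have h11 : du u (aeval b.γ (π i j)) - ∑ l, aeval b.γ (pderiv l (π i j)) * r l ∈ G :=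
      Ideal.mem_sup_right (YI_le k (hda (π i j)))
    have h12 : (∑ a, ∑ c, tr E p₀ (π a c) * (pderiv a (du u (b.γ i)) * pderiv c (b.γ j) +
          pderiv a (b.γ i) * pderiv c (du u (b.γ j)))) -
        (∑ a, ∑ c, tr E p₀ (π a c) *
          (pderiv a (r i) * pderiv c (b.γ j) + pderiv a (b.γ i) * pderiv c (r j))) ∈ G := by
      rw [← Finset.sum_sub_distrib]
      refine Ideal.sum_mem _ (fun a _ => ?_)
      rw [← Finset.sum_sub_distrib]
      refine Ideal.sum_mem _ (fun c _ => ?_)
      have h13 : tr E p₀ (π a c) * (pderiv a (du u (b.γ i)) * pderiv c (b.γ j) +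
          pderiv a (b.γ i) * pderiv c (du u (b.γ j))) - tr E p₀ (π a c) *
          (pderiv a (r i) * pderiv c (b.γ j) + pderiv a (b.γ i) * pderiv c (r j)) =
          (tr E p₀ (π a c) * pderiv c (b.γ j)) * (pderiv a (du u (b.γ i)) - pderiv a (r i)) +
          (tr E p₀ (π a c) * pderiv a (b.γ i)) * (pderiv c (du u (b.γ j)) - pderiv c (r j)) := by
        ring
      rw [h13]
      exact Ideal.add_mem _ (Ideal.mul_mem_left _ _ (hpd a i)) (Ideal.mul_mem_left _ _ (hpd c j))
    rw [hq, Ideal.Quotient.eq_zero_iff_mem]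
    have h14 := Ideal.sub_mem _ (Ideal.sub_mem _ (Ideal.add_mem _ h6 h11) h10) h12
    convert h14 using 1
    ring
  -- multiply with the inverse
  obtain ⟨K, hK, -⟩ := hJIN N k E inferInstance b.γ b.inv
  have hm1 : (Matrix.of fun i a => q (K i a)) * (Matrix.of fun a j => q (pderiv j (b.γ a))) = 1 := by
    ext i j
    have h4 : q ((∑ a, K i a * pderiv j (b.γ a)) - if i = j then 1 else 0) = 0 := by
      rw [hq, Ideal.Quotient.eq_zero_iff_mem]
      exact Ideal.mem_sup_right (hK i j)
    rw [map_sub, sub_eq_zero, map_sum] at h4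
    rw [Matrix.mul_apply, Matrix.one_apply]
    simp only [Matrix.of_apply]
    rw [← Finset.sum_congr rfl (fun a _ => map_mul q (K i a) (pderiv j (b.γ a))), h4]
    split_ifs <;> simp
  have hm2 : (Matrix.of fun a j => q (pderiv j (b.γ a))) * (Matrix.of fun a c => q (𝔡 a c)) *
      (Matrix.of fun a j => q (pderiv j (b.γ a))).transpose = 0 := by
    ext i j
    have h4 := hkey i j
    rw [map_sum] at h4
    rw [Matrix.mul_apply, Matrix.zero_apply]
    simp only [Matrix.mul_apply, Matrix.transpose_apply, Matrix.of_apply, Finset.sum_mul]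
    rw [Finset.sum_comm, ← h4]
    refine Finset.sum_congr rfl (fun a _ => ?_)
    rw [map_sum]
    refine Finset.sum_congr rfl (fun c _ => ?_)
    rw [map_mul, map_mul]
  have hm3 : (Matrix.of fun a c => q (𝔡 a c)) = 0 := by
    set Km : Matrix (Fin N) (Fin N) (MvPolynomial (Fin N) E ⧸ G) :=
      Matrix.of fun i a => q (K i a) with hKm
    set Γm : Matrix (Fin N) (Fin N) (MvPolynomial (Fin N) E ⧸ G) :=
      Matrix.of fun a j => q (pderiv j (b.γ a)) with hΓm
    set Dm : Matrix (Fin N) (Fin N) (MvPolynomial (Fin N) E ⧸ G) :=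
      Matrix.of fun a c => q (𝔡 a c) with hDm
    calc Dm = (Km * Γm) * Dm * (Km * Γm).transpose := by
          rw [hm1, Matrix.transpose_one, Matrix.one_mul, Matrix.mul_one]
      _ = Km * (Γm * Dm * Γm.transpose) * Km.transpose := by
          rw [Matrix.transpose_mul]
          simp only [Matrix.mul_assoc]
      _ = 0 := by rw [hm2, Matrix.mul_zero, Matrix.zero_mul]
  intro i j
  have h4 := congrFun (congrFun hm3 i) j
  simp only [Matrix.of_apply, Matrix.zero_apply] at h4
  rw [hq, Ideal.Quotient.eq_zero_iff_mem] at h4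
  exact h4

end Pool.Agent.Lib.MPc9b009.LF
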