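import Pool.Agent.Lib.MP_c9b009_ag.LF.SpecA
import Pool.Agent.Lib.MP_c9b009_ag.LS.GTA
import Pool.Agent.Lib.MP_c9b009_ag.LS.EXD

/-!
# MP_c9b009_ag, row LF, part A, module TRS: tangent vectors are values of vector fields
-/

set_option autoImplicit false

namespace Pool.Agent.Lib.MPc9b009.LF

open MvPolynomial Pool.Agent.Lib.MPc9b009.B5 Pool.Agent.Lib.MPc9b009.OD
  Pool.Agent.Lib.MPc9b009.PS Pool.Agent.Lib.MPc9b009.LS

namespace TRSM

theorem vf_span {N : ℕ} (v : Fin N → PR N) (S : Set (PR N)) (c : Ideal (PR N))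
    (hS : Ideal.span S ≤ c) (h : ∀ q ∈ S, vf v q ∈ c) : ∀ q ∈ Ideal.span S, vf v q ∈ c := by
  intro q hq
  induction hq using Submodule.span_induction with
  | mem x hx => exact h x hx
  | zero =>
    have h0 : vf v 0 = 0 := by simp [vf]
    rw [h0]
    exact Ideal.zero_mem _
  | add x y hx hy h1 h2 =>
    rw [GTAM.vf_add]
    exact Ideal.add_mem _ h1 h2
  | smul a x hx h1 =>
    rw [smul_eq_mul, GTAM.vf_mul]
    exact Ideal.add_mem _ (Ideal.mul_mem_left _ _ h1) (Ideal.mul_mem_right _ _ (hS hx))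

theorem const_pd {N : ℕ} {E : Type} [Field E] (a : Fin N) (q : MvPolynomial (Fin N) E) :
    constantCoeff (pderiv a q) = coeff (Finsupp.single a 1) q := by
  classical
  induction q using MvPolynomial.induction_on' with
  | monomial m c =>
    rw [pderiv_monomial, constantCoeff_eq, coeff_monomial, coeff_monomial]
    by_cases h : m = Finsupp.single a 1
    · subst h
      simp
    · rw [if_neg h]
      by_cases h1 : m - Finsupp.single a 1 = 0
      · rw [if_pos h1]
        have h2 : m a = 0 := by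
          by_contra h3
          apply h
          have h4 : Finsupp.single a 1 ≤ m := by
            rw [Finsupp.single_le_iff]
            omega
          have h5 := tsub_eq_zero_iff_le.1 h1
          exact le_antisymm h5 h4
        rw [h2]
        simp
      · rw [if_neg h1]
  | add p q hp hq => rw [map_add, map_add, coeff_add, hp, hq]

theorem const_tr {N : ℕ} (p : Cn N) (q : PR N) : constantCoeff (tr ℂ p q) = eval p q := by
  have h : (constantCoeff.comp (tr ℂ p : PR N →ₐ[ℂ] MvPolynomial (Fin N) ℂ).toRingHom)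
      = eval p := by
    refine MvPolynomial.ringHom_ext (fun r => ?_) (fun l => ?_)
    · simp [tr]
    · simp [tr]
  exact RingHom.congr_fun h q

theorem gens {N : ℕ} (I : Ideal (PR N)) : ∃ (n : ℕ) (f : Fin n → PR N),
    Ideal.span (Set.range f) = I :=
  Submodule.fg_iff_exists_fin_generating_family.1 (IsNoetherian.noetherian I)

end TRSM

open TRSM

theorem specTRS (hKEB : SpecKEB) (hPTB : SpecPTB) (hWTL : SpecWTL) (hLNC : SpecLNC)
    (hTNG : SpecTNG) (hTGD : SpecTGD) : SpecTRS := by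
  classical
  intro N r I P π V p hIP hP hV hp hmin k t ht
  obtain ⟨m1, fI, hfI⟩ := gens I
  obtain ⟨m2, fP, hfP⟩ := gens P
  let f : Fin m1 ⊕ Fin m2 → PR N := Sum.elim fI fP
  let blk : Fin m1 ⊕ Fin m2 → Bool := Sum.isLeft
  have hbt : Ideal.span (f '' {l | blk l = true}) = I := by
    rw [← hfI]
    congr 1
    ext x
    constructor
    · rintro ⟨(l | l), hl, rfl⟩
      · exact ⟨l, rfl⟩
      · exact absurd hl (by simp [blk])
    · rintro ⟨l, rfl⟩
      exact ⟨Sum.inl l, rfl, rfl⟩
  have hbf : Ideal.span (f '' {l | blk l = false}) = P := by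
    rw [← hfP]
    congr 1
    ext x
    constructor
    · rintro ⟨(l | l), hl, rfl⟩
      · exact absurd hl (by simp [blk])
      · exact ⟨l, rfl⟩
    · rintro ⟨l, rfl⟩
      exact ⟨Sum.inr l, rfl, rfl⟩
  have hbl : ∀ l : Fin m1, bi f blk (Sum.inl l) = I := fun l => hbt
  have hbr : ∀ l : Fin m2, bi f blk (Sum.inr l) = P := fun l => hbf
  have hmI : ∀ l, fI l ∈ I := fun l => hfI ▸ Ideal.subset_span ⟨l, rfl⟩
  have hmP : ∀ l, fP l ∈ P := fun l => hfP ▸ Ideal.subset_span ⟨l, rfl⟩
  haveI := hP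
  obtain ⟨d, hd⟩ := BSTM.nat_trdeg P
  have hG := GTAM.gen_frac P
  obtain ⟨L, iL, aL, φ, hG⟩ : ∃ (L : Type) (_ : Field L) (_ : Algebra ℂ L)
    (φ : PR N →ₐ[ℂ] L), Gen P L φ := ⟨_, _, _, _, hG⟩
  obtain ⟨A, iA, aA, a, hA, haP⟩ := hKEB N (k + 1) r (Fin m1 ⊕ Fin m2) Bool inferInstance
    inferInstance P f blk true π p V hP (fun q hq j => (hV j).2 q hq)
    (by
      rintro j (l | l)
      · rw [hbl]
        exact (hV j).1.1 _ (hmI l)
      · rw [hbr]
        exact (hV j).2 _ (hmP l))
    (by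
      intro c i j
      rw [hbt]
      exact (hV c).1.2 i j) hp hmin
  obtain ⟨L', iL', aL', aLL', b, hST, hfd, hb⟩ := hPTB N (k + 1) (Fin m1 ⊕ Fin m2) Bool
    inferInstance inferInstance P f blk true π p hP L iL aL φ hG A iA aA a hA haP
  obtain ⟨-, htgd, -, -⟩ := hTGD N d P hP hd L iL aL φ hG
  obtain ⟨-, -, h3⟩ := hTNG N k d (Fin m1 ⊕ Fin m2) Bool inferInstance inferInstance P f blk false
    p hP hd hbf hp L iL aL φ hG L' iL' aL' aLL' hST b.toPt hb
  have h4 := h3 t ht
  have h5 : ∀ w ∈ Submodule.span L' {w : Fin N → L' | ∃ s ∈ tsp P φ,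
      w = fun l => algebraMap L L' (s l)},
      ∃ D : Derivation ℂ L' L', ∀ l, D (constantCoeff (b.γ l)) = w l := by
    intro w hw
    induction hw using Submodule.span_induction with
    | mem w hw =>
      obtain ⟨s, hs, rfl⟩ := hw
      obtain ⟨D₀, hD₀⟩ := htgd s hs
      obtain ⟨D', hD'⟩ := specEXD L L' iL iL' aL aL' aLL' hST hfd D₀
      exact ⟨D', fun l => by rw [hb l, hD', hD₀]⟩
    | zero => exact ⟨0, fun l => rfl⟩
    | add x y hx hy h1 h2 =>
      obtain ⟨D1, hD1⟩ := h1
      obtain ⟨D2, hD2⟩ := h2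
      exact ⟨D1 + D2, fun l => by rw [Derivation.add_apply, hD1, hD2, Pi.add_apply]⟩
    | smul c x hx h1 =>
      obtain ⟨D1, hD1⟩ := h1
      exact ⟨c • D1, fun l => by rw [Derivation.smul_apply, hD1, Pi.smul_apply]⟩
  obtain ⟨D, hD⟩ := h5 _ h4
  obtain ⟨u, hu, hu2⟩ := hWTL N k (Fin m1 ⊕ Fin m2) Bool inferInstance inferInstance P f blk true
    π p L' iL' aL' b D
  -- constant terms
  have h6 : (J0 b.γ).mulVec (fun l => constantCoeff (u l)) =
      (J0 b.γ).mulVec (fun l => algebraMap ℂ L' (t l)) := by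
    funext i
    rw [← hD i]
    have h7 := LS.DIFM.const_mem (k + 1) (hu2 i)
    rw [map_sub, sub_eq_zero, map_sum] at h7
    have h8 : constantCoeff (LS.DIFM.dh D (b.γ i)) = D (constantCoeff (b.γ i)) := by
      rw [constantCoeff_eq, LS.DIFM.coeff_dh]
    rw [h8] at h7
    rw [← h7, Matrix.mulVec, dotProduct]
    refine Finset.sum_congr rfl fun l _ => ?_
    rw [map_mul, mul_comm]
    rfl
  have h7 : (fun l => constantCoeff (u l)) = fun l => algebraMap ℂ L' (t l) := by
    have h8 : IsUnit (J0 b.γ) := by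
      rw [Matrix.isUnit_iff_isUnit_det]
      have h9 : J0 b.γ = Matrix.of fun i j => coeff (Finsupp.single j 1) (b.γ i) := by
        ext i j
        exact const_pd j (b.γ i)
      rw [h9]
      exact b.inv
    exact Matrix.mulVec_injective_of_isUnit h8 h6
  obtain ⟨m, e, w, hind, he0, hul, hw⟩ := hLNC N k (Fin m1 ⊕ Fin m2) Bool inferInstance
    inferInstance f blk true π p L' iL' aL' u hu
  have h8 : ∀ l, eval p (w 0 l) = t l := by
    intro l
    have h9 : ∑ α, (eval p (w α l) - if α = 0 then t l else 0) • e α = 0 := by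
      have h10 : constantCoeff (u l) = algebraMap ℂ L' (t l) := congrFun h7 l
      rw [hul l, map_sum] at h10
      have h11 : ∀ α, constantCoeff (C (e α) * MvPolynomial.map (algebraMap ℂ L')
          (tr ℂ p (w α l))) = eval p (w α l) • e α := by
        intro α
        rw [map_mul, constantCoeff_C, constantCoeff_map, const_tr, Algebra.smul_def, mul_comm]
      rw [Finset.sum_congr rfl (fun α _ => h11 α)] at h10
      have h12 : ∑ α, (eval p (w α l) - if α = 0 then t l else 0) • e α =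
          ∑ α, eval p (w α l) • e α - t l • e 0 := by
        simp only [sub_smul, Finset.sum_sub_distrib, ite_smul, zero_smul, Finset.sum_ite_eq',
          Finset.mem_univ, if_true]
      rw [h12, h10, he0, Algebra.smul_def, mul_one, sub_self]
    have h10 := Fintype.linearIndependent_iff.1 hind _ h9 0
    rw [if_pos rfl, sub_eq_zero] at h10
    exact h10
  have hmx : mx p ^ (k + 1) ≤ mx p ^ k := Ideal.pow_le_pow_right (Nat.le_succ k)
  obtain ⟨hw1, hw2⟩ := hw 0
  refine ⟨w 0, ⟨?_, ?_⟩, ?_, h8⟩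
  · intro q hq
    rw [← hfI] at hq
    refine vf_span (w 0) (Set.range fI) (I ⊔ mx p ^ k) (by rw [hfI]; exact le_sup_left) ?_ q hq
    rintro _ ⟨l, rfl⟩
    have h1 := hw1 (Sum.inl l)
    rw [hbl] at h1
    exact sup_le_sup_left hmx I h1
  · intro i j
    have h1 := hw2 i j
    rw [hbt] at h1
    exact sup_le_sup_left hmx I h1
  · intro q hq
    rw [← hfP] at hq
    refine vf_span (w 0) (Set.range fP) (P ⊔ mx p ^ k) (by rw [hfP]; exact le_sup_left) ?_ q hq
    rintro _ ⟨l, rfl⟩
    have h1 := hw1 (Sum.inr l)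
    rw [hbr] at h1
    exact sup_le_sup_left hmx P h1

end Pool.Agent.Lib.MPc9b009.LF
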