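import Pool.Agent.Lib.MP_c9b009_ag.LF.SpecD

/-!
# MP_c9b009_ag, row LF, module UCX: the error terms of the partition of unity cancel (multivalued densities).
# Adapted from `PS/UCL.lean`.
-/

set_option autoImplicit false

namespace Pool.Agent.Lib.MPc9b009.LF

open Pool.Agent.Lib.MPc9b009.PS MeasureTheory

namespace UCXM

variable {N k : ℕ} {M : Set (Cn N)} {T : Cn N → Submodule ℂ (Cn N)}

/-- the vector `A` at the point `c.G y` -/
noncomputable def AX (c : Cht N k M T) (w : Cn k → Cn k) (y : Cn k) : Cn N := fderiv ℂ c.G y (w y)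

lemma contA (c : Cht N k M T) (w : Cn k → Cn k) (hw : ContDiffOn ℂ 1 w c.B) :
    ContinuousOn (AX c w) c.B := by
  have h1 : ContinuousOn (fderiv ℂ c.G) c.B :=
    c.sm.continuousOn_fderiv_of_isOpen c.oB (by norm_num)
  exact h1.clm_apply hw.continuousOn

lemma cont_VVX (f : ℝ → ℝ) (χm χl : Cn N → ℝ) (hf : Continuous f) (hm : Continuous χm)
    (hl : ContDiff ℝ 1 χl) (c : Cht N k M T) (w : Cn k → Cn k) (hw : ContDiffOn ℂ 1 w c.B) :
    ContinuousOn (fun y => UCLM.VV f χm χl (c.G y) (AX c w y)) c.B := by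
  have h1 : Continuous fun z : Cn N × Cn N => UCLM.VV f χm χl z.1 z.2 := by
    unfold UCLM.VV
    refine Continuous.mul ?_ (UCLM.cont_HH χl hl)
    exact Complex.continuous_ofReal.comp
      ((hm.comp continuous_fst).mul (hf.comp (HLMM.cont_r.comp continuous_fst)))
  exact h1.comp_continuousOn ((HLMM.contG c).prodMk (contA c w hw))

/-- `VV` is integrable in the chart of the support of one of the two functions -/
lemma int_VVX (f : ℝ → ℝ) (χm χl : Cn N → ℝ) (s : ℝ) (hs : 0 < s) (hcl : IsClosed (insert 0 M))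
    (hf : Continuous f) (hfs : ∀ t, f t ≠ 0 → s < t ∧ t < 4 * s) (hm : Continuous χm)
    (hl : ContDiff ℝ 1 χl) (c : Cht N k M T) (w : Cn k → Cn k) (hw : ContDiffOn ℂ 1 w c.B)
    (χ : Cn N → ℝ) (hχ : χ = χm ∨ χ = χl) (hW : tsupport χ ⊆ c.W) :
    IntegrableOn (fun y => UCLM.VV f χm χl (c.G y) (AX c w y)) c.B := by
  have hKM : HLMM.KK M χ s ⊆ M := HLMM.KK_sub χ s hs
  have hKW : HLMM.KK M χ s ⊆ c.W := fun z hz => hW hz.1
  refine UCLM.integrableOn_suppC c.oB
    (HLMM.compact_pre c _ (HLMM.KK_compact χ s hs hcl) hKM hKW) (fun y hy => hy.1) _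
    (cont_VVX f χm χl hf hm hl c w hw) ?_
  intro y hy hny
  by_contra hne
  apply hny
  have h2 : f (∑ j, ‖(c.G y) j‖ ^ 2) ≠ 0 := by
    intro h
    apply hne
    unfold UCLM.VV
    rw [h, mul_zero, Complex.ofReal_zero, zero_mul]
  have h1 : c.G y ∈ tsupport χ := by
    by_contra h
    apply hne
    rcases hχ with h3 | h3
    · have h4 : χm (c.G y) = 0 := by
        rw [← h3]
        exact image_eq_zero_of_notMem_tsupport h
      unfold UCLM.VV
      rw [h4, zero_mul, Complex.ofReal_zero, zero_mul]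
    · rw [h3] at h
      unfold UCLM.VV UCLM.HH
      rw [UCLM.Dbar_off χl _ _ h, mul_zero, mul_zero]
  exact ⟨hy, h1, Or.inr (c.mem y hy).1, (hfs _ h2).1.le, (hfs _ h2).2.le⟩

end UCXM

open UCXM UCLM in
theorem specUCX (hCHY : SpecCHY) : SpecUCX := by
  intro N k M T hC hcl D s f n j χ hs hf hfs hχ hχW hχ1
  classical
  -- step 1
  have h1 : ∀ l, ∫ y in (D.c (j l)).B, ((f (∑ i, ‖(D.c (j l)).G y i‖ ^ 2) : ℝ) : ℂ) *
      (her (AX (D.c (j l)) (D.w (j l)) y) ((D.c (j l)).G y) *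
        Dbar (fun x => ((χ l x : ℝ) : ℂ)) ((D.c (j l)).G y) (bet ((D.c (j l)).G y) (AX (D.c (j l)) (D.w (j l)) y))) =
      ∑ m, ∫ y in (D.c (j l)).B, VV f (χ m) (χ l) ((D.c (j l)).G y) (AX (D.c (j l)) (D.w (j l)) y) := by
    intro l
    rw [← integral_finsetSum _ fun m _ => int_VVX f (χ m) (χ l) s hs hcl hf.continuous hfs
      (hχ m).continuous (hχ l) (D.c (j l)) (D.w (j l)) (D.sm (j l)) (χ l) (Or.inr rfl) (hχW l)]
    refine setIntegral_congr_fun (D.c (j l)).oB.measurableSet fun y hy => ?_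
    have h2 : ∑ m, VV f (χ m) (χ l) ((D.c (j l)).G y) (AX (D.c (j l)) (D.w (j l)) y) =
        (((∑ m, χ m ((D.c (j l)).G y)) * f (∑ i, ‖(D.c (j l)).G y i‖ ^ 2) : ℝ) : ℂ) *
          HH (χ l) ((D.c (j l)).G y) (AX (D.c (j l)) (D.w (j l)) y) := by
      unfold VV
      push_cast
      rw [Finset.sum_mul, Finset.sum_mul]
    show _ = ∑ m, VV f (χ m) (χ l) ((D.c (j l)).G y) (AX (D.c (j l)) (D.w (j l)) y)
    rw [h2]
    by_cases h3 : f (∑ i, ‖(D.c (j l)).G y i‖ ^ 2) = 0
    · rw [h3]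
      simp
    · rw [hχ1 _ ((D.c (j l)).mem y hy).1 (hfs _ h3).1.le (hfs _ h3).2.le, one_mul]
      rfl
  -- step 2
  have h2 : ∀ l m, ∫ y in (D.c (j l)).B, VV f (χ m) (χ l) ((D.c (j l)).G y) (AX (D.c (j l)) (D.w (j l)) y) =
      ∫ y in (D.c (j m)).B, VV f (χ m) (χ l) ((D.c (j m)).G y) (AX (D.c (j m)) (D.w (j m)) y) := by
    intro l m
    set ρ : Cn N → ℂ := fun x => if x ∈ tsupport (χ l) then
      ((χ m x * f (∑ i, ‖x i‖ ^ 2) : ℝ) : ℂ) else 0 with hρ
    have h3 : ∀ x A, ρ x * HH (χ l) x A = VV f (χ m) (χ l) x A := by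
      intro x A
      by_cases hx : x ∈ tsupport (χ l)
      · rw [hρ]
        simp only [if_pos hx]
        rfl
      · rw [hρ]
        simp only [if_neg hx]
        unfold VV HH
        rw [Dbar_off (χ l) _ _ hx, mul_zero, mul_zero, mul_zero]
    have h4 := hCHY N k M T hC (D.c (j l)) (D.c (j m)) (D.w (j l)) (D.w (j m)) (D.tr (j l) (j m)) ρ (HH (χ l)) ?_ (fun x A t => HH_smul (χ l) x A t)
    · simp only [h3] at h4
      exact h4
    · intro x _ hx
      have h5 : x ∈ tsupport (χ l) := by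
        by_contra h
        apply hx
        rw [hρ]
        simp only [if_neg h]
      have h6 : χ m x ≠ 0 := by
        intro h
        apply hx
        rw [hρ]
        simp only [if_pos h5]
        rw [h, zero_mul, Complex.ofReal_zero]
      exact ⟨hχW l h5, hχW m (subset_tsupport _ h6)⟩
  -- step 3
  have h3 : ∀ m, ∑ l, ∫ y in (D.c (j m)).B, VV f (χ m) (χ l) ((D.c (j m)).G y) (AX (D.c (j m)) (D.w (j m)) y) = 0 := by
    intro m
    rw [← integral_finsetSum _ fun l _ => int_VVX f (χ m) (χ l) s hs hcl hf.continuous hfs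
      (hχ m).continuous (hχ l) (D.c (j m)) (D.w (j m)) (D.sm (j m)) (χ m) (Or.inl rfl) (hχW m)]
    have h4 : ∫ y in (D.c (j m)).B, (∑ l, VV f (χ m) (χ l) ((D.c (j m)).G y) (AX (D.c (j m)) (D.w (j m)) y)) =
        ∫ y in (D.c (j m)).B, (0 : ℂ) := by
      refine setIntegral_congr_fun (D.c (j m)).oB.measurableSet fun y hy => ?_
      show ∑ l, VV f (χ m) (χ l) ((D.c (j m)).G y) (AX (D.c (j m)) (D.w (j m)) y) = 0
      set x := (D.c (j m)).G y with hx
      set A := AX (D.c (j m)) (D.w (j m)) y with hA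
      have h5 : ∑ l, VV f (χ m) (χ l) x A = ((χ m x * f (∑ i, ‖x i‖ ^ 2) : ℝ) : ℂ) *
          (her A x * ∑ l, Dbar (fun x => ((χ l x : ℝ) : ℂ)) x (bet x A)) := by
        unfold VV HH
        rw [← Finset.mul_sum, ← Finset.mul_sum]
      rw [h5]
      by_cases h6 : f (∑ i, ‖x i‖ ^ 2) = 0
      · rw [h6, mul_zero, Complex.ofReal_zero, zero_mul]
      · have h7 := hfs _ h6
        -- the vector
        obtain ⟨η, hη⟩ : ∃ η, bet x A = fderiv ℂ (D.c (j m)).G y η := by
          refine ⟨her A x • y - her x x • D.w (j m) y, ?_⟩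
          rw [map_sub, map_smul, map_smul, (PS.specBAS N k M T hC (D.c (j m)) y hy).2.1]
          rfl
        have hGd : HasFDerivAt (D.c (j m)).G (fderiv ℂ (D.c (j m)).G y) y :=
          (((D.c (j m)).sm.differentiableOn (by norm_num)).differentiableAt
            ((D.c (j m)).oB.mem_nhds hy)).hasFDerivAt
        have hGr : HasFDerivAt (D.c (j m)).G ((fderiv ℂ (D.c (j m)).G y).restrictScalars ℝ) y :=
          hGd.restrictScalars ℝ
        have hχd : ∀ l, DifferentiableAt ℝ (fun x => ((χ l x : ℝ) : ℂ)) x := fun l =>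
          ((Complex.ofRealCLM.contDiff.comp (hχ l)).differentiable one_ne_zero) x
        have h8 : ∀ v : Cn k, ∑ l, fderiv ℝ (fun x => ((χ l x : ℝ) : ℂ)) x
            (fderiv ℂ (D.c (j m)).G y v) = 0 := by
          have h9 : HasFDerivAt (fun z => ∑ l, ((χ l ((D.c (j m)).G z) : ℝ) : ℂ))
              (∑ l, (fderiv ℝ (fun x => ((χ l x : ℝ) : ℂ)) x).comp
                ((fderiv ℂ (D.c (j m)).G y).restrictScalars ℝ)) y := by
            refine HasFDerivAt.fun_sum fun l _ => ?_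
            exact (hχd l).hasFDerivAt.comp y hGr
          have h10 : (fun z => ∑ l, ((χ l ((D.c (j m)).G z) : ℝ) : ℂ)) =ᶠ[nhds y] fun _ => 1 := by
            have h11 : ContinuousAt (fun z => ∑ i, ‖(D.c (j m)).G z i‖ ^ 2) y :=
              HLMM.cont_r.continuousAt.comp hGd.continuousAt
            have h12 := h11.eventually (Ioo_mem_nhds h7.1 h7.2)
            filter_upwards [h12, (D.c (j m)).oB.mem_nhds hy] with z hz hzB
            have h13 := hχ1 _ ((D.c (j m)).mem z hzB).1 hz.1.le hz.2.le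
            rw [← Complex.ofReal_sum, h13, Complex.ofReal_one]
          have h14 : HasFDerivAt (fun z => ∑ l, ((χ l ((D.c (j m)).G z) : ℝ) : ℂ))
              (0 : Cn k →L[ℝ] ℂ) y := by
            have h15 : HasFDerivAt (fun _ : Cn k => (1 : ℂ)) (0 : Cn k →L[ℝ] ℂ) y :=
              hasFDerivAt_const 1 y
            exact h15.congr_of_eventuallyEq h10
          have h16 := h9.unique h14
          intro v
          have h17 := congrArg (fun L : Cn k →L[ℝ] ℂ => L v) h16
          simpa using h17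
        have h18 : ∑ l, Dbar (fun x => ((χ l x : ℝ) : ℂ)) x (bet x A) = 0 := by
          rw [hη]
          unfold Dbar
          rw [← Finset.sum_div, Finset.sum_add_distrib, ← Finset.mul_sum]
          have h19 : Complex.I • fderiv ℂ (D.c (j m)).G y η = fderiv ℂ (D.c (j m)).G y (Complex.I • η) := by
            rw [map_smul]
          rw [h19, h8, h8]
          simp
        rw [h18, mul_zero, mul_zero]
    rw [h4]
    simp
  calc _ = ∑ l, ∑ m, ∫ y in (D.c (j l)).B, VV f (χ m) (χ l) ((D.c (j l)).G y) (AX (D.c (j l)) (D.w (j l)) y) :=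
        Finset.sum_congr rfl fun l _ => h1 l
    _ = ∑ l, ∑ m, ∫ y in (D.c (j m)).B, VV f (χ m) (χ l) ((D.c (j m)).G y) (AX (D.c (j m)) (D.w (j m)) y) :=
        Finset.sum_congr rfl fun l _ => Finset.sum_congr rfl fun m _ => h2 l m
    _ = ∑ m, ∑ l, ∫ y in (D.c (j m)).B, VV f (χ m) (χ l) ((D.c (j m)).G y) (AX (D.c (j m)) (D.w (j m)) y) :=
        Finset.sum_comm
    _ = 0 := Finset.sum_eq_zero fun m _ => h3 m

end Pool.Agent.Lib.MPc9b009.LF
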