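import Pool.Agent.Lib.MP_c9b009_ag.LF.SpecD
import Mathlib.Analysis.Calculus.InverseFunctionTheorem.ContDiff

/-!
# MP_c9b009_ag, row LF, module VCU: the quotient of the volume form by the equation of a transversal hyperplane
-/

set_option autoImplicit false

namespace Pool.Agent.Lib.MPc9b009.LF

open MvPolynomial Pool.Agent.Lib.MPc9b009.B5 Pool.Agent.Lib.MPc9b009.OD
  Pool.Agent.Lib.MPc9b009.PS Pool.Agent.Lib.MPc9b009.LS MeasureTheory Filter Topology

namespace VCUM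

open CUTM BASM

variable {N k e : ℕ} {M : Set (Cn N)} {T : Cn N → Submodule ℂ (Cn N)}

/-! ### the determinant -/

theorem det_upd (m : Fin (k + 1)) (r : Fin (k + 1) → ℂ) :
    (Matrix.updateRow (1 : Matrix (Fin (k + 1)) (Fin (k + 1)) ℂ) m r).det = r m := by
  have h := Matrix.cramer_transpose_apply (1 : Matrix (Fin (k + 1)) (Fin (k + 1)) ℂ) r m
  rw [Matrix.transpose_one, Matrix.cramer_one] at h
  exact h.symm

theorem det_lem (P : Matrix (Fin (k + 1)) (Fin (k + 1)) ℂ) (d1 d2 : Fin (k + 1) → ℂ)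
    (m1 m2 : Fin (k + 1)) (hd1 : d1 m1 ≠ 0) (h : ∀ j, ∑ a, d2 a * P a j = d1 j)
    (P' : Matrix (Fin k) (Fin k) ℂ)
    (hP' : ∀ a b, P' a b = P (m2.succAbove a) (m1.succAbove b) -
      d1 (m1.succAbove b) / d1 m1 * P (m2.succAbove a) m1) :
    d2 m2 * P.det = (-1) ^ ((m2 : ℕ) + (m1 : ℕ)) * P'.det * d1 m1 := by
  obtain ⟨R, hR⟩ : ∃ R : Matrix (Fin (k + 1)) (Fin (k + 1)) ℂ, R = Matrix.of
    (fun i j => m2.insertNth (α := fun _ => ℂ)
      (if j = m1 then 1 else 0)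
      (fun a => m1.insertNth (α := fun _ => ℂ) (P (m2.succAbove a) m1 / d1 m1) (fun b => P' a b) j)
      i) := ⟨_, rfl⟩
  have hR0 : ∀ j, R m2 j = if j = m1 then 1 else 0 := by
    intro j
    rw [hR]
    simp
  have hR1 : ∀ a, R (m2.succAbove a) m1 = P (m2.succAbove a) m1 / d1 m1 := by
    intro a
    rw [hR]
    simp
  have hR2 : ∀ a b, R (m2.succAbove a) (m1.succAbove b) = P' a b := by
    intro a b
    rw [hR]
    simp
  have hdR : R.det = (-1) ^ ((m2 : ℕ) + (m1 : ℕ)) * P'.det := by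
    rw [Matrix.det_succ_row R m2, Finset.sum_eq_single m1]
    · rw [hR0, if_pos rfl, mul_one]
      congr 2
      ext a b
      exact hR2 a b
    · intro j _ hj
      rw [hR0, if_neg hj]
      ring
    · intro h
      exact absurd (Finset.mem_univ _) h
  have hmul : Matrix.updateRow (1 : Matrix (Fin (k + 1)) (Fin (k + 1)) ℂ) m2 d2 * P =
      R * Matrix.updateRow (1 : Matrix (Fin (k + 1)) (Fin (k + 1)) ℂ) m1 d1 := by
    have hrow1 : ∀ l : Fin (k + 1), ∀ j, l ≠ m1 →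
        Matrix.updateRow (1 : Matrix (Fin (k + 1)) (Fin (k + 1)) ℂ) m1 d1 l j =
          if l = j then 1 else 0 := by
      intro l j hl
      rw [Matrix.updateRow_ne hl, Matrix.one_apply]
    ext i j
    rw [Matrix.mul_apply, Matrix.mul_apply]
    refine m2.succAboveCases ?_ (fun a => ?_) i
    · rw [Matrix.updateRow_self, h j, Finset.sum_eq_single m1]
      · rw [hR0, if_pos rfl, one_mul, Matrix.updateRow_self]
      · intro l _ hl
        rw [hR0, if_neg hl, zero_mul]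
      · intro h
        exact absurd (Finset.mem_univ _) h
    · rw [Matrix.updateRow_ne (Fin.succAbove_ne m2 a), Finset.sum_eq_single (m2.succAbove a)]
      · rw [Matrix.one_apply_eq, one_mul, Fin.sum_univ_succAbove _ m1, hR1, Matrix.updateRow_self]
        refine m1.succAboveCases ?_ (fun b => ?_) j
        · rw [Finset.sum_eq_zero, add_zero, div_mul_cancel₀ _ hd1]
          intro b _
          rw [hrow1 _ _ (Fin.succAbove_ne m1 b), if_neg (Fin.succAbove_ne m1 b), mul_zero]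
        · rw [Finset.sum_eq_single b]
          · rw [hR2, hrow1 _ _ (Fin.succAbove_ne m1 b), if_pos rfl, hP']
            field_simp
            ring
          · intro b' _ hb'
            rw [hrow1 _ _ (Fin.succAbove_ne m1 b'), if_neg, mul_zero]
            intro h'
            exact hb' (Fin.succAbove_right_injective h')
          · intro h
            exact absurd (Finset.mem_univ _) h
      · intro l _ hl
        rw [Matrix.one_apply_ne (Ne.symm hl), zero_mul]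
      · intro h
        exact absurd (Finset.mem_univ _) h
  have h1 := congrArg Matrix.det hmul
  rw [Matrix.det_mul, Matrix.det_mul, det_upd, det_upd, hdR] at h1
  exact h1

/-! ### charts of the section (copy of PS/CUT) -/

theorem chart' {M : Set (Cn N)} {T : Cn N → Submodule ℂ (Cn N)}
    (c : Cn N) (hc : ∀ x ∈ M, x ∈ hyp c → ¬ T x ≤ hyp c) (Q : Cht N (k + 1) M T)
    (hdim : ∀ y ∈ Q.B, Module.finrank ℂ (T (Q.G y)) = k + 1)
    (x₀ : Cn N) (hx₀ : x₀ ∈ M) (hW : x₀ ∈ Q.W) (h0 : x₀ ∈ hyp c) :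
    ∃ (c' : Cht N k {x | x ∈ M ∧ x ∈ hyp c} (fun x => T x ⊓ hyp c)) (m : Fin (k + 1))
      (Y : Cn k → Cn (k + 1)), x₀ ∈ c'.W ∧ ContDiffOn ℂ 3 Y c'.B ∧
      (∀ a, c'.I a = Q.I (m.succAbove a)) ∧ (∀ y ∈ c'.B, Y y ∈ Q.B) ∧
      (∀ y ∈ c'.B, c'.G y = Q.G (Y y)) ∧ (∀ y ∈ c'.B, ∀ a, Y y (m.succAbove a) = y a) ∧
      ∀ y ∈ c'.B, LL c (fderiv ℂ Q.G (Y y) (Pi.single m 1)) ≠ 0 := by
  classical
  obtain ⟨hy₀, hGy₀⟩ := Q.inv x₀ hx₀ hW
  obtain ⟨y₀, hy₀e⟩ : ∃ y₀ : Cn (k + 1), y₀ = fun m => x₀ (Q.I m) := ⟨_, rfl⟩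
  rw [← hy₀e] at hy₀ hGy₀
  have hGc : ∀ y ∈ Q.B, ContDiffAt ℂ 3 Q.G y := fun y hy => Q.sm.contDiffAt (Q.oB.mem_nhds hy)
  have hGd : ∀ y ∈ Q.B, HasFDerivAt Q.G (fderiv ℂ Q.G y) y := fun y hy =>
    ((hGc y hy).differentiableAt (by norm_num)).hasFDerivAt
  -- the coordinate
  have hex : ∃ m : Fin (k + 1), LL c (fderiv ℂ Q.G y₀ (Pi.single m 1)) ≠ 0 := by
    by_contra hne
    push Not at hne
    refine hc x₀ hx₀ h0 ?_
    have h1 := Q.tan y₀ hy₀
    rw [hGy₀] at h1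
    rw [← h1]
    rintro _ ⟨v, rfl⟩
    rw [mem_hyp]
    show LL c (fderiv ℂ Q.G y₀ v) = 0
    have h2 : v = ∑ j, v j • (Pi.single j 1 : Cn (k + 1)) := by
      conv_lhs => rw [← Finset.univ_sum_single v]
      refine Finset.sum_congr rfl fun j _ => ?_
      rw [← Pi.single_smul, smul_eq_mul, mul_one]
    rw [h2, map_sum, map_sum]
    refine Finset.sum_eq_zero fun j _ => ?_
    rw [map_smul, map_smul, hne j, smul_zero]
  obtain ⟨m, hm⟩ := hex
  -- the map `Θ`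
  obtain ⟨Θ, hΘ⟩ : ∃ Θ : Cn (k + 1) → Cn (k + 1), Θ = fun y j => if j = m then LL c (Q.G y) else y j :=
    ⟨_, rfl⟩
  have hΘm : ∀ y, Θ y m = LL c (Q.G y) := by
    intro y
    rw [hΘ]
    exact if_pos rfl
  have hΘs : ∀ y a, Θ y (m.succAbove a) = y (m.succAbove a) := by
    intro y a
    rw [hΘ]
    exact if_neg (Fin.succAbove_ne m a)
  have hΘc : ∀ y ∈ Q.B, ContDiffAt ℂ 3 Θ y := by
    intro y hy
    rw [contDiffAt_pi]
    intro j
    rw [hΘ]
    by_cases hj : j = m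
    · simp only [if_pos hj]
      exact (LL c).contDiff.contDiffAt.comp y (hGc y hy)
    · simp only [if_neg hj]
      exact (ContinuousLinearMap.proj j : Cn (k + 1) →L[ℂ] ℂ).contDiff.contDiffAt
  have hΘd : ∀ y ∈ Q.B, HasFDerivAt Θ (TT m ((LL c).comp (fderiv ℂ Q.G y))) y := by
    intro y hy
    rw [hasFDerivAt_pi']
    intro j
    rw [hΘ]
    by_cases hj : j = m
    · simp only [if_pos hj]
      have h1 : HasFDerivAt (fun y => LL c (Q.G y)) ((LL c).comp (fderiv ℂ Q.G y)) y :=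
        (LL c).hasFDerivAt.comp y (hGd y hy)
      refine h1.congr_fderiv ?_
      ext v : 1
      show _ = (if j = m then (LL c).comp (fderiv ℂ Q.G y) else ContinuousLinearMap.proj j :
        Cn (k + 1) →L[ℂ] ℂ) v
      rw [if_pos hj]
    · simp only [if_neg hj]
      have h1 : HasFDerivAt (fun y : Cn (k + 1) => y j)
          (ContinuousLinearMap.proj j : Cn (k + 1) →L[ℂ] ℂ) y :=
        (ContinuousLinearMap.proj j : Cn (k + 1) →L[ℂ] ℂ).hasFDerivAt
      refine h1.congr_fderiv ?_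
      ext v : 1
      show _ = (if j = m then (LL c).comp (fderiv ℂ Q.G y) else ContinuousLinearMap.proj j :
        Cn (k + 1) →L[ℂ] ℂ) v
      rw [if_neg hj]
  -- the good set
  obtain ⟨B₁, hB₁e⟩ : ∃ B₁ : Set (Cn (k + 1)), B₁ = Q.B ∩
    (fun y => LL c (fderiv ℂ Q.G y (Pi.single m 1))) ⁻¹' {0}ᶜ := ⟨_, rfl⟩
  have hB₁ : IsOpen B₁ := by
    rw [hB₁e]
    refine ContinuousOn.isOpen_inter_preimage ?_ Q.oB isOpen_compl_singleton
    have h1 : ContinuousOn (fderiv ℂ Q.G) Q.B :=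
      Q.sm.continuousOn_fderiv_of_isOpen Q.oB (by norm_num)
    exact (LL c).continuous.comp_continuousOn (h1.clm_apply continuousOn_const)
  have hB₁B : ∀ y ∈ B₁, y ∈ Q.B := by
    intro y hy
    rw [hB₁e] at hy
    exact hy.1
  have hy₀B₁ : y₀ ∈ B₁ := by
    rw [hB₁e]
    exact ⟨hy₀, hm⟩
  have hE : ∀ y ∈ B₁, ∃ E : Cn (k + 1) ≃L[ℂ] Cn (k + 1),
      HasFDerivAt Θ (E : Cn (k + 1) →L[ℂ] Cn (k + 1)) y := by
    intro y hy
    rw [hB₁e] at hy
    obtain ⟨E, hE⟩ := TT_inv m ((LL c).comp (fderiv ℂ Q.G y)) hy.2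
    refine ⟨E, ?_⟩
    rw [hE]
    exact hΘd y hy.1
  obtain ⟨E₀, hE₀⟩ := hE y₀ hy₀B₁
  -- the local inverse
  obtain ⟨e, heΘ, hes, hesB⟩ : ∃ e : OpenPartialHomeomorph (Cn (k + 1)) (Cn (k + 1)),
      (∀ y, e y = Θ y) ∧ y₀ ∈ e.source ∧ e.source ⊆ B₁ := by
    refine ⟨((hΘc y₀ hy₀).toOpenPartialHomeomorph Θ hE₀ (by norm_num)).restrOpen B₁ hB₁, ?_, ?_, ?_⟩
    · intro y
      rfl
    · rw [OpenPartialHomeomorph.restrOpen_source]
      exact ⟨(hΘc y₀ hy₀).mem_toOpenPartialHomeomorph_source hE₀ (by norm_num), hy₀B₁⟩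
    · rw [OpenPartialHomeomorph.restrOpen_source]
      exact Set.inter_subset_right
  have hsym : ∀ z ∈ e.target, ContDiffAt ℂ 3 e.symm z := by
    intro z hz
    have h1 := hesB (e.map_target hz)
    obtain ⟨E, hE1⟩ := hE _ h1
    have h2 : (e : Cn (k + 1) → Cn (k + 1)) = Θ := funext heΘ
    refine e.contDiffAt_symm hz (f₀' := E) ?_ ?_
    · rw [h2]
      exact hE1
    · rw [h2]
      exact hΘc _ (hB₁B _ h1)
  have hright : ∀ z ∈ e.target, Θ (e.symm z) = z := by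
    intro z hz
    rw [← heΘ]
    exact e.right_inv hz
  have hGm : ∀ y' : Cn k, ins m y' ∈ e.target → LL c (Q.G (e.symm (ins m y'))) = 0 := by
    intro y' hy'
    rw [← hΘm, hright _ hy', ins_same]
  have hco : ∀ y' : Cn k, ins m y' ∈ e.target → ∀ a,
      Q.G (e.symm (ins m y')) (Q.I (m.succAbove a)) = y' a := by
    intro y' hy' a
    rw [Q.co _ (hB₁B _ (hesB (e.map_target hy'))), ← hΘs (e.symm (ins m y')) a, hright _ hy',
      ins_succ]
  have hB'o : IsOpen {y' : Cn k | ins m y' ∈ e.target} :=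
    e.open_target.preimage (ins m).continuous
  have hsm : ∀ y' : Cn k, ins m y' ∈ e.target →
      ContDiffAt ℂ 3 (fun y' : Cn k => Q.G (e.symm (ins m y'))) y' := by
    intro y' hy'
    have h1 : ContDiffAt ℂ 3 (fun y' : Cn k => e.symm (ins m y')) y' :=
      (hsym _ hy').comp y' (ins m).contDiff.contDiffAt
    exact (hGc _ (hB₁B _ (hesB (e.map_target hy')))).comp y' h1
  refine ⟨{ I := fun a => Q.I (m.succAbove a)
            W := {z | z ∈ Q.W ∧ (fun m => z (Q.I m)) ∈ e.source}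
            B := {y' | ins m y' ∈ e.target}
            G := fun y' => Q.G (e.symm (ins m y'))
            oW := ?_
            oB := hB'o
            sm := fun y' hy' => (hsm y' hy').contDiffWithinAt
            mem := ?_
            co := fun y' hy' a => hco y' hy' a
            inv := ?_
            tan := ?_ }, m, fun y' => e.symm (ins m y'), ?_, ?_, ?_, ?_, ?_, ?_, ?_⟩
  · exact Q.oW.inter (e.open_source.preimage (by fun_prop))
  · intro y' hy'
    have h1 := e.map_target hy'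
    have h2 := hB₁B _ (hesB h1)
    obtain ⟨h3, h4⟩ := Q.mem _ h2
    refine ⟨⟨h3, hGm y' hy'⟩, h4, ?_⟩
    have h5 : (fun j => Q.G (e.symm (ins m y')) (Q.I j)) = e.symm (ins m y') := by
      funext j
      exact Q.co _ h2 j
    show (fun j => Q.G (e.symm (ins m y')) (Q.I j)) ∈ e.source
    rw [h5]
    exact h1
  · rintro z ⟨hzM, hzc⟩ ⟨hzW, hzs⟩
    obtain ⟨h1, h2⟩ := Q.inv z hzM hzW
    have h3 : ins m (fun a => z (Q.I (m.succAbove a))) = Θ (fun m => z (Q.I m)) := by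
      funext j
      refine m.succAboveCases ?_ (fun a => ?_) j
      · rw [ins_same, hΘm, h2]
        exact hzc.symm
      · rw [ins_succ, hΘs]
    have h4 : ins m (fun a => z (Q.I (m.succAbove a))) ∈ e.target := by
      rw [h3, ← heΘ]
      exact e.map_source hzs
    refine ⟨h4, ?_⟩
    show Q.G (e.symm (ins m (fun a => z (Q.I (m.succAbove a))))) = z
    rw [h3, ← heΘ, e.left_inv hzs, h2]
  · intro y' hy'
    have hu := e.map_target hy'
    have huB := hB₁B _ (hesB hu)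
    have hd : HasFDerivAt (fun y' : Cn k => Q.G (e.symm (ins m y')))
        (fderiv ℂ (fun y' : Cn k => Q.G (e.symm (ins m y'))) y') y' :=
      ((hsm y' hy').differentiableAt (by norm_num)).hasFDerivAt
    -- the chain rule
    have h1 : HasFDerivAt (fun y' : Cn k => e.symm (ins m y'))
        ((fderiv ℂ e.symm (ins m y')).comp (ins m)) y' :=
      (((hsym _ hy').differentiableAt (by norm_num)).hasFDerivAt).comp y' (ins m).hasFDerivAt
    have h2 : HasFDerivAt (fun y' : Cn k => Q.G (e.symm (ins m y')))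
        ((fderiv ℂ Q.G (e.symm (ins m y'))).comp ((fderiv ℂ e.symm (ins m y')).comp (ins m))) y' :=
      (hGd _ huB).comp y' h1
    have h3 := hd.unique h2
    -- the range is in `T`
    have hle : LinearMap.range (fderiv ℂ (fun y' : Cn k => Q.G (e.symm (ins m y'))) y').toLinearMap ≤
        T (Q.G (e.symm (ins m y'))) ⊓ hyp c := by
      refine le_inf ?_ ?_
      · rw [← Q.tan _ huB, h3]
        rintro _ ⟨v, rfl⟩
        exact ⟨fderiv ℂ e.symm (ins m y') (ins m v), rfl⟩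
      · rintro _ ⟨v, rfl⟩
        rw [mem_hyp]
        have h4 : HasFDerivAt (fun y' : Cn k => LL c (Q.G (e.symm (ins m y'))))
            ((LL c).comp (fderiv ℂ (fun y' : Cn k => Q.G (e.symm (ins m y'))) y')) y' :=
          (LL c).hasFDerivAt.comp y' hd
        have h5 : HasFDerivAt (fun _ : Cn k => (0 : ℂ)) (0 : Cn k →L[ℂ] ℂ) y' :=
          hasFDerivAt_const _ _
        have h6 : (fun y' : Cn k => LL c (Q.G (e.symm (ins m y')))) =ᶠ[𝓝 y']
            fun _ : Cn k => (0 : ℂ) := by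
          filter_upwards [hB'o.mem_nhds hy'] with z hz
          exact hGm z hz
        have h7 := h4.unique (h5.congr_of_eventuallyEq h6)
        exact congrArg (fun A : Cn k →L[ℂ] ℂ => A v) h7
    -- injectivity
    have hinj : Function.Injective
        (fderiv ℂ (fun y' : Cn k => Q.G (e.symm (ins m y'))) y').toLinearMap := by
      intro v v' hvv
      funext a
      have h4 : HasFDerivAt (fun y' : Cn k => Q.G (e.symm (ins m y')) (Q.I (m.succAbove a)))
          ((ContinuousLinearMap.proj (Q.I (m.succAbove a)) : Cn N →L[ℂ] ℂ).comp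
            (fderiv ℂ (fun y' : Cn k => Q.G (e.symm (ins m y'))) y')) y' :=
        (ContinuousLinearMap.proj (Q.I (m.succAbove a)) : Cn N →L[ℂ] ℂ).hasFDerivAt.comp y' hd
      have h5 : HasFDerivAt (fun z : Cn k => z a) (ContinuousLinearMap.proj a : Cn k →L[ℂ] ℂ) y' :=
        (ContinuousLinearMap.proj a : Cn k →L[ℂ] ℂ).hasFDerivAt
      have h6 : (fun y' : Cn k => Q.G (e.symm (ins m y')) (Q.I (m.succAbove a))) =ᶠ[𝓝 y']
          fun z : Cn k => z a := by
        filter_upwards [hB'o.mem_nhds hy'] with z hz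
        exact hco z hz a
      have h7 := h4.unique (h5.congr_of_eventuallyEq h6)
      have h8 : ∀ w : Cn k, (fderiv ℂ (fun y' : Cn k => Q.G (e.symm (ins m y'))) y') w
          (Q.I (m.succAbove a)) = w a := fun w => congrArg (fun A : Cn k →L[ℂ] ℂ => A w) h7
      rw [← h8 v, ← h8 v']
      exact congrFun hvv _
    refine Submodule.eq_of_le_of_finrank_le hle ?_
    rw [LinearMap.finrank_range_of_inj hinj]
    have h9 : T (Q.G (e.symm (ins m y'))) ⊓ hyp c < T (Q.G (e.symm (ins m y'))) := by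
      refine lt_of_le_of_ne inf_le_left fun h => ?_
      exact hc _ (Q.mem _ huB).1 (hGm y' hy') (inf_eq_left.1 h)
    have h10 := Submodule.finrank_lt_finrank_of_lt h9
    rw [hdim _ huB] at h10
    rw [Module.finrank_fin_fun]
    exact Nat.lt_succ_iff.1 h10
  · refine ⟨hW, ?_⟩
    rw [← hy₀e]
    exact hes
  · intro y' hy'
    exact ((hsym _ hy').comp y' (ins m).contDiff.contDiffAt).contDiffWithinAt
  · intro a
    rfl
  · intro y' hy'
    exact hB₁B _ (hesB (e.map_target hy'))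
  · intro y' hy'
    rfl
  · intro y' hy' a
    have h1 : ins m y' ∈ e.target := hy'
    show e.symm (ins m y') (m.succAbove a) = y' a
    rw [← hΘs (e.symm (ins m y')) a, hright _ h1, ins_succ]
  · intro y' hy'
    have h1 := hesB (e.map_target hy')
    rw [hB₁e] at h1
    exact h1.2

/-! ### the index type -/

/-- a chart of the section -/
structure SecI (V : VolU N (k + 1) e M T) (c₀ : Cn N) : Type where
  /-- the index of the chart of `M` -/
  i : V.ι
  /-- the chart of the section -/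
  c : Cht N k {x | x ∈ M ∧ x ∈ hyp c₀} (fun x => T x ⊓ hyp c₀)
  /-- the coordinate -/
  m : Fin (k + 1)
  /-- the transition map -/
  Y : Cn k → Cn (k + 1)
  smY : ContDiffOn ℂ 3 Y c.B
  hI : ∀ a, c.I a = (V.c i).I (m.succAbove a)
  mem : ∀ y ∈ c.B, Y y ∈ (V.c i).B
  hG : ∀ y ∈ c.B, c.G y = (V.c i).G (Y y)
  co : ∀ y ∈ c.B, ∀ a, Y y (m.succAbove a) = y a
  ne : ∀ y ∈ c.B, LL c₀ (fderiv ℂ (V.c i).G (Y y) (Pi.single m 1)) ≠ 0

/-- the derivative of the equation in the chart -/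
noncomputable def dps {n : ℕ} {M : Set (Cn N)} {T : Cn N → Submodule ℂ (Cn N)} (c₀ : Cn N)
    (Q : Cht N n M T) (y v : Cn n) : ℂ := LL c₀ (fderiv ℂ Q.G y v)

theorem hasF_dps {n : ℕ} {M : Set (Cn N)} {T : Cn N → Submodule ℂ (Cn N)} (c₀ : Cn N)
    (Q : Cht N n M T) {y : Cn n} (hy : y ∈ Q.B) (v : Cn n) :
    HasFDerivAt (fun z => dps c₀ Q z v)
      ((LL c₀).comp ((fderiv ℂ (fderiv ℂ Q.G) y).flip v)) y := by
  have hd2 : DifferentiableAt ℂ (fderiv ℂ Q.G) y :=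
    ((contDiffAt Q hy).fderiv_right (m := 1) (by norm_num)).differentiableAt (by norm_num)
  have h7 : HasFDerivAt (fun z => fderiv ℂ Q.G z v)
      ((fderiv ℂ Q.G y).comp (0 : Cn n →L[ℂ] Cn n) + (fderiv ℂ (fderiv ℂ Q.G) y).flip v) y :=
    hd2.hasFDerivAt.clm_apply (hasFDerivAt_const v y)
  rw [ContinuousLinearMap.comp_zero, zero_add] at h7
  exact (LL c₀).hasFDerivAt.comp y h7

theorem smooth_dps {n : ℕ} {M : Set (Cn N)} {T : Cn N → Submodule ℂ (Cn N)} (c₀ : Cn N)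
    (Q : Cht N n M T) (v : Cn n) : ContDiffOn ℂ 2 (fun z => dps c₀ Q z v) Q.B := by
  have h1 : ContDiffOn ℂ 2 (fderiv ℂ Q.G) Q.B := Q.sm.fderiv_of_isOpen Q.oB (by norm_num)
  exact (LL c₀).contDiff.comp_contDiffOn (h1.clm_apply contDiffOn_const)

theorem sum_single {n : ℕ} (L : Cn n →L[ℂ] ℂ) (v : Cn n) : L v = ∑ b, v b * L (Pi.single b 1) := by
  have h2 : v = ∑ j, v j • (Pi.single j 1 : Cn n) := by
    conv_lhs => rw [← Finset.univ_sum_single v]
    refine Finset.sum_congr rfl fun j _ => ?_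
    rw [← Pi.single_smul, smul_eq_mul, mul_one]
  conv_lhs => rw [h2]
  rw [map_sum]
  refine Finset.sum_congr rfl fun j _ => ?_
  rw [map_smul, smul_eq_mul]

theorem dps_sum {n : ℕ} {M : Set (Cn N)} {T : Cn N → Submodule ℂ (Cn N)} (c₀ : Cn N)
    (Q : Cht N n M T) (y v : Cn n) : dps c₀ Q y v = ∑ b, v b * dps c₀ Q y (Pi.single b 1) :=
  sum_single ((LL c₀).comp (fderiv ℂ Q.G y)) v

section chartfacts

variable {V : VolU N (k + 1) e M T} {c₀ : Cn N} (s : SecI V c₀)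

theorem diffY {y : Cn k} (hy : y ∈ s.c.B) : HasFDerivAt s.Y (fderiv ℂ s.Y y) y :=
  ((s.smY.contDiffAt (s.c.oB.mem_nhds hy)).differentiableAt (by norm_num)).hasFDerivAt

theorem dY_co {y : Cn k} (hy : y ∈ s.c.B) (v : Cn k) (a : Fin k) :
    fderiv ℂ s.Y y v (s.m.succAbove a) = v a := by
  have h1 : HasFDerivAt (fun z => s.Y z (s.m.succAbove a))
      ((ContinuousLinearMap.proj (R := ℂ) (φ := fun _ : Fin (k + 1) => ℂ) (s.m.succAbove a)).comp
        (fderiv ℂ s.Y y)) y :=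
    (ContinuousLinearMap.proj (R := ℂ) (φ := fun _ : Fin (k + 1) => ℂ)
      (s.m.succAbove a)).hasFDerivAt.comp y (diffY s hy)
  have h2 : HasFDerivAt (fun z : Cn k => z a)
      (ContinuousLinearMap.proj (R := ℂ) (φ := fun _ : Fin k => ℂ) a) y :=
    (ContinuousLinearMap.proj (R := ℂ) (φ := fun _ : Fin k => ℂ) a).hasFDerivAt
  have h3 : (fun z => s.Y z (s.m.succAbove a)) =ᶠ[𝓝 y] fun z : Cn k => z a := by
    filter_upwards [s.c.oB.mem_nhds hy] with z hz
    exact s.co z hz a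
  exact congrArg (fun L : Cn k →L[ℂ] ℂ => L v) (h1.unique (h2.congr_of_eventuallyEq h3))

theorem psi_zero {y : Cn k} (hy : y ∈ s.c.B) : LL c₀ ((V.c s.i).G (s.Y y)) = 0 := by
  rw [← s.hG y hy]
  exact (s.c.mem y hy).1.2

theorem dG {y : Cn k} (hy : y ∈ s.c.B) (v : Cn k) :
    fderiv ℂ s.c.G y v = fderiv ℂ (V.c s.i).G (s.Y y) (fderiv ℂ s.Y y v) := by
  have h1 : HasFDerivAt (fun z => (V.c s.i).G (s.Y z))
      ((fderiv ℂ (V.c s.i).G (s.Y y)).comp (fderiv ℂ s.Y y)) y :=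
    (diffAt (V.c s.i) (s.mem y hy)).hasFDerivAt.comp y (diffY s hy)
  have h3 : s.c.G =ᶠ[𝓝 y] fun z => (V.c s.i).G (s.Y z) := by
    filter_upwards [s.c.oB.mem_nhds hy] with z hz
    exact s.hG z hz
  have h2 := h1.congr_of_eventuallyEq h3
  rw [h2.fderiv]
  rfl

theorem dps_dY {y : Cn k} (hy : y ∈ s.c.B) (v : Cn k) :
    dps c₀ (V.c s.i) (s.Y y) (fderiv ℂ s.Y y v) = 0 := by
  have h1 : HasFDerivAt (fun z => LL c₀ (s.c.G z)) ((LL c₀).comp (fderiv ℂ s.c.G y)) y :=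
    (LL c₀).hasFDerivAt.comp y (diffAt s.c hy).hasFDerivAt
  have h5 : HasFDerivAt (fun _ : Cn k => (0 : ℂ)) (0 : Cn k →L[ℂ] ℂ) y := hasFDerivAt_const _ _
  have h6 : (fun z : Cn k => LL c₀ (s.c.G z)) =ᶠ[𝓝 y] fun _ : Cn k => (0 : ℂ) := by
    filter_upwards [s.c.oB.mem_nhds hy] with z hz
    exact (s.c.mem z hz).1.2
  have h7 := h1.unique (h5.congr_of_eventuallyEq h6)
  have h8 : LL c₀ (fderiv ℂ s.c.G y v) = 0 := congrArg (fun A : Cn k →L[ℂ] ℂ => A v) h7
  rw [dG s hy v] at h8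
  exact h8

/-- two vectors with the same coordinates and the same value of the equation -/
theorem ext_dps {z v w : Cn (k + 1)} {Q : Cht N (k + 1) M T} {m : Fin (k + 1)}
    (hp : dps c₀ Q z (Pi.single m 1) ≠ 0) (h : ∀ a, v (m.succAbove a) = w (m.succAbove a))
    (h' : dps c₀ Q z v = dps c₀ Q z w) : v = w := by
  have h1 : v m = w m := by
    rw [dps_sum, dps_sum c₀ Q z w, Fin.sum_univ_succAbove _ m,
      Fin.sum_univ_succAbove (fun b => w b * _) m] at h'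
    have h2 : ∑ a, v (m.succAbove a) * dps c₀ Q z (Pi.single (m.succAbove a) 1) =
        ∑ a, w (m.succAbove a) * dps c₀ Q z (Pi.single (m.succAbove a) 1) :=
      Finset.sum_congr rfl fun a _ => by rw [h a]
    rw [h2] at h'
    exact mul_right_cancel₀ hp (add_right_cancel h')
  funext j
  refine m.succAboveCases ?_ (fun a => ?_) j
  · exact h1
  · exact h a

theorem dY_single {y : Cn k} (hy : y ∈ s.c.B) (a : Fin k) :
    fderiv ℂ s.Y y (Pi.single a 1) = Pi.single (s.m.succAbove a) 1 -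
      (dps c₀ (V.c s.i) (s.Y y) (Pi.single (s.m.succAbove a) 1) /
        dps c₀ (V.c s.i) (s.Y y) (Pi.single s.m 1)) • Pi.single s.m 1 := by
  refine ext_dps (c₀ := c₀) (Q := V.c s.i) (z := s.Y y) (m := s.m) (s.ne y hy) ?_ ?_
  · intro b
    rw [dY_co s hy, Pi.sub_apply, Pi.smul_apply, Pi.single_eq_of_ne (Fin.succAbove_ne s.m b),
      smul_zero, sub_zero]
    by_cases hb : b = a
    · rw [hb, Pi.single_eq_same, Pi.single_eq_same]
    · rw [Pi.single_eq_of_ne hb, Pi.single_eq_of_ne]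
      intro h'
      exact hb (Fin.succAbove_right_injective h')
  · rw [dps_dY s hy]
    have h1 : ∀ (v w : Cn (k + 1)) (t : ℂ), dps c₀ (V.c s.i) (s.Y y) (v - t • w) =
        dps c₀ (V.c s.i) (s.Y y) v - t * dps c₀ (V.c s.i) (s.Y y) w := by
      intro v w t
      show LL c₀ (fderiv ℂ _ _ _) = LL c₀ _ - t * LL c₀ _
      rw [map_sub, map_smul, map_sub, map_smul, smul_eq_mul]
    have hp : dps c₀ (V.c s.i) (s.Y y) (Pi.single s.m 1) ≠ 0 := s.ne y hy
    rw [h1, div_mul_cancel₀ _ hp, sub_self]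

theorem dY_self (hM : Cone N (k + 1) M T) {y : Cn k} (hy : y ∈ s.c.B) :
    fderiv ℂ s.Y y y = s.Y y := by
  refine ext_dps (c₀ := c₀) (Q := V.c s.i) (z := s.Y y) (m := s.m) (s.ne y hy) ?_ ?_
  · intro b
    rw [dY_co s hy, s.co y hy]
  · rw [dps_dY s hy]
    show 0 = LL c₀ (fderiv ℂ _ _ _)
    rw [euler hM (V.c s.i) (s.mem y hy), psi_zero s hy]

end chartfacts

theorem dq_self (hM : Cone N (k + 1) M T) (c₀ : Cn N) (Q : Cht N (k + 1) M T) {z : Cn (k + 1)}
    (hz : z ∈ Q.B) (v : Cn (k + 1)) :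
    ((LL c₀).comp ((fderiv ℂ (fderiv ℂ Q.G) z).flip v)) z = 0 := by
  have hd2 : DifferentiableAt ℂ (fderiv ℂ Q.G) z :=
    ((contDiffAt Q hz).fderiv_right (m := 1) (by norm_num)).differentiableAt (by norm_num)
  have h7 : HasFDerivAt (fun z => fderiv ℂ Q.G z v)
      ((fderiv ℂ Q.G z).comp (0 : Cn (k + 1) →L[ℂ] Cn (k + 1)) +
        (fderiv ℂ (fderiv ℂ Q.G) z).flip v) z :=
    hd2.hasFDerivAt.clm_apply (hasFDerivAt_const v z)
  rw [ContinuousLinearMap.comp_zero, zero_add] at h7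
  have h8 := second hM Q hz v
  rw [h7.fderiv] at h8
  show LL c₀ (((fderiv ℂ (fderiv ℂ Q.G) z).flip v) z) = 0
  rw [h8, map_zero]

theorem dq_symm (c₀ : Cn N) (Q : Cht N (k + 1) M T) {z : Cn (k + 1)}
    (hz : z ∈ Q.B) (v w : Cn (k + 1)) :
    ((LL c₀).comp ((fderiv ℂ (fderiv ℂ Q.G) z).flip v)) w =
      ((LL c₀).comp ((fderiv ℂ (fderiv ℂ Q.G) z).flip w)) v := by
  have hsym : IsSymmSndFDerivAt ℂ Q.G z := (contDiffAt Q hz).isSymmSndFDerivAt (by
    rw [minSmoothness_of_isRCLikeNormedField]; norm_num)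
  show LL c₀ (fderiv ℂ (fderiv ℂ Q.G) z w v) = LL c₀ (fderiv ℂ (fderiv ℂ Q.G) z v w)
  rw [hsym w v]

/-- the volume form of the section -/
noncomputable def mm {V : VolU N (k + 1) e M T} {c₀ : Cn N} (s : SecI V c₀) (y : Cn k) : ℂ :=
  V.m s.i (s.Y y) / dps c₀ (V.c s.i) (s.Y y) (Pi.single s.m 1)

theorem diffm (V : VolU N (k + 1) e M T) (i : V.ι) {z : Cn (k + 1)} (hz : z ∈ (V.c i).B) :
    DifferentiableAt ℂ (V.m i) z :=
  ((V.sm i).contDiffAt ((V.c i).oB.mem_nhds hz)).differentiableAt (by norm_num)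

section main

variable {V : VolU N (k + 1) e M T} {c₀ : Cn N} (s : SecI V c₀)

theorem mm_diff {y : Cn k} (hy : y ∈ s.c.B) : DifferentiableAt ℂ (mm s) y := by
  have h1 : DifferentiableAt ℂ (fun z => V.m s.i (s.Y z)) y :=
    (diffm V s.i (s.mem y hy)).comp y (diffY s hy).differentiableAt
  have h2 : DifferentiableAt ℂ (fun z => dps c₀ (V.c s.i) (s.Y z) (Pi.single s.m 1)) y :=
    (hasF_dps c₀ (V.c s.i) (s.mem y hy) (Pi.single s.m 1)).differentiableAt.comp y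
      (diffY s hy).differentiableAt
  have h3 : DifferentiableAt ℂ (fun z => (dps c₀ (V.c s.i) (s.Y z) (Pi.single s.m 1))⁻¹) y :=
    h2.inv (s.ne y hy)
  have h4 : mm s = fun z => V.m s.i (s.Y z) * (dps c₀ (V.c s.i) (s.Y z) (Pi.single s.m 1))⁻¹ :=
    funext fun z => div_eq_mul_inv _ _
  rw [h4]
  exact h1.mul h3

theorem mm_smooth : ContDiffOn ℂ 2 (mm s) s.c.B :=
  ((V.sm s.i).comp (s.smY.of_le (by norm_num)) s.mem).div
    ((smooth_dps c₀ (V.c s.i) (Pi.single s.m 1)).comp (s.smY.of_le (by norm_num)) s.mem) s.ne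

theorem mm_ne {y : Cn k} (hy : y ∈ s.c.B) : mm s y ≠ 0 :=
  div_ne_zero (V.ne s.i _ (s.mem y hy)) (s.ne y hy)

theorem mm_hom (hM : Cone N (k + 1) M T) {y : Cn k} (hy : y ∈ s.c.B) :
    fderiv ℂ (mm s) y y = -(e : ℂ) * mm s y := by
  have hp := s.ne y hy
  have h1 : HasFDerivAt (fun z => dps c₀ (V.c s.i) (s.Y z) (Pi.single s.m 1)) _ y :=
    (hasF_dps c₀ (V.c s.i) (s.mem y hy) (Pi.single s.m 1)).comp y (diffY s hy)
  have h2 := (mm_diff s hy).hasFDerivAt.mul h1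
  have h3 : HasFDerivAt (fun z => V.m s.i (s.Y z)) _ y :=
    (diffm V s.i (s.mem y hy)).hasFDerivAt.comp y (diffY s hy)
  have h4 : (fun z => V.m s.i (s.Y z)) =ᶠ[𝓝 y]
      (mm s * fun z => dps c₀ (V.c s.i) (s.Y z) (Pi.single s.m 1)) := by
    filter_upwards [s.c.oB.mem_nhds hy] with z hz
    exact (div_mul_cancel₀ _ (s.ne z hz)).symm
  have h5 := (h2.congr_of_eventuallyEq h4).unique h3
  have h6 := congrArg (fun L : Cn k →L[ℂ] ℂ => L y) h5
  have h7 : mm s y * ((LL c₀).comp ((fderiv ℂ (fderiv ℂ (V.c s.i).G) (s.Y y)).flip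
      (Pi.single s.m 1))) (fderiv ℂ s.Y y y) +
      dps c₀ (V.c s.i) (s.Y y) (Pi.single s.m 1) * fderiv ℂ (mm s) y y =
      fderiv ℂ (V.m s.i) (s.Y y) (fderiv ℂ s.Y y y) := h6
  rw [dY_self s hM hy, dq_self hM c₀ (V.c s.i) (s.mem y hy), mul_zero, zero_add,
    V.hom s.i _ (s.mem y hy)] at h7
  refine mul_left_cancel₀ hp ?_
  refine h7.trans ?_
  show _ = dps c₀ (V.c s.i) (s.Y y) (Pi.single s.m 1) * (-(e : ℂ) *
    (V.m s.i (s.Y y) / dps c₀ (V.c s.i) (s.Y y) (Pi.single s.m 1)))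
  have hp' : dps c₀ (V.c s.i) (s.Y y) (Pi.single s.m 1) ≠ 0 := hp
  field_simp

theorem mm_tr (s t : SecI V c₀) {y y' : Cn k} (hy : y ∈ s.c.B) (hy' : y' ∈ t.c.B)
    (h : s.c.G y = t.c.G y') : ∃ u : ℂ, ‖u‖ = 1 ∧ mm s y = u * jdet s.c t.c y * mm t y' := by
  have hGG : (V.c s.i).G (s.Y y) = (V.c t.i).G (t.Y y') := by
    rw [← s.hG y hy, ← t.hG y' hy', h]
  obtain ⟨u, hu, hm⟩ := V.tr s.i t.i _ (s.mem y hy) _ (t.mem y' hy') hGG
  have h1 : ∀ j, ∑ a, dps c₀ (V.c t.i) (t.Y y') (Pi.single a 1) *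
      (Matrix.of fun a b : Fin (k + 1) => fderiv ℂ (V.c s.i).G (s.Y y) (Pi.single b 1)
        ((V.c t.i).I a)) a j = dps c₀ (V.c s.i) (s.Y y) (Pi.single j 1) := by
    intro j
    have h2 : fderiv ℂ (V.c s.i).G (s.Y y) (Pi.single j 1) ∈ T ((V.c s.i).G (s.Y y)) := by
      rw [← (V.c s.i).tan _ (s.mem y hy)]
      exact ⟨_, rfl⟩
    rw [hGG, ← (V.c t.i).tan _ (t.mem y' hy')] at h2
    obtain ⟨w, hw⟩ := h2
    have hw' : fderiv ℂ (V.c t.i).G (t.Y y') w = fderiv ℂ (V.c s.i).G (s.Y y) (Pi.single j 1) := hw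
    show _ = LL c₀ (fderiv ℂ (V.c s.i).G (s.Y y) (Pi.single j 1))
    rw [← hw']
    show _ = dps c₀ (V.c t.i) (t.Y y') w
    rw [dps_sum]
    refine Finset.sum_congr rfl fun a _ => ?_
    rw [mul_comm, ← coord (V.c t.i) (t.mem y' hy') w a, hw']
    rfl
  have h2 := det_lem _ (fun j => dps c₀ (V.c s.i) (s.Y y) (Pi.single j 1))
    (fun j => dps c₀ (V.c t.i) (t.Y y') (Pi.single j 1)) s.m t.m (s.ne y hy) h1
    (Matrix.of fun a b : Fin k => fderiv ℂ s.c.G y (Pi.single b 1) (t.c.I a)) (by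
      intro a b
      show fderiv ℂ s.c.G y (Pi.single b 1) (t.c.I a) = _
      rw [dG s hy, dY_single s hy, map_sub, map_smul, t.hI]
      rfl)
  have hp : dps c₀ (V.c s.i) (s.Y y) (Pi.single s.m 1) ≠ 0 := s.ne y hy
  have hp' : dps c₀ (V.c t.i) (t.Y y') (Pi.single t.m 1) ≠ 0 := t.ne y' hy'
  refine ⟨u * (-1) ^ ((t.m : ℕ) + (s.m : ℕ)), ?_, ?_⟩
  · rw [norm_mul, hu, norm_pow, norm_neg, norm_one, one_pow, one_mul]
  · show V.m s.i (s.Y y) / dps c₀ (V.c s.i) (s.Y y) (Pi.single s.m 1) = _ *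
      (V.m t.i (t.Y y') / dps c₀ (V.c t.i) (t.Y y') (Pi.single t.m 1))
    have h3 : jdet (V.c s.i) (V.c t.i) (s.Y y) = (-1) ^ ((t.m : ℕ) + (s.m : ℕ)) * jdet s.c t.c y *
        dps c₀ (V.c s.i) (s.Y y) (Pi.single s.m 1) /
          dps c₀ (V.c t.i) (t.Y y') (Pi.single t.m 1) := by
      rw [eq_div_iff hp', mul_comm]
      exact h2
    rw [hm, h3]
    field_simp

theorem mm_div {A : Cn N → Cn N} (hA : ContDiff ℂ 2 A)
    (hAM : ∀ x ∈ M, A x ∈ T x ∧ A x ∈ hyp c₀) (hdiv : DivF V A) {y : Cn k} (hy : y ∈ s.c.B) :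
    ∑ a : Fin k, fderiv ℂ (fun z => mm s z * A (s.c.G z) (s.c.I a)) y (Pi.single a 1) = 0 := by
  obtain ⟨Q, hQ⟩ : ∃ Q, Q = V.c s.i := ⟨_, rfl⟩
  obtain ⟨z₀, hz₀⟩ : ∃ z₀, z₀ = s.Y y := ⟨_, rfl⟩
  have hz : z₀ ∈ Q.B := by rw [hz₀, hQ]; exact s.mem y hy
  obtain ⟨h, hh⟩ : ∃ h : Fin (k + 1) → Cn (k + 1) → ℂ,
    h = fun b z => V.m s.i z * A (Q.G z) (Q.I b) := ⟨_, rfl⟩
  obtain ⟨q, hq⟩ : ∃ q : Fin (k + 1) → Cn (k + 1) → ℂ,
    q = fun b z => dps c₀ Q z (Pi.single b 1) := ⟨_, rfl⟩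
  obtain ⟨dq, hdq⟩ : ∃ dq : Fin (k + 1) → Cn (k + 1) →L[ℂ] ℂ,
    dq = fun b => (LL c₀).comp ((fderiv ℂ (fderiv ℂ Q.G) z₀).flip (Pi.single b 1)) := ⟨_, rfl⟩
  have hqd : ∀ b, HasFDerivAt (q b) (dq b) z₀ := by
    intro b
    rw [hq, hdq]
    exact hasF_dps c₀ Q hz _
  have hAd : ∀ x, DifferentiableAt ℂ A x := fun x => hA.contDiffAt.differentiableAt (by norm_num)
  have hhd : ∀ b, HasFDerivAt (h b) (fderiv ℂ (h b) z₀) z₀ := by
    intro b
    rw [hh]
    have h1 : DifferentiableAt ℂ (fun z => A (Q.G z) (Q.I b)) z₀ := by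
      have h2 : DifferentiableAt ℂ (fun z => A (Q.G z)) z₀ := (hAd _).comp z₀ (diffAt Q hz)
      exact differentiableAt_pi.1 h2 (Q.I b)
    have h3 : DifferentiableAt ℂ (V.m s.i) z₀ := diffm V s.i (by rw [← hQ]; exact hz)
    exact (h3.mul h1).hasFDerivAt
  have hp : q s.m z₀ ≠ 0 := by
    rw [hq, hz₀, hQ]
    exact s.ne y hy
  -- the constraint
  have hcon : ∀ z ∈ Q.B, ∑ b, q b z * h b z = 0 := by
    intro z hz'
    obtain ⟨h1, h2⟩ := hAM _ (Q.mem z hz').1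
    rw [← Q.tan z hz'] at h1
    obtain ⟨η, hη⟩ := h1
    have hη' : fderiv ℂ Q.G z η = A (Q.G z) := hη
    have h3 : dps c₀ Q z η = 0 := by
      show LL c₀ (fderiv ℂ Q.G z η) = 0
      rw [hη']
      exact h2
    rw [dps_sum] at h3
    have h4 : ∑ b, q b z * h b z = V.m s.i z * ∑ b, η b * dps c₀ Q z (Pi.single b 1) := by
      rw [Finset.mul_sum]
      refine Finset.sum_congr rfl fun b _ => ?_
      rw [hq, hh, ← coord Q hz' η b, hη']
      ring
    rw [h4, h3, mul_zero]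
  have hcon' : ∀ v, ∑ b, (q b z₀ * fderiv ℂ (h b) z₀ v + h b z₀ * dq b v) = 0 := by
    intro v
    have h1 : HasFDerivAt (fun z => ∑ b, (q b * h b) z)
        (∑ b, (q b z₀ • fderiv ℂ (h b) z₀ + h b z₀ • dq b)) z₀ :=
      HasFDerivAt.fun_sum fun b _ => (hqd b).mul (hhd b)
    have h2 : HasFDerivAt (fun _ : Cn (k + 1) => (0 : ℂ)) (0 : Cn (k + 1) →L[ℂ] ℂ) z₀ :=
      hasFDerivAt_const _ _
    have h3 : (fun z => ∑ b, (q b * h b) z) =ᶠ[𝓝 z₀] fun _ => (0 : ℂ) := by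
      filter_upwards [Q.oB.mem_nhds hz] with z hz'
      exact hcon z hz'
    have h4 := h1.unique (h2.congr_of_eventuallyEq h3)
    have h5 := congrArg (fun L : Cn (k + 1) →L[ℂ] ℂ => L v) h4
    have h6 : (∑ b, (q b z₀ • fderiv ℂ (h b) z₀ + h b z₀ • dq b)) v = 0 := h5
    rw [sum_apply] at h6
    exact h6
  have hsy : ∀ b, dq b (Pi.single s.m 1) = dq s.m (Pi.single b 1) := by
    intro b
    rw [hdq]
    exact dq_symm c₀ Q hz _ _
  have hd0 : ∑ b, fderiv ℂ (h b) z₀ (Pi.single b 1) = 0 := by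
    have h1 := hdiv s.i z₀ (by rw [← hQ]; exact hz)
    rw [← hQ] at h1
    rw [hh]
    exact h1
  -- the derivative on the section
  have hF : ∀ a, mm s y * A (s.c.G y) (s.c.I a) * dq s.m (fderiv ℂ s.Y y (Pi.single a 1)) +
      q s.m z₀ * fderiv ℂ (fun z => mm s z * A (s.c.G z) (s.c.I a)) y (Pi.single a 1) =
      fderiv ℂ (h (s.m.succAbove a)) z₀ (fderiv ℂ s.Y y (Pi.single a 1)) := by
    intro a
    have h1 : DifferentiableAt ℂ (fun z => mm s z * A (s.c.G z) (s.c.I a)) y := by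
      have h2 : DifferentiableAt ℂ (fun z => A (s.c.G z)) y := (hAd _).comp y (diffAt s.c hy)
      exact (mm_diff s hy).mul (differentiableAt_pi.1 h2 (s.c.I a))
    have hY := diffY s hy
    have h3 : HasFDerivAt (fun z => q s.m (s.Y z)) ((dq s.m).comp (fderiv ℂ s.Y y)) y := by
      have h4 := hqd s.m
      rw [hz₀] at h4
      exact h4.comp y hY
    have h4 : HasFDerivAt (fun z => h (s.m.succAbove a) (s.Y z))
        ((fderiv ℂ (h (s.m.succAbove a)) (s.Y y)).comp (fderiv ℂ s.Y y)) y := by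
      have h4 := hhd (s.m.succAbove a)
      rw [hz₀] at h4
      exact h4.comp y hY
    have h5 := h1.hasFDerivAt.mul h3
    have h6 : (fun z => h (s.m.succAbove a) (s.Y z)) =ᶠ[𝓝 y]
        ((fun z => mm s z * A (s.c.G z) (s.c.I a)) * fun z => q s.m (s.Y z)) := by
      filter_upwards [s.c.oB.mem_nhds hy] with z hz'
      show _ = mm s z * A (s.c.G z) (s.c.I a) * q s.m (s.Y z)
      have h7 : mm s z * q s.m (s.Y z) = V.m s.i (s.Y z) := by
        rw [hq, hQ]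
        exact div_mul_cancel₀ _ (s.ne z hz')
      rw [hh]
      show V.m s.i (s.Y z) * A (Q.G (s.Y z)) (Q.I (s.m.succAbove a)) = _
      rw [← h7, hQ, ← s.hG z hz', ← s.hI a]
      ring
    have h7 := (h5.congr_of_eventuallyEq h6).unique h4
    have h8 := congrArg (fun L : Cn k →L[ℂ] ℂ => L (Pi.single a 1)) h7
    rw [hz₀]
    exact h8
  have hXa : ∀ a, mm s y * A (s.c.G y) (s.c.I a) * q s.m z₀ = h (s.m.succAbove a) z₀ := by
    intro a
    have h7 : mm s y * q s.m z₀ = V.m s.i z₀ := by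
      rw [hq, hQ, hz₀]
      exact div_mul_cancel₀ _ (s.ne y hy)
    rw [hh]
    show _ = V.m s.i z₀ * A (Q.G z₀) (Q.I (s.m.succAbove a))
    rw [← h7, hQ, hz₀, ← s.hG y hy, ← s.hI a]
    ring
  have hu : ∀ a, fderiv ℂ s.Y y (Pi.single a 1) = Pi.single (s.m.succAbove a) 1 -
      (q (s.m.succAbove a) z₀ / q s.m z₀) • Pi.single s.m 1 := by
    intro a
    rw [dY_single s hy, hq, hQ, hz₀]
  have hkey : ∀ a, q s.m z₀ ^ 3 *
      fderiv ℂ (fun z => mm s z * A (s.c.G z) (s.c.I a)) y (Pi.single a 1) =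
      q s.m z₀ ^ 2 * fderiv ℂ (h (s.m.succAbove a)) z₀ (Pi.single (s.m.succAbove a) 1) -
      q s.m z₀ * (q (s.m.succAbove a) z₀ * fderiv ℂ (h (s.m.succAbove a)) z₀ (Pi.single s.m 1) +
        h (s.m.succAbove a) z₀ * dq (s.m.succAbove a) (Pi.single s.m 1)) +
      dq s.m (Pi.single s.m 1) * (q (s.m.succAbove a) z₀ * h (s.m.succAbove a) z₀) := by
    intro a
    have h1 := hF a
    rw [hu a, map_sub, map_smul, map_sub, map_smul, smul_eq_mul, smul_eq_mul, ← hsy] at h1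
    have h2 := hXa a
    rw [← h2]
    have h3 : q s.m z₀ * fderiv ℂ (fun z => mm s z * A (s.c.G z) (s.c.I a)) y (Pi.single a 1) =
      fderiv ℂ (h (s.m.succAbove a)) z₀ (Pi.single (s.m.succAbove a) 1) -
        q (s.m.succAbove a) z₀ / q s.m z₀ * fderiv ℂ (h (s.m.succAbove a)) z₀ (Pi.single s.m 1) -
      mm s y * A (s.c.G y) (s.c.I a) * (dq (s.m.succAbove a) (Pi.single s.m 1) -
        q (s.m.succAbove a) z₀ / q s.m z₀ * dq s.m (Pi.single s.m 1)) := by
      rw [← h1]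
      ring
    have h4 : q s.m z₀ ^ 3 *
      fderiv ℂ (fun z => mm s z * A (s.c.G z) (s.c.I a)) y (Pi.single a 1) = q s.m z₀ ^ 2 *
      (q s.m z₀ * fderiv ℂ (fun z => mm s z * A (s.c.G z) (s.c.I a)) y (Pi.single a 1)) := by ring
    rw [h4, h3]
    field_simp
    ring
  have h1 := hcon z₀ hz
  rw [Fin.sum_univ_succAbove _ s.m] at h1
  have h2 := hcon' (Pi.single s.m 1)
  rw [Fin.sum_univ_succAbove _ s.m] at h2
  rw [Fin.sum_univ_succAbove _ s.m] at hd0
  refine (mul_eq_zero.1 (?_ : q s.m z₀ ^ 3 * _ = 0)).resolve_left (pow_ne_zero 3 hp)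
  rw [Finset.mul_sum, Finset.sum_congr rfl fun a _ => hkey a, Finset.sum_add_distrib,
    Finset.sum_sub_distrib, ← Finset.mul_sum, ← Finset.mul_sum, ← Finset.mul_sum]
  linear_combination q s.m z₀ ^ 2 * hd0 - q s.m z₀ * h2 + dq s.m (Pi.single s.m 1) * h1

end main

end VCUM

open VCUM in
theorem specVCU : SpecVCU := by
  intro N k e M T hM c₀ hc V
  refine ⟨{ ι := SecI V c₀
            c := fun s => s.c
            m := fun s => mm s
            cov := ?_
            sm := fun s => mm_smooth s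
            ne := fun s y hy => mm_ne s hy
            hom := fun s y hy => mm_hom s hM hy
            tr := fun s t y hy y' hy' h => mm_tr s t hy hy' h }, ?_⟩
  · rintro x ⟨hx, hxc⟩
    obtain ⟨i, hi⟩ := V.cov x hx
    obtain ⟨c', m, Y, h1, h2, h3, h4, h5, h6, h7⟩ := chart' c₀ hc (V.c i)
      (fun y hy => BASM.rank (V.c i) hy) x hx hi hxc
    exact ⟨⟨i, c', m, Y, h2, h3, h4, h5, h6, h7⟩, h1⟩
  · intro A hA hAM hdiv s y hy
    exact mm_div s hA hAM hdiv hy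

end Pool.Agent.Lib.MPc9b009.LF
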