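import Pool.Agent.Lib.MP_c9b009_ag.LF.SpecK
import Pool.Agent.Lib.MP_c9b009_ag.LS.GTA

/-!
# MP_c9b009_ag, row LF, part K, module VJP
-/

set_option autoImplicit false

namespace Pool.Agent.Lib.MPc9b009.LF

open MvPolynomial Pool.Agent.Lib.MPc9b009.B5 Pool.Agent.Lib.MPc9b009.OD
  Pool.Agent.Lib.MPc9b009.PS Pool.Agent.Lib.MPc9b009.LS

namespace VJPM

/-- the bordered matrix -/
def bm {S : Type} {m : ℕ} (x : S) (r g : Fin m → S) (A : Matrix (Fin m) (Fin m) S) :
    Matrix (Unit ⊕ Fin m) (Unit ⊕ Fin m) S :=
  Matrix.fromBlocks (Matrix.of fun _ _ => x) (Matrix.of fun _ b => r b)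
    (Matrix.of fun a _ => g a) A

theorem det_reg {S : Type} [CommRing S] {m : ℕ} (x : S) (r g : Fin m → S)
    (A : Matrix (Fin m) (Fin m) S) (hA : A.det ∈ nonZeroDivisors S) :
    (bm x r g A).det = x * A.det - ∑ b, r b * ∑ a, A.adjugate b a * g a := by
  classical
  have h1 : bm x r g A * Matrix.fromBlocks (Matrix.of fun _ _ => A.det) 0
      (Matrix.of fun b _ => - ∑ a, A.adjugate b a * g a) 1 =
      Matrix.fromBlocks (Matrix.of fun _ _ => x * A.det - ∑ b, r b * ∑ a, A.adjugate b a * g a)
        (Matrix.of fun (_ : Unit) b => r b) 0 A := by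
    rw [bm, Matrix.fromBlocks_multiply]
    congr 1
    · ext i j
      simp [Matrix.mul_apply, Matrix.add_apply, sub_eq_add_neg, Finset.sum_neg_distrib]
    · ext i j
      simp [Matrix.mul_apply, Matrix.one_apply]
    · ext i j
      have h2 : ∑ b, A i b * ∑ a, A.adjugate b a * g a = g i * A.det := by
        have h3 : ∑ b, A i b * ∑ a, A.adjugate b a * g a =
            ∑ a, (A * A.adjugate) i a * g a := by
          simp only [Matrix.mul_apply, Finset.mul_sum, Finset.sum_mul]
          rw [Finset.sum_comm]
          refine Finset.sum_congr rfl fun a _ => Finset.sum_congr rfl fun b _ => ?_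
          ring
        rw [h3, Matrix.mul_adjugate]
        simp [Matrix.one_apply, mul_comm]
      simp only [Matrix.add_apply, Matrix.mul_apply, Matrix.of_apply, Finset.univ_unique,
        Finset.sum_singleton, mul_neg, Finset.sum_neg_distrib, Matrix.zero_apply]
      rw [h2]
      ring
    · ext i j
      simp [Matrix.mul_apply, Matrix.one_apply]
  have h4 := congrArg Matrix.det h1
  rw [Matrix.det_mul, Matrix.det_fromBlocks_zero₁₂, Matrix.det_fromBlocks_zero₂₁] at h4
  simp only [Matrix.det_unique, Matrix.of_apply, Matrix.det_one, mul_one] at h4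
  exact (mul_cancel_right_mem_nonZeroDivisors hA).1 h4

theorem det_bm {S : Type} [CommRing S] {m : ℕ} (x : S) (r g : Fin m → S)
    (A : Matrix (Fin m) (Fin m) S) :
    (bm x r g A).det = x * A.det - ∑ b, r b * ∑ a, A.adjugate b a * g a := by
  classical
  let B : Matrix (Fin m) (Fin m) (Polynomial S) := Matrix.charmatrix (-A)
  have hB : B.det ∈ nonZeroDivisors (Polynomial S) :=
    (Matrix.charpoly_monic (-A)).mem_nonZeroDivisors
  have h1 := det_reg (Polynomial.C x) (fun b => Polynomial.C (r b))
    (fun a => Polynomial.C (g a)) B hB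
  let e : Polynomial S →+* S := Polynomial.evalRingHom 0
  have hBe : e.mapMatrix B = A := by
    ext i j
    by_cases hij : i = j
    · subst hij
      simp [B, e, Matrix.charmatrix_apply]
    · simp [B, e, Matrix.charmatrix_apply, hij]
  have h2 := congrArg e h1
  rw [RingHom.map_det, map_sub, map_mul, RingHom.map_det, map_sum, hBe] at h2
  have h3 : e.mapMatrix (bm (Polynomial.C x) (fun b => Polynomial.C (r b))
      (fun a => Polynomial.C (g a)) B) = bm x r g A := by
    have h4 : ∀ i j, e (B i j) = A i j := fun i j => congrFun (congrFun hBe i) j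
    ext i j
    rcases i with i | i <;> rcases j with j | j <;> simp [bm, e, h4]
    exact h4 i j
  rw [h3] at h2
  rw [h2]
  have h5 : ∀ b a, e (B.adjugate b a) = A.adjugate b a := by
    intro b a
    have h6 := RingHom.map_adjugate e B
    rw [hBe] at h6
    exact congrFun (congrFun h6 b) a
  simp only [map_mul, map_sum, h5]
  simp [e]

end VJPM

open VJPM

theorem specVJP (hTGD : SpecTGD) : SpecVJP := by
  classical
  intro N n P hP htr c
  have hnN : n + (N - n) = N := by
    have h1 := Fintype.card_congr (Equiv.ofBijective _ c.bij)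
    simpa using h1
  have hJJ : ∀ i j, c.J i = c.J j → i = j := by
    intro i j h
    have h1 := c.bij.1 (a₁ := Sum.inl i) (a₂ := Sum.inl j) h
    exact Sum.inl.inj h1
  have hJK : ∀ i b, c.J i ≠ c.K b := by
    intro i b h
    have h1 := c.bij.1 (a₁ := Sum.inl i) (a₂ := Sum.inr b) h
    cases h1
  have hKK : ∀ i j, c.K i = c.K j → i = j := by
    intro i j h
    have h1 := c.bij.1 (a₁ := Sum.inr i) (a₂ := Sum.inr j) h
    exact Sum.inr.inj h1
  have hsum : ∀ f : Fin N → PR N, ∑ l, f l = ∑ i, f (c.J i) + ∑ b, f (c.K b) := by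
    intro f
    rw [← Equiv.sum_comp (Equiv.ofBijective _ c.bij) f, Fintype.sum_sum_type]
    rfl
  set A : Matrix (Fin (N - n)) (Fin (N - n)) (PR N) :=
    Matrix.of fun a b => pderiv (c.K b) (c.F a) with hA
  have hVJ : ∀ i j, c.V i (c.J j) = if i = j then c.Δ else 0 := by
    intro i j
    rw [Crd.V]
    rw [Finset.sum_eq_zero (fun b _ => if_neg (hJK j b)), sub_zero]
    by_cases h : i = j
    · subst h; simp
    · rw [if_neg h, if_neg (fun h' => h (hJJ _ _ h').symm)]
  have hVK : ∀ i b, c.V i (c.K b) =
      - ∑ a, A.adjugate b a * pderiv (c.J i) (c.F a) := by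
    intro i b
    rw [Crd.V, if_neg (fun h => hJK i b h.symm), zero_sub]
    congr 1
    rw [Finset.sum_eq_single b]
    · rw [if_pos rfl]
    · intro b' _ hb'
      exact if_neg (fun h => hb' (hKK _ _ h).symm)
    · intro h; exact absurd (Finset.mem_univ b) h
  refine ⟨?_, hVJ, ?_, by omega⟩
  · -- (1)
    intro i q hq
    haveI := hP
    have hG := GTAM.gen_frac P
    obtain ⟨L, iF, iA, φ, hG⟩ : ∃ (L : Type) (_ : Field L) (_ : Algebra ℂ L)
      (φ : PR N →ₐ[ℂ] L), Gen P L φ := ⟨_, _, _, _, hG⟩
    obtain ⟨hdim, -⟩ := hTGD N n P hP htr L iF iA φ hG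
    have hvf : vf (c.V i) q = (bm (pderiv (c.J i) q) (fun b => pderiv (c.K b) q)
        (fun a => pderiv (c.J i) (c.F a)) A).det := by
      rw [det_bm, vf, hsum]
      have h1 : ∑ j, c.V i (c.J j) * pderiv (c.J j) q = pderiv (c.J i) q * A.det := by
        rw [Finset.sum_eq_single i]
        · rw [hVJ, if_pos rfl, mul_comm]; rfl
        · intro j _ hj
          rw [hVJ, if_neg (fun h => hj h.symm), zero_mul]
        · intro h; exact absurd (Finset.mem_univ i) h
      rw [h1, sub_eq_add_neg, ← Finset.sum_neg_distrib]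
      congr 1
      refine Finset.sum_congr rfl fun b _ => ?_
      rw [hVK]
      ring
    rw [← hG.ker, hvf]
    by_contra hne
    -- the rows
    let w : Unit ⊕ Fin (N - n) → PR N := Sum.elim (fun _ => q) c.F
    have hw : ∀ k, w k ∈ P := by
      rintro (k | k)
      · exact hq
      · exact c.mem k
    let ι : Unit ⊕ Fin (N - n) → Fin N := Sum.elim (fun _ => c.J i) c.K
    let M : Matrix (Unit ⊕ Fin (N - n)) (Unit ⊕ Fin (N - n)) L :=
      Matrix.of fun k l => φ (pderiv (ι l) (w k))
    have hM : M.det ≠ 0 := by
      intro h0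
      apply hne
      have h1 : φ (bm (pderiv (c.J i) q) (fun b => pderiv (c.K b) q)
        (fun a => pderiv (c.J i) (c.F a)) A).det = M.det := by
        have h2 := RingHom.map_det (φ : PR N →+* L) (bm (pderiv (c.J i) q)
          (fun b => pderiv (c.K b) q) (fun a => pderiv (c.J i) (c.F a)) A)
        have h3 : (φ : PR N →+* L).mapMatrix (bm (pderiv (c.J i) q)
          (fun b => pderiv (c.K b) q) (fun a => pderiv (c.J i) (c.F a)) A) = M := by
          ext k l
          rcases k with k | k <;> rcases l with l | l <;> rfl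
        rw [h3] at h2
        exact h2
      rw [h1, h0]
    let Φ : (Fin N → L) →ₗ[L] (Unit ⊕ Fin (N - n) → L) :=
      { toFun := fun t k => ∑ l, t l * φ (pderiv l (w k))
        map_add' := by
          intro s t
          funext k
          simp only [Pi.add_apply, add_mul, Finset.sum_add_distrib]
        map_smul' := by
          intro a t
          funext k
          simp only [Pi.smul_apply, smul_eq_mul, mul_assoc, ← Finset.mul_sum, RingHom.id_apply] }
    have hsurj : Function.Surjective Φ := by
      intro y
      have hMu : IsUnit M.det := isUnit_iff_ne_zero.2 hM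
      let s : Unit ⊕ Fin (N - n) → L := M⁻¹.mulVec y
      have hs : M.mulVec s = y := by
        rw [Matrix.mulVec_mulVec, Matrix.mul_nonsing_inv _ hMu, Matrix.one_mulVec]
      refine ⟨∑ l, s l • Pi.single (ι l) (1 : L), ?_⟩
      rw [map_sum, ← hs]
      funext k
      simp only [Finset.sum_apply, map_smul, Pi.smul_apply, smul_eq_mul]
      rw [Matrix.mulVec, dotProduct]
      refine Finset.sum_congr rfl fun l _ => ?_
      have h1 : Φ (Pi.single (ι l) (1 : L)) k = M k l := by
        change ∑ l', (Pi.single (ι l) (1 : L) : Fin N → L) l' * φ (pderiv l' (w k)) = _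
        rw [Finset.sum_eq_single (ι l)]
        · rw [Pi.single_eq_same, one_mul]; rfl
        · intro b _ hb
          rw [Pi.single_eq_of_ne hb, zero_mul]
        · intro h; exact absurd (Finset.mem_univ _) h
      rw [h1, mul_comm]
    have hle : tsp P φ ≤ LinearMap.ker Φ := by
      intro t ht
      rw [LinearMap.mem_ker]
      funext k
      exact ht (w k) (hw k)
    have h1 := Submodule.finrank_mono hle
    have h2 := LinearMap.finrank_range_add_finrank_ker Φ
    rw [LinearMap.range_eq_top.2 hsurj, finrank_top] at h2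
    simp only [Module.finrank_fintype_fun_eq_card, Fintype.card_sum, Fintype.card_unit,
      Fintype.card_fin] at h2
    rw [hdim] at h1
    omega
  · -- (3)
    intro v e he l
    obtain ⟨x, rfl⟩ := c.bij.2 l
    rcases x with j | b
    · have h1 : c.Δ * v (Sum.elim c.J c.K (Sum.inl j)) -
          ∑ i, v (c.J i) * c.V i (Sum.elim c.J c.K (Sum.inl j)) = 0 := by
        rw [Sum.elim_inl, Finset.sum_eq_single j]
        · rw [hVJ, if_pos rfl]; ring
        · intro i _ hi
          rw [hVJ, if_neg hi, mul_zero]
        · intro h; exact absurd (Finset.mem_univ _) h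
      rw [h1]
      exact e.zero_mem
    · have h1 : c.Δ * v (c.K b) - ∑ i, v (c.J i) * c.V i (c.K b) =
          ∑ a, A.adjugate b a * vf v (c.F a) := by
        have h2 : ∀ a, vf v (c.F a) = ∑ i, v (c.J i) * pderiv (c.J i) (c.F a) +
            ∑ b', v (c.K b') * A a b' := by
          intro a
          rw [vf, hsum]
          rfl
        have h3 : ∑ a, A.adjugate b a * ∑ b', v (c.K b') * A a b' = c.Δ * v (c.K b) := by
          have h4 : ∑ a, A.adjugate b a * ∑ b', v (c.K b') * A a b' =
              ∑ b', (A.adjugate * A) b b' * v (c.K b') := by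
            simp only [Matrix.mul_apply, Finset.mul_sum, Finset.sum_mul]
            rw [Finset.sum_comm]
            refine Finset.sum_congr rfl fun b' _ => Finset.sum_congr rfl fun a _ => ?_
            ring
          rw [h4, Matrix.adjugate_mul]
          simp only [Matrix.smul_apply, Matrix.one_apply, smul_eq_mul, mul_ite, mul_one, mul_zero,
            ite_mul, zero_mul, Finset.sum_ite_eq, Finset.mem_univ, if_true]
          rfl
        have h5 : ∑ i, v (c.J i) * c.V i (c.K b) =
            - ∑ a, A.adjugate b a * ∑ i, v (c.J i) * pderiv (c.J i) (c.F a) := by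
          simp only [hVK, mul_neg, Finset.sum_neg_distrib, Finset.mul_sum]
          rw [Finset.sum_comm]
          congr 1
          refine Finset.sum_congr rfl fun a _ => Finset.sum_congr rfl fun i _ => ?_
          ring
        rw [h5, ← h3, sub_neg_eq_add, ← Finset.sum_add_distrib]
        refine Finset.sum_congr rfl fun a _ => ?_
        rw [h2]
        ring
      rw [Sum.elim_inr, h1]
      exact Ideal.sum_mem _ fun a _ => Ideal.mul_mem_left _ _ (he a)

end Pool.Agent.Lib.MPc9b009.LF
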