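import Pool.Agent.Lib.MP_c9b009_ag.LF.SpecK
import Pool.Agent.Lib.MP_c9b009_ag.LS.EUH

/-!
# MP_c9b009_ag, row LF, module VLU: the analytic volume form (helper80)
-/

set_option autoImplicit false

namespace Pool.Agent.Lib.MPc9b009.LF

open MvPolynomial Pool.Agent.Lib.MPc9b009.B5 Pool.Agent.Lib.MPc9b009.OD
  Pool.Agent.Lib.MPc9b009.PS Pool.Agent.Lib.MPc9b009.LS

namespace VLUM

variable {N d : ℕ} {P : Ideal (PR N)}

/-! ### the coordinates -/

theorem J_inj (c : Crd P d) : Function.Injective c.J := fun a b h =>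
  Sum.inl_injective (c.bij.1 (show Sum.elim c.J c.K (Sum.inl a) = Sum.elim c.J c.K (Sum.inl b)
    from h))

theorem K_inj (c : Crd P d) : Function.Injective c.K := fun a b h =>
  Sum.inr_injective (c.bij.1 (show Sum.elim c.J c.K (Sum.inr a) = Sum.elim c.J c.K (Sum.inr b)
    from h))

theorem J_ne_K (c : Crd P d) (j : Fin d) (b : Fin (N - d)) : c.J j ≠ c.K b := fun h =>
  Sum.inl_ne_inr (c.bij.1 (show Sum.elim c.J c.K (Sum.inl j) = Sum.elim c.J c.K (Sum.inr b)
    from h))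

theorem V_J (c : Crd P d) (i j : Fin d) : c.V i (c.J j) = if i = j then c.Δ else 0 := by
  unfold Crd.V
  rw [Finset.sum_eq_zero (fun b _ => if_neg (J_ne_K c j b)), sub_zero]
  by_cases h : i = j
  · subst h
    rw [if_pos rfl, if_pos rfl]
  · rw [if_neg h, if_neg (fun h' => h (J_inj c h').symm)]

theorem V_K (c : Crd P d) (i : Fin d) (b : Fin (N - d)) :
    c.V i (c.K b) = - ∑ a, (Matrix.of fun a b => pderiv (c.K b) (c.F a)).adjugate b a *
      pderiv (c.J i) (c.F a) := by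
  unfold Crd.V
  rw [if_neg (fun h => J_ne_K c i b h.symm), zero_sub, Finset.sum_eq_single b]
  · rw [if_pos rfl]
  · intro b' _ hb'
    rw [if_neg (fun h => hb' (K_inj c h).symm)]
  · intro h
    exact absurd (Finset.mem_univ b) h

theorem sum_split {A : Type} [AddCommMonoid A] (c : Crd P d) (f : Fin N → A) :
    ∑ l, f l = ∑ j, f (c.J j) + ∑ b, f (c.K b) := by
  rw [← (Equiv.ofBijective _ c.bij).sum_comp f, Fintype.sum_sum_type]
  rfl

/-- a vector which is killed by the equations is determined by its coordinates `J` -/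
theorem tvec (c : Crd P d) (x t : Cn N)
    (ht : ∀ a, ∑ l, t l * eval x (pderiv l (c.F a)) = 0) (l : Fin N) :
    eval x c.Δ * t l = ∑ i, t (c.J i) * eval x (c.V i l) := by
  obtain ⟨s, rfl⟩ := c.bij.2 l
  cases s with
  | inl j =>
    simp only [Sum.elim_inl]
    rw [Finset.sum_eq_single j]
    · rw [V_J, if_pos rfl, mul_comm]
    · intro i _ hi
      rw [V_J, if_neg hi, map_zero, mul_zero]
    · intro h
      exact absurd (Finset.mem_univ j) h
  | inr b =>
    simp only [Sum.elim_inr]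
    set A : Matrix (Fin (N - d)) (Fin (N - d)) (PR N) :=
      Matrix.of fun a b => pderiv (c.K b) (c.F a) with hA
    have h1 : ∀ b', ∑ a, A.adjugate b a * A a b' = if b = b' then c.Δ else 0 := by
      intro b'
      have h := congrFun (congrFun (Matrix.adjugate_mul A) b) b'
      rw [Matrix.mul_apply] at h
      rw [h, Matrix.smul_apply, Matrix.one_apply, smul_eq_mul]
      split_ifs
      · rw [mul_one]
        rfl
      · rw [mul_zero]
    have h2 : ∀ a, ∑ b', t (c.K b') * eval x (A a b') =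
        - ∑ i, t (c.J i) * eval x (pderiv (c.J i) (c.F a)) := by
      intro a
      have h := ht a
      rw [sum_split c] at h
      exact eq_neg_of_add_eq_zero_right h
    calc eval x c.Δ * t (c.K b) = ∑ b', t (c.K b') * eval x (if b = b' then c.Δ else 0) := by
          rw [Finset.sum_eq_single b]
          · rw [if_pos rfl, mul_comm]
          · intro b' _ hb'
            rw [if_neg (fun h => hb' h.symm), map_zero, mul_zero]
          · intro h
            exact absurd (Finset.mem_univ b) h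
      _ = ∑ b', ∑ a, eval x (A.adjugate b a) * (t (c.K b') * eval x (A a b')) := by
          refine Finset.sum_congr rfl fun b' _ => ?_
          rw [← h1 b', map_sum, Finset.mul_sum]
          refine Finset.sum_congr rfl fun a _ => ?_
          rw [map_mul]
          ring
      _ = ∑ a, eval x (A.adjugate b a) * ∑ b', t (c.K b') * eval x (A a b') := by
          rw [Finset.sum_comm]
          refine Finset.sum_congr rfl fun a _ => ?_
          rw [Finset.mul_sum]
      _ = ∑ a, ∑ i, - (eval x (A.adjugate b a) *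
            (t (c.J i) * eval x (pderiv (c.J i) (c.F a)))) := by
          refine Finset.sum_congr rfl fun a _ => ?_
          rw [h2 a, mul_neg, Finset.mul_sum, Finset.sum_neg_distrib]
      _ = ∑ i, t (c.J i) * eval x (c.V i (c.K b)) := by
          rw [Finset.sum_comm]
          refine Finset.sum_congr rfl fun i _ => ?_
          rw [V_K, map_neg, map_sum, mul_neg, Finset.mul_sum, Finset.sum_neg_distrib]
          refine congrArg _ (Finset.sum_congr rfl fun a _ => ?_)
          rw [map_mul]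
          ring

/-! ### charts -/

theorem ae (x : Cn N) (q : PR N) : aeval x q = eval x q := by
  rw [aeval_def, eval, eval₂Hom]
  rfl

variable {M : Set (Cn N)} (ch : Cht N d M (tgx P)) (c : Crd P d)

/-- the derivatives of the chart -/
theorem dG (hI : ch.I = c.J) {y : Cn d} (hy : y ∈ ch.B) (i : Fin d) (l : Fin N) :
    eval (ch.G y) c.Δ * fderiv ℂ ch.G y (Pi.single i 1) l = eval (ch.G y) (c.V i l) := by
  have ht : fderiv ℂ ch.G y (Pi.single i 1) ∈ tgx P (ch.G y) := by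
    rw [← ch.tan y hy]
    exact ⟨_, rfl⟩
  rw [tvec c (ch.G y) _ (fun a => ?_) l, Finset.sum_eq_single i]
  · rw [← hI, BASM.coord ch hy, Pi.single_eq_same, one_mul]
  · intro j _ hj
    rw [← hI, BASM.coord ch hy, Pi.single_eq_of_ne hj, zero_mul]
  · intro h
    exact absurd (Finset.mem_univ i) h
  · have := ht (c.F a) (c.mem a)
    simpa only [ae] using this

theorem hasF {y : Cn d} (hy : y ∈ ch.B) (q : PR N) :
    HasFDerivAt (fun z => eval (ch.G z) q) ((LGRM.grad q (ch.G y)).comp (fderiv ℂ ch.G y)) y :=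
  (LGRM.hasFDerivAt_eval q (ch.G y)).comp y (BASM.diffAt ch hy).hasFDerivAt

/-- a stable field is tangent -/
theorem vG (hM : M ⊆ Zer P) (hI : ch.I = c.J) {v : Fin N → PR N} (hv : ∀ q ∈ P, vf v q ∈ P)
    {y : Cn d} (hy : y ∈ ch.B) :
    fderiv ℂ ch.G y (fun k => eval (ch.G y) (v (c.J k))) = fun l => eval (ch.G y) (v l) := by
  have ht : (fun l => eval (ch.G y) (v l)) ∈ tgx P (ch.G y) := by
    intro q hq
    have h := hM (ch.mem y hy).1 _ (hv q hq)
    rw [vf, map_sum] at h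
    rw [← h]
    refine Finset.sum_congr rfl fun l _ => ?_
    rw [map_mul, ae]
  rw [← ch.tan y hy] at ht
  obtain ⟨η, hη⟩ := ht
  have hη' : fderiv ℂ ch.G y η = fun l => eval (ch.G y) (v l) := hη
  have h2 : (fun k => eval (ch.G y) (v (c.J k))) = η := by
    funext k
    have h3 := BASM.coord ch hy η k
    rw [hη', hI] at h3
    exact h3
  rw [h2, hη']

theorem dv (hM : M ⊆ Zer P) (hI : ch.I = c.J) {v : Fin N → PR N} (hv : ∀ q ∈ P, vf v q ∈ P)
    {y : Cn d} (hy : y ∈ ch.B) (q : PR N) :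
    ((LGRM.grad q (ch.G y)).comp (fderiv ℂ ch.G y)) (fun k => eval (ch.G y) (v (c.J k))) =
      eval (ch.G y) (vf v q) := by
  rw [ContinuousLinearMap.comp_apply, vG ch c hM hI hv hy, LGRM.grad_apply, vf, map_sum]
  refine Finset.sum_congr rfl fun l _ => ?_
  rw [map_mul, mul_comm]

theorem dV (hI : ch.I = c.J) {y : Cn d} (hy : y ∈ ch.B) (k : Fin d) (q : PR N) :
    eval (ch.G y) c.Δ * ((LGRM.grad q (ch.G y)).comp (fderiv ℂ ch.G y)) (Pi.single k 1) =
      eval (ch.G y) (vf (c.V k) q) := by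
  rw [ContinuousLinearMap.comp_apply, LGRM.grad_apply, vf, map_sum, Finset.mul_sum]
  refine Finset.sum_congr rfl fun l _ => ?_
  rw [map_mul, ← dG ch c hI hy]
  ring

/-- the derivative of the coefficient -/
theorem dm (hM : M ⊆ Zer P) (hI : ch.I = c.J) {v : Fin N → PR N} (hv : ∀ q ∈ P, vf v q ∈ P)
    (n : ℕ) (hn : 0 < n) (a b : PR N) (m : Cn d → ℂ)
    (hl : c.Δ * (b * vf v a - a * vf v b) -
      (n : PR N) * (∑ j, vf (c.V j) (v (c.J j))) * (a * b) ∈ P)
    (hm : ∀ z ∈ ch.B, m z ^ n * eval (ch.G z) a = eval (ch.G z) b)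
    {y : Cn d} (hy : y ∈ ch.B) (hd : DifferentiableAt ℂ m y) (ha : eval (ch.G y) a ≠ 0)
    (hb : eval (ch.G y) b ≠ 0) :
    eval (ch.G y) c.Δ * fderiv ℂ m y (fun k => eval (ch.G y) (v (c.J k))) =
      - eval (ch.G y) (∑ j, vf (c.V j) (v (c.J j))) * m y := by
  have h1 := (hd.hasFDerivAt.pow n).mul (hasF ch hy a)
  have h2 : (fun z => m z ^ n * eval (ch.G z) a) =ᶠ[nhds y] fun z => eval (ch.G z) b := by
    filter_upwards [ch.oB.mem_nhds hy] with z hz
    exact hm z hz
  have h3 := (hasF ch hy b).unique (h1.congr_of_eventuallyEq h2.symm)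
  have h4 := congrArg (fun Λ : Cn d →L[ℂ] ℂ => Λ (fun k => eval (ch.G y) (v (c.J k)))) h3
  simp only [_root_.add_apply, smul_apply] at h4
  rw [dv ch c hM hI hv hy, dv ch c hM hI hv hy] at h4
  set w : Cn d := fun k => eval (ch.G y) (v (c.J k)) with hw
  have h5 := hm y hy
  have h6 := hM (ch.mem y hy).1 _ hl
  simp only [map_sub, map_mul, map_natCast] at h6
  have hm0 : m y ^ n ≠ 0 := by
    intro h
    rw [h, zero_mul] at h5
    exact hb h5.symm
  have hpow : m y ^ n = m y ^ (n - 1) * m y := by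
    rw [← pow_succ, Nat.sub_add_cancel hn]
  have hn' : (n : ℂ) ≠ 0 := Nat.cast_ne_zero.2 (Nat.pos_iff_ne_zero.1 hn)
  have hp : m y ^ (n - 1) ≠ 0 := fun h => hm0 (by rw [hpow, h, zero_mul])
  simp only [smul_eq_mul, nsmul_eq_mul] at h4
  rw [hpow] at h4 h5
  rw [h4, ← h5] at h6
  have h7 : ((n : ℂ) * eval (ch.G y) a ^ 2 * m y ^ (n - 1)) *
      (eval (ch.G y) c.Δ * fderiv ℂ m y w +
        eval (ch.G y) (∑ j, vf (c.V j) (v (c.J j))) * m y) = 0 := by
    linear_combination -h6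
  have h8 := (mul_eq_zero.1 h7).resolve_left
    (mul_ne_zero (mul_ne_zero hn' (pow_ne_zero 2 ha)) hp)
  rw [neg_mul]
  exact eq_neg_of_add_eq_zero_left h8

/-- the fields of `Flds g` preserve `P` -/
theorem stab {g : Biv N} (hst : Stab g.f P) (hP : Hom P) :
    ∀ v ∈ Flds g, ∀ q ∈ P, vf v q ∈ P := by
  rintro v (rfl | ⟨a, rfl⟩) q hq
  · exact (specEUH N P).2 hP q hq
  · have h := hst q hq a
    have h2 : vf (fun l => g.f a l) q = - ∑ i, g.f i a * pderiv i q := by
      rw [vf, ← Finset.sum_neg_distrib]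
      refine Finset.sum_congr rfl fun i _ => ?_
      rw [g.skew i a, neg_mul]
    rw [h2]
    exact P.neg_mem h

/-- local data of the volume form -/
structure Idx {g : Biv N} {L : Type} [Field L] [Algebra ℂ L] {φ : PR N →ₐ[ℂ] L}
    (I : InvV d (Flds g) φ) (P b : Ideal (PR N)) : Type where
  /-- the coordinates -/
  c : Crd P d
  /-- numerator -/
  p : PR N
  /-- denominator -/
  q : PR N
  /-- the chart -/
  ch : Cht N d {x | x ∈ Zer P ∧ x ∉ Zer b} (tgx P)
  /-- the coefficient -/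
  m : Cn d → ℂ
  hI : ch.I = c.J
  hD : ∀ y ∈ ch.B, eval (ch.G y) c.Δ ≠ 0
  hp : ∀ y ∈ ch.B, eval (ch.G y) p ≠ 0
  hq : ∀ y ∈ ch.B, eval (ch.G y) q ≠ 0
  hl : φ q * I.lamB c.J = φ p
  sm : ContDiffOn ℂ 2 m ch.B
  pw : ∀ y ∈ ch.B, m y ^ I.M * eval (ch.G y) p = eval (ch.G y) q

theorem Idx.ldat {g : Biv N} {L : Type} [Field L] [Algebra ℂ L] {φ : PR N →ₐ[ℂ] L}
    {I : InvV d (Flds g) φ} {b : Ideal (PR N)} (i : Idx I P b) {y : Cn d} (hy : y ∈ i.ch.B) :
    LDat I i.c i.p i.q (i.ch.G y) := ⟨i.hD y hy, i.hp y hy, i.hq y hy, i.hl⟩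

theorem Idx.ne {g : Biv N} {L : Type} [Field L] [Algebra ℂ L] {φ : PR N →ₐ[ℂ] L}
    {I : InvV d (Flds g) φ} {b : Ideal (PR N)} (i : Idx I P b) {y : Cn d} (hy : y ∈ i.ch.B) :
    i.m y ≠ 0 := by
  intro h
  have h1 := i.pw y hy
  rw [h, zero_pow (Nat.pos_iff_ne_zero.1 I.pos), zero_mul] at h1
  exact i.hq y hy h1.symm

theorem Idx.diff {g : Biv N} {L : Type} [Field L] [Algebra ℂ L] {φ : PR N →ₐ[ℂ] L}
    {I : InvV d (Flds g) φ} {b : Ideal (PR N)} (i : Idx I P b) {y : Cn d} (hy : y ∈ i.ch.B) :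
    DifferentiableAt ℂ i.m y :=
  (i.sm.differentiableOn (by norm_num)).differentiableAt (i.ch.oB.mem_nhds hy)

/-- the root: construction of the coefficient -/
theorem root (p q : PR N) {B : Set (Cn d)} {G : Cn d → Cn N}
    (hG : ContDiffOn ℂ 3 G B) (x : Cn N) (hp : eval x p ≠ 0) (hq : eval x q ≠ 0)
    (h : ∀ y ∈ B, ‖eval (G y) q * eval x p - eval (G y) p * eval x q‖ <
      ‖eval (G y) p * eval x q‖) (n : ℕ) (hn : n ≠ 0) :
    ∃ m : Cn d → ℂ, ContDiffOn ℂ 2 m B ∧
      ∀ y ∈ B, m y ^ n * eval (G y) p = eval (G y) q := by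
  have hn' : (n : ℂ) ≠ 0 := Nat.cast_ne_zero.2 hn
  set F : Cn d → ℂ := fun y => eval (G y) q * eval x p / (eval (G y) p * eval x q) with hF
  have hden : ∀ y ∈ B, eval (G y) p * eval x q ≠ 0 := by
    intro y hy h0
    have h1 := h y hy
    rw [h0, norm_zero] at h1
    exact absurd h1 (not_lt.2 (norm_nonneg _))
  have hFs : ∀ y ∈ B, F y ∈ Complex.slitPlane := by
    intro y hy
    apply Complex.ball_one_subset_slitPlane
    have h1 : F y - 1 = (eval (G y) q * eval x p - eval (G y) p * eval x q) /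
        (eval (G y) p * eval x q) := by
      rw [hF, sub_div, div_self (hden y hy)]
    rw [Metric.mem_ball, dist_eq_norm, h1, norm_div, div_lt_one (norm_pos_iff.2 (hden y hy))]
    exact h y hy
  have hFc : ContDiffOn ℂ 3 F B := by
    refine ContDiffOn.div ?_ ?_ hden
    · exact ((INVM.contDiff_eval q).comp_contDiffOn hG).mul contDiffOn_const
    · exact ((INVM.contDiff_eval p).comp_contDiffOn hG).mul contDiffOn_const
  refine ⟨fun y => (eval x q / eval x p) ^ ((n : ℂ)⁻¹) * Complex.exp (Complex.log (F y) / n),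
    ?_, ?_⟩
  · refine contDiffOn_const.mul (ContDiffOn.cexp fun y hy => ?_)
    exact ((Complex.contDiffAt_log (hFs y hy)).comp_contDiffWithinAt y
      ((hFc.of_le (by norm_num)) y hy)).div_const _
  · intro y hy
    have h0 : F y ≠ 0 := Complex.slitPlane_ne_zero (hFs y hy)
    rw [mul_pow, Complex.cpow_nat_inv_pow _ hn, ← Complex.exp_nat_mul, mul_div_cancel₀ _ hn',
      Complex.exp_log h0, hF]
    have := hden y hy
    have h1 : eval (G y) p ≠ 0 := left_ne_zero_of_mul this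
    field_simp

/-- the transformation rule -/
theorem trans {g : Biv N} {L : Type} [Field L] [Algebra ℂ L] {φ : PR N →ₐ[ℂ] L}
    {I : InvV d (Flds g) φ} {b : Ideal (PR N)} (i j : Idx I P b) {y y' : Cn d}
    (hy : y ∈ i.ch.B) (hy' : y' ∈ j.ch.B) (h : i.ch.G y = j.ch.G y')
    (h3 : j.p * i.q * i.c.Δ ^ (d * I.M) -
      (Matrix.of fun a b => i.c.V a (j.c.J b)).det ^ I.M * i.p * j.q ∈ P) :
    ∃ u : ℂ, ‖u‖ = 1 ∧ i.m y = u * jdet i.ch j.ch y * j.m y' := by
  have hx : i.ch.G y ∈ Zer P := (i.ch.mem y hy).1.1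
  have hM0 : I.M ≠ 0 := Nat.pos_iff_ne_zero.1 I.pos
  have e1 := hx _ h3
  have hdet : eval (i.ch.G y) (Matrix.of fun a b => i.c.V a (j.c.J b)).det =
      eval (i.ch.G y) i.c.Δ ^ d * jdet i.ch j.ch y := by
    have h5 : (eval (i.ch.G y)).mapMatrix (Matrix.of fun a b => i.c.V a (j.c.J b)) =
        eval (i.ch.G y) i.c.Δ • (Matrix.of fun a b : Fin d =>
          fderiv ℂ i.ch.G y (Pi.single b 1) (j.ch.I a)).transpose := by
      ext a b'
      rw [RingHom.mapMatrix_apply, Matrix.map_apply, Matrix.of_apply, Matrix.smul_apply,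
        Matrix.transpose_apply, Matrix.of_apply, smul_eq_mul, dG i.ch i.c i.hI hy, j.hI]
    rw [RingHom.map_det, h5, Matrix.det_smul, Fintype.card_fin, Matrix.det_transpose]
    rfl
  rw [map_sub, map_mul, map_mul, map_mul, map_mul, map_pow, map_pow, hdet] at e1
  have hi := i.pw y hy
  have hj := j.pw y' hy'
  rw [← h] at hj
  have np : eval (i.ch.G y) i.p ≠ 0 := i.hp y hy
  have np' : eval (i.ch.G y) j.p ≠ 0 := by
    rw [h]
    exact j.hp y' hy'
  have nD : eval (i.ch.G y) i.c.Δ ≠ 0 := i.hD y hy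
  have key : i.m y ^ I.M = (jdet i.ch j.ch y * j.m y') ^ I.M := by
    rw [← hi, ← hj, mul_pow, pow_mul] at e1
    rw [mul_pow]
    have h7 : (eval (i.ch.G y) j.p * eval (i.ch.G y) i.p *
        (eval (i.ch.G y) i.c.Δ ^ d) ^ I.M) *
        (i.m y ^ I.M - jdet i.ch j.ch y ^ I.M * j.m y' ^ I.M) = 0 := by
      linear_combination e1
    exact sub_eq_zero.1 ((mul_eq_zero.1 h7).resolve_left
      (mul_ne_zero (mul_ne_zero np' np) (pow_ne_zero _ (pow_ne_zero _ nD))))
  have hne : jdet i.ch j.ch y * j.m y' ≠ 0 := by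
    intro h0
    rw [h0, zero_pow hM0] at key
    exact i.ne hy (pow_eq_zero_iff hM0 |>.1 key)
  refine ⟨i.m y / (jdet i.ch j.ch y * j.m y'), ?_, ?_⟩
  · have h8 : (i.m y / (jdet i.ch j.ch y * j.m y')) ^ I.M = 1 := by
      rw [div_pow, key, div_self (pow_ne_zero _ hne)]
    have h9 := congrArg norm h8
    rw [norm_pow, norm_one] at h9
    exact (pow_eq_one_iff_of_nonneg (norm_nonneg _) hM0).1 h9
  · rw [mul_assoc, div_mul_cancel₀ _ hne]

/-- the divergence -/
theorem diver {g : Biv N} {L : Type} [Field L] [Algebra ℂ L] {φ : PR N →ₐ[ℂ] L}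
    {I : InvV d (Flds g) φ} {b : Ideal (PR N)} (i : Idx I P b) {v : Fin N → PR N}
    (hv : ∀ q ∈ P, vf v q ∈ P)
    (hl : i.c.Δ * (i.q * vf v i.p - i.p * vf v i.q) -
      (I.M : PR N) * (∑ j, vf (i.c.V j) (v (i.c.J j))) * (i.p * i.q) ∈ P)
    {y : Cn d} (hy : y ∈ i.ch.B) :
    ∑ a : Fin d, fderiv ℂ (fun z => i.m z * eval (i.ch.G z) (v (i.ch.I a))) y
      (Pi.single a 1) = 0 := by
  have hsub : {x | x ∈ Zer P ∧ x ∉ Zer b} ⊆ Zer P := fun x hx => hx.1
  have h1 := dm i.ch i.c hsub i.hI hv I.M I.pos i.p i.q i.m hl i.pw hy (i.diff hy) (i.hp y hy)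
    (i.hq y hy)
  have h2 : ∀ a : Fin d, fderiv ℂ (fun z => i.m z * eval (i.ch.G z) (v (i.ch.I a))) y
      (Pi.single a 1) = i.m y * ((LGRM.grad (v (i.c.J a)) (i.ch.G y)).comp
        (fderiv ℂ i.ch.G y)) (Pi.single a 1) +
        eval (i.ch.G y) (v (i.c.J a)) * fderiv ℂ i.m y (Pi.single a 1) := by
    intro a
    have h3 := (i.diff hy).hasFDerivAt.mul (hasF i.ch hy (v (i.ch.I a)))
    have h4 : fderiv ℂ (fun z => i.m z * eval (i.ch.G z) (v (i.ch.I a))) y = _ := h3.fderiv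
    rw [h4, i.hI]
    simp only [_root_.add_apply, smul_apply, smul_eq_mul]
  have h5 : (fun k => eval (i.ch.G y) (v (i.c.J k))) =
      ∑ a : Fin d, eval (i.ch.G y) (v (i.c.J a)) • (Pi.single a (1 : ℂ) : Cn d) := by
    funext k
    rw [Finset.sum_apply, Finset.sum_eq_single k]
    · rw [Pi.smul_apply, Pi.single_eq_same, smul_eq_mul, mul_one]
    · intro a _ ha
      rw [Pi.smul_apply, Pi.single_eq_of_ne ha.symm, smul_zero]
    · intro h
      exact absurd (Finset.mem_univ k) h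
  rw [h5, map_sum] at h1
  simp only [map_smul, smul_eq_mul] at h1
  have h6 : eval (i.ch.G y) i.c.Δ *
      ∑ a : Fin d, fderiv ℂ (fun z => i.m z * eval (i.ch.G z) (v (i.ch.I a))) y
      (Pi.single a 1) = 0 := by
    rw [Finset.sum_congr rfl fun a _ => h2 a, Finset.sum_add_distrib, mul_add, h1,
      Finset.mul_sum, map_sum]
    have h7 : ∀ a : Fin d, eval (i.ch.G y) i.c.Δ * (i.m y *
        ((LGRM.grad (v (i.c.J a)) (i.ch.G y)).comp (fderiv ℂ i.ch.G y)) (Pi.single a 1)) =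
        eval (i.ch.G y) (vf (i.c.V a) (v (i.c.J a))) * i.m y := by
      intro a
      rw [← dV i.ch i.c i.hI hy]
      ring
    rw [Finset.sum_congr rfl fun a _ => h7 a, ← Finset.sum_mul]
    ring
  exact (mul_eq_zero.1 h6).resolve_left (i.hD y hy)

/-- the degree -/
theorem degr {g : Biv N} {L : Type} [Field L] [Algebra ℂ L] {φ : PR N →ₐ[ℂ] L}
    {I : InvV d (Flds g) φ} {b : Ideal (PR N)} (i : Idx I P b)
    (hv : ∀ q ∈ P, vf (fun l => X l) q ∈ P)
    (hl : i.c.Δ * (i.q * vf (fun l => X l) i.p - i.p * vf (fun l => X l) i.q) -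
      (I.M : PR N) * (∑ j, vf (i.c.V j) ((fun l => X l : Fin N → PR N) (i.c.J j))) *
        (i.p * i.q) ∈ P)
    {y : Cn d} (hy : y ∈ i.ch.B) : fderiv ℂ i.m y y = -(d : ℂ) * i.m y := by
  have hsub : {x | x ∈ Zer P ∧ x ∉ Zer b} ⊆ Zer P := fun x hx => hx.1
  have h1 := dm i.ch i.c hsub i.hI hv I.M I.pos i.p i.q i.m hl i.pw hy (i.diff hy) (i.hp y hy)
    (i.hq y hy)
  have h2 : (fun k => eval (i.ch.G y) ((fun l => X l : Fin N → PR N) (i.c.J k))) = y := by
    funext k
    rw [eval_X, ← i.hI]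
    exact i.ch.co y hy k
  rw [h2] at h1
  have h3 : ∀ j, vf (i.c.V j) ((fun l => X l : Fin N → PR N) (i.c.J j)) = i.c.Δ := by
    intro j
    rw [vf, Finset.sum_eq_single (i.c.J j)]
    · rw [pderiv_X_self, mul_one, V_J, if_pos rfl]
    · intro l _ hl'
      rw [pderiv_X_of_ne hl'.symm, mul_zero]
    · intro h
      exact absurd (Finset.mem_univ _) h
  rw [Finset.sum_congr rfl fun j _ => h3 j, Finset.sum_const, Finset.card_univ,
    Fintype.card_fin, map_nsmul, nsmul_eq_mul] at h1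
  have h4 : eval (i.ch.G y) i.c.Δ * (fderiv ℂ i.m y y + (d : ℂ) * i.m y) = 0 := by
    rw [mul_add, h1]
    ring
  have h5 := (mul_eq_zero.1 h4).resolve_left (i.hD y hy)
  rw [neg_mul]
  exact eq_neg_of_add_eq_zero_left h5

end VLUM

open VLUM in
/-- **VLU**: the analytic volume form. -/
theorem specVLU (hLGC : SpecLGC) (hLOC : SpecLOC) : SpecVLU := by
  intro N d g P b hP hPh hbh hst htr h0 L _ _ φ hgen I hx
  obtain ⟨hcone, hch⟩ := hLGC N d P b hP hPh hbh htr h0 fun x h1 h2 => (hx x h1 h2).1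
  refine ⟨hcone, ?_⟩
  have hstab := stab hst hPh
  obtain ⟨hL1, hL2, hL3⟩ := hLOC N d P hP htr L _ _ φ hgen (Flds g) hstab I
  have hLd : ∀ (i : Idx I P b), ∀ y ∈ i.ch.B, ∀ v ∈ Flds g,
      i.c.Δ * (i.q * vf v i.p - i.p * vf v i.q) -
      (I.M : PR N) * (∑ j, vf (i.c.V j) (v (i.c.J j))) * (i.p * i.q) ∈ P := fun i y hy v hv =>
    hL2 _ (i.ch.mem y hy).1.1 i.c i.p i.q (i.ldat hy) v hv
  refine ⟨{ ι := Idx I P b
            c := fun i => i.ch
            m := fun i => i.m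
            cov := ?_
            sm := fun i => i.sm
            ne := fun i y hy => i.ne hy
            hom := fun i y hy => degr i (hstab _ (Or.inl rfl)) (hLd i y hy _ (Or.inl rfl)) hy
            tr := fun i j y hy y' hy' h => trans i j hy hy' h
              (hL3 _ (i.ch.mem y hy).1.1 i.c i.p i.q (i.ldat hy) _ (j.ch.mem y' hy').1.1 j.c
                j.p j.q (j.ldat hy')) }, ?_⟩
  · rintro x ⟨hx1, hx2⟩
    obtain ⟨⟨c, hc⟩, hB, hall⟩ := hx x hx1 hx2
    obtain ⟨p, q, -, hp, hq, hpq⟩ := hL1 x hx1 c hc hB (hall c.J)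
    have hO : IsOpen {z : Cn N | ‖eval z q * eval x p - eval z p * eval x q‖ <
        ‖eval z p * eval x q‖} := by
      refine isOpen_lt ?_ ?_
      · exact (((continuous_eval q).mul continuous_const).sub
          ((continuous_eval p).mul continuous_const)).norm
      · exact ((continuous_eval p).mul continuous_const).norm
    have hxO : x ∈ {z : Cn N | ‖eval z q * eval x p - eval z p * eval x q‖ <
        ‖eval z p * eval x q‖} := by
      show ‖eval x q * eval x p - eval x p * eval x q‖ < ‖eval x p * eval x q‖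
      rw [mul_comm (eval x q), sub_self, norm_zero]
      exact norm_pos_iff.2 (mul_ne_zero hp hq)
    obtain ⟨ch, hI, hxW, hWO, hD⟩ := hch x hx1 hx2 c hc _ hO hxO
    have hlt : ∀ y ∈ ch.B, ‖eval (ch.G y) q * eval x p - eval (ch.G y) p * eval x q‖ <
      ‖eval (ch.G y) p * eval x q‖ := fun y hy => hWO (ch.mem y hy).2
    obtain ⟨m, hm1, hm2⟩ := root p q ch.sm x hp hq hlt I.M (Nat.pos_iff_ne_zero.1 I.pos)
    refine ⟨⟨c, p, q, ch, m, hI, hD, ?_, ?_, hpq, hm1, hm2⟩, hxW⟩
    · intro y hy h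
      have h1 := hlt y hy
      rw [h, zero_mul, norm_zero] at h1
      exact absurd h1 (not_lt.2 (norm_nonneg _))
    · intro y hy h
      have h1 := hlt y hy
      rw [h, zero_mul, zero_sub, norm_neg] at h1
      exact lt_irrefl _ h1
  · intro a i y hy
    exact diver i (hstab _ (Or.inr ⟨a, rfl⟩)) (hLd i y hy _ (Or.inr ⟨a, rfl⟩)) hy

end Pool.Agent.Lib.MPc9b009.LF
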