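import Pool.Agent.Lib.MP_c9b009_ag.LF.SpecA

/-!
# MP_c9b009_ag, LF: WTL, differentiate the change of coordinates
-/

set_option autoImplicit false

namespace Pool.Agent.Lib.MPc9b009.LF

open MvPolynomial Pool.Agent.Lib.MPc9b009.B5 Pool.Agent.Lib.MPc9b009.OD
  Pool.Agent.Lib.MPc9b009.PS Pool.Agent.Lib.MPc9b009.LS

namespace WTLM

open LS.DIFM

variable {N : ℕ} {E : Type} [Field E] [Algebra ℂ E]

lemma dh_monomial (D : Derivation ℂ E E) (m : Fin N →₀ ℕ) (c : E) :
    dh D (monomial m c) = monomial m (D c) := by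
  classical
  ext n
  rw [coeff_dh, coeff_monomial, coeff_monomial]
  split_ifs
  · rfl
  · exact map_zero _

lemma dh_pderiv (D : Derivation ℂ E E) (a : Fin N) (Q : MvPolynomial (Fin N) E) :
    dh D (pderiv a Q) = pderiv a (dh D Q) := by
  induction Q using MvPolynomial.induction_on' with
  | monomial m c =>
    rw [pderiv_monomial, dh_monomial, dh_monomial, pderiv_monomial]
    congr 1
    rw [Derivation.leibniz, Derivation.map_natCast, smul_zero, zero_add, smul_eq_mul, mul_comm]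
  | add p q hp hq => rw [map_add, map_add, map_add, map_add, hp, hq]

lemma dh_comb {κ : Type} [Fintype κ] (D : Derivation ℂ E E) (p₀ : Cn N) (f : κ → PR N)
    (q : κ → Prop) [DecidablePred q] (m : κ → MvPolynomial (Fin N) E) :
    dh D (∑ j, (if q j then m j * tr E p₀ (f j) else 0)) =
      ∑ j, (if q j then dh D (m j) * tr E p₀ (f j) else 0) := by
  rw [map_sum]
  refine Finset.sum_congr rfl (fun j _ => ?_)
  split_ifs with hj
  · rw [Derivation.leibniz, dh_tr, smul_zero, zero_add, smul_eq_mul, mul_comm]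
  · exact map_zero _

lemma comb_mem {κ τ : Type} [Fintype κ] [DecidableEq τ] (f : κ → PR N) (blk : κ → τ) (t : τ)
    (p₀ : Cn N) (m : κ → MvPolynomial (Fin N) E) :
    ∑ j, (if blk j = t then m j * tr E p₀ (f j) else 0) ∈ gbi f blk t p₀ E := by
  refine Ideal.sum_mem _ (fun j _ => ?_)
  split_ifs with hj
  · exact Ideal.mul_mem_left _ _ (Ideal.subset_span ⟨j, hj, rfl⟩)
  · exact Ideal.zero_mem _

lemma lin_comb {R : Type} [CommRing R] {n : ℕ} (K : Fin n → Fin n → R) (r g : Fin n → R)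
    (i : Fin n) : ∑ a, (∑ j, K a j * r j) * g a - r i =
      ∑ j, (∑ a, g a * K a j - (if i = j then 1 else 0)) * r j := by
  have h1 : ∑ a, (∑ j, K a j * r j) * g a = ∑ j, (∑ a, g a * K a j) * r j := by
    simp only [Finset.sum_mul]
    rw [Finset.sum_comm]
    exact Finset.sum_congr rfl (fun j _ => Finset.sum_congr rfl (fun a _ => by ring))
  have h2 : r i = ∑ j, (if i = j then (1 : R) else 0) * r j := by
    simp
  rw [h1]
  conv_lhs => rw [h2]
  rw [← Finset.sum_sub_distrib]
  exact Finset.sum_congr rfl (fun j _ => by rw [sub_mul])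

omit [Algebra ℂ E] in
lemma YI_le (k : ℕ) : YI N (k + 1) E ≤ YI N k E := Ideal.pow_le_pow_right (by omega)

end WTLM

open WTLM LS.DIFM in
theorem specWTL (hJIN : SpecJIN) (hTRP : SpecTRP) : SpecWTL := by
  intro N k κ τ _ _ P f blk ι π p₀ E iF iA b D
  obtain ⟨K, -, hK⟩ := hJIN N (k + 1) E iF b.γ b.inv
  have h1 : ∀ i, ∑ a, (∑ j, K a j * dh D (b.γ j)) * pderiv a (b.γ i) - dh D (b.γ i) ∈
      YI N (k + 1) E := by
    intro i
    rw [lin_comb (fun a j => K a j) (fun j => dh D (b.γ j)) (fun a => pderiv a (b.γ i)) i]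
    exact Ideal.sum_mem _ (fun j _ => Ideal.mul_mem_right _ _ (hK i j))
  refine ⟨fun a => ∑ j, K a j * dh D (b.γ j), ?_, h1⟩
  refine hTRP N k κ τ _ _ P f blk ι π p₀ E iF iA b _ (fun i => dh D (b.γ i)) h1 (fun i => ?_)
    (fun i j => ?_)
  · have h2 := dh_mem D (k + 1) (b.e1 i)
    rw [map_sub, dh_comb, dh_aeval] at h2
    have h3 := Submodule.add_mem_sup (comb_mem f blk (blk i) p₀ (fun j => dh D (b.m i j))) h2
    rwa [add_sub_cancel] at h3
  · have h2 := dh_mem D (k + 1) (b.e3 i j)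
    rw [map_sub, map_sub, dh_comb, dh_aeval] at h2
    have h4 : dh D (∑ a, ∑ c, tr E p₀ (π a c) * pderiv a (b.γ i) * pderiv c (b.γ j)) =
        ∑ a, ∑ c, tr E p₀ (π a c) * (pderiv a (dh D (b.γ i)) * pderiv c (b.γ j) +
          pderiv a (b.γ i) * pderiv c (dh D (b.γ j))) := by
      rw [map_sum]
      refine Finset.sum_congr rfl (fun a _ => ?_)
      rw [map_sum]
      refine Finset.sum_congr rfl (fun c _ => ?_)
      rw [Derivation.leibniz, Derivation.leibniz, dh_tr, dh_pderiv, dh_pderiv]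
      simp only [smul_eq_mul]
      ring
    rw [h4] at h2
    have h3 := Submodule.add_mem_sup (comb_mem f blk ι p₀ (fun l => dh D (b.m3 i j l)))
      (YI_le k h2)
    rwa [add_sub_cancel] at h3

end Pool.Agent.Lib.MPc9b009.LF
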