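import Pool.Agent.Lib.MP_c9b009_ag.LF.BAD
import Pool.Agent.Lib.MP_c9b009_ag.LF.CAM
import Pool.Agent.Lib.MP_c9b009_ag.LF.CAS
import Pool.Agent.Lib.MP_c9b009_ag.LF.CHX
import Pool.Agent.Lib.MP_c9b009_ag.LF.CHY
import Pool.Agent.Lib.MP_c9b009_ag.LF.CIV
import Pool.Agent.Lib.MP_c9b009_ag.LF.CMI
import Pool.Agent.Lib.MP_c9b009_ag.LF.CND
import Pool.Agent.Lib.MP_c9b009_ag.LF.COI
import Pool.Agent.Lib.MP_c9b009_ag.LF.CPI
import Pool.Agent.Lib.MP_c9b009_ag.LF.CPR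
import Pool.Agent.Lib.MP_c9b009_ag.LF.CRR
import Pool.Agent.Lib.MP_c9b009_ag.LF.CSM
import Pool.Agent.Lib.MP_c9b009_ag.LF.CSY
import Pool.Agent.Lib.MP_c9b009_ag.LF.CTL
import Pool.Agent.Lib.MP_c9b009_ag.LF.CVA
import Pool.Agent.Lib.MP_c9b009_ag.LF.DSI
import Pool.Agent.Lib.MP_c9b009_ag.LF.DSU
import Pool.Agent.Lib.MP_c9b009_ag.LF.DUB
import Pool.Agent.Lib.MP_c9b009_ag.LF.DVA
import Pool.Agent.Lib.MP_c9b009_ag.LF.DVQ
import Pool.Agent.Lib.MP_c9b009_ag.LF.ETL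
import Pool.Agent.Lib.MP_c9b009_ag.LF.EVR
import Pool.Agent.Lib.MP_c9b009_ag.LF.FIN
import Pool.Agent.Lib.MP_c9b009_ag.LF.FLF
import Pool.Agent.Lib.MP_c9b009_ag.LF.FMA
import Pool.Agent.Lib.MP_c9b009_ag.LF.FMB
import Pool.Agent.Lib.MP_c9b009_ag.LF.FMC
import Pool.Agent.Lib.MP_c9b009_ag.LF.HGT
import Pool.Agent.Lib.MP_c9b009_ag.LF.HLX
import Pool.Agent.Lib.MP_c9b009_ag.LF.HTO
import Pool.Agent.Lib.MP_c9b009_ag.LF.ITQ
import Pool.Agent.Lib.MP_c9b009_ag.LF.JIN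
import Pool.Agent.Lib.MP_c9b009_ag.LF.KEB
import Pool.Agent.Lib.MP_c9b009_ag.LF.KTH
import Pool.Agent.Lib.MP_c9b009_ag.LF.LGC
import Pool.Agent.Lib.MP_c9b009_ag.LF.LNC
import Pool.Agent.Lib.MP_c9b009_ag.LF.LOC
import Pool.Agent.Lib.MP_c9b009_ag.LF.LOD
import Pool.Agent.Lib.MP_c9b009_ag.LF.LVF
import Pool.Agent.Lib.MP_c9b009_ag.LF.NDR
import Pool.Agent.Lib.MP_c9b009_ag.LF.NRM
import Pool.Agent.Lib.MP_c9b009_ag.LF.NZQ
import Pool.Agent.Lib.MP_c9b009_ag.LF.PFD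
import Pool.Agent.Lib.MP_c9b009_ag.LF.PFN
import Pool.Agent.Lib.MP_c9b009_ag.LF.PFT
import Pool.Agent.Lib.MP_c9b009_ag.LF.PFW
import Pool.Agent.Lib.MP_c9b009_ag.LF.PHA
import Pool.Agent.Lib.MP_c9b009_ag.LF.POV
import Pool.Agent.Lib.MP_c9b009_ag.LF.PTB
import Pool.Agent.Lib.MP_c9b009_ag.LF.PVB
import Pool.Agent.Lib.MP_c9b009_ag.LF.RDQ
import Pool.Agent.Lib.MP_c9b009_ag.LF.REB
import Pool.Agent.Lib.MP_c9b009_ag.LF.RHO
import Pool.Agent.Lib.MP_c9b009_ag.LF.SEI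
import Pool.Agent.Lib.MP_c9b009_ag.LF.SQR
import Pool.Agent.Lib.MP_c9b009_ag.LF.STI
import Pool.Agent.Lib.MP_c9b009_ag.LF.TGD
import Pool.Agent.Lib.MP_c9b009_ag.LF.TLB
import Pool.Agent.Lib.MP_c9b009_ag.LF.TLI
import Pool.Agent.Lib.MP_c9b009_ag.LF.TLM
import Pool.Agent.Lib.MP_c9b009_ag.LF.TLR
import Pool.Agent.Lib.MP_c9b009_ag.LF.TNG
import Pool.Agent.Lib.MP_c9b009_ag.LF.TRP
import Pool.Agent.Lib.MP_c9b009_ag.LF.TRS
import Pool.Agent.Lib.MP_c9b009_ag.LF.TRZ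
import Pool.Agent.Lib.MP_c9b009_ag.LF.UCX
import Pool.Agent.Lib.MP_c9b009_ag.LF.VCU
import Pool.Agent.Lib.MP_c9b009_ag.LF.VJP
import Pool.Agent.Lib.MP_c9b009_ag.LF.VLU
import Pool.Agent.Lib.MP_c9b009_ag.LF.WTL

/-!
# MP_c9b009_ag, row LF: theorem LF (all degeneracy loci of generically symplectic Poisson structures with a
reduced degeneracy divisor), assembly of the modules
-/

set_option autoImplicit false

namespace Pool.Agent.Lib.MPc9b009.LF

open MvPolynomial Pool.Agent.Lib.MPc9b009.B5 Pool.Agent.Lib.MPc9b009.OD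
  Pool.Agent.Lib.MPc9b009.PS Pool.Agent.Lib.MPc9b009.LS

theorem holdsEVR : SpecEVR := specEVR
theorem holdsPOV : SpecPOV := specPOV
theorem holdsCHX : SpecCHX := specCHX
theorem holdsCHY : SpecCHY := specCHY
theorem holdsUCX : SpecUCX := specUCX holdsCHY
theorem holdsHLX : SpecHLX := specHLX holdsPOV holdsCHX holdsUCX
theorem holdsVCU : SpecVCU := specVCU
theorem holdsCTL : SpecCTL := specCTL holdsVCU
theorem holdsITQ : SpecITQ := specITQ
theorem holdsNZQ : SpecNZQ := specNZQ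
theorem holdsPFT : SpecPFT := specPFT
theorem holdsPFN : SpecPFN := specPFN
theorem holdsTGD : SpecTGD := specTGD
theorem holdsRHO : SpecRHO := specRHO holdsTGD
theorem holdsSTI : SpecSTI := specSTI holdsRHO
theorem holdsVJP : SpecVJP := specVJP holdsTGD
theorem holdsBAD : SpecBAD := specBAD holdsSTI holdsVJP
theorem holdsPVB : SpecPVB := specPVB holdsVJP
theorem holdsLGC : SpecLGC := specLGC holdsVJP holdsPVB
theorem holdsLOC : SpecLOC := specLOC holdsVJP holdsRHO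
theorem holdsVLU : SpecVLU := specVLU holdsLGC holdsLOC
theorem holdsPFD : SpecPFD := specPFD
theorem holdsDVA : SpecDVA := specDVA holdsPFD
theorem holdsDSU : SpecDSU := specDSU
theorem holdsKTH : SpecKTH := specKTH holdsHLX holdsCTL holdsITQ holdsNZQ holdsPFT holdsPFN holdsBAD holdsVLU holdsDVA holdsDSU holdsEVR
theorem holdsREB : SpecREB := specREB
theorem holdsDUB : SpecDUB := specDUB
theorem holdsKEB : SpecKEB := specKEB holdsREB holdsDUB
theorem holdsPTB : SpecPTB := specPTB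
theorem holdsJIN : SpecJIN := specJIN
theorem holdsTRP : SpecTRP := specTRP holdsJIN
theorem holdsWTL : SpecWTL := specWTL holdsJIN holdsTRP
theorem holdsETL : SpecETL := specETL holdsJIN holdsTRP
theorem holdsLNC : SpecLNC := specLNC
theorem holdsTNG : SpecTNG := specTNG holdsTGD
theorem holdsLOD : SpecLOD := specLOD holdsVJP
theorem holdsSEI : SpecSEI := specSEI
theorem holdsCND : SpecCND := specCND
theorem holdsDSI : SpecDSI := specDSI
theorem holdsNRM : SpecNRM := specNRM holdsSEI holdsCND holdsDSI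
theorem holdsHTO : SpecHTO := specHTO
theorem holdsHGT : SpecHGT := specHGT
theorem holdsDVQ : SpecDVQ := specDVQ
theorem holdsSQR : SpecSQR := specSQR
theorem holdsRDQ : SpecRDQ := specRDQ holdsVJP
theorem holdsPFW : SpecPFW := specPFW holdsLOD holdsNRM holdsHTO holdsHGT holdsDVQ holdsSQR holdsRDQ
theorem holdsTLI : SpecTLI := specTLI
theorem holdsTLR : SpecTLR := specTLR
theorem holdsTLB : SpecTLB := specTLB holdsTLI holdsTLR
theorem holdsLVF : SpecLVF := specLVF holdsVJP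
theorem holdsTLM : SpecTLM := specTLM holdsPFW holdsTLB holdsLVF
theorem holdsTRS : SpecTRS := specTRS holdsKEB holdsPTB holdsWTL holdsLNC holdsTNG holdsTGD
theorem holdsTRZ : SpecTRZ := specTRZ holdsTLM holdsTRS
theorem holdsNDR : SpecNDR := specNDR
theorem holdsPHA : SpecPHA := specPHA holdsKEB holdsPTB holdsWTL holdsETL holdsLNC holdsTNG holdsTGD holdsTRZ holdsNDR
theorem holdsCAM : SpecCAM := specCAM
theorem holdsCPI : SpecCPI := specCPI
theorem holdsCPR : SpecCPR := specCPR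
theorem holdsCOI : SpecCOI := specCOI holdsCAM
theorem holdsCRR : SpecCRR := specCRR holdsCOI holdsCPR
theorem holdsCSM : SpecCSM := specCSM
theorem holdsCMI : SpecCMI := specCMI holdsCOI
theorem holdsCVA : SpecCVA := specCVA holdsCAM holdsTGD
theorem holdsCIV : SpecCIV := specCIV holdsCVA holdsTGD holdsCAM
theorem holdsCAS : SpecCAS := specCAS holdsPHA holdsCAM holdsCPI holdsCPR holdsCRR holdsCSM holdsCMI holdsCIV
theorem holdsCSY : SpecCSY := specCSY holdsPHA holdsCSM holdsCMI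
theorem holdsFLF : SpecFLF := specFLF holdsEVR holdsKTH holdsCAS holdsCSY
theorem holdsFMA : SpecFMA := specFMA
theorem holdsFMB : SpecFMB := specFMB
theorem holdsFMC : SpecFMC := specFMC
theorem holdsFIN : SpecFIN := specFIN holdsFLF holdsFMA holdsFMB holdsFMC

/-- THEOREM LF. -/
theorem LF_holds : SpecFIN := holdsFIN

end Pool.Agent.Lib.MPc9b009.LF
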