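import Pool.Agent.Lib.MP_c9b009_ag.LF.SpecK
import Pool.Agent.Lib.MP_c9b009_ag.LS.EUH

/-!
# MP_c9b009_ag, row LF, part K, module BAD: the bad locus
-/

set_option autoImplicit false

namespace Pool.Agent.Lib.MPc9b009.LF

open MvPolynomial Pool.Agent.Lib.MPc9b009.B5 Pool.Agent.Lib.MPc9b009.OD
  Pool.Agent.Lib.MPc9b009.PS Pool.Agent.Lib.MPc9b009.LS

namespace BADM

theorem vf_dd {N : ℕ} (v : Fin N → PR N) (q : PR N) : vf v q = PS.JSTM.dd v q :=
  (PS.JSTM.dd_apply v q).symm

/-- stable under the vector field `v` -/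
def St {N : ℕ} (v : Fin N → PR N) (I : Ideal (PR N)) : Prop := ∀ q ∈ I, vf v q ∈ I

theorem St.sup {N : ℕ} {v : Fin N → PR N} {I J : Ideal (PR N)} (hI : St v I) (hJ : St v J) :
    St v (I ⊔ J) := by
  intro q hq
  obtain ⟨a, ha, b, hb, rfl⟩ := Submodule.mem_sup.1 hq
  rw [vf_dd, map_add, ← vf_dd, ← vf_dd]
  exact Ideal.add_mem _ (Ideal.mem_sup_left (hI a ha)) (Ideal.mem_sup_right (hJ b hb))

theorem St.mul {N : ℕ} {v : Fin N → PR N} {I J : Ideal (PR N)} (hI : St v I) (hJ : St v J) :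
    St v (I * J) := by
  intro q hq
  refine Submodule.mul_induction_on hq ?_ ?_
  · intro a ha b hb
    rw [vf_dd, Derivation.leibniz, smul_eq_mul, smul_eq_mul, ← vf_dd, ← vf_dd]
    refine Ideal.add_mem _ (Ideal.mul_mem_mul ha (hJ b hb)) ?_
    rw [mul_comm b]
    exact Ideal.mul_mem_mul (hI a ha) hb
  · intro a b ha hb
    rw [vf_dd, map_add, ← vf_dd, ← vf_dd]
    exact Ideal.add_mem _ ha hb

/-- the ideal of the Jacobian minors of `P` -/
noncomputable def jI {N : ℕ} (m : ℕ) (P : Ideal (PR N)) : Ideal (PR N) :=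
  Ideal.span {z | ∃ (F : Fin m → PR N) (J : Fin m → Fin N), (∀ a, F a ∈ P) ∧
    z = (Matrix.of fun a b => pderiv (J b) (F a)).det}

theorem St.jac {N m : ℕ} {v : Fin N → PR N} {P : Ideal (PR N)} (hP : St v P) :
    St v (jI m P) := by
  intro z hz
  rw [vf_dd]
  refine Submodule.span_induction (p := fun z _ => PS.JSTM.dd v z ∈ jI m P) ?_ ?_ ?_ ?_ hz
  · rintro z ⟨F, J, hF, rfl⟩
    rw [PS.JSTM.dd_minor _ F J (Matrix.of fun a b => pderiv (J b) (F a))
      (fun a b => Matrix.of_apply _ _ _)]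
    refine Ideal.sub_mem _ (Ideal.sum_mem _ fun k _ => ?_)
      (Ideal.sum_mem _ fun i _ => Ideal.sum_mem _ fun l _ => Ideal.mul_mem_left _ _ ?_)
    · refine Ideal.subset_span ⟨_, J, fun a => ?_, rfl⟩
      by_cases h : a = k
      · subst h
        rw [Function.update_self, ← vf_dd]
        exact hP _ (hF a)
      · rw [Function.update_of_ne h]
        exact hF a
    · exact Ideal.subset_span ⟨F, _, hF, rfl⟩
  · rw [map_zero]; exact Ideal.zero_mem _
  · intro a b _ _ ha hb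
    rw [map_add]; exact Ideal.add_mem _ ha hb
  · intro a b hb hb'
    rw [smul_eq_mul, Derivation.leibniz, smul_eq_mul, smul_eq_mul]
    exact Ideal.add_mem _ (Ideal.mul_mem_left _ _ hb') (Ideal.mul_mem_right _ _ hb)

theorem stab_iff {N : ℕ} (g : Biv N) (I : Ideal (PR N)) :
    Stab g.f I ↔ ∀ a, St (fun l => g.f a l) I := by
  have h : ∀ (a : Fin N) (q : PR N), vf (fun l => g.f a l) q = -∑ l, g.f l a * pderiv l q := by
    intro a q
    unfold vf
    rw [← Finset.sum_neg_distrib]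
    refine Finset.sum_congr rfl fun l _ => ?_
    show g.f a l * pderiv l q = -(g.f l a * pderiv l q)
    rw [g.skew l a, neg_mul]
  constructor
  · intro hs a q hq
    rw [h]
    exact I.neg_mem (hs q hq a)
  · intro hs q hq a
    have h1 := hs a q hq
    rw [h] at h1
    exact I.neg_mem_iff.1 h1

theorem mem_mx {N : ℕ} (q : PR N) : q ∈ mx (0 : Cn N) ↔ eval (0 : Cn N) q = 0 :=
  RingHom.mem_ker

/-- the maximal ideal of the origin is stable -/
theorem st_mx {N : ℕ} {v : Fin N → PR N} (hv : ∀ l, eval (0 : Cn N) (v l) = 0) :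
    St v (mx (0 : Cn N)) := by
  intro q _
  rw [mem_mx]
  unfold vf
  rw [map_sum]
  refine Finset.sum_eq_zero fun l _ => ?_
  rw [map_mul, hv, zero_mul]

theorem eval_zero_coeff {N : ℕ} (q : PR N) : eval (0 : Cn N) q = coeff 0 q := by
  rw [MvPolynomial.eval_zero]
  rfl

theorem hom_eval {N e : ℕ} {q : PR N} (hq : q.IsHomogeneous e) (he : e ≠ 0) :
    eval (0 : Cn N) q = 0 := by
  rw [eval_zero_coeff]
  refine hq.coeff_eq_zero ?_
  rw [map_zero]
  exact he.symm

/-- a homogeneous prime is contained in the ideal of the origin -/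
theorem le_mx {N : ℕ} {P : Ideal (PR N)} (hP : P.IsPrime) (hH : Hom P) : P ≤ mx (0 : Cn N) := by
  intro q hq
  rw [mem_mx, eval_zero_coeff]
  by_contra hne
  have h1 := hH q hq 0
  rw [homogeneousComponent_zero] at h1
  refine hP.ne_top (Ideal.eq_top_of_isUnit_mem _ h1 ?_)
  exact (isUnit_iff_ne_zero.2 hne).map C

/-- the other coordinates -/
theorem exists_compl {N d : ℕ} (hd : d ≤ N) (K : Fin (N - d) → Fin N)
    (hK : Function.Injective K) : ∃ J : Fin d → Fin N, Function.Bijective (Sum.elim J K) := by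
  classical
  set s : Finset (Fin N) := (Finset.univ.image K)ᶜ with hs
  have hc : s.card = d := by
    rw [hs, Finset.card_compl, Finset.card_image_of_injective _ hK, Finset.card_univ,
      Fintype.card_fin, Fintype.card_fin]
    omega
  refine ⟨s.orderEmbOfFin hc, ?_⟩
  rw [Fintype.bijective_iff_injective_and_card]
  constructor
  · refine Function.Injective.sumElim (s.orderEmbOfFin hc).injective hK fun a b hab => ?_
    have h1 := s.orderEmbOfFin_mem hc a
    rw [hab, hs, Finset.mem_compl] at h1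
    exact h1 (Finset.mem_image_of_mem _ (Finset.mem_univ _))
  · rw [Fintype.card_sum, Fintype.card_fin, Fintype.card_fin, Fintype.card_fin]
    omega

theorem trdeg_leN {v : ℕ} (q : Ideal (PR v)) :
    Algebra.trdeg ℂ (PR v ⧸ q) ≤ ((v : ℕ) : Cardinal) := by
  have h1 : Algebra.trdeg ℂ (PR v ⧸ q) ≤ Algebra.trdeg ℂ (PR v) :=
    trdeg_le_of_surjective (Ideal.Quotient.mkₐ ℂ q) (Ideal.Quotient.mkₐ_surjective ℂ q)
  rw [MvPolynomial.trdeg_of_isDomain] at h1
  simpa using h1

theorem trdeg_mono {N : ℕ} {p q : Ideal (PR N)} (hp : p.IsPrime) (hq : q.IsPrime) (h : p ≤ q) :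
    Algebra.trdeg ℂ (PR N ⧸ q) ≤ Algebra.trdeg ℂ (PR N ⧸ p) := by
  rcases eq_or_lt_of_le h with rfl | hlt
  · exact le_rfl
  · exact le_trans (self_le_add_right _ _) (specMONO N p q hp hq hlt)

end BADM

open BADM in
theorem specBAD (hS : SpecSTI) (_ : SpecVJP) : SpecBAD := by
  intro N d s g P hP hH hSt _ htr hd hmin L iL iA φ hφ I
  have hrow : ∀ a, St (fun l => g.f a l) P := (stab_iff g P).1 hSt
  have hW : ∀ v ∈ Flds g, ∀ q ∈ P, vf v q ∈ P := by
    rintro v (rfl | ⟨a, rfl⟩) q hq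
    · exact (specEUH N P).2 hH q hq
    · exact hrow a q hq
  obtain ⟨j, hPj, hjP, hjs, hj2⟩ := hS N d P hP htr L iL iA φ hφ (Flds g) hW I
  have h0W : ∀ v ∈ Flds g, ∀ l, eval (0 : Cn N) (v l) = 0 := by
    rintro v (rfl | ⟨a, rfl⟩) l
    · simp
    · exact hom_eval (g.quad a l) two_ne_zero
  set b : Ideal (PR N) := mx (0 : Cn N) * (P ⊔ jI (N - d) P) * j ⊔ P with hb
  have hbs : ∀ v ∈ Flds g, St v b := fun v hv =>
    (((st_mx (h0W v hv)).mul ((St.sup (hW v hv) (St.jac (hW v hv))))).mul (hjs v hv)).sup (hW v hv)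
  have hbX : Hom b := (specEUH N b).1 (hbs _ (Or.inl rfl))
  have hbg : Stab g.f b := (stab_iff g b).2 fun a => hbs _ (Or.inr ⟨a, rfl⟩)
  have hPb : P ≤ b := le_sup_right
  -- not contained in `P`
  have hm : ¬ mx (0 : Cn N) ≤ P := by
    intro hle
    have h1 := PS.BGIM.trdeg_top P hP fun i => hle ((mem_mx _).2 (by simp))
    rw [htr] at h1
    have h2 : d = 0 := by exact_mod_cast h1
    omega
  have hJ : ¬ (P ⊔ jI (N - d) P) ≤ P := by
    intro hle
    obtain ⟨F, J, hF, hdet⟩ := PS.specJRK N d P hP hH htr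
    exact hdet (hle (Ideal.mem_sup_right (Ideal.subset_span ⟨F, J, hF, rfl⟩)))
  have hbP : ¬ b ≤ P := by
    intro hle
    have h1 : mx (0 : Cn N) * (P ⊔ jI (N - d) P) * j ≤ P := le_trans le_sup_left hle
    rcases (hP.mul_le).1 h1 with h2 | h2
    · rcases (hP.mul_le).1 h2 with h3 | h3
      · exact hm h3
      · exact hJ h3
    · exact hjP h2
  have hdN : d ≤ N := by
    have h1 := trdeg_leN P
    rw [htr] at h1
    exact_mod_cast h1
  refine ⟨b, hPb, hbX, ?_, ?_, ?_⟩
  · intro q hq hbq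
    obtain ⟨q₀, hq₀, hle⟩ := Ideal.exists_minimalPrimes_le hbq
    have hq₀p : q₀.IsPrime := hq₀.1.1
    have hbq₀ : b ≤ q₀ := hq₀.1.2
    have h1 : Stab g.f q₀ := specDMIN N N g.f b hbg q₀ hq₀
    have h2 : Stab (fun (i : Fin N) (_ : Fin 1) => (X i : PR N)) q₀ := by
      refine specDMIN N 1 _ b ?_ q₀ hq₀
      intro z hz _
      exact hbs _ (Or.inl rfl) z hz
    have h3 : Hom q₀ := (specEUH N q₀).1 fun z hz => h2 z hz 0
    refine (trdeg_mono hq₀p hq hle).trans (hmin q₀ hq₀p (hPb.trans hbq₀) ⟨h1, h3⟩ ?_)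
    rintro rfl
    exact hbP hbq₀
  · have hbm : b ≤ mx (0 : Cn N) :=
      sup_le (Ideal.mul_le_left.trans Ideal.mul_le_left) (le_mx hP hH)
    intro h hh
    exact (mem_mx h).1 (hbm hh)
  · intro x hx hxb
    obtain ⟨h, hh, hne⟩ : ∃ h ∈ b, eval x h ≠ 0 := by
      by_contra hcon
      push Not at hcon
      exact hxb hcon
    obtain ⟨u, hu, p, hp, rfl⟩ := Submodule.mem_sup.1 hh
    rw [map_add, hx p hp, add_zero] at hne
    have hxj : x ∉ Zer j := fun h0 => hne (h0 u (Ideal.mul_le_right hu))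
    have hxJ : x ∉ Zer (P ⊔ jI (N - d) P) := fun h0 =>
      hne (h0 u (Ideal.mul_le_right (Ideal.mul_le_left hu)))
    refine ⟨?_, (hj2 x hx hxj).1, (hj2 x hx hxj).2⟩
    have hgen : ∃ (F : Fin (N - d) → PR N) (K : Fin (N - d) → Fin N), (∀ a, F a ∈ P) ∧
        eval x (Matrix.of fun a b => pderiv (K b) (F a)).det ≠ 0 := by
      by_contra hcon
      push Not at hcon
      apply hxJ
      intro z hz
      have hle : P ⊔ jI (N - d) P ≤ RingHom.ker (eval x) := by
        refine sup_le (fun q hq => RingHom.mem_ker.2 (hx q hq)) (Ideal.span_le.2 ?_)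
        rintro z ⟨F, K, hF, rfl⟩
        exact RingHom.mem_ker.2 (hcon F K hF)
      exact RingHom.mem_ker.1 (hle hz)
    obtain ⟨F, K, hF, hdet⟩ := hgen
    have hK : Function.Injective K := by
      intro a a' haa
      by_contra hne'
      apply hdet
      rw [Matrix.det_zero_of_column_eq hne' (fun i => by simp [haa]), map_zero]
    obtain ⟨J, hJb⟩ := exists_compl hdN K hK
    exact ⟨⟨F, K, J, hF, hJb⟩, hdet⟩

end Pool.Agent.Lib.MPc9b009.LF
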