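import Pool.Agent.Lib.MP_c9b009_ag.LF.SpecC
import Pool.Agent.Lib.MP_c9b009_ag.LS.LMB

/-!
# MP_c9b009_ag, row LF, part C, module CPR (helper45): the rank in the chart
-/

set_option autoImplicit false

namespace Pool.Agent.Lib.MPc9b009.LF

open MvPolynomial Pool.Agent.Lib.MPc9b009.B5 Pool.Agent.Lib.MPc9b009.OD
  Pool.Agent.Lib.MPc9b009.PS Pool.Agent.Lib.MPc9b009.LS

namespace CPRM

theorem dot_apply {N : ℕ} (x ξ : Cn N) : dot x ξ = ∑ i, x i * ξ i := by
  simp [dot]

/-- the projection along `ℂ x` onto `{v_b = 0}` -/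
noncomputable def Pr {N : ℕ} (b : Fin N) (x : Cn N) : Cn N →ₗ[ℂ] Cn N :=
  LinearMap.id - (LinearMap.proj b : Cn N →ₗ[ℂ] ℂ).smulRight x

theorem Pr_apply {N : ℕ} (b : Fin N) (x v : Cn N) : Pr b x v = v - v b • x := by
  simp [Pr]

/-- the transposed projection -/
noncomputable def Pt {N : ℕ} (b : Fin N) (x : Cn N) : Cn N →ₗ[ℂ] Cn N :=
  LinearMap.id - (dot x).smulRight (Pi.single b (1 : ℂ))

theorem Pt_apply {N : ℕ} (b : Fin N) (x v : Cn N) :
    Pt b x v = v - dot x v • (Pi.single b (1 : ℂ) : Cn N) := by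
  simp [Pt]

theorem ker_Pr {N : ℕ} (b : Fin N) (x : Cn N) (hx : x b = 1) :
    LinearMap.ker (Pr b x) = Submodule.span ℂ {x} := by
  ext v
  rw [LinearMap.mem_ker, Pr_apply, Submodule.mem_span_singleton]
  constructor
  · intro h
    exact ⟨v b, (sub_eq_zero.1 h).symm⟩
  · rintro ⟨a, rfl⟩
    simp [hx]

theorem range_Pt {N : ℕ} (b : Fin N) (x : Cn N) (hx : x b = 1) :
    LinearMap.range (Pt b x) = LinearMap.ker (dot x) := by
  ext v
  rw [LinearMap.mem_range, LinearMap.mem_ker]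
  constructor
  · rintro ⟨w, rfl⟩
    have h1 : dot x (Pi.single b (1 : ℂ) : Cn N) = 1 := by
      rw [dot_apply, Finset.sum_eq_single b]
      · simp [hx]
      · intro i _ hi
        simp [hi]
      · intro h
        exact absurd (Finset.mem_univ _) h
    rw [Pt_apply, map_sub, map_smul, h1]
    simp
  · intro h
    refine ⟨v, ?_⟩
    rw [Pt_apply, h]
    simp

/-- the matrix of the chart is `Π A Πᵀ` -/
theorem factor {N : ℕ} (b : Fin N) (g : Biv N) (x : Cn N) :
    (mat (chP b g) x).mulVecLin = Pr b x ∘ₗ (mat g.f x).mulVecLin ∘ₗ Pt b x := by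
  have hbb : g.f b b = 0 := by
    have h := g.skew b b
    have h2 : (2 : PR N) * g.f b b = 0 := by linear_combination h
    rcases mul_eq_zero.1 h2 with h3 | h3
    · exact absurd h3 two_ne_zero
    · exact h3
  refine LinearMap.ext fun ξ => ?_
  funext i
  have hA : ∀ (w : Cn N) (l : Fin N), ((mat g.f x).mulVec w) l = ∑ j, eval x (g.f l j) * w j :=
    fun w l => rfl
  have hs : ∀ l, ((mat g.f x).mulVec (Pi.single b (1 : ℂ))) l = eval x (g.f l b) := by
    intro l
    rw [Matrix.mulVec_single_one]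
    rfl
  rw [LinearMap.comp_apply, LinearMap.comp_apply, Pr_apply, Pt_apply, Matrix.mulVecLin_apply,
    Matrix.mulVecLin_apply, Matrix.mulVec_sub, Matrix.mulVec_smul]
  simp only [Pi.sub_apply, Pi.smul_apply, smul_eq_mul]
  rw [hs, hs, hbb, map_zero, mul_zero, sub_zero, hA, hA, dot_apply]
  show ∑ j, eval x (chP b g i j) * ξ j = _
  unfold chP
  rw [Finset.sum_mul, Finset.sum_mul, ← Finset.sum_sub_distrib, ← Finset.sum_sub_distrib]
  refine Finset.sum_congr rfl fun j _ => ?_
  rw [map_sub, map_sub, map_mul, map_mul, eval_X, eval_X]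
  ring

theorem finrank_eq {N : ℕ} (P : Cn N →ₗ[ℂ] Cn N) (S W : Submodule ℂ (Cn N))
    (h : LinearMap.ker P = S) :
    Module.finrank ℂ (Submodule.map P W) = Module.finrank ℂ (Submodule.map S.mkQ W) := by
  subst h
  have h1 : P = ((LinearMap.ker P).liftQ P le_rfl) ∘ₗ (LinearMap.ker P).mkQ :=
    (Submodule.liftQ_mkQ _ _ _).symm
  have h2 : Function.Injective ((LinearMap.ker P).liftQ P le_rfl) := by
    rw [← LinearMap.ker_eq_bot]
    exact Submodule.ker_liftQ_eq_bot _ _ _ le_rfl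
  have h3 : Submodule.map P W = Submodule.map ((LinearMap.ker P).liftQ P le_rfl)
      (Submodule.map (LinearMap.ker P).mkQ W) := by
    conv_lhs => rw [h1]
    rw [Submodule.map_comp]
  rw [h3]
  exact (LinearEquiv.finrank_eq (Submodule.equivMapOfInjective _ h2 _)).symm

theorem rank_chart {N : ℕ} (b : Fin N) (g : Biv N) (x : Cn N) (hx : x b = 1) :
    (mat (chP b g) x).rank = rk g.f x := by
  unfold rk
  rw [Matrix.rank, factor, LinearMap.range_comp, LinearMap.range_comp, range_Pt b x hx,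
    finrank_eq (Pr b x) (Submodule.span ℂ {x}) _ (ker_Pr b x hx), Submodule.map_comp]

end CPRM

theorem specCPR : SpecCPR := fun _ b g x =>
  ⟨fun hx => CPRM.rank_chart b g x hx, fun _ ht => LS.LMBM.rk_smul g x ht⟩

end Pool.Agent.Lib.MPc9b009.LF
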