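import Pool.Agent.Lib.MP_c9b009_ag.LS.Defs

/-!
# MP_c9b009_ag, row LF: log symplectic Fano manifolds. Definitions

THEOREM LF. `S = ℂ[x_1, .., x_N]`, `X = Proj (S / I)` a smooth projective variety of dimension `n`, `g` a
Poisson structure on the graded algebra `S / I` (a Poisson structure on `X` together with an ample Poisson line
bundle; every Fano manifold), generically symplectic, with a REDUCED degeneracy divisor `D` (arbitrary
singularities). Then for ALL even `s < n` the locus `X_{≤ s}` has an irreducible component of dimension `≥ s + 1`.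
The same for limits of such structures.

IDEA. Suppose not. `P` = a stable prime of minimal dimension `D(P) = d ≥ s + 2`.
(H) Homogeneity: the germs of `(X, π)` at the points of `V(P)` are isomorphic (up to all finite orders). So every
tangent vector of `V(P)` is the value of a Poisson vector field (up to order `k`).
(T) `D` reduced: two Poisson vector fields `v, w` have a Hamiltonian commutator `[v, w] = X_u`,
`u = ω(v, w)` is regular. So the isotropy algebra acts on the tangent space of `V(P)` with trace zero.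
(V) Therefore the cone `V(P)` has an invariant multivalued volume form `μ` of weight zero: `μ^M` is rational,
regular and without zeros outside of the smaller stable subvarieties (dimension `≤ s + 1`).
(K) `m` = the generic rank, `A` = the contraction of `g^(m/2)` with `m - 1` generic linear forms: a vector field
without divergence on a linear section of dimension `k = d - m + 1` which is smooth outside `0`. Hard Lefschetz
(`PS/HLM`): `A(x)` is a multiple of `x`. For generic linear forms this is false.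
-/

set_option autoImplicit false

namespace Pool.Agent.Lib.MPc9b009.LF

open MvPolynomial Pool.Agent.Lib.MPc9b009.B5 Pool.Agent.Lib.MPc9b009.OD
  Pool.Agent.Lib.MPc9b009.PS Pool.Agent.Lib.MPc9b009.LS

/-! ### multivalued densities (part D) -/

/-- The Jacobian determinant of the coordinates of `c'` with respect to those of `c`. -/
noncomputable def jdet {N k : ℕ} {M : Set (Cn N)} {T : Cn N → Submodule ℂ (Cn N)}
    (c c' : Cht N k M T) (y : Cn k) : ℂ :=
  (Matrix.of fun a b : Fin k => fderiv ℂ c.G y (Pi.single b 1) (c'.I a)).det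

/-- Two vector fields in two charts define the same density up to constants of absolute value one. -/
def Cmp {N k : ℕ} {M : Set (Cn N)} {T : Cn N → Submodule ℂ (Cn N)}
    (c c' : Cht N k M T) (w w' : Cn k → Cn k) : Prop :=
  ∀ y ∈ c.B, ∀ y' ∈ c'.B, c.G y = c'.G y' → ∃ u : ℂ, ‖u‖ = 1 ∧
    fderiv ℂ c.G y (w y) = (u * jdet c c' y) • fderiv ℂ c'.G y' (w' y')

/-- A multivalued holomorphic vector density of weight zero. -/
structure DensU (N k : ℕ) (M : Set (Cn N)) (T : Cn N → Submodule ℂ (Cn N)) where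
  /-- index type -/
  ι : Type
  /-- the charts -/
  c : ι → Cht N k M T
  /-- the components -/
  w : ι → Cn k → Cn k
  cov : ∀ x ∈ M, ∃ i, x ∈ (c i).W
  sm : ∀ i, ContDiffOn ℂ 1 (w i) (c i).B
  div : ∀ i, ∀ y ∈ (c i).B, ∑ m, fderiv ℂ (w i) y (Pi.single m 1) m = 0
  hom : ∀ i, ∀ y ∈ (c i).B, fderiv ℂ (w i) y y = -((k : ℂ) - 1) • w i y
  tr : ∀ i j, Cmp (c i) (c j) (w i) (w j)

/-- A multivalued holomorphic volume form without zeros, of degree `-e` in every chart. -/
structure VolU (N k e : ℕ) (M : Set (Cn N)) (T : Cn N → Submodule ℂ (Cn N)) where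
  /-- index type -/
  ι : Type
  /-- the charts -/
  c : ι → Cht N k M T
  /-- the volume form is `m dy` -/
  m : ι → Cn k → ℂ
  cov : ∀ x ∈ M, ∃ i, x ∈ (c i).W
  sm : ∀ i, ContDiffOn ℂ 2 (m i) (c i).B
  ne : ∀ i, ∀ y ∈ (c i).B, m i y ≠ 0
  hom : ∀ i, ∀ y ∈ (c i).B, fderiv ℂ (m i) y y = -(e : ℂ) * m i y
  tr : ∀ i j, ∀ y ∈ (c i).B, ∀ y' ∈ (c j).B, (c i).G y = (c j).G y' → ∃ u : ℂ, ‖u‖ = 1 ∧
    m i y = u * jdet (c i) (c j) y * m j y'

/-- The vector field `A` (tangent to `M`) has no divergence. -/
def DivF {N k e : ℕ} {M : Set (Cn N)} {T : Cn N → Submodule ℂ (Cn N)} (V : VolU N k e M T)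
    (A : Cn N → Cn N) : Prop :=
  ∀ i, ∀ y ∈ (V.c i).B, ∑ a : Fin k,
    fderiv ℂ (fun z => V.m i z * A ((V.c i).G z) ((V.c i).I a)) y (Pi.single a 1) = 0

/-- the successive hyperplane sections of `M` are smooth cones -/
def Chn (N k : ℕ) : List (Cn N) → Set (Cn N) → (Cn N → Submodule ℂ (Cn N)) → Prop
  | [], M, T => Cone N k M T
  | c :: l, M, T => Cone N (k + l.length + 1) M T ∧ (∀ x ∈ M, x ∈ hyp c → ¬ T x ≤ hyp c) ∧
      Chn N k l {x | x ∈ M ∧ x ∈ hyp c} (fun x => T x ⊓ hyp c)

/-! ### the contraction of `g^(m/2)` -/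

/-- the bracket of two linear forms -/
noncomputable def brl {N : ℕ} (g : Biv N) (c c' : Cn N) : PR N :=
  ∑ i, ∑ j, C (c i) * C (c' j) * g.f i j

/-- the Hamiltonian vector field of the linear form `c` -/
noncomputable def hml {N : ℕ} (g : Biv N) (c : Cn N) (l : Fin N) : PR N :=
  ∑ i, C (c i) * g.f i l

/-- the vector field `A`: `2 r + 1` linear forms, indexed by `Option (Fin r × Fin 2)` -/
noncomputable def PFA {N r : ℕ} (g : Biv N) (c : Option (Fin r × Fin 2) → Cn N) (l : Fin N) : PR N :=
  ∑ σ : Equiv.Perm (Option (Fin r × Fin 2)), C ((Equiv.Perm.sign σ : ℤ) : ℂ) *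
    ((∏ i : Fin r, brl g (c (σ (some (i, 0)))) (c (σ (some (i, 1))))) * hml g (c (σ none)) l)

/-! ### local coordinates (parts K, T) -/

/-- `F_a ∈ P`, the coordinates `x_(J i)` are local coordinates of `V(P)` where `Δ = det (∂_(K b) F_a) ≠ 0`. -/
structure Crd {N : ℕ} (P : Ideal (PR N)) (n : ℕ) where
  /-- equations -/
  F : Fin (N - n) → PR N
  /-- the other coordinates -/
  K : Fin (N - n) → Fin N
  /-- the coordinates -/
  J : Fin n → Fin N
  mem : ∀ a, F a ∈ P
  bij : Function.Bijective (Sum.elim J K)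

/-- the Jacobian determinant -/
noncomputable def Crd.Δ {N n : ℕ} {P : Ideal (PR N)} (c : Crd P n) : PR N :=
  (Matrix.of fun a b => pderiv (c.K b) (c.F a)).det

/-- the vector field `V^i = Δ ∂ / ∂ x_(J i)` of `V(P)` -/
noncomputable def Crd.V {N n : ℕ} {P : Ideal (PR N)} (c : Crd P n) (i : Fin n) (l : Fin N) : PR N :=
  (if l = c.J i then c.Δ else 0) - ∑ b, if l = c.K b then
    ∑ a, (Matrix.of fun a b => pderiv (c.K b) (c.F a)).adjugate b a * pderiv (c.J i) (c.F a) else 0

/-- `P` is stable under the Hamiltonian fields and the Euler field -/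
def StE {N : ℕ} (g : Biv N) (P : Ideal (PR N)) : Prop := Stab g.f P ∧ Hom P

/-! ### Poisson vector fields (parts A, T) -/

/-- `L_v π` modulo an ideal: the derivation defect of `v` -/
noncomputable def dfc {N : ℕ} (π : Fin N → Fin N → PR N) (v : Fin N → PR N) (i j : Fin N) : PR N :=
  vf v (π i j) - ∑ l, (pderiv l (v i) * π l j + pderiv l (v j) * π i l)

/-- the polynomial vector fields which preserve `I` and `π` (modulo `I`) -/
def PV {N : ℕ} (I : Ideal (PR N)) (π : Fin N → Fin N → PR N) : Set (Fin N → PR N) :=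
  {v | (∀ q ∈ I, vf v q ∈ I) ∧ ∀ i j, dfc π v i j ∈ I}

/-- the maximal ideal of the point `p` -/
noncomputable def mx {N : ℕ} (p : Cn N) : Ideal (PR N) := RingHom.ker (eval p)

/-- `v` preserves `I` and `π` at `p` up to order `k` -/
def PVk {N : ℕ} (I : Ideal (PR N)) (π : Fin N → Fin N → PR N) (p : Cn N) (k : ℕ) :
    Set (Fin N → PR N) :=
  {v | (∀ q ∈ I, vf v q ∈ I ⊔ mx p ^ k) ∧ ∀ i j, dfc π v i j ∈ I ⊔ mx p ^ k}

end Pool.Agent.Lib.MPc9b009.LF
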