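import Pool.Agent.Lib.MP_c9b009_ag.LF.SpecA

/-!
# MP_c9b009_ag, LF: ETL, pull back a Poisson vector field
-/

set_option autoImplicit false

namespace Pool.Agent.Lib.MPc9b009.LF

open MvPolynomial Pool.Agent.Lib.MPc9b009.B5 Pool.Agent.Lib.MPc9b009.OD
  Pool.Agent.Lib.MPc9b009.PS Pool.Agent.Lib.MPc9b009.LS

namespace ETLM

variable {N : ℕ} {E : Type} [Field E] [Algebra ℂ E]

lemma chain (γ : Fin N → MvPolynomial (Fin N) E) (a : Fin N) (q : PR N) :
    pderiv a (aeval γ q) = ∑ l, aeval γ (pderiv l q) * pderiv a (γ l) := by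
  have h := BSTM.der_poly (aeval γ : PR N →ₐ[ℂ] MvPolynomial (Fin N) E)
    ((pderiv a : Derivation E (MvPolynomial (Fin N) E) (MvPolynomial (Fin N) E)).restrictScalars ℂ) q
  simpa using h

omit [Algebra ℂ E] in
lemma YI_anti (k : ℕ) : YI N (k + 1) E ≤ YI N k E := by
  rw [YI, YI]
  exact Ideal.pow_le_pow_right (by omega)

lemma swapL {R : Type} [CommRing R] (T : Fin N → Fin N → R) (A : Fin N → R)
    (Pm : Fin N → Fin N → R) (Q : Fin N → R) :
    ∑ a, ∑ c, T a c * ((∑ l, A l * Pm a l) * Q c) =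
      ∑ l, A l * ∑ a, ∑ c, T a c * Pm a l * Q c := by
  simp only [Finset.mul_sum, Finset.sum_mul]
  have h : ∀ a, ∑ c, ∑ l, T a c * (A l * Pm a l * Q c) =
      ∑ l, ∑ c, T a c * (A l * Pm a l * Q c) := fun a => Finset.sum_comm
  rw [Finset.sum_congr rfl (fun a _ => h a), Finset.sum_comm]
  refine Finset.sum_congr rfl (fun l _ => Finset.sum_congr rfl (fun a _ =>
    Finset.sum_congr rfl (fun c _ => ?_)))
  ring

lemma swapR {R : Type} [CommRing R] (T : Fin N → Fin N → R) (A : Fin N → R)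
    (Pm : Fin N → Fin N → R) (Q : Fin N → R) :
    ∑ a, ∑ c, T a c * (Q a * ∑ l, A l * Pm c l) =
      ∑ l, A l * ∑ a, ∑ c, T a c * Q a * Pm c l := by
  simp only [Finset.mul_sum]
  have h : ∀ a, ∑ c, ∑ l, T a c * (Q a * (A l * Pm c l)) =
      ∑ l, ∑ c, T a c * (Q a * (A l * Pm c l)) := fun a => Finset.sum_comm
  rw [Finset.sum_congr rfl (fun a _ => h a), Finset.sum_comm]
  refine Finset.sum_congr rfl (fun l _ => Finset.sum_congr rfl (fun a _ =>
    Finset.sum_congr rfl (fun c _ => ?_)))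
  ring

lemma mulr {R : Type} [CommRing R] (K : Fin N → Fin N → R) (Q r : Fin N → R) (i : Fin N) :
    ∑ a, (∑ j, K a j * r j) * Q a - r i =
      ∑ j, (∑ a, Q a * K a j - (if i = j then 1 else 0)) * r j := by
  have h2 : ∑ j, (∑ a, Q a * K a j - (if i = j then 1 else 0)) * r j =
      ∑ j, (∑ a, Q a * K a j) * r j - r i := by
    simp only [sub_mul, Finset.sum_sub_distrib, ite_mul, one_mul, zero_mul, Finset.sum_ite_eq,
      Finset.mem_univ, if_true]
  rw [h2, sub_left_inj]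
  simp only [Finset.sum_mul]
  rw [Finset.sum_comm]
  refine Finset.sum_congr rfl (fun j _ => Finset.sum_congr rfl (fun a _ => ?_))
  ring

lemma brk {R : Type} [CommRing R] (T : Fin N → Fin N → R) (A B dp ev : Fin N → R)
    (G pv : Fin N → Fin N → R) (i j : Fin N) :
    (∑ a, ∑ c, T a c * ((∑ l, A l * G a l) * G c j + G a i * ∑ l, B l * G c l)) -
        ∑ l, dp l * ev l =
      ∑ l, A l * ((∑ a, ∑ c, T a c * G a l * G c j) - pv l j) +
        ∑ l, B l * ((∑ a, ∑ c, T a c * G a i * G c l) - pv i l) -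
        (∑ l, ev l * dp l - ∑ l, (A l * pv l j + B l * pv i l)) := by
  have h1 : ∑ a, ∑ c, T a c * ((∑ l, A l * G a l) * G c j + G a i * ∑ l, B l * G c l) =
      ∑ l, A l * (∑ a, ∑ c, T a c * G a l * G c j) +
        ∑ l, B l * (∑ a, ∑ c, T a c * G a i * G c l) := by
    simp only [mul_add, Finset.sum_add_distrib]
    rw [swapL T A G (fun c => G c j), swapR T B G (fun a => G a i)]
  have h2 : ∑ l, ev l * dp l = ∑ l, dp l * ev l :=
    Finset.sum_congr rfl (fun l _ => mul_comm _ _)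
  rw [h1, h2]
  simp only [mul_sub, Finset.sum_sub_distrib, Finset.sum_add_distrib]
  ring

variable {k : ℕ} {κ τ : Type} [Fintype κ] [DecidableEq τ] {P : Ideal (PR N)} {f : κ → PR N}
  {blk : κ → τ} {ι : τ} {π : Fin N → Fin N → PR N} {p₀ : Cn N}

lemma sum_mem (t : τ) (i : κ) (hi : blk i = t) (m : κ → MvPolynomial (Fin N) E) :
    ∑ j, (if blk j = blk i then m j * tr E p₀ (f j) else 0) ∈ gbi f blk t p₀ E := by
  refine Ideal.sum_mem _ (fun j _ => ?_)
  split_ifs with h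
  · exact Ideal.mul_mem_left _ _ (Ideal.subset_span ⟨j, h.trans hi, rfl⟩)
  · exact Ideal.zero_mem _

lemma aev_gen (b : Pt N k P f blk p₀ E) (t : τ) (i : κ) (hi : blk i = t) :
    aeval b.γ (f i) ∈ gbi f blk t p₀ E ⊔ YI N k E := by
  have h := b.e1 i
  have h2 := Ideal.add_mem _ (Ideal.mem_sup_right (S := gbi f blk t p₀ E) h)
    (Ideal.mem_sup_left (T := YI N k E) (sum_mem t i hi (b.m i)))
  rwa [sub_add_cancel] at h2

lemma aev_mem (b : Pt N k P f blk p₀ E) (t : τ) {q : PR N}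
    (hq : q ∈ Ideal.span (f '' {j | blk j = t})) :
    aeval b.γ q ∈ gbi f blk t p₀ E ⊔ YI N k E := by
  have h : Ideal.span (f '' {j | blk j = t}) ≤
      (gbi f blk t p₀ E ⊔ YI N k E).comap (aeval b.γ : PR N →ₐ[ℂ] MvPolynomial (Fin N) E) := by
    rw [Ideal.span_le]
    rintro _ ⟨j, hj, rfl⟩
    exact aev_gen b t j hj
  exact h hq

lemma dfc_aeval (γ : Fin N → MvPolynomial (Fin N) E) (η : Fin N → PR N) (i j : Fin N) :
    aeval γ (dfc π η i j) = ∑ l, aeval γ (η l) * aeval γ (pderiv l (π i j)) -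
      ∑ l, (aeval γ (pderiv l (η i)) * aeval γ (π l j) +
        aeval γ (pderiv l (η j)) * aeval γ (π i l)) := by
  simp only [dfc, vf, map_sub, map_sum, map_mul, map_add]

lemma bra (b : PtB N k P f blk ι π p₀ E) (i j : Fin N) :
    (∑ a, ∑ c, tr E p₀ (π a c) * pderiv a (b.γ i) * pderiv c (b.γ j)) -
      aeval b.γ (π i j) ∈ gbi f blk ι p₀ E ⊔ YI N k E := by
  have h := b.e3 i j
  have h3 : ∑ l, (if blk l = ι then b.m3 i j l * tr E p₀ (f l) else 0) ∈
      gbi f blk ι p₀ E := by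
    refine Ideal.sum_mem _ (fun l _ => ?_)
    split_ifs with hl
    · exact Ideal.mul_mem_left _ _ (Ideal.subset_span ⟨l, hl, rfl⟩)
    · exact Ideal.zero_mem _
  have h2 := Ideal.add_mem _ (Ideal.mem_sup_right (S := gbi f blk ι p₀ E) h)
    (Ideal.mem_sup_left (T := YI N k E) h3)
  rwa [sub_add_cancel] at h2

lemma cond1 (b : PtB N k P f blk ι π p₀ E) {η : Fin N → PR N} (hη : η ∈ adm f blk) (i : κ) :
    ∑ l, aeval b.γ (pderiv l (f i)) * aeval b.γ (η l) ∈
      gbi f blk (blk i) p₀ E ⊔ YI N k E := by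
  have h := aev_mem b.toPt (blk i) (hη i)
  have h2 : ∑ l, aeval b.γ (pderiv l (f i)) * aeval b.γ (η l) = aeval b.γ (vf η (f i)) := by
    rw [vf, map_sum]
    refine Finset.sum_congr rfl (fun l _ => ?_)
    rw [map_mul, mul_comm]
  rw [h2]
  exact h

lemma cond2 (b : PtB N k P f blk ι π p₀ E) {η : Fin N → PR N}
    (hd : ∀ i j, dfc π η i j ∈ Ideal.span (f '' {l | blk l = ι})) (i j : Fin N) :
    (∑ a, ∑ c, tr E p₀ (π a c) *
      (pderiv a (aeval b.γ (η i)) * pderiv c (b.γ j) +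
        pderiv a (b.γ i) * pderiv c (aeval b.γ (η j)))) -
      ∑ l, aeval b.γ (pderiv l (π i j)) * aeval b.γ (η l) ∈
        gbi f blk ι p₀ E ⊔ YI N k E := by
  have hdd := aev_mem b.toPt ι (hd i j)
  have hx : (∑ a, ∑ c, tr E p₀ (π a c) *
      (pderiv a (aeval b.γ (η i)) * pderiv c (b.γ j) +
        pderiv a (b.γ i) * pderiv c (aeval b.γ (η j)))) -
      ∑ l, aeval b.γ (pderiv l (π i j)) * aeval b.γ (η l) =
      ∑ l, aeval b.γ (pderiv l (η i)) *
        ((∑ a, ∑ c, tr E p₀ (π a c) * pderiv a (b.γ l) * pderiv c (b.γ j)) -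
          aeval b.γ (π l j)) +
      ∑ l, aeval b.γ (pderiv l (η j)) *
        ((∑ a, ∑ c, tr E p₀ (π a c) * pderiv a (b.γ i) * pderiv c (b.γ l)) -
          aeval b.γ (π i l)) - aeval b.γ (dfc π η i j) := by
    rw [dfc_aeval]
    simp only [chain]
    exact brk (fun a c => tr E p₀ (π a c)) (fun l => aeval b.γ (pderiv l (η i)))
      (fun l => aeval b.γ (pderiv l (η j))) (fun l => aeval b.γ (pderiv l (π i j)))
      (fun l => aeval b.γ (η l)) (fun a l => pderiv a (b.γ l))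
      (fun l m => aeval b.γ (π l m)) i j
  rw [hx]
  refine Ideal.sub_mem _ (Ideal.add_mem _ ?_ ?_) hdd
  · exact Ideal.sum_mem _ (fun l _ => Ideal.mul_mem_left _ _ (bra b l j))
  · exact Ideal.sum_mem _ (fun l _ => Ideal.mul_mem_left _ _ (bra b i l))

end ETLM

open ETLM in
theorem specETL (hJ : SpecJIN) (hT : SpecTRP) : SpecETL := by
  intro N k κ τ _ _ P f blk ι π p₀ E _ _ b η hη hdfc
  obtain ⟨K, -, hK⟩ := hJ N (k + 1) E _ b.γ b.inv
  have hu : ∀ i, ∑ a, (∑ j, K a j * aeval b.γ (η j)) * pderiv a (b.γ i) - aeval b.γ (η i) ∈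
      YI N (k + 1) E := by
    intro i
    have h1 := mulr K (fun a => pderiv a (b.γ i)) (fun j => aeval b.γ (η j)) i
    have h2 : ∑ j, (∑ a, pderiv a (b.γ i) * K a j - (if i = j then 1 else 0)) *
        aeval b.γ (η j) ∈ YI N (k + 1) E :=
      Ideal.sum_mem _ (fun j _ => Ideal.mul_mem_right _ _ (hK i j))
    beta_reduce at h1
    rw [h1]
    exact h2
  have hle : gbi f blk ι p₀ E ⊔ YI N (k + 1) E ≤ gbi f blk ι p₀ E ⊔ YI N k E :=
    sup_le_sup_left (YI_anti k) _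
  exact ⟨fun a => ∑ j, K a j * aeval b.γ (η j),
    hT N k κ τ _ _ P f blk ι π p₀ E _ _ b _ (fun i => aeval b.γ (η i)) hu
      (fun i => cond1 b hη i) (fun i j => hle (cond2 b hdfc i j)), hu⟩

end Pool.Agent.Lib.MPc9b009.LF
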