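import Pool.Agent.Lib.MP_c9b009_ag.LF.SpecA

/-!
# MP_c9b009_ag, row LF, module JIN: the Jacobian matrix is invertible modulo `YI` (helper9)
-/

set_option autoImplicit false

namespace Pool.Agent.Lib.MPc9b009.LF

open MvPolynomial Pool.Agent.Lib.MPc9b009.B5 Pool.Agent.Lib.MPc9b009.OD
  Pool.Agent.Lib.MPc9b009.PS Pool.Agent.Lib.MPc9b009.LS

namespace JINM

theorem const_pderiv {N : ℕ} {E : Type} [CommRing E] (i : Fin N) (p : MvPolynomial (Fin N) E) :
    constantCoeff (pderiv i p) = coeff (Finsupp.single i 1) p := by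
  rw [constantCoeff_eq, coeff_pderiv]
  simp

theorem unit_mod {N k : ℕ} {E : Type} [Field E] {δ : MvPolynomial (Fin N) E}
    (h : constantCoeff δ ≠ 0) : ∃ w, w * δ - 1 ∈ YI N k E := by
  set q : MvPolynomial (Fin N) E →+* MvPolynomial (Fin N) E ⧸ YI N k E :=
    Ideal.Quotient.mk (YI N k E) with hq
  have h1 : IsUnit (q (C (constantCoeff δ))) :=
    ((isUnit_iff_ne_zero.2 h).map C).map q
  have h2 : IsNilpotent (q (δ - C (constantCoeff δ))) := by
    refine ⟨k + 1, ?_⟩
    rw [← map_pow, hq, Ideal.Quotient.eq_zero_iff_mem, YI]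
    refine Ideal.pow_mem_pow ?_ (k + 1)
    have h3 := (mem_pow_idealOfVars_iff' 1 (δ - C (constantCoeff δ))).2 ?_
    · rwa [pow_one] at h3
    · intro x hx
      have hx0 : x = 0 := by
        rw [← Finsupp.degree_eq_zero_iff]
        omega
      rw [hx0, coeff_sub, coeff_C, if_pos rfl, constantCoeff_eq, sub_self]
  have h3 : IsUnit (q (C (constantCoeff δ)) + q (δ - C (constantCoeff δ))) :=
    h2.isUnit_add_left_of_commute h1 (Commute.all _ _)
  rw [← map_add, add_sub_cancel] at h3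
  obtain ⟨u, hu⟩ := h3
  obtain ⟨w, hw⟩ := Ideal.Quotient.mk_surjective (↑u⁻¹ : MvPolynomial (Fin N) E ⧸ YI N k E)
  refine ⟨w, ?_⟩
  rw [← Ideal.Quotient.eq_zero_iff_mem, map_sub, map_mul, map_one, hw]
  change ↑u⁻¹ * q δ - 1 = 0
  rw [← hu, Units.inv_mul, sub_self]

end JINM

open JINM

theorem specJIN : SpecJIN := by
  intro N k E _ γ hγ
  set J : Matrix (Fin N) (Fin N) (MvPolynomial (Fin N) E) :=
    Matrix.of fun i a => pderiv a (γ i) with hJ
  have h1 : constantCoeff J.det ≠ 0 := by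
    rw [RingHom.map_det]
    have h2 : (constantCoeff : MvPolynomial (Fin N) E →+* E).mapMatrix J =
        Matrix.of fun i j => coeff (Finsupp.single j 1) (γ i) := by
      ext i j
      exact const_pderiv j (γ i)
    rw [h2]
    exact hγ.ne_zero
  obtain ⟨w, hw⟩ := unit_mod (k := k) h1
  have hmem : ∀ i j : Fin N, w * (J.det * (1 : Matrix (Fin N) (Fin N) (MvPolynomial (Fin N) E)) i j) -
      (if i = j then 1 else 0) ∈ YI N k E := by
    intro i j
    rw [Matrix.one_apply]
    split_ifs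
    · rwa [mul_one]
    · rw [mul_zero, mul_zero, sub_zero]
      exact Ideal.zero_mem _
  refine ⟨w • J.adjugate, fun i j => ?_, fun i j => ?_⟩
  · have h2 : ∑ a, (w • J.adjugate) i a * pderiv j (γ a) = (w • J.adjugate * J) i j := by
      rw [Matrix.mul_apply]
      rfl
    rw [h2, Matrix.smul_mul, Matrix.adjugate_mul]
    exact hmem i j
  · have h2 : ∑ a, pderiv a (γ i) * (w • J.adjugate) a j = (J * w • J.adjugate) i j := by
      rw [Matrix.mul_apply]
      rfl
    rw [h2, Matrix.mul_smul, Matrix.mul_adjugate]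
    exact hmem i j

end Pool.Agent.Lib.MPc9b009.LF
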