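import Pool.Agent.Lib.MP_c9b009_ag.PS.Defs

/-!
# MP_c9b009_ag, row LF: the definitions of the final statement

`S = ℂ[x_1, .., x_N]`, `I` a homogeneous prime ideal, `g : Biv N` (`g_ij = {x_i, x_j}`) a graded Poisson structure on `S / I`,
`X = Proj (S / I)` with the induced Poisson structure.
-/

set_option autoImplicit false

namespace Pool.Agent.Lib.MPc9b009.LF

open MvPolynomial Pool.Agent.Lib.MPc9b009.B5 Pool.Agent.Lib.MPc9b009.OD
  Pool.Agent.Lib.MPc9b009.PS

/-- the vector `v` is tangent to `V(I) ⊆ ℂ^N` at `x` -/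
def Tgt {N : ℕ} (I : Ideal (MvPolynomial (Fin N) ℂ)) (x v : Cn N) : Prop :=
  ∀ q ∈ I, ∑ l, v l * eval x (pderiv l q) = 0

/-- The cone `V(I) ⊆ ℂ^N` of dimension `d` is smooth at `x`, by the Jacobian criterion: `N - d` elements of `I` have a
Jacobian minor of size `N - d` which does not vanish at `x`. -/
def SmC {N : ℕ} (d : ℕ) (I : Ideal (MvPolynomial (Fin N) ℂ)) (x : Cn N) : Prop :=
  ∃ (F : Fin (N - d) → MvPolynomial (Fin N) ℂ) (K : Fin (N - d) → Fin N), (∀ a, F a ∈ I) ∧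
    eval x (Matrix.of fun a b => pderiv (K b) (F a)).det ≠ 0

/-- The Poisson structure of `X = Proj (S / I)`, `dim X = n`, is generically symplectic and its degeneracy divisor is
reduced: outside a closed subset `V(J)` of codimension `≥ 2` the rank at `[x]` is `n`, or it is `n - 2` and the isotropy Lie
algebra at `[x]` is not abelian. This Lie algebra consists of the covectors `ξ`, `ξ · x = 0`, with `g(x) ξ = c x`; its
bracket is `[ξ, ζ](v) = ξᵀ (∂_v g) ζ + c (ζ · v) - c' (ξ · v)`, where `g(x) ζ = c' x` and `v` is tangent to the cone. -/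
def RedX {N : ℕ} (n : ℕ) (I : Ideal (MvPolynomial (Fin N) ℂ)) (g : Biv N) : Prop :=
  (∃ x ∈ Zer I, x ≠ 0 ∧ rk g.f x = n) ∧
  ∃ J : Ideal (MvPolynomial (Fin N) ℂ), Hom J ∧ Dle J (n - 1) ∧
    ∀ x ∈ Zer I, x ≠ 0 → x ∉ Zer J →
    rk g.f x = n ∨ (rk g.f x + 2 = n ∧ ∃ (ξ ζ v : Cn N) (c c' : ℂ), dot x ξ = 0 ∧ dot x ζ = 0 ∧
      (mat g.f x).mulVec ξ = c • x ∧ (mat g.f x).mulVec ζ = c' • x ∧ Tgt I x v ∧
      ∑ i, ∑ j, ∑ l, ξ i * ζ j * v l * eval x (pderiv l (g.f i j)) + c * dot v ζ -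
        c' * dot v ξ ≠ 0)

/-- The Poisson structure `g` of the affine cone `V(I)`, of dimension `n + 1`, is generically symplectic and its
degeneracy divisor is reduced: outside a closed subset `V(J)` of codimension `≥ 2` the rank at `x` is `n + 1`, or it is `n - 1`
and the isotropy Lie algebra at `x` is not abelian. This Lie algebra consists of the `ξ` with `g(x) ξ = 0`; its bracket is
`[ξ, ζ](v) = ξᵀ (∂_v g) ζ`, `v` tangent to the cone. -/
def RedC {N : ℕ} (n : ℕ) (I : Ideal (MvPolynomial (Fin N) ℂ)) (g : Biv N) : Prop :=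
  (∃ x ∈ Zer I, (mat g.f x).rank = n + 1) ∧
  ∃ J : Ideal (MvPolynomial (Fin N) ℂ), Dle J (n - 1) ∧ ∀ x ∈ Zer I, x ∉ Zer J →
    (mat g.f x).rank = n + 1 ∨ ((mat g.f x).rank + 1 = n ∧ ∃ ξ ζ v : Cn N,
      (mat g.f x).mulVec ξ = 0 ∧ (mat g.f x).mulVec ζ = 0 ∧ Tgt I x v ∧
      ∑ i, ∑ j, ∑ l, ξ i * ζ j * v l * eval x (pderiv l (g.f i j)) ≠ 0)

/-- `X = Proj (S / I)` is a projective variety of dimension `n`, smooth at all the points of rank `> s`; `g` is a graded
Poisson structure on `S / I`; `X` or its affine cone is generically symplectic, with a reduced degeneracy divisor. -/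
structure RedPoisson {N : ℕ} (n s : ℕ) (I : Ideal (MvPolynomial (Fin N) ℂ)) (g : Biv N) :
    Prop where
  prime : I.IsPrime
  hom : Hom I
  dim : Algebra.trdeg ℂ (MvPolynomial (Fin N) ℂ ⧸ I) = ((n + 1 : ℕ) : Cardinal)
  sta : Stab g.f I
  jacobi : ∀ i j k, jac g.f i j k ∈ I
  smooth : ∀ x ∈ Zer I, x ≠ 0 → s < rk g.f x → SmC (n + 1) I x
  red : RedX n I g ∨ RedC n I g

/-- The ideals `I t` converge to `I₀`: every element of `I₀` is the coefficientwise limit of elements of `I t` of bounded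
degree (for instance, `Proj (S / I t)` converges to `Proj (S / I₀)` in the Hilbert scheme). -/
def LimId {N : ℕ} (I : ℕ → Ideal (MvPolynomial (Fin N) ℂ))
    (I₀ : Ideal (MvPolynomial (Fin N) ℂ)) : Prop :=
  ∀ q ∈ I₀, ∃ (Q : ℕ → MvPolynomial (Fin N) ℂ) (e : ℕ),
    (∀ t, Q t ∈ I t ∧ (Q t).totalDegree ≤ e) ∧
    ∀ m, Filter.Tendsto (fun t => coeff m (Q t)) Filter.atTop (nhds (coeff m q))

end Pool.Agent.Lib.MPc9b009.LF
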