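import Pool.Agent.Lib.MP_c9b009_ag.LF.All
import Pool.Agent.Lib.MP_c9b009_ag.LF.Statement

/-!
# MP_c9b009_ag, row LF: theorem LF in the form of `LF/Statement.lean`
-/

set_option autoImplicit false

namespace Pool.Agent.Lib.MPc9b009.LF

open MvPolynomial Pool.Agent.Lib.MPc9b009.B5 Pool.Agent.Lib.MPc9b009.OD
  Pool.Agent.Lib.MPc9b009.PS Pool.Agent.Lib.MPc9b009.LS

theorem tgt_iff {N : ℕ} (I : Ideal (PR N)) (x v : Cn N) : Tgt I x v ↔ v ∈ tgx I x := by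
  constructor
  · intro h q hq
    have := h q hq
    simpa [MvPolynomial.coe_aeval_eq_eval] using this
  · intro h q hq
    have := h q hq
    simpa [MvPolynomial.coe_aeval_eq_eval] using this

theorem logF_of {N n s : ℕ} {I : Ideal (PR N)} {g : Biv N} (h : RedPoisson n s I g) :
    LogF n s I g where
  prime := h.prime
  hom := h.hom
  sta := h.sta
  jac0 := h.jacobi
  dim := h.dim
  smo := h.smooth
  red := by
    rcases h.red with ⟨h1, J, hJ, hD, hr⟩ | ⟨h1, J, hD, hr⟩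
    · refine Or.inl ⟨h1, J, hJ, hD, fun x hx h0 hxJ => ?_⟩
      rcases hr x hx h0 hxJ with h2 | ⟨h2, ξ, ζ, v, c, c', a1, a2, a3, a4, a5, a6⟩
      · exact Or.inl h2
      · exact Or.inr ⟨h2, ξ, ζ, v, c, c', a1, a2, a3, a4, (tgt_iff I x v).1 a5, a6⟩
    · refine Or.inr ⟨h1, J, ?_, fun x hx hxJ => ?_⟩
      · have : n + 1 - 2 = n - 1 := by omega
        rw [this]
        exact hD
      rcases hr x hx hxJ with h2 | ⟨h2, ξ, ζ, v, a1, a2, a3, a4⟩
      · exact Or.inl h2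
      · exact Or.inr ⟨by omega, ξ, ζ, v, a1, a2, (tgt_iff I x v).1 a3, a4⟩

theorem main (N s : ℕ) (I : ℕ → Ideal (MvPolynomial (Fin N) ℂ))
    (I₀ : Ideal (MvPolynomial (Fin N) ℂ)) (G : ℕ → Biv N) (g₀ : Biv N) (hs : Even s)
    (hG : ∀ t, ∃ n, s < n ∧ RedPoisson n s (I t) (G t)) (hI₀ : Hom I₀) (hI : LimId I I₀)
    (hlim : ∀ i j m, Filter.Tendsto (fun t => coeff m ((G t).f i j)) Filter.atTop
      (nhds (coeff m (g₀.f i j)))) : BigI I₀ g₀.f s :=
  LF_holds N s I I₀ G g₀ hs (fun t => by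
    obtain ⟨n, hn, h⟩ := hG t
    exact ⟨n, hn, logF_of h⟩) hI₀ hI hlim

end Pool.Agent.Lib.MPc9b009.LF
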