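import Pool.Agent.Lib.MP_c9b009_ag.LF.SpecD

/-! # MP_c9b009_ag, row LF, module PFD (helper45) -/

set_option autoImplicit false

namespace Pool.Agent.Lib.MPc9b009.LF

open MvPolynomial Pool.Agent.Lib.MPc9b009.B5 Pool.Agent.Lib.MPc9b009.OD
  Pool.Agent.Lib.MPc9b009.PS Pool.Agent.Lib.MPc9b009.LS

namespace PFDM

/-- The Hamiltonian derivation of a linear form. -/
noncomputable def Dv {N : ℕ} (g : Biv N) (a : Cn N) (q : PR N) : PR N :=
  ∑ l, hml g a l * pderiv l q

theorem Dv_mul {N : ℕ} (g : Biv N) (a : Cn N) (p q : PR N) :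
    Dv g a (p * q) = p * Dv g a q + q * Dv g a p := by
  unfold Dv
  rw [Finset.mul_sum, Finset.mul_sum, ← Finset.sum_add_distrib]
  refine Finset.sum_congr rfl fun l _ => ?_
  rw [Derivation.leibniz, smul_eq_mul, smul_eq_mul]
  ring

theorem Dv_one {N : ℕ} (g : Biv N) (a : Cn N) : Dv g a 1 = 0 := by
  unfold Dv
  refine Finset.sum_eq_zero fun l _ => ?_
  rw [Derivation.map_one_eq_zero, mul_zero]

theorem Dv_prod {N : ℕ} (g : Biv N) (a : Cn N) {ι : Type} [DecidableEq ι] (s : Finset ι)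
    (f : ι → PR N) :
    Dv g a (∏ i ∈ s, f i) = ∑ i ∈ s, (∏ j ∈ s.erase i, f j) * Dv g a (f i) := by
  induction s using Finset.induction_on with
  | empty => rw [Finset.prod_empty, Dv_one, Finset.sum_empty]
  | insert i s hi ih =>
    rw [Finset.prod_insert hi, Dv_mul, ih, Finset.sum_insert hi, Finset.erase_insert hi,
      Finset.mul_sum, add_comm]
    congr 1
    refine Finset.sum_congr rfl fun j hj => ?_
    have hij : i ≠ j := fun h => hi (h ▸ hj)
    rw [Finset.erase_insert_of_ne hij, Finset.prod_insert (fun h => hi (Finset.mem_of_mem_erase h)),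
      mul_assoc]

theorem pd_brl {N : ℕ} (g : Biv N) (b c : Cn N) (l : Fin N) :
    pderiv l (brl g b c) = ∑ j, ∑ k, C (b j) * C (c k) * pderiv l (g.f j k) := by
  unfold brl
  rw [map_sum]
  refine Finset.sum_congr rfl fun j _ => ?_
  rw [map_sum]
  refine Finset.sum_congr rfl fun k _ => ?_
  rw [← C_mul, pderiv_C_mul]

theorem Dv_brl {N : ℕ} (g : Biv N) (a b c : Cn N) :
    Dv g a (brl g b c) = ∑ i, ∑ j, ∑ k, C (a i) * C (b j) * C (c k) *
      ∑ l, g.f i l * pderiv l (g.f j k) := by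
  unfold Dv
  have h1 : ∀ l, hml g a l * pderiv l (brl g b c) =
      ∑ i, ∑ j, ∑ k, C (a i) * C (b j) * C (c k) * (g.f i l * pderiv l (g.f j k)) := by
    intro l
    rw [pd_brl]
    unfold hml
    rw [Finset.sum_mul]
    refine Finset.sum_congr rfl fun i _ => ?_
    rw [Finset.mul_sum]
    refine Finset.sum_congr rfl fun j _ => ?_
    rw [Finset.mul_sum]
    refine Finset.sum_congr rfl fun k _ => ?_
    ring
  rw [Finset.sum_congr rfl fun l _ => h1 l, Finset.sum_comm]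
  refine Finset.sum_congr rfl fun i _ => ?_
  rw [Finset.sum_comm]
  refine Finset.sum_congr rfl fun j _ => ?_
  rw [Finset.sum_comm]
  refine Finset.sum_congr rfl fun k _ => ?_
  rw [Finset.mul_sum]

theorem jacobi {N : ℕ} (g : Biv N) (P : Ideal (PR N)) (h : ∀ i j k, jac g.f i j k ∈ P)
    (a b c : Cn N) :
    Dv g a (brl g b c) + Dv g b (brl g c a) + Dv g c (brl g a b) ∈ P := by
  have e2 : Dv g b (brl g c a) = ∑ i, ∑ j, ∑ k, C (a i) * C (b j) * C (c k) *
      ∑ l, g.f j l * pderiv l (g.f k i) := by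
    rw [Dv_brl]
    have : ∀ j, (∑ k, ∑ i, C (b j) * C (c k) * C (a i) * ∑ l, g.f j l * pderiv l (g.f k i)) =
        ∑ i, ∑ k, C (a i) * C (b j) * C (c k) * ∑ l, g.f j l * pderiv l (g.f k i) := by
      intro j
      rw [Finset.sum_comm]
      refine Finset.sum_congr rfl fun i _ => Finset.sum_congr rfl fun k _ => ?_
      ring
    rw [Finset.sum_congr rfl fun j _ => this j, Finset.sum_comm]
  have e3 : Dv g c (brl g a b) = ∑ i, ∑ j, ∑ k, C (a i) * C (b j) * C (c k) *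
      ∑ l, g.f k l * pderiv l (g.f i j) := by
    rw [Dv_brl, Finset.sum_comm]
    refine Finset.sum_congr rfl fun i _ => ?_
    rw [Finset.sum_comm]
    refine Finset.sum_congr rfl fun j _ => Finset.sum_congr rfl fun k _ => ?_
    ring
  rw [Dv_brl, e2, e3]
  simp only [← Finset.sum_add_distrib, ← mul_add]
  exact P.sum_mem fun i _ => P.sum_mem fun j _ => P.sum_mem fun k _ => P.mul_mem_left _ (h i j k)

variable {N r : ℕ} (g : Biv N) (c : Option (Fin r × Fin 2) → Cn N) (i₀ : Fin r)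

/-- the cyclic permutation -/
def tau : Equiv.Perm (Option (Fin r × Fin 2)) :=
  Equiv.swap none (some (i₀, 0)) * Equiv.swap (some (i₀, 0)) (some (i₀, 1))

theorem tau_none : tau i₀ none = some (i₀, 0) := by
  have h1 : (none : Option (Fin r × Fin 2)) ≠ some (i₀, 0) := (Option.some_ne_none _).symm
  have h2 : (none : Option (Fin r × Fin 2)) ≠ some (i₀, 1) := (Option.some_ne_none _).symm
  unfold tau
  rw [Equiv.Perm.mul_apply, Equiv.swap_apply_of_ne_of_ne h1 h2, Equiv.swap_apply_left]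

theorem s01 : (some (i₀, 0) : Option (Fin r × Fin 2)) ≠ some (i₀, 1) := by
  intro h
  have h1 : (0 : Fin 2) = 1 := congrArg Prod.snd (Option.some.inj h)
  exact absurd h1 (by decide)

theorem tau_zero : tau i₀ (some (i₀, 0)) = some (i₀, 1) := by
  unfold tau
  rw [Equiv.Perm.mul_apply, Equiv.swap_apply_left, Equiv.swap_apply_of_ne_of_ne (Option.some_ne_none _)
    (s01 i₀).symm]

theorem tau_one : tau i₀ (some (i₀, 1)) = none := by
  unfold tau
  rw [Equiv.Perm.mul_apply, Equiv.swap_apply_right, Equiv.swap_apply_right]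

theorem tau_ne {i : Fin r} (hi : i ≠ i₀) (e : Fin 2) : tau i₀ (some (i, e)) = some (i, e) := by
  have h : ∀ e' : Fin 2, (some (i, e) : Option (Fin r × Fin 2)) ≠ some (i₀, e') :=
    fun e' h => hi (congrArg Prod.fst (Option.some.inj h))
  unfold tau
  rw [Equiv.Perm.mul_apply, Equiv.swap_apply_of_ne_of_ne (h 0) (h 1),
    Equiv.swap_apply_of_ne_of_ne (Option.some_ne_none _) (h 0)]

theorem tau_sign : Equiv.Perm.sign (tau i₀) = 1 := by
  unfold tau
  rw [Equiv.Perm.sign_mul, Equiv.Perm.sign_swap (Option.some_ne_none _).symm,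
    Equiv.Perm.sign_swap (s01 i₀)]
  rfl

/-- the factors without the place `i₀` -/
noncomputable def Q (σ : Equiv.Perm (Option (Fin r × Fin 2))) : PR N :=
  ∏ i ∈ Finset.univ.erase i₀, brl g (c (σ (some (i, 0)))) (c (σ (some (i, 1))))

theorem Q_tau (σ : Equiv.Perm (Option (Fin r × Fin 2))) :
    Q g c i₀ (σ * tau i₀) = Q g c i₀ σ := by
  unfold Q
  refine Finset.prod_congr rfl fun i hi => ?_
  have hi' : i ≠ i₀ := (Finset.mem_erase.mp hi).1
  rw [Equiv.Perm.mul_apply, Equiv.Perm.mul_apply, tau_ne i₀ hi', tau_ne i₀ hi']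

/-- the term of `σ` -/
noncomputable def F (σ : Equiv.Perm (Option (Fin r × Fin 2))) : PR N :=
  C ((Equiv.Perm.sign σ : ℤ) : ℂ) * (Q g c i₀ σ *
    Dv g (c (σ none)) (brl g (c (σ (some (i₀, 0)))) (c (σ (some (i₀, 1))))))

theorem F_sum (P : Ideal (PR N)) (h : ∀ i j k, jac g.f i j k ∈ P) : ∑ σ, F g c i₀ σ ∈ P := by
  have h1 : ∑ σ, F g c i₀ (σ * tau i₀) = ∑ σ, F g c i₀ σ :=
    Equiv.sum_comp (Equiv.mulRight (tau i₀)) (F g c i₀)
  have h2 : ∑ σ, F g c i₀ (σ * tau i₀ * tau i₀) = ∑ σ, F g c i₀ σ := by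
    rw [← h1]
    exact Equiv.sum_comp (Equiv.mulRight (tau i₀)) fun σ => F g c i₀ (σ * tau i₀)
  have h3 : ∀ σ, F g c i₀ σ + F g c i₀ (σ * tau i₀) + F g c i₀ (σ * tau i₀ * tau i₀) ∈ P := by
    intro σ
    have e1 : F g c i₀ (σ * tau i₀) = C ((Equiv.Perm.sign σ : ℤ) : ℂ) * (Q g c i₀ σ *
        Dv g (c (σ (some (i₀, 0)))) (brl g (c (σ (some (i₀, 1)))) (c (σ none)))) := by
      unfold F
      rw [Q_tau, Equiv.Perm.sign_mul, tau_sign, mul_one, Equiv.Perm.mul_apply,
        Equiv.Perm.mul_apply, Equiv.Perm.mul_apply, tau_none, tau_zero, tau_one]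
    have e2 : F g c i₀ (σ * tau i₀ * tau i₀) = C ((Equiv.Perm.sign σ : ℤ) : ℂ) * (Q g c i₀ σ *
        Dv g (c (σ (some (i₀, 1)))) (brl g (c (σ none)) (c (σ (some (i₀, 0)))))) := by
      unfold F
      rw [Q_tau, Q_tau, Equiv.Perm.sign_mul, Equiv.Perm.sign_mul, tau_sign, mul_one, mul_one]
      simp only [Equiv.Perm.mul_apply, tau_none, tau_zero, tau_one]
    rw [e1, e2]
    unfold F
    rw [← mul_add, ← mul_add, ← mul_add, ← mul_add]
    exact P.mul_mem_left _ (P.mul_mem_left _ (jacobi g P h _ _ _))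
  have h4 : (3 : PR N) * ∑ σ, F g c i₀ σ ∈ P := by
    have e : (3 : PR N) * ∑ σ, F g c i₀ σ =
        ∑ σ, (F g c i₀ σ + F g c i₀ (σ * tau i₀) + F g c i₀ (σ * tau i₀ * tau i₀)) := by
      rw [Finset.sum_add_distrib, Finset.sum_add_distrib, h1, h2]
      ring
    rw [e]
    exact P.sum_mem fun σ _ => h3 σ
  have h5 : (C (1 / 3 : ℂ) : PR N) * (3 * ∑ σ, F g c i₀ σ) = ∑ σ, F g c i₀ σ := by
    rw [← mul_assoc]
    have : (C (1 / 3 : ℂ) : PR N) * 3 = 1 := by
      have e3 : (3 : PR N) = C (3 : ℂ) := (map_ofNat C 3).symm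
      rw [e3, ← C_mul]
      norm_num
    rw [this, one_mul]
  rw [← h5]
  exact P.mul_mem_left _ h4

end PFDM

theorem specPFD : SpecPFD := by
  intro N r g P h c
  have e : (∑ σ : Equiv.Perm (Option (Fin r × Fin 2)), C ((Equiv.Perm.sign σ : ℤ) : ℂ) *
      ∑ l, hml g (c (σ none)) l *
        pderiv l (∏ i : Fin r, brl g (c (σ (some (i, 0)))) (c (σ (some (i, 1)))))) =
      ∑ i₀, ∑ σ, PFDM.F g c i₀ σ := by
    rw [Finset.sum_comm]
    refine Finset.sum_congr rfl fun σ _ => ?_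
    have := PFDM.Dv_prod g (c (σ none)) Finset.univ
      fun i : Fin r => brl g (c (σ (some (i, 0)))) (c (σ (some (i, 1))))
    unfold PFDM.Dv at this
    rw [this, Finset.mul_sum]
    rfl
  rw [e]
  exact P.sum_mem fun i₀ _ => PFDM.F_sum g c i₀ P h

end Pool.Agent.Lib.MPc9b009.LF
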