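import Pool.Agent.Lib.MP_c9b009_ag.LF.SpecT
import Mathlib.RingTheory.IntegralClosure.IsIntegral.AlmostIntegral

/-!
# MP_c9b009_ag, row LF, module SEI (helper85): derivations preserve the integral closure (Seidenberg)
-/

set_option autoImplicit false

open scoped nonZeroDivisors

namespace Pool.Agent.Lib.MPc9b009.LF

namespace SEIM

open PowerSeries

variable {K : Type} [Field K] [Algebra ℂ K]

/-- `e(y) = ∑ D^n(y) / n! t^n` -/
noncomputable def ex (D : Derivation ℂ K K) (y : K) : PowerSeries K :=
  PowerSeries.mk fun n => ((n.factorial : K))⁻¹ * D^[n] y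

lemma coeff_ex (D : Derivation ℂ K K) (y : K) (n : ℕ) :
    coeff n (ex D y) = ((n.factorial : K))⁻¹ * D^[n] y := by
  rw [ex, coeff_mk]

lemma cz (_D : Derivation ℂ K K) : CharZero K := charZero_of_injective_algebraMap
  (algebraMap ℂ K).injective

lemma der_ex (D : Derivation ℂ K K) (y : K) : derivative K (ex D y) = ex D (D y) := by
  have := cz D
  ext n
  rw [coeff_derivative, coeff_ex, coeff_ex, Function.iterate_succ_apply, Nat.factorial_succ,
    Nat.cast_mul, mul_inv]
  have h1 : ((n : K) + 1) ≠ 0 := Nat.cast_add_one_ne_zero n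
  push_cast
  field_simp

lemma ex_add (D : Derivation ℂ K K) (y z : K) : ex D (y + z) = ex D y + ex D z := by
  ext n
  rw [map_add, coeff_ex, coeff_ex, coeff_ex, iterate_map_add, mul_add]

lemma ex_mul_coeff (D : Derivation ℂ K K) (n : ℕ) : ∀ y z : K,
    coeff n (ex D (y * z)) = coeff n (ex D y * ex D z) := by
  have := cz D
  induction n with
  | zero =>
    intro y z
    simp [coeff_mul, coeff_ex]
  | succ n ih =>
    intro y z
    have h1 : ((n : K) + 1) ≠ 0 := Nat.cast_add_one_ne_zero n
    refine mul_right_cancel₀ h1 ?_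
    rw [← coeff_derivative, ← coeff_derivative, der_ex, Derivation.leibniz, Derivation.leibniz,
      ex_add, map_add, map_add, smul_eq_mul, smul_eq_mul, smul_eq_mul, smul_eq_mul, ih, ih, der_ex,
      der_ex]

/-- `e` as a ring homomorphism. -/
noncomputable def exH (D : Derivation ℂ K K) : K →+* PowerSeries K where
  toFun := ex D
  map_one' := by
    ext n
    cases n with
    | zero =>
      rw [coeff_ex]
      simp
    | succ n =>
      rw [coeff_ex, Function.iterate_succ_apply, Derivation.map_one_eq_zero, iterate_map_zero,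
        mul_zero, coeff_one, if_neg (Nat.succ_ne_zero n)]
  map_mul' y z := by
    ext n
    exact ex_mul_coeff D n y z
  map_zero' := by
    ext n
    rw [coeff_ex, iterate_map_zero, mul_zero, map_zero]
  map_add' := ex_add D

/-- The power series with coefficients in `A`. -/
def PS (A : Subring K) : Subring (PowerSeries K) where
  carrier := {f | ∀ n, coeff n f ∈ A}
  mul_mem' := by
    intro f g hf hg n
    rw [coeff_mul]
    exact A.sum_mem fun i _ => A.mul_mem (hf _) (hg _)
  one_mem' := by
    intro n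
    rw [coeff_one]
    split_ifs
    · exact A.one_mem
    · exact A.zero_mem
  add_mem' := by
    intro f g hf hg n
    rw [map_add]
    exact A.add_mem (hf n) (hg n)
  zero_mem' := by
    intro n
    rw [map_zero]
    exact A.zero_mem
  neg_mem' := by
    intro f hf n
    rw [map_neg]
    exact A.neg_mem (hf n)

omit [Algebra ℂ K] in
lemma C_mem (A : Subring K) {x : K} (hx : x ∈ A) : PowerSeries.C x ∈ PS A := by
  intro n
  rw [coeff_C]
  split_ifs
  · exact hx
  · exact A.zero_mem

lemma ex_mem (D : Derivation ℂ K K) (A : Subring K) (hinv : ∀ n : ℕ, ((n.factorial : K))⁻¹ ∈ A)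
    (hD : ∀ x ∈ A, D x ∈ A) {x : K} (hx : x ∈ A) : exH D x ∈ PS A := by
  intro n
  show coeff n (ex D x) ∈ A
  rw [coeff_ex]
  refine A.mul_mem (hinv n) ?_
  have : ∀ m : ℕ, D^[m] x ∈ A := by
    intro m
    induction m with
    | zero => exact hx
    | succ m ih =>
      rw [Function.iterate_succ_apply']
      exact hD _ ih
  exact this n

/-- If `ρ a^m ∈ A` for all `m` then `ρ² (D a)^m ∈ A` for all `m`. -/
lemma key (D : Derivation ℂ K K) (A : Subring K) (hinv : ∀ n : ℕ, ((n.factorial : K))⁻¹ ∈ A)
    (hD : ∀ x ∈ A, D x ∈ A) (ρ a : K) (h : ∀ m : ℕ, ρ * a ^ m ∈ A) (m : ℕ) :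
    ρ * ρ * D a ^ m ∈ A := by
  have h1 : PowerSeries.C ρ * exH D ρ * (exH D a - PowerSeries.C a) ^ m ∈ PS A := by
    rw [sub_eq_add_neg, add_pow, Finset.mul_sum]
    refine (PS A).sum_mem fun i _ => ?_
    have e1 : PowerSeries.C ρ * exH D ρ * (exH D a ^ i * (-PowerSeries.C a) ^ (m - i) *
        ((m.choose i : ℕ) : PowerSeries K)) =
        exH D (ρ * a ^ i) * (PowerSeries.C (ρ * a ^ (m - i)) * ((-1) ^ (m - i) *
          ((m.choose i : ℕ) : PowerSeries K))) := by
      rw [map_mul, map_pow, map_mul, map_pow, neg_pow]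
      ring
    rw [e1]
    refine (PS A).mul_mem (ex_mem D A hinv hD (h i)) ((PS A).mul_mem (C_mem A (h _)) ?_)
    exact (PS A).mul_mem ((PS A).pow_mem ((PS A).neg_mem (PS A).one_mem) _) (natCast_mem _ _)
  set b : PowerSeries K := PowerSeries.mk fun n => coeff (n + 1) (ex D a) with hb
  have h2 : exH D a - PowerSeries.C a = X * b := by
    ext n
    cases n with
    | zero =>
      rw [map_sub, coeff_zero_X_mul]
      show coeff 0 (ex D a) - _ = 0
      rw [coeff_ex]
      simp
    | succ n =>
      rw [map_sub, coeff_succ_X_mul, hb, coeff_mk, coeff_C, if_neg (Nat.succ_ne_zero n), sub_zero]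
      rfl
  have h3 : constantCoeff b = D a := by
    rw [← coeff_zero_eq_constantCoeff_apply, hb, coeff_mk, coeff_ex]
    simp
  have h4 := h1 m
  rw [h2, mul_pow, show PowerSeries.C ρ * exH D ρ * (X ^ m * b ^ m) =
    X ^ m * (PowerSeries.C ρ * exH D ρ * b ^ m) from by ring] at h4
  have h5 := coeff_X_pow_mul (PowerSeries.C ρ * exH D ρ * b ^ m) m 0
  rw [zero_add] at h5
  rw [h5, coeff_zero_eq_constantCoeff_apply, map_mul, map_mul, map_pow, h3] at h4
  have h6 : constantCoeff (exH D ρ) = ρ := by
    rw [← coeff_zero_eq_constantCoeff_apply]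
    show coeff 0 (ex D ρ) = ρ
    rw [coeff_ex]
    simp
  rw [h6, constantCoeff_C] at h4
  exact h4

end SEIM

open SEIM

theorem specSEI : SpecSEI := by
  intro R _ _ _ _ D hD a ha
  obtain ⟨r, hr, hr'⟩ := ha.isAlmostIntegral
  refine IsAlmostIntegral.isIntegral (R := R) ⟨r * r, mul_mem hr hr, fun m => ?_⟩
  have hK : IsScalarTower ℂ R (FractionRing R) := inferInstance
  have := key D (algebraMap R (FractionRing R)).range (fun n => ?_) ?_
    (algebraMap R (FractionRing R) r) a (fun m => ?_) m
  · rw [Algebra.smul_def, map_mul]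
    exact this
  · refine ⟨algebraMap ℂ R ((n.factorial : ℂ))⁻¹, ?_⟩
    rw [← IsScalarTower.algebraMap_apply, map_inv₀, map_natCast]
  · rintro _ ⟨x, rfl⟩
    obtain ⟨y, hy⟩ := hD x
    exact ⟨y, hy.symm⟩
  · have h := hr' m
    rw [Algebra.smul_def] at h
    exact h

end Pool.Agent.Lib.MPc9b009.LF
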