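import Pool.Agent.Lib.MP_c9b009_ag.LF.SpecT
import Pool.Agent.Lib.MP_c9b009_ag.LS.DIF

/-!
# MP_c9b009_ag, row LF, part A: homogeneity with the bracket; the invariant volume form

Form of the modules as in `LF/SpecD.lean` (import `Pool.Agent.Lib.MP_c9b009_ag.LF.SpecA`). The definitions `Pt`, `tr`, `YI`, `adm`,
`bi`, `Gen` are in `LS/Defs.lean`, `D̂ = LS.DIFM.dh D` (the derivation `D` on the coefficients, `LS/DIF.lean`).
Notation: `∂_a` = `pderiv a`, `v(q) = vf v q`, `{γ_i, γ_j}₀ = ∑_ab tr(π_ab) ∂_a γ_i ∂_b γ_j`.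
-/

set_option autoImplicit false

namespace Pool.Agent.Lib.MPc9b009.LF

open MvPolynomial Pool.Agent.Lib.MPc9b009.B5 Pool.Agent.Lib.MPc9b009.OD
  Pool.Agent.Lib.MPc9b009.PS Pool.Agent.Lib.MPc9b009.LS

/-- A `B`-valued point: a change of coordinates as in `Pt` which also preserves the bivector `π` modulo the
block `ι` of the family `f`. -/
structure PtB (N k : ℕ) {κ τ : Type} [Fintype κ] [DecidableEq τ] (P : Ideal (PR N)) (f : κ → PR N)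
    (blk : κ → τ) (ι : τ) (π : Fin N → Fin N → PR N) (p₀ : Cn N) (B : Type) [CommRing B]
    [Algebra ℂ B] extends Pt N k P f blk p₀ B where
  /-- coefficients -/
  m3 : Fin N → Fin N → κ → MvPolynomial (Fin N) B
  e3 : ∀ i j, (∑ a, ∑ b, tr B p₀ (π a b) * pderiv a (γ i) * pderiv b (γ j)) - aeval γ (π i j) -
    ∑ l, (if blk l = ι then m3 i j l * tr B p₀ (f l) else 0) ∈ YI N k B

/-- the ideal generated by the germs at `p₀` of the block `t` -/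
noncomputable def gbi {N : ℕ} {κ τ : Type} (f : κ → PR N) (blk : κ → τ) (t : τ) (p₀ : Cn N)
    (E : Type) [CommRing E] [Algebra ℂ E] : Ideal (MvPolynomial (Fin N) E) :=
  Ideal.span ((fun j => tr E p₀ (f j)) '' {j | blk j = t})

/-- `u` preserves the blocks and `π` at `p₀` up to order `k` -/
def apE {N : ℕ} (k : ℕ) {κ τ : Type} (f : κ → PR N) (blk : κ → τ) (ι : τ)
    (π : Fin N → Fin N → PR N) (p₀ : Cn N) (E : Type) [CommRing E] [Algebra ℂ E]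
    (u : Fin N → MvPolynomial (Fin N) E) : Prop :=
  (∀ i, ∑ l, u l * pderiv l (tr E p₀ (f i)) ∈ gbi f blk (blk i) p₀ E ⊔ YI N k E) ∧
  ∀ i j, ∑ l, u l * pderiv l (tr E p₀ (π i j)) -
    ∑ l, (pderiv l (u i) * tr E p₀ (π l j) + pderiv l (u j) * tr E p₀ (π i l)) ∈
      gbi f blk ι p₀ E ⊔ YI N k E

/-- the linear part of the change of coordinates -/
noncomputable def J0 {N : ℕ} {E : Type} [CommRing E] (γ : Fin N → MvPolynomial (Fin N) E) :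
    Matrix (Fin N) (Fin N) E := Matrix.of fun i a => constantCoeff (pderiv a (γ i))

/-- REB (~450 lines). COPY of `LS/REP.lean` with the additional generic coefficients `m3` (variables `Fin N × Fin N × κ × Ix`) and
the additional equations: the coefficients of degree `≤ k` of the expression of `e3`. The truncation `pol` of the
coefficients changes a polynomial by monomials with an exponent `≥ k + 2`; their first derivatives have degree `≥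
k + 1`, so they are in `YI` and `e3` is not affected. -/
def SpecREB : Prop := ∀ (N k : ℕ) (κ τ : Type) (_ : Fintype κ) (_ : DecidableEq τ)
  (P : Ideal (PR N)) (f : κ → PR N) (blk : κ → τ) (ι : τ) (π : Fin N → Fin N → PR N) (p₀ : Cn N),
  ∃ (A : Type) (_ : CommRing A) (_ : Algebra ℂ A) (a : PtB N k P f blk ι π p₀ A),
    Algebra.FiniteType ℂ A ∧
    ∀ (B : Type) (_ : CommRing B) (_ : Algebra ℂ B) (b : PtB N k P f blk ι π p₀ B),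
      ∃ ψ : A →ₐ[ℂ] B, ∀ i, ψ (constantCoeff (a.γ i)) = constantCoeff (b.γ i)

/-- DUB (~350 lines). COPY of `LS/DUA.lean` plus `e3`. PROOF. `γ' = γ + ε w`, `w_l = v_l(γ)`. The `ε`-part of the left side of `e3` is
`∑_ab tr(π_ab) (∂_a(v_i(γ)) ∂_b γ_j + ∂_a γ_i ∂_b(v_j(γ))) - (v(π_ij))(γ)` `= ∑_l (∂_l v_i)(γ) {γ_l, γ_j}₀ + (∂_l v_j)(γ) {γ_i, γ_l}₀ -
(v π_ij)(γ)`; by `e3` for `b` it is congruent to `- (dfc π v i j)(γ)` plus a combination of the `tr(f_l)`, `blk l = ι`, modulo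
`YI`; `dfc π v i j = ∑_(blk l = ι) c_l f_l` and `f_l(γ) ≡ ∑_(blk n = ι) m_ln tr(f_n)` by `e1`. This gives the `ε`-part of the new `m3`. -/
def SpecDUB : Prop := ∀ (N k : ℕ) (κ τ : Type) (_ : Fintype κ) (_ : DecidableEq τ)
  (P : Ideal (PR N)) (f : κ → PR N) (blk : κ → τ) (ι : τ) (π : Fin N → Fin N → PR N) (p₀ : Cn N)
  (v : Fin N → PR N), (∀ q ∈ P, vf v q ∈ P) → v ∈ adm f blk →
  (∀ i j, dfc π v i j ∈ Ideal.span (f '' {l | blk l = ι})) →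
  ∀ (B : Type) (_ : CommRing B) (_ : Algebra ℂ B) (b : PtB N k P f blk ι π p₀ B),
  ∃ (B' : Type) (_ : CommRing B') (_ : Algebra ℂ B') (i₀ : B →ₐ[ℂ] B') (ε : B')
    (b' : PtB N k P f blk ι π p₀ B'), ε * ε = 0 ∧ (∀ s t : B, i₀ s + ε * i₀ t = 0 → s = 0 ∧ t = 0) ∧
    ∀ i, constantCoeff (b'.γ i) = i₀ (constantCoeff (b.γ i)) +
      ε * i₀ (aeval (fun l => constantCoeff (b.γ l)) (v i))

/-- KEB (~150 lines), USES REB, DUB. COPY of `LS/KER.lean` (`m3 = 0` for the trivial point). -/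
def SpecKEB : Prop := ∀ (N k r : ℕ) (κ τ : Type) (_ : Fintype κ) (_ : DecidableEq τ)
  (P : Ideal (PR N)) (f : κ → PR N) (blk : κ → τ) (ι : τ) (π : Fin N → Fin N → PR N) (p₀ : Cn N)
  (V : Fin N → Fin r → PR N),
  P.IsPrime → Stab V P → (∀ j, (fun i => V i j) ∈ adm f blk) →
  (∀ c i j, dfc π (fun l => V l c) i j ∈ Ideal.span (f '' {l | blk l = ι})) → p₀ ∈ Zer P →
  (∀ Q : Ideal (PR N), Q.IsPrime → P ≤ Q → Stab V Q → p₀ ∈ Zer Q → Q = P) →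
  ∃ (A : Type) (_ : CommRing A) (_ : Algebra ℂ A) (a : PtB N k P f blk ι π p₀ A),
    Algebra.FiniteType ℂ A ∧
    ∀ q : PR N, aeval (fun i => constantCoeff (a.γ i)) q = 0 ↔ q ∈ P

/-- PTB (~200 lines). COPY of `LS/PTK.lean`. -/
def SpecPTB : Prop := ∀ (N k : ℕ) (κ τ : Type) (_ : Fintype κ) (_ : DecidableEq τ)
  (P : Ideal (PR N)) (f : κ → PR N) (blk : κ → τ) (ι : τ) (π : Fin N → Fin N → PR N) (p₀ : Cn N),
  P.IsPrime →
  ∀ (L : Type) (_ : Field L) (_ : Algebra ℂ L) (φ : PR N →ₐ[ℂ] L), Gen P L φ →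
  ∀ (A : Type) (_ : CommRing A) (_ : Algebra ℂ A) (a : PtB N k P f blk ι π p₀ A),
  Algebra.FiniteType ℂ A →
  (∀ q : PR N, aeval (fun i => constantCoeff (a.γ i)) q = 0 ↔ q ∈ P) →
  ∃ (L' : Type) (_ : Field L') (_ : Algebra ℂ L') (_ : Algebra L L')
    (b : PtB N k P f blk ι π p₀ L'), IsScalarTower ℂ L L' ∧ FiniteDimensional L L' ∧
    ∀ l, constantCoeff (b.γ l) = algebraMap L L' (φ (X l))

/-- JIN (~120 lines). The Jacobian matrix is invertible modulo `YI`. PROOF. `δ = det (∂_a γ_i)` has the constant term `δ₀ = det (coeff of y_a in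
γ_i) ≠ 0`; `δ = δ₀ (1 - ν)`, `ν ∈ (y)`; `δ⁻¹ ≡ δ₀⁻¹ ∑_(n ≤ k) ν^n`, multiply with the adjugate. -/
def SpecJIN : Prop := ∀ (N k : ℕ) (E : Type) (_ : Field E) (γ : Fin N → MvPolynomial (Fin N) E),
  IsUnit (Matrix.of fun i j => coeff (Finsupp.single j 1) (γ i)).det →
  ∃ K : Matrix (Fin N) (Fin N) (MvPolynomial (Fin N) E),
    (∀ i j, ∑ a, K i a * pderiv j (γ a) - (if i = j then 1 else 0) ∈ YI N k E) ∧
    ∀ i j, ∑ a, pderiv a (γ i) * K a j - (if i = j then 1 else 0) ∈ YI N k E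

/-- TRP (~300 lines), USES JIN. Transport of vector fields to the germ at `p₀`. PROOF. Write `u(Q) = ∑ u_a ∂_a Q` for `Q ∈ E[y]`; `u` maps `YI
(k+1)` into `YI k`. `u(f_i(γ)) = ∑_l (∂_l f_i)(γ) u(γ_l) ≡ ∑_l (∂_l f_i)(γ) r_l ∈ gbi (blk i)`. FIRST PART: by `e2` `tr f_i ≡ ∑_(j ~ i) m'_ij
f_j(γ)`, so `u(tr f_i) ≡ ∑ u(m'_ij) f_j(γ) + ∑ m'_ij u(f_j(γ))`, and `f_j(γ) ∈ gbi + YI (k+1)` by `e1`. SECOND PART: apply `u` to `e3`; `u` preserves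
`gbi ι` modulo `YI k` (first part). `u(∂_a γ_i) = ∂_a(u γ_i) - ∑_c ∂_a u_c ∂_c γ_i`, so `u({γ_i, γ_j}₀) ≡ ∑_ab 𝔡_ab ∂_a γ_i ∂_b γ_j + ∑_ab
tr(π_ab)(∂_a r_i ∂_b γ_j + ∂_a γ_i ∂_b r_j)`, `𝔡_ab = u(tr π_ab) - ∑_c (∂_c u_a tr π_cb + ∂_c u_b tr π_ac)`, and `u(π_ij(γ)) ≡ ∑_l (∂_l π_ij)(γ)
r_l`. So `∑_ab 𝔡_ab ∂_a γ_i ∂_b γ_j ∈ gbi ι + YI k`; multiply with the inverse Jacobian matrix (JIN) on both sides. -/
def SpecTRP : Prop := ∀ (N k : ℕ) (κ τ : Type) (_ : Fintype κ) (_ : DecidableEq τ)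
  (P : Ideal (PR N)) (f : κ → PR N) (blk : κ → τ) (ι : τ) (π : Fin N → Fin N → PR N) (p₀ : Cn N)
  (E : Type) (_ : Field E) (_ : Algebra ℂ E) (b : PtB N (k + 1) P f blk ι π p₀ E)
  (u r : Fin N → MvPolynomial (Fin N) E),
  (∀ i, ∑ a, u a * pderiv a (b.γ i) - r i ∈ YI N (k + 1) E) →
  (∀ i, ∑ l, aeval b.γ (pderiv l (f i)) * r l ∈ gbi f blk (blk i) p₀ E ⊔ YI N (k + 1) E) →
  (∀ i j, (∑ a, ∑ c, tr E p₀ (π a c) *
      (pderiv a (r i) * pderiv c (b.γ j) + pderiv a (b.γ i) * pderiv c (r j))) -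
      ∑ l, aeval b.γ (pderiv l (π i j)) * r l ∈ gbi f blk ι p₀ E ⊔ YI N k E) →
  apE k f blk ι π p₀ E u

/-- WTL (~200 lines), USES JIN, TRP. Differentiate the change of coordinates. PROOF. `r_i = D̂ γ_i`, `u_a = ∑_i K_ai r_i` (JIN for `k + 1`).
TRP: `D̂(f_i(γ)) = ∑ (∂_l f_i)(γ) D̂ γ_l` (`DIFM.dh_aeval`), `D̂ (tr f_j) = 0`, so by `e1` it is `≡ ∑ D̂(m_ij) tr f_j`. `D̂` commutes with `∂_a`; apply it to
`e3`. -/
def SpecWTL : Prop := ∀ (N k : ℕ) (κ τ : Type) (_ : Fintype κ) (_ : DecidableEq τ)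
  (P : Ideal (PR N)) (f : κ → PR N) (blk : κ → τ) (ι : τ) (π : Fin N → Fin N → PR N) (p₀ : Cn N)
  (E : Type) (_ : Field E) (_ : Algebra ℂ E) (b : PtB N (k + 1) P f blk ι π p₀ E)
  (D : Derivation ℂ E E),
  ∃ u : Fin N → MvPolynomial (Fin N) E, apE k f blk ι π p₀ E u ∧
    ∀ i, ∑ a, u a * pderiv a (b.γ i) - LS.DIFM.dh D (b.γ i) ∈ YI N (k + 1) E

/-- ETL (~200 lines), USES JIN, TRP. Pull back a Poisson vector field. PROOF. `r_i = η_i(γ)`, `u_a = ∑_i K_ai r_i`. TRP: `∑_l (∂_l f_i)(γ) η_l(γ) =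
(η f_i)(γ)` is a combination of the `f_j(γ)`, `j ~ i`, use `e1`. `∂_a(η_i(γ)) = ∑_l (∂_l η_i)(γ) ∂_a γ_l`, so the bracket expression is `∑_l (∂_l
η_i)(γ) {γ_l, γ_j}₀ + (∂_l η_j)(γ) {γ_i, γ_l}₀ - (η π_ij)(γ) ≡ - (dfc π η i j)(γ)` modulo `gbi ι + YI` by `e3`; and `e1`. -/
def SpecETL : Prop := ∀ (N k : ℕ) (κ τ : Type) (_ : Fintype κ) (_ : DecidableEq τ)
  (P : Ideal (PR N)) (f : κ → PR N) (blk : κ → τ) (ι : τ) (π : Fin N → Fin N → PR N) (p₀ : Cn N)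
  (E : Type) (_ : Field E) (_ : Algebra ℂ E) (b : PtB N (k + 1) P f blk ι π p₀ E)
  (η : Fin N → PR N), η ∈ adm f blk → (∀ i j, dfc π η i j ∈ Ideal.span (f '' {l | blk l = ι})) →
  ∃ u : Fin N → MvPolynomial (Fin N) E, apE k f blk ι π p₀ E u ∧
    ∀ i, ∑ a, u a * pderiv a (b.γ i) - aeval b.γ (η i) ∈ YI N (k + 1) E

/-- LNC (~250 lines). Complex coordinates of a vector field with coefficients in `E`. PROOF. Let `(e_α)` be a basis of `E` over `ℂ` which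
contains `1` (`Basis.extend`). `u_l = ∑_α e_α u_(l,α)`, `u_(l,α) ∈ ℂ[y]`, finitely many `α` (all coefficients of all `u_l`, and `1`). The
coordinate functional `E → ℂ` of `α`, applied to the coefficients, maps `gbi .. E` into `gbi .. ℂ` and `YI` into `YI` and commutes with the
multiplication by elements of `ℂ[y]` and with `∂_a`, so `(u_(l,α))_l` satisfies `apE` over `ℂ`. `w_α l = u_(l,α)(x - p₀)`: the translation
`tr ℂ p₀ : S → ℂ[y]` is an isomorphism (inverse `y ↦ x - p₀`), it commutes with the `∂_l`, maps `bi`, `span (f '' ..)` onto `gbi`, and `mx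
p₀ ^ (k + 1)` onto `YI k`. -/
def SpecLNC : Prop := ∀ (N k : ℕ) (κ τ : Type) (_ : Fintype κ) (_ : DecidableEq τ)
  (f : κ → PR N) (blk : κ → τ) (ι : τ) (π : Fin N → Fin N → PR N) (p₀ : Cn N)
  (E : Type) (_ : Field E) (_ : Algebra ℂ E) (u : Fin N → MvPolynomial (Fin N) E),
  apE k f blk ι π p₀ E u →
  ∃ (m : ℕ) (e : Fin (m + 1) → E) (w : Fin (m + 1) → Fin N → PR N), LinearIndependent ℂ e ∧
    e 0 = 1 ∧
    (∀ l, u l = ∑ α, C (e α) * MvPolynomial.map (algebraMap ℂ E) (tr ℂ p₀ (w α l))) ∧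
    ∀ α, (∀ i, vf (w α) (f i) ∈ bi f blk i ⊔ mx p₀ ^ (k + 1)) ∧
      ∀ i j, dfc π (w α) i j ∈ Ideal.span (f '' {l | blk l = ι}) ⊔ mx p₀ ^ (k + 1)

/-- TNG (~300 lines), USES TGD. The tangent spaces correspond. PROOF. `c = φ'(X) = γ(0)`. (a) `t ∈ L'^N` with `∑ t_l ∂_l q(p₀) = 0` for all `q ∈
P`: for `i` in the block of `P` the derivative of `f_i(γ) ≡ ∑ m_ij tr f_j` at `y = 0` in the direction `t` (`k ≥ 1`) is `∑_l (∂_l f_i)(c) (J₀ t)_l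
= ∑_j (m_ij(0) ∑ t_l ∂_l f_j(p₀) + (..) f_j(p₀)) = 0` (`f_j ∈ P`, `p₀ ∈ V(P)`), so `J₀ t ∈ tsp P φ'`. (b) Conversely, from `e2`, `J₀⁻¹` maps `tsp P
φ'` into `{t}` (`f_j(c) = 0`). So `J₀` is an isomorphism of `{t} = L' ⊗ tgx P p₀` onto `tsp P φ'`. The dimension of `tsp P φ'` over `L'` is
that of `tsp P φ` over `L` (linear equations with coefficients in `L`), `d` by TGD. A basis `e` of `tgx P p₀` over `ℂ` is a basis of `L' ⊗
tgx` over `L'`. (3) The `L'`-combinations of the vectors of `tsp P φ` are `tsp P φ'`. -/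
def SpecTNG : Prop := ∀ (N k d : ℕ) (κ τ : Type) (_ : Fintype κ) (_ : DecidableEq τ)
  (P : Ideal (PR N)) (f : κ → PR N) (blk : κ → τ) (t₀ : τ) (p₀ : Cn N), P.IsPrime →
  Algebra.trdeg ℂ (PR N ⧸ P) = ((d : ℕ) : Cardinal) →
  Ideal.span (f '' {l | blk l = t₀}) = P → p₀ ∈ Zer P →
  ∀ (L : Type) (_ : Field L) (_ : Algebra ℂ L) (φ : PR N →ₐ[ℂ] L), Gen P L φ →
  ∀ (L' : Type) (_ : Field L') (_ : Algebra ℂ L') (_ : Algebra L L'), IsScalarTower ℂ L L' →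
  ∀ b : Pt N (k + 1) P f blk p₀ L', (∀ l, constantCoeff (b.γ l) = algebraMap L L' (φ (X l))) →
  Module.finrank ℂ (tgx P p₀) = d ∧
  (∀ e : Fin d → Cn N, (∀ i, e i ∈ tgx P p₀) → LinearIndependent ℂ e →
    LinearIndependent L' (fun i => (J0 b.γ).mulVec (fun l => algebraMap ℂ L' (e i l))) ∧
    ∀ t : Fin N → L', (t ∈ Submodule.span L' (Set.range fun i =>
      (J0 b.γ).mulVec (fun l => algebraMap ℂ L' (e i l))) ↔
      t ∈ Submodule.span L' {w | ∃ s ∈ tsp P φ, w = fun l => algebraMap L L' (s l)})) ∧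
  ∀ t ∈ tgx P p₀, (J0 b.γ).mulVec (fun l => algebraMap ℂ L' (t l)) ∈
    Submodule.span L' {w | ∃ s ∈ tsp P φ, w = fun l => algebraMap L L' (s l)}

/-- TRS (~250 lines), USES KEB, PTB, WTL, LNC, TNG, TGD. Every tangent vector of `V(P)` at `p` is the value of a vector field which preserves
`I, P, π` at `p` up to order `k`. PROOF. `f` = generators of `I` (index type `κ_I`) and of `P` (`κ_P`), `κ = κ_I ⊕ κ_P`, `τ = Bool`, `blk =
Sum.isLeft`, `ι = true`. KEB (for the order `k + 1`), PTB (`L = FractionRing (S / P)`) give `b` over `L'`. `t ∈ tgx P p`: `J₀ t` is an `L'`-combination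
of vectors `s^ν ∈ tsp P φ` (TNG), `s^ν = (D_ν x̄_l)` (TGD); extend `D_ν` to `L'` (`LS.specEXD`): `D = ∑ a_ν D'_ν` is a derivation of `L'` with `D(c_l) =
(J₀ t)_l`. WTL: `u` with `J₀ u(0) = D(c) = J₀ t`, `u(0) = t`. LNC: `u(0) = ∑ e_α w_α(p) = t ∈ ℂ^N`, `e₀ = 1`, independence: `w₀(p) = t`. (`bi` of the blocks
are `I` and `P`; `v(q) ∈ I ⊔ ..` for generators `q` gives it for all `q ∈ I`.) -/
def SpecTRS : Prop := ∀ (N r : ℕ) (I P : Ideal (PR N)) (π : Fin N → Fin N → PR N)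
  (V : Fin N → Fin r → PR N) (p : Cn N), I ≤ P → P.IsPrime →
  (∀ j, (fun i => V i j) ∈ PV I π ∧ ∀ q ∈ P, vf (fun i => V i j) q ∈ P) → p ∈ Zer P →
  (∀ Q : Ideal (PR N), Q.IsPrime → P ≤ Q → Stab V Q → p ∈ Zer Q → Q = P) →
  ∀ (k : ℕ), ∀ t ∈ tgx P p, ∃ w ∈ PVk I π p k, (∀ q ∈ P, vf w q ∈ P ⊔ mx p ^ k) ∧
    ∀ l, eval p (w l) = t l

/-- TRZ (~250 lines), USES TLM, TRS. The isotropy has trace zero. PROOF. `k` of TLM, `k ≥ 2`. `B_il = ∂_l ψ_i (p)`, `T = tgx P p`, `F = range (mat π p)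
⊆ T` (`Stab π P`, `p ∈ V(P)`). For `t ∈ T` TRS gives `w` with `w(p) = t`, TLM: `B t ∈ F`. So the trace of `B` on `T` is the trace of `B` on `F`. `dfc π ψ
i j ∈ I ⊔ mx p ^ k` at `p`, `ψ(p) = 0`: `B π₀ + π₀ Bᵀ = 0`, `π₀ = mat π p` skew. So the trace of `B` on `F = range π₀` is `0`: let `U` (`N × m`) be a
basis of `F`, `π₀ = U Ω Uᵀ` with `Ω` invertible skew, `B U = U B₀`, `B₀ Ω + Ω B₀ᵀ = 0`, `tr B₀ = - tr (Ω B₀ᵀ Ω⁻¹) = - tr B₀`. -/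
def SpecTRZ : Prop := ∀ (N n r d : ℕ) (I P : Ideal (PR N)) (π : Fin N → Fin N → PR N)
  (V : Fin N → Fin r → PR N) (p : Cn N), 2 ≤ n → I.IsPrime →
  Algebra.trdeg ℂ (PR N ⧸ I) = ((n : ℕ) : Cardinal) → (∀ i j, π j i = - π i j) → Stab π I →
  (∀ i j l, jac π i j l ∈ I) → Rdc n I π → (∃ x ∈ Zer I, (mat π x).rank = n) →
  (∃ c : Crd I n, eval p c.Δ ≠ 0) → I ≤ P → P.IsPrime → Stab π P →
  (∀ j, (fun i => V i j) ∈ PV I π ∧ ∀ q ∈ P, vf (fun i => V i j) q ∈ P) → p ∈ Zer P →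
  (∀ Q : Ideal (PR N), Q.IsPrime → P ≤ Q → Stab V Q → p ∈ Zer Q → Q = P) →
  ∃ k : ℕ, ∀ ψ ∈ PVk I π p k, (∀ q ∈ P, vf ψ q ∈ P ⊔ mx p ^ k) → (∀ l, eval p (ψ l) = 0) →
    ∀ e : Fin d → Cn N, (∀ t, t ∈ tgx P p ↔ t ∈ Submodule.span ℂ (Set.range e)) →
    LinearIndependent ℂ e → ∃ Ψ : Matrix (Fin d) (Fin d) ℂ, Ψ.trace = 0 ∧
      ∀ j l, ∑ a, eval p (pderiv a (ψ l)) * e j a = ∑ i, Ψ i j * e i l

/-- NDR (~150 lines). The derivative of the norm. PROOF. `b_i` a basis of `L' / L`, `D' b_i = ∑ m_ij b_j`, `Y` = the matrix of the multiplication by `y`.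
The matrix of the multiplication by `D'(y)` is `D(Y)` plus a commutator `[Y, m]` (Leibniz, as in `LS/TRE.lean`). `N(y) = det Y`, `D(det Y) = det Y
tr(Y⁻¹ D(Y))`, `tr (Y⁻¹ [Y, m]) = 0`, and `Y⁻¹ · (matrix of D'(y))` is the matrix of `D'(y)/y`. -/
def SpecNDR : Prop := ∀ (L L' : Type) (_ : Field L) (_ : Field L') (_ : Algebra ℂ L)
  (_ : Algebra ℂ L') (_ : Algebra L L'), IsScalarTower ℂ L L' → FiniteDimensional L L' →
  ∀ (D : Derivation ℂ L L) (D' : Derivation ℂ L' L'),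
  (∀ y, D' (algebraMap L L' y) = algebraMap L L' (D y)) → ∀ y : L', y ≠ 0 →
  D (Algebra.norm L y) = Algebra.norm L y * Algebra.trace L L' (D' y / y)

/-- PHA (~350 lines), USES KEB, PTB, WTL, ETL, LNC, TNG, TGD, TRZ, NDR. THEOREM H: the invariant volume form. PROOF. `k` of TRZ. `f, κ, τ = Bool, ι =
true` as in TRS; KEB, PTB (order `k + 1`): `b` over `L'` with `γ(0) = c`, `J₀ = J0 γ` (invertible). `e` = a basis of `tgx P p` (dimension `d` by TNG), `U = J₀ e`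
(`N × d` over `L'`), its columns are a basis of the `L'`-span of `tsp P φ` (TNG). Choose `A : Fin d → Fin N` with `Λ = det (U_(A i, j)) ≠ 0`. The map
`tsp P φ → L^d`, `t ↦ t_A` is injective (it is over `L'`), so bijective (TGD), and by TGD (2) there are `dd_i` with `dd_i x̄_(A j) = δ_ij`. `M = [L' :
L]`, `lam = N(Λ) ≠ 0`. Let `η ∈ W` with the derivation `D` of `L`, `D'` on `L'` (`LS.specEXD`). WTL for `D'`: `w`, ETL for `η`: `η̃`. Modulo `YI (k+1)`: `∑ w_a ∂_a γ_i ≡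
D̂' γ_i`, `∑ η̃_a ∂_a γ_i ≡ η_i(γ)`. Constant terms: `J₀ w(0) = D'(c) = η(c) = J₀ η̃(0)`, so `w(0) = η̃(0)`; `ψ = w - η̃`, `ψ(0) = 0`, `apE k` holds for `ψ` (linear
conditions). Coefficients of `y_j` (apply `∂_j` and take constant terms) of the difference of the two congruences: `D'(J₀) - (∂η)(c) J₀ = J₀ B`,
`B_al = ∂_l ψ_a (0)`, `(∂η)(c)_il = (∂_l η_i)(c)`. LNC for `ψ`: `ψ = ∑ e_α ψ_α`, `ψ_α(p) = 0` (independence), TRZ for every `ψ_α`: `B e = e Ψ` with `Ψ` over `L'`,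
`tr Ψ = 0`. So `D'(U) = (∂η)(c) U + U Ψ`. `D'(Λ) = Λ tr (U_A⁻¹ D'(U_A)) = Λ [tr (U_A⁻¹ ((∂η)(c) U)_A) + 0]`. Every column `t` of `U` is `∑_m t_(A m) (dd_m x̄_l)_l`
(it is in the `L'`-span of `tsp P φ`), so `((∂η)(c) t)_(A i) = ∑_m t_(A m) ∑_l (∂_l η_(A i))(c) dd_m x̄_l = ∑_m t_(A m) dd_m(φ η_(A i))`, and the trace is `τ = ∑_i
dd_i(φ η_(A i)) ∈ L`. NDR: `D(lam) = lam Tr(D'(Λ)/Λ) = lam M τ`. -/
def SpecPHA : Prop := ∀ (N n r d : ℕ) (I P : Ideal (PR N)) (π : Fin N → Fin N → PR N)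
  (V : Fin N → Fin r → PR N) (p : Cn N), 2 ≤ n → I.IsPrime →
  Algebra.trdeg ℂ (PR N ⧸ I) = ((n : ℕ) : Cardinal) → (∀ i j, π j i = - π i j) → Stab π I →
  (∀ i j l, jac π i j l ∈ I) → Rdc n I π → (∃ x ∈ Zer I, (mat π x).rank = n) →
  (∃ c : Crd I n, eval p c.Δ ≠ 0) → I ≤ P → P.IsPrime → Stab π P →
  Algebra.trdeg ℂ (PR N ⧸ P) = ((d : ℕ) : Cardinal) →
  (∀ j, (fun i => V i j) ∈ PV I π ∧ ∀ q ∈ P, vf (fun i => V i j) q ∈ P) → p ∈ Zer P →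
  (∀ Q : Ideal (PR N), Q.IsPrime → P ≤ Q → Stab V Q → p ∈ Zer Q → Q = P) →
  ∀ (L : Type) (_ : Field L) (_ : Algebra ℂ L) (φ : PR N →ₐ[ℂ] L), Gen P L φ →
  Nonempty (InvV d {η | η ∈ PV I π ∧ ∀ q ∈ P, vf η q ∈ P} φ)

end Pool.Agent.Lib.MPc9b009.LF
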