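import Pool.Agent.Lib.MP_c9b009_ag.LF.SpecA

/-!
# MP_c9b009_ag, row LF, part C: from the cone to the affine chart `x_b = 1` and back

`I` a homogeneous prime, `X b ∉ I`; `chI b I = I ⊔ (x_b - 1)` is the ideal of the affine chart `x_b ≠ 0` of `Proj (S / I)`
(a closed subset of `ℂ^N` in the hyperplane `x_b = 1`), `y_l = x_l / x_b`. The Poisson bracket of the chart: `π'_ij = g_ij -
x_i g_bj - x_j g_ib`, and `h_i = g_bi` is the connection field of the line bundle `O(1)`.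
Form of the modules as in `LF/SpecD.lean` (import `Pool.Agent.Lib.MP_c9b009_ag.LF.SpecC`).
-/

set_option autoImplicit false

namespace Pool.Agent.Lib.MPc9b009.LF

open MvPolynomial Pool.Agent.Lib.MPc9b009.B5 Pool.Agent.Lib.MPc9b009.OD
  Pool.Agent.Lib.MPc9b009.PS Pool.Agent.Lib.MPc9b009.LS

/-- the ideal of the chart `x_b = 1` -/
noncomputable def chI {N : ℕ} (b : Fin N) (I : Ideal (PR N)) : Ideal (PR N) :=
  I ⊔ Ideal.span {X b - 1}

attribute [local instance] MvPolynomial.gradedAlgebra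

/-- the ideal of the cone: the largest homogeneous ideal contained in `q` -/
noncomputable def coI {N : ℕ} (q : Ideal (PR N)) : Ideal (PR N) :=
  (q.homogeneousCore (homogeneousSubmodule (Fin N) ℂ)).toIdeal

/-- the bivector in the chart -/
noncomputable def chP {N : ℕ} (b : Fin N) (g : Biv N) (i j : Fin N) : PR N :=
  g.f i j - X i * g.f b j - X j * g.f i b

/-- the matrix with the columns `(π'_ia)_i` and `(g_bi)_i` -/
noncomputable def chV {N : ℕ} (b : Fin N) (g : Biv N) : Fin N → Fin (N + 1) → PR N :=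
  fun i => Fin.append (fun a => chP b g i a) (fun _ : Fin 1 => g.f b i)

/-- the matrix with the columns `(g_ia)_i` and `(x_i)_i` -/
noncomputable def geV {N : ℕ} (g : Biv N) : Fin N → Fin (N + 1) → PR N :=
  fun i => Fin.append (fun a => g.f i a) (fun _ : Fin 1 => X i)

/-- `V(I)` is a smooth variety of dimension `d` at `x` (Jacobian criterion) -/
def Smx {N : ℕ} (d : ℕ) (I : Ideal (PR N)) (x : Cn N) : Prop :=
  ∃ (F : Fin (N - d) → PR N) (K : Fin (N - d) → Fin N), (∀ a, F a ∈ I) ∧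
    eval x (Matrix.of fun a b => pderiv (K b) (F a)).det ≠ 0

/-- The degeneracy divisor of the Poisson structure of `X = Proj (S / I)`, `dim X = n`, is reduced: outside a closed
subset of codimension `≥ 2` the rank is `n`, or it is `n - 2` and the isotropy Lie algebra is not abelian. (`ξ, ζ` with `ξ · x =
ζ · x = 0` are cotangent vectors of the projective space at `[x]`.) -/
def RdP {N : ℕ} (n : ℕ) (I : Ideal (PR N)) (g : Biv N) : Prop :=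
  ∃ J : Ideal (PR N), Hom J ∧ Dle J (n - 1) ∧ ∀ x ∈ Zer I, x ≠ 0 → x ∉ Zer J →
    rk g.f x = n ∨ (rk g.f x + 2 = n ∧ ∃ (ξ ζ v : Cn N) (c c' : ℂ), dot x ξ = 0 ∧ dot x ζ = 0 ∧
      (mat g.f x).mulVec ξ = c • x ∧ (mat g.f x).mulVec ζ = c' • x ∧ v ∈ tgx I x ∧
      ∑ i, ∑ j, ∑ l, ξ i * ζ j * v l * eval x (pderiv l (g.f i j)) + c * dot v ζ -
        c' * dot v ξ ≠ 0)

/-- CAM (~200 lines). The chart and the function field. PROOF. `y_l = φ(X_l)/φ(X_b)`. (→) `q ∈ I`: the components `q_e ∈ I`,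
`q(y) = ∑ q_e(φ X)/φ(X_b)^e = 0`; `y_b = 1`. (←) `q(y) = 0`, `K ≥` the total degree: `Q = ∑_e X_b^(K-e) q_e` has `φ(Q) = φ(X_b)^K q(y) = 0`,
so `Q ∈ I`, and `Q - q = ∑_e (X_b^(K-e) - 1) q_e ∈ (X_b - 1)`. Prime: it is the kernel of `q ↦ q(y)` into a field. TRDEG: `S / chI b I ≅
ℂ[y] ⊆ L`. The homomorphism `ℂ[y][t] → L`, `t ↦ φ(X_b)`, is injective: if `∑_k a_k(y) φ(X_b)^k = 0`, `a_k ∈ S`, multiply with
`φ(X_b)^K`: `φ` of `∑_k ∑_e X_b^(K+k-e) (a_k)_e = 0`; its component of degree `K + k` is in `I`, i.e. `φ(X_b)^(K+k) a_k(y) = 0`. So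
`trdeg L ≥ trdeg ℂ[y] + 1` (`Polynomial`/`MvPolynomial` in one variable; `trdeg` of `R[t]` for a domain `R`), and `L` is generated as a field
by `ℂ[y]` and `φ(X_b)` (`φ(X_l) = y_l φ(X_b)`), so equality. -/
def SpecCAM : Prop := ∀ (N : ℕ) (b : Fin N) (I : Ideal (PR N)), I.IsPrime → Hom I → X b ∉ I →
  (∀ (L : Type) (_ : Field L) (_ : Algebra ℂ L) (φ : PR N →ₐ[ℂ] L), Gen I L φ →
    ∀ q, q ∈ chI b I ↔ aeval (fun l => φ (X l) / φ (X b)) q = 0) ∧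
  (chI b I).IsPrime ∧
  Algebra.trdeg ℂ (PR N ⧸ I) = Algebra.trdeg ℂ (PR N ⧸ chI b I) + 1

/-- COI (~200 lines), USES CAM. The cone over a subvariety of the chart. PROOF. `f ∈ coI q'` iff all components of `f` are in `q'`
(definition of `Ideal.homogeneousCore`; use `attribute [local instance] MvPolynomial.gradedAlgebra`). Prime: `Ideal.IsPrime.homogeneousCore`. `X b ∉ coI q'` (otherwise `X b, X b - 1 ∈ q'`). `chI b
(coI q') = q'`: for `f ∈ q'`, `K ≥` the total degree, `Q = ∑_e X_b^(K-e) f_e` is homogeneous and `Q - f ∈ (X_b - 1) ⊆ q'`, so `Q ∈ coI q'`, `f ∈ chI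
b (coI q')`. TRDEG from CAM for `I := coI q'`. `coI (chI b P) = P`: `f ∈ coI (chI b P)`: `f_e ∈ chI b P`, so by CAM (`L =
FractionRing (S / P)`) `0 = f_e(y) = f_e(φ X) / φ(X_b)^e`, `f_e ∈ P`. STABLE: it is enough to consider a homogeneous `f ∈ q'` of degree `e`:
`∑_i g_ij ∂_i f = ∑_i π'_ij ∂_i f + g_bj (e f) - X_j ∑_i g_bi ∂_i f ∈ q'`, and it is homogeneous of degree `e + 1`. -/
def SpecCOI : Prop := ∀ (N : ℕ) (b : Fin N),
  (∀ q' : Ideal (PR N), q'.IsPrime → X b - 1 ∈ q' →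
    (coI q').IsPrime ∧ Hom (coI q') ∧ X b ∉ coI q' ∧ coI q' ≤ q' ∧ chI b (coI q') = q' ∧
    (∀ J, Hom J → J ≤ q' → J ≤ coI q') ∧
    Algebra.trdeg ℂ (PR N ⧸ coI q') = Algebra.trdeg ℂ (PR N ⧸ q') + 1 ∧
    ∀ g : Biv N, Stab (chV b g) q' → Stab g.f (coI q')) ∧
  ∀ P : Ideal (PR N), P.IsPrime → Hom P → X b ∉ P → coI (chI b P) = P

/-- CPI (~300 lines). The Poisson structure of the chart. PROOF. Write `h_i = g_bi`, `π'_ij = g_ij - (x_i h_j - x_j h_i)`; `h_b = 0`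
(skewness), `E(h_i) = 2 h_i`. STABLE: `q ∈ P`: `∑_i π'_ij ∂_i q = ∑_i g_ij ∂_i q - E(q) h_j - X_j ∑_i g_ib ∂_i q ∈ P` (`E q ∈ P`: `LS.specEUH`),
`h(q) = - ∑_i g_ib ∂_i q ∈ P`; for `X_b - 1`: `π'_bj = (1 - X_b) g_bj`, `h_b = 0`. JACOBI, an exact identity: `jac π' i j k = jac g i
j k - X_i jac g b j k - X_j jac g b k i - X_k jac g b i j` (expand; all the terms with `h h'` cancel, `E(g_ij) = 2 g_ij`). `PV`: for
the columns of `π'`: `dfc π' (π'_·a) i j = - jac π' i j a`; for `h`: `dfc g.f h i j = jac g.f i j b` and `dfc (x_i h_j - x_j h_i) h i j = 0`,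
so `dfc π' h i j = jac g.f i j b`. -/
def SpecCPI : Prop := ∀ (N : ℕ) (b : Fin N) (g : Biv N) (I : Ideal (PR N)), Hom I →
  Stab g.f I → (∀ i j l, jac g.f i j l ∈ I) →
  (∀ i j, chP b g j i = - chP b g i j) ∧ (∀ i j l, jac (chP b g) i j l ∈ chI b I) ∧
  (∀ j, (fun i => chV b g i j) ∈ PV (chI b I) (chP b g)) ∧
  ∀ P : Ideal (PR N), Hom P → Stab g.f P → Stab (chV b g) (chI b P) ∧ Stab (chP b g) (chI b P)

/-- CPR (~150 lines). The rank. PROOF. `x_b = 1`, `A = mat g.f x`, `Π v = v - v_b x` (the projection along `ℂ x` onto `{v_b = 0}`):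
`mat (chP b g) x = Π A Πᵀ` (`g_bb = 0`), `Πᵀ ξ = ξ - (x · ξ) e_b` maps `ℂ^N` onto `ker (dot x)`, and `ker Π = ℂ x`. So the range of `Π A
Πᵀ` is the image of `ker (dot x)` under `Π A`, isomorphic to its image in `ℂ^N / ℂ x`. The second statement: for `t ≠ 0`, `g.f (t x) = t²
g.f x`, `ker (dot (t x)) = ker (dot x)`, `span {t x} = span {x}`. -/
def SpecCPR : Prop := ∀ (N : ℕ) (b : Fin N) (g : Biv N) (x : Cn N),
  (x b = 1 → (mat (chP b g) x).rank = rk g.f x) ∧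
  ∀ t : ℂ, t ≠ 0 → rk g.f (t • x) = rk g.f x

/-- CRR (~200 lines), USES COI, CPR. Reducedness on the chart. PROOF. `J` of `RdP`, `b' = chI b J`. `Dle b' (n - 2)`: a prime `q' ≥ b'`
contains `X b - 1` and `J`, `coI q' ≥ J`, so `D(q') + 1 = D(coI q') ≤ n - 1`. Let `x ∈ Zer (chI b I)`, `x ∉ Zer b'`: `x_b = 1`, `x ∈ Zer I`, `x ∉
Zer J`. Rank: CPR. `ξ, ζ, v, c, c'` of `RdP`; `v' = v - v_b x`. `(π' ξ)_i = (g ξ)_i - x_i (g ξ)_b - (x · ξ) g_ib = c x_i - c x_i = 0`, same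
for `ζ`. `v' ∈ tgx (chI b I) x`: `x ∈ tgx I x` (Euler, `Hom I`), `v'_b = 0`; an element of `chI b I` is `q + (X_b - 1) r`, its derivative at `x`
along `v'` is that of `q` plus `v'_b r(x) = 0`. `∑ ξ_i ζ_j v'_l ∂_l π'_ij = ξᵀ (∂_v' g) ζ - (ξ · v') (g ζ)_b + (ζ · v') (g ξ)_b` (`x · ξ = x
· ζ = 0`, `∑_i ξ_i g_ib = - (g ξ)_b`) `= ξᵀ (∂_v' g) ζ + c (ζ · v') - c' (ξ · v')`, and this does not change if `v'` is replaced by `v =
v' + v_b x`: `ξᵀ (∂_x g) ζ = 2 ξᵀ g ζ = 2 c' (ξ · x) = 0`. -/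
def SpecCRR : Prop := ∀ (N n : ℕ) (b : Fin N) (g : Biv N) (I : Ideal (PR N)), Hom I →
  RdP n I g → Rdc n (chI b I) (chP b g)

/-- CSM (~200 lines). Smooth points. PROOF. LEMMA: if `d ≤ N`, `F : Fin (N - d) → S`, `F a ∈ P`, and the gradients of the `F a` at `x` are
linearly independent, then there is `c : Crd P d` with `Δ(x) ≠ 0`: the matrix of the gradients has rank `N - d`, so a minor with columns `K`
is not `0` (`specRKM`), `K` is injective, enumerate the complement of its range by `J : Fin d → Fin N` (see `LF/BAD.lean`). (1) `F` of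
`Smx`: a nonvanishing minor, so independent gradients. (2) `F` of `Smx (n+1)` and `X_b - 1` (`N - n = (N - (n + 1)) + 1`; `Fin.cons`): `x ·
∇F_a(x) = (E F_a)(x) = 0` because `E F_a ∈ I` (`Hom I`, `LS.specEUH`) and `x · ∇(X_b - 1) = x_b = 1`, so the gradient of `X_b - 1` is
independent of the others. -/
def SpecCSM : Prop := ∀ (N n : ℕ) (b : Fin N) (I : Ideal (PR N)), n + 1 ≤ N → Hom I →
  ∀ x ∈ Zer I, Smx (n + 1) I x → (∃ c : Crd I (n + 1), eval x c.Δ ≠ 0) ∧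
    (x b = 1 → ∃ c : Crd (chI b I) n, eval x c.Δ ≠ 0)

/-- CMI (~150 lines), USES COI. Minimality at a point of rank `≥ s + 2`. PROOF. (2) `Q` is stable under the columns of `g` and the
Euler field, so `StE g Q` (`LS.specEUH`). The rank of the matrix `geV g` at `x` is `≥ rk g.f x + 1 ≥ s + 3` (the image of `ker (dot x)`
modulo `x`, and `x`), some `(s+3)`-minor does not vanish at `x` (`specRKM`), so it is not in `Q`: `D(Q) ≥ s + 3` (`specDIM`). If `Q ≠ P` then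
`D(Q) ≤ s + 1`. (1) `Q = coI Q'`: prime, homogeneous, stable under `g` (COI), `P ≤ Q ≤ Q'`, `x ∈ Zer Q`; (2) gives `Q = P`, so `Q' = chI b
Q = chI b P`. -/
def SpecCMI : Prop := ∀ (N s : ℕ) (g : Biv N) (P : Ideal (PR N)), P.IsPrime → Hom P →
  (∀ Q : Ideal (PR N), Q.IsPrime → P ≤ Q → StE g Q → Q ≠ P →
    Algebra.trdeg ℂ (PR N ⧸ Q) ≤ ((s + 1 : ℕ) : Cardinal)) →
  ∀ x ∈ Zer P, x ≠ 0 → s + 2 ≤ rk g.f x →
  (∀ (b : Fin N) (Q' : Ideal (PR N)), x b = 1 → Q'.IsPrime → chI b P ≤ Q' →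
    Stab (chV b g) Q' → x ∈ Zer Q' → Q' = chI b P) ∧
  ∀ Q : Ideal (PR N), Q.IsPrime → P ≤ Q → Stab (geV g) Q → x ∈ Zer Q → Q = P

/-- CVA (~250 lines), USES CAM, TGD. Derivations of the chart and of the cone. PROOF. `t = φ(X_b)`, `y_l = φ(X_l)/t`. (j) By CAM the
homomorphism `q ↦ q(y)` has the kernel `chI b P`, so it factors through `φ'` and extends to the fraction field `L'` (`Gen`). (1) For a
derivation `δ` of `L'` the vector `(t j(δ φ'(X_l)))_l` is in `tsp P φ`: for a homogeneous `q ∈ P` of degree `e`: `∑_l (∂_l q)(φ X) t j(δ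
φ'(X_l)) = t^e ∑_l (∂_l q)(y) j(δ φ'(X_l)) = t^e j(δ(φ' q)) = 0` (`P ≤ chI b P`). TGD (2) gives `D` with `D(φ X_l) = t j(δ φ'(X_l))`;
`D(t) = 0` because `φ'(X_b) = 1`, so `D(y_l) = j(δ φ'(X_l))`, and `D ∘ j = j ∘ δ` by (3). (2) `(φ X_l)_l ∈ tsp P φ` (Euler, `Hom P`), `E(y_l) =
0`, and (3). (3) The set of the `y ∈ L'` with this identity is closed under sums, products and inverses and contains the `φ'(X_l)`; use
`Gen.frac`. -/
def SpecCVA : Prop := ∀ (N d : ℕ) (b : Fin N) (P : Ideal (PR N)), P.IsPrime → Hom P →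
  X b ∉ P → Algebra.trdeg ℂ (PR N ⧸ P) = ((d + 1 : ℕ) : Cardinal) →
  ∀ (L : Type) (_ : Field L) (_ : Algebra ℂ L) (φ : PR N →ₐ[ℂ] L), Gen P L φ →
  ∀ (L' : Type) (_ : Field L') (_ : Algebra ℂ L') (φ' : PR N →ₐ[ℂ] L'), Gen (chI b P) L' φ' →
  ∃ j : L' →ₐ[ℂ] L, (∀ l, φ (X b) * j (φ' (X l)) = φ (X l)) ∧
    (∀ δ : Derivation ℂ L' L', ∃ D : Derivation ℂ L L, D (φ (X b)) = 0 ∧
      ∀ y, D (j y) = j (δ y)) ∧
    (∃ E : Derivation ℂ L L, (∀ l, E (φ (X l)) = φ (X l)) ∧ ∀ y, E (j y) = 0) ∧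
    ∀ (D : Derivation ℂ L L) (δ₁ δ₂ : Derivation ℂ L' L') (a₁ a₂ : L),
      (∀ l, D (j (φ' (X l))) = a₁ * j (δ₁ (φ' (X l))) + a₂ * j (δ₂ (φ' (X l)))) →
      ∀ y, D (j y) = a₁ * j (δ₁ y) + a₂ * j (δ₂ y)

/-- CIV (~350 lines), USES CVA, TGD, CAM. From a volume form on the chart to a volume form on the cone. PROOF. `t = φ(X_b)`, `y_l = j(φ'
X_l)`, `φ(X_l) = t y_l`. For a derivation `δ` of `L'` let `δ^` be the `D` of CVA. `E` = the Euler derivation of CVA. `I' : InvV d W φ'` with `A', dd',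
M, lam'`. NEW: `A = Fin.snoc A' b`, `dd_i = δ_i^ / t` (`δ_i = dd'_i`, `i < d`), `dd_b = (E - ∑_i φ(X_(A' i)) dd_i)/t`, `lam = t^((d+1) M)
j(lam')`, the same `M`. `dual` clear. `inv`: Euler (any `D` with `D(φ X_l) = φ X_l` satisfies `D(lam) = E(lam)`, as in CVA (3)): `E(lam) =
(d + 1) M lam`. `D` with `D(φ X_l) = φ(g_al)`: `δ_a, δ_h` = derivations of `L'` with `δ_a(φ' X_l) = φ'(π'_al)`, `δ_h(φ' X_l) = φ'(h_l)`, `h_l =
g_bl` (`chI b P` is stable under these fields, as in CPI; `BSTM.ext_vf`). `q(y)` stands for `j(φ' q)`. `φ(g_al) = t² g_al(y)`, `D(t) = φ(g_ab)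
= - t² h_a(y)`, `D(y_l) = t (g_al(y) - y_l g_ab(y)) = t (π'_al(y) + y_a h_l(y))` (`y_b = 1`). So `D ∘ j = t (j ∘ δ_a) + t y_a (j ∘ δ_h)` (CVA
(3)), `D(lam) = lam M [t (div' δ_a + y_a div' δ_h) - (d + 1) t h_a(y)]`, `div' δ_a = ∑_i j(dd'_i(φ' π'_(a, A' i)))`, `div' δ_h = ∑_i j(dd'_i(φ'
h_(A' i)))` (`inv` of `I'` for the columns of `chV`; `π'_al = - π'_la`). And `∑_i dd_i(φ g_(a, A' i)) + dd_b(φ g_ab)`: `g_al(y) = π'_al(y) + y_a
h_l(y) - y_l h_a(y)`; `dd_i(t² j(F)) = t j(dd'_i F)`, so the first sum is `t [div' δ_a + y_a div' δ_h + h_a - d h_a - ∑_i y_(A' i) dd'_i(h_a)]`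
(`∑_i dd'_i(y_a) h_(A' i) = δ_h(y_a) = h_a`, because `δ_h = ∑_i δ_h(y_(A' i)) dd'_i`: TGD for `chI b P`, `D(chI b P) = d` by CAM: the space of
derivations has dimension `d`), and `dd_b(- t² h_a(y)) = - 2 t h_a + t ∑_i y_(A' i) dd'_i(h_a)`. The sum is `t [div' δ_a + y_a div' δ_h - (d + 1)
h_a]`, as it should be. -/
def SpecCIV : Prop := ∀ (N d : ℕ) (b : Fin N) (g : Biv N) (P : Ideal (PR N)), P.IsPrime → Hom P →
  Stab g.f P → X b ∉ P → Algebra.trdeg ℂ (PR N ⧸ P) = ((d + 1 : ℕ) : Cardinal) →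
  ∀ (L : Type) (_ : Field L) (_ : Algebra ℂ L) (φ : PR N →ₐ[ℂ] L), Gen P L φ →
  ∀ (L' : Type) (_ : Field L') (_ : Algebra ℂ L') (φ' : PR N →ₐ[ℂ] L'), Gen (chI b P) L' φ' →
  ∀ W : Set (Fin N → PR N), (∀ j, (fun i => chV b g i j) ∈ W) → InvV d W φ' →
  Nonempty (InvV (d + 1) (Flds g) φ)

/-- CAS (~200 lines), USES PHA, CAM, CPI, CPR, CRR, CSM, CMI, CIV. The volume form, `X` generically symplectic. PROOF. `2 ≤ n`. `x ∈ V(P)` with `x
≠ 0`, `rk ≥ s + 2`: some `x_b ≠ 0`, `X b ∉ P`, `X b ∉ I`; replace `x` by `x / x_b` (CPR; `P` homogeneous): `x_b = 1`. `I' = chI b I`, `P' = chI b P`,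
`π' = chP b g`, `V = chV b g`, `p = x`: `I', P'` prime, `D(I') = n`, `D(P') = d - 1` (CAM), the hypotheses of PHA: CPI, CRR, CSM (`n + 1
≤ N`: `VJP`-type or `BSTM`: `D(I) ≤ N`), CMI. A point of `V(I')` of rank `n`: `x₁ ∈ V(I)` with `rk = n`; by RKC, RKU (`PS`, for `s := n -
2`, `n` even: EVR-type, `specSKE`) a minor `∉ I`, multiplied with `X b ∉ I` it is not in `I`: a point `x₂ ∈ V(I)` with `x₂ b ≠ 0`, `rk ≥ n`; CPR, and
`rk ≤ n` because the rank of `chP b g` is `≤ D(I') = n` (`specDIM`, `specRKM`). PHA with `L' = FractionRing (S / P')`, then CIV with `W` = the set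
in PHA. -/
def SpecCAS : Prop := ∀ (N n s d : ℕ) (I P : Ideal (PR N)) (g : Biv N), Even s → s < n →
  I.IsPrime → Hom I → Stab g.f I → (∀ i j l, jac g.f i j l ∈ I) →
  Algebra.trdeg ℂ (PR N ⧸ I) = ((n + 1 : ℕ) : Cardinal) →
  (∀ x ∈ Zer I, x ≠ 0 → s < rk g.f x → Smx (n + 1) I x) →
  RdP n I g → (∃ x ∈ Zer I, x ≠ 0 ∧ rk g.f x = n) →
  I ≤ P → P.IsPrime → Hom P → Stab g.f P →
  Algebra.trdeg ℂ (PR N ⧸ P) = ((d : ℕ) : Cardinal) →
  (∀ Q : Ideal (PR N), Q.IsPrime → P ≤ Q → StE g Q → Q ≠ P →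
    Algebra.trdeg ℂ (PR N ⧸ Q) ≤ ((s + 1 : ℕ) : Cardinal)) →
  (∃ x ∈ Zer P, x ≠ 0 ∧ s + 2 ≤ rk g.f x) →
  ∀ (L : Type) (_ : Field L) (_ : Algebra ℂ L) (φ : PR N →ₐ[ℂ] L), Gen P L φ →
  Nonempty (InvV d (Flds g) φ)

/-- CSY (~150 lines), USES PHA, CSM, CMI. The volume form, the cone generically symplectic. PROOF. PHA for `I`, `n + 1`, `π = g.f`, `V = geV g`, `p =
x`, `x ∈ V(P)` with `rk ≥ s + 2`. `E ∈ PV I g.f`: `dfc g.f E i j = E(g_ij) - 2 g_ij = 0`, `Hom I` (`LS.specEUH`); the columns of `g`: `dfc g.f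
(g_·a) i j = - jac g.f i j a ∈ I`. CSM (1), CMI (2). The result is an `InvV d W φ` with `Flds g ⊆ W` (`(g_al)_l = - (g_la)_l`, `PV` is closed under
negation): restrict. -/
def SpecCSY : Prop := ∀ (N n s d : ℕ) (I P : Ideal (PR N)) (g : Biv N), Even s → s < n →
  I.IsPrime → Hom I → Stab g.f I → (∀ i j l, jac g.f i j l ∈ I) →
  Algebra.trdeg ℂ (PR N ⧸ I) = ((n + 1 : ℕ) : Cardinal) →
  (∀ x ∈ Zer I, x ≠ 0 → s < rk g.f x → Smx (n + 1) I x) →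
  Rdc (n + 1) I g.f → (∃ x ∈ Zer I, (mat g.f x).rank = n + 1) →
  I ≤ P → P.IsPrime → Hom P → Stab g.f P →
  Algebra.trdeg ℂ (PR N ⧸ P) = ((d : ℕ) : Cardinal) →
  (∀ Q : Ideal (PR N), Q.IsPrime → P ≤ Q → StE g Q → Q ≠ P →
    Algebra.trdeg ℂ (PR N ⧸ Q) ≤ ((s + 1 : ℕ) : Cardinal)) →
  (∃ x ∈ Zer P, x ≠ 0 ∧ s + 2 ≤ rk g.f x) →
  ∀ (L : Type) (_ : Field L) (_ : Algebra ℂ L) (φ : PR N →ₐ[ℂ] L), Gen P L φ →
  Nonempty (InvV d (Flds g) φ)

end Pool.Agent.Lib.MPc9b009.LF
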