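import Pool.Agent.Lib.MP_c9b009_ag.LF.Defs

/-!
# MP_c9b009_ag, row LF, part D: multivalued densities, linear sections. Statements of the modules, with proofs

One file `LF/<NAME>.lean` per module, `import Pool.Agent.Lib.MP_c9b009_ag.LF.SpecD`, namespace
`Pool.Agent.Lib.MPc9b009.LF`, auxiliary lemmas in the sub-namespace `<NAME>M`, theorem
`spec<NAME> (h : SpecYYY) .. : Spec<NAME>` (arguments: the modules of row LF named after USES, in that order).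
All theorems of the rows B5, OD, PS are available (`PS/All.lean` is imported; `PS.specBAS`, `PS.specCUT PS.specBAS`,
`PS.specBER PS.specBAS`, `PS.specDRP`, `PS.specALG`, `PS.specDBR` ..). Write the namespace when a name clashes.
Charts `Cht`, cones `Cone`, `Dbar`, `her`, `bet` are defined in `PS/Defs.lean`.
-/

set_option autoImplicit false

namespace Pool.Agent.Lib.MPc9b009.LF

open MvPolynomial Pool.Agent.Lib.MPc9b009.B5 Pool.Agent.Lib.MPc9b009.OD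
  Pool.Agent.Lib.MPc9b009.PS Pool.Agent.Lib.MPc9b009.LS MeasureTheory

/-! ## Stokes for multivalued densities (copies of `PS/POU, CHS, CHV, UCL, HLM`) -/

/-- POV (~90 lines). COPY of `PS/POU.lean`, the charts are now taken from a given covering family. -/
def SpecPOV : Prop := ∀ (N k : ℕ) (M : Set (Cn N)) (T : Cn N → Submodule ℂ (Cn N)),
  Cone N k M T → IsClosed (insert 0 M) → ∀ (ι : Type) (c : ι → Cht N k M T),
  (∀ x ∈ M, ∃ i, x ∈ (c i).W) → ∀ s : ℝ, 0 < s →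
  ∃ (n : ℕ) (j : Fin n → ι) (χ : Fin n → Cn N → ℝ),
    (∀ l, ContDiff ℝ 1 (χ l)) ∧ (∀ l x, 0 ≤ χ l x) ∧ (∀ l, tsupport (χ l) ⊆ (c (j l)).W) ∧
    ∀ x ∈ M, s ≤ ∑ j, ‖x j‖ ^ 2 → ∑ j, ‖x j‖ ^ 2 ≤ 4 * s → ∑ l, χ l x = 1

/-- CHX (~310 lines). COPY of `PS/CHS.lean` (there `D.w c` is used only in the chart `c`; now `w` is one vector
field in one chart, `A y = fderiv ℂ c.G y (w y)`). -/
def SpecCHX : Prop := ∀ (N k : ℕ) (M : Set (Cn N)) (T : Cn N → Submodule ℂ (Cn N)),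
  Cone N k M T → ∀ (c : Cht N k M T) (w : Cn k → Cn k), ContDiffOn ℂ 1 w c.B →
  (∀ y ∈ c.B, ∑ m, fderiv ℂ w y (Pi.single m 1) m = 0) →
  (∀ y ∈ c.B, fderiv ℂ w y y = -((k : ℂ) - 1) • w y) →
  ∀ (Φ : Cn N → ℂ) (K : Set (Cn N)) (i : Fin N), ContDiff ℝ 1 Φ → IsCompact K → K ⊆ M → K ⊆ c.W →
  (∀ x ∈ M, x ∈ c.W → x ∈ tsupport Φ → x ∈ K) →
  IntegrableOn (fun y => fderiv ℂ c.G y (w y) i *
    Dbar Φ (c.G y) (bet (c.G y) (fderiv ℂ c.G y (w y)))) c.B ∧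
  ∫ y in c.B, fderiv ℂ c.G y (w y) i *
    Dbar Φ (c.G y) (bet (c.G y) (fderiv ℂ c.G y (w y))) = 0

/-- CHY (~130 lines). COPY of `PS/CHV.lean`: `A^c = u det P · A^c'` with `|u| = 1`, so `H (x, A^c) = |det P|² H (x, A^c')`
as before. -/
def SpecCHY : Prop := ∀ (N k : ℕ) (M : Set (Cn N)) (T : Cn N → Submodule ℂ (Cn N)),
  Cone N k M T → ∀ (c c' : Cht N k M T) (w w' : Cn k → Cn k), Cmp c c' w w' →
  ∀ (ρ : Cn N → ℂ) (H : Cn N → Cn N → ℂ),
  (∀ x ∈ M, ρ x ≠ 0 → x ∈ c.W ∧ x ∈ c'.W) →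
  (∀ (x A : Cn N) (t : ℂ), H x (t • A) = ((‖t‖ ^ 2 : ℝ) : ℂ) * H x A) →
  ∫ y in c.B, ρ (c.G y) * H (c.G y) (fderiv ℂ c.G y (w y)) =
    ∫ y in c'.B, ρ (c'.G y) * H (c'.G y) (fderiv ℂ c'.G y (w' y))

/-- UCX (~280 lines), USES CHY. COPY of `PS/UCL.lean`. -/
def SpecUCX : Prop := ∀ (N k : ℕ) (M : Set (Cn N)) (T : Cn N → Submodule ℂ (Cn N)),
  Cone N k M T → IsClosed (insert 0 M) → ∀ (D : DensU N k M T) (s : ℝ) (f : ℝ → ℝ) (n : ℕ)
  (j : Fin n → D.ι) (χ : Fin n → Cn N → ℝ), 0 < s → ContDiff ℝ 1 f →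
  (∀ t, f t ≠ 0 → s < t ∧ t < 4 * s) →
  (∀ l, ContDiff ℝ 1 (χ l)) → (∀ l, tsupport (χ l) ⊆ (D.c (j l)).W) →
  (∀ x ∈ M, s ≤ ∑ j, ‖x j‖ ^ 2 → ∑ j, ‖x j‖ ^ 2 ≤ 4 * s → ∑ l, χ l x = 1) →
  ∑ l, ∫ y in (D.c (j l)).B, ((f (∑ i, ‖(D.c (j l)).G y i‖ ^ 2) : ℝ) : ℂ) *
    (her (fderiv ℂ (D.c (j l)).G y (D.w (j l) y)) ((D.c (j l)).G y) *
      Dbar (fun x => ((χ l x : ℝ) : ℂ)) ((D.c (j l)).G y)
        (bet ((D.c (j l)).G y) (fderiv ℂ (D.c (j l)).G y (D.w (j l) y)))) = 0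

/-- HLX (~290 lines), USES POV, CHX, UCX. COPY of `PS/HLM.lean`. -/
def SpecHLX : Prop := ∀ (N k : ℕ) (M : Set (Cn N)) (T : Cn N → Submodule ℂ (Cn N)),
  Cone N k M T → IsClosed (insert 0 M) → ∀ (D : DensU N k M T) (i : D.ι), ∀ y ∈ (D.c i).B,
  ∃ t : ℂ, fderiv ℂ (D.c i).G y (D.w i y) = t • (D.c i).G y

/-! ## Linear sections -/

/-- VCU (~400 lines). The quotient of the volume form by the equation of a transversal hyperplane. PROOF. The
charts of the section are those of the proof of `PS/CUT.lean` (extract its lemma): for a chart `c = V.c i` at `x₀`,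
`c₀ · x₀ = 0`: `ψ(y) = ∑ (c₀)_j G_j (y)`, `p = ∂_m ψ` (`m = m₀ : Fin (k+1)`, `p(y₀) ≠ 0`), `e` = the local inverse of
`y ↦ update y m (ψ y)` with `p ≠ 0` on `e.source`, `Y(y') = e.symm (m.insertNth 0 y')`, `G' = G ∘ Y`,
`I' = I ∘ m.succAbove`. INDEX TYPE of `V'`: all triples (`i`, a chart `c'` of the section, a function `m'`) such that
`m'` is `C²` without zeros on `c'.B`, and there are `m₀`, `Y : Cn k → Cn (k+1)`, `C³` on `c'.B`, `Y y' ∈ c.B`, `c'.G y' =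
c.G (Y y')`, `(Y y')_(m.succAbove a) = y'_a`, `p (Y y') ≠ 0`, `m'(y') = V.m i (Y y') / p(Y y')` on `c'.B`. By implicit
differentiation `∂_a Y = e_(s a) - (q_a / p) e_m` at `Y(y')`, `s = m.succAbove`, `q_a = ∂_(s a) ψ`. `hom`: `ψ` is homogeneous:
`∑ ∂_b ψ y_b = ψ(y)` (BAS (2)), so `dY(y') y' = Y(y')`, and `p` has `dp(y) y = 0` (BAS (3)). `tr`: the Jacobian determinant
of the coordinates `(x_(I' ·), c₀)` is `± p`: with `y = Y(y')`, `jdet(c₁, c₂)` for the charts of `M` (matrix `P`,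
`P_ab = ∂_b G (I₂ a)`) and `jdet(c'₁, c'₂)` = the `k × k` matrix `(∂'_b G' (I₂ (s₂ a)))`: `p₂ · jdet(c₁,c₂) = ± p₁ · jdet(c'₁,c'₂)`:
consider the coordinates `z = (x_(I₂ s₂ ·), ψ)` of `M`; their matrix with respect to `y` is the product of a matrix of
determinant `± p₂` with `P`; with respect to `(y', ψ)` it is block triangular with determinant `jdet(c'₁,c'₂)`, and `(y', ψ)`
has determinant `± p₁` with respect to `y`. The signs go into `u`. DIVERGENCE: `v_b = A_(I b)(G y)`; `∑_b ∂_b ψ v_b = c₀ · A =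
0` on `c.B` (`A(G y) ∈ T = range dG`, so `A(G y) = dG(v)`). At `y = Y(y')`:
`∑_a ∂'_a (m' v_(s a)) = ∑_a [∂_(s a) - (q_a/p) ∂_m] (m v_(s a) / p)`. With `∑_a q_a v_(s a) = - p v_m` this is
`(1/p) ∑_b ∂_b (m v_b) - (m/p²) [∑_a v_(s a) (∂_(s a) p - ∂_m q_a) + ∂_m p (v_m + ∑_a q_a v_(s a) / p)] = (1/p) ∑_b ∂_b (m v_b) = 0`,
because `∂_(s a) p = ∂_m q_a` (symmetry of `D²ψ`). -/
def SpecVCU : Prop := ∀ (N k e : ℕ) (M : Set (Cn N)) (T : Cn N → Submodule ℂ (Cn N)),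
  Cone N (k + 1) M T → ∀ c₀ : Cn N, (∀ x ∈ M, x ∈ hyp c₀ → ¬ T x ≤ hyp c₀) →
  ∀ V : VolU N (k + 1) e M T,
  ∃ V' : VolU N k e {x | x ∈ M ∧ x ∈ hyp c₀} (fun x => T x ⊓ hyp c₀),
    ∀ A : Cn N → Cn N, ContDiff ℂ 2 A → (∀ x ∈ M, A x ∈ T x ∧ A x ∈ hyp c₀) →
      DivF V A → DivF V' A

/-- CTL (~150 lines), USES VCU. Iterate. PROOF. Induction on `l`, for all `k`, `M`, `T`. `l = []`: the section is `M`
(`simp`; rewrite the sets and `T` with `Set.ext`, `funext`, `iInf` over the empty list `= ⊤`, and transport `V`). Step `c ::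
l`: VCU with `k := k + l.length`, then the induction hypothesis for the section; the intersections agree
(`inf_assoc`, `List.forall_mem_cons`). The cone statement: the last clause of `Chn`. -/
def SpecCTL : Prop := ∀ (N k e : ℕ) (l : List (Cn N)) (M : Set (Cn N))
  (T : Cn N → Submodule ℂ (Cn N)), Chn N k l M T →
  Cone N k {x | x ∈ M ∧ ∀ c ∈ l, x ∈ hyp c} (fun x => T x ⊓ ⨅ c ∈ l, hyp c) ∧
  ∀ V : VolU N (k + l.length) e M T,
    ∃ V' : VolU N k e {x | x ∈ M ∧ ∀ c ∈ l, x ∈ hyp c} (fun x => T x ⊓ ⨅ c ∈ l, hyp c),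
      ∀ A : Cn N → Cn N, ContDiff ℂ 2 A → (∀ x ∈ M, A x ∈ T x ∧ ∀ c ∈ l, A x ∈ hyp c) →
        DivF V A → DivF V' A

/-- ITQ (~150 lines). Generic linear sections, the covectors are taken from given open sets. PROOF. Induction on `j`
for all `M, T, J`. `j = 0`: `l = []`; if `x ∈ V(J)`, `x ≠ 0`: as in `PS/ITR.lean`. Step `j + 1`: the set of BER
(`PS.specBER PS.specBAS`) and the proper subspaces of `PS.specDRP` are null sets, `O 0` is open and not empty, hence of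
positive measure: choose `c ∈ O 0` outside of them, as in `PS/STP.lean`. `PS.specCUT PS.specBAS` gives the cone of
dimension `k + j`; induction hypothesis for the section, `J + (lin c)`, `O ∘ Fin.succ` gives `l`; take `c :: l`. -/
def SpecITQ : Prop := ∀ (j N k : ℕ) (M : Set (Cn N)) (T : Cn N → Submodule ℂ (Cn N)),
  Cone N (k + j) M T → ∀ J : Ideal (MvPolynomial (Fin N) ℂ), Hom J → Dle J j →
  ∀ O : Fin j → Set (Cn N), (∀ a, IsOpen (O a) ∧ (O a).Nonempty) →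
  ∃ l : Fin j → Cn N, (∀ a, l a ∈ O a) ∧ Chn N k (List.ofFn l) M T ∧
    ∀ x ∈ Zer J, (∀ a, x ∈ hyp (l a)) → x = 0

/-- NZQ (~200 lines). All linear sections near a given one meet `M` near a given point. PROOF. As in `PS/NZP.lean`.
Chart `c` at `x₀`, `y₀ = x₀ ∘ I`. The map `(y, l) ↦ ((l_a · G(y))_a, l)` on `c.B × (Fin j → ℂ^N)` is strictly
differentiable at `(y₀, ℓ)` and its derivative is surjective: `v ↦ (ℓ_a · dG(v))_a` is surjective onto `ℂ^j` because the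
`ℓ_a` are linearly independent on `T x₀` (hypothesis; a proper subspace of `ℂ^j` is contained in the kernel of some
`t ≠ 0`). So (`HasStrictFDerivAt.map_nhds_eq_of_surj`) for every neighbourhood of `(y₀, ℓ)`, e.g. the set of the `(y, l)`
with `y ∈ c.B` and `(G y, l) ∈ O'`, its image is a neighbourhood of `(0, ℓ)`: it contains `{0} × ∏ O a` for small balls
`O a` around `ℓ_a`; and if `(0, l)` is the image of `(y, l')` then `l' = l`. -/
def SpecNZQ : Prop := ∀ (N d j : ℕ) (M : Set (Cn N)) (T : Cn N → Submodule ℂ (Cn N)),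
  Cone N d M T → ∀ x₀ ∈ M, ∀ ℓ : Fin j → Cn N, (∀ a, dot (ℓ a) x₀ = 0) →
  (∀ t : Fin j → ℂ, T x₀ ≤ hyp (∑ a, t a • ℓ a) → t = 0) →
  ∀ O' : Set (Cn N × (Fin j → Cn N)), IsOpen O' → (x₀, ℓ) ∈ O' →
  ∃ O : Fin j → Set (Cn N), (∀ a, IsOpen (O a) ∧ (O a).Nonempty) ∧
    ∀ l : Fin j → Cn N, (∀ a, l a ∈ O a) → ∃ x ∈ M, (∀ a, x ∈ hyp (l a)) ∧ (x, l) ∈ O'

/-! ## The vector field `A` -/

/-- PFT (~150 lines). `A` is tangent to the hyperplanes. PROOF. `∑_l (c_b)_l A_l = ∑_σ sgn σ ∏_i β(c_(σ(i,0)), c_(σ(i,1))) β(c_(σ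
none), c_b)`, `β = brl g` (skew). Split the sum according to `j = σ⁻¹(b)`. `j = none`: the factor `β(c_b, c_b) = 0`. `j =
some (i, ε)`: let `j' = some (i, 1 - ε)` be the partner; `σ ↦ σ ∘ swap j' none` is a bijection of the set `{σ | σ j = b}`, it
changes the sign of `sgn σ`, and it does not change the product: `β(c_b, c_(σ j')) β(c_(σ none), c_b) = β(c_b, c_(σ none))
β(c_(σ j'), c_b)` by skewness (in both positions `ε`). So this part of the sum is equal to its negative. -/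
def SpecPFT : Prop := ∀ (N r : ℕ) (g : Biv N) (c : Option (Fin r × Fin 2) → Cn N)
  (b : Option (Fin r × Fin 2)), ∑ l, C (c b l) * PFA g c l = 0

/-- PFD (~200 lines). The divergence. PROOF. The statement is `∑_σ sgn σ X_(c_(σ none)) (∏_i β_i) ∈ P`, `β_i = β(c_(σ(i,0)),
c_(σ(i,1)))`, `X_c q = ∑_l (hml g c l) ∂_l q = {c, q}`. By Leibniz it is the sum over `i₀` of `∑_σ sgn σ (∏_(i ≠ i₀) β_i)
{c_(σ none), {c_(σ(i₀,0)), c_(σ(i₀,1))}}`. Let `τ` be the cyclic permutation (even) of `none, (i₀,0), (i₀,1)`. The three sums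
over `σ`, `σ τ`, `σ τ²` are equal (`Equiv.sum_comp` of `Equiv.mulRight τ`), the factors `β_i`, `i ≠ i₀` do not change, and the
sum of the three brackets is the Jacobiator of the linear forms, `∑ a_i b_j c_k jac g.f i j k ∈ P`. So `3 · sum ∈ P`. -/
def SpecPFD : Prop := ∀ (N r : ℕ) (g : Biv N) (P : Ideal (PR N)), (∀ i j k, jac g.f i j k ∈ P) →
  ∀ c : Option (Fin r × Fin 2) → Cn N,
  ∑ σ : Equiv.Perm (Option (Fin r × Fin 2)), C ((Equiv.Perm.sign σ : ℤ) : ℂ) *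
    ∑ l, hml g (c (σ none)) l *
      pderiv l (∏ i : Fin r, brl g (c (σ (some (i, 0)))) (c (σ (some (i, 1))))) ∈ P

/-- PFN (~250 lines). `A(x)` is not a multiple of `x` for suitable linear forms which vanish at `x`. PROOF. `β(ξ, η) = ξ · g(x)
η` is a skew form on `x^⊥ = {ξ · x = 0}`, and `rk g.f x` is its rank (the dimension of the image of `x^⊥` in `ℂ^N / ℂ x`, which
is the dual space of `x^⊥`). Rank `≥ 2 r + 2`: there are `e_i, f_i ∈ x^⊥` (`i ≤ r`) with `β(e_i, f_j) = δ_ij`, `β(e_i, e_j) = β(f_i,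
f_j) = 0` (induction: choose `e, f` with `β(e, f) = 1`; on the `β`-complement of `⟨e, f⟩` in `x^⊥` the rank is smaller by 2). Put
`c (some (i, 0)) = e_i`, `c (some (i, 1)) = f_i` (`i < r`), `c none = e_r`. Then `f_r · A(x) = ± ∑_σ sgn σ ∏ β(c_(σ(i,0)),
c_(σ(i,1))) β(e_(σ none), f_r)`; the last factor is `0` unless `σ none = none`. So it is the sum over `σ ∈ Perm (Fin r × Fin
2)` of `sgn σ ∏_i J(σ(i,0), σ(i,1))`, `J((a,0),(a,1)) = 1`, `J((a,1),(a,0)) = -1`, `0` otherwise. CLAIM: every term is `≥ 0`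
(real), so the sum is `≥` the term `1` of `σ = 1`. If the term is not `0`, `σ` maps every pair `{(i,0),(i,1)}` onto a pair; let
`φ` be the product of the transpositions of the pairs `i` with `σ(i,0)` of the form `(a,1)`; `σ φ` maps `(i,0)` to `(σ'(i),
0)` and `(i,1)` to `(σ'(i), 1)`, it has sign `(sgn σ')² = 1` (`Equiv.Perm.sign_prodCongrLeft` or similar), so `sgn σ = sgn φ =
(-1)^(number of flipped pairs) = ∏ J`. So `f_r · A(x) ≠ 0` while `f_r · x = 0`. The covectors are linearly independent on the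
span of the Hamiltonian vectors: if `∑ t_b c_b` vanishes on all `g(x) ξ`, `ξ ∈ x^⊥`, pair it with `f_i, e_i, f_r`. -/
def SpecPFN : Prop := ∀ (N r : ℕ) (g : Biv N) (x : Cn N), x ≠ 0 → 2 * r + 2 ≤ rk g.f x →
  ∃ c : Option (Fin r × Fin 2) → Cn N, (∀ b, dot (c b) x = 0) ∧
    (∀ t : Option (Fin r × Fin 2) → ℂ, (∀ ξ : Cn N, dot (∑ b, t b • c b) ((mat g.f x).mulVec ξ) = 0) →
      t = 0) ∧
    ∀ t : ℂ, (fun l => eval x (PFA g c l)) ≠ t • x

end Pool.Agent.Lib.MPc9b009.LF
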