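import Pool.Agent.Lib.MP_c9b009_ag.LF.SpecC

/-!
# MP_c9b009_ag, row LF, part F: the theorem, limits

Form of the modules as in `LF/SpecD.lean` (import `Pool.Agent.Lib.MP_c9b009_ag.LF.SpecF`, for theorems of rows PS, LS also
`Pool.Agent.Lib.MP_c9b009_ag.LS.All`).
-/

set_option autoImplicit false

namespace Pool.Agent.Lib.MPc9b009.LF

open MvPolynomial Pool.Agent.Lib.MPc9b009.B5 Pool.Agent.Lib.MPc9b009.OD
  Pool.Agent.Lib.MPc9b009.PS Pool.Agent.Lib.MPc9b009.LS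

/-- `X = Proj (S / I)` is a projective variety of dimension `n`, smooth at all the points of rank `> s`; `g` is a graded
Poisson structure on `S / I`. Either the induced Poisson structure of `X` has generic rank `n` and a reduced
degeneracy divisor, or the Poisson structure `g` of the affine cone has generic rank `n + 1` and a reduced degeneracy
divisor. -/
structure LogF {N : ℕ} (n s : ℕ) (I : Ideal (PR N)) (g : Biv N) : Prop where
  prime : I.IsPrime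
  hom : Hom I
  sta : Stab g.f I
  jac0 : ∀ i j l, jac g.f i j l ∈ I
  dim : Algebra.trdeg ℂ (PR N ⧸ I) = ((n + 1 : ℕ) : Cardinal)
  smo : ∀ x ∈ Zer I, x ≠ 0 → s < rk g.f x → Smx (n + 1) I x
  red : ((∃ x ∈ Zer I, x ≠ 0 ∧ rk g.f x = n) ∧ RdP n I g) ∨
    ((∃ x ∈ Zer I, (mat g.f x).rank = n + 1) ∧ Rdc (n + 1) I g.f)

/-- every element of `I₀` is a limit of elements of `I t` of bounded degree -/
def LimI {N : ℕ} (I : ℕ → Ideal (PR N)) (I₀ : Ideal (PR N)) : Prop :=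
  ∀ q ∈ I₀, ∃ (Q : ℕ → PR N) (e : ℕ), (∀ t, Q t ∈ I t ∧ (Q t).totalDegree ≤ e) ∧
    ∀ m, Filter.Tendsto (fun t => coeff m (Q t)) Filter.atTop (nhds (coeff m q))

/-- FLF (~150 lines), USES EVR, KTH, CAS, CSY. THEOREM LF for one structure. PROOF. Suppose not `BigI`. `h₀ : Fin 0 → _` the empty
family; `Stab (th g h₀) Q ↔ StE g Q` for every ideal `Q` (`LS.specEUH`). `LS.specLMN` (`k = 0`, `z = p = I`, `D(I) = n + 1 ≥ s + 2`) gives a
minimal `P`; `D(P) = d` (`BSTM.nat_trdeg`). If `rk g.f x ≤ s` for all `0 ≠ x ∈ V(P)` then `BigI` (`PS.specBGI`). So there is `x ∈ V(P)`, `x ≠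
0`, with `rk > s`, hence `≥ s + 2` (EVR). `L = FractionRing (S / P)` with its `Gen` (as in `LS/GTA.lean`). `red`: CAS or CSY gives the
volume form, and KTH gives a contradiction. -/
def SpecFLF : Prop := ∀ (N n s : ℕ) (I : Ideal (PR N)) (g : Biv N), Even s → s < n →
  LogF n s I g → BigI I g.f s

/-- FMA (~150 lines). COPY of `LS/LMA.lean` for `I` instead of `⊥` (points of `V(P) ∩ W` are in `V(I)` because `I ≤ vanI`; `P` is homogeneous
by `PS.specCMP`). -/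
def SpecFMA : Prop := ∀ (N s : ℕ) (I : Ideal (PR N)) (g : Biv N), Even s → Hom I →
  Stab g.f I → (∀ i j l, jac g.f i j l ∈ I) → BigI I g.f s →
  ∀ W : Submodule ℂ (Cn N), N ≤ Module.finrank ℂ W + (s + 1) →
  ∃ x ∈ W, x ≠ 0 ∧ x ∈ Zer I ∧ rk g.f x ≤ s

/-- FMB (~150 lines). COPY of `LS/LMB.lean` for `I` instead of `⊥` (`vanI I g.f s` is homogeneous because `I` is: `x ∈ V(I)` implies `t x ∈
V(I)`). -/
def SpecFMB : Prop := ∀ (N s : ℕ) (I : Ideal (PR N)) (g : Biv N), Hom I →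
  (∀ W : Submodule ℂ (Cn N), N ≤ Module.finrank ℂ W + (s + 1) →
    ∃ x ∈ W, x ≠ 0 ∧ x ∈ Zer I ∧ rk g.f x ≤ s) → BigI I g.f s

/-- FMC (~180 lines). COPY of `LS/LMC.lean`. New: the limit `x` is in `V(I₀)`: for `q ∈ I₀` take `Q, e` of `LimI`; `Q t (x_t) = 0`, and `Q t
(x_t) → q(x)` along the subsequence (finite sum over the exponents `m` of degree `≤ e`; the coefficients of `q` of degree `> e` are
limits of zeros). -/
def SpecFMC : Prop := ∀ (N s : ℕ) (I : ℕ → Ideal (PR N)) (I₀ : Ideal (PR N)) (G : ℕ → Biv N)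
  (g₀ : Biv N), Even s → (∀ t, Hom (I t)) → LimI I I₀ →
  (∀ i j m, Filter.Tendsto (fun t => coeff m ((G t).f i j)) Filter.atTop
    (nhds (coeff m (g₀.f i j)))) →
  (∀ t, ∀ W : Submodule ℂ (Cn N), N ≤ Module.finrank ℂ W + (s + 1) →
    ∃ x ∈ W, x ≠ 0 ∧ x ∈ Zer (I t) ∧ rk (G t).f x ≤ s) →
  ∀ W : Submodule ℂ (Cn N), N ≤ Module.finrank ℂ W + (s + 1) →
    ∃ x ∈ W, x ≠ 0 ∧ x ∈ Zer I₀ ∧ rk g₀.f x ≤ s

/-- FIN (~40 lines), USES FLF, FMA, FMB, FMC. THEOREM LF. -/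
def SpecFIN : Prop := ∀ (N s : ℕ) (I : ℕ → Ideal (PR N)) (I₀ : Ideal (PR N)) (G : ℕ → Biv N)
  (g₀ : Biv N), Even s → (∀ t, ∃ n, s < n ∧ LogF n s (I t) (G t)) → Hom I₀ → LimI I I₀ →
  (∀ i j m, Filter.Tendsto (fun t => coeff m ((G t).f i j)) Filter.atTop
    (nhds (coeff m (g₀.f i j)))) → BigI I₀ g₀.f s

end Pool.Agent.Lib.MPc9b009.LF
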