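import Pool.Agent.Lib.MP_c9b009_ag.LF.SpecD

/-!
# MP_c9b009_ag, row LF, part K: an invariant volume form on a minimal cone is impossible

Form of the modules as in `LF/SpecD.lean` (import `Pool.Agent.Lib.MP_c9b009_ag.LF.SpecK`, for theorems of row LS also
`Pool.Agent.Lib.MP_c9b009_ag.LS.All`). `D(P)` = transcendence degree of `S / P`, `x̄_l = φ(X_l)`, `v(q) = vf v q = ∑ v_l ∂_l q`.
-/

set_option autoImplicit false

namespace Pool.Agent.Lib.MPc9b009.LF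

open MvPolynomial Pool.Agent.Lib.MPc9b009.B5 Pool.Agent.Lib.MPc9b009.OD
  Pool.Agent.Lib.MPc9b009.PS Pool.Agent.Lib.MPc9b009.LS

/-- the tangent space of `V(P)` at the point `φ` with values in `L` -/
def tsp {N : ℕ} (P : Ideal (PR N)) {L : Type} [Field L] [Algebra ℂ L] (φ : PR N →ₐ[ℂ] L) :
    Submodule L (Fin N → L) where
  carrier := {t | ∀ q ∈ P, ∑ l, t l * φ (pderiv l q) = 0}
  add_mem' := by
    intro a b ha hb q hq
    simp only [Pi.add_apply, add_mul, Finset.sum_add_distrib, ha q hq, hb q hq, add_zero]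
  zero_mem' := by
    intro q _
    simp
  smul_mem' := by
    intro c t ht q hq
    simp only [Pi.smul_apply, smul_eq_mul, mul_assoc, ← Finset.mul_sum, ht q hq, mul_zero]

/-- the tangent space of `V(P)` at the point `x ∈ ℂ^N` -/
noncomputable def tgx {N : ℕ} (P : Ideal (PR N)) (x : Cn N) : Submodule ℂ (Cn N) := tsp P (aeval x)

/-- the Euler field and the Hamiltonian fields of the coordinates -/
def Flds {N : ℕ} (g : Biv N) : Set (Fin N → PR N) :=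
  {v | v = (fun l => X l) ∨ ∃ a, v = fun l => g.f a l}

/-- A multivalued volume form on `V(P)`, invariant under the fields in `W`: `μ^(-M) = lam (∂_A)^M` in the
coordinates `x_(A i)`, `dd i = ∂ / ∂ x_(A i)`. -/
structure InvV {N : ℕ} (d : ℕ) (W : Set (Fin N → PR N)) {L : Type} [Field L] [Algebra ℂ L]
    (φ : PR N →ₐ[ℂ] L) where
  /-- the coordinates -/
  A : Fin d → Fin N
  /-- the derivations -/
  dd : Fin d → Derivation ℂ L L
  /-- the exponent -/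
  M : ℕ
  /-- the coefficient -/
  lam : L
  pos : 0 < M
  ne : lam ≠ 0
  dual : ∀ i j, dd i (φ (X (A j))) = if i = j then 1 else 0
  inv : ∀ v ∈ W, ∀ D : Derivation ℂ L L, (∀ l, D (φ (X l)) = φ (v l)) →
    D lam = (M : L) * (∑ i, dd i (φ (v (A i)))) * lam

/-- the Jacobian determinant of the coordinates `x_B` with respect to `x_A` -/
noncomputable def InvV.rho {N d : ℕ} {W : Set (Fin N → PR N)} {L : Type} [Field L] [Algebra ℂ L]
    {φ : PR N →ₐ[ℂ] L} (v : InvV d W φ) (B : Fin d → Fin N) : L :=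
  (Matrix.of fun i j => v.dd i (φ (X (B j)))).det

/-- the coefficient of `μ^(-M)` in the coordinates `x_B` -/
noncomputable def InvV.lamB {N d : ℕ} {W : Set (Fin N → PR N)} {L : Type} [Field L] [Algebra ℂ L]
    {φ : PR N →ₐ[ℂ] L} (v : InvV d W φ) (B : Fin d → Fin N) : L := v.lam * v.rho B ^ v.M

/-- TGD (~200 lines). The tangent space at the generic point. PROOF. `L` = fraction field of `S / P`. Choose `A : Fin n →
Fin N` such that the `x̄_(A i)` are a transcendence basis of `L` (a transcendence basis inside the generating family `x̄`: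
`exists_isTranscendenceBasis'`-type lemma, or a maximal algebraically independent subfamily). `L` is algebraic and
finitely generated over `ℂ(x̄_A)`, hence finite; `specDEX` (B5; instances as in `B5/Bst.lean`) gives the `dd_i` with `dd_i
x̄_(A j) = δ_ij`, `D y = ∑ D(x̄_(A i)) dd_i y`. (3) is the chain rule, `φ(q) = 0`. (2): `t ∈ tsp` defines a derivation: as in
`BSTM.der_poly`, `BSTM.ext_vf`. (1): `t ↦ (t_(A i))_i` is an isomorphism `tsp → L^n` by (2) and the formula for `D`. -/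
def SpecTGD : Prop := ∀ (N n : ℕ) (P : Ideal (PR N)), P.IsPrime →
  Algebra.trdeg ℂ (PR N ⧸ P) = ((n : ℕ) : Cardinal) →
  ∀ (L : Type) (_ : Field L) (_ : Algebra ℂ L) (φ : PR N →ₐ[ℂ] L), Gen P L φ →
  Module.finrank L (tsp P φ) = n ∧
  (∀ t ∈ tsp P φ, ∃ D : Derivation ℂ L L, ∀ l, D (φ (X l)) = t l) ∧
  (∀ D : Derivation ℂ L L, (fun l => D (φ (X l))) ∈ tsp P φ) ∧
  ∃ (A : Fin n → Fin N) (dd : Fin n → Derivation ℂ L L),
    (∀ i j, dd i (φ (X (A j))) = if i = j then 1 else 0) ∧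
    ∀ (D : Derivation ℂ L L) (y : L), D y = ∑ i, D (φ (X (A i))) * dd i y

/-- VJP (~250 lines), USES TGD. The fields `V^i`. PROOF. (1) `V^i(q) = Δ ∂_(J i) q - ∑_(a,b) ∂_(K b) q adj_(b a) ∂_(J i) F_a` is
the determinant of the `(N - n + 1)`-matrix with the rows `q, F_a` and the columns `J i, K b` of the Jacobian matrix
(`Matrix.det_fromBlocks..` or expansion along the first row and column). Over `L = FractionRing (S / P)` the rows `(φ ∂_l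
q)_l`, `q ∈ P`, span a space of dimension `N - n` (its orthogonal space is `tsp`, of dimension `n` by TGD), so all minors
of size `N - n + 1` vanish in `L` (`specRKM`), i.e. they are in `P`. (2) definition, `bij`. (3) `∑_b ∂_(K b) F_a v_(K b) = v(F_a) -
∑_i ∂_(J i) F_a v_(J i)` (`bij`: the sum over `l` is the sum over `J` and `K`); multiply with the adjugate: `Δ v_(K b) ≡ - ∑_i
v_(J i) ∑_a adj_(b a) ∂_(J i) F_a = ∑_i v_(J i) V^i_(K b)` modulo `𝔢`. (4) the number of elements of `Fin N`. -/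
def SpecVJP : Prop := ∀ (N n : ℕ) (P : Ideal (PR N)), P.IsPrime →
  Algebra.trdeg ℂ (PR N ⧸ P) = ((n : ℕ) : Cardinal) → ∀ c : Crd P n,
  (∀ i, ∀ q ∈ P, vf (c.V i) q ∈ P) ∧
  (∀ i j, c.V i (c.J j) = if i = j then c.Δ else 0) ∧
  (∀ (v : Fin N → PR N) (e : Ideal (PR N)), (∀ a, vf v (c.F a) ∈ e) →
    ∀ l, c.Δ * v l - ∑ i, v (c.J i) * c.V i l ∈ e) ∧ n ≤ N

/-- PVB (~450 lines), USES VJP. All elements of `P` vanish on the graph. PROOF. As `PS/PVA.lean`, simpler: let `h_1, .., h_q` be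
generators of `P`, `u_i(y) = h_i(G y)`. For `y` near `y₀ = x₀ ∘ J` we have `Δ(G y) ≠ 0` and `∂_j G_l = V^j_l(G) / Δ(G)`
(differentiate `F_a ∘ G = 0`, `G_(J m) = y_m`, and solve as in VJP (3)). So `∂_j u_i = (V^j h_i)(G) / Δ(G) = ∑_l (c_jil / Δ)(G)
u_l` with polynomials `c_jil` (VJP (1)). Gronwall on the segments from `y₀` as in PVA: `u = 0` on a ball. -/
def SpecPVB : Prop := ∀ (N d : ℕ) (P : Ideal (PR N)), P.IsPrime →
  Algebra.trdeg ℂ (PR N ⧸ P) = ((d : ℕ) : Cardinal) → ∀ (c : Crd P d) (x₀ : Cn N), x₀ ∈ Zer P →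
  eval x₀ c.Δ ≠ 0 → ∀ (B : Set (Cn d)) (G : Cn d → Cn N), IsOpen B → ContDiffOn ℂ 3 G B →
  (fun m => x₀ (c.J m)) ∈ B → G (fun m => x₀ (c.J m)) = x₀ →
  (∀ y ∈ B, (∀ a, eval (G y) (c.F a) = 0) ∧ ∀ m, G y (c.J m) = y m) →
  ∃ ε > 0, Metric.ball (fun m => x₀ (c.J m)) ε ⊆ B ∧
    ∀ y ∈ Metric.ball (fun m => x₀ (c.J m)) ε, G y ∈ Zer P

/-- LGC (~350 lines), USES VJP, PVB. The good part of `V(P)` is a smooth cone. PROOF. As `PS/LGR.lean`. Let `x₀ ∈ M`, `c`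
with `Δ(x₀) ≠ 0`, `O` open, `x₀ ∈ O`. If `v_J = 0` and `dF(x₀) v = 0` then `v_K = 0` (`Δ(x₀) ≠ 0`), `v = 0`: `PS.specINV` (with `k = d`,
`I = c.J`) gives `W, B, G`, PVB gives `ε`. The chart: `I = c.J`, `G`, `B' = ball ∩ G⁻¹(O')`, `O' = O ∩ {Δ ≠ 0} ∩ {some element
of 𝔟 which is ≠ 0 at x₀ is ≠ 0}`, `W' = {z ∈ W | z ∘ J ∈ ball, z ∈ O'}`. `mem`, `inv` clear (`M ∩ W' = V(P) ∩ W'`; elements of `V(P)`
satisfy `F_a = 0`). `tan`: `range (fderiv G y) ⊆ tgx P (G y)` (differentiate `q ∘ G = 0`, `q ∈ P`), and `tgx P (G y)` has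
dimension `≤ d` (`t ∈ tgx` is determined by `t_J`, `Δ(G y) ≠ 0`), while the range has dimension `d`. Cone: `smul`: `P`, `𝔟` homogeneous,
`∂_l q (t x) = ∑_e t^(e-1) ∂_l q_e (x)`, `q_e ∈ P`. `eul`: Euler's formula for the components. `ne`: `0 ∈ Zer 𝔟`. -/
def SpecLGC : Prop := ∀ (N d : ℕ) (P b : Ideal (PR N)), P.IsPrime → Hom P → Hom b →
  Algebra.trdeg ℂ (PR N ⧸ P) = ((d : ℕ) : Cardinal) → (0 : Cn N) ∈ Zer b →
  (∀ x ∈ Zer P, x ∉ Zer b → ∃ c : Crd P d, eval x c.Δ ≠ 0) →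
  Cone N d {x | x ∈ Zer P ∧ x ∉ Zer b} (tgx P) ∧
  ∀ x ∈ Zer P, x ∉ Zer b → ∀ c : Crd P d, eval x c.Δ ≠ 0 → ∀ O : Set (Cn N), IsOpen O → x ∈ O →
    ∃ ch : Cht N d {x | x ∈ Zer P ∧ x ∉ Zer b} (tgx P), ch.I = c.J ∧ x ∈ ch.W ∧ ch.W ⊆ O ∧
      ∀ y ∈ ch.B, eval (ch.G y) c.Δ ≠ 0

/-- RHO (~200 lines), USES TGD. The derivative of the Jacobian determinants. PROOF. All derivations `D` of `L` satisfy `D y =
∑_i D(x̄_(A i)) dd_i y` (the space of derivations has dimension `d` by TGD, the `dd_i` are linearly independent by `dual`, so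
they are a basis). `[D, dd_i] = - ∑_k dd_i(φ v_(A k)) dd_k` (check on the `x̄_(A k)`), so `D(dd_i x̄_(B j)) = dd_i(φ v_(B j)) - ∑_k
dd_i(φ v_(A k)) dd_k x̄_(B j)` and `dd_i(φ v_(B j)) = ∑_l φ(∂_l v_(B j)) dd_i x̄_l` (chain rule). The derivative of a determinant is
the sum over the columns `j` of the determinants with the column `j` differentiated (`DET0M.der_det`); the first part gives
the first sum, the second part is `- tr(..) det`. -/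
def SpecRHO : Prop := ∀ (N d : ℕ) (P : Ideal (PR N)), P.IsPrime →
  Algebra.trdeg ℂ (PR N ⧸ P) = ((d : ℕ) : Cardinal) →
  ∀ (L : Type) (_ : Field L) (_ : Algebra ℂ L) (φ : PR N →ₐ[ℂ] L), Gen P L φ →
  ∀ (W : Set (Fin N → PR N)) (I : InvV d W φ) (v : Fin N → PR N) (D : Derivation ℂ L L),
  (∀ l, D (φ (X l)) = φ (v l)) → ∀ B : Fin d → Fin N,
  D (I.rho B) = ∑ j, ∑ l, φ (pderiv l (v (B j))) * I.rho (Function.update B j l) -
    (∑ i, I.dd i (φ (v (I.A i)))) * I.rho B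

/-- STI (~300 lines), USES RHO. The poles and the zeros of `μ` are stable. PROOF. For `𝔅 = (B_1, .., B_M)` put `λ_𝔅 = lam ∏_t
ρ_(B_t)`. Let `v ∈ W`; `v` preserves `P`, so it induces a derivation `D` of `L` (`BSTM.ext_vf`) with `D φ(q) = φ(v(q))`. RHO and `inv`:
`D(λ_𝔅) = ∑_t ∑_j ∑_l φ(∂_l v_(B_t j)) λ_(𝔅[t, j → l])` (the terms with the divergence cancel). `𝔏` = the `φ(S)`-span of the finitely
many `λ_𝔅` in `L`: `D 𝔏 ⊆ 𝔏`. `𝔧₁ = {q | φ(q) 𝔏 ⊆ φ(S)}`, `𝔧₂ = {q | φ(q) ∈ 𝔏}`: ideals which contain `P`, stable (`φ(v(q)) λ =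
D(φ(q) λ) - φ(q) D(λ)`), not contained in `P` (common denominator of the `λ_𝔅`; `lam = λ_(A,..,A) ∈ 𝔏` is `φ(a)/φ(b)`, so
`φ(a) = φ(b) lam ∈ 𝔏`, `a ∉ P`). `𝔧 = 𝔧₁ 𝔧₂ ⊔ P` is stable and not contained in `P`. Let `x ∈ V(P)`, `x ∉ V(𝔧)`. There are `b ∈ 𝔧₁`,
`c ∈ 𝔧₂` with `b(x) c(x) ≠ 0`: `φ(c) = ∑ φ(s_𝔅) λ_𝔅`, `φ(b) λ_𝔅 = φ(a_𝔅)`, so `b c - ∑ s_𝔅 a_𝔅 ∈ P` and `a_𝔅(x) ≠ 0` for some `𝔅`. With `a_t`,
`φ(b) λ_(B_t,..,B_t) = φ(a_t)`: `λ_𝔅^M = ∏_t lam ρ_(B_t)^M`, so `a_𝔅^M - ∏_t a_t ∈ P` and `a_t(x) ≠ 0` for all `t` (`M ≥ 1`). `B = B_1`.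
The last statement: `lamB B = λ_(B,..,B)`, `b ∈ 𝔧₁`. -/
def SpecSTI : Prop := ∀ (N d : ℕ) (P : Ideal (PR N)), P.IsPrime →
  Algebra.trdeg ℂ (PR N ⧸ P) = ((d : ℕ) : Cardinal) →
  ∀ (L : Type) (_ : Field L) (_ : Algebra ℂ L) (φ : PR N →ₐ[ℂ] L), Gen P L φ →
  ∀ (W : Set (Fin N → PR N)), (∀ v ∈ W, ∀ q ∈ P, vf v q ∈ P) → ∀ I : InvV d W φ,
  ∃ j : Ideal (PR N), P ≤ j ∧ ¬ j ≤ P ∧ (∀ v ∈ W, ∀ q ∈ j, vf v q ∈ j) ∧
    ∀ x ∈ Zer P, x ∉ Zer j → (∃ (B : Fin d → Fin N) (a b : PR N), φ b * I.lamB B = φ a ∧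
      eval x a ≠ 0 ∧ eval x b ≠ 0) ∧
      ∀ B : Fin d → Fin N, ∃ (a b : PR N), φ b * I.lamB B = φ a ∧ eval x b ≠ 0

/-- `a / b` is the coefficient of `μ^(-M)` in the coordinates of `c`, regular and not zero at `x` -/
def LDat {N d : ℕ} {W : Set (Fin N → PR N)} {L : Type} [Field L] [Algebra ℂ L] {φ : PR N →ₐ[ℂ] L}
    (I : InvV d W φ) {P : Ideal (PR N)} (c : Crd P d) (a b : PR N) (x : Cn N) : Prop :=
  eval x c.Δ ≠ 0 ∧ eval x a ≠ 0 ∧ eval x b ≠ 0 ∧ φ b * I.lamB c.J = φ a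

/-- LOC (~300 lines), USES VJP, RHO. Local data. PROOF. Notation `c = (F, K, J)`. For `Δ ∉ P` (this holds if `Δ(x) ≠ 0`, `x ∈
V(P)`) the fields `V^i` induce derivations `∂^i = V^i / φ(Δ)` of `L` (VJP (1)) with `∂^i x̄_(J j) = δ_ij`; by the formula `D y = ∑
D(x̄_(A i)) dd_i y` and `D y = ∑ D(x̄_(J i)) ∂^i y` (both are bases of the space of derivations, see RHO) the matrices
`(dd_i x̄_(J j))` and `(∂^i x̄_(A j))` are inverse to each other and `ρ_B = ρ_J det(∂^i x̄_(B j))` for all `B`. (1) `x` as in the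
hypothesis with `B, a', b'`: `φ(b') lam ρ_B^M = φ(a')`, `ρ_B = ρ_J det(V^i_(B j)) / Δ^d`. By hypothesis there is also `b` with
`b(x) ≠ 0` and `φ(b) lamB J ∈ φ(S)`, `φ(b) lamB J = φ(a)`. `φ(a) det(V^i_(B j))^M φ(b') = φ(b) φ(Δ)^(dM) φ(a')`: evaluate at
`x`: the right side is `≠ 0`, so `a(x) ≠ 0`. (2) `λ = lamB J = φ(a)/φ(b)`; for `v ∈ W` with the derivation `D`: `D λ = M (∑_j
∑_l φ(∂_l v_(J j)) ρ_(J[j → l]) / ρ_J) λ` (RHO, `inv`), and `ρ_(J[j → l]) / ρ_J = ∂^j x̄_l = φ(V^j_l)/φ(Δ)`, so `φ(Δ) D λ = M (∑_j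
φ(V^j (v_(J j)))) λ`; multiply with `φ(b)²`. (3) `lamB J' = lamB J det(∂^i x̄_(J' j))^M`. -/
def SpecLOC : Prop := ∀ (N d : ℕ) (P : Ideal (PR N)), P.IsPrime →
  Algebra.trdeg ℂ (PR N ⧸ P) = ((d : ℕ) : Cardinal) →
  ∀ (L : Type) (_ : Field L) (_ : Algebra ℂ L) (φ : PR N →ₐ[ℂ] L), Gen P L φ →
  ∀ (W : Set (Fin N → PR N)), (∀ v ∈ W, ∀ q ∈ P, vf v q ∈ P) → ∀ I : InvV d W φ,
  (∀ x ∈ Zer P, ∀ c : Crd P d, eval x c.Δ ≠ 0 →
    (∃ (B : Fin d → Fin N) (a b : PR N), φ b * I.lamB B = φ a ∧ eval x a ≠ 0 ∧ eval x b ≠ 0) →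
    (∃ (a b : PR N), φ b * I.lamB c.J = φ a ∧ eval x b ≠ 0) → ∃ a b, LDat I c a b x) ∧
  (∀ x ∈ Zer P, ∀ (c : Crd P d) (a b : PR N), LDat I c a b x → ∀ v ∈ W,
    c.Δ * (b * vf v a - a * vf v b) - (I.M : PR N) * (∑ j, vf (c.V j) (v (c.J j))) * (a * b) ∈ P) ∧
  (∀ x ∈ Zer P, ∀ (c : Crd P d) (a b : PR N), LDat I c a b x → ∀ x' ∈ Zer P,
    ∀ (c' : Crd P d) (a' b' : PR N), LDat I c' a' b' x' →
    a' * b * c.Δ ^ (d * I.M) -
      (Matrix.of fun i j => c.V i (c'.J j)).det ^ I.M * a * b' ∈ P)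

/-- BAD (~250 lines), USES STI, VJP. The bad locus. PROOF. `W = Flds g`; `P` is stable under all `v ∈ W` (`Stab`, skewness;
Euler: `LS.specEUH`). `𝔧` = the ideal of STI. `𝔧₀ = P ⊔ (m-minors of the Jacobian matrices of m elements of P)`, `m = N - d`:
stable under the Hamiltonian fields by `PS.specJST`, under the Euler field by the same proof (`E(∂_l F) = ∂_l(E F) - ∂_l F`),
not contained in `P` (`PS.specJRK`). `𝔪₀ = (X_1, .., X_N)` is stable, `d > 0` so it is not contained in `P` (`D(P) > 0`).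
`b = 𝔪₀ 𝔧₀ 𝔧 ⊔ P`: stable under `W`, so `Hom b` (`LS.specEUH`), not contained in `P`. A prime `q ≥ b` contains a minimal prime `q₀` of `b`,
stable (`specDMIN` for the matrix `[g | x]`), `P ≤ q₀ ≠ P`, so `D(q) ≤ D(q₀) ≤ s + 1` (`BSTM.mono`). `x ∈ V(P)`, `x ∉ V(b)`:
`x ≠ 0`, `x ∉ V(𝔧)`, `x ∉ V(𝔧₀)`: a minor `det (∂_(K b) F_a)(x) ≠ 0`, `K` is injective, enumerate the complement of its range by
`J : Fin d → Fin N` (cardinality `N - m = d`, `d ≤ N`). -/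
def SpecBAD : Prop := ∀ (N d s : ℕ) (g : Biv N) (P : Ideal (PR N)), P.IsPrime → Hom P →
  Stab g.f P → (∀ i j k, jac g.f i j k ∈ P) →
  Algebra.trdeg ℂ (PR N ⧸ P) = ((d : ℕ) : Cardinal) → 0 < d →
  (∀ Q : Ideal (PR N), Q.IsPrime → P ≤ Q → StE g Q → Q ≠ P →
    Algebra.trdeg ℂ (PR N ⧸ Q) ≤ ((s + 1 : ℕ) : Cardinal)) →
  ∀ (L : Type) (_ : Field L) (_ : Algebra ℂ L) (φ : PR N →ₐ[ℂ] L), Gen P L φ →
  ∀ I : InvV d (Flds g) φ,
  ∃ b : Ideal (PR N), P ≤ b ∧ Hom b ∧ Dle b (s + 1) ∧ (0 : Cn N) ∈ Zer b ∧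
    ∀ x ∈ Zer P, x ∉ Zer b → (∃ c : Crd P d, eval x c.Δ ≠ 0) ∧
      (∃ (B : Fin d → Fin N) (a b : PR N), φ b * I.lamB B = φ a ∧ eval x a ≠ 0 ∧ eval x b ≠ 0) ∧
      ∀ B : Fin d → Fin N, ∃ (a b : PR N), φ b * I.lamB B = φ a ∧ eval x b ≠ 0

/-- VLU (~350 lines), USES LGC, LOC. The analytic volume form. PROOF. `M = {x ∈ V(P), x ∉ V(b)}`, `T = tgx P`; every `x₀ ∈ M` has
`c` with `Δ(x₀) ≠ 0` and `a, b'` with `LDat I c a b' x₀` (LOC (1)). INDEX TYPE: all tuples (`x₀ ∈ M`, `c`, `a`, `b'`, chart `ch` with `ch.I =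
c.J`, function `m`) such that on `ch.B`: `Δ(G y)`, `a(G y)`, `b'(G y) ≠ 0`, `m` is `C²` (complex), `m(y)^M = b'(G y) / a(G y)`. `cov`: the
open set `O` where `Δ, a, b'` do not vanish and `|f(x) - f(x₀)| < |f(x₀)|` for `f = b' / a`; LGC gives `ch` with `ch.W ⊆ O`; `m(y) = f(x₀)^(1/M) exp(log(f(G
y)/f(x₀)) / M)` (`f/f(x₀)` is in `Complex.slitPlane`). `ne` clear. `hom`: `M m^(M-1) dm = d(b'/a)`, and LOC (2) for `v` = the Euler field:
`V^j(x_(J j)) = Δ`, so `b' E(a) - a E(b') = M d a b'` on `V(P)`; `dG(y) y = G y` (`PS.specBAS`): `dm(y) y = - d m`. `tr`: LOC (3) at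
`x = G y`: `m^M / m'^M = det(V^i_(J' j)/Δ)^M`, and `V^i_l / Δ = ∂_i G_l` at `G y` (`dG(e_i) ∈ T`, determined by its `J`-coordinates, as
in VJP (3)), so `det(..) = jdet`; two numbers with the same `M`-th power differ by `u`, `|u| = 1`. `DivF` for `X = (g_(a l))_l`:
`∂_i (m X_(J i)(G)) = ∂_i m X_(J i) + m ∂_i (X_(J i)(G))`; `∑_i ∂_i m X_(J i) = dm(X_J)`, `dG(X_J) = X(G y)` (`X ∈ T`); `M dm / m = - (b' X(a) - a X(b'))
/ (a b')` `= - M ∑_i V^i(X_(J i)) / Δ` by LOC (2), and `V^i(q)/Δ = ∂_i (q ∘ G)`. -/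
def SpecVLU : Prop := ∀ (N d : ℕ) (g : Biv N) (P b : Ideal (PR N)), P.IsPrime → Hom P → Hom b →
  Stab g.f P → Algebra.trdeg ℂ (PR N ⧸ P) = ((d : ℕ) : Cardinal) → (0 : Cn N) ∈ Zer b →
  ∀ (L : Type) (_ : Field L) (_ : Algebra ℂ L) (φ : PR N →ₐ[ℂ] L), Gen P L φ →
  ∀ I : InvV d (Flds g) φ,
  (∀ x ∈ Zer P, x ∉ Zer b → (∃ c : Crd P d, eval x c.Δ ≠ 0) ∧
      (∃ (B : Fin d → Fin N) (a b : PR N), φ b * I.lamB B = φ a ∧ eval x a ≠ 0 ∧ eval x b ≠ 0) ∧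
      ∀ B : Fin d → Fin N, ∃ (a b : PR N), φ b * I.lamB B = φ a ∧ eval x b ≠ 0) →
  Cone N d {x | x ∈ Zer P ∧ x ∉ Zer b} (tgx P) ∧
  ∃ V : VolU N d d {x | x ∈ Zer P ∧ x ∉ Zer b} (tgx P),
    ∀ a, DivF V (fun x l => eval x (g.f a l))

/-- DVA (~150 lines), USES PFD. `A` has no divergence. PROOF. `A_l = ∑_σ sgn σ (∏ β_i) X_(c_(σ none), l)`. `DivF` is additive and for
a function `f` (polynomial) and a field `X` tangent to `M` with `DivF V X`: `∑_a ∂_a (m f X_a) = m ∑ X_(I a) ∂_a (f ∘ G) = m (X f)(G y)`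
(`dG(X_I) = X`). The linear combinations `hml g c` of the fields of the hypothesis have no divergence. So the divergence of `A`
is `m (∑_σ sgn σ X_(c_(σ none)) (∏ β_i))(G y) = 0` by PFD (`G y ∈ V(P)`). -/
def SpecDVA : Prop := ∀ (N d r : ℕ) (g : Biv N) (P b : Ideal (PR N)), (∀ i j k, jac g.f i j k ∈ P) →
  Stab g.f P → Cone N d {x | x ∈ Zer P ∧ x ∉ Zer b} (tgx P) →
  ∀ V : VolU N d d {x | x ∈ Zer P ∧ x ∉ Zer b} (tgx P),
  (∀ a, DivF V (fun x l => eval x (g.f a l))) → ∀ c : Option (Fin r × Fin 2) → Cn N,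
  DivF V (fun x l => eval x (PFA g c l))

/-- DSU (~200 lines). From a volume form and a vector field to a density. PROOF. `w i y = (m_i(y) A(G y)_(I a))_a`. `A(G y) ∈ T (G y) =
range dG`, coordinates `I`: `dG(w) = m A(G y)` (BAS (1)). `sm`, `div` (`fderiv` of a product; `DivF`) clear. `hom`: `A(t x) = t^a
A(x)`, so `dA(x) x = a A(x)`, `dG(y) y = G y`: `dw(y) y = (- e + a) w`, `a - e = - (k - 1)`. `tr`: from `tr` of `V`. -/
def SpecDSU : Prop := ∀ (N k e a : ℕ) (M : Set (Cn N)) (T : Cn N → Submodule ℂ (Cn N)),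
  Cone N k M T → a + k = e + 1 → ∀ V : VolU N k e M T, ∀ A : Cn N → Cn N, ContDiff ℂ 2 A →
  (∀ (t : ℂ) (x : Cn N), A (t • x) = t ^ a • A x) → (∀ x ∈ M, A x ∈ T x) → DivF V A →
  ∃ D : DensU N k M T, ∀ x ∈ M, ∃ (i : D.ι), ∃ y ∈ (D.c i).B, (D.c i).G y = x ∧
    ∃ t : ℂ, t ≠ 0 ∧ fderiv ℂ (D.c i).G y (D.w i y) = t • A x

/-- EVR (~80 lines). `rk g.f x` is even. PROOF. Let the columns of `B` (`N × (N-1)`) be a basis of `ker (dot x)`. `rk` is the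
dimension of the image of `ker (dot x)` in `ℂ^N / ℂ x` under `g(x)`; the annihilator of `ℂ x` is `ker (dot x)`, so it is the rank
of the skew matrix `Bᵀ g(x) B`: `specSKE`. -/
def SpecEVR : Prop := ∀ (N k : ℕ) (g : Biv N) (x : Cn N), x ≠ 0 → rk g.f x ≤ 2 * k + 1 →
  rk g.f x ≤ 2 * k

/-- KTH (~250 lines), USES HLX, CTL, ITQ, NZQ, PFT, PFN, BAD, VLU, DVA, DSU, EVR. THEOREM K: an invariant volume form on a minimal
stable cone is impossible. PROOF. `s = 2 r`. `x₁ ∈ V(P)` with `rk ≥ s + 2`. `b` of BAD; `M = {x ∈ V(P), x ∉ V(b)}`, `T = tgx P`. There is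
`x₀ ∈ M` with `rk g.f x₀ ≥ s + 2`: by RKC, RKU (`PS`) some minor (`mnr` of size `s + 3` or `xmnr`) does not vanish at `x₁`, so it is not in
`P`; multiply it with an element of `b` not in `P` (`Dle b (s+1)` and `D(P) = d ≥ s + 3`, see below) and take a point `x₀` of `V(P)`
(Nullstellensatz); `rk ≥ s + 2` by RKC and EVR. `d ≥ s + 3`: `specDIM` for the matrix `[g | x]` and this minor. PFN (`2 r + 2 ≤ rk`) gives `c⁰` at `x₀`; identify
`Option (Fin r × Fin 2)` with `Fin (s + 1)`. `O'` = the set of the `(x, c)` such that `A_c(x)` and `x` are linearly independent (open: some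
`2 × 2` minor is `≠ 0`; `A_c(x)` is continuous in `(x, c)`). The hypothesis of NZQ: `g(x₀) ξ ∈ T x₀` (`Stab g.f P`). NZQ gives the `O a`, ITQ
(`j = s + 1`, `k = d - s - 1 ≥ 2`, `J = b`) gives `c`. `M_L`, `T_L` = the sections. VLU, DVA: `V`, `DivF V A`, `A = A_c`; `A x ∈ T x` (combination
of Hamiltonian vectors), `A x ∈ hyp (c b)` (PFT). CTL: `V'` on `M_L` with `DivF V' A`, DSU (`a = s + 2`, `e = d`: `s + 2 + (d - s - 1) = d +
1`). `insert 0 M_L = V(P) ∩ L` is closed: a point of `V(P) ∩ L` which is not in `M` is in `V(b) ∩ L = {0}` (ITQ). HLX: `A(x) = t' x` for all `x ∈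
M_L`. NZQ gives a point `x ∈ M ∩ L` with `(x, c) ∈ O'`: a contradiction. -/
def SpecKTH : Prop := ∀ (N d s : ℕ) (g : Biv N) (P : Ideal (PR N)), Even s → P.IsPrime → Hom P →
  Stab g.f P → (∀ i j k, jac g.f i j k ∈ P) →
  Algebra.trdeg ℂ (PR N ⧸ P) = ((d : ℕ) : Cardinal) →
  (∀ Q : Ideal (PR N), Q.IsPrime → P ≤ Q → StE g Q → Q ≠ P →
    Algebra.trdeg ℂ (PR N ⧸ Q) ≤ ((s + 1 : ℕ) : Cardinal)) →
  (∃ x ∈ Zer P, x ≠ 0 ∧ s + 2 ≤ rk g.f x) →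
  ∀ (L : Type) (_ : Field L) (_ : Algebra ℂ L) (φ : PR N →ₐ[ℂ] L), Gen P L φ →
  InvV d (Flds g) φ → False

end Pool.Agent.Lib.MPc9b009.LF
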