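import Pool.Agent.Lib.MP_c9b009_ag.LF.SpecK

/-!
# MP_c9b009_ag, row LF, part T: the trace lemma

`I` a prime ideal of `S = ℂ[x_1, .., x_N]`, `D(I) = n`, `π` a Poisson structure on `S / I` of generic rank `n` whose
degeneracy divisor is reduced, `p ∈ V(I)` a smooth point. Two vector fields which preserve `I` and `π` at `p` up to a
high order have a commutator whose value at `p` is a Hamiltonian vector.
Form of the modules as in `LF/SpecD.lean` (import `Pool.Agent.Lib.MP_c9b009_ag.LF.SpecT`).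
-/

set_option autoImplicit false

namespace Pool.Agent.Lib.MPc9b009.LF

open MvPolynomial Pool.Agent.Lib.MPc9b009.B5 Pool.Agent.Lib.MPc9b009.OD
  Pool.Agent.Lib.MPc9b009.PS Pool.Agent.Lib.MPc9b009.LS

/-- `ρ : S → R` is the local ring of `V(I)` at `p`, `dd i = V^i / Δ = ∂ / ∂ x_(J i)`. -/
structure LRP {N n : ℕ} (I : Ideal (PR N)) (p : Cn N) (c : Crd I n) (R : Type) [CommRing R]
    [IsLocalRing R] [Algebra ℂ R] (ρ : PR N →ₐ[ℂ] R) (dd : Fin n → Derivation ℂ R R) : Prop where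
  ker : ∀ q, ρ q = 0 ↔ q ∈ I
  frac : ∀ y : R, ∃ a b : PR N, eval p b ≠ 0 ∧ y * ρ b = ρ a
  unit : ∀ b, IsUnit (ρ b) ↔ eval p b ≠ 0
  pow : ∀ (q : PR N) (k : ℕ), ρ q ∈ IsLocalRing.maximalIdeal R ^ k ↔ q ∈ I ⊔ mx p ^ k
  der : ∀ i q, ρ c.Δ * dd i (ρ q) = ρ (vf (c.V i) q)
  comm : ∀ i j y, dd i (dd j y) = dd j (dd i y)

/-- The degeneracy divisor of `π` on `V(I)`, `D(I) = n`, is reduced: outside a closed subset of codimension `≥ 2`
the rank is `n`, or it is `n - 2` and the isotropy Lie algebra is not abelian. -/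
def Rdc {N : ℕ} (n : ℕ) (I : Ideal (PR N)) (π : Fin N → Fin N → PR N) : Prop :=
  ∃ b : Ideal (PR N), Dle b (n - 2) ∧ ∀ x ∈ Zer I, x ∉ Zer b → (mat π x).rank = n ∨
    ((mat π x).rank + 2 = n ∧ ∃ ξ ζ v : Cn N, (mat π x).mulVec ξ = 0 ∧ (mat π x).mulVec ζ = 0 ∧
      v ∈ tgx I x ∧ ∑ i, ∑ j, ∑ l, ξ i * ζ j * v l * eval x (pderiv l (π i j)) ≠ 0)

/-- LOD (~250 lines), USES VJP. PROOF. `R` = the localization of `S / I` at the maximal ideal `mx p / I`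
(`Localization.AtPrime`). `ker`, `frac`, `unit` clear (`S / I` is a domain). `pow`: `ρ(q) ∈ 𝔪^k` iff `b q ∈ I ⊔ mx p ^ k` for some
`b` with `b(p) ≠ 0`, and `b` is a unit modulo `mx p ^ k` (`b b' ≡ 1` modulo `mx p`, so modulo the power:
`IsCoprime`.. `Ideal` of `b` and `mx p ^ k` is everything). `der`: the derivation `q ↦ V^i(q)` preserves `I` (VJP (1)), extends
to the localization (`Derivation.liftOfSurjective`, `Derivation` on localizations: `Derivation.mapCoeff`.., or extend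
to the fraction field as in `BSTM.ext_vf` and restrict: the quotient rule), divide by the unit `ρ(Δ)`. `comm`: a derivation
`E` of `R` with `E(ρ x_(J j)) = 0` for all `j` is `0`: `0 = E(ρ F_a) = ∑_b ρ(∂_(K b) F_a) E(ρ x_(K b))`, `Δ` is a unit, so
`E(ρ x_l) = 0` for all `l`, and `R` is generated by the `x_l` and inverses. Apply this to `E = [dd i, dd j]` (`dd i (ρ x_(J
j)) = δ_ij`: VJP (2)). -/
def SpecLOD : Prop := ∀ (N n : ℕ) (I : Ideal (PR N)), I.IsPrime →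
  Algebra.trdeg ℂ (PR N ⧸ I) = ((n : ℕ) : Cardinal) → ∀ p ∈ Zer I, ∀ c : Crd I n, eval p c.Δ ≠ 0 →
  ∃ (R : Type) (_ : CommRing R) (_ : IsDomain R) (_ : IsLocalRing R) (_ : IsNoetherianRing R)
    (_ : Algebra ℂ R) (ρ : PR N →ₐ[ℂ] R) (dd : Fin n → Derivation ℂ R R), LRP I p c R ρ dd

/-- LVF (~100 lines), USES VJP. A vector field which preserves `I` up to order `k` in local coordinates. PROOF. VJP (3)
with `e = I ⊔ mx p ^ k`: `Δ v_l ≡ ∑_i v_(J i) V^i_l`, so `ρ(Δ) ρ(v(q)) ≡ ∑_i ρ(v_(J i)) ρ(V^i q) = ρ(Δ) ∑_i ρ(v_(J i)) dd_i (ρ q)`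
modulo `𝔪^k` (`pow`), and `ρ(Δ)` is a unit. The second statement: `e = I`, `ker`. -/
def SpecLVF : Prop := ∀ (N n : ℕ) (I : Ideal (PR N)), I.IsPrime →
  Algebra.trdeg ℂ (PR N ⧸ I) = ((n : ℕ) : Cardinal) → ∀ p ∈ Zer I, ∀ c : Crd I n, eval p c.Δ ≠ 0 →
  ∀ (R : Type) (_ : CommRing R) (_ : IsLocalRing R) (_ : Algebra ℂ R) (ρ : PR N →ₐ[ℂ] R)
    (dd : Fin n → Derivation ℂ R R), LRP I p c R ρ dd →
  (∀ (k : ℕ) (v : Fin N → PR N), (∀ q ∈ I, vf v q ∈ I ⊔ mx p ^ k) → ∀ q,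
    ρ (vf v q) - ∑ j, ρ (v (c.J j)) * dd j (ρ q) ∈ IsLocalRing.maximalIdeal R ^ k) ∧
  (∀ v : Fin N → PR N, (∀ q ∈ I, vf v q ∈ I) → ∀ q,
    ρ (vf v q) = ∑ j, ρ (v (c.J j)) * dd j (ρ q))

/-! ## Smooth points are normal -/

/-- SEI (~250 lines). Seidenberg: derivations preserve the integral closure. PROOF. `K` = fraction field, `D` a derivation of
`K` with `D R ⊆ R`, `a ∈ K` integral over `R`. There is `r ≠ 0` in `R` with `r a^m ∈ R` for all `m` (`R[a]` is a finite module).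
`e(y) = ∑_n D^n(y)/n! t^n` is a ring homomorphism `K → K⟦t⟧` (Leibniz) with `e(R) ⊆ R⟦t⟧`. `e(a) - a = t b`, `b ∈ K⟦t⟧`, the constant
term of `b` is `D a`. For all `m`: `r e(r) (e(a) - a)^m ∈ R⟦t⟧` (binomial formula: `r a^i ∈ R`, `e(r) e(a)^j = e(r a^j) ∈ R⟦t⟧`), so
`r e(r) b^m ∈ R⟦t⟧` (cancel `t^m`), constant term: `r² (D a)^m ∈ R` for all `m`. As `R` is noetherian `R[D a] ⊆ r⁻² R` is a finite
module and `D a` is integral. -/
def SpecSEI : Prop := ∀ (R : Type) (_ : CommRing R) (_ : IsDomain R) (_ : IsNoetherianRing R)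
  (_ : Algebra ℂ R) (D : Derivation ℂ (FractionRing R) (FractionRing R)),
  (∀ r : R, ∃ r' : R, D (algebraMap R (FractionRing R) r) = algebraMap R (FractionRing R) r') →
  ∀ a : FractionRing R, IsIntegral R a → IsIntegral R (D a)

/-- CND (~200 lines). A common denominator of the integral closure. PROOF. `R₀ = S / I` is a finitely generated domain over `ℂ`;
Noether normalization: `A = ℂ[z] ⊆ R₀`, `R₀` integral over `A`, `A` integrally closed, `K / Frac A` finite separable. The integral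
closure `C` of `A` in `K` is a finite `A`-module (`IsIntegralClosure.isNoetherian` or `finite`), so there is `0 ≠ r ∈ R₀` with `r C ⊆
R₀` (common denominator of the generators, which are quotients of elements of `R₀`). `R` is a localization of `R₀`: if `a`
is integral over `R` then `s a` is integral over `R₀` for some `s` which is a unit in `R` (clear denominators in the equation), hence
over `A`, so `r s a ∈ R₀`, `r a ∈ R`. -/
def SpecCND : Prop := ∀ (N n : ℕ) (I : Ideal (PR N)), I.IsPrime → ∀ (p : Cn N) (c : Crd I n)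
  (R : Type) (_ : CommRing R) (_ : IsDomain R) (_ : IsLocalRing R) (_ : Algebra ℂ R)
  (ρ : PR N →ₐ[ℂ] R) (dd : Fin n → Derivation ℂ R R), LRP I p c R ρ dd →
  ∃ r : R, r ≠ 0 ∧ ∀ a : FractionRing R, IsIntegral R a →
    ∃ b : R, algebraMap R (FractionRing R) r * a = algebraMap R (FractionRing R) b

/-- DSI (~250 lines). A smooth local ring has no nontrivial ideal stable under the `dd i`. PROOF. (1) `𝔪 = (t_j)`, `t_j =
ρ(x_(J j) - p_(J j))`: `𝔪` is generated by the `ρ(x_l - p_l)`; `0 = ρ(F_a) ≡ ∑_l ∂_l F_a(p) (x_l - p_l)` modulo `𝔪²`, `Δ(p) ≠ 0`, so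
`ρ(x_(K b) - p_(K b)) ∈ (t) + 𝔪²`; Nakayama. `R = ℂ + 𝔪` (`frac`). (2) If `a ∈ 𝔪^k` and all iterated derivatives of `a` of order
`k` are in `𝔪` then `a ∈ 𝔪^(k+1)`: `a ≡ ∑_(|α| = k) c_α t^α`, `c_α ∈ ℂ` (by (1)), `∂^β(a) ≡ β! c_β` modulo `𝔪` (`dd_i t_j = δ_ij`, `∂^β 𝔪^(k+1) ⊆
𝔪`), so `c_β = 0`. (3) Let `J ≠ ⊥` be an ideal stable under all the `dd i`. If `J ≤ 𝔪`, every `a ∈ J` has all its iterated
derivatives in `𝔪`, so `a ∈ ⋂ 𝔪^k = 0` (Krull), a contradiction. So `J = ⊤`. -/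
def SpecDSI : Prop := ∀ (N n : ℕ) (I : Ideal (PR N)), I.IsPrime → ∀ p ∈ Zer I, ∀ c : Crd I n,
  eval p c.Δ ≠ 0 →
  ∀ (R : Type) (_ : CommRing R) (_ : IsDomain R) (_ : IsLocalRing R) (_ : IsNoetherianRing R)
    (_ : Algebra ℂ R) (ρ : PR N →ₐ[ℂ] R) (dd : Fin n → Derivation ℂ R R), LRP I p c R ρ dd →
  ∀ J : Ideal R, J ≠ ⊥ → (∀ i, ∀ a ∈ J, dd i a ∈ J) → J = ⊤

/-- NRM (~100 lines), USES SEI, CND, DSI. `R` is integrally closed. PROOF. The conductor `J = {r ∈ R | r a ∈ R for all integral a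
∈ K}` is an ideal, not `⊥` (CND). It is stable: extend `dd i` to `D : K → K` (quotient rule; SEI), `D(r) a = D(r a) - r D(a) ∈ R`.
So `J = ⊤` (DSI), `1 ∈ J`. -/
def SpecNRM : Prop := ∀ (N n : ℕ) (I : Ideal (PR N)), I.IsPrime → ∀ p ∈ Zer I, ∀ c : Crd I n,
  eval p c.Δ ≠ 0 →
  ∀ (R : Type) (_ : CommRing R) (_ : IsDomain R) (_ : IsLocalRing R) (_ : IsNoetherianRing R)
    (_ : Algebra ℂ R) (ρ : PR N →ₐ[ℂ] R) (dd : Fin n → Derivation ℂ R R), LRP I p c R ρ dd →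
  IsIntegrallyClosed R

/-! ## Height one -/

/-- HTO (~200 lines). Divisibility in a normal domain is decided in height one. PROOF. Suppose `f ∤ a`. Among the proper
ideals `(f : c a) = {b | f ∣ b c a}`, `f ∤ c a`, choose a maximal one, `Q = (f : a')`, `a' = c a`; it is prime (if `b b' ∈ Q`, `b ∉ Q` then
`(f : b a') ⊇ Q` is proper, so `= Q ∋ b'`). `f ∈ Q`. In `R_Q` put `z = a' / f ∉ R_Q` (otherwise `b ∉ Q` with `f ∣ b a'`), `z Q R_Q ⊆ R_Q`. If `z Q R_Q ⊆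
Q R_Q` then `z` is integral over `R_Q` (`Q R_Q` is a finitely generated faithful module: `isIntegral_of_smul_mem_submodule`), and `R_Q`
is integrally closed: a contradiction. So `z Q R_Q = R_Q`, `Q R_Q = z⁻¹ R_Q` is principal, hence `Q` has height `≤ 1`
(`Ideal.height_le_one_of_isPrincipal_of_mem_minimalPrimes` in `R_Q`): no prime strictly between `⊥` and `Q`. The
hypothesis gives `b ∉ Q`, `f ∣ b a`, so `f ∣ b c a`, `b ∈ Q`, a contradiction. -/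
def SpecHTO : Prop := ∀ (R : Type) (_ : CommRing R) (_ : IsDomain R) (_ : IsNoetherianRing R),
  IsIntegrallyClosed R → ∀ a f : R, f ≠ 0 →
  (∀ Q : Ideal R, Q.IsPrime → f ∈ Q → (∀ Q' : Ideal R, Q'.IsPrime → Q' < Q → Q' = ⊥) →
    ∃ b, b ∉ Q ∧ f ∣ b * a) → f ∣ a

/-- HGT (~250 lines). Primes of height one over `I` have dimension `D(I) - 1`. PROOF. Noether normalization `A = ℂ[z_1, .., z_n] ⊆ R₀
= S / I`, `R₀` integral over `A` (Mathlib; `n = D(I)`: the number of variables is the transcendence degree). `𝔮̄ = 𝔮 / I ≠ 0`, `𝔭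
= 𝔮̄ ∩ A ≠ 0` (integrality). Going down (Mathlib `RingTheory/Ideal/GoingDown`, `A` integrally closed, `R₀` a domain; or the norm
argument): if `0 ≠ 𝔭' < 𝔭` is prime there is a prime `𝔮' < 𝔮̄` over `𝔭'`, `𝔮' ≠ 0`: against the hypothesis. So `𝔭 = (ϖ)` (a nonzero element of `𝔭`
has a prime factor `ϖ ∈ 𝔭`, UFD). `S / 𝔮` is integral over `A / (ϖ)`, injective, so `D(𝔮) = trdeg (A/(ϖ)) ≥ n - 1` (as in
`LS/COP.lean`: `n - 1` of the variables are independent modulo `ϖ`). -/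
def SpecHGT : Prop := ∀ (N n : ℕ) (I q : Ideal (PR N)), I.IsPrime → q.IsPrime → I < q →
  Algebra.trdeg ℂ (PR N ⧸ I) = ((n : ℕ) : Cardinal) →
  (∀ q' : Ideal (PR N), q'.IsPrime → I ≤ q' → q' < q → q' = I) →
  ((n : ℕ) : Cardinal) ≤ Algebra.trdeg ℂ (PR N ⧸ q) + 1

/-- DVQ (~200 lines). At a prime of height one. PROOF. `O = R_Q` (localization) is a noetherian local integrally closed domain with
only two primes, not a field, so a discrete valuation ring (Mathlib: `IsDiscreteValuationRing.TFAE` /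
`tfae_of_isNoetherianRing_of_isLocalRing_of_isDomain`). Let `v` be its valuation, `𝔫` its maximal ideal. If `σ ∈ 𝔫²` then `dd_j σ ∈ 𝔫` (extend `dd_j` to `O`;
or: `b σ ∈ Q²` for some `b ∉ Q`, so `b dd_j σ ∈ Q`), a contradiction; so `v(σ) = 1`, and `f² u = σ²`, `v(u) = 0` gives `v(f) = 1`, `𝔫 = f O`. (1)
`a ∈ Q ⊆ f O`: `a = f r / b`. (2) `f = ε σ`, `ε ∈ O` a unit; write `ε = r/b`, `b f = r σ` with `b, r ∉ Q`: `b dd_j f + f dd_j b = r dd_j σ + σ dd_j r`, so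
`b dd_j f ≡ r dd_j σ` is not in `Q` (for the `j` with `dd_j σ ∉ Q`). `f ∣ a dd_j f` gives `a dd_j f ∈ Q`, `a ∈ Q`; now (1). -/
def SpecDVQ : Prop := ∀ (n : ℕ) (R : Type) (_ : CommRing R) (_ : IsDomain R) (_ : IsNoetherianRing R)
  (_ : Algebra ℂ R), IsIntegrallyClosed R → ∀ (dd : Fin n → Derivation ℂ R R) (Q : Ideal R),
  Q.IsPrime → (∀ Q' : Ideal R, Q'.IsPrime → Q' < Q → Q' = ⊥) → ∀ f u σ : R, f ≠ 0 → f ∈ Q → u ∉ Q →
  f ^ 2 * u = σ ^ 2 → (∃ j, dd j σ ∉ Q) →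
  (∀ a ∈ Q, ∃ b, b ∉ Q ∧ f ∣ b * a) ∧
  (∀ a, (∀ j, f ∣ a * dd j f) → ∃ b, b ∉ Q ∧ f ∣ b * a)

/-! ## The Pfaffian -/

/-- SQR (~150 lines). The determinant of a skew matrix is a square. PROOF. Over a field `K` of characteristic `≠ 2`: a
nondegenerate skew matrix `A` satisfies `Uᵀ A U = J` (standard symplectic matrix; induction on the size: choose `e, f` with `β(e, f) = 1`,
complement) or: by induction with the Schur complement of an invertible `2 × 2` block. So `det A = (det U)⁻²`. Over `R`: `det A = y²`, `y ∈ K`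
is integral over `R`, so `y ∈ R`. -/
def SpecSQR : Prop := ∀ (n : ℕ) (R : Type) (_ : CommRing R) (_ : IsDomain R) (_ : CharZero R),
  IsIntegrallyClosed R → ∀ A : Matrix (Fin n) (Fin n) R, A.transpose = - A → ∃ f : R, f ^ 2 = A.det

/-- RDQ (~300 lines), USES VJP. A square root of the determinant near a generic point of the divisor. PROOF. `A = (π_(J i, J j))`.
Choose `x ∈ V(𝔮)` with `Δ(x) ≠ 0`, `x ∉ V(b)` (`b` of `Rdc`: `b` is not contained in `𝔮` because `n - 1 ≤ D(𝔮)`, and `2 ≤ n`; Nullstellensatz).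
The rank of `π(x)` is the rank of `A(x)` (`Δ(x) ≠ 0`: the column space of `π(x)` is in `tgx I x`, by `Stab`, so it is determined by the `J`-rows;
same for the rows). `det A ∈ 𝔮`, so the rank is `n - 2`: `ξ, ζ, v` as in `Rdc`. We may assume that `ξ, ζ` vanish outside of `J`: subtract from `ξ` a
combination `ν` of the gradients of the `F_a` at `x`; `π(x) ν = 0` (`Stab`), and `ν · ∂_v π(x) ζ = 0`: differentiate `∑_i ∂_i F π_ij ∈ I` along `v ∈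
tgx I x` and contract with `ζ_j` (`π(x) ζ = 0`). Let `ξ, ζ ∈ ℂ^n` be these; they are independent (the sum is skew in `ξ, ζ`) and span `ker
A(x)`. Complete to a basis `u_1, .., u_(n-2), ξ, ζ` of `ℂ^n`, `U` = the matrix; `B = Uᵀ A U`, `B₁₁` = the block of the `u_i`, `δ = det B₁₁`, `δ(x) ≠ 0`
(rank `n - 2`). `σ = δ (ξ · A ζ) - ∑_ij (ξ · A u_i) adj(B₁₁)_ij (u_j · A ζ)`. Schur complement: `det B = δ det S` over the fraction field of
`S`, `S` skew `2 × 2` with the off-diagonal entry `± σ/δ`, so `(det U)² det A δ = σ²` (polynomial identity). `u = (det U)² δ`, `u(x) ≠ 0`. `σ² ∈ 𝔮`, so `σ ∈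
𝔮`. The derivative of `σ` at `x` along `v` is `δ(x) ξ · ∂_v A ζ ≠ 0` (the other terms have two factors which vanish at `x`), and it is `∑_j v_(J j)
V^j(σ)(x)/Δ(x)` (VJP (3) for `v - `.. at the point `x`): some `V^j(σ)(x) ≠ 0`. -/
def SpecRDQ : Prop := ∀ (N n : ℕ) (I q : Ideal (PR N)) (π : Fin N → Fin N → PR N), 2 ≤ n →
  I.IsPrime → q.IsPrime → I ≤ q → Algebra.trdeg ℂ (PR N ⧸ I) = ((n : ℕ) : Cardinal) →
  ((n : ℕ) : Cardinal) ≤ Algebra.trdeg ℂ (PR N ⧸ q) + 1 → (∀ i j, π j i = - π i j) → Stab π I →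
  Rdc n I π → ∀ c : Crd I n, c.Δ ∉ q → (Matrix.of fun i j => π (c.J i) (c.J j)).det ∈ q →
  ∃ u σ : PR N, (Matrix.of fun i j => π (c.J i) (c.J j)).det * u = σ ^ 2 ∧ u ∉ q ∧ σ ∈ q ∧
    ∃ j, vf (c.V j) σ ∉ q

/-- PFW (~250 lines), USES LOD, NRM, HTO, HGT, DVQ, SQR, RDQ. The Pfaffian `f`, `A W = f`, and `f` is reduced. PROOF. `R`, `ρ`, `dd` of LOD,
`R` is integrally closed (NRM). `A = (ρ π_(J i, J j))`, `det A ≠ 0` (a point of rank `n`; the rank of `π` over `Frac (S / I)` is the rank of the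
`J`-block as in RDQ, or: `det` of the `J`-block `≠ 0` at a point of rank `n` with `Δ ≠ 0`; the open sets meet, `I` prime). SQR: `f² = det A`. Let `Q`
be a prime of `R` with `f ∈ Q`, no prime between `⊥` and `Q`; `𝔮 = ρ⁻¹(Q) ⊆ mx p`, so `Δ ∉ 𝔮`; `𝔮 > I` has no prime in between (primes of `R` correspond to
primes of `S` between `I` and `mx p`), HGT: `n ≤ D(𝔮) + 1`. RDQ: `u, σ` with `f² ρ(u) = ρ(σ)²`, `ρ(u) ∉ Q`, `dd_j ρ(σ) ∉ Q` for some `j`: DVQ applies.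
(1) `f ∣ adj(A)_ij`: HTO with `a = adj(A)_ij`; `adj(A)_ij ∈ Q` because the rank of `A` modulo `Q` is `≤ n - 1` (`det A ∈ Q`), `n` is even (`det A ≠
0`), so `≤ n - 2` (`specSKE` over `Frac (R/Q)`); DVQ (1). `W = adj(A)/f`, `A W = f`. (2) `f ∣ a dd_j f` for all `j` implies `f ∣ a`: HTO and DVQ (2). -/
def SpecPFW : Prop := ∀ (N n : ℕ) (I : Ideal (PR N)) (π : Fin N → Fin N → PR N), 2 ≤ n →
  I.IsPrime → Algebra.trdeg ℂ (PR N ⧸ I) = ((n : ℕ) : Cardinal) → (∀ i j, π j i = - π i j) →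
  Stab π I → Rdc n I π → (∃ x ∈ Zer I, (mat π x).rank = n) → ∀ p ∈ Zer I, ∀ c : Crd I n,
  eval p c.Δ ≠ 0 →
  ∃ (R : Type) (_ : CommRing R) (_ : IsDomain R) (_ : IsLocalRing R) (_ : IsNoetherianRing R)
    (_ : Algebra ℂ R) (ρ : PR N →ₐ[ℂ] R) (dd : Fin n → Derivation ℂ R R)
    (W : Matrix (Fin n) (Fin n) R) (f : R), LRP I p c R ρ dd ∧ f ≠ 0 ∧
    (Matrix.of fun i j => ρ (π (c.J i) (c.J j))) * W = f • (1 : Matrix (Fin n) (Fin n) R) ∧
    f ^ 2 = (Matrix.of fun i j => ρ (π (c.J i) (c.J j))).det ∧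
    ∀ a, (∀ j, f ∣ a * dd j f) → f ∣ a

/-! ## The commutator -/

/-- the derivation defect of the vector field `∑ v_l ∂_l` with respect to the bivector `A` -/
noncomputable def Ldf {n : ℕ} {R : Type} [CommRing R] [Algebra ℂ R]
    (dd : Fin n → Derivation ℂ R R) (A : Matrix (Fin n) (Fin n) R) (v : Fin n → R) (i j : Fin n) : R :=
  ∑ l, v l * dd l (A i j) - ∑ l, (A l j * dd l (v i) + A i l * dd l (v j))

/-- TLI (~300 lines). Identities. PROOF. `W` is skew and `W A = f` (`A` is invertible over the fraction field `K`, `W = f A⁻¹`). Work in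
`K` (extend the derivations; or multiply out). For `v` put `η = W v`, `θ = η / f`, so `v = A θ`. By `∂_a v_i = ∑_b (∂_a A_ib θ_b + A_ib ∂_a θ_b)` and
the Jacobi identity for `(b, i, j)`: `L_ij = Ldf v i j = ∑_ab A_ia (∂_a θ_b - ∂_b θ_a) A_bj`; multiply by `W` on both sides: (1). (2): `v(det A) =
tr (adj A · v(A))` (`DET0M.der_det`), `v(A) = B A + A Bᵀ + L` with `B_ia = ∂_a v_i`, `adj A = f W`: `2 f v(f) = 2 f² tr B + f tr (W L)`; cancel `f`.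
(3): `w = A θ'`, `θ' = η'/f`: `v(w_i) - w(v_i) = ∑_j [(A Bᵀ + L)_ij θ'_j + A_ij v(θ'_j)] = ∑_j A_ij [∂_j (∑_a v_a θ'_a) + ∑_a v_a (∂_a θ'_j - ∂_j θ'_a)] +
∑_j L_ij θ'_j`; multiply by `f²` and use (1) for `w`. -/
def SpecTLI : Prop := ∀ (n : ℕ) (R : Type) (_ : CommRing R) (_ : IsDomain R) (_ : CharZero R)
  (_ : Algebra ℂ R) (dd : Fin n → Derivation ℂ R R), (∀ i j y, dd i (dd j y) = dd j (dd i y)) →
  ∀ (A W : Matrix (Fin n) (Fin n) R) (f : R), f ≠ 0 → A.transpose = - A →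
  A * W = f • (1 : Matrix (Fin n) (Fin n) R) → f ^ 2 = A.det →
  (∀ i j k, ∑ l, (A i l * dd l (A j k) + A j l * dd l (A k i) + A k l * dd l (A i j)) = 0) →
  ∀ v w : Fin n → R,
  (∀ i j, f * (dd i (W.mulVec v j) - dd j (W.mulVec v i)) -
      (dd i f * W.mulVec v j - dd j f * W.mulVec v i) =
    ∑ a, ∑ b, W i a * Ldf dd A v a b * W b j) ∧
  (2 * ∑ l, v l * dd l f = 2 * f * ∑ a, dd a (v a) + ∑ a, ∑ b, W b a * Ldf dd A v a b) ∧
  (∀ i, f ^ 2 * (∑ l, v l * dd l (w i) - ∑ l, w l * dd l (v i)) =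
    ∑ j, A i j * (f * dd j (∑ a, v a * W.mulVec w a) - (∑ a, v a * W.mulVec w a) * dd j f) +
    ∑ j, A i j * (∑ a, v a * ∑ c, ∑ b, W a c * Ldf dd A w c b * W b j) +
    f * ∑ j, Ldf dd A v i j * W.mulVec w j)

/-- TLR (~200 lines). Artin-Rees. PROOF. (1) `φ : R → (R/f)^n`, `φ(a) = (a dd_j f)_j`, a homomorphism of `R`-modules with the kernel `(f)`
(hypothesis). Artin-Rees for the submodule `φ(R)` (`Ideal.exists_pow_inf_eq_pow_smul`): for `k` large `φ(a) ∈ 𝔪^k (R/f)^n` implies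
`φ(a) ∈ 𝔪^(k₁) φ(R)`, so `a ∈ (f) + 𝔪^(k₁)`. (2) the same for multiplication by `f²` on `R` (injective). -/
def SpecTLR : Prop := ∀ (n : ℕ) (R : Type) (_ : CommRing R) (_ : IsDomain R) (_ : IsLocalRing R)
  (_ : IsNoetherianRing R) (_ : Algebra ℂ R) (dd : Fin n → Derivation ℂ R R) (f : R), f ≠ 0 →
  (∀ a, (∀ j, f ∣ a * dd j f) → f ∣ a) →
  (∀ k₁ : ℕ, ∃ k : ℕ, ∀ a : R, (∀ j, a * dd j f ∈ Ideal.span {f} ⊔ IsLocalRing.maximalIdeal R ^ k) →
    a ∈ Ideal.span {f} ⊔ IsLocalRing.maximalIdeal R ^ k₁) ∧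
  ∃ k : ℕ, ∀ a : R, f ^ 2 * a ∈ IsLocalRing.maximalIdeal R ^ k → a ∈ IsLocalRing.maximalIdeal R

/-- TLB (~200 lines), USES TLI, TLR. The commutator of two approximate Poisson fields. PROOF. `k₂` of TLR (2), `k₁ = k₂ + 1`, `k₀` of TLR (1), `k =
max`. Let the defects of `v, w` be in `𝔪^k`. `E'_aj = f (∂_a η'_j - ∂_j η'_a) - (∂_a f η'_j - ∂_j f η'_a)`, `η' = W w`, is in `𝔪^k` (TLI (1)); `v(f) ∈
(f) + 𝔪^k` (TLI (2), `2` is invertible). `u'' = ∑ v_a η'_a`: `∑_a v_a E'_aj = f ∑_a v_a (∂_a η'_j - ∂_j η'_a) - v(f) η'_j + ∂_j f u''`, so `u'' ∂_j f ∈ (f)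
+ 𝔪^k` for all `j`, hence `u'' = f u + r`, `r ∈ 𝔪^(k₁)`. TLI (3): `f² ([v, w]_i - ∑_j A_ij ∂_j u) = ∑_j A_ij (f ∂_j r - r ∂_j f) + (terms in 𝔪^k) ∈ 𝔪^(k₂)`
(`∂_j 𝔪^(k₁) ⊆ 𝔪^(k₂)`), so `[v, w]_i - ∑_j A_ij ∂_j u ∈ 𝔪`. -/
def SpecTLB : Prop := ∀ (n : ℕ) (R : Type) (_ : CommRing R) (_ : IsDomain R) (_ : IsLocalRing R)
  (_ : IsNoetherianRing R) (_ : CharZero R) (_ : Algebra ℂ R) (dd : Fin n → Derivation ℂ R R),
  (∀ i j y, dd i (dd j y) = dd j (dd i y)) →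
  ∀ (A W : Matrix (Fin n) (Fin n) R) (f : R), f ≠ 0 → A.transpose = - A →
  A * W = f • (1 : Matrix (Fin n) (Fin n) R) → f ^ 2 = A.det →
  (∀ i j k, ∑ l, (A i l * dd l (A j k) + A j l * dd l (A k i) + A k l * dd l (A i j)) = 0) →
  (∀ a, (∀ j, f ∣ a * dd j f) → f ∣ a) →
  ∃ k : ℕ, ∀ v w : Fin n → R, (∀ i j, Ldf dd A v i j ∈ IsLocalRing.maximalIdeal R ^ k) →
    (∀ i j, Ldf dd A w i j ∈ IsLocalRing.maximalIdeal R ^ k) →
    ∃ u : R, ∀ i, (∑ l, v l * dd l (w i) - ∑ l, w l * dd l (v i)) - ∑ j, A i j * dd j u ∈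
      IsLocalRing.maximalIdeal R

/-- TLM (~250 lines), USES PFW, TLB, LVF. TRACE LEMMA. PROOF. `R, ρ, dd, W, f` of PFW, `A_ij = ρ(π_(J i, J j))`, `k` of TLB (and `k ≥ 1`). The columns
`X^j = (π_lj)_l` preserve `I` exactly, so `ρ(∑_l π_(l, J j) ∂_l q) = ∑_a A_aj dd_a (ρ q)` (LVF (2)); so the Jacobi identity for `A` follows from
`jac π ∈ I`, and for `v ∈ PVk I π p k`, `v̄ = (ρ v_(J i))_i`: `Ldf dd A v̄ i j ≡ ρ(dfc π v (J i) (J j)) ∈ 𝔪^k` (LVF (1), `pow`). TLB for `v = w`,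
`w = ψ`: `w̄(ψ̄_i) - ψ̄(w̄_i) - ∑_j A_ij dd_j u ∈ 𝔪`; `ψ̄_l ∈ 𝔪` (`ψ(p) = 0`), `w̄(ψ̄_i) ≡ ρ(w(ψ_(J i)))` (LVF (1)). Evaluate at `p` (residue field `ℂ`; `ρ(q) ∈ 𝔪`
iff `q(p) = 0`; write `dd_j u ≡ ξ_j ∈ ℂ`): the `J`-coordinates of `t₁ = (∑_l w_l(p) ∂_l ψ_i(p))_i` and of `t₂ = π(p) ξ̂` (`ξ̂_(J j) = ξ_j`, `0` outside of
`J`) agree. Both are in `tgx I p`: `t₂` by `Stab`; `t₁`: for `F ∈ I`: `ψ(F) = ∑_i ψ_i ∂_i F ∈ I + mx p ^ k`, `k ≥ 2`; its derivative along `w(p) ∈ tgx I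
p` (`w(F)(p) = 0`) at `p` is `0`, and it is `∑_i t₁_i ∂_i F(p)` as `ψ(p) = 0`. Elements of `tgx I p` with the same `J`-coordinates are equal (`Δ(p) ≠
0`). -/
def SpecTLM : Prop := ∀ (N n : ℕ) (I : Ideal (PR N)) (π : Fin N → Fin N → PR N), 2 ≤ n →
  I.IsPrime → Algebra.trdeg ℂ (PR N ⧸ I) = ((n : ℕ) : Cardinal) → (∀ i j, π j i = - π i j) →
  Stab π I → (∀ i j l, jac π i j l ∈ I) → Rdc n I π → (∃ x ∈ Zer I, (mat π x).rank = n) →
  ∀ p ∈ Zer I, (∃ c : Crd I n, eval p c.Δ ≠ 0) →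
  ∃ k : ℕ, ∀ ψ ∈ PVk I π p k, ∀ w ∈ PVk I π p k, (∀ l, eval p (ψ l) = 0) →
    ∃ ξ : Cn N, ∀ i, ∑ l, eval p (w l) * eval p (pderiv l (ψ i)) = (mat π p).mulVec ξ i

end Pool.Agent.Lib.MPc9b009.LF
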