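import Pool.Agent.Lib.MP_c9b009_ag.LF.SpecA

/-!
# MP_c9b009_ag, row LF, module TRZ: the isotropy has trace zero
-/

set_option autoImplicit false

namespace Pool.Agent.Lib.MPc9b009.LF

open MvPolynomial Pool.Agent.Lib.MPc9b009.B5 Pool.Agent.Lib.MPc9b009.OD
  Pool.Agent.Lib.MPc9b009.PS Pool.Agent.Lib.MPc9b009.LS

namespace TRZM

open Matrix

/-- A generalized inverse. -/
theorem exists_ginv {N : ℕ} (A : Matrix (Fin N) (Fin N) ℂ) :
    ∃ G : Matrix (Fin N) (Fin N) ℂ, A * G * A = A := by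
  obtain ⟨g', hg'⟩ := A.mulVecLin.rangeRestrict.exists_rightInverse_of_surjective
    (LinearMap.range_rangeRestrict _)
  obtain ⟨g, hg⟩ := LinearMap.exists_extend g'
  refine ⟨LinearMap.toMatrix' g, ?_⟩
  refine Matrix.ext_of_mulVec_single fun i => ?_
  rw [← Matrix.mulVec_mulVec, ← Matrix.mulVec_mulVec]
  set v := A *ᵥ Pi.single i 1 with hv
  have hmem : v ∈ LinearMap.range A.mulVecLin := ⟨Pi.single i 1, rfl⟩
  have h1 : LinearMap.toMatrix' g *ᵥ v = g v := by
    rw [← Matrix.toLin'_apply, Matrix.toLin'_toMatrix']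
  have h2 : g v = g' ⟨v, hmem⟩ := by
    rw [← hg]
    rfl
  have h3 := congrArg Subtype.val (LinearMap.congr_fun hg' ⟨v, hmem⟩)
  rw [h1, h2]
  exact h3

/-- A skew generalized inverse of a skew matrix. -/
theorem exists_skew_ginv {N : ℕ} (A : Matrix (Fin N) (Fin N) ℂ) (hA : A.transpose = - A) :
    ∃ G : Matrix (Fin N) (Fin N) ℂ, A * G * A = A ∧ G.transpose = - G := by
  obtain ⟨G, hG⟩ := exists_ginv A
  have h1 : A * G.transpose * A = - A := by
    have h2 := congrArg Matrix.transpose hG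
    rw [transpose_mul, transpose_mul, hA, ← Matrix.mul_assoc] at h2
    simpa using h2
  refine ⟨(1 / 2 : ℂ) • (G - G.transpose), ?_, ?_⟩
  · rw [Matrix.mul_smul, Matrix.smul_mul, Matrix.mul_sub, Matrix.sub_mul, hG, h1, sub_neg_eq_add,
      ← two_smul ℂ A, smul_smul]
    norm_num
  · rw [transpose_smul, transpose_sub, transpose_transpose, ← smul_neg, neg_sub]

/-- The trace lemma. -/
theorem trace_zero {N d : ℕ} (M A : Matrix (Fin N) (Fin N) ℂ) (E : Matrix (Fin N) (Fin d) ℂ)
    (hA : A.transpose = - A) (hMA : M * A + A * M.transpose = 0)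
    (hE : ∀ X Y : Matrix (Fin d) (Fin d) ℂ, E * X = E * Y → X = Y)
    (hT : ∀ Z : Matrix (Fin N) (Fin N) ℂ, ∃ Y : Matrix (Fin d) (Fin N) ℂ, A * Z = E * Y)
    (Ξ : Matrix (Fin N) (Fin d) ℂ) (hΞ : M * E = A * Ξ) (Ψ : Matrix (Fin d) (Fin d) ℂ)
    (hΨ : M * E = E * Ψ) : Ψ.trace = 0 := by
  obtain ⟨G, hG, hGs⟩ := exists_skew_ginv A hA
  obtain ⟨Y, hY⟩ := hT G
  have h1 : Ψ = Y * (M * E) := by
    refine hE _ _ ?_
    rw [← hΨ, ← Matrix.mul_assoc, ← hY, hΞ, ← Matrix.mul_assoc, hG]
  have h2 : Ψ.trace = (M * (A * G)).trace := by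
    rw [h1, Matrix.trace_mul_comm, Matrix.mul_assoc, ← hY]
  have h3 : (M * (A * G)).trace = - (M * (A * G)).trace := by
    have h4 : M * A = - (A * M.transpose) := eq_neg_of_add_eq_zero_left hMA
    calc (M * (A * G)).trace = (- (A * M.transpose) * G).trace := by
          rw [← Matrix.mul_assoc, h4]
      _ = - ((A * M.transpose * G).transpose).trace := by
          rw [Matrix.neg_mul, Matrix.trace_neg, Matrix.trace_transpose]
      _ = - (G * (M * A)).trace := by
          rw [transpose_mul, transpose_mul, transpose_transpose, hA, hGs]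
          simp only [Matrix.mul_neg, Matrix.neg_mul, neg_neg]
      _ = - (M * (A * G)).trace := by
          rw [Matrix.trace_mul_comm, Matrix.mul_assoc]
  rw [h2]
  have h5 : (2 : ℂ) * (M * (A * G)).trace = 0 := by linear_combination h3
  simpa using h5

theorem eval_mx {N k : ℕ} {I P : Ideal (PR N)} {p : Cn N} (hk : 1 ≤ k) (hIP : I ≤ P) (hp : p ∈ Zer P)
    {q : PR N} (hq : q ∈ I ⊔ mx p ^ k) : eval p q = 0 := by
  obtain ⟨a, ha, b, hb, rfl⟩ := Submodule.mem_sup.1 hq
  have h1 : b ∈ mx p := (Ideal.pow_le_self (by omega)) hb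
  rw [map_add, hp a (hIP ha), zero_add]
  exact h1

end TRZM

open Matrix in
/-- The isotropy has trace zero. -/
theorem specTRZ (hTLM : SpecTLM) (hTRS : SpecTRS) : SpecTRZ := by
  intro N n r d I P π V p hn hIp hI hsk hSI hjac hRdc hgen hCrd hIP hP hSP hV hp hmin
  have hpI : p ∈ Zer I := fun q hq => hp q (hIP hq)
  obtain ⟨k₀, hk₀⟩ := hTLM N n I π hn hIp hI hsk hSI hjac hRdc hgen p hpI hCrd
  have hle : mx p ^ (max k₀ 2) ≤ mx p ^ k₀ := Ideal.pow_le_pow_right (le_max_left _ _)
  have hPVk : ∀ v ∈ PVk I π p (max k₀ 2), v ∈ PVk I π p k₀ := fun v hv =>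
    ⟨fun q hq => sup_le_sup_left hle _ (hv.1 q hq), fun i j => sup_le_sup_left hle _ (hv.2 i j)⟩
  refine ⟨max k₀ 2, fun ψ hψ _ hψ0 e he heli => ?_⟩
  set M : Matrix (Fin N) (Fin N) ℂ := Matrix.of fun i l => eval p (pderiv l (ψ i)) with hM
  set A : Matrix (Fin N) (Fin N) ℂ := mat π p with hA
  set E : Matrix (Fin N) (Fin d) ℂ := Matrix.of fun a j => e j a with hE
  have hAs : A.transpose = - A := by
    ext i j
    rw [transpose_apply, neg_apply, hA]
    unfold mat
    rw [of_apply, of_apply, hsk i j, map_neg]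
  -- the range of `A` is in the tangent space
  have hF : ∀ ξ : Cn N, A *ᵥ ξ ∈ tgx P p := by
    intro ξ q hq
    have h1 : ∀ j, ∑ l, A l j * eval p (pderiv l q) = 0 := by
      intro j
      have h2 := hp _ (hSP q hq j)
      rw [map_sum] at h2
      rw [← h2]
      refine Finset.sum_congr rfl fun l _ => ?_
      rw [map_mul]
      rfl
    have h4 : ∀ l, (A *ᵥ ξ) l * aeval p (pderiv l q) = ∑ j, ξ j * (A l j * eval p (pderiv l q)) := by
      intro l
      change (∑ j, A l j * ξ j) * eval p (pderiv l q) = _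
      rw [Finset.sum_mul]
      refine Finset.sum_congr rfl fun j _ => ?_
      ring
    rw [Finset.sum_congr rfl fun l _ => h4 l, Finset.sum_comm]
    refine Finset.sum_eq_zero fun j _ => ?_
    rw [← Finset.mul_sum, h1 j, mul_zero]
  -- `M` maps the tangent space to the range
  have hB : ∀ t ∈ tgx P p, ∃ ξ : Cn N, M *ᵥ t = A *ᵥ ξ := by
    intro t ht
    obtain ⟨w, hw, _, hwt⟩ := hTRS N r I P π V p hIP hP hV hp hmin (max k₀ 2) t ht
    obtain ⟨ξ, hξ⟩ := hk₀ ψ (hPVk ψ hψ) w (hPVk w hw) hψ0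
    refine ⟨ξ, ?_⟩
    funext i
    rw [← hξ i]
    change ∑ l, M i l * t l = _
    refine Finset.sum_congr rfl fun l _ => ?_
    rw [hwt l, mul_comm]
    rfl
  have he' : ∀ j, e j ∈ tgx P p := fun j => (he _).2 (Submodule.subset_span ⟨j, rfl⟩)
  have hcol : ∀ t ∈ tgx P p, ∃ c : Fin d → ℂ, ∑ i, c i • e i = t := fun t ht =>
    (Submodule.mem_span_range_iff_exists_fun ℂ).1 ((he t).1 ht)
  have hMA : M * A + A * M.transpose = 0 := by
    ext i j
    rw [Matrix.add_apply, Matrix.zero_apply, Matrix.mul_apply, Matrix.mul_apply]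
    have h1 := TRZM.eval_mx (le_trans (by norm_num) (le_max_right k₀ 2)) hIP hp (hψ.2 i j)
    unfold dfc vf at h1
    rw [map_sub, map_sum, map_sum] at h1
    have h2 : ∑ l, eval p (ψ l * pderiv l (π i j)) = 0 :=
      Finset.sum_eq_zero fun l _ => by rw [map_mul, hψ0 l, zero_mul]
    rw [h2, zero_sub, neg_eq_zero] at h1
    rw [← Finset.sum_add_distrib, ← h1]
    refine Finset.sum_congr rfl fun l _ => ?_
    rw [map_add, map_mul, map_mul, transpose_apply]
    change eval p (pderiv l (ψ i)) * eval p (π l j) + eval p (π i l) * eval p (pderiv l (ψ j)) = _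
    ring
  choose ξ hξ using fun j => hB (e j) (he' j)
  have hFE : ∀ j, M *ᵥ e j ∈ tgx P p := fun j => by
    rw [hξ j]
    exact hF _
  choose Ψ hΨ using fun j => hcol _ (hFE j)
  have hmE : ∀ j, M *ᵥ e j = fun a => (M * E) a j := by
    intro j
    rfl
  refine ⟨Matrix.of fun i j => Ψ j i, ?_, ?_⟩
  · refine TRZM.trace_zero M A E hAs hMA ?_ ?_ (Matrix.of fun a j => ξ j a) ?_ _ ?_
    · intro X Y hXY
      ext i j
      have h1 : ∑ i, (X i j - Y i j) • e i = 0 := by
        funext a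
        have h2 := congrFun (congrFun hXY a) j
        rw [Matrix.mul_apply, Matrix.mul_apply] at h2
        rw [Finset.sum_apply, Pi.zero_apply, ← sub_eq_zero.2 h2, ← Finset.sum_sub_distrib]
        refine Finset.sum_congr rfl fun i _ => ?_
        rw [Pi.smul_apply, smul_eq_mul]
        change (X i j - Y i j) * e i a = e i a * X i j - e i a * Y i j
        ring
      exact sub_eq_zero.1 (Fintype.linearIndependent_iff.1 heli _ h1 i)
    · intro Z
      choose c hc using fun b => hcol _ (hF fun a => Z a b)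
      refine ⟨Matrix.of fun i b => c b i, ?_⟩
      ext a b
      have h1 := congrFun (hc b) a
      rw [Finset.sum_apply] at h1
      change (A *ᵥ fun a => Z a b) a = ∑ i, e i a * c b i
      rw [← h1]
      refine Finset.sum_congr rfl fun i _ => ?_
      rw [Pi.smul_apply, smul_eq_mul, mul_comm]
    · ext a j
      exact congrFun (hξ j) a
    · ext a j
      have h1 := congrFun (hΨ j) a
      rw [Finset.sum_apply] at h1
      change (M *ᵥ e j) a = ∑ i, e i a * Ψ j i
      rw [← h1]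
      refine Finset.sum_congr rfl fun i _ => ?_
      rw [Pi.smul_apply, smul_eq_mul, mul_comm]
  · intro j l
    have h1 := congrFun (hΨ j) l
    rw [Finset.sum_apply] at h1
    change (M *ᵥ e j) l = _
    rw [← h1]
    refine Finset.sum_congr rfl fun i _ => ?_
    rw [Pi.smul_apply, smul_eq_mul]
    rfl

end Pool.Agent.Lib.MPc9b009.LF
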